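import Pool.Agent.Lib.MP_078193_al.UpDown

/-! The finite check on graphs with at most six vertices. -/

namespace Pool.Agent.Lib.MP_078193_al

def allL : ℕ → (List Bool → Bool) → Bool
  | 0, p => p []
  | n + 1, p => allL n (fun l => p (true :: l)) && allL n fun l => p (false :: l)

theorem allL_spec {n : ℕ} {p : List Bool → Bool} (h : allL n p = true) (l : List Bool)
    (hl : l.length = n) : p l = true := by
  induction n generalizing p l with
  | zero => rwa [List.length_eq_zero_iff.1 hl]
  | succ n ih =>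
    obtain _ | ⟨b, l⟩ := l
    · simp at hl
    rw [allL, Bool.and_eq_true] at h
    cases b
    exacts [ih h.2 l (by simpa using hl), ih h.1 l (by simpa using hl)]

/-- degree sequence -/
def dg (m : ℕ) (a : ℕ → ℕ → Bool) : List ℕ := (List.range m).map fun i =>
  (List.range m).countP fun j => if i < j then a i j else if j < i then a j i else false

def key (d : List ℕ) : ℕ := ((List.range 6).map fun s => if s ∈ d then 2 ^ s else 0).sum

def cert (t k : ℕ) : ℤ × ℤ :=
  if k = 3 then (if t = 4 then (8, 5) else (2, 1)) else if k = 5 then (5, 7) else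
  if k = 15 then (3, 5) else if k = 29 then (2, 5) else if k = 7 ∨ k = 11 ∨ k = 19 then (1, 1) else
  if k = 25 ∨ k = 17 then (1, 3) else (1, 2)

def ok1 (t : ℕ) (c : ℤ × ℤ) (d : List ℕ) : Prop :=
  (t + 2) * (d.map fun x : ℕ => c.1 * x - c.2).sum ^ 2 <
    6 * (d.map fun x : ℕ => (c.1 * x - c.2) ^ 2).sum

def rr (x : ℤ) : ℤ := 16 * (x - 1) * (6 * x - 5) - 24 * x - 5

def ok2 (d : List ℕ) : Prop :=
  448 * (d.map fun x : ℕ => (x : ℤ) - 1).sum ^ 2 <
    (d.map fun x : ℕ => 128 * ((x : ℤ) - 1) ^ 2 + 8 * rr x).sum ∧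
  64 * (d.map fun x : ℕ => (x : ℤ) - 1).sum ^ 2 ≤
    (d.map fun x : ℕ => 64 * ((x : ℤ) - 1) ^ 2 + rr x).sum

def ok (t : ℕ) (d : List ℕ) : Prop :=
  key d = 1 ∨ if t = 5 ∧ key d = 7 then ok2 d else ok1 t (cert t (key d)) d

instance (t : ℕ) (d : List ℕ) : Decidable (ok t d) := by unfold ok ok1 ok2; infer_instance

def chk (t : ℕ) : Bool := allL (t * (t - 1) / 2) fun l =>
  decide (ok t (0 :: dg t fun i j => l.getD (j * (j - 1) / 2 + i) false))

theorem chk_all : chk 2 ∧ chk 3 ∧ chk 4 ∧ chk 5 := by decide +kernel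

theorem ok_dg {t : ℕ} (h2 : 2 ≤ t) (h5 : t ≤ 5) (a : ℕ → ℕ → Bool) : ok t (0 :: dg t a) := by
  have h : chk t := by obtain ⟨_, _, _, _⟩ := chk_all; interval_cases t <;> assumption
  have := allL_spec h ((List.range t).flatMap fun j => (List.range j).map fun i => a i j)
    (by interval_cases t <;> rfl)
  rw [decide_eq_true_eq] at this
  convert this using 2
  refine List.map_congr_left fun i hi => List.countP_congr fun j hj => ?_
  rw [List.mem_range] at hi hj
  interval_cases t <;> interval_cases i <;> interval_cases j <;> rfl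

theorem dg_eq {α : Type*} [DecidableEq α] {l : List α} (hl : l.Nodup) {R : α → α → Prop}
    [DecidableRel R] (hs : ∀ v w, R v w → R w v) (x : α) :
    dg l.length (fun i j => decide (R (l.getD i x) (l.getD j x))) =
      l.map fun v => l.countP fun w => w ≠ v ∧ R v w := by
  have e : l = (List.range l.length).map (l.getD · x) := List.ext_getElem (by simp) (by simp +contextual)
  conv_rhs => rw [e]
  rw [List.map_map]
  refine List.map_congr_left fun i hi => ?_
  rw [Function.comp, List.countP_map]
  refine List.countP_congr fun j hj => ?_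
  rw [List.mem_range] at hi hj
  have : l[j] = l[i] ↔ j = i := hl.getElem_inj_iff
  have := hs l[i] l[j]
  have := hs l[j] l[i]
  simp only [Function.comp, List.getD_eq_getElem _ _ hi, List.getD_eq_getElem _ _ hj]
  grind

end Pool.Agent.Lib.MP_078193_al
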