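import Mathlib

/-! Basic counting for permutation groups acting on an invariant finite set. -/

open Finset Equiv
open scoped Pointwise

set_option linter.unusedSectionVars false

namespace Pool.Agent.H5Hom

variable {α : Type} [Fintype α] [DecidableEq α]

open Classical in
/-- orbit as a finset -/
noncomputable def orb {X : Type} [Fintype X] [MulAction (Perm α) X]
    (H : Subgroup (Perm α)) (x : X) : Finset X :=
  univ.filter (fun y => ∃ h ∈ H, h • x = y)

/-- stabiliser inside `H` -/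
def st {X : Type} [MulAction (Perm α) X] (H : Subgroup (Perm α)) (x : X) :
    Subgroup (Perm α) := H ⊓ MulAction.stabilizer (Perm α) x

/-- pointwise stabiliser inside `H` -/
def fx (H : Subgroup (Perm α)) (S : Finset α) : Subgroup (Perm α) where
  carrier := {g | g ∈ H ∧ ∀ x ∈ S, g x = x}
  mul_mem' := by
    rintro a b ⟨ha, ha'⟩ ⟨hb, hb'⟩
    exact ⟨H.mul_mem ha hb, fun x hx => by simp [hb' x hx, ha' x hx]⟩
  one_mem' := ⟨H.one_mem, fun x _ => rfl⟩
  inv_mem' := by
    rintro a ⟨ha, ha'⟩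
    exact ⟨H.inv_mem ha, fun x hx => by rw [Perm.inv_eq_iff_eq, ha' x hx]⟩

/-- invariance -/
def Inv (H : Subgroup (Perm α)) (Ω : Finset α) : Prop := ∀ h ∈ H, ∀ x ∈ Ω, h x ∈ Ω

/-- `j`-homogeneity on `Ω` -/
def Hom (H : Subgroup (Perm α)) (Ω : Finset α) (j : ℕ) : Prop :=
  ∀ A ⊆ Ω, ∀ B ⊆ Ω, A.card = j → B.card = j → ∃ h ∈ H, h • A = B

/-- `τ`-transitivity on `Ω` -/
def Tr (H : Subgroup (Perm α)) (Ω : Finset α) (τ : ℕ) : Prop :=
  ∀ S ⊆ Ω, S.card ≤ τ → ∀ φ : α → α, Set.InjOn φ S → (∀ x ∈ S, φ x ∈ Ω) →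
    ∃ g ∈ H, ∀ x ∈ S, g x = φ x

/-- `H` induces at least the alternating group on `Ω` -/
def Alt3 (H : Subgroup (Perm α)) (Ω : Finset α) : Prop :=
  ∀ u ∈ Ω, ∀ v ∈ Ω, ∀ z ∈ Ω, u ≠ v → u ≠ z → v ≠ z →
    ∃ h ∈ H, h u = v ∧ ∀ x ∈ Ω, x ≠ u → x ≠ v → x ≠ z → h x = x

open Classical in
/-- elements of `H` with prescribed values on `S` -/
noncomputable def cos (H : Subgroup (Perm α)) (S : Finset α) (φ : α → α) : Finset (Perm α) :=
  univ.filter (fun g => g ∈ H ∧ ∀ x ∈ S, g x = φ x)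

omit [Fintype α] [DecidableEq α] in
lemma ap_inv (f : Perm α) (x : α) : f (f⁻¹ x) = x := f.apply_symm_apply x

omit [Fintype α] [DecidableEq α] in
lemma inv_ap (f : Perm α) (x : α) : f⁻¹ (f x) = x := f.symm_apply_apply x

section generic
variable {X : Type} [Fintype X] [MulAction (Perm α) X] {H : Subgroup (Perm α)}

lemma mem_orb {x y : X} : y ∈ orb H x ↔ ∃ h ∈ H, h • x = y := by
  simp [orb]

omit [Fintype X] [Fintype α] [DecidableEq α] in
lemma mem_st {x : X} {g : Perm α} : g ∈ st H x ↔ g ∈ H ∧ g • x = x := by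
  simp [st, MulAction.mem_stabilizer_iff]

lemma self_mem_orb (x : X) : x ∈ orb H x := mem_orb.2 ⟨1, H.one_mem, one_smul _ _⟩

lemma orb_symm {x y : X} (h : y ∈ orb H x) : x ∈ orb H y := by
  obtain ⟨g, hg, rfl⟩ := mem_orb.1 h
  exact mem_orb.2 ⟨g⁻¹, H.inv_mem hg, by simp⟩

lemma orb_trans {x y z : X} (h : y ∈ orb H x) (h' : z ∈ orb H y) : z ∈ orb H x := by
  obtain ⟨g, hg, rfl⟩ := mem_orb.1 h
  obtain ⟨g', hg', rfl⟩ := mem_orb.1 h'
  exact mem_orb.2 ⟨g' * g, H.mul_mem hg' hg, by simp [mul_smul]⟩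

lemma orb_eq {x y : X} (h : y ∈ orb H x) : orb H y = orb H x := by
  ext z
  exact ⟨fun hz => orb_trans h hz, fun hz => orb_trans (orb_symm h) hz⟩

lemma orb_eq_iff {x y : X} : orb H y = orb H x ↔ y ∈ orb H x :=
  ⟨fun h => h ▸ self_mem_orb y, orb_eq⟩

lemma smul_mem_orb {x y : X} {g : Perm α} (hg : g ∈ H) : g • y ∈ orb H x ↔ y ∈ orb H x := by
  have h1 : g • y ∈ orb H y := mem_orb.2 ⟨g, hg, rfl⟩
  exact ⟨fun h => orb_trans h (orb_symm h1), fun h => orb_trans h h1⟩

end generic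

open Classical in
lemma card_coset (K : Subgroup (Perm α)) (g₀ : Perm α) :
    (univ.filter (fun g => g₀⁻¹ * g ∈ K)).card = Nat.card K := by
  rw [Nat.card_eq_fintype_card, Fintype.card_subtype]
  refine card_bij (fun g _ => g₀⁻¹ * g) (by simp) (by simp) ?_
  intro k hk
  exact ⟨g₀ * k, by simpa using hk, by simp⟩

open Classical in
lemma card_mem (K : Subgroup (Perm α)) :
    (univ.filter (fun g => g ∈ K)).card = Nat.card K := by
  simpa using card_coset K 1

lemma orb_mul_st {X : Type} [Fintype X] [MulAction (Perm α) X] (H : Subgroup (Perm α)) (x : X) :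
    (orb H x).card * Nat.card (st H x) = Nat.card H := by
  classical
  rw [← card_mem H, card_eq_sum_card_fiberwise (s := univ.filter (fun g : Perm α => g ∈ H))
    (f := fun g : Perm α => g • x) (t := orb H x)]
  · rw [← smul_eq_mul, ← sum_const]
    refine sum_congr rfl fun y hy => ?_
    obtain ⟨g, hg, rfl⟩ := mem_orb.1 hy
    rw [← card_coset (st H x) g]
    congr 1
    ext k
    simp only [mem_filter, mem_univ, true_and, mem_st, mul_smul, inv_smul_eq_iff]
    constructor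
    · rintro ⟨h1, h2⟩
      exact ⟨by simpa using H.mul_mem hg h1, h2⟩
    · rintro ⟨h1, h2⟩
      exact ⟨H.mul_mem (H.inv_mem hg) h1, h2⟩
  · intro g hg
    exact mem_coe.2 (mem_orb.2 ⟨g, (mem_filter.1 (mem_coe.1 hg)).2, rfl⟩)

variable {H : Subgroup (Perm α)} {Ω : Finset α}

omit [Fintype α] [DecidableEq α] in
lemma mem_fx {S : Finset α} {g : Perm α} : g ∈ fx H S ↔ g ∈ H ∧ ∀ x ∈ S, g x = x := Iff.rfl

omit [Fintype α] [DecidableEq α] in
lemma fx_le (S : Finset α) : fx H S ≤ H := fun _ h => h.1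

omit [Fintype α] [DecidableEq α] in
lemma fx_anti {S T : Finset α} (h : S ⊆ T) : fx H T ≤ fx H S :=
  fun _ hg => ⟨hg.1, fun x hx => hg.2 x (h hx)⟩

omit [Fintype α] in
lemma st_fx (S : Finset α) (x : α) : st (fx H S) x = fx H (insert x S) := by
  ext g
  simp only [mem_st, mem_fx, mem_insert, Perm.smul_def, forall_eq_or_imp]
  tauto

omit [Fintype α] [DecidableEq α] in
lemma fx_empty : fx H ∅ = H := by
  ext g; simp [mem_fx]

lemma mem_cos {S : Finset α} {φ : α → α} {g : Perm α} :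
    g ∈ cos H S φ ↔ g ∈ H ∧ ∀ x ∈ S, g x = φ x := by
  simp [cos]

lemma card_cos {S : Finset α} {φ : α → α} (h : (cos H S φ).Nonempty) :
    (cos H S φ).card = Nat.card (fx H S) := by
  classical
  obtain ⟨g, hg⟩ := h
  rw [mem_cos] at hg
  rw [← card_coset (fx H S) g]
  congr 1
  ext k
  simp only [mem_cos, mem_filter, mem_univ, true_and, mem_fx, Perm.mul_apply, Perm.inv_eq_iff_eq]
  constructor
  · rintro ⟨h1, h2⟩
    exact ⟨H.mul_mem (H.inv_mem hg.1) h1, fun x hx => by rw [h2 x hx, hg.2 x hx]⟩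
  · rintro ⟨h1, h2⟩
    exact ⟨by simpa using H.mul_mem hg.1 h1, fun x hx => by rw [h2 x hx, hg.2 x hx]⟩

lemma card_cos_le (S : Finset α) (φ : α → α) : (cos H S φ).card ≤ Nat.card (fx H S) := by
  rcases (cos H S φ).eq_empty_or_nonempty with h | h
  · simp [h]
  · exact (card_cos h).le

omit [Fintype α] in
lemma mem_smul {g : Perm α} {A : Finset α} {y : α} : y ∈ g • A ↔ g⁻¹ y ∈ A := by
  rw [← Finset.inv_smul_mem_iff]; rfl

omit [Fintype α] in
lemma apply_mem_smul {g : Perm α} {A : Finset α} {y : α} : g y ∈ g • A ↔ y ∈ A := by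
  simp [mem_smul]

omit [Fintype α] in
lemma smul_eq_image (g : Perm α) (A : Finset α) : g • A = A.image g := rfl

omit [Fintype α] in
lemma smul_insert (g : Perm α) (A : Finset α) (x : α) :
    g • insert x A = insert (g x) (g • A) := by
  simp [smul_eq_image, image_insert]

omit [Fintype α] in
lemma smul_erase (g : Perm α) (A : Finset α) (x : α) :
    g • A.erase x = (g • A).erase (g x) := by
  simp [smul_eq_image, image_erase g.injective]

omit [Fintype α] in
lemma card_smul (g : Perm α) (A : Finset α) : (g • A).card = A.card :=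
  card_smul_finset g A

omit [Fintype α] in
lemma smul_subset_smul {g : Perm α} {A B : Finset α} : g • A ⊆ g • B ↔ A ⊆ B :=
  smul_finset_subset_smul_finset_iff

omit [Fintype α] in
lemma Inv.smul_subset (hi : Inv H Ω) {g : Perm α} (hg : g ∈ H) {A : Finset α} (hA : A ⊆ Ω) :
    g • A ⊆ Ω := by
  intro y hy
  have := hi g hg _ (hA (mem_smul.1 hy))
  simpa using this

omit [Fintype α] in
lemma Inv.smul_eq (hi : Inv H Ω) {g : Perm α} (hg : g ∈ H) : g • Ω = Ω :=
  eq_of_subset_of_card_le (hi.smul_subset hg subset_rfl) (card_smul g Ω).ge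

omit [Fintype α] [DecidableEq α] in
lemma Inv.mono (hi : Inv H Ω) {K : Subgroup (Perm α)} (h : K ≤ H) : Inv K Ω :=
  fun g hg => hi g (h hg)

lemma inv_univ : Inv H (univ : Finset α) := fun _ _ _ _ => mem_univ _

lemma card_of_mem_orb {A B : Finset α} (h : B ∈ orb H A) : B.card = A.card := by
  obtain ⟨g, -, rfl⟩ := mem_orb.1 h
  exact card_smul g A

omit [Fintype α] in
/-- conjugate pointwise stabilisers have the same order -/
lemma card_fx_smul {g : Perm α} (hg : g ∈ H) (S : Finset α) :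
    Nat.card (fx H (g • S)) = Nat.card (fx H S) := by
  refine Nat.card_congr ⟨fun k => ⟨g⁻¹ * k * g, ?_⟩, fun k => ⟨g * k * g⁻¹, ?_⟩, ?_, ?_⟩
  · refine ⟨H.mul_mem (H.mul_mem (H.inv_mem hg) k.2.1) hg, fun x hx => ?_⟩
    simp [k.2.2 (g x) (apply_mem_smul.2 hx)]
  · refine ⟨H.mul_mem (H.mul_mem hg k.2.1) (H.inv_mem hg), fun x hx => ?_⟩
    rw [Perm.mul_apply, Perm.mul_apply, k.2.2 _ (mem_smul.1 hx)]
    simp
  · intro k; ext x; simp
  · intro k; ext x; simp

lemma card_fx_of_mem_orb {A B : Finset α} (h : B ∈ orb H A) :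
    Nat.card (fx H B) = Nat.card (fx H A) := by
  obtain ⟨g, hg, rfl⟩ := mem_orb.1 h
  exact card_fx_smul hg A

lemma orb_fx_mul (S : Finset α) (x : α) :
    (orb (fx H S) x).card * Nat.card (fx H (insert x S)) = Nat.card (fx H S) := by
  rw [← st_fx, orb_mul_st]

omit [Fintype α] [DecidableEq α] in
lemma Tr.mono {τ σ : ℕ} (h : Tr H Ω τ) (hs : σ ≤ τ) : Tr H Ω σ :=
  fun S hS hc => h S hS (hc.trans hs)

lemma Tr.cos_nonempty {τ : ℕ} (h : Tr H Ω τ) {S : Finset α} (hS : S ⊆ Ω) (hc : S.card ≤ τ)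
    {φ : α → α} (hφ : Set.InjOn φ S) (hφ' : ∀ x ∈ S, φ x ∈ Ω) : (cos H S φ).Nonempty := by
  obtain ⟨g, hg⟩ := h S hS hc φ hφ hφ'
  exact ⟨g, mem_cos.2 hg⟩

omit [Fintype α] in
lemma injOn_update {S : Finset α} {φ : α → α} (hφ : Set.InjOn φ S) {x y : α} (hx : x ∉ S)
    (hy : ∀ s ∈ S, φ s ≠ y) : Set.InjOn (Function.update φ x y) (insert x S : Finset α) := by
  intro a ha b hb hab
  simp only [coe_insert, Set.mem_insert_iff, mem_coe] at ha hb
  rcases ha with rfl | ha <;> rcases hb with rfl | hb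
  · rfl
  · have : b ≠ a := fun h => hx (h ▸ hb)
    simp only [Function.update_self, Function.update_of_ne this] at hab
    exact absurd hab.symm (hy b hb)
  · have : a ≠ b := fun h => hx (h ▸ ha)
    simp only [Function.update_self, Function.update_of_ne this] at hab
    exact absurd hab (hy a ha)
  · have h1 : a ≠ x := fun h => hx (h ▸ ha)
    have h2 : b ≠ x := fun h => hx (h ▸ hb)
    simp only [Function.update_of_ne h1, Function.update_of_ne h2] at hab
    exact hφ ha hb hab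

lemma Tr.orb_fx {τ : ℕ} (hi : Inv H Ω) (h : Tr H Ω τ) {S : Finset α} (hS : S ⊆ Ω)
    (hc : S.card + 1 ≤ τ) {x : α} (hx : x ∈ Ω) (hxS : x ∉ S) : orb (fx H S) x = Ω \ S := by
  ext y
  rw [mem_orb, mem_sdiff]
  constructor
  · rintro ⟨g, hg, rfl⟩
    refine ⟨hi g hg.1 x hx, fun h' => hxS ?_⟩
    have := hg.2 _ h'
    simp only [Perm.smul_def, EmbeddingLike.apply_eq_iff_eq] at this h'
    rwa [this] at h'
  · rintro ⟨hy, hyS⟩
    obtain ⟨g, hg, hg'⟩ := h (insert x S) (insert_subset hx hS)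
      (by rw [card_insert_of_notMem hxS]; exact hc) (Function.update id x y)
      (injOn_update (Set.injOn_id _) hxS (fun s hs h' => hyS (h' ▸ hs))) (by
        intro z hz
        rcases mem_insert.1 hz with rfl | hz
        · simpa using hy
        · have : z ≠ x := fun h => hxS (h ▸ hz)
          simpa [this] using hS hz)
    refine ⟨g, ⟨hg, fun z hz => ?_⟩, by simpa using hg' x (mem_insert_self _ _)⟩
    have : z ≠ x := fun h => hxS (h ▸ hz)
    simpa [this] using hg' z (mem_insert_of_mem hz)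

lemma Tr.card_fx_insert {τ : ℕ} (hi : Inv H Ω) (h : Tr H Ω τ) {S : Finset α} (hS : S ⊆ Ω)
    (hc : S.card + 1 ≤ τ) {x : α} (hx : x ∈ Ω) (hxS : x ∉ S) :
    (Ω.card - S.card) * Nat.card (fx H (insert x S)) = Nat.card (fx H S) := by
  rw [← orb_fx_mul S x, h.orb_fx hi hS hc hx hxS, card_sdiff_of_subset hS]

lemma Tr.card_fx {τ : ℕ} (hi : Inv H Ω) (h : Tr H Ω τ) (S : Finset α) (hS : S ⊆ Ω)
    (hc : S.card ≤ τ) : Ω.card.descFactorial S.card * Nat.card (fx H S) = Nat.card H := by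
  induction S using Finset.induction_on with
  | empty => simp [fx_empty]
  | insert x S hxS ih =>
    rw [card_insert_of_notMem hxS] at hc ⊢
    have hS' : S ⊆ Ω := (subset_insert _ _).trans hS
    rw [Nat.descFactorial_succ, ← ih hS' (by omega),
      ← h.card_fx_insert hi hS' hc (hS (mem_insert_self _ _)) hxS]
    ring

/-- averaging over a coset -/
lemma Tr.avg {τ : ℕ} (hi : Inv H Ω) (h : Tr H Ω τ) {S : Finset α} (hS : S ⊆ Ω)
    (hc : S.card + 1 ≤ τ) {φ : α → α} (hφ : Set.InjOn φ S) (hφ' : ∀ x ∈ S, φ x ∈ Ω)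
    {x : α} (hx : x ∈ Ω) (hxS : x ∉ S) {Y : Finset α} (hY : Y ⊆ Ω) (hY' : ∀ s ∈ S, φ s ∉ Y) :
    (Ω.card - S.card) * ((cos H S φ).filter (fun g => g x ∈ Y)).card
      = Y.card * (cos H S φ).card := by
  rw [card_cos (h.cos_nonempty hS (by omega) hφ hφ'), ← h.card_fx_insert hi hS hc hx hxS,
    card_eq_sum_card_fiberwise (s := (cos H S φ).filter (fun g => g x ∈ Y))
      (f := fun g : Perm α => g x) (t := Y) (by
      intro g hg
      simpa using (mem_filter.1 hg).2)]
  rw [mul_left_comm, ← smul_eq_mul Y.card, ← sum_const]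
  congr 1
  refine sum_congr rfl fun y hy => ?_
  rw [← card_cos (φ := Function.update φ x y)]
  · congr 1
    ext g
    simp only [mem_filter, mem_cos, mem_insert, forall_eq_or_imp, Function.update_self]
    constructor
    · rintro ⟨⟨⟨h1, h2⟩, -⟩, h3⟩
      refine ⟨h1, h3, fun a ha => ?_⟩
      have : a ≠ x := fun h => hxS (h ▸ ha)
      simp [this, h2 a ha]
    · rintro ⟨h1, h3, h2⟩
      refine ⟨⟨⟨h1, fun a ha => ?_⟩, h3 ▸ hy⟩, h3⟩
      have : a ≠ x := fun h => hxS (h ▸ ha)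
      simpa [this] using h2 a ha
  · refine h.cos_nonempty (insert_subset hx hS) (by rw [card_insert_of_notMem hxS]; exact hc)
      (injOn_update hφ hxS (fun s hs h' => hY' s hs (h' ▸ hy))) ?_
    intro z hz
    rcases mem_insert.1 hz with rfl | hz
    · simpa using hY hy
    · have : z ≠ x := fun h => hxS (h ▸ hz)
      simpa [this] using hφ' z hz

omit [Fintype α] in
/-- transitivity in terms of injective families -/
lemma Tr.family {τ : ℕ} (h : Tr H Ω τ) {β : Type} [Fintype β] (hβ : Fintype.card β ≤ τ)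
    {u v : β → α} (hu : Function.Injective u) (hv : Function.Injective v)
    (hu' : ∀ b, u b ∈ Ω) (hv' : ∀ b, v b ∈ Ω) : ∃ g ∈ H, ∀ b, g (u b) = v b := by
  obtain ⟨g, hg, hg'⟩ := h (univ.image u) (by
      intro x hx
      obtain ⟨b, -, rfl⟩ := mem_image.1 hx
      exact hu' b) (card_image_le.trans (by simpa using hβ)) (Function.extend u v id) (by
      intro x hx y hy hxy
      obtain ⟨b, -, rfl⟩ := mem_image.1 (mem_coe.1 hx)
      obtain ⟨c, -, rfl⟩ := mem_image.1 (mem_coe.1 hy)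
      rw [hu.extend_apply, hu.extend_apply] at hxy
      rw [hv hxy]) (by
      intro x hx
      obtain ⟨b, -, rfl⟩ := mem_image.1 hx
      rw [hu.extend_apply]
      exact hv' b)
  refine ⟨g, hg, fun b => ?_⟩
  rw [hg' _ (mem_image_of_mem _ (mem_univ b)), hu.extend_apply]

omit [Fintype α] [DecidableEq α] in
lemma exists_family (Ω : Finset α) {β : Type} [Fintype β] (hβ : Fintype.card β ≤ Ω.card) :
    ∃ u : β → α, Function.Injective u ∧ ∀ b, u b ∈ Ω := by
  obtain ⟨e⟩ : Nonempty (β ↪ Ω) := Function.Embedding.nonempty_of_card_le (by simpa using hβ)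
  exact ⟨fun b => (e b : α), fun a b h => e.injective (Subtype.ext h), fun b => (e b).2⟩

omit [Fintype α] in
lemma Tr.hom {τ : ℕ} (h : Tr H Ω τ) {j : ℕ} (hj : j ≤ τ) : Hom H Ω j := by
  intro A hA B hB hA' hB'
  obtain ⟨e⟩ : Nonempty (A ≃ B) := by
    rw [← Fintype.card_eq]; simp [hA', hB']
  obtain ⟨g, hg, hg'⟩ := h.family (β := A) (by simpa [hA'] using hj) (u := fun a => (a : α))
    (v := fun a => (e a : α)) Subtype.val_injective
    (fun a b hab => e.injective (Subtype.ext hab)) (fun a => hA a.2) (fun a => hB (e a).2)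
  refine ⟨g, hg, eq_of_subset_of_card_le ?_ (by rw [card_smul]; omega)⟩
  intro y hy
  obtain ⟨a, ha, rfl⟩ := mem_image.1 hy
  have := hg' ⟨a, ha⟩
  simp only at this
  change g a ∈ B
  rw [this]
  exact (e ⟨a, ha⟩).2

lemma Alt3.tr (hi : Inv H Ω) (h : Alt3 H Ω) : Tr H Ω (Ω.card - 2) := by
  intro S
  induction S using Finset.induction_on with
  | empty => exact fun _ _ _ _ _ => ⟨1, H.one_mem, by simp⟩
  | insert x S hxS ih =>
    intro hS hc φ hφ hφ'
    rw [card_insert_of_notMem hxS] at hc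
    obtain ⟨g, hg, hg'⟩ := ih ((subset_insert _ _).trans hS) (by omega) φ
      (hφ.mono (by simp)) (fun y hy => hφ' y (mem_insert_of_mem hy))
    by_cases hx : g x = φ x
    · exact ⟨g, hg, by simpa [hx] using hg'⟩
    have hcard : (insert (g x) (insert (φ x) (S.image φ))).card < Ω.card := by
      have h1 := card_insert_le (g x) (insert (φ x) (S.image φ))
      have h2 := card_insert_le (φ x) (S.image φ)
      have h3 : (S.image φ).card ≤ S.card := card_image_le
      omega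
    obtain ⟨z, hz, hz'⟩ := exists_mem_notMem_of_card_lt_card hcard
    simp only [mem_insert, mem_image, not_or, not_exists, not_and] at hz'
    obtain ⟨k, hk, hk1, hk2⟩ := h (g x) (hi g hg x (hS (mem_insert_self _ _))) (φ x)
      (hφ' x (mem_insert_self _ _)) z hz hx (Ne.symm hz'.1) (Ne.symm hz'.2.1)
    refine ⟨k * g, H.mul_mem hk hg, fun y hy => ?_⟩
    rcases mem_insert.1 hy with rfl | hy'
    · simpa using hk1
    · have hyx : y ≠ x := fun h => hxS (h ▸ hy')
      rw [Perm.mul_apply, hg' y hy']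
      refine hk2 _ (hφ' y hy) ?_ ?_ (hz'.2.2 y hy')
      · rw [← hg' y hy']; simpa using hyx
      · exact fun h' => hyx (hφ (by simp [hy']) (by simp) h')

lemma Alt3.hom (hi : Inv H Ω) (h : Alt3 H Ω) (h3 : 3 ≤ Ω.card) (j : ℕ) : Hom H Ω j := by
  by_cases hj : j ≤ Ω.card - 2
  · exact (h.tr hi).hom hj
  intro A hA B hB hA' hB'
  have hjΩ : j ≤ Ω.card := hA' ▸ card_le_card hA
  obtain ⟨g, hg, hg'⟩ := (h.tr hi).hom (j := Ω.card - j) (by omega) (Ω \ A) sdiff_subset
    (Ω \ B) sdiff_subset (by rw [card_sdiff_of_subset hA, hA'])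
    (by rw [card_sdiff_of_subset hB, hB'])
  refine ⟨g, hg, ?_⟩
  rw [smul_finset_sdiff, hi.smul_eq hg] at hg'
  have := congrArg (Ω \ ·) hg'
  simpa [Finset.sdiff_sdiff_eq_self, hi.smul_subset hg hA, hB] using this

end Pool.Agent.H5Hom
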