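import Mathlib

/-! Biased averaging polynomials and the endpoint inequality of Markov. -/

open Finset Polynomial

set_option linter.unusedSectionVars false

namespace Pool.Agent.H5Hom

lemma markov_one {d : ℕ} {q : ℝ[X]} (hq : q.natDegree ≤ d) {lo hi : ℝ} (h : lo < hi)
    (hb : ∀ x ∈ Set.Icc (0 : ℝ) 1, lo ≤ q.eval x ∧ q.eval x ≤ hi) :
    -(derivative q).eval 0 ≤ d ^ 2 * (hi - lo) := by
  have hR : 0 < hi - lo := by linarith
  set P : ℝ[X] := C (2 / (hi - lo)) * (q.comp (C (-1 / 2) * X + C (1 / 2)) - C ((lo + hi) / 2))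
    with hP
  have h1 : P.degree ≤ d := by
    refine degree_le_of_natDegree_le ?_
    refine (natDegree_C_mul_le _ _).trans ((natDegree_sub_le _ _).trans ?_)
    rw [natDegree_C, max_eq_left (Nat.zero_le _)]
    refine natDegree_comp_le.trans ?_
    rw [natDegree_linear (by norm_num)]
    omega
  have h2 : ∀ x ∈ Set.Icc (-1 : ℝ) 1, |P.eval x| ≤ 1 := by
    intro x hx
    obtain ⟨h3, h4⟩ := hb (-1 / 2 * x + 1 / 2) ⟨by linarith [hx.2], by linarith [hx.1]⟩
    simp only [hP, eval_mul, eval_C, eval_sub, eval_comp, eval_add, eval_X]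
    rw [abs_le, div_mul_eq_mul_div, le_div_iff₀ hR, div_le_iff₀ hR]
    constructor <;> linarith
  have h3 := Chebyshev.eval_iterate_derivative_le_of_forall_abs_le_one (k := 1) (x := 1) le_rfl
    h1 h2
  simp only [Function.iterate_one, Chebyshev.derivative_T_eval_one, Int.cast_natCast] at h3
  have h4 : (derivative P).eval 1 = -(derivative q).eval 0 / (hi - lo) := by
    simp only [hP, derivative_mul, derivative_C, zero_mul, zero_add, derivative_sub,
      derivative_comp, derivative_add, derivative_X, mul_one, add_zero, sub_zero, eval_mul,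
      eval_C, eval_comp, eval_add, eval_X]
    norm_num
    field_simp
  rw [h4, div_le_iff₀ hR] at h3
  exact h3

lemma markov {d : ℕ} {q : ℝ[X]} (hq : q.natDegree ≤ d) {lo hi : ℝ} (h : lo < hi)
    (hb : ∀ x ∈ Set.Icc (0 : ℝ) 1, lo ≤ q.eval x ∧ q.eval x ≤ hi) :
    |(derivative q).eval 0| ≤ d ^ 2 * (hi - lo) := by
  have h1 := markov_one hq h hb
  have h2 := markov_one (q := -q) (d := d) (by rwa [natDegree_neg]) (lo := -hi) (hi := -lo)
    (by linarith) (fun x hx => by
      simp only [eval_neg]
      constructor <;> linarith [hb x hx])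
  simp only [derivative_neg, eval_neg, neg_neg] at h2
  rw [abs_le]
  constructor <;> linarith

variable {ι : Type} [DecidableEq ι]

/-- expectation of `h` over a biased random subset of `S` -/
noncomputable def bias (S : Finset ι) (h : Finset ι → ℝ) : ℝ[X] :=
  ∑ T ∈ S.powerset, C (h T) * X ^ T.card * (1 - X) ^ (S.card - T.card)

lemma bias_empty (h : Finset ι → ℝ) : bias ∅ h = C (h ∅) := by simp [bias]

lemma bias_insert {S : Finset ι} {s : ι} (hs : s ∉ S) (h : Finset ι → ℝ) :
    bias (insert s S) h = (1 - X) * bias S h + X * bias S (fun T => h (insert s T)) := by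
  unfold bias
  rw [sum_powerset_insert hs, mul_sum, mul_sum, card_insert_of_notMem hs]
  congr 1
  · refine sum_congr rfl fun T hT => ?_
    rw [Nat.sub_add_comm (card_le_card (mem_powerset.1 hT))]
    ring
  · refine sum_congr rfl fun T hT => ?_
    rw [card_insert_of_notMem (fun h => hs (mem_powerset.1 hT h)), Nat.add_sub_add_right]
    ring

lemma bias_bound (S : Finset ι) : ∀ (h : Finset ι → ℝ) {lo hi : ℝ},
    (∀ T ⊆ S, lo ≤ h T ∧ h T ≤ hi) → ∀ x ∈ Set.Icc (0 : ℝ) 1,
      lo ≤ (bias S h).eval x ∧ (bias S h).eval x ≤ hi := by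
  induction S using Finset.induction_on with
  | empty => intro h lo hi hb x _; simpa [bias_empty] using hb ∅ subset_rfl
  | insert s S hs ih =>
    intro h lo hi hb x hx
    obtain ⟨h1, h2⟩ := ih h (fun T hT => hb T (hT.trans (subset_insert _ _))) x hx
    obtain ⟨h3, h4⟩ := ih (fun T => h (insert s T))
      (fun T hT => hb _ (insert_subset_insert _ hT)) x hx
    simp only [bias_insert hs, eval_add, eval_mul, eval_sub, eval_one, eval_X]
    constructor <;> nlinarith [hx.1, hx.2]

lemma bias_zero (S : Finset ι) : ∀ h : Finset ι → ℝ, (bias S h).eval 0 = h ∅ := by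
  induction S using Finset.induction_on with
  | empty => intro h; simp [bias_empty]
  | insert s S hs ih => intro h; simp [bias_insert hs, ih]

lemma bias_deriv (S : Finset ι) : ∀ h : Finset ι → ℝ,
    (derivative (bias S h)).eval 0 = ∑ s ∈ S, (h {s} - h ∅) := by
  induction S using Finset.induction_on with
  | empty => intro h; simp [bias_empty]
  | insert s S hs ih =>
    intro h
    simp only [bias_insert hs, derivative_add, derivative_mul, derivative_sub, derivative_one,
      derivative_X, eval_add, eval_mul, eval_sub, eval_zero, eval_one, eval_X, bias_zero, ih,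
      sum_insert hs]
    simp
    ring

lemma bias_deg (S : Finset ι) (J : Finset ι) : ∀ h : Finset ι → ℝ,
    (∀ s ∉ J, ∀ T, h (insert s T) = h T) → (bias S h).natDegree ≤ (S ∩ J).card := by
  induction S using Finset.induction_on with
  | empty => intro h _; simp [bias_empty]
  | insert s S hs ih =>
    intro h hh
    rw [bias_insert hs]
    by_cases hsJ : s ∈ J
    · rw [insert_inter_of_mem hsJ, card_insert_of_notMem (by simp [hs])]
      have h1 := ih h hh
      have h2 := ih (fun T => h (insert s T)) (fun a ha T => by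
        rw [Finset.insert_comm, hh a ha])
      have h3 : (1 - X : ℝ[X]).natDegree ≤ 1 := by compute_degree
      refine (natDegree_add_le _ _).trans (max_le ?_ ?_)
      · exact natDegree_mul_le.trans (by omega)
      · exact natDegree_mul_le.trans (by rw [natDegree_X]; omega)
    · rw [insert_inter_of_notMem hsJ, show (fun T => h (insert s T)) = h from
        funext (hh s hsJ)]
      have : (1 - X) * bias S h + X * bias S h = bias S h := by ring
      rw [this]
      exact ih h hh

lemma bias_sum {κ : Type} (S : Finset ι) (I : Finset κ) (h : κ → Finset ι → ℝ) :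
    bias S (fun T => ∑ k ∈ I, h k T) = ∑ k ∈ I, bias S (h k) := by
  unfold bias
  rw [sum_comm]
  refine sum_congr rfl fun T _ => ?_
  rw [map_sum, sum_mul, sum_mul]

lemma sens_bound {κ : Type} (S : Finset ι) (I : Finset κ) (h : κ → Finset ι → ℝ) {d : ℕ}
    (hd : ∀ k ∈ I, ∃ J : Finset ι, (S ∩ J).card ≤ d ∧ ∀ s ∉ J, ∀ T, h k (insert s T) = h k T)
    {lo hi : ℝ} (hlh : lo < hi) (hb : ∀ T ⊆ S, lo ≤ ∑ k ∈ I, h k T ∧ ∑ k ∈ I, h k T ≤ hi) :
    |∑ s ∈ S, (∑ k ∈ I, h k {s} - ∑ k ∈ I, h k ∅)| ≤ d ^ 2 * (hi - lo) := by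
  rw [← bias_deriv S (fun T => ∑ k ∈ I, h k T)]
  refine markov ?_ hlh (bias_bound S _ hb)
  rw [bias_sum]
  refine natDegree_sum_le_of_forall_le _ _ fun k hk => ?_
  obtain ⟨J, h1, h2⟩ := hd k hk
  exact (bias_deg S J _ h2).trans h1

end Pool.Agent.H5Hom
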