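import Pool.Agent.Lib.MP_078193_al.H5Lw
import Pool.Agent.Lib.MP_078193_al.H5Poly

/-! Few orbits, and a lower bound for the degree of homogeneity. -/

open Finset Equiv
open scoped Pointwise symmDiff

set_option linter.unusedSectionVars false

namespace Pool.Agent.H5Hom

variable {α : Type} [Fintype α] [DecidableEq α] {H : Subgroup (Perm α)}

/-- `(t, t+1)`-homogeneity -/
def HH (H : Subgroup (Perm α)) (t : ℕ) : Prop :=
  ∀ A C : Finset α, A.card = t → C.card = t + 1 → ∃ g ∈ H, g • A ⊆ C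

/-- number of orbits on `t`-sets -/
noncomputable def nr (H : Subgroup (Perm α)) (t : ℕ) : ℕ :=
  ((powersetCard t (univ : Finset α)).image (orb H)).card

lemma mem_lev {t : ℕ} {A : Finset α} : A ∈ powersetCard t (univ : Finset α) ↔ A.card = t := by
  simp [mem_powersetCard]

lemma HH.erase {t : ℕ} (h : HH H t) {A C : Finset α} (hA : A.card = t) (hC : C.card = t + 1) :
    ∃ x ∈ C, C.erase x ∈ orb H A := by
  obtain ⟨g, hg, hg'⟩ := h A C hA hC
  obtain ⟨x, hx, hx'⟩ := exists_mem_notMem_of_card_lt_card (s := g • A) (t := C)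
    (by rw [card_smul]; omega)
  refine ⟨x, hx, mem_orb.2 ⟨g, hg, eq_of_subset_of_card_le (subset_erase.2 ⟨hg', hx'⟩) ?_⟩⟩
  rw [card_smul, card_erase_of_mem hx]
  omega

lemma HH.image {t : ℕ} (h : HH H t) {C : Finset α} (hC : C.card = t + 1) :
    C.image (fun x => orb H (C.erase x)) = (powersetCard t (univ : Finset α)).image (orb H) := by
  ext O
  simp only [mem_image, mem_lev]
  constructor
  · rintro ⟨x, hx, rfl⟩
    exact ⟨_, by rw [card_erase_of_mem hx]; omega, rfl⟩
  · rintro ⟨A, hA, rfl⟩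
    obtain ⟨x, hx, hx'⟩ := h.erase hA hC
    exact ⟨x, hx, orb_eq hx'⟩

/-- a chosen member -/
noncomputable def rep (O : Finset (Finset α)) : Finset α :=
  if h : O.Nonempty then h.choose else ∅

lemma rep_mem (A : Finset α) : rep (orb H A) ∈ orb H A := by
  have h : (orb H A).Nonempty := ⟨A, self_mem_orb A⟩
  rw [rep, dif_pos h]
  exact h.choose_spec

lemma card_image_le_nr {β : Type} [DecidableEq β] {t : ℕ} (F : Finset α → β)
    (hF : ∀ A B, B ∈ orb H A → F B = F A) :
    ((powersetCard t (univ : Finset α)).image F).card ≤ nr H t := by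
  have : (powersetCard t (univ : Finset α)).image F
      = ((powersetCard t (univ : Finset α)).image (orb H)).image (fun O => F (rep O)) := by
    rw [image_image]
    exact image_congr fun A _ => (hF _ _ (rep_mem A)).symm
  rw [this]
  exact card_image_le

theorem nr_le {i t : ℕ} {f : Finset α → ℝ} (hd : Dat H i f) (h : HH H t) (hit : i + 1 ≤ t)
    (hn : 2 * t + 2 ≤ Fintype.card α) : nr H t ≤ 2 * (i + 1) := by
  set F := lift (i + 1) f with hF
  obtain ⟨A₁, A₂, h1, h2, h3⟩ := hd.nc_level hit (by omega)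
  obtain ⟨P, hP, hP'⟩ := exists_max_image (powersetCard t univ) F ⟨A₁, mem_lev.2 h1⟩
  obtain ⟨Q, hQ, hQ'⟩ := exists_min_image (powersetCard t univ) F ⟨A₁, mem_lev.2 h1⟩
  obtain ⟨C₀, -, hC₀⟩ := exists_subset_card_eq (s := (univ : Finset α)) (n := t + 1)
    (by rw [card_univ]; omega)
  obtain ⟨P', hP1, hP1'⟩ := exists_max_image (powersetCard (t + 1) univ) F ⟨C₀, mem_lev.2 hC₀⟩
  obtain ⟨Q', hQ1, hQ1'⟩ := exists_min_image (powersetCard (t + 1) univ) F ⟨C₀, mem_lev.2 hC₀⟩
  simp only [mem_lev] at hP hP' hQ hQ' hP1 hP1' hQ1 hQ1'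
  have hlt : F Q < F P := by
    have := hP' A₁ h1; have := hP' A₂ h2; have := hQ' A₁ h1; have := hQ' A₂ h2
    by_contra hc
    exact h3 (by linarith)
  have hrep : ∀ A, F (rep (orb H A)) = F A := fun A => hd.lift_orb (rep_mem A)
  have e1 := sum_image_le_of_nonneg (s := P') (g := fun x => orb H (P'.erase x))
    (f := fun O => F P - F (rep O)) (by
      intro O hO
      obtain ⟨x, hx, rfl⟩ := mem_image.1 hO
      rw [hrep, sub_nonneg]
      exact hP' _ (by rw [card_erase_of_mem hx]; omega))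
  have e2 := sum_image_le_of_nonneg (s := Q') (g := fun x => orb H (Q'.erase x))
    (f := fun O => F (rep O) - F Q) (by
      intro O hO
      obtain ⟨x, hx, rfl⟩ := mem_image.1 hO
      rw [hrep, sub_nonneg]
      exact hQ' _ (by rw [card_erase_of_mem hx]; omega))
  rw [h.image hP1] at e1
  rw [h.image hQ1] at e2
  simp only [hrep, sum_sub_distrib, sum_const, nsmul_eq_mul, hP1, hQ1] at e1 e2
  rw [hF, lift_up, ← hF, hP1] at e1
  rw [hF, lift_up, ← hF, hQ1] at e2
  have e3 := lift_down hd.harm P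
  have e4 := lift_down hd.harm Q
  have e5 : ∑ y ∈ univ \ P, F (insert y P) ≤ (univ \ P).card • F P' :=
    sum_le_card_nsmul _ _ _ fun y hy => hP1' _ (by
      rw [card_insert_of_notMem (mem_sdiff.1 hy).2, hP])
  have e6 : (univ \ Q).card • F Q' ≤ ∑ y ∈ univ \ Q, F (insert y Q) :=
    card_nsmul_le_sum _ _ _ fun y hy => hQ1' _ (by
      rw [card_insert_of_notMem (mem_sdiff.1 hy).2, hQ])
  rw [card_sdiff_of_subset (subset_univ _), card_univ, nsmul_eq_mul,
    Nat.cast_sub (card_le_univ _)] at e5 e6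
  rw [← hF] at e3 e4
  rw [e3, hP] at e5
  rw [e4, hQ] at e6
  have hn' : 2 * (t : ℝ) + 2 ≤ Fintype.card α := by exact_mod_cast hn
  have hit' : (i : ℝ) + 1 ≤ t := by exact_mod_cast hit
  have hi0 : (0 : ℝ) ≤ i := by positivity
  change ((nr H t : ℕ) : ℝ) * F P - _ ≤ _ at e1
  change _ - ((nr H t : ℕ) : ℝ) * F Q ≤ _ at e2
  push_cast at e1 e2
  set r : ℝ := (nr H t : ℝ) with hr
  set n : ℝ := (Fintype.card α : ℝ)
  have e7 : (t + 1 - (i + 1)) * (F P' - F Q') ≤ (t + 1 - r) * (F P - F Q) := by linarith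
  have e8 : (n - t - (i + 1)) * (F P - F Q) ≤ (n - t) * (F P' - F Q') := by linarith
  have e9 : (t + 1 - (i + 1)) * (n - t - (i + 1)) ≤ (t + 1 - r) * (n - t) := by
    refine le_of_mul_le_mul_right ?_ (sub_pos.2 hlt)
    have h4 := mul_le_mul_of_nonneg_left e8 (show (0 : ℝ) ≤ t + 1 - (i + 1) by linarith)
    have h5 := mul_le_mul_of_nonneg_left e7 (show (0 : ℝ) ≤ n - t by linarith)
    nlinarith
  have e10 : r ≤ 2 * (i + 1) := by
    refine le_of_mul_le_mul_right ?_ (show (0 : ℝ) < n - t by linarith)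
    nlinarith
  rw [hr] at e10
  exact_mod_cast e10

/-- flip the blocks indexed by `T` -/
def mix {ι : Type} (B : ι → Finset α) (A : Finset α) (T : Finset ι) : Finset α :=
  (A \ T.biUnion (fun s => A \ B s)) ∪ T.biUnion (fun s => B s \ A)

lemma card_mix {ι : Type} [DecidableEq ι] {B : ι → Finset α} {A : Finset α} {T : Finset ι}
    (h1 : ∀ s ∈ T, (B s).card = A.card)
    (h2 : ∀ s ∈ T, ∀ s' ∈ T, s ≠ s' → Disjoint (B s ∆ A) (B s' ∆ A)) :
    (mix B A T).card = A.card := by
  have e1 : (T.biUnion (fun s => A \ B s)).card = ∑ s ∈ T, (A \ B s).card :=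
    card_biUnion fun s hs s' hs' hne => (h2 s hs s' hs' hne).mono
      (by intro x; simp [mem_symmDiff]; tauto) (by intro x; simp [mem_symmDiff]; tauto)
  have e2 : (T.biUnion (fun s => B s \ A)).card = ∑ s ∈ T, (B s \ A).card :=
    card_biUnion fun s hs s' hs' hne => (h2 s hs s' hs' hne).mono
      (by intro x; simp [mem_symmDiff]; tauto) (by intro x; simp [mem_symmDiff]; tauto)
  have e3 : T.biUnion (fun s => A \ B s) ⊆ A := biUnion_subset.2 fun s _ => sdiff_subset
  rw [mix, card_union_of_disjoint, card_sdiff_of_subset e3, e2,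
    sum_congr rfl (fun s hs => card_sdiff_comm (h1 s hs)), ← e1,
    Nat.sub_add_cancel (card_le_card e3)]
  rw [disjoint_left]
  intro x hx hx'
  obtain ⟨s, -, hs⟩ := mem_biUnion.1 hx'
  exact (mem_sdiff.1 hs).2 (mem_sdiff.1 hx).1

lemma bs_one {ι : Type} [Fintype ι] [DecidableEq ι] {d t : ℕ} {f : Finset α → ℝ}
    {lo hi : ℝ} (hlh : lo < hi)
    (hb : ∀ A : Finset α, A.card = t → lo ≤ lift d f A ∧ lift d f A ≤ hi)
    {B : ι → Finset α} {A : Finset α} (hA : A.card = t) {S : Finset ι}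
    (h1 : ∀ s ∈ S, (B s).card = t)
    (h2 : ∀ s ∈ S, ∀ s' ∈ S, s ≠ s' → Disjoint (B s ∆ A) (B s' ∆ A)) :
    |∑ s ∈ S, (lift d f (B s) - lift d f A)| ≤ d ^ 2 * (hi - lo) := by
  have key : ∀ T : Finset ι, ∑ I ∈ powersetCard d univ, (if I ⊆ mix B A T then f I else 0)
      = lift d f (mix B A T) := by
    intro T
    rw [← sum_filter, lift]
    congr 1
    ext I
    simp [mem_powersetCard, and_comm]
  have := sens_bound S (powersetCard d univ) (fun I T => if I ⊆ mix B A T then f I else 0)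
    (d := d) (by
      intro I hI
      refine ⟨univ.filter (fun s => ¬ Disjoint (B s ∆ A) I), ?_, ?_⟩
      · rw [← mem_lev.1 hI]
        set J := S ∩ univ.filter (fun s => ¬ Disjoint (B s ∆ A) I)
        have e1 : (J.biUnion (fun s => (B s ∆ A) ∩ I)).card = ∑ s ∈ J, ((B s ∆ A) ∩ I).card :=
          card_biUnion fun s hs s' hs' hne =>
            (h2 s (mem_inter.1 hs).1 s' (mem_inter.1 hs').1 hne).mono inter_subset_left
              inter_subset_left
        have e2 : J.biUnion (fun s => (B s ∆ A) ∩ I) ⊆ I :=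
          biUnion_subset.2 fun s _ => inter_subset_right
        have e3 : J.card • 1 ≤ ∑ s ∈ J, ((B s ∆ A) ∩ I).card :=
          card_nsmul_le_sum _ _ _ fun s hs => card_pos.2
            (not_disjoint_iff_nonempty_inter.1 (mem_filter.1 (mem_inter.1 hs).2).2)
        have := card_le_card e2
        simp only [smul_eq_mul, mul_one] at e3
        omega
      · intro s hs T
        simp only [mem_filter, mem_univ, true_and, not_not, disjoint_right, mem_symmDiff] at hs
        have : I ⊆ mix B A (insert s T) ↔ I ⊆ mix B A T := by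
          refine forall₂_congr fun x hx => ?_
          have := hs hx
          simp only [mix, biUnion_insert, mem_union, mem_sdiff]
          tauto
        simp only [this]) hlh (by
      intro T hT
      rw [key]
      exact hb _ ((card_mix (fun s hs => (h1 s (hT hs)).trans hA.symm)
        (fun s hs s' hs' => h2 s (hT hs) s' (hT hs'))).trans hA))
  simp only [key] at this
  have e1 : mix B A ∅ = A := by simp [mix]
  have e2 : ∀ s, mix B A {s} = B s := by
    intro s; ext x; simp [mix]; tauto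
  simpa only [e1, e2] using this

/-- a Boolean function on a level with bounded block sensitivity -/
def Sens (t β : ℕ) (b : Finset α → Prop) : Prop :=
  ∀ (ι : Type) [Fintype ι] [DecidableEq ι] (B : ι → Finset α) (A : Finset α) (S : Finset ι),
    A.card = t → (∀ s ∈ S, (B s).card = t ∧ ¬ (b (B s) ↔ b A)) →
    (∀ s ∈ S, ∀ s' ∈ S, s ≠ s' → Disjoint (B s ∆ A) (B s' ∆ A)) → S.card ≤ β

lemma Sens.min_card {t β : ℕ} {b : Finset α → Prop} (h : Sens t β b) {A B : Finset α}
    (hA : A.card = t) (hB : B.card = t) (hAB : ¬ (b B ↔ b A))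
    (hmin : ∀ B' : Finset α, B'.card = t → ¬ (b B' ↔ b A) → B' ∆ A ⊆ B ∆ A →
      (B ∆ A).card ≤ (B' ∆ A).card) : (B ∆ A).card ≤ 2 * β := by
  have hc : (A \ B).card = (B \ A).card := card_sdiff_comm (hA.trans hB.symm)
  obtain ⟨e⟩ : Nonempty (↥(A \ B) ≃ ↥(B \ A)) := by
    rw [← Fintype.card_eq, Fintype.card_coe, Fintype.card_coe, hc]
  have hx : ∀ x : ↥(A \ B), (x : α) ∈ A ∧ (x : α) ∉ B := fun x => mem_sdiff.1 x.2
  have hy : ∀ x : ↥(A \ B), (e x : α) ∈ B ∧ (e x : α) ∉ A := fun x => mem_sdiff.1 (e x).2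
  have := h ↥(A \ B) (fun x => insert (x : α) (B.erase (e x))) B univ hB (by
    intro x _
    have h1 : (insert (x : α) (B.erase (e x))).card = t := by
      rw [card_insert_of_notMem (fun h => (hx x).2 (mem_of_mem_erase h)),
        card_erase_add_one (hy x).1, hB]
    refine ⟨h1, fun h2 => ?_⟩
    have h3 : insert (x : α) (B.erase (e x)) ∆ A ⊆ (B ∆ A).erase x := by
      intro z
      have := hx x; have := hy x
      simp only [mem_symmDiff, mem_insert, mem_erase]
      grind
    have h4 := hmin _ h1 (by tauto) (h3.trans (erase_subset _ _))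
    have h5 := card_le_card h3
    have h6 : (x : α) ∈ B ∆ A := mem_symmDiff.2 (Or.inr (hx x))
    have := card_erase_add_one h6
    omega) (by
    intro x _ x' _ hne
    have h1 : (x : α) ≠ x' := fun h => hne (Subtype.ext h)
    have h2 : (e x : α) ≠ e x' := fun h => hne (e.injective (Subtype.ext h))
    rw [disjoint_left]
    intro z
    have := hx x; have := hy x; have := hx x'; have := hy x'
    simp only [mem_symmDiff, mem_insert, mem_erase]
    grind)
  rw [card_univ, Fintype.card_coe] at this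
  rw [symmDiff_def]
  have := card_union_le (B \ A) (A \ B)
  simp only [sup_eq_union]
  omega

lemma Sens.cert {t β : ℕ} {b : Finset α → Prop} (h : Sens t β b) {A : Finset α}
    (hA : A.card = t) : ∃ D : Finset α, D.card ≤ 2 * β ^ 2 ∧
      ∀ X : Finset α, X.card = t → (∀ x ∈ D, x ∈ X ↔ x ∈ A) → (b X ↔ b A) := by
  classical
  set Mn : Finset α → Prop := fun B => B.card = t ∧ ¬ (b B ↔ b A) ∧
    ∀ B' : Finset α, B'.card = t → ¬ (b B' ↔ b A) → B' ∆ A ⊆ B ∆ A →
      (B ∆ A).card ≤ (B' ∆ A).card with hMn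
  obtain ⟨S, hS, hS'⟩ := exists_max_image (univ.filter (fun S : Finset (Finset α) =>
    (∀ B ∈ S, Mn B) ∧ ∀ s ∈ S, ∀ s' ∈ S, s ≠ s' → Disjoint (s ∆ A) (s' ∆ A))) card
    ⟨∅, by simp⟩
  simp only [mem_filter, mem_univ, true_and] at hS hS'
  refine ⟨S.biUnion (· ∆ A), ?_, ?_⟩
  · have h1 := h (Finset α) id A S hA (fun s hs => ⟨(hS.1 s hs).1, (hS.1 s hs).2.1⟩) hS.2
    have h2 := card_biUnion_le_card_mul S (· ∆ A) (2 * β) fun s hs =>
      h.min_card hA (hS.1 s hs).1 (hS.1 s hs).2.1 (hS.1 s hs).2.2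
    nlinarith
  · intro X hX hX'
    by_contra hc
    obtain ⟨B, hB, hB'⟩ := exists_min_image (univ.filter (fun B : Finset α =>
      B.card = t ∧ ¬ (b B ↔ b A) ∧ B ∆ A ⊆ X ∆ A)) (fun B => (B ∆ A).card) ⟨X, by simp [hX, hc]⟩
    simp only [mem_filter, mem_univ, true_and] at hB hB'
    have hdis : ∀ s ∈ S, Disjoint (B ∆ A) (s ∆ A) := by
      intro s hs
      rw [disjoint_left]
      intro z hz hz'
      have h1 := hX' z (mem_biUnion.2 ⟨s, hs, hz'⟩)
      have h2 := mem_symmDiff.1 (hB.2.2 hz)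
      tauto
    have hBS : B ∉ S := by
      intro hBS
      have := hdis B hBS
      rw [disjoint_self, bot_eq_empty, symmDiff_eq_empty] at this
      exact hB.2.1 (by rw [this])
    have := hS' (insert B S) ⟨by
      intro s hs
      rcases mem_insert.1 hs with rfl | hs
      · exact ⟨hB.1, hB.2.1, fun B' h1 h2 h3 => hB' B' ⟨h1, h2, h3.trans hB.2.2⟩⟩
      · exact hS.1 s hs, by
      intro s hs s' hs' hne
      rcases mem_insert.1 hs with rfl | hs1 <;> rcases mem_insert.1 hs' with rfl | hs1'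
      · exact absurd rfl hne
      · exact hdis _ hs1'
      · exact (hdis _ hs1).symm
      · exact hS.2 s hs1 s' hs1' hne⟩
    rw [card_insert_of_notMem hBS] at this
    omega

lemma Hom.tr_one {Ω : Finset α} (h : Hom H Ω 1) : Tr H Ω 1 := by
  intro S hS hc φ _ hφ
  rcases S.eq_empty_or_nonempty with rfl | ⟨x, hx⟩
  · exact ⟨1, H.one_mem, by simp⟩
  obtain ⟨g, hg, hg'⟩ := h {x} (by simpa using hS hx) {φ x} (by simpa using hφ x hx)
    (by simp) (by simp)
  refine ⟨g, hg, fun y hy => ?_⟩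
  rw [card_le_one.1 hc y hy x hx]
  simpa [smul_eq_image] using hg'

lemma exists_avoid (h : Hom H univ 1) {D₀ D₁ : Finset α}
    (hc : D₀.card * D₁.card < Fintype.card α) : ∃ g ∈ H, ∀ x ∈ D₀, g x ∉ D₁ := by
  by_contra hne
  push Not at hne
  set C := cos H ∅ id
  have h1 : ∀ x ∈ D₀, Fintype.card α * (C.filter (fun g => g x ∈ D₁)).card = D₁.card * C.card := by
    intro x _
    simpa using h.tr_one.avg inv_univ (S := ∅) (empty_subset _) (by simp) (φ := id) (by simp)
      (by simp) (mem_univ x) (by simp) (subset_univ D₁) (by simp)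
  have h2 : ∑ g ∈ C, (D₀.filter (fun x => g x ∈ D₁)).card
      = ∑ x ∈ D₀, (C.filter (fun g => g x ∈ D₁)).card := by
    simp only [card_filter]
    exact sum_comm
  have h3 : C.card • 1 ≤ ∑ g ∈ C, (D₀.filter (fun x => g x ∈ D₁)).card :=
    card_nsmul_le_sum _ _ _ fun g hg => by
      obtain ⟨x, hx, hx'⟩ := hne g (mem_cos.1 hg).1
      exact card_pos.2 ⟨x, mem_filter.2 ⟨hx, hx'⟩⟩
  have h4 : 0 < C.card := card_pos.2 ⟨1, mem_cos.2 ⟨H.one_mem, by simp⟩⟩
  have h5 := Nat.mul_le_mul_left (Fintype.card α) h3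
  rw [h2, mul_sum, sum_congr rfl h1, sum_const, smul_eq_mul, smul_eq_mul] at h5
  nlinarith

lemma Sens.bound {t β : ℕ} {b : Finset α → Prop} (h : Sens t β b) (h1 : Hom H univ 1)
    (hb : ∀ g ∈ H, ∀ A, b (g • A) ↔ b A) (hn : 2 * t ≤ Fintype.card α) {A₀ A₁ : Finset α}
    (h₀ : A₀.card = t) (h₁ : A₁.card = t) (hA : ¬ (b A₀ ↔ b A₁)) : t ≤ 4 * β ^ 4 := by
  by_contra hc
  obtain ⟨D₀, hD₀, hD₀'⟩ := h.cert h₀
  obtain ⟨D₁, hD₁, hD₁'⟩ := h.cert h₁
  have hβ : β ^ 2 ≤ β ^ 4 := by
    rcases Nat.eq_zero_or_pos β with rfl | hβ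
    · simp
    · exact Nat.pow_le_pow_right hβ (by norm_num)
  obtain ⟨g, hg, hg'⟩ := exists_avoid h1 (D₀ := D₀) (D₁ := D₁) (by
    have := Nat.mul_le_mul hD₀ hD₁
    nlinarith)
  obtain ⟨X, hX1, hX2, hX3⟩ := exists_subsuperset_card_eq
    (s := g • (D₀ ∩ A₀) ∪ (D₁ ∩ A₁)) (t := univ \ (g • (D₀ \ A₀) ∪ (D₁ \ A₁))) (n := t) (by
      intro x
      have := hg' (g⁻¹ x)
      simp only [mem_union, mem_smul, mem_inter, mem_sdiff, mem_univ, ap_inv] at this ⊢
      tauto) (by
      have e1 := card_union_le (g • (D₀ ∩ A₀)) (D₁ ∩ A₁)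
      have e2 := card_le_card (inter_subset_left (s₁ := D₀) (s₂ := A₀))
      have e3 := card_le_card (inter_subset_left (s₁ := D₁) (s₂ := A₁))
      rw [card_smul] at e1
      omega) (by
      have e1 := card_union_le (g • (D₀ \ A₀)) (D₁ \ A₁)
      have e2 := card_le_card (sdiff_subset (s := D₀) (t := A₀))
      have e3 := card_le_card (sdiff_subset (s := D₁) (t := A₁))
      rw [card_smul] at e1
      rw [card_sdiff_of_subset (subset_univ _), card_univ]
      omega)
  have e1 := hD₁' X hX3 (by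
    intro x hx
    have e2 := @hX1 x
    have e3 := @hX2 x
    simp only [mem_union, mem_inter, mem_sdiff, mem_univ] at e2 e3
    tauto)
  have e2 := hD₀' (g⁻¹ • X) (by rw [card_smul, hX3]) (by
    intro x hx
    have e2 := @hX1 (g x)
    have e3 := @hX2 (g x)
    simp only [mem_union, mem_inter, mem_sdiff, mem_univ, mem_smul, inv_ap, inv_inv] at e2 e3 ⊢
    tauto)
  rw [hb _ (H.inv_mem hg)] at e2
  tauto

theorem level_bound {i t : ℕ} {f : Finset α → ℝ} (hd : Dat H i f) (h : HH H t) (hit : i + 1 ≤ t)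
    (hn : 2 * t + 2 ≤ Fintype.card α) (h1 : Hom H univ 1) : t ≤ 64 * (i + 1) ^ 12 := by
  have hr := nr_le hd h hit hn
  set F := lift (i + 1) f with hF
  obtain ⟨A₁, A₂, h1', h2, h3⟩ := hd.nc_level hit (by omega)
  obtain ⟨P, hP, hP'⟩ := exists_max_image (powersetCard t univ) F ⟨A₁, mem_lev.2 h1'⟩
  obtain ⟨Q, hQ, hQ'⟩ := exists_min_image (powersetCard t univ) F ⟨A₁, mem_lev.2 h1'⟩
  simp only [mem_lev] at hP hP' hQ hQ'
  have hlt : F Q < F P := by
    have := hP' A₁ h1'; have := hP' A₂ h2; have := hQ' A₁ h1'; have := hQ' A₂ h2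
    by_contra hc
    exact h3 (by linarith)
  set r := 2 * (i + 1) with hr'
  have hr0 : (0 : ℝ) < r := by positivity
  set Δ := (F P - F Q) / r with hΔ
  have hΔ0 : 0 < Δ := div_pos (by linarith) hr0
  have hgap : ∃ k < r, ∀ A : Finset α, A.card = t →
      F A ≤ F Q + k * Δ ∨ F Q + (k + 1) * Δ ≤ F A := by
    by_contra hc
    push Not at hc
    choose! v hv using hc
    have hv' := card_image_le_nr (H := H) (t := t) F (fun A B hAB => hd.lift_orb hAB)
    have h4 : (range r).card ≤ (((powersetCard t univ).image F).erase (F Q)).card := by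
      refine card_le_card_of_injOn (fun k => F (v k)) ?_ ?_
      · intro k hk
        obtain ⟨e1, e2, -⟩ := hv k (by simpa using hk)
        refine mem_coe.2 (mem_erase.2 ⟨?_, mem_image_of_mem _ (mem_lev.2 e1)⟩)
        have : 0 ≤ k * Δ := by positivity
        linarith
      · intro k hk l hl hkl
        obtain ⟨-, e1, e2⟩ := hv k (by simpa using hk)
        obtain ⟨-, e3, e4⟩ := hv l (by simpa using hl)
        simp only at hkl
        have e5 : (k : ℝ) < l + 1 := lt_of_mul_lt_mul_right (by linarith) hΔ0.le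
        have e6 : (l : ℝ) < k + 1 := lt_of_mul_lt_mul_right (by linarith) hΔ0.le
        have e7 : k < l + 1 := by exact_mod_cast e5
        have e8 : l < k + 1 := by exact_mod_cast e6
        omega
    rw [card_range, card_erase_of_mem (mem_image_of_mem _ (mem_lev.2 hQ))] at h4
    omega
  obtain ⟨k, hk, hgap⟩ := hgap
  have hs : Sens t ((i + 1) ^ 2 * r) (fun A => F Q + (k + 1) * Δ ≤ F A) := by
    intro ι _ _ B A S hA hS hS'
    have h4 := bs_one (d := i + 1) (f := f) hlt (fun A hA => ⟨hQ' A hA, hP' A hA⟩) hA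
      (fun s hs => (hS s hs).1) hS'
    have h5 : S.card * Δ ≤ |∑ s ∈ S, (F (B s) - F A)| := by
      rw [← nsmul_eq_mul]
      by_cases hbA : F Q + (k + 1) * Δ ≤ F A
      · refine le_trans ?_ (neg_le_abs _)
        rw [← sum_neg_distrib]
        refine card_nsmul_le_sum _ _ _ fun s hs => ?_
        have e1 := (hS s hs).2
        have e2 := hgap _ (hS s hs).1
        have : F (B s) ≤ F Q + k * Δ := by tauto
        linarith
      · refine le_trans ?_ (le_abs_self _)
        refine card_nsmul_le_sum _ _ _ fun s hs => ?_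
        have e1 := (hS s hs).2
        have e2 := hgap _ hA
        have e3 : F A ≤ F Q + k * Δ := by tauto
        have e4 : F Q + (k + 1) * Δ ≤ F (B s) := by tauto
        linarith
    have h6 : F P - F Q = r * Δ := by rw [hΔ]; field_simp
    have h7 : (S.card : ℝ) ≤ ((i + 1) ^ 2 * r : ℕ) := by
      refine le_of_mul_le_mul_right (h5.trans (h4.trans ?_)) hΔ0
      rw [h6]
      push_cast
      ring_nf
      rfl
    exact_mod_cast h7
  have := hs.bound h1 (fun g hg A => by simp only [hF, lift_smul (hd.inv g hg)]) (by omega)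
    hP hQ (by
      have e1 : (k : ℝ) + 1 ≤ r := by exact_mod_cast hk
      have h6 : F P - F Q = r * Δ := by rw [hΔ]; field_simp
      have e2 : F Q + (k + 1) * Δ ≤ F P := by nlinarith
      have e3 : ¬ F Q + (k + 1) * Δ ≤ F Q := by
        have : 0 < ((k : ℝ) + 1) * Δ := by positivity
        linarith
      tauto)
  calc t ≤ _ := this
    _ = _ := by rw [hr']; ring

end Pool.Agent.H5Hom
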