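import Pool.Agent.Lib.MP_078193_al.H5Fix

/-! Subgroups with an orbit of prescribed length. -/

open Finset Equiv
open scoped Pointwise

set_option linter.unusedSectionVars false

namespace Pool.Agent.H5Hom

variable {α : Type} [Fintype α] [DecidableEq α] {H : Subgroup (Perm α)}

/-- every nontrivial element fixes less than a `1 / w` proportion of the points -/
def Fx (H : Subgroup (Perm α)) (w : ℕ) : Prop :=
  ∀ x ∈ H, x ≠ 1 → w * (univ \ supp univ x).card < Fintype.card α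

/-- a subgroup with an orbit of length `L` and `γ` fixed points -/
def OrbL (H : Subgroup (Perm α)) (L γ : ℕ) : Prop :=
  ∃ A ≤ H, ∃ z : α, ∃ Γ ⊆ fixs A, (orb A z).card = L ∧ Γ.card = γ

lemma fx_of_tr {τ m w : ℕ} (ht : Tr H univ τ) (hna : ¬ Alt3 H univ) (hm : 19 * w ^ 2 < m)
    (hτ : 18 * m + 8 ≤ τ) (hn : 500 * m ^ 2 ≤ Fintype.card α) : Fx H w := by
  intro x hx hx1
  have h := gen_fix ht hna (by omega) hτ hn hx hx1
  rw [card_sdiff_of_subset (subset_univ _), card_univ]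
  by_contra hc
  have h0 : 0 < Fintype.card α := by nlinarith
  set f := Fintype.card α - (supp univ x).card
  have h1 : Fintype.card α ^ 2 ≤ (w * f) ^ 2 := Nat.pow_le_pow_left (by omega) _
  have h2 : 0 < f := by
    rcases Nat.eq_zero_or_pos f with h | h
    · rw [h] at hc; omega
    · exact h
  have h3 : 19 * w ^ 2 * f ^ 2 < m * f ^ 2 := Nat.mul_lt_mul_of_pos_right hm (by positivity)
  nlinarith

lemma Fx.cover {w : ℕ} (h : Fx H w) (hw : 1 ≤ w) (h0 : 0 < Fintype.card α) {T : Finset (Perm α)}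
    (hT : ∀ x ∈ T, x ∈ H ∧ x ≠ 1) (hc : T.card ≤ w) : ∃ z, ∀ x ∈ T, x z ≠ z := by
  by_contra hne
  push Not at hne
  have h1 : (univ : Finset α) ⊆ T.biUnion (fun x => univ \ supp univ x) := by
    intro z _
    obtain ⟨x, hx, hx'⟩ := hne z
    exact mem_biUnion.2 ⟨x, hx, by simp [mem_supp, hx']⟩
  have h2 := (card_le_card h1).trans card_biUnion_le
  have h3 : ∑ x ∈ T, w * (univ \ supp univ x).card ≤ T.card • (Fintype.card α - 1) :=
    sum_le_card_nsmul _ _ _ fun x hx => by have := h x (hT x hx).1 (hT x hx).2; omega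
  rw [← mul_sum, smul_eq_mul] at h3
  rw [card_univ] at h2
  have h4 := Nat.mul_le_mul_left w h2
  have h5 := Nat.mul_le_mul_right (Fintype.card α - 1) hc
  have h6 : w * (Fintype.card α - 1) < w * Fintype.card α :=
    Nat.mul_lt_mul_of_pos_left (by omega) hw
  omega

lemma card_orb_zpowers (g : Perm α) (z : α) : (orb (Subgroup.zpowers g) z).card = per g z := by
  rw [← card_range (per g z)]
  symm
  refine card_bij (fun m _ => (g ^ m) z)
    (fun m _ => mem_orb.2 ⟨g ^ m, Subgroup.npow_mem_zpowers g m, rfl⟩)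
    (fun a ha b hb hab => pow_eq_pow hab (mem_range.1 ha) (mem_range.1 hb)) ?_
  intro y hy
  obtain ⟨h, hh, rfl⟩ := mem_orb.1 hy
  obtain ⟨m, rfl⟩ := mem_powers_iff_mem_zpowers.2 hh
  refine ⟨m % per g z, mem_range.2 (Nat.mod_lt _ (per_pos _ _)), ?_⟩
  conv_rhs => rw [← Nat.mod_add_div m (per g z)]
  simp only [Perm.smul_def, pow_add, Perm.mul_apply]
  rw [per_dvd.2 (dvd_mul_right _ _)]

lemma orbL_of_dvd {g : Perm α} (hg : g ∈ H) {Γ : Finset α} (hΓ : ∀ x ∈ Γ, g x = x) {L : ℕ} {z : α}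
    (h : L ∣ per g z) : OrbL H L Γ.card := by
  obtain ⟨k, hk⟩ := h
  have hk0 : 0 < k := Nat.pos_of_mul_pos_left (hk ▸ per_pos g z)
  refine ⟨Subgroup.zpowers (g ^ k), Subgroup.zpowers_le.2 (H.pow_mem hg k), z, Γ, ?_, ?_, rfl⟩
  · intro x hx
    refine mem_fixs.2 fun h hh => ?_
    obtain ⟨m, rfl⟩ := mem_powers_iff_mem_zpowers.2 hh
    exact Perm.pow_apply_eq_self_of_apply_eq_self
      (Perm.pow_apply_eq_self_of_apply_eq_self (hΓ x hx) k) m
  · rw [card_orb_zpowers]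
    have : ∀ m, per (g ^ k) z ∣ m ↔ L ∣ m := by
      intro m
      rw [← per_dvd, ← pow_mul, per_dvd, hk, mul_comm L k, Nat.mul_dvd_mul_iff_left hk0]
    exact Nat.dvd_antisymm ((this _).2 dvd_rfl) ((this _).1 dvd_rfl)

lemma per_dvd_order (g : Perm α) (z : α) : per g z ∣ orderOf g :=
  per_dvd.1 (by rw [pow_orderOf_eq_one]; rfl)

theorem orbL_coprime {τ w a b γ : ℕ} (ht : Tr H univ τ) (hf : Fx H w) (ha : 0 < a) (hb : 0 < b)
    (hab : a.Coprime b) (hτ : a + b + γ ≤ τ) (hn : τ ≤ Fintype.card α) (hw : 1 ≤ w)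
    (hω : (a * b).primeFactors.card ≤ w) : OrbL H (a * b) γ := by
  have hs : ∑ i : Bool ⊕ Fin γ, Sum.elim (fun c : Bool => if c then a else b) (fun _ => 1) i
      = a + b + γ := by simp [Fintype.sum_sum_type]
  obtain ⟨g, hg, v, hv, -, hv'⟩ := ht.cyc (ι := Bool ⊕ Fin γ)
    (Sum.elim (fun c => if c then a else b) (fun _ => 1)) (by
      rintro (c | c)
      · cases c <;> simp [ha, hb]
      · simp) (by omega) (by rw [card_univ]; omega)
  have h1 : a * b ∣ orderOf g := hab.mul_dvd_of_dvd_of_dvd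
    (by simpa [hv'] using per_dvd_order g (v (Sum.inl true)))
    (by simpa [hv'] using per_dvd_order g (v (Sum.inl false)))
  have ho := orderOf_pos g
  obtain ⟨z, hz⟩ := hf.cover hw (by omega)
    (T := (a * b).primeFactors.image (fun p => g ^ (orderOf g / p))) (by
      intro x hx
      obtain ⟨p, hp, rfl⟩ := mem_image.1 hx
      have hp' := Nat.prime_of_mem_primeFactors hp
      refine ⟨H.pow_mem hg _, pow_ne_one_of_lt_orderOf ?_ (Nat.div_lt_self ho hp'.one_lt)⟩
      exact (Nat.div_pos (Nat.le_of_dvd ho ((Nat.dvd_of_mem_primeFactors hp).trans h1))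
        hp'.pos).ne') (card_image_le.trans hω)
  have h2 : a * b ∣ per g z := by
    have hL : a * b ≠ 0 := by positivity
    rw [← Nat.factorization_prime_le_iff_dvd hL (per_pos g z).ne']
    intro p hp
    by_contra hc
    have hpL : p ∈ (a * b).primeFactors := by
      rw [← Nat.support_factorization, Finsupp.mem_support_iff]; omega
    apply hz _ (mem_image_of_mem _ hpL)
    obtain ⟨c, hc'⟩ := per_dvd_order g z
    have hc0 : c ≠ 0 := by rintro rfl; omega
    have h3 := (Nat.factorization_le_iff_dvd hL ho.ne').2 h1 p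
    rw [hc', Nat.factorization_mul (per_pos g z).ne' hc0, Finsupp.add_apply] at h3
    have h4 : p ∣ c := Nat.dvd_of_factorization_pos (by omega)
    rw [per_dvd, hc', Nat.mul_div_assoc _ h4]
    exact dvd_mul_right _ _
  have := orbL_of_dvd hg (Γ := univ.image (fun i => v (Sum.inr i))) (by
    intro x hx
    obtain ⟨i, -, rfl⟩ := mem_image.1 hx
    simpa using per_dvd.2 (show per g (v (Sum.inr i)) ∣ 1 by simp [hv'])) h2
  rwa [card_image_of_injective _ (fun i j h => Sum.inr_injective (hv h)), card_univ,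
    Fintype.card_fin] at this

lemma card_le_cent (K : Subgroup (Perm α)) (y : Perm α) {A T : Finset (Perm α)}
    (hA : ∀ k ∈ A, ∀ k' ∈ A, k * k'⁻¹ ∈ K) (hT : ∀ k ∈ A, k⁻¹ * y * k ∈ T) :
    A.card ≤ Nat.card (K ⊓ Subgroup.centralizer {y} : Subgroup (Perm α)) * T.card := by
  classical
  refine card_le_mul_card_image_of_maps_to (f := fun k => k⁻¹ * y * k) hT _ fun b _ => ?_
  by_contra hcon
  obtain ⟨k₀, h0⟩ := card_pos.1 (lt_of_le_of_lt (Nat.zero_le _) (not_le.1 hcon))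
  apply hcon
  rw [← card_mem]
  refine card_le_card_of_injOn (fun k => k * k₀⁻¹) ?_ (fun a _ b _ h => mul_right_cancel h)
  intro k hk
  obtain ⟨h1, h2⟩ := mem_filter.1 (mem_coe.1 hk)
  obtain ⟨h3, h4⟩ := mem_filter.1 h0
  refine mem_coe.2 (mem_filter.2 ⟨mem_univ _, hA k h1 k₀ h3,
    Subgroup.mem_centralizer_singleton_iff.2 ?_⟩)
  calc k * k₀⁻¹ * y = k * (k₀⁻¹ * y * k₀) * k₀⁻¹ := by group
    _ = k * (k⁻¹ * y * k) * k₀⁻¹ := by rw [h2, h4]
    _ = _ := by group

lemma exists_between {p a b : ℕ} (hp : p.Prime) {P K : Subgroup (Perm α)} (h : P ≤ K)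
    (hP : Nat.card P = p ^ a) (hK : p ^ b ∣ Nat.card K) (hab : a ≤ b) :
    ∃ A, P ≤ A ∧ A ≤ K ∧ Nat.card A = p ^ b := by
  have : Fact p.Prime := ⟨hp⟩
  obtain ⟨A, hA, hA'⟩ := Sylow.exists_subgroup_card_pow_prime_le p hK (P.subgroupOf K)
    ((card_subgroupOf h).trans hP) hab
  refine ⟨A.map K.subtype, fun x hx => ⟨⟨x, h hx⟩, hA' hx, rfl⟩, Subgroup.map_subtype_le _, ?_⟩
  rw [Subgroup.card_map_of_injective K.subtype_injective, hA]

lemma orbL_abelian {w e : ℕ} (hf : Fx H w) (hw : 3 ≤ w) (h0 : 0 < Fintype.card α) {g : Perm α}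
    (hg : orderOf g = 2 ^ (e + 1)) {A : Subgroup (Perm α)} (hA : A ≤ H)
    (hgA : Subgroup.zpowers g ≤ A) (hc : ∀ x ∈ A, x * g = g * x) (hAc : Nat.card A = 2 ^ (e + 2)) :
    ∃ z : α, (orb A z).card = 2 ^ (e + 2) := by
  classical
  set Z := Subgroup.zpowers g with hZ
  have hZc : Nat.card Z = 2 ^ (e + 1) := by rw [hZ, Nat.card_zpowers, hg]
  have hJ : ∀ x ∈ Z, x * x = 1 → x = 1 ∨ x = g ^ 2 ^ e := by
    intro x hx hxx
    obtain ⟨j, hj, rfl⟩ := mem_image.1 (mem_zpowers_iff_mem_range_orderOf.1 hx)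
    rw [← pow_add, ← orderOf_dvd_iff_pow_eq_one, hg, pow_succ, ← mul_two,
      Nat.mul_dvd_mul_iff_right two_pos] at hxx
    obtain ⟨c, rfl⟩ := hxx
    rw [mem_range, hg, pow_succ] at hj
    have := lt_of_mul_lt_mul_left hj (Nat.zero_le _)
    interval_cases c <;> simp
  have hidx : ∀ u ∈ A, u ∉ Z → ∀ u' ∈ A, u' ∉ Z → u⁻¹ * u' ∈ Z := by
    intro u hu huZ u' hu' huZ'
    have h1 : univ.filter (fun x => u⁻¹ * x ∈ Z)
        = univ.filter (fun x => x ∈ A) \ univ.filter (fun x => x ∈ Z) := by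
      refine eq_of_subset_of_card_le ?_ ?_
      · intro x hx
        have h2 := (mem_filter.1 hx).2
        simp only [mem_sdiff, mem_filter, mem_univ, true_and]
        refine ⟨by simpa using A.mul_mem hu (hgA h2), fun h => huZ ?_⟩
        simpa using Z.mul_mem h (Z.inv_mem h2)
      · rw [card_sdiff_of_subset (fun x hx => by
          simpa using hgA (mem_filter.1 hx).2), card_mem, card_mem, card_coset, hAc, hZc, pow_succ]
        omega
    have : u' ∈ univ.filter (fun x => u⁻¹ * x ∈ Z) := by rw [h1]; simp [hu', huZ']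
    exact (mem_filter.1 this).2
  set T := univ.filter (fun x : Perm α => x ∈ A ∧ x * x = 1 ∧ x ≠ 1) with hT
  have hTc : T.card ≤ 3 := by
    by_cases hex : ∃ u ∈ T, u ∉ Z
    · obtain ⟨u, hu, huZ⟩ := hex
      obtain ⟨h1, h2, -⟩ := (mem_filter.1 hu).2
      refine le_trans (card_le_card (t := {g ^ 2 ^ e, u, u * g ^ 2 ^ e}) fun x hx => ?_)
        card_le_three
      obtain ⟨h3, h4, h5⟩ := (mem_filter.1 hx).2
      simp only [mem_insert, mem_singleton]
      by_cases hxZ : x ∈ Z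
      · exact Or.inl ((hJ x hxZ h4).resolve_left h5)
      · have h6 := hidx u h1 huZ x h3 hxZ
        have h7 : Commute u (u⁻¹ * x) := by
          obtain ⟨j, hj⟩ := mem_powers_iff_mem_zpowers.2 h6
          rw [← hj]
          exact Commute.pow_right (hc u h1) j
        have h8 : u⁻¹ * x * (u⁻¹ * x) = 1 := by
          have h9 := h7.mul_pow 2
          rw [mul_inv_cancel_left, sq, sq, sq, h2, h4, one_mul] at h9
          exact h9.symm
        rcases hJ _ h6 h8 with h | h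
        · exact Or.inr (Or.inl (inv_mul_eq_one.1 h).symm)
        · exact Or.inr (Or.inr (by rw [← h]; group))
    · push Not at hex
      refine le_trans (card_le_card (t := {g ^ 2 ^ e}) fun x hx => ?_) (by simp)
      obtain ⟨-, h4, h5⟩ := (mem_filter.1 hx).2
      exact mem_singleton.2 ((hJ x (hex x hx) h4).resolve_left h5)
  obtain ⟨z, hz⟩ := hf.cover (by omega) h0 (T := T)
    (fun x hx => ⟨hA (mem_filter.1 hx).2.1, (mem_filter.1 hx).2.2.2⟩) (by omega)
  refine ⟨z, ?_⟩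
  have h1 := orb_mul_st A z
  have h2 : Nat.card (st A z) ∣ 2 ^ (e + 2) := hAc ▸ Subgroup.card_dvd_of_le inf_le_left
  obtain ⟨c, -, hc'⟩ := (Nat.dvd_prime_pow Nat.prime_two).1 h2
  rcases c with _ | c
  · rw [hc'] at h1; omega
  exfalso
  obtain ⟨x, hx⟩ := exists_prime_orderOf_dvd_card' (G := st A z) 2
    (by rw [hc']; exact dvd_pow_self 2 (by omega))
  rw [← Subgroup.orderOf_coe] at hx
  refine hz x (mem_filter.2 ⟨mem_univ _, (mem_st.1 x.2).1, ?_, ?_⟩) (mem_st.1 x.2).2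
  · rw [← sq, ← hx, pow_orderOf_eq_one]
  · intro h
    rw [h, orderOf_one] at hx
    omega

theorem orbL_two_pow {τ w e γ : ℕ} (ht : Tr H univ τ) (hf : Fx H w) (hw : 3 ≤ w)
    (hτ : 2 ^ (e + 1) + 2 + γ ≤ τ) (hn : τ ≤ Fintype.card α) : OrbL H (2 ^ (e + 2)) γ := by
  classical
  have hc : Fintype.card (ZMod (2 ^ (e + 1)) ⊕ ZMod 2 ⊕ Fin γ) = 2 ^ (e + 1) + 2 + γ := by
    simp [ZMod.card]; ring
  obtain ⟨u, hu, -⟩ := exists_family (univ : Finset α)
    (β := ZMod (2 ^ (e + 1)) ⊕ ZMod 2 ⊕ Fin γ) (by rw [card_univ]; omega)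
  set s : ZMod (2 ^ (e + 1)) × ZMod 2 → ZMod (2 ^ (e + 1)) ⊕ ZMod 2 ⊕ Fin γ →
      ZMod (2 ^ (e + 1)) ⊕ ZMod 2 ⊕ Fin γ :=
    fun c => Sum.map (· + c.1) (Sum.map (· + c.2) id) with hs
  have hss : ∀ c c' b, s c (s c' b) = s (c' + c) b := by
    rintro c c' (b | b | b) <;> simp [hs, add_assoc]
  have hs0 : ∀ b, s 0 b = b := by rintro (b | b | b) <;> simp [hs]
  set K : Subgroup (Perm α) :=
    { carrier := {g | g ∈ H ∧ ∃ c, ∀ b, g (u b) = u (s c b)}
      mul_mem' := by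
        rintro a b ⟨ha, c, hc⟩ ⟨hb, c', hc'⟩
        exact ⟨H.mul_mem ha hb, c' + c, fun x => by rw [Perm.mul_apply, hc', hc, hss]⟩
      one_mem' := ⟨H.one_mem, 0, fun b => by rw [hs0]; rfl⟩
      inv_mem' := by
        rintro a ⟨ha, c, hc⟩
        exact ⟨H.inv_mem ha, -c, fun b => by
          rw [Perm.inv_eq_iff_eq, hc, hss, neg_add_cancel, hs0]⟩ } with hK
  have hKm : ∀ g, g ∈ K ↔ g ∈ H ∧ ∃ c, ∀ b, g (u b) = u (s c b) := fun g => Iff.rfl
  set z : α × α := (u (Sum.inl 0), u (Sum.inr (Sum.inl 0))) with hz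
  have hc' : ∀ (g : Perm α) c c', (∀ b, g (u b) = u (s c b)) →
      g • z = (u (Sum.inl c'.1), u (Sum.inr (Sum.inl c'.2))) → c = c' := by
    intro g c c' h1 h2
    simp only [hz, Prod.smul_mk, Perm.smul_def, h1, Prod.mk.injEq] at h2
    have h3 := hu h2.1
    have h4 := hu h2.2
    simp only [hs, Sum.map_inl, Sum.map_inr, zero_add, Sum.inl.injEq, Sum.inr.injEq] at h3 h4
    exact Prod.ext h3 h4
  have horb : orb K z = univ.image (fun c : ZMod (2 ^ (e + 1)) × ZMod 2 =>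
      (u (Sum.inl c.1), u (Sum.inr (Sum.inl c.2)))) := by
    ext x
    simp only [mem_orb, mem_image, mem_univ, true_and]
    constructor
    · rintro ⟨g, ⟨-, c, hc⟩, rfl⟩
      exact ⟨c, by simp [hz, hc, hs]⟩
    · rintro ⟨c, rfl⟩
      obtain ⟨g, hg, hg'⟩ := ht.family (by omega) hu (v := fun b => u (s c b))
        (fun a b h => by
          have := congrArg (s (-c)) (hu h)
          simpa [hss, hs0] using this) (fun _ => mem_univ _) (fun _ => mem_univ _)
      exact ⟨g, ⟨hg, c, hg'⟩, by simp [hz, hg', hs]⟩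
  have horbc : (orb K z).card = 2 ^ (e + 2) := by
    rw [horb, card_image_of_injective]
    · simp [ZMod.card, pow_succ]
    · intro c c' h
      simp only [Prod.mk.injEq] at h
      exact Prod.ext (Sum.inl_injective (hu h.1)) (Sum.inl_injective (Sum.inr_injective (hu h.2)))
  obtain ⟨P, hP⟩ := exists_syl' Nat.prime_two K
  have e1 := orb_mul_st K z
  have e2 := orb_mul_st P z
  have e3 : Nat.card (st P z) ∣ Nat.card (st K z) :=
    Subgroup.card_dvd_of_le (inf_le_inf_right _ hP.1)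
  have e4 : Nat.card (st P z) ∣ Nat.card P := Subgroup.card_dvd_of_le inf_le_left
  rw [hP.2] at e4
  obtain ⟨c, -, e5⟩ := (Nat.dvd_prime_pow Nat.prime_two).1 e4
  rw [e5, Nat.prime_two.pow_dvd_iff_le_factorization Nat.card_pos.ne'] at e3
  have e6 : (Nat.card K).factorization 2 = e + 2 + (Nat.card (st K z)).factorization 2 := by
    rw [← e1, horbc, Nat.factorization_mul (by positivity) Nat.card_pos.ne',
      Nat.prime_two.factorization_pow]
    simp
  have e7 : orb P z = orb K z := by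
    refine eq_of_subset_of_card_le (fun x hx => ?_) ?_
    · obtain ⟨g, hg, hg'⟩ := mem_orb.1 hx
      exact mem_orb.2 ⟨g, hP.1 hg, hg'⟩
    · refine Nat.le_of_mul_le_mul_right ?_ (show 0 < 2 ^ c by positivity)
      rw [horbc, ← e5, e2, hP.2, e5, ← pow_add]
      exact Nat.pow_le_pow_right two_pos (by omega)
  obtain ⟨g, hg, hg'⟩ := mem_orb.1 (show (u (Sum.inl 1), u (Sum.inr (Sum.inl 0))) ∈ orb P z by
    rw [e7, horb]; exact mem_image.2 ⟨(1, 0), mem_univ _, rfl⟩)
  obtain ⟨hgH, c₀, hc₀⟩ := (hKm g).1 (hP.1 hg)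
  obtain rfl := hc' g c₀ (1, 0) hc₀ hg'
  set Γ := univ.image (fun i => u (Sum.inr (Sum.inr i))) with hΓ
  have hΓc : Γ.card = γ := by
    rw [hΓ, card_image_of_injective _ (fun i j h => Sum.inr_injective (Sum.inr_injective (hu h))),
      card_univ, Fintype.card_fin]
  have hΓK : ∀ k ∈ K, ∀ x ∈ Γ, k x = x := by
    rintro k ⟨-, c, hc⟩ x hx
    obtain ⟨i, -, rfl⟩ := mem_image.1 hx
    simp [hc, hs]
  have hord : orderOf g ∣ 2 ^ (Nat.card K).factorization 2 := by
    rw [← hP.2]; exact Subgroup.orderOf_dvd_natCard P hg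
  by_cases h1 : g ^ 2 ^ (e + 1) = 1
  · have f1 : ∀ j : ℕ, (g ^ j) (u (Sum.inl 0)) = u (Sum.inl j) := by
      intro j
      induction j with
      | zero => simp
      | succ j ih => rw [pow_succ', Perm.mul_apply, ih, hc₀]; simp [hs]
    have f2 : orderOf g = 2 ^ (e + 1) := by
      refine Nat.dvd_antisymm (orderOf_dvd_of_pow_eq_one h1) ?_
      have := f1 (orderOf g)
      rw [pow_orderOf_eq_one] at this
      exact (ZMod.natCast_eq_zero_iff _ _).1 (Sum.inl_injective (hu this)).symm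
    set C := P ⊓ Subgroup.centralizer {g} with hC
    have f3 := card_le_cent P g (A := univ.filter (· ∈ P)) (T := cos P (univ.image u) g)
      (fun k hk k' hk' => P.mul_mem (mem_filter.1 hk).2 (P.inv_mem (mem_filter.1 hk').2)) (by
        intro k hk
        have hk' := (mem_filter.1 hk).2
        refine mem_cos.2 ⟨P.mul_mem (P.mul_mem (P.inv_mem hk') hg) hk', fun x hx => ?_⟩
        obtain ⟨b, -, rfl⟩ := mem_image.1 hx
        obtain ⟨-, c, hc⟩ := (hKm k).1 (hP.1 hk')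
        rw [Perm.mul_apply, Perm.mul_apply, Perm.inv_eq_iff_eq, hc, hc₀, hc₀, hc, hss, hss,
          add_comm])
    have f4 : Nat.card (fx P (univ.image u)) ≤ Nat.card (st P z) :=
      Subgroup.card_le_of_le fun k hk => mem_st.2 ⟨hk.1, by
        simp [hz, hk.2 _ (mem_image_of_mem _ (mem_univ _))]⟩
    rw [card_mem, ← e2, e7, horbc, ← hC] at f3
    have f5 : 2 ^ (e + 2) ≤ Nat.card C := Nat.le_of_mul_le_mul_right
      (f3.trans (Nat.mul_le_mul_left _ ((card_cos_le _ _).trans f4))) Nat.card_pos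
    have f6 : Nat.card C ∣ Nat.card P := Subgroup.card_dvd_of_le inf_le_left
    rw [hP.2] at f6
    obtain ⟨d, -, f7⟩ := (Nat.dvd_prime_pow Nat.prime_two).1 f6
    rw [f7, Nat.pow_le_pow_iff_right one_lt_two] at f5
    obtain ⟨A, hA1, hA2, hA3⟩ := exists_between Nat.prime_two (P := Subgroup.zpowers g) (K := C)
      (a := e + 1) (b := e + 2) (Subgroup.zpowers_le.2 ⟨hg,
        Subgroup.mem_centralizer_singleton_iff.2 rfl⟩) (by rw [Nat.card_zpowers, f2])
      (by rw [f7]; exact pow_dvd_pow 2 f5) (by omega)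
    have hAK : A ≤ K := hA2.trans (inf_le_left.trans hP.1)
    have hAH : A ≤ H := fun x hx => (hAK hx).1
    obtain ⟨y, hy⟩ := orbL_abelian hf hw (by omega) f2 hAH hA1
      (fun x hx => Subgroup.mem_centralizer_singleton_iff.1 (hA2 hx).2) hA3
    exact ⟨A, hAH, y, Γ, fun x hx => mem_fixs.2 fun k hk => hΓK k (hAK hk) x hx, hy, hΓc⟩
  · obtain ⟨y, hy⟩ := supp_nonempty h1
    obtain ⟨j, -, hj⟩ := (Nat.dvd_prime_pow Nat.prime_two).1 ((per_dvd_order g y).trans hord)
    have f1 := (mem_supp.1 hy).2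
    rw [Ne, per_dvd, hj, Nat.pow_dvd_pow_iff_le_right one_lt_two] at f1
    rw [← hΓc]
    exact orbL_of_dvd hgH (hΓK g (hP.1 hg)) (z := y) (by rw [hj]; exact pow_dvd_pow 2 (by omega))

lemma erase_orb {A : Subgroup (Perm α)} (hA : A ≤ H) {z : α} {Γ : Finset α} (hΓ : Γ ⊆ fixs A)
    {x x' : α} (hx : x ∈ orb A z) (hx' : x' ∈ orb A z) :
    (orb A z ∪ Γ).erase x' ∈ orb H ((orb A z ∪ Γ).erase x) := by
  obtain ⟨a, ha, rfl⟩ := mem_orb.1 (orb_trans (orb_symm hx) hx')
  refine mem_orb.2 ⟨a, hA ha, ?_⟩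
  rw [smul_erase]
  congr 1
  refine eq_of_subset_of_card_le (fun y hy => ?_) (card_smul _ _).ge
  obtain ⟨y, hy', rfl⟩ := mem_image.1 hy
  rcases mem_union.1 hy' with h | h
  · exact mem_union_left _ ((smul_mem_orb ha).2 h)
  · exact mem_union_right _ (by rw [Perm.smul_def, mem_fixs.1 (hΓ h) a ha]; exact h)

theorem nr_le_of_orbL {t L γ : ℕ} (h : HH H t) (ho : OrbL H L γ) (hL : 2 ≤ L)
    (ht : L + γ = t + 1) : nr H t ≤ 1 + γ := by
  obtain ⟨A, hA, z, Γ, hΓ, h1, h2⟩ := ho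
  have hd : Disjoint (orb A z) Γ := by
    rw [disjoint_left]
    intro y hy hy'
    have : orb A z ⊆ {y} := by
      intro x hx
      obtain ⟨a, ha, rfl⟩ := mem_orb.1 (orb_trans (orb_symm hy) hx)
      exact mem_singleton.2 (mem_fixs.1 (hΓ hy') a ha)
    have := card_le_card this
    rw [card_singleton] at this
    omega
  rw [nr, ← h.image (C := orb A z ∪ Γ) (by rw [card_union_of_disjoint hd]; omega), image_union]
  refine (card_union_le _ _).trans (add_le_add (card_le_one.2 fun O hO O' hO' => ?_)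
    (h2 ▸ card_image_le))
  obtain ⟨x, hx, rfl⟩ := mem_image.1 hO
  obtain ⟨x', hx', rfl⟩ := mem_image.1 hO'
  exact orb_eq (erase_orb hA hΓ hx' hx)

lemma pure_of_orbL {L γ : ℕ} (ho : OrbL H L γ) : ∃ Y : Finset α, Y.card = L ∧
    ∀ x ∈ Y, ∀ x' ∈ Y, Y.erase x' ∈ orb H (Y.erase x) := by
  obtain ⟨A, hA, z, -, -, h1, -⟩ := ho
  exact ⟨orb A z, h1, fun x hx x' hx' => by simpa using erase_orb hA (empty_subset _) hx hx'⟩

end Pool.Agent.H5Hom
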