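import Pool.Agent.Lib.MP_078193_al.H5Fxy

/-! Two orbits on three consecutive levels force a small degree. -/

open Finset Equiv
open scoped Pointwise

set_option linter.unusedSectionVars false

namespace Pool.Agent.H5Hom

variable {α : Type} [Fintype α] [DecidableEq α] {H : Subgroup (Perm α)}

lemma sum_compl_const (c : ℝ) (A : Finset α) :
    ∑ _y ∈ univ \ A, c = ((Fintype.card α : ℝ) - A.card) * c := by
  rw [sum_const, card_sdiff_of_subset (subset_univ _), card_univ, nsmul_eq_mul,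
    Nat.cast_sub (card_le_univ A)]

lemma Harm.mean {i : ℕ} {f : Finset α → ℝ} (hf : Harm i f) (hi : i + 1 ≤ Fintype.card α)
    (l : ℕ) : ∑ A ∈ powersetCard l univ, lift (i + 1) f A = 0 := by
  have e1 := sum_flag univ l (fun A _ => lift (i + 1) f A)
  have e2 := sum_flag univ l (fun A y => lift (i + 1) f (insert y A))
  rw [sum_congr rfl (fun C hC => by rw [lift_up, mem_lev.1 hC]),
    sum_congr rfl (s₁ := powersetCard l univ) (fun A hA => by
      rw [sum_compl_const, mem_lev.1 hA]), ← mul_sum, ← mul_sum] at e1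
  rw [sum_congr rfl (fun C hC => by
      rw [sum_congr rfl (fun x hx => by rw [insert_erase hx]), sum_const, mem_lev.1 hC,
        nsmul_eq_mul]),
    sum_congr rfl (s₁ := powersetCard l univ) (fun A hA => by
      rw [lift_down hf, mem_lev.1 hA]), ← mul_sum, ← mul_sum] at e2
  push_cast at e1 e2
  have hi' : (i : ℝ) + 1 ≤ Fintype.card α := by exact_mod_cast hi
  have h0 : ((i : ℝ) + 1) * (Fintype.card α - i) ≠ 0 :=
    mul_ne_zero (by positivity) (by linarith)
  refine mul_left_cancel₀ h0 ?_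
  linear_combination (-((l : ℝ) + 1)) * e1 + ((l : ℝ) - i) * e2

lemma Harm.var {i : ℕ} {f : Finset α → ℝ} (hf : Harm i f) (l : ℕ) :
    ((l : ℝ) - i) * ∑ A ∈ powersetCard (l + 1) univ, lift (i + 1) f A ^ 2
      = ((Fintype.card α : ℝ) - l - (i + 1)) * ∑ A ∈ powersetCard l univ, lift (i + 1) f A ^ 2 := by
  have e1 := sum_flag univ l (fun A y => lift (i + 1) f A * lift (i + 1) f (insert y A))
  rw [sum_congr rfl (fun C hC => by
      rw [sum_congr rfl (fun x hx => by rw [insert_erase hx]), ← sum_mul, lift_up, mem_lev.1 hC,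
        mul_assoc]),
    sum_congr rfl (s₁ := powersetCard l univ) (fun A hA => by
      rw [← mul_sum, lift_down hf, mem_lev.1 hA, mul_left_comm]), ← mul_sum, ← mul_sum] at e1
  push_cast at e1
  simp only [sq]
  linear_combination e1

lemma Dat.other {i l : ℕ} {f : Finset α → ℝ} (hd : Dat H i f) (h2 : Two H l) (hil : i + 1 ≤ l)
    (hl : l + i + 1 ≤ Fintype.card α) {X : Finset α} (hX : X.card = l) :
    ∃ Y : Finset α, Y.card = l ∧ lift (i + 1) f Y ≠ lift (i + 1) f X ∧
      (∀ A : Finset α, A.card = l → A ∈ orb H X ∨ A ∈ orb H Y) ∧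
      lift (i + 1) f X * lift (i + 1) f Y < 0 ∧
      ∑ A ∈ powersetCard l univ, lift (i + 1) f A ^ 2
        = -(lift (i + 1) f X * lift (i + 1) f Y) * (Fintype.card α).choose l := by
  obtain ⟨A₁, A₂, h3, h4, h5⟩ := hd.nc_level hil hl
  obtain ⟨Y, hY, hY'⟩ : ∃ Y : Finset α, Y.card = l ∧ lift (i + 1) f Y ≠ lift (i + 1) f X := by
    by_cases h : lift (i + 1) f A₁ = lift (i + 1) f X
    · exact ⟨A₂, h4, fun h' => h5 (h.trans h'.symm)⟩
    · exact ⟨A₁, h3, h⟩
  have h6 : ∀ A : Finset α, A.card = l → A ∈ orb H X ∨ A ∈ orb H Y := fun A hA =>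
    (h2 X Y A hX hY hA).resolve_left fun h => hY' (hd.lift_orb h)
  set F := lift (i + 1) f
  have h7 : ∑ A ∈ powersetCard l univ, (F A - F X) * (F A - F Y) = 0 :=
    sum_eq_zero fun A hA => by
      rcases h6 A (mem_lev.1 hA) with h | h
      · rw [show F A = F X from hd.lift_orb h]; ring
      · rw [show F A = F Y from hd.lift_orb h]; ring
  have h8 := hd.harm.mean (by omega) l
  have h9 : ∑ A ∈ powersetCard l univ, F A ^ 2 = -(F X * F Y) * (Fintype.card α).choose l := by
    have : ∀ A, (F A - F X) * (F A - F Y) = F A ^ 2 - (F X + F Y) * F A + F X * F Y :=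
      fun A => by ring
    simp only [this, sum_add_distrib, sum_sub_distrib, ← mul_sum, sum_const, card_powersetCard,
      card_univ, nsmul_eq_mul] at h7
    rw [h8] at h7
    linarith
  refine ⟨Y, hY, hY', h6, ?_, h9⟩
  have h10 : 0 < ∑ A ∈ powersetCard l univ, F A ^ 2 := by
    refine sum_pos' (fun A _ => sq_nonneg _) ?_
    by_cases h : F X = 0
    · exact ⟨Y, mem_lev.2 hY, by rw [h] at hY'; positivity⟩
    · exact ⟨X, mem_lev.2 hX, by positivity⟩
  rw [h9] at h10
  have h11 : (0 : ℝ) ≤ (Fintype.card α).choose l := by positivity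
  nlinarith

lemma Dat.up_two {i l : ℕ} {f : Finset α → ℝ} (hd : Dat H i f) {X Y : Finset α}
    (h : ∀ A : Finset α, A.card = l → A ∈ orb H X ∨ A ∈ orb H Y) {C : Finset α}
    (hC : C.card = l + 1) : ∃ a : ℕ, a ≤ l + 1 ∧ ((l : ℝ) - i) * lift (i + 1) f C
      = a * lift (i + 1) f X + (l + 1 - a) * lift (i + 1) f Y := by
  classical
  have h1 := lift_up (i + 1) f C
  have h2 := card_filter_add_card_filter_not (s := C) (fun x => C.erase x ∈ orb H X)
  rw [← sum_filter_add_sum_filter_not C (fun x => C.erase x ∈ orb H X),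
    sum_congr rfl (fun x hx => hd.lift_orb (mem_filter.1 hx).2),
    sum_congr rfl (s₁ := C.filter _) (fun x hx => hd.lift_orb ((h _ (by
      rw [card_erase_of_mem (mem_filter.1 hx).1]; omega)).resolve_left (mem_filter.1 hx).2)),
    sum_const, sum_const, hC, nsmul_eq_mul, nsmul_eq_mul] at h1
  refine ⟨(C.filter (fun x => C.erase x ∈ orb H X)).card, by omega, ?_⟩
  have h3 := congrArg (Nat.cast (R := ℝ)) (h2.trans hC)
  push_cast at h1 h3
  linear_combination -h1 + (lift (i + 1) f Y) * h3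

lemma var_rel {n l : ℕ} (hl : l ≤ n) {c e P P' : ℝ}
    (h : c * (-P' * n.choose (l + 1)) = e * (-P * n.choose l)) :
    c * P' * (n - l) = e * (l + 1) * P := by
  have h1 := congrArg (Nat.cast (R := ℝ)) (Nat.choose_succ_right_eq n l)
  push_cast [Nat.cast_sub hl] at h1
  have h2 : (n.choose l : ℝ) ≠ 0 := by exact_mod_cast (Nat.choose_pos hl).ne'
  refine mul_right_cancel₀ h2 ?_
  linear_combination (-((l : ℝ) + 1)) * h - c * P' * h1

lemma int_bound {i d M a a' z : ℕ} (hM : M ≤ i + d + 2) (ha : a ≤ i + d + 1)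
    (ha' : a' ≤ i + d + 1) (h : (z : ℤ) ≤ ((i + d + 2 - M) * i) * ((d + 1) + M * i) * (i + 1)
      * (i + d + 1) * (a - a') ^ 2) : z ≤ 2 * (i + d + 2) ^ 8 := by
  set T : ℤ := i + d + 2 with hT
  have b1 : (a - a' : ℤ) ^ 2 ≤ T ^ 2 := by
    refine sq_le_sq' ?_ ?_ <;> omega
  have b0 : (M * i : ℤ) ≤ T * T := by gcongr <;> omega
  have b2 : (d + 1 + M * i : ℤ) ≤ 2 * T ^ 2 := by nlinarith
  have b3 : ((T - M) * i) * ((d + 1) + M * i) * (i + 1) * (i + d + 1) * (a - a') ^ 2
      ≤ (T * T) * (2 * T ^ 2) * T * T * T ^ 2 := by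
    gcongr <;> omega
  have b4 : (z : ℤ) ≤ 2 * T ^ 8 := by linarith
  rw [hT] at b4
  exact_mod_cast b4

lemma algebra_end {i d M a a' z : ℕ} (hi : 1 ≤ i) (hd : 1 ≤ d) (hz : 2 ≤ z) (hM : M ≤ i + d + 2)
    (ha : a ≤ i + d + 1) (ha' : a' ≤ i + d + 1) {x y x' y' ξ η : ℝ} (hxy : x * y < 0)
    (e1 : (d + 1) * y' = (i + d + 2) * y)
    (e2 : (d + 1) * x' = M * x + (i + d + 2 - M) * y)
    (e3 : (d + 1) * (y' * x') * (z + i) = (z - 1) * (i + d + 2) * (y * x))
    (e4 : d * x = a * ξ + (i + d + 1 - a) * η) (e5 : d * y = a' * ξ + (i + d + 1 - a') * η)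
    (e6 : d * (y * x) * (z + i + 1) = z * (i + d + 1) * (ξ * η)) :
    z ≤ 2 * (i + d + 2) ^ 8 := by
  have hx : x ≠ 0 := by rintro rfl; simp at hxy
  have hy : y ≠ 0 := by rintro rfl; simp at hxy
  have hd0 : (d : ℝ) ≠ 0 := by positivity
  have ht0 : (i : ℝ) + d + 2 ≠ 0 := by positivity
  have f1 : (M * x + (i + d + 2 - M) * y) * (z + i) = (d + 1) * (z - 1) * x := by
    refine mul_left_cancel₀ (mul_ne_zero ht0 hy) ?_
    linear_combination (d + 1) * e3 - (z + i) * ((d + 1) * x' * e1 + (i + d + 2) * y * e2)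
  have hM' : M ≠ i + d + 2 := by
    rintro rfl
    push_cast at f1
    have : ((i : ℝ) + d + 2) * (z + i) = (d + 1) * (z - 1) :=
      mul_right_cancel₀ hx (by linear_combination f1)
    have h1 : (0 : ℝ) < (i + 1) * (z + i + d + 1) - i := by
      have : ((i : ℝ) + 1) * (z + i + d + 1) - i = i * (z + i + d) + z + i + d + 1 := by ring
      rw [this]; positivity
    have h2 : (0 : ℝ) ≤ i := by positivity
    linarith
  have haa : a ≠ a' := by
    rintro rfl
    have : x = y := mul_left_cancel₀ hd0 (e4.trans e5.symm)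
    rw [this] at hxy
    exact absurd hxy (not_lt.2 (mul_self_nonneg y))
  set X : ℤ := (i + d + 2 - M) * (z + i) with hX
  set Y : ℤ := (d + 1) * (z - 1) - M * (z + i) with hY
  have f2 : (X : ℝ) * y = Y * x := by
    rw [hX, hY]; push_cast; linear_combination f1
  have f3 : (x * y) * (z + i + 1) * (i + d + 1) * (a - a') ^ 2
      = z * d * (a * y - a' * x) * ((i + d + 1 - a') * x - (i + d + 1 - a) * y) := by
    refine mul_left_cancel₀ hd0 ?_
    have g1 : d * (a * y - a' * x) = (a - a') * (i + d + 1) * η := by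
      linear_combination a * e5 - a' * e4
    have g2 : d * ((i + d + 1 - a') * x - (i + d + 1 - a) * y) = (a - a') * (i + d + 1) * ξ := by
      linear_combination (i + d + 1 - a') * e4 - (i + d + 1 - a) * e5
    calc _ = (d * (y * x) * (z + i + 1)) * ((i + d + 1) * (a - a') ^ 2) := by ring
      _ = z * ((a - a') * (i + d + 1) * η) * ((a - a') * (i + d + 1) * ξ) := by rw [e6]; ring
      _ = _ := by rw [← g1, ← g2]; ring
  have f4 : (X : ℝ) * Y * (z + i + 1) * (i + d + 1) * (a - a') ^ 2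
      = z * d * (a * Y - a' * X) * ((i + d + 1 - a') * X - (i + d + 1 - a) * Y) := by
    refine mul_left_cancel₀ (pow_ne_zero 2 hx) ?_
    calc _ = (X * x) * (Y * x) * (z + i + 1) * (i + d + 1) * (a - a') ^ 2 := by ring
      _ = X ^ 2 * ((x * y) * (z + i + 1) * (i + d + 1) * (a - a') ^ 2) := by rw [← f2]; ring
      _ = z * d * (a * (X * y) - a' * X * x)
          * ((i + d + 1 - a') * X * x - (i + d + 1 - a) * (X * y)) := by rw [f3]; ring
      _ = _ := by rw [f2]; ring
  have f5 : X * Y * (z + i + 1) * (i + d + 1) * (a - a') ^ 2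
      = z * (d * (a * Y - a' * X) * ((i + d + 1 - a') * X - (i + d + 1 - a) * Y)) := by
    have : ((X * Y * (z + i + 1) * (i + d + 1) * (a - a') ^ 2 : ℤ) : ℝ)
        = (z * (d * (a * Y - a' * X) * ((i + d + 1 - a') * X - (i + d + 1 - a) * Y)) : ℤ) := by
      push_cast; linear_combination f4
    exact_mod_cast this
  set c : ℤ := ((i + d + 2 - M) * i) * ((d + 1) + M * i) * (i + 1) * (i + d + 1) * (a - a') ^ 2
    with hc
  have f6 : (z : ℤ) ∣ c := by
    have g1 : (z : ℤ) ∣ X * Y * (z + i + 1) * (i + d + 1) * (a - a') ^ 2 := ⟨_, f5⟩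
    have g2 : (z : ℤ) ∣ X * Y * (z + i + 1) + ((i + d + 2 - M) * i) * ((d + 1) + M * i) * (i + 1) :=
      ⟨(i + d + 2 - M) * ((d + 1 - M) * (z + i) * (z + i + 1)
        - ((d + 1) + M * i) * (z + 2 * i + 1)), by rw [hX, hY]; ring⟩
    have g3 := (dvd_add_right g1).1 (by
      convert (g2.mul_right ((i + d + 1) * (a - a') ^ 2)) using 1
      rw [show ∀ u v : ℤ, (u + v) * ((i + d + 1) * (a - a') ^ 2)
        = u * (i + d + 1) * (a - a') ^ 2 + v * (i + d + 1) * (a - a') ^ 2 from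
        fun u v => by ring])
    exact g3
  have hM2 : (M : ℤ) < i + d + 2 := by exact_mod_cast lt_of_le_of_ne hM hM'
  have haa' : (a : ℤ) - a' ≠ 0 := sub_ne_zero.2 (by exact_mod_cast haa)
  have hi' : (1 : ℤ) ≤ i := by exact_mod_cast hi
  have hc0 : 0 < c := by
    have : (0 : ℤ) < i + d + 2 - M := by linarith
    positivity
  have f7 := Int.le_of_dvd hc0 f6
  exact int_bound hM ha ha' (hc ▸ f7)

theorem end_low {i j : ℕ} {f : Finset α → ℝ} (hd : Dat H i f) (hi : 1 ≤ i) (hij : i + 1 ≤ j)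
    (h2 : Two H (j + 2)) (hn : 2 * (j + 2) + 2 ≤ Fintype.card α) {A₀ : Finset α}
    (hA₀ : A₀.card = j + 2) (hp : ∀ x ∈ A₀, ∀ x' ∈ A₀, A₀.erase x' ∈ orb H (A₀.erase x)) :
    Fintype.card α ≤ 2 * (j + 2) ^ 8 + 2 * (j + 2) := by
  have h1 : Two H (j + 1) := h2.pred (by omega)
  have h0 : Two H j := h1.pred (by omega)
  obtain ⟨x₀, hx₀⟩ := card_pos.1 (show 0 < A₀.card by omega)
  have hE' : (A₀.erase x₀).card = j + 1 := by rw [card_erase_of_mem hx₀]; omega
  obtain ⟨T, -, hT⟩ := exists_subset_card_eq (s := A₀) (n := j) (by omega)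
  obtain ⟨AM, a1, -, -, -, a5⟩ := hd.other h2 (by omega) (by omega) hA₀
  obtain ⟨E, b1, -, b3, b4, b5⟩ := hd.other h1 (by omega) (by omega) hE'
  obtain ⟨T', -, -, c3, -, c5⟩ := hd.other h0 (by omega) (by omega) hT
  obtain ⟨M, hM, e2⟩ := hd.up_two (fun A hA => (b3 A hA).symm) a1
  obtain ⟨a, ha, e4⟩ := hd.up_two c3 b1
  obtain ⟨a', ha', e5⟩ := hd.up_two c3 hE'
  have e1 := lift_up (i + 1) f A₀
  rw [sum_congr rfl (fun x hx => hd.lift_orb (hp x₀ hx₀ x hx)), sum_const, hA₀,
    nsmul_eq_mul] at e1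
  have e3 := hd.harm.var (j + 1)
  have e6 := hd.harm.var j
  rw [a5, b5] at e3
  rw [b5, c5] at e6
  have e3' := var_rel (by omega) e3
  have e6' := var_rel (by omega) e6
  obtain ⟨d, rfl⟩ : ∃ d, j = i + d := ⟨j - i, by omega⟩
  obtain ⟨z, hz⟩ : ∃ z, Fintype.card α = z + 2 * i + d + 1 := ⟨_, (Nat.sub_add_cancel
    (show 2 * i + d + 1 ≤ Fintype.card α by omega)).symm.trans (by ring)⟩
  rw [hz] at e3' e6'
  push_cast at e1 e2 e3' e4 e5 e6'
  have := algebra_end (i := i) (d := d) (M := M) (a := a) (a' := a') (z := z) hi (by omega)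
    (by omega) hM ha ha' (x := lift (i + 1) f E) (y := lift (i + 1) f (A₀.erase x₀))
    (x' := lift (i + 1) f AM) (y' := lift (i + 1) f A₀) (ξ := lift (i + 1) f T)
    (η := lift (i + 1) f T') (by linarith) (by linear_combination -e1) (by linear_combination e2)
    (by linear_combination e3') (by linear_combination e4) (by linear_combination e5)
    (by linear_combination e6')
  omega

end Pool.Agent.H5Hom
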