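import Pool.Agent.Lib.MP_078193_al.H5EndA

/-! The case of two orbits on `(t-1)`-sets and one on `(t-2)`-sets. -/

open Finset Equiv
open scoped Pointwise

set_option linter.unusedSectionVars false

namespace Pool.Agent.H5Hom

variable {α : Type} [Fintype α] [DecidableEq α] {H : Subgroup (Perm α)}

/-- valuation of the order of a pointwise stabiliser -/
noncomputable def val (H : Subgroup (Perm α)) (q : ℕ) (S : Finset α) : ℕ :=
  (Nat.card (fx H S)).factorization q

lemma val_anti (q : ℕ) {S T : Finset α} (h : S ⊆ T) : val H q T ≤ val H q S :=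
  (Nat.factorization_le_iff_dvd Nat.card_pos.ne' Nat.card_pos.ne').2
    (Subgroup.card_dvd_of_le (fx_anti h)) q

lemma val_orb (q : ℕ) {S T : Finset α} (h : T ∈ orb H S) : val H q T = val H q S := by
  rw [val, val, card_fx_of_mem_orb h]

lemma val_ins (q : ℕ) (S : Finset α) (y : α) :
    (orb (fx H S) y).card.factorization q + val H q (insert y S) = val H q S := by
  rw [val, val, ← orb_fx_mul S y,
    Nat.factorization_mul (card_pos.2 ⟨y, self_mem_orb y⟩).ne' Nat.card_pos.ne']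
  rfl

lemma pp_dvd {q β : ℕ} (hq : q.Prime) {S Y : Finset α} (hY : Inv (fx H S) Y)
    (h : ∀ y ∈ Y, val H q (insert y S) + β ≤ val H q S) : q ^ β ∣ Y.card := by
  refine dvd_card_of_orb hY fun y hy => ?_
  rw [hq.pow_dvd_iff_le_factorization (card_pos.2 ⟨y, self_mem_orb y⟩).ne']
  have := h y hy
  have := val_ins (H := H) q S y
  omega

lemma fx_smul {S : Finset α} {g : Perm α} (hg : g ∈ fx H S) : g • S = S := by
  rw [smul_eq_image, image_congr (g := id) (fun y hy => hg.2 y hy), image_id]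

lemma inv_compl (S : Finset α) : Inv (fx H S) (univ \ S) := by
  intro g hg x hx
  simp only [mem_sdiff, mem_univ, true_and] at hx ⊢
  rwa [← fx_smul hg, apply_mem_smul]

/-- points extending `T` to a member of the orbit of `E` -/
noncomputable def lam (H : Subgroup (Perm α)) (E T : Finset α) : Finset α :=
  (univ \ T).filter (fun y => insert y T ∈ orb H E)

lemma mem_lam {E T : Finset α} {y : α} : y ∈ lam H E T ↔ y ∉ T ∧ insert y T ∈ orb H E := by
  simp [lam]

lemma lam_smul {g : Perm α} (hg : g ∈ H) (E T : Finset α) : lam H E (g • T) = g • lam H E T := by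
  ext y
  rw [mem_lam, mem_smul, mem_smul, mem_lam, ← smul_mem_orb (y := insert (g⁻¹ y) T) hg,
    smul_insert, ap_inv]

lemma inv_lam (E T : Finset α) : Inv (fx H T) (lam H E T) := by
  intro g hg x hx
  rw [← fx_smul hg, lam_smul hg.1]
  exact apply_mem_smul.2 hx

lemma cover_fix {q a σ : ℕ} (hq : q.Prime) {K Q : Subgroup (Perm α)} (hQ : Q ≤ K)
    (hc : Nat.card Q = q ^ a) {Y : Finset α} (h : ∀ y ∈ Y, (orb K y).card = σ) (hσ : ¬ q ∣ σ) :
    Y.card ≤ (fixs Q).card * σ := by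
  have h1 : Y ⊆ ((fixs Q).filter (fun z => (orb K z).card = σ)).biUnion (orb K) := by
    intro y hy
    obtain ⟨z, hz, hz'⟩ := exists_fixs hq hc (Y := orb K y)
      (fun g hg x hx => (smul_mem_orb (hQ hg)).2 hx) (by rwa [h y hy])
    exact mem_biUnion.2 ⟨z, mem_filter.2 ⟨hz', by rw [orb_eq hz, h y hy]⟩, orb_symm hz⟩
  refine (card_le_card h1).trans ((card_biUnion_le_card_mul _ _ σ
    fun z hz => (mem_filter.1 hz).2.le).trans ?_)
  exact Nat.mul_le_mul_right _ (card_filter_le _ _)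

lemma arith_dvd {q j M l l' N a a' eE eE' eM e0 : ℕ} (hq : q.Prime) (hM : M ≤ j + 1)
    (h1 : (j + 1) * l + (N + 1) = (N + 1) * M + (j + 1)) (h2 : l + l' = N + 2)
    (ha : eE + a = eE' + a') (hl : q ^ a ∣ l) (hl' : q ^ a' ∣ l') (hEM : eM ≤ eE)
    (hE0 : e0 ≤ eE') (hc : ∀ β, eM + β ≤ eE → q ^ β ∣ N + 1)
    (hd : ∀ β, eM + β ≤ eE' → e0 + β ≤ eE' → q ^ β ∣ N + 1)
    (he : ∀ β, eM + β ≤ e0 → q ^ β ∣ N) : q ^ a ∣ (j + 1) * (j + 2 - M) * (j + M) := by
  have h3 : (j + 1) * l' = (j + 2 - M) * (N + 1) := by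
    obtain ⟨u, hu⟩ : ∃ u, j + 1 = M + u := ⟨j + 1 - M, by omega⟩
    rw [show j + 2 - M = u + 1 by omega]
    rw [hu] at h1 ⊢
    nlinarith
  have h4 : ¬ q ∣ N + 1 → q ^ a' ∣ j + 2 - M := fun h =>
    ((hq.coprime_iff_not_dvd.2 h).pow_left a').dvd_of_dvd_mul_right (h3 ▸ hl'.mul_left _)
  have h5 : ∀ n, q ∣ n → q ∣ n + 1 → False := fun n h h' =>
    hq.one_lt.ne' (Nat.dvd_one.1 ((Nat.dvd_add_right h).1 h'))
  by_cases h0 : eM < e0
  · have f1 : ¬ q ∣ N + 1 := fun h => h5 N (by simpa using he 1 h0) h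
    have f2 : eE' ≤ e0 := by
      by_contra hc'
      exact f1 (by simpa using hd 1 (by omega) (by omega))
    have f3 : eE ≤ eM := by
      by_contra hc'
      exact f1 (by simpa using hc 1 (by omega))
    have f4 := he (e0 - eM) (by omega)
    have f5 : q ^ (e0 - eM) ∣ l := (pow_dvd_pow q (by omega)).trans hl
    have f6 : q ^ (e0 - eM) ∣ j + M := by
      have : (j + 1) * l + N = N * M + (j + M) := by nlinarith
      exact (Nat.dvd_add_right (f4.mul_right M)).1 (this ▸ dvd_add (f5.mul_left _) f4)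
    rw [show a = a' + (e0 - eM) by omega, pow_add, mul_assoc]
    exact (mul_dvd_mul (h4 f1) f6).mul_left _
  · rcases Nat.eq_zero_or_pos a with rfl | ha0
    · simp
    have f0 : q ∣ l := (dvd_pow_self q ha0.ne').trans hl
    by_cases h6 : a ≤ a'
    · have f1 : q ∣ l' := (dvd_pow_self q (by omega)).trans hl'
      have f2 := h4 fun h => h5 (N + 1) h (h2 ▸ dvd_add f0 f1)
      exact (((pow_dvd_pow q h6).trans f2).mul_left _).mul_right _
    · have f1 := hd (a - a') (by omega) (by omega)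
      rcases Nat.eq_zero_or_pos a' with rfl | ha1
      · have f2 : q ^ a ∣ j + 1 :=
          (Nat.dvd_add_right (f1.mul_right M)).1 (h1 ▸ dvd_add (hl.mul_left _) f1)
        exact (f2.mul_right _).mul_right _
      · have f2 : q ∣ l' := (dvd_pow_self q (by omega)).trans hl'
        exact (h5 (N + 1) ((dvd_pow_self q (by omega)).trans f1) (h2 ▸ dvd_add f0 f2)).elim

/-- the configuration in the final case -/
structure Cfg (H : Subgroup (Perm α)) (j N M : ℕ) (A₀ E' E AM T : Finset α) (x₁ : α) : Prop where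
  hN : Fintype.card α = N + (j + 2)
  hA₀ : A₀.card = j + 2
  hE' : E'.card = j + 1
  hE : E.card = j + 1
  hT : T.card = j
  h0 : Hom H univ j
  sE' : E' ⊆ A₀
  sE : E ⊆ AM
  hTE : insert x₁ T = E
  hx₁ : x₁ ∉ T
  hEE : E ∉ orb H E'
  hOO : ∀ A : Finset α, A.card = j + 1 → A ∉ orb H E → A ∈ orb H E'
  hpure : ∀ A ∈ orb H A₀, ∀ x ∈ A, A.erase x ∉ orb H E
  hAA : ∀ A : Finset α, A.card = j + 2 → A ∉ orb H A₀ → A ∈ orb H AM
  hinsM : ∀ B ∈ orb H E, ∀ y ∉ B, insert y B ∈ orb H AM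
  hMo : ∀ A ∈ orb H AM, (A.filter (fun x => A.erase x ∈ orb H E)).card = M
  hsub : ∀ C : Finset α, C.card = j + 2 + 1 → ∃ B ∈ orb H AM, B ⊆ C
  hout : ∀ y ∉ A₀, ∃ x ∈ A₀, insert y (A₀.erase x) ∈ orb H AM
  hM : M ≤ j + 1
  hM1 : 1 ≤ M

lemma exists_cfg {j : ℕ} (h : HH H (j + 2)) (h0 : Hom H univ j)
    (h1 : ¬ Hom H univ (j + 1)) (h2 : Two H (j + 2)) (hn : 2 * (j + 2) + 2 ≤ Fintype.card α)
    {A₀ : Finset α} (hA₀ : A₀.card = j + 2)
    (hp : ∀ x ∈ A₀, ∀ x' ∈ A₀, A₀.erase x' ∈ orb H (A₀.erase x)) :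
    ∃ N M E' E AM T x₁, Cfg H j N M A₀ E' E AM T x₁ := by
  have h21 : Two H (j + 1) := h2.pred (by omega)
  obtain ⟨x₀, hx₀⟩ := card_pos.1 (show 0 < A₀.card by omega)
  have hE' : (A₀.erase x₀).card = j + 1 := by rw [card_erase_of_mem hx₀]; omega
  obtain ⟨E, hE, hEE⟩ : ∃ E : Finset α, E.card = j + 1 ∧ E ∉ orb H (A₀.erase x₀) := by
    by_contra hc
    push Not at hc
    exact h1 fun A _ B _ hA hB => mem_orb.1 (orb_trans (orb_symm (hc A hA)) (hc B hB))
  have hpure : ∀ A ∈ orb H A₀, ∀ x ∈ A, A.erase x ∉ orb H E := by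
    intro A hA x hx h'
    obtain ⟨g, hg, rfl⟩ := mem_orb.1 hA
    rw [← ap_inv g x, ← smul_erase, smul_mem_orb hg] at h'
    exact hEE (orb_trans (hp x₀ hx₀ _ (mem_smul.1 hx)) (orb_symm h'))
  obtain ⟨y₀, -, hy₀⟩ := exists_mem_notMem_of_card_lt_card (s := E) (t := univ)
    (by rw [card_univ]; omega)
  have hAM : (insert y₀ E).card = j + 2 := by rw [card_insert_of_notMem hy₀, hE]
  have hins : ∀ B ∈ orb H E, ∀ y ∉ B, insert y B ∉ orb H A₀ := fun B hB y hy h' =>
    hpure _ h' y (mem_insert_self _ _) (by rwa [erase_insert hy])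
  have hAA : ∀ A : Finset α, A.card = j + 2 → A ∉ orb H A₀ → A ∈ orb H (insert y₀ E) :=
    fun A hA hA' =>
    ((h2 A₀ _ A hA₀ hAM hA).resolve_left (hins E (self_mem_orb E) y₀ hy₀)).resolve_left hA'
  have hMo : ∀ A ∈ orb H (insert y₀ E), (A.filter (fun x => A.erase x ∈ orb H E)).card
      = ((insert y₀ E).filter (fun x => (insert y₀ E).erase x ∈ orb H E)).card := by
    intro A hA
    obtain ⟨g, hg, rfl⟩ := mem_orb.1 hA
    rw [← card_smul g ((insert y₀ E).filter _)]
    congr 1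
    ext x
    rw [mem_filter, mem_smul, mem_smul, mem_filter,
      ← smul_mem_orb (y := (insert y₀ E).erase _) hg, smul_erase, ap_inv]
  have hout : ∀ y ∉ A₀, ∃ x ∈ A₀, insert y (A₀.erase x) ∈ orb H (insert y₀ E) := by
    intro y hy
    obtain ⟨x, hx, hx'⟩ := h.erase hAM (C := insert y A₀) (by rw [card_insert_of_notMem hy, hA₀])
    have hxy : y ≠ x := by
      rintro rfl
      rw [erase_insert hy] at hx'
      exact hins E (self_mem_orb E) y₀ hy₀ (orb_symm hx')
    rw [erase_insert_of_ne hxy] at hx'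
    exact ⟨x, (mem_insert.1 hx).resolve_left hxy.symm, hx'⟩
  obtain ⟨y₁, -, hy₁⟩ := exists_mem_notMem_of_card_lt_card (s := A₀) (t := univ)
    (by rw [card_univ]; omega)
  obtain ⟨x₁, hx₁⟩ := card_pos.1 (show 0 < E.card by omega)
  refine ⟨Fintype.card α - (j + 2), _, _, E, _, E.erase x₁, x₁, by omega, hA₀, hE', hE,
    by rw [card_erase_of_mem hx₁]; omega, h0, erase_subset _ _, subset_insert _ _,
    insert_erase hx₁, notMem_erase _ _, hEE, fun A hA hA' =>
      ((h21 _ E A hE' hE hA).resolve_left hEE).resolve_right hA', hpure, hAA, fun B hB y hy =>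
      hAA _ (by rw [card_insert_of_notMem hy, card_of_mem_orb hB, hE]) (hins B hB y hy), hMo,
    fun C hC => ?_, hout, ?_, card_pos.2 ⟨y₀, mem_filter.2 ⟨mem_insert_self _ _, by
      rw [erase_insert hy₀]; exact self_mem_orb E⟩⟩⟩
  · obtain ⟨x, -, hx⟩ := h.erase hAM hC
    exact ⟨_, hx, erase_subset _ _⟩
  · obtain ⟨x, hx, hx'⟩ := hout y₁ hy₁
    have hyx : y₁ ∉ A₀.erase x := fun h => hy₁ (mem_of_mem_erase h)
    rw [← hMo _ hx']
    have : (insert y₁ (A₀.erase x)).filter (fun z => (insert y₁ (A₀.erase x)).erase z ∈ orb H E)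
        ⊆ A₀.erase x := by
      intro z hz
      obtain ⟨hz1, hz2⟩ := mem_filter.1 hz
      refine (mem_insert.1 hz1).resolve_left ?_
      rintro rfl
      rw [erase_insert hyx] at hz2
      exact hpure _ (self_mem_orb _) x hx hz2
    have := card_le_card this
    rw [card_erase_of_mem hx] at this
    omega

namespace Cfg

variable {j N M : ℕ} {A₀ E' E AM T : Finset α} {x₁ : α} (c : Cfg H j N M A₀ E' E AM T x₁)
include c

lemma hlo (S : Finset α) (hS : S.card = j) : (lam H E S).card = (lam H E T).card := by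
  obtain ⟨g, hg, rfl⟩ := c.h0 T (subset_univ _) S (subset_univ _) c.hT hS
  rw [lam_smul hg, card_smul]

lemma hcompl (S : Finset α) : (univ \ S).card + S.card = N + (j + 2) := by
  rw [card_sdiff_add_card_eq_card (subset_univ _), card_univ, c.hN]

lemma eq1 : (j + 1) * (lam H E T).card + (N + 1) = (N + 1) * M + (j + 1) := by
  have hE := c.hE
  have e1 : ∑ x ∈ E, ((univ \ E).filter (fun y => insert y (E.erase x) ∈ orb H E)).card
      = ∑ y ∈ univ \ E, (E.filter (fun x => insert y (E.erase x) ∈ orb H E)).card := by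
    simp only [card_filter]
    exact sum_comm
  have e2 : ∀ x ∈ E, ((univ \ E).filter (fun y => insert y (E.erase x) ∈ orb H E)).card + 1
      = (lam H E T).card := by
    intro x hx
    rw [← c.hlo (E.erase x) (by rw [card_erase_of_mem hx]; omega),
      ← card_insert_of_notMem (a := x) (by simp [hx])]
    congr 1
    ext y
    simp only [mem_insert, mem_filter, mem_sdiff, mem_univ, true_and, mem_lam, mem_erase]
    by_cases hyx : y = x
    · simp [hyx, insert_erase hx, self_mem_orb]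
    · simp [hyx]
  have e3 : ∀ y ∈ univ \ E, (E.filter (fun x => insert y (E.erase x) ∈ orb H E)).card + 1 = M := by
    intro y hy
    have hy' := (mem_sdiff.1 hy).2
    rw [← c.hMo _ (c.hinsM E (self_mem_orb E) y hy'),
      ← card_insert_of_notMem (a := y) (by simp [hy'])]
    congr 1
    ext x
    simp only [mem_insert, mem_filter]
    by_cases hxy : x = y
    · simp [hxy, erase_insert hy', self_mem_orb]
    · simp [hxy, erase_insert_of_ne (Ne.symm hxy)]
  have e4 := sum_congr rfl e2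
  have e5 := sum_congr rfl e3
  have e6 := c.hcompl E
  simp only [sum_add_distrib, sum_const, smul_eq_mul, mul_one, hE] at e4 e5
  rw [show (univ \ E).card = N + 1 by omega] at e5
  omega

lemma mem' (y : α) (hy : y ∈ lam H E' T) : y ∉ lam H E T := fun h =>
  c.hEE (orb_trans (mem_lam.1 hy).2 (orb_symm (mem_lam.1 h).2))

lemma eq2 : (lam H E T).card + (lam H E' T).card = N + 2 := by
  have h1 : lam H E T ∪ lam H E' T = univ \ T := by
    ext y
    simp only [mem_union, mem_lam, mem_sdiff, mem_univ, true_and]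
    refine ⟨fun h => h.elim (·.1) (·.1), fun h => ?_⟩
    have := c.hOO (insert y T) (by rw [card_insert_of_notMem h, c.hT])
    tauto
  have h2 := c.hcompl T
  rw [← h1, card_union_of_disjoint (disjoint_right.2 c.mem'), c.hT] at h2
  omega

lemma hσ1 : (orb (fx H T) x₁).card * Nat.card (fx H E) = Nat.card (fx H T) := by
  rw [← orb_fx_mul T x₁, c.hTE]

lemma hσo (y : α) (hy : y ∈ lam H E T) : (orb (fx H T) y).card = (orb (fx H T) x₁).card :=
  Nat.eq_of_mul_eq_mul_right Nat.card_pos (by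
    rw [c.hσ1, ← orb_fx_mul T y, card_fx_of_mem_orb (mem_lam.1 hy).2])

lemma hcE {q β : ℕ} (hq : q.Prime) (hβ : val H q AM + β ≤ val H q E) : q ^ β ∣ N + 1 := by
  have := pp_dvd hq (inv_compl E) (β := β) fun y hy => by
    rwa [val_orb q (c.hinsM E (self_mem_orb E) y (mem_sdiff.1 hy).2)]
  have e := c.hcompl E
  have := c.hE
  rwa [← show (univ \ E).card = N + 1 by omega]

lemma hσb : (orb (fx H T) x₁).card ≤ 2 * (j + 2) ^ 3 := by
  have hM := c.hM
  have hM1 := c.hM1
  have hD : (j + 1) * (j + 2 - M) * (j + M) ≠ 0 :=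
    mul_ne_zero (mul_ne_zero (by omega) (by omega)) (by omega)
  have hσD : (orb (fx H T) x₁).card ∣ (j + 1) * (j + 2 - M) * (j + M) := by
    rw [← Nat.factorization_prime_le_iff_dvd (card_pos.2 ⟨x₁, self_mem_orb x₁⟩).ne' hD]
    intro q hq
    rw [← hq.pow_dvd_iff_le_factorization hD]
    have f1 := val_ins (H := H) q T x₁
    rw [c.hTE] at f1
    have f2 : val H q E' ≤ val H q T := by
      obtain ⟨S, hS, hS'⟩ := exists_subset_card_eq (s := E') (n := j) (by rw [c.hE']; omega)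
      rw [← val_orb q (mem_orb.2 (c.h0 T (subset_univ _) S (subset_univ _) c.hT hS'))]
      exact val_anti q hS
    refine arith_dvd (a' := val H q T - val H q E') (eE := val H q E) (eE' := val H q E')
      (eM := val H q AM) (e0 := val H q A₀) hq hM c.eq1 c.eq2 (by omega)
      (pp_dvd hq (inv_lam E T) fun y hy => by rw [val_orb q (mem_lam.1 hy).2]; omega)
      (pp_dvd hq (inv_lam E' T) fun y hy => by rw [val_orb q (mem_lam.1 hy).2]; omega)
      (val_anti q c.sE) (val_anti q c.sE') (fun β hβ => c.hcE hq hβ) ?_ ?_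
    · intro β hβ hβ'
      have := pp_dvd hq (inv_compl E') (β := β) fun y hy => by
        by_cases h' : insert y E' ∈ orb H A₀
        · rwa [val_orb q h']
        · rwa [val_orb q (c.hAA _ (by rw [card_insert_of_notMem (mem_sdiff.1 hy).2, c.hE']) h')]
      have e := c.hcompl E'
      have := c.hE'
      rwa [← show (univ \ E').card = N + 1 by omega]
    · intro β hβ
      have := pp_dvd hq (inv_compl (H := H) A₀) (β := β) fun y hy => by
        obtain ⟨B, hB, hB'⟩ := c.hsub (insert y A₀)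
          (by rw [card_insert_of_notMem (mem_sdiff.1 hy).2, c.hA₀])
        have := val_anti (H := H) q hB'
        rw [val_orb q hB] at this
        omega
      have e := c.hcompl A₀
      have := c.hA₀
      rwa [← show (univ \ A₀).card = N by omega]
  refine (Nat.le_of_dvd (Nat.pos_of_ne_zero hD) hσD).trans ?_
  calc _ ≤ (j + 2) * (j + 2) * (2 * (j + 2)) := by gcongr <;> omega
    _ = _ := by ring

lemma hNl : N ≤ (j + 2) ^ 2 * (lam H E T).card := by
  have hA₀ := c.hA₀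
  have f1 : univ \ A₀ ⊆ A₀.biUnion (fun x => (A₀.erase x).biUnion
      (fun x' => lam H E ((A₀.erase x).erase x'))) := by
    intro y hy
    have hy' := (mem_sdiff.1 hy).2
    obtain ⟨x, hx, hx'⟩ := c.hout y hy'
    have hyx : y ∉ A₀.erase x := fun h => hy' (mem_of_mem_erase h)
    obtain ⟨z, hz⟩ := card_pos.1 (lt_of_lt_of_le c.hM1 (c.hMo _ hx').ge)
    obtain ⟨hz1, hz2⟩ := mem_filter.1 hz
    have hzy : y ≠ z := by
      rintro rfl
      rw [erase_insert hyx] at hz2
      exact c.hpure _ (self_mem_orb _) x hx hz2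
    rw [erase_insert_of_ne hzy] at hz2
    exact mem_biUnion.2 ⟨x, hx, mem_biUnion.2 ⟨z, (mem_insert.1 hz1).resolve_left hzy.symm,
      mem_lam.2 ⟨fun h => hyx (mem_of_mem_erase h), hz2⟩⟩⟩
  have f2 := (card_le_card f1).trans (card_biUnion_le_card_mul _ _
    ((j + 2) * (lam H E T).card) fun x hx =>
    (card_biUnion_le_card_mul _ _ (lam H E T).card fun x' hx' => (c.hlo _ (by
      rw [card_erase_of_mem hx', card_erase_of_mem hx]; omega)).le).trans
      (Nat.mul_le_mul_right _ (by rw [card_erase_of_mem hx]; omega)))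
  have e := c.hcompl A₀
  rw [show (univ \ A₀).card = N by omega, hA₀] at f2
  rw [sq, mul_assoc]
  exact f2

lemma final : Fintype.card α ≤ 5 * (j + 2) ^ 8 ∨
    ∀ g ∈ H, ∀ X : Finset α, X.card = j + 2 + 1 → (∀ x ∈ X, g x = x) → g = 1 := by
  have hσb := c.hσb
  have hNl := c.hNl
  have hN := c.hN
  have hM := c.hM
  have hTE : T ⊆ E := c.hTE ▸ subset_insert _ _
  have p1 : j + 2 ≤ (j + 2) ^ 8 := Nat.le_self_pow (by norm_num) _
  have p2 : (j + 2) ^ 6 ≤ (j + 2) ^ 8 := Nat.pow_le_pow_right (by omega) (by norm_num)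
  have p3 : (j + 2) ^ 2 ≤ (j + 2) ^ 8 := Nat.pow_le_pow_right (by omega) (by norm_num)
  by_cases hl1 : (lam H E T).card ≤ 1
  · left
    have := Nat.mul_le_mul_left ((j + 2) ^ 2) hl1
    omega
  obtain ⟨y₂, hy₂, hy₂'⟩ := exists_mem_notMem_of_card_lt_card (s := {x₁}) (t := lam H E T)
    (by rw [card_singleton]; omega)
  have hy₂E : y₂ ∉ E := by
    rw [← c.hTE, mem_insert, not_or]
    exact ⟨by simpa using hy₂', (mem_lam.1 hy₂).1⟩
  have hσ₂1 : ∀ y ∉ E, (orb (fx H E) y).card * Nat.card (fx H AM) = Nat.card (fx H E) :=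
    fun y hy => by rw [← orb_fx_mul E y, card_fx_of_mem_orb (c.hinsM E (self_mem_orb E) y hy)]
  have hσ₂2 : (orb (fx H E) y₂).card ≤ (orb (fx H T) x₁).card := by
    rw [← c.hσo y₂ hy₂]
    refine card_le_card fun z hz => ?_
    obtain ⟨g, hg, hg'⟩ := mem_orb.1 hz
    exact mem_orb.2 ⟨g, fx_anti hTE hg, hg'⟩
  by_cases hσ₂3 : (orb (fx H E) y₂).card = 1
  · right
    intro g hg X hX hX'
    obtain ⟨B, hB, hB'⟩ := c.hsub X hX
    have f1 : Nat.card (fx H AM) = Nat.card (fx H E) := by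
      rw [← hσ₂1 y₂ hy₂E, hσ₂3, one_mul]
    have f2 : fx H E = ⊥ := by
      rw [eq_bot_iff]
      intro k hk
      rw [Subgroup.mem_bot]
      ext y
      by_cases hy : y ∈ E
      · exact hk.2 y hy
      · refine mem_fixs.1 (card_orb_eq_one (Q := fx H E) ?_) k hk
        exact Nat.eq_of_mul_eq_mul_right Nat.card_pos (by rw [hσ₂1 y hy, f1, one_mul])
    have f3 : Nat.card (fx H B) = 1 := by rw [card_fx_of_mem_orb hB, f1, f2, Subgroup.card_bot]
    have f4 : g ∈ fx H B := ⟨hg, fun x hx => hX' x (hB' hx)⟩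
    rwa [Subgroup.card_eq_one.1 f3, Subgroup.mem_bot] at f4
  left
  obtain ⟨q, hq, hq'⟩ := Nat.exists_prime_and_dvd hσ₂3
  have f1 : val H q AM + 1 ≤ val H q E := by
    have e1 := val_ins (H := H) q E y₂
    rw [val_orb q (c.hinsM E (self_mem_orb E) y₂ hy₂E)] at e1
    have := hq.factorization_pos_of_dvd (card_pos.2 ⟨y₂, self_mem_orb y₂⟩).ne' hq'
    omega
  have f2 : q ∣ N + 1 := by simpa using c.hcE hq f1
  obtain ⟨Q, hQ⟩ := exists_syl' hq (fx H T)
  have f3 : (fixs Q).card ≤ j + 2 := by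
    by_contra hc
    obtain ⟨X, hX, hX'⟩ := exists_subset_card_eq (s := fixs Q) (n := j + 2 + 1) (by omega)
    obtain ⟨B, hB, hB'⟩ := c.hsub X hX'
    have e1 : Q ≤ fx H B := fun k hk =>
      ⟨(hQ.1 hk).1, fun x hx => mem_fixs.1 (hX (hB' hx)) k hk⟩
    have e2 := Subgroup.card_dvd_of_le e1
    rw [hQ.2, hq.pow_dvd_iff_le_factorization Nat.card_pos.ne'] at e2
    have e3 := val_orb q hB
    have e4 := val_anti (H := H) q hTE
    simp only [val] at e3 e4 f1
    omega
  by_cases hqσ : q ∣ (orb (fx H T) x₁).card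
  swap
  · have e1 := (cover_fix hq hQ.1 hQ.2 c.hσo hqσ).trans (Nat.mul_le_mul f3 hσb)
    have e2 := hNl.trans (Nat.mul_le_mul_left _ e1)
    have e3 : (j + 2) ^ 2 * ((j + 2) * (2 * (j + 2) ^ 3)) = 2 * (j + 2) ^ 6 := by ring
    omega
  have eq4 : N + 1 ≤ (j + 1) * (lam H E' T).card := by
    have eq1 := c.eq1
    have eq2 := c.eq2
    have := Nat.mul_le_mul_left (N + 1) hM
    nlinarith
  obtain ⟨y₃, hy₃⟩ : (lam H E' T).Nonempty := by
    rw [← card_pos]
    rcases Nat.eq_zero_or_pos (lam H E' T).card with h' | h'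
    · rw [h'] at eq4; omega
    · exact h'
  have hσ'1 : ∀ y ∈ lam H E' T, (orb (fx H T) y).card * Nat.card (fx H E') = Nat.card (fx H T) :=
    fun y hy => by rw [← orb_fx_mul T y, card_fx_of_mem_orb (mem_lam.1 hy).2]
  have hσ'o : ∀ y ∈ lam H E' T, (orb (fx H T) y).card = (orb (fx H T) y₃).card := fun y hy =>
    Nat.eq_of_mul_eq_mul_right Nat.card_pos (by rw [hσ'1 y hy, hσ'1 y₃ hy₃])
  have hqσ' : ¬ q ∣ (orb (fx H T) y₃).card := by
    intro h'
    have e1 := dvd_card_of_orb (inv_lam E T) (D := q) fun y hy => by rwa [c.hσo y hy]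
    have e2 := dvd_card_of_orb (inv_lam E' T) (D := q) fun y hy => by rwa [hσ'o y hy]
    have e3 : q ∣ N + 1 + 1 := c.eq2 ▸ dvd_add e1 e2
    exact hq.one_lt.ne' (Nat.dvd_one.1 ((Nat.dvd_add_right f2).1 e3))
  have hσ'b : (orb (fx H T) y₃).card ≤ (orb (fx H T) x₁).card * (orb (fx H E) y₂).card := by
    have hy₃E : y₃ ∉ E := by
      rw [← c.hTE, mem_insert, not_or]
      refine ⟨?_, (mem_lam.1 hy₃).1⟩
      rintro rfl
      exact c.hEE (c.hTE ▸ (mem_lam.1 hy₃).2)
    have e1 : Nat.card (fx H AM) ≤ Nat.card (fx H E') := by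
      rw [← card_fx_of_mem_orb (c.hinsM E (self_mem_orb E) y₃ hy₃E),
        ← card_fx_of_mem_orb (mem_lam.1 hy₃).2]
      exact Subgroup.card_le_of_le (fx_anti (insert_subset_insert _ hTE))
    refine Nat.le_of_mul_le_mul_right ?_ (Nat.card_pos (α := fx H AM))
    rw [mul_assoc, hσ₂1 y₂ hy₂E, c.hσ1, ← hσ'1 y₃ hy₃]
    exact Nat.mul_le_mul_left _ e1
  have e1 := (cover_fix hq hQ.1 hQ.2 hσ'o hqσ').trans
    (Nat.mul_le_mul f3 (hσ'b.trans (Nat.mul_le_mul hσb (hσ₂2.trans hσb))))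
  have e2 := eq4.trans (Nat.mul_le_mul (show j + 1 ≤ j + 2 by omega) e1)
  have e3 : (j + 2) * ((j + 2) * (2 * (j + 2) ^ 3 * (2 * (j + 2) ^ 3))) = 4 * (j + 2) ^ 8 := by
    ring
  omega

end Cfg

theorem end_top {j : ℕ} (h : HH H (j + 2)) (h0 : Hom H univ j)
    (h1 : ¬ Hom H univ (j + 1)) (h2 : Two H (j + 2)) (hn : 2 * (j + 2) + 2 ≤ Fintype.card α)
    {A₀ : Finset α} (hA₀ : A₀.card = j + 2)
    (hp : ∀ x ∈ A₀, ∀ x' ∈ A₀, A₀.erase x' ∈ orb H (A₀.erase x)) :
    Fintype.card α ≤ 5 * (j + 2) ^ 8 ∨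
      ∀ g ∈ H, ∀ X : Finset α, X.card = j + 2 + 1 → (∀ x ∈ X, g x = x) → g = 1 := by
  obtain ⟨N, M, E', E, AM, T, x₁, c⟩ := exists_cfg h h0 h1 h2 hn hA₀ hp
  exact c.final

end Pool.Agent.H5Hom
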