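import Pool.Agent.Lib.MP_078193_al.H5Inv

/-! Fixed point ratios. -/

open Finset Equiv
open scoped Pointwise

set_option linter.unusedSectionVars false

namespace Pool.Agent.H5Hom

variable {α : Type} [Fintype α] [DecidableEq α] {H : Subgroup (Perm α)}

lemma supp_nonempty {x : Perm α} (hx : x ≠ 1) : (supp univ x).Nonempty := by
  by_contra h
  apply hx
  ext z
  by_contra hz
  exact h ⟨z, mem_supp.2 ⟨mem_univ _, hz⟩⟩

lemma numeric_fix {n d m l : ℕ} (hm : 1 ≤ m) (hl : l ≤ 8 * m + 4) (hn : 500 * m ^ 2 ≤ n)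
    (hd : d ≤ n) (h : (n - 10 * l) * (n - (2 * l + 2 * m)) ^ (2 * m) ≤ 10 * (n ^ (m + 1) * d ^ m)) :
    (n - d) * m ≤ 19 * n := by
  have h1 : 40 * l ≤ n := by nlinarith
  have h2 : 8 * m * (2 * l + 2 * m) ≤ n := by nlinarith
  have h3 : 2 * l + 2 * m ≤ n := by nlinarith
  have hn0 : (0 : ℝ) < n := by exact_mod_cast (by nlinarith : 0 < n)
  have h' : ((n : ℝ) - 10 * l) * (n - (2 * l + 2 * m)) ^ (2 * m) ≤ 10 * (n ^ (m + 1) * d ^ m) := by
    have := (Nat.cast_le (α := ℝ)).2 h
    push_cast [Nat.cast_sub (show 10 * l ≤ n by omega), Nat.cast_sub h3] at this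
    exact this
  have h1' : 40 * (l : ℝ) ≤ n := by exact_mod_cast h1
  have h2' : 8 * (m : ℝ) * (2 * l + 2 * m) ≤ n := by exact_mod_cast h2
  have h3' : 2 * (l : ℝ) + 2 * m ≤ n := by exact_mod_cast h3
  have hd' : (d : ℝ) ≤ n := by exact_mod_cast hd
  set a : ℝ := (2 * l + 2 * m) / n with ha
  set x : ℝ := (n - d) / n with hx
  have ha1 : a ≤ 1 := (div_le_one hn0).2 h3'
  have hx0 : 0 ≤ x := div_nonneg (by linarith) hn0.le
  have hx1 : x ≤ 1 := (div_le_one hn0).2 (by linarith [Nat.cast_nonneg (α := ℝ) d])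
  have e1 : (n : ℝ) - (2 * l + 2 * m) = n * (1 - a) := by rw [ha]; field_simp
  have e2 : (d : ℝ) = n * (1 - x) := by rw [hx]; field_simp; ring
  have b1 := one_add_mul_le_pow (a := -a) (by linarith) (2 * m)
  have b2 := one_add_mul_le_pow (a := x) (by linarith) m
  have b3 : (2 * m : ℕ) * a ≤ 1 / 4 := by
    rw [ha, ← mul_div_assoc, div_le_iff₀ hn0]
    push_cast
    linarith
  have b4 : 3 / 4 ≤ (1 - a) ^ (2 * m) := by
    rw [show 1 - a = 1 + -a by ring]; linarith
  rw [e1, e2, mul_pow, mul_pow] at h'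
  have b5 : (n : ℝ) ^ (2 * m) * n * (9 / 16) ≤ n ^ (2 * m) * n * (10 * (1 - x) ^ m) := by
    calc _ = (3 / 4 * (n : ℝ)) * ((n : ℝ) ^ (2 * m) * (3 / 4)) := by ring
      _ ≤ ((n : ℝ) - 10 * l) * ((n : ℝ) ^ (2 * m) * (1 - a) ^ (2 * m)) := by
        gcongr
        · linarith
        · linarith
      _ ≤ _ := h'
      _ = _ := by ring
  have b6 := le_of_mul_le_mul_left b5 (by positivity)
  have b7 : (1 - x) ^ m * (1 + x) ^ m ≤ 1 := by
    rw [← mul_pow]
    exact pow_le_one₀ (by nlinarith) (by nlinarith)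
  have b8 : 0 ≤ (1 - x) ^ m := pow_nonneg (by linarith) _
  have b9 : (m : ℝ) * x ≤ 19 := by nlinarith
  rw [hx, ← mul_div_assoc, div_le_iff₀ hn0] at b9
  have : (((n - d) * m : ℕ) : ℝ) ≤ (19 * n : ℕ) := by
    push_cast [Nat.cast_sub hd]
    linarith
  exact_mod_cast this

theorem inv_fix {τ m : ℕ} (ht : Tr H univ τ) (hna : ¬ Alt3 H univ) (hm : 1 ≤ m)
    (hτ : 18 * m + 8 ≤ τ) (hn : 500 * m ^ 2 ≤ Fintype.card α) {y : Perm α} (hyH : y ∈ H)
    (hy : y * y = 1) (hy1 : y ≠ 1) :
    (Fintype.card α - (supp univ y).card) * m ≤ 19 * Fintype.card α := by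
  have hmd : ∀ h ∈ H, (supp univ h).Nonempty → Fintype.card α < 5 * (supp univ h).card :=
    fun h hh hne => by
      simpa using mindeg inv_univ (ht.mono (by omega)) (by rw [card_univ]; nlinarith) hna hh hne
  obtain ⟨l, hl, hl1, hl2⟩ := Nat.exists_prime_lt_and_le_two_mul (4 * m + 2) (by omega)
  have : NeZero l := ⟨hl.ne_zero⟩
  obtain ⟨Z, hZ, hZ'⟩ := exists_reps hy
  have h1 := hmd y hyH (supp_nonempty hy1)
  obtain ⟨w, hw, hw'⟩ := exists_family Z (β := ZMod l) (by rw [ZMod.card]; nlinarith)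
  set u : ZMod l × Bool → α := fun b => if b.2 then y (w b.1) else w b.1 with hu
  have hui : Function.Injective u := by
    rintro ⟨a, b⟩ ⟨a', b'⟩ hab
    cases b <;> cases b' <;> simp only [hu, Bool.false_eq_true, if_false, if_true] at hab
    · rw [hw hab]
    · exact absurd (hab ▸ hw' a) (hZ' _ (hw' a'))
    · exact absurd (hab ▸ hw' a') (hZ' _ (hw' a))
    · rw [hw (y.injective hab)]
  set σ : ZMod l × Bool → ZMod l × Bool := fun b => if b.2 then (b.1 + 1, false) else (b.1, true)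
    with hσ
  have hσi : Function.Injective σ := by
    rintro ⟨a, b⟩ ⟨a', b'⟩ hab
    cases b <;> cases b' <;> simp_all
  have hc : Fintype.card (ZMod l × Bool) = 2 * l := by simp [ZMod.card, mul_comm]
  obtain ⟨g₀, hg₀, hg₀'⟩ := ht.family (β := ZMod l × Bool) (by omega) hui (hui.comp hσi)
    (fun _ => mem_univ _) (fun _ => mem_univ _)
  set W := univ.image u with hW
  have hWc : W.card = 2 * l := by rw [hW, card_image_of_injective _ hui, card_univ, hc]
  have hyW : ∀ x ∈ W, y x ∈ W := by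
    intro x hx
    obtain ⟨⟨a, b⟩, -, rfl⟩ := mem_image.1 hx
    refine mem_image.2 ⟨(a, !b), mem_univ _, ?_⟩
    cases b <;> simp [hu, inv_inv_ap hy]
  have hφ : ∀ x ∈ W, g₀ x ∈ W := by
    intro x hx
    obtain ⟨b, -, rfl⟩ := mem_image.1 hx
    rw [hg₀']
    exact mem_image_of_mem _ (mem_univ _)
  have h2 := first_moment (m := m) ht hy (W := W) (by omega) hyW hφ
  set C := cos H W g₀ with hC
  have h3 : ∀ g ∈ C, Fintype.card α ≤ 10 * l + 10 * (good W m y (g⁻¹ * y * g * y)).card := by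
    intro g hg
    obtain ⟨hg, hg'⟩ := mem_cos.1 hg
    have hgu : ∀ b, g (u b) = u (σ b) := fun b => by
      rw [hg' _ (mem_image_of_mem _ (mem_univ _)), hg₀']; rfl
    have hgW : ∀ x ∈ W, g x ∈ W := fun x hx => by rw [hg' x hx]; exact hφ x hx
    set ρ := g⁻¹ * y * g * y with hρ
    have hρH : ρ ∈ H := H.mul_mem (H.mul_mem (H.mul_mem (H.inv_mem hg) hyH) hg) hyH
    have e1 : ∀ a, ρ (w a) = w (a + 1) := by
      intro a
      have e2 := hgu (a, true)
      have e3 := hgu (a + 1, false)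
      simp only [hu, hσ, if_true, Bool.false_eq_true, if_false] at e2 e3
      simp only [hρ, Perm.mul_apply]
      rw [e2, ← e3, inv_ap]
    have e2 : ∀ j : ℕ, (ρ ^ j) (w 0) = w j := by
      intro j
      induction j with
      | zero => simp
      | succ j ih => rw [pow_succ', Perm.mul_apply, ih, e1]; simp
    have e3 := hmd _ (H.pow_mem hρH (4 * m + 2).factorial) ⟨w 0, mem_supp.2 ⟨mem_univ _, by
      rw [e2]
      intro h
      have := hl.dvd_factorial.1 ((ZMod.natCast_eq_zero_iff _ _).1 (hw h))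
      omega⟩⟩
    have e4 := supp_le_good (W := W) (m := m) (rot_rel hy g) (by
      intro x hx
      simp only [Perm.mul_apply]
      rw [← mem_iff_of_maps hgW, ap_inv]
      exact hyW _ (hgW _ (hyW _ hx)))
    rw [← hρ] at e4
    omega
  have h4 : C.card * (Fintype.card α - 10 * l)
      ≤ 10 * ∑ g ∈ C, (good W m y (g⁻¹ * y * g * y)).card := by
    rw [mul_sum, ← smul_eq_mul, ← sum_const]
    exact sum_le_sum fun g hg => by have := h3 g hg; omega
  have h5 := ht.card_fx inv_univ W (subset_univ _) (by omega)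
  rw [← card_cos (φ := g₀) ⟨g₀, mem_cos.2 ⟨hg₀, fun _ _ => rfl⟩⟩, ← hC, card_univ] at h5
  rw [← h5, hWc, ← Nat.descFactorial_mul_descFactorial (k := 2 * l) (by omega),
    Nat.add_sub_cancel_left] at h2
  have h6 := Nat.pow_sub_le_descFactorial (Fintype.card α - 2 * l) (2 * m)
  have h7 : 0 < (Fintype.card α).descFactorial (2 * l) * C.card := by
    rw [← hWc, h5]; exact Nat.card_pos
  refine numeric_fix hm (l := l) (by omega) hn (card_le_univ _) ?_
  refine Nat.le_of_mul_le_mul_left ?_ h7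
  have h8 : (Fintype.card α - (2 * l + 2 * m)) ^ (2 * m)
      ≤ (Fintype.card α - 2 * l).descFactorial (2 * m) :=
    le_trans (Nat.pow_le_pow_left (by omega) _) h6
  calc _ = (Fintype.card α).descFactorial (2 * l) * (Fintype.card α - (2 * l + 2 * m)) ^ (2 * m)
        * (C.card * (Fintype.card α - 10 * l)) := by ring
    _ ≤ (Fintype.card α).descFactorial (2 * l) * (Fintype.card α - 2 * l).descFactorial (2 * m)
        * (10 * ∑ g ∈ C, (good W m y (g⁻¹ * y * g * y)).card) := by gcongr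
    _ = 10 * ((Fintype.card α - 2 * l).descFactorial (2 * m) * (Fintype.card α).descFactorial (2 * l)
        * ∑ g ∈ C, (good W m y (g⁻¹ * y * g * y)).card) := by ring
    _ ≤ 10 * _ := Nat.mul_le_mul_left _ h2
    _ = _ := by ring

lemma exists_inv {u : Perm α} {a : α} (h1 : u a ≠ a) (h2 : u (u a) = a) :
    ∃ j, u ^ j * u ^ j = 1 ∧ u ^ j ≠ 1 := by
  have e1 : per u a ∣ 2 := per_dvd.1 (by rw [sq]; exact h2)
  have e2 : per u a ∣ orderOf u := per_dvd.1 (by rw [pow_orderOf_eq_one]; rfl)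
  have e3 : per u a = 2 := by
    rcases (Nat.dvd_prime Nat.prime_two).1 e1 with h | h
    · exact absurd (by simpa using per_dvd.2 (h ▸ dvd_rfl : per u a ∣ 1)) h1
    · exact h
  obtain ⟨j, hj⟩ := e3 ▸ e2
  have e4 := orderOf_pos u
  refine ⟨j, by rw [← pow_add, ← two_mul, ← hj, pow_orderOf_eq_one], fun h => ?_⟩
  have := Nat.le_of_dvd (by omega) (orderOf_dvd_of_pow_eq_one h)
  omega

theorem gen_fix {τ m : ℕ} (ht : Tr H univ τ) (hna : ¬ Alt3 H univ) (hm : 1 ≤ m)
    (hτ : 18 * m + 8 ≤ τ) (hn : 500 * m ^ 2 ≤ Fintype.card α) {x : Perm α} (hxH : x ∈ H)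
    (hx1 : x ≠ 1) :
    (Fintype.card α - (supp univ x).card) ^ 2 * m ≤ 19 * Fintype.card α ^ 2 := by
  have hn' : 500 ≤ Fintype.card α := by nlinarith
  have h1 := mindeg inv_univ (ht.mono (by omega)) (by rw [card_univ]; omega) hna hxH
    (supp_nonempty hx1)
  rw [card_univ] at h1
  obtain ⟨a, ha⟩ := supp_nonempty hx1
  obtain ⟨c, hc, hc'⟩ := exists_mem_notMem_of_card_lt_card (s := {a, x a, x⁻¹ a})
    (t := supp univ x) (lt_of_le_of_lt card_le_three (by omega))
  simp only [mem_insert, mem_singleton, not_or] at hc'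
  have ha' := (mem_supp.1 ha).2
  have hc'' := (mem_supp.1 hc).2
  have e1 : x c ≠ a := fun h => hc'.2.2 (by rw [← h, inv_ap])
  have e2 : x c ≠ x a := fun h => hc'.1 (x.injective h)
  set S : Finset α := {a, c, x a, x c} with hS
  have hSs : S ⊆ supp univ x := by
    intro z hz
    simp only [hS, mem_insert, mem_singleton] at hz
    rcases hz with rfl | rfl | rfl | rfl
    · exact ha
    · exact hc
    · exact apply_mem_supp inv_univ hxH ha
    · exact apply_mem_supp inv_univ hxH hc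
  have hS4 : S.card ≤ 4 := card_le_four
  set φ := swap (x a) (x c) with hφ
  have hφS : ∀ s ∈ S, φ s ∈ S := by
    intro z hz
    simp only [hS, mem_insert, mem_singleton, hφ, swap_apply_def] at hz ⊢
    split_ifs <;> tauto
  set C := cos H S φ with hC
  set Φ := univ \ supp univ x with hΦ
  have hΦc : Φ.card = Fintype.card α - (supp univ x).card := by
    rw [hΦ, card_sdiff_of_subset (subset_univ _), card_univ]
  have h2 : ∀ g ∈ C, (Φ.filter (fun z => g z ∈ Φ)).card * m ≤ 19 * Fintype.card α := by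
    intro g hg
    obtain ⟨hg, hg'⟩ := mem_cos.1 hg
    have f1 : g a = a := by
      rw [hg' a (by simp [hS]), hφ, swap_apply_of_ne_of_ne ha'.symm e1.symm]
    have f2 : g c = c := by
      rw [hg' c (by simp [hS]), hφ, swap_apply_of_ne_of_ne hc'.2.1 hc''.symm]
    have f3 : g (x a) = x c := by rw [hg' _ (by simp [hS]), hφ, swap_apply_left]
    have f4 : g (x c) = x a := by rw [hg' _ (by simp [hS]), hφ, swap_apply_right]
    set u := g⁻¹ * x⁻¹ * g * x with hu
    have huH : u ∈ H := H.mul_mem (H.mul_mem (H.mul_mem (H.inv_mem hg) (H.inv_mem hxH)) hg) hxH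
    have f5 : u a = c := by
      simp only [hu, Perm.mul_apply, f3, inv_ap]
      rw [Perm.inv_eq_iff_eq, f2]
    have f6 : u c = a := by
      simp only [hu, Perm.mul_apply, f4, inv_ap]
      rw [Perm.inv_eq_iff_eq, f1]
    obtain ⟨j, hj, hj'⟩ := exists_inv (u := u) (a := a) (by rw [f5]; exact hc'.1) (by rw [f5, f6])
    refine le_trans (Nat.mul_le_mul_right _ ?_) (inv_fix ht hna hm hτ hn (H.pow_mem huH j) hj hj')
    rw [← card_univ, ← card_sdiff_of_subset (subset_univ _)]
    refine card_le_card fun z hz => ?_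
    simp only [hΦ, mem_filter, mem_sdiff, mem_univ, mem_supp, true_and, not_not] at hz ⊢
    refine Perm.pow_apply_eq_self_of_apply_eq_self ?_ j
    simp only [hu, Perm.mul_apply, hz.1]
    rw [Perm.inv_eq_iff_eq, Perm.inv_eq_iff_eq, hz.2]
  have h3 : ∀ z ∈ Φ, (Fintype.card α - S.card) * (C.filter (fun g => g z ∈ Φ)).card
      = Φ.card * C.card := by
    intro z hz
    simpa using ht.avg inv_univ (subset_univ S) (by omega) (φ := φ) (φ.injective.injOn)
      (fun _ _ => mem_univ _) (mem_univ z) (fun h => (mem_sdiff.1 hz).2 (hSs h))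
      (subset_univ Φ) (fun s hs h => (mem_sdiff.1 h).2 (hSs (hφS s hs)))
  have h4 : ∑ g ∈ C, (Φ.filter (fun z => g z ∈ Φ)).card
      = ∑ z ∈ Φ, (C.filter (fun g => g z ∈ Φ)).card := by
    simp only [card_filter]
    exact sum_comm
  have h5 : (∑ g ∈ C, (Φ.filter (fun z => g z ∈ Φ)).card) * m ≤ C.card * (19 * Fintype.card α) := by
    rw [sum_mul, ← smul_eq_mul, ← sum_const]
    exact sum_le_sum h2
  have h6 : 0 < C.card := card_pos.2 (ht.cos_nonempty (subset_univ S) (by omega)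
    φ.injective.injOn (fun _ _ => mem_univ _))
  have h7 := Nat.mul_le_mul (Nat.sub_le (Fintype.card α) S.card) h5
  rw [h4, ← mul_assoc, mul_sum, sum_congr rfl h3, sum_const, smul_eq_mul, hΦc] at h7
  refine Nat.le_of_mul_le_mul_left ?_ h6
  calc _ = _ := by ring
    _ ≤ _ := h7
    _ = _ := by ring

end Pool.Agent.H5Hom
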