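import Pool.Agent.Lib.MP_078193_al.H5Cyc

/-! Highly transitive groups in which nontrivial elements fix few points. -/

open Finset Equiv
open scoped Pointwise

set_option linter.unusedSectionVars false

namespace Pool.Agent.H5Hom

variable {α : Type} [Fintype α] [DecidableEq α] {H : Subgroup (Perm α)}

lemma fam_inj {y : Perm α} (hy : y * y = 1) {U Z : Finset α} (hU : ∀ x ∈ U, y x = x)
    (hZ : ∀ z ∈ Z, y z ∉ Z) {h : ℕ} {e : Fin h → α} (he : Function.Injective e)
    (he' : ∀ k, e k ∈ Z) : Function.Injective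
      (Sum.elim (fun x : U => (x : α)) (Sum.elim e (fun k => y (e k)))) := by
  have h1 : ∀ (x : U) k, (x : α) ≠ e k := fun x k h =>
    hZ _ (he' k) (by rw [← h, hU x x.2, h]; exact he' k)
  have h2 : ∀ (x : U) k, (x : α) ≠ y (e k) := fun x k h =>
    h1 x k (by rw [← hU x x.2, h, inv_inv_ap hy])
  have h3 : ∀ k k', e k ≠ y (e k') := fun k k' h => hZ _ (he' k') (h ▸ he' k)
  rintro (a | a | a) (b | b | b) hab <;> simp only [Sum.elim_inl, Sum.elim_inr] at hab
  · rw [Subtype.ext hab]
  · exact absurd hab (h1 _ _)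
  · exact absurd hab (h2 _ _)
  · exact absurd hab.symm (h1 _ _)
  · rw [he hab]
  · exact absurd hab (h3 _ _)
  · exact absurd hab.symm (h2 _ _)
  · exact absurd hab.symm (h3 _ _)
  · rw [he (y.injective hab)]

theorem fixity {s t a : ℕ} (ht : Tr H univ s) (hs : s + a = t + 3) (ha : 3 ≤ a) (h4 : 4 * a ≤ s)
    (hn : 4 * t ≤ Fintype.card α)
    (hfix : ∀ g ∈ H, ∀ X : Finset α, X.card = t + 1 → (∀ x ∈ X, g x = x) → g = 1) :
    (Fintype.card α - 3 * t) ^ 2 ≤ 4 * t ^ 5 * Fintype.card α := by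
  classical
  have hs' : ∑ i : Option (Fin (s - 2)), Option.elim i 2 (fun _ => 1) = s := by
    simp [Fintype.sum_option]; omega
  obtain ⟨g, hg, v, hv, -, hv'⟩ := ht.cyc (ι := Option (Fin (s - 2)))
    (fun i => Option.elim i 2 (fun _ => 1)) (by rintro (_ | i) <;> simp) (by omega)
    (by rw [card_univ]; omega)
  obtain ⟨j, hy, hy1⟩ := exists_inv (u := g) (a := v none) (fun h => by
      have := per_dvd.1 (show (g ^ 1) (v none) = v none by simpa using h)
      simp [hv'] at this) (by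
      have := per_dvd.2 (show per g (v none) ∣ 2 by simp [hv'])
      rwa [sq] at this)
  set y := g ^ j with hyd
  have hyH : y ∈ H := H.pow_mem hg j
  set Φ := univ \ supp univ y with hΦ
  have hΦm : ∀ x, x ∈ Φ ↔ y x = x := by simp [hΦ, mem_supp]
  have hΦ1 : s - 2 ≤ Φ.card := by
    have : univ.image (fun i => v (some i)) ⊆ Φ := by
      intro x hx
      obtain ⟨i, -, rfl⟩ := mem_image.1 hx
      refine (hΦm _).2 (Perm.pow_apply_eq_self_of_apply_eq_self ?_ j)
      simpa using per_dvd.2 (show per g (v (some i)) ∣ 1 by simp [hv'])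
    have := card_le_card this
    rwa [card_image_of_injective _ (fun i j h => Option.some_injective _ (hv h)), card_univ,
      Fintype.card_fin] at this
  have hΦ2 : Φ.card ≤ t := by
    by_contra hc
    obtain ⟨X, hX, hX'⟩ := exists_subset_card_eq (s := Φ) (n := t + 1) (by omega)
    exact hy1 (hfix y hyH X hX' fun x hx => (hΦm x).1 (hX hx))
  have hΦ3 : Φ.card + (supp univ y).card = Fintype.card α := by
    rw [hΦ, card_sdiff_add_card_eq_card (subset_univ _), card_univ]
  obtain ⟨U, hU, hUc⟩ := exists_subset_card_eq (s := Φ) (n := s - 4 * a) (by omega)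
  obtain ⟨Z, hZ, hZ'⟩ := exists_reps hy
  obtain ⟨w, hw, hw'⟩ := exists_family Z (β := Fin (2 * a)) (by rw [Fintype.card_fin]; omega)
  have hU' : ∀ x ∈ U, y x = x := fun x hx => (hΦm x).1 (hU hx)
  set u := Sum.elim (fun x : U => (x : α)) (Sum.elim w (fun k => y (w k))) with hu
  set S := univ.image u with hS
  set A := univ.filter (fun k : Perm α => k ∈ fx H U ∧ ∀ i, k (w i) ∈ Z ∧ k (y (w i)) = y (k (w i)))
    with hA
  have h1 := mul_card_image_le_card_of_maps_to (s := A) (f := fun k i => k (w i))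
    (t := univ.image (fun e : Fin (2 * a) ↪ Z => fun i => (e i : α))) (by
      intro k hk
      obtain ⟨-, hk'⟩ := (mem_filter.1 hk).2
      exact mem_image.2 ⟨⟨fun i => ⟨k (w i), (hk' i).1⟩,
        fun i j h => hw (k.injective (congrArg Subtype.val h))⟩, mem_univ _, rfl⟩)
    (Nat.card (fx H S)) (by
      intro b hb
      obtain ⟨e, -, rfl⟩ := mem_image.1 hb
      obtain ⟨k₀, hk₀, hk₀'⟩ := ht.family (β := U ⊕ Fin (2 * a) ⊕ Fin (2 * a))
        (by simp [hUc]; omega) (fam_inj hy hU' hZ' hw hw')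
        (fam_inj hy hU' hZ' (e := fun i => (e i : α))
          (fun i j h => e.injective (Subtype.ext h)) (fun i => (e i).2))
        (fun _ => mem_univ _) (fun _ => mem_univ _)
      rw [← card_cos (φ := k₀) ⟨k₀, mem_cos.2 ⟨hk₀, fun _ _ => rfl⟩⟩]
      refine card_le_card fun k hk => ?_
      obtain ⟨hk, hk'⟩ := mem_cos.1 hk
      have e1 : ∀ b, k (u b) = _ := fun b =>
        (hk' _ (mem_image_of_mem _ (mem_univ b))).trans (hk₀' b)
      have e2 : ∀ i, k (w i) = e i := fun i => e1 (Sum.inr (Sum.inl i))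
      have e3 : ∀ i, k (y (w i)) = y (e i) := fun i => e1 (Sum.inr (Sum.inr i))
      refine mem_filter.2 ⟨mem_filter.2 ⟨mem_univ _, ⟨hk, fun x hx => e1 (Sum.inl ⟨x, hx⟩)⟩,
        fun i => ?_⟩, funext e2⟩
      rw [e2, e3]
      exact ⟨(e i).2, rfl⟩)
  rw [card_image_of_injective _ (fun e e' h => by
    ext i; exact congrFun h i), card_univ, Fintype.card_embedding_eq, Fintype.card_fin,
    Fintype.card_coe] at h1
  have h2 := card_le_cent (fx H U) y (A := A) (T := cos H S y)
    (fun k hk k' hk' => (fx H U).mul_mem (mem_filter.1 hk).2.1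
      ((fx H U).inv_mem (mem_filter.1 hk').2.1)) (by
      intro k hk
      obtain ⟨hk, hk'⟩ := (mem_filter.1 hk).2
      refine mem_cos.2 ⟨H.mul_mem (H.mul_mem (H.inv_mem hk.1) hyH) hk.1, fun x hx => ?_⟩
      obtain ⟨b, -, rfl⟩ := mem_image.1 hx
      rw [Perm.mul_apply, Perm.mul_apply, Perm.inv_eq_iff_eq]
      rcases b with b | b | b
      · simp only [hu, Sum.elim_inl, hk.2 b b.2, hU' b b.2]
      · exact (hk' b).2.symm
      · simp only [hu, Sum.elim_inr, (hk' b).2, inv_inv_ap hy])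
  set C := fx H U ⊓ Subgroup.centralizer {y} with hC
  have h3 : Z.card.descFactorial (2 * a) ≤ Nat.card C := by
    refine Nat.le_of_mul_le_mul_left (h1.trans (h2.trans ?_)) Nat.card_pos
    rw [mul_comm]
    exact Nat.mul_le_mul_right _ (card_cos_le _ _)
  obtain ⟨X, hX1, -, hX2⟩ := exists_subsuperset_card_eq (s := Φ) (t := univ) (n := t + 1)
    (subset_univ _) (by omega) (by rw [card_univ]; omega)
  have h5 : Nat.card C ≤ Φ.card ^ (Φ \ U).card * Fintype.card α ^ (X \ Φ).card := by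
    have := card_le_card_of_injOn (s := univ.filter (fun k => k ∈ C))
      (t := (Fintype.piFinset fun _ : ↥(Φ \ U) => Φ) ×ˢ
        (Fintype.piFinset fun _ : ↥(X \ Φ) => (univ : Finset α)))
      (fun k => (fun x => k x, fun x => k x)) (by
        intro k hk
        have hk' := Subgroup.mem_centralizer_singleton_iff.1 (mem_filter.1 (mem_coe.1 hk)).2.2
        simp only [coe_product, Set.mem_prod, mem_coe, Fintype.mem_piFinset, mem_univ,
          implies_true, and_true]
        intro x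
        rw [hΦm, ← Perm.mul_apply, ← hk', Perm.mul_apply, (hΦm x).1 (mem_sdiff.1 x.2).1]) (by
        intro k hk k' hk' hkk
        have e1 := (mem_filter.1 (mem_coe.1 hk)).2.1
        have e2 := (mem_filter.1 (mem_coe.1 hk')).2.1
        simp only [Prod.mk.injEq] at hkk
        refine inv_mul_eq_one.1 (hfix _ (H.mul_mem (H.inv_mem e1.1) e2.1) X hX2 fun x hx => ?_)
        rw [Perm.mul_apply, Perm.inv_eq_iff_eq]
        by_cases hxU : x ∈ U
        · rw [e1.2 x hxU, e2.2 x hxU]
        by_cases hxΦ : x ∈ Φ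
        · exact (congrFun hkk.1 ⟨x, mem_sdiff.2 ⟨hxΦ, hxU⟩⟩).symm
        · exact (congrFun hkk.2 ⟨x, mem_sdiff.2 ⟨hx, hxΦ⟩⟩).symm)
    rw [card_mem, card_product, Fintype.card_piFinset, Fintype.card_piFinset] at this
    simpa using this
  rw [card_sdiff_of_subset hU, card_sdiff_of_subset hX1] at h5
  have h6 := Nat.pow_sub_le_descFactorial Z.card (2 * a)
  have h7 : (Fintype.card α - 3 * t) ^ (2 * a) ≤ (2 * (Z.card + 1 - 2 * a)) ^ (2 * a) :=
    Nat.pow_le_pow_left (by omega) _
  have h8 : Φ.card ^ (Φ.card - U.card) * Fintype.card α ^ (X.card - Φ.card)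
      ≤ t ^ (5 * a) * Fintype.card α ^ a := by
    gcongr <;> omega
  refine (Nat.pow_le_pow_iff_left (n := a) (by omega)).1 ?_
  calc _ = (Fintype.card α - 3 * t) ^ (2 * a) := by rw [pow_mul]
    _ ≤ 2 ^ (2 * a) * (Z.card + 1 - 2 * a) ^ (2 * a) := by rw [← mul_pow]; exact h7
    _ ≤ 2 ^ (2 * a) * (t ^ (5 * a) * Fintype.card α ^ a) :=
      Nat.mul_le_mul_left _ (h6.trans (h3.trans (h5.trans h8)))
    _ = _ := by rw [pow_mul, pow_mul, mul_pow, mul_pow]; ring

end Pool.Agent.H5Hom
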