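import Pool.Agent.Lib.MP_078193_al.H5Pad

/-! Involutions of highly transitive groups have few fixed points. -/

open Finset Equiv
open scoped Pointwise

set_option linter.unusedSectionVars false

namespace Pool.Agent.H5Hom

variable {α : Type} [Fintype α] [DecidableEq α] {H : Subgroup (Perm α)}

lemma inv_inv_ap {y : Perm α} (hy : y * y = 1) (x : α) : y (y x) = x := by
  rw [← Perm.mul_apply, hy]; rfl

lemma exists_reps {y : Perm α} (hy : y * y = 1) :
    ∃ Z : Finset α, (supp univ y).card ≤ 2 * Z.card ∧ ∀ z ∈ Z, y z ∉ Z := by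
  set e := Fintype.equivFin α
  refine ⟨univ.filter (fun x => e x < e (y x)), ?_, ?_⟩
  · set Z := univ.filter (fun x => e x < e (y x))
    have h1 : supp univ y ⊆ Z ∪ y • Z := by
      intro x hx
      have h2 : e x ≠ e (y x) := fun h => (mem_supp.1 hx).2 (e.injective h).symm
      rcases lt_or_gt_of_ne h2 with h | h
      · exact mem_union_left _ (mem_filter.2 ⟨mem_univ _, h⟩)
      · refine mem_union_right _ ?_
        rw [← inv_inv_ap hy x]
        exact apply_mem_smul.2 (mem_filter.2 ⟨mem_univ _, by rwa [inv_inv_ap hy]⟩)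
    have h2 := card_le_card h1
    have h3 := card_union_le Z (y • Z)
    rw [card_smul] at h3
    omega
  · intro z hz hz'
    have h1 := (mem_filter.1 hz).2
    have h2 := (mem_filter.1 hz').2
    rw [inv_inv_ap hy] at h2
    exact lt_asymm h1 h2

lemma mem_iff_of_maps {g : Perm α} {W : Finset α} (h : ∀ x ∈ W, g x ∈ W) (x : α) :
    g x ∈ W ↔ x ∈ W := by
  have : g • W = W := eq_of_subset_of_card_le (fun z hz => by
    have := h _ (mem_smul.1 hz)
    rwa [ap_inv] at this) (card_smul g W).ge
  conv_lhs => rw [← this]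
  exact apply_mem_smul

lemma dihedral {y ρ : Perm α} (h : ρ * y * ρ = y) (j : ℕ) : ρ ^ j * y * ρ ^ j = y := by
  induction j with
  | zero => simp
  | succ j ih =>
    calc ρ ^ (j + 1) * y * ρ ^ (j + 1) = ρ ^ j * (ρ * y * ρ) * ρ ^ j := by
          rw [pow_succ ρ j]; nth_rewrite 2 [← pow_succ ρ j]; rw [pow_succ' ρ j]; group
      _ = y := by rw [h, ih]

lemma fold {y ρ : Perm α} (h : ρ * y * ρ = y) {x : α} {a b : ℕ}
    (hab : y ((ρ ^ a) x) = (ρ ^ b) x) : y x = (ρ ^ (a + b)) x := by
  rw [pow_add, Perm.mul_apply, ← hab]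
  conv_lhs => rw [← dihedral h a]
  rfl

lemma per_pow (ρ : Perm α) (x : α) (j : ℕ) : per ρ ((ρ ^ j) x) = per ρ x := by
  have : ∀ m, per ρ ((ρ ^ j) x) ∣ m ↔ per ρ x ∣ m := by
    intro m
    rw [← per_dvd, ← per_dvd, ← Perm.mul_apply, ← pow_add, add_comm, pow_add, Perm.mul_apply]
    simp
  exact Nat.dvd_antisymm ((this _).2 dvd_rfl) ((this _).1 dvd_rfl)

lemma pow_eq_pow {ρ : Perm α} {x : α} {a b : ℕ} (h : (ρ ^ a) x = (ρ ^ b) x) (ha : a < per ρ x)
    (hb : b < per ρ x) : a = b := by
  simp only [Perm.coe_pow] at h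
  exact Function.iterate_injOn_Iio_minimalPeriod ha hb h

open Classical in
/-- starting points of long folded-free walks -/
noncomputable def good (W : Finset α) (m : ℕ) (y ρ : Perm α) : Finset α :=
  univ.filter (fun x => x ∉ W ∧ 4 * m + 2 < per ρ x ∧ ∀ c ≤ 2 * m, y x ≠ (ρ ^ c) x)

lemma mem_good {W : Finset α} {m : ℕ} {y ρ : Perm α} {x : α} : x ∈ good W m y ρ ↔
    x ∉ W ∧ 4 * m + 2 < per ρ x ∧ ∀ c ≤ 2 * m, y x ≠ (ρ ^ c) x := by simp [good]

lemma supp_le_good {W : Finset α} {m : ℕ} {y ρ : Perm α} (h : ρ * y * ρ = y)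
    (hW : ∀ x ∈ W, ρ x ∈ W) :
    (supp univ (ρ ^ (4 * m + 2).factorial)).card ≤ W.card + 2 * (good W m y ρ).card := by
  have hW' : ∀ j, ∀ x ∈ W, (ρ ^ j) x ∈ W := by
    intro j
    induction j with
    | zero => simp
    | succ j ih => intro x hx; rw [pow_succ, Perm.mul_apply]; exact ih _ (hW x hx)
  have h1 : supp univ (ρ ^ (4 * m + 2).factorial)
      ⊆ W ∪ good W m y ρ ∪ (ρ ^ (m + 1))⁻¹ • good W m y ρ := by
    intro x hx
    have h2 : 4 * m + 2 < per ρ x := by
      by_contra hc
      exact (mem_supp.1 hx).2 (per_dvd.2 (Nat.dvd_factorial (per_pos _ _) (by omega)))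
    by_contra hc
    simp only [mem_union, mem_smul, inv_inv, mem_good, not_or, not_and, not_forall, not_not,
      mem_iff_of_maps (hW' (m + 1)), per_pow] at hc
    obtain ⟨⟨h3, h4⟩, h5⟩ := hc
    obtain ⟨c, hc, hc'⟩ := h4 h3 h2
    obtain ⟨d, hd, hd'⟩ := h5 h3 h2
    rw [← Perm.mul_apply (ρ ^ d), ← pow_add] at hd'
    have := pow_eq_pow (hc'.symm.trans (fold h hd')) (by omega) (by omega)
    omega
  have h2 := card_le_card h1
  have h3 := card_union_le (W ∪ good W m y ρ) ((ρ ^ (m + 1))⁻¹ • good W m y ρ)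
  have h4 := card_union_le W (good W m y ρ)
  rw [card_smul] at h3
  omega

lemma rot_rel {y : Perm α} (hy : y * y = 1) (g : Perm α) :
    (g⁻¹ * y * g * y) * y * (g⁻¹ * y * g * y) = y := by
  ext x
  simp only [Perm.mul_apply, inv_inv_ap hy, ap_inv, inv_ap]

lemma first_moment {τ m : ℕ} (ht : Tr H univ τ) {y : Perm α} (hy : y * y = 1) {W : Finset α}
    (hτ : W.card + 2 * m ≤ τ) (hyW : ∀ x ∈ W, y x ∈ W) {φ : α → α} (hφ : ∀ x ∈ W, φ x ∈ W) :
    (Fintype.card α).descFactorial (W.card + 2 * m)
      * ∑ g ∈ cos H W φ, (good W m y (g⁻¹ * y * g * y)).card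
      ≤ Nat.card H * (Fintype.card α ^ (m + 1) * (supp univ y).card ^ m) := by
  set N := (Fintype.card α).descFactorial (W.card + 2 * m) with hN
  rw [← card_sigma]
  rcases Nat.eq_zero_or_pos N with h0 | h0
  · simp [h0]
  have key := card_le_mul_card_image_of_maps_to
    (s := (cos H W φ).sigma (fun g => good W m y (g⁻¹ * y * g * y)))
    (t := (Fintype.piFinset fun _ : Fin (m + 1) => (univ : Finset α)) ×ˢ
      (Fintype.piFinset fun _ : Fin m => supp univ y))
    (f := fun p => (fun k : Fin (m + 1) => ((p.1⁻¹ * y * p.1 * y) ^ (k : ℕ)) p.2,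
      fun k : Fin m => p.1 (y (((p.1⁻¹ * y * p.1 * y) ^ (k : ℕ)) p.2)))) (by
      rintro ⟨g, x⟩ hp
      obtain ⟨-, hx⟩ := mem_sigma.1 hp
      simp only [mem_product, Fintype.mem_piFinset, mem_univ, implies_true, true_and, mem_supp]
      intro k hk
      refine (mem_good.1 hx).2.2 (k + (k + 1)) (by omega) (fold (rot_rel hy g) ?_)
      rw [pow_succ', Perm.mul_apply]
      simp only [Perm.mul_apply] at hk ⊢
      rw [hk, inv_ap]) (Nat.card H / N) (by
      rintro ⟨P, Q⟩ -
      by_contra hcon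
      obtain ⟨⟨g₀, x₀⟩, h1⟩ := card_pos.1 (lt_of_le_of_lt (Nat.zero_le _) (not_le.1 hcon))
      apply hcon
      obtain ⟨h2, h3⟩ := mem_filter.1 h1
      obtain ⟨hg₀, hx₀⟩ := mem_sigma.1 h2
      simp only [Prod.mk.injEq] at h3 hg₀ hx₀
      set ρ := g₀⁻¹ * y * g₀ * y with hρ
      obtain ⟨hx1, hx2, hx3⟩ := mem_good.1 hx₀
      have hgW : ∀ x ∈ W, g₀ x ∈ W := fun x hx => by
        rw [(mem_cos.1 hg₀).2 x hx]; exact hφ x hx
      have hρW : ∀ j : ℕ, (ρ ^ j) x₀ ∉ W := by
        intro j
        induction j with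
        | zero => simpa using hx1
        | succ j ih =>
          rw [pow_succ', Perm.mul_apply, hρ]
          simp only [Perm.mul_apply]
          rw [← mem_iff_of_maps hgW, ap_inv, mem_iff_of_maps hyW, mem_iff_of_maps hgW,
            mem_iff_of_maps hyW]
          exact ih
      set S := W ∪ ((univ.image fun k : Fin m => y (P k.castSucc))
        ∪ (univ.image fun k : Fin m => P k.succ)) with hS
      have hP : ∀ k, P k = (ρ ^ (k : ℕ)) x₀ := fun k => by rw [← h3.1]
      have hSc : S.card = W.card + 2 * m := by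
        rw [hS, card_union_of_disjoint, card_union_of_disjoint, card_image_of_injective,
          card_image_of_injective]
        · simp; ring
        · intro a b hab
          simp only [hP, Fin.val_succ] at hab
          have := pow_eq_pow hab (by omega) (by omega)
          exact Fin.ext (by omega)
        · intro a b hab
          simp only [hP, Fin.val_castSucc, EmbeddingLike.apply_eq_iff_eq] at hab
          exact Fin.ext (pow_eq_pow hab (by omega) (by omega))
        · rw [disjoint_left]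
          intro z hz hz'
          obtain ⟨a, -, rfl⟩ := mem_image.1 hz
          obtain ⟨b, -, hb⟩ := mem_image.1 hz'
          simp only [hP, Fin.val_succ, Fin.val_castSucc] at hb
          exact hx3 _ (by omega) (fold (rot_rel hy g₀) hb.symm)
        · rw [disjoint_right]
          intro z hz
          rcases mem_union.1 hz with hz | hz
          · obtain ⟨a, -, rfl⟩ := mem_image.1 hz
            rw [mem_iff_of_maps hyW, hP]
            exact hρW _
          · obtain ⟨a, -, rfl⟩ := mem_image.1 hz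
            rw [hP]
            exact hρW _
      have h4 := ht.card_fx inv_univ S (subset_univ _) (by omega)
      rw [hSc, card_univ, ← hN] at h4
      have h5 : Nat.card H / N = Nat.card (fx H S) := by
        rw [← h4, Nat.mul_div_cancel_left _ h0]
      rw [h5]
      refine le_trans (card_le_card_of_injOn (fun p => p.1) ?_ ?_) (card_cos_le S g₀)
      · have aux : ∀ g x, (⟨g, x⟩ : Σ _ : Perm α, α) ∈ filter (fun p : Σ _ : Perm α, α =>
            ((fun k : Fin (m + 1) => ((p.1⁻¹ * y * p.1 * y) ^ (k : ℕ)) p.2,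
            fun k : Fin m => p.1 (y (((p.1⁻¹ * y * p.1 * y) ^ (k : ℕ)) p.2))) = (P, Q)))
            ((cos H W φ).sigma (fun g => good W m y (g⁻¹ * y * g * y))) →
            ∀ k : Fin m, g (y (P k.castSucc)) = Q k ∧ g (P k.succ) = y (Q k) := by
          intro g x hp k
          have h6 := (mem_filter.1 hp).2
          simp only [Prod.mk.injEq] at h6
          rw [← h6.1, ← h6.2]
          simp only [Fin.val_castSucc, Fin.val_succ, true_and]
          rw [pow_succ', Perm.mul_apply]
          simp only [Perm.mul_apply, ap_inv]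
        rintro ⟨g, x⟩ hp
        have h6 := mem_cos.1 (mem_sigma.1 (mem_filter.1 hp).1).1
        refine mem_coe.2 (mem_cos.2 ⟨h6.1, fun z hz => ?_⟩)
        rcases mem_union.1 hz with hz | hz
        · rw [h6.2 z hz, (mem_cos.1 hg₀).2 z hz]
        rcases mem_union.1 hz with hz | hz
        · obtain ⟨a, -, rfl⟩ := mem_image.1 hz
          rw [(aux g x hp a).1, (aux g₀ x₀ h1 a).1]
        · obtain ⟨a, -, rfl⟩ := mem_image.1 hz
          rw [(aux g x hp a).2, (aux g₀ x₀ h1 a).2]
      · rintro ⟨g, x⟩ hp ⟨g', x'⟩ hp' hgg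
        have h6 := (mem_filter.1 (mem_coe.1 hp)).2
        have h7 := (mem_filter.1 (mem_coe.1 hp')).2
        simp only [Prod.mk.injEq] at h6 h7 hgg
        have h8 := congrFun (h6.1.trans h7.1.symm) 0
        simp only [Fin.val_zero, pow_zero, Perm.one_apply] at h8
        rw [hgg, h8])
  rw [card_product, Fintype.card_piFinset, Fintype.card_piFinset] at key
  simp only [prod_const, card_univ, Fintype.card_fin] at key
  refine (Nat.mul_le_mul_left N key).trans ?_
  rw [← mul_assoc]
  exact Nat.mul_le_mul_right _ (Nat.mul_div_le _ _)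

end Pool.Agent.H5Hom
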