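import Pool.Agent.Lib.MP_078193_al.H5Min

/-! From homogeneity to transitivity, and groups of polynomially bounded degree. -/

open Finset Equiv
open scoped Pointwise

set_option linter.unusedSectionVars false

namespace Pool.Agent.H5Hom

variable {α : Type} [Fintype α] [DecidableEq α] {H : Subgroup (Perm α)} {Ω : Finset α}

lemma Hom.orb_eq (hi : Inv H Ω) {j : ℕ} (h : Hom H Ω j) {A : Finset α} (hA : A ⊆ Ω)
    (hA' : A.card = j) : orb H A = powersetCard j Ω := by
  ext B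
  rw [mem_powersetCard]
  constructor
  · intro hB
    refine ⟨?_, (card_of_mem_orb hB).trans hA'⟩
    obtain ⟨g, hg, rfl⟩ := mem_orb.1 hB
    exact hi.smul_subset hg hA
  · rintro ⟨h1, h2⟩
    exact mem_orb.2 (h A hA B h1 hA' h2)

lemma smul_of_insert {g : Perm α} {x : α} {B B' : Finset α} (hg : g x = x) (hB : x ∉ B)
    (hB' : x ∉ B') (h : g • insert x B = insert x B') : g • B = B' := by
  rw [← erase_insert hB, smul_erase, h, hg, erase_insert hB']

lemma Hom.stab (hi : Inv H Ω) {q : ℕ} (hp : (q + 1).Prime) (h : Hom H Ω (q + 1))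
    (h' : Hom H Ω q) (hd : ¬ (q + 1) ∣ Ω.card + 1) {x : α} (hx : x ∈ Ω) :
    Hom (fx H {x}) (Ω.erase x) q := by
  have key : ∀ B ⊆ Ω.erase x, B.card = q → orb (st H (insert x B)) x = insert x B := by
    intro B hB hBc
    have hxB : x ∉ B := fun h => (notMem_erase x Ω) (hB h)
    have hBΩ : B ⊆ Ω := hB.trans (erase_subset _ _)
    have hA : insert x B ⊆ Ω := insert_subset hx hBΩ
    have hAc : (insert x B).card = q + 1 := by rw [card_insert_of_notMem hxB, hBc]
    have hsub : orb (st H (insert x B)) x ⊆ insert x B := by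
      intro y hy
      obtain ⟨g, hg, rfl⟩ := mem_orb.1 hy
      rw [← (mem_st.1 hg).2]
      exact apply_mem_smul.2 (mem_insert_self _ _)
    have hst : st (st H (insert x B)) x = st (st H B) x := by
      ext g
      simp only [mem_st, Perm.smul_def]
      constructor
      · rintro ⟨⟨h1, h2⟩, h3⟩
        exact ⟨⟨h1, smul_of_insert h3 hxB hxB h2⟩, h3⟩
      · rintro ⟨⟨h1, h2⟩, h3⟩
        exact ⟨⟨h1, by rw [smul_insert, h2, h3]⟩, h3⟩
    have e1 := orb_mul_st H (insert x B)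
    have e2 := orb_mul_st H B
    have e3 := orb_mul_st (st H (insert x B)) x
    have e4 := orb_mul_st (st H B) x
    rw [h.orb_eq hi hA hAc, card_powersetCard, ← e3, hst] at e1
    rw [h'.orb_eq hi hBΩ hBc, card_powersetCard, ← e4] at e2
    have e5 := Nat.choose_succ_right_eq Ω.card q
    have hq : q + 1 ≤ Ω.card := hAc ▸ card_le_card hA
    have hz : 0 < Nat.card (st (st H B) x) := Nat.card_pos
    have hc : 0 < Ω.card.choose q := Nat.choose_pos (by omega)
    set a := (orb (st H (insert x B)) x).card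
    set b := (orb (st H B) x).card
    have e6 : (Ω.card - q) * a = (q + 1) * b := by
      have h1 : Ω.card.choose (q + 1) * a = Ω.card.choose q * b :=
        Nat.eq_of_mul_eq_mul_right hz (by rw [mul_assoc, mul_assoc, e1, e2])
      refine Nat.eq_of_mul_eq_mul_left hc ?_
      calc Ω.card.choose q * ((Ω.card - q) * a) = (Ω.card.choose (q + 1) * (q + 1)) * a := by
            rw [e5]; ring
        _ = (q + 1) * (Ω.card.choose (q + 1) * a) := by ring
        _ = _ := by rw [h1]; ring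
    have e7 : (q + 1) ∣ a := by
      rcases (Nat.Prime.dvd_mul hp).1 (e6 ▸ dvd_mul_right (q + 1) b) with h1 | h1
      · exfalso
        apply hd
        have : Ω.card + 1 = (Ω.card - q) + (q + 1) := by omega
        rw [this]
        exact dvd_add h1 dvd_rfl
      · exact h1
    have ha : 0 < a := card_pos.2 ⟨x, self_mem_orb x⟩
    exact eq_of_subset_of_card_le hsub (hAc ▸ Nat.le_of_dvd ha e7)
  intro B hB B' hB' hBc hBc'
  have hxB : x ∉ B := fun h => (notMem_erase x Ω) (hB h)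
  have hxB' : x ∉ B' := fun h => (notMem_erase x Ω) (hB' h)
  obtain ⟨g, hg, hg'⟩ := h (insert x B) (insert_subset hx (hB.trans (erase_subset _ _)))
    (insert x B') (insert_subset hx (hB'.trans (erase_subset _ _)))
    (by rw [card_insert_of_notMem hxB, hBc]) (by rw [card_insert_of_notMem hxB', hBc'])
  have h1 : g x ∈ orb (st H (insert x B')) x := by
    rw [key B' hB' hBc', ← hg']
    exact apply_mem_smul.2 (mem_insert_self _ _)
  obtain ⟨k, hk, hk'⟩ := mem_orb.1 (orb_symm h1)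
  rw [mem_st] at hk
  have h2 : (k * g) x = x := hk'
  refine ⟨k * g, ⟨H.mul_mem hk.1 hg, by simpa using h2⟩, ?_⟩
  exact smul_of_insert h2 hxB hxB' (by rw [mul_smul, hg', hk.2])

lemma Inv.stab (hi : Inv H Ω) (x : α) : Inv (fx H {x}) (Ω.erase x) := by
  intro g hg y hy
  obtain ⟨h1, h2⟩ := mem_erase.1 hy
  refine mem_erase.2 ⟨fun h => h1 (g.injective (h.trans ?_)), hi g hg.1 y h2⟩
  exact (hg.2 x (mem_singleton_self x)).symm

theorem weak_lw {u K : ℕ} (hu : 1 ≤ u) (s : ℕ) : ∀ (H : Subgroup (Perm α)) (Ω : Finset α)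
    (k : ℕ) (P : Finset ℕ), Inv H Ω → Hom H Ω k → 2 * k ≤ Ω.card →
    (∀ p ∈ P, p.Prime ∧ u < p ∧ p ≤ k) → s * (K + 1) ≤ P.card → Ω.card + 1 ≤ u ^ K →
    Tr H Ω s := by
  induction s with
  | zero =>
    intro H Ω k P _ _ _ _ _ _ S _ hS φ _ _
    rw [Nat.le_zero, card_eq_zero] at hS
    exact ⟨1, H.one_mem, by simp [hS]⟩
  | succ s ih =>
    intro H Ω k P hi hk h2k hP hPc hν S hS hSc φ hφ hφ'
    have h1 := card_dvd_le hu (fun p hp => ⟨(hP p hp).1, (hP p hp).2.1⟩) (Nat.succ_pos _) hν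
    have h2 := card_filter_add_card_filter_not (s := P) (· ∣ Ω.card + 1)
    set P' := P.filter (fun p => ¬ p ∣ Ω.card + 1) with hP'
    have h3 : s * (K + 1) + 1 ≤ P'.card := by
      simp only [Nat.succ_eq_add_one] at h1
      rw [add_mul] at hPc
      omega
    have hne : P'.Nonempty := card_pos.1 (by omega)
    have hp := max'_mem P' hne
    set p := P'.max' hne
    obtain ⟨hp1, hp2⟩ := mem_filter.1 hp
    obtain ⟨q, hq⟩ : ∃ q, p = q + 1 := ⟨p - 1, by have := (hP p hp1).1.pos; omega⟩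
    have hpk := (hP p hp1).2.2
    rcases S.eq_empty_or_nonempty with rfl | ⟨x, hx⟩
    · exact ⟨1, H.one_mem, by simp⟩
    obtain ⟨g₀, hg₀, hg₀'⟩ := hk.le (by omega) (j := 1) (by omega) {x}
      (by simpa using hS hx) {φ x} (by simpa using hφ' x hx) (by simp) (by simp)
    have hg₀x : g₀ x = φ x := by simpa [smul_eq_image] using hg₀'
    have hst := Hom.stab hi (hq ▸ (hP p hp1).1) (hk.le (by omega) (by omega))
      (hk.le (by omega) (by omega)) (hq ▸ hp2) (hφ' x hx)
    have hc : (Ω.erase (φ x)).card + 1 = Ω.card := card_erase_add_one (hφ' x hx)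
    have := ih _ _ q (P'.erase p) (hi.stab (φ x)) hst (by omega) (by
      intro r hr
      obtain ⟨hr1, hr2⟩ := mem_erase.1 hr
      have := le_max' P' r hr2
      have h4 := hP r (mem_filter.1 hr2).1
      exact ⟨h4.1, h4.2.1, by omega⟩) (by rw [card_erase_of_mem hp]; omega) (by omega)
    obtain ⟨g₁, hg₁, hg₁'⟩ := this (g₀ • S.erase x) (by
        intro y hy
        obtain ⟨h4, h5⟩ := mem_erase.1 (mem_smul.1 hy)
        refine mem_erase.2 ⟨fun h => h4 ?_, by simpa using hi g₀ hg₀ _ (hS h5)⟩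
        rw [h, ← hg₀x, inv_ap])
      (by rw [card_smul, card_erase_of_mem hx]; omega) (fun y => φ (g₀⁻¹ y)) (by
        intro a ha b hb hab
        exact g₀⁻¹.injective (hφ (mem_erase.1 (mem_smul.1 ha)).2
          (mem_erase.1 (mem_smul.1 hb)).2 hab)) (by
        intro y hy
        obtain ⟨h4, h5⟩ := mem_erase.1 (mem_smul.1 hy)
        exact mem_erase.2 ⟨fun h => h4 (hφ h5 hx h), hφ' _ h5⟩)
    refine ⟨g₁ * g₀, H.mul_mem hg₁.1 hg₀, fun y hy => ?_⟩
    by_cases hyx : y = x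
    · rw [hyx, Perm.mul_apply, hg₀x]
      exact hg₁.2 _ (mem_singleton_self _)
    · rw [Perm.mul_apply, hg₁' _ (apply_mem_smul.2 (mem_erase.2 ⟨hyx, hy⟩)), inv_ap]

lemma exists_primes (M : ℕ) {u : ℕ} (hu : 1 ≤ u) :
    ∃ P : Finset ℕ, P.card = M ∧ ∀ p ∈ P, p.Prime ∧ u < p ∧ p ≤ 2 ^ M * u := by
  induction M with
  | zero => exact ⟨∅, rfl, by simp⟩
  | succ M ih =>
    obtain ⟨P, h1, h2⟩ := ih
    obtain ⟨q, hq, hq1, hq2⟩ := Nat.exists_prime_lt_and_le_two_mul (2 ^ M * u) (by positivity)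
    have h3 : u ≤ 2 ^ M * u := Nat.le_mul_of_pos_left _ (by positivity)
    refine ⟨insert q P, by rw [card_insert_of_notMem (fun h => by have := h2 q h; omega), h1], ?_⟩
    intro p hp
    rw [pow_succ]
    rcases mem_insert.1 hp with rfl | hp
    · exact ⟨hq, by omega, by linarith⟩
    · have := h2 p hp
      exact ⟨this.1, this.2.1, by linarith⟩

lemma pow_four_lt (u : ℕ) (hu : 20 ≤ u) : 2 * u ^ 4 + 1 ≤ 2 ^ u := by
  induction u, hu using Nat.le_induction with
  | base => norm_num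
  | succ u hu ih =>
    rw [pow_succ 2 u]
    have : (u + 1) ^ 4 ≤ 2 * u ^ 4 := by
      have h1 : 20 * u ^ 3 ≤ u ^ 4 := by rw [pow_succ u 3]; nlinarith [pow_pos (by omega : 0 < u) 3]
      have h2 : 20 * u ^ 2 ≤ u ^ 3 := by rw [pow_succ u 2]; nlinarith [pow_pos (by omega : 0 < u) 2]
      have h3 : 20 * u ≤ u ^ 2 := by nlinarith
      nlinarith
    omega

lemma many_primes (u : ℕ) (hu : 20 ≤ u) : 2 * u ^ 3 ≤ (Nat.primesLE (2 * u ^ 4)).card + 1 := by
  set n := 2 * u ^ 4 with hn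
  have h1 := Chebyshev.two_pow_le_mul_lcmUpto n
  have h2 : n.lcmUpto ≤ (n + 1) ^ (Nat.primesLE n).card := by
    rw [Nat.lcmUpto_eq_prod_pow_log]
    exact prod_le_pow_card _ _ _ fun p _ =>
      (Nat.pow_log_le_self p (by positivity)).trans (Nat.le_succ n)
  have h3 : 2 ^ n ≤ (2 ^ u) ^ ((Nat.primesLE n).card + 1) := by
    calc 2 ^ n ≤ (n + 1) * (n + 1) ^ (Nat.primesLE n).card := h1.trans (by gcongr)
      _ = (n + 1) ^ ((Nat.primesLE n).card + 1) := by ring
      _ ≤ _ := Nat.pow_le_pow_left (pow_four_lt u hu) _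
  rw [← pow_mul] at h3
  have h4 := (Nat.pow_le_pow_iff_right (by norm_num)).1 h3
  refine Nat.le_of_mul_le_mul_left (c := _) (a := _) ?_ (show 0 < u by omega)
  calc u * (2 * u ^ 3) = n := by rw [hn]; ring
    _ ≤ _ := h4

theorem thmA (K : ℕ) : ∃ k₀ : ℕ, ∀ k ≥ k₀, ∀ (α : Type) [Fintype α] [DecidableEq α]
    (H : Subgroup (Perm α)) (Ω : Finset α), Inv H Ω → Hom H Ω k → 2 * k ≤ Ω.card →
    Ω.card ≤ k ^ K → Alt3 H Ω := by
  set M := 5 * (5 * K + 1) + 1 with hM
  set u₀ := M * 2 ^ M + 5 * K + 40 with hu₀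
  refine ⟨2 * u₀ ^ 4, fun k hk α _ _ H Ω hi hH h2k hν => ?_⟩
  obtain ⟨u, hu, hu1, hu2⟩ : ∃ u, u₀ ≤ u ∧ 2 * u ^ 4 ≤ k ∧ k < 2 * (u + 1) ^ 4 := by
    have hex : ∃ v, k < 2 * (v + 1) ^ 4 := ⟨k, by
      have := Nat.le_self_pow (n := 4) (by norm_num) (k + 1)
      omega⟩
    have h1 := Nat.find_spec hex
    have h2 : u₀ ≤ Nat.find hex := by
      by_contra h
      have : (Nat.find hex + 1) ^ 4 ≤ u₀ ^ 4 := Nat.pow_le_pow_left (by omega) _
      omega
    refine ⟨Nat.find hex, h2, ?_, h1⟩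
    have h3 := Nat.find_min hex (m := Nat.find hex - 1) (by omega)
    rw [Nat.sub_add_cancel (by omega)] at h3
    omega
  have hu40 : 40 ≤ u := by omega
  have hk5 : k ≤ u ^ 5 := by
    have h1 : (u + 1) ^ 4 ≤ (2 * u) ^ 4 := Nat.pow_le_pow_left (by omega) _
    have h2 : 32 * u ^ 4 ≤ u * u ^ 4 := Nat.mul_le_mul_right _ (by omega)
    nlinarith
  have hν' : Ω.card + 1 ≤ u ^ (5 * K + 1) := by
    have h1 : k ^ K ≤ u ^ (5 * K) := by rw [pow_mul]; exact Nat.pow_le_pow_left hk5 _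
    have h2 : 0 < u ^ (5 * K) := by positivity
    rw [pow_succ]
    nlinarith
  have h24 : u ^ 2 ≤ u ^ 4 := Nat.pow_le_pow_right (by omega) (by norm_num)
  have hu2' : 40 * u ≤ u ^ 2 := by nlinarith
  have ht : Tr H Ω (u ^ 2) := by
    refine weak_lw (u := u) (K := 5 * K + 1) (by omega) _ H Ω k
      ((Nat.primesLE (2 * u ^ 4)).filter (u < ·)) hi hH h2k ?_ ?_ hν'
    · intro p hp
      obtain ⟨h1, h2⟩ := mem_filter.1 hp
      rw [Nat.mem_primesLE] at h1
      exact ⟨h1.2, h2, by omega⟩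
    · have h1 := many_primes u (by omega)
      have h2 := card_filter_add_card_filter_not (s := Nat.primesLE (2 * u ^ 4)) (u < ·)
      have h3 : ((Nat.primesLE (2 * u ^ 4)).filter (fun p => ¬ u < p)).card ≤ u + 1 := by
        rw [← card_range (u + 1)]
        exact card_le_card fun p hp => mem_range.2 (by have := (mem_filter.1 hp).2; omega)
      have h4 : u ^ 2 * (5 * K + 1 + 1) ≤ u ^ 2 * u := Nat.mul_le_mul_left _ (by omega)
      have h5 : u ^ 2 * u = u ^ 3 := by ring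
      have h6 : u ^ 2 ≤ u ^ 3 := Nat.pow_le_pow_right (by omega) (by norm_num)
      omega
  obtain ⟨P, hP1, hP2⟩ := exists_primes M (u := u) (by omega)
  refine babai_seress hi ht (by omega) (by omega) (by omega) (u := u) (K := 5 * K + 1) (by omega)
    (fun p hp => ⟨(hP2 p hp).1, (hP2 p hp).2.1⟩) hP1 ?_ (by omega)
  calc ∑ p ∈ P, p ≤ P.card • (2 ^ M * u) := sum_le_card_nsmul _ _ _ fun p hp => (hP2 p hp).2.2
    _ = (M * 2 ^ M) * u := by rw [hP1, smul_eq_mul]; ring
    _ ≤ u * u := Nat.mul_le_mul_right _ (by omega)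
    _ = u ^ 2 := by ring

end Pool.Agent.H5Hom
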