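import Pool.Agent.Lib.MP_078193_al.H5EndB

/-! Assembly of the argument for large `t`. -/

open Finset Equiv
open scoped Pointwise

set_option linter.unusedSectionVars false

namespace Pool.Agent.H5Hom

lemma pi_small : ∃ t₁ : ℕ, ∀ t ≥ t₁, 100 * (Nat.primesLE (t + 1)).card ≤ t := by
  obtain ⟨B, hB⟩ : ∃ B : ℕ, B = 4 ^ 200 := ⟨_, rfl⟩
  refine ⟨200 * (B + 1) + 1, fun t ht => ?_⟩
  have h1 := card_filter_add_card_filter_not (s := Nat.primesLE (t + 1)) (B < ·)
  have h2 : ((Nat.primesLE (t + 1)).filter (fun p => ¬ B < p)).card ≤ B + 1 := by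
    rw [← card_range (B + 1)]
    exact card_le_card fun p hp => mem_range.2 (by have := (mem_filter.1 hp).2; omega)
  have h3 : B ^ ((Nat.primesLE (t + 1)).filter (B < ·)).card
      ≤ ∏ p ∈ (Nat.primesLE (t + 1)).filter (B < ·), p :=
    pow_card_le_prod _ _ _ fun p hp => (mem_filter.1 hp).2.le
  have h4 : ∏ p ∈ (Nat.primesLE (t + 1)).filter (B < ·), p ≤ primorial (t + 1) :=
    prod_le_prod_of_subset_of_one_le' (filter_subset _ _)
      fun p hp _ => (mem_filter.1 hp).2.one_le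
  have h5 := h3.trans (h4.trans (primorial_le_four_pow _))
  rw [hB, ← pow_mul, Nat.pow_le_pow_iff_right (by norm_num), ← hB] at h5
  omega

lemma num_pow {t n c w m : ℕ} (ht : 6 ≤ t) (hn : t ^ 100 < n) (hw : 3 * t ≤ 100 * w)
    (hm : c + w ≤ m) (hmt : m ≤ t) : t ^ t * (n ^ c * 16 ^ t) < (n - t) ^ m := by
  have h1 : 2 * t ≤ t ^ 100 := by
    calc 2 * t ≤ t ^ 2 := by nlinarith
      _ ≤ _ := Nat.pow_le_pow_right (by omega) (by norm_num)
  refine lt_of_mul_lt_mul_left (a := 2 ^ t) ?_ (Nat.zero_le _)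
  have h2 : 32 ^ t ≤ (t ^ 2) ^ t := Nat.pow_le_pow_left (by nlinarith) _
  have h3 : (t ^ 100) ^ w < n ^ w := Nat.pow_lt_pow_left hn (by omega)
  have h4 : 0 < n ^ c := by have : 0 < n := by omega
                            positivity
  calc 2 ^ t * (t ^ t * (n ^ c * 16 ^ t)) = n ^ c * (t ^ t * 32 ^ t) := by
        rw [show 32 = 2 * 16 by norm_num, mul_pow]; ring
    _ ≤ n ^ c * (t ^ t * (t ^ 2) ^ t) := by gcongr
    _ = n ^ c * t ^ (3 * t) := by ring
    _ ≤ n ^ c * (t ^ 100) ^ w := by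
        rw [← pow_mul]; exact Nat.mul_le_mul_left _ (Nat.pow_le_pow_right (by omega) hw)
    _ < n ^ c * n ^ w := Nat.mul_lt_mul_of_pos_left h3 h4
    _ ≤ n ^ m := by rw [← pow_add]; exact Nat.pow_le_pow_right (by omega) hm
    _ ≤ (2 * (n - t)) ^ m := Nat.pow_le_pow_left (by omega) _
    _ ≤ _ := by rw [mul_pow]; gcongr; norm_num

lemma sq_lt_two_pow (v : ℕ) (hv : 30 ≤ v) : 4001 * v ^ 2 < 2 ^ v := by
  induction v, hv using Nat.le_induction with
  | base => norm_num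
  | succ v hv ih => rw [pow_succ 2 v]; nlinarith

lemma omega_le {t L : ℕ} (ht : 4000 * 900 ≤ t) (hL : 0 < L) (hL' : L ≤ t + 1) :
    L.primeFactors.card ≤ Nat.sqrt (t / 4000) := by
  by_contra hc
  have h1 : 2 ^ L.primeFactors.card ≤ ∏ p ∈ L.primeFactors, p :=
    pow_card_le_prod _ _ _ fun p hp => (Nat.prime_of_mem_primeFactors hp).two_le
  have h2 := Nat.le_of_dvd hL (Nat.prod_primeFactors_dvd L)
  have h3 := Nat.lt_succ_sqrt' (t / 4000)
  have h4 : 30 ≤ Nat.sqrt (t / 4000) := Nat.le_sqrt'.2 (by omega)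
  have h5 := sq_lt_two_pow (Nat.sqrt (t / 4000) + 1) (by omega)
  have h6 : 2 ^ (Nat.sqrt (t / 4000) + 1) ≤ 2 ^ L.primeFactors.card :=
    Nat.pow_le_pow_right two_pos (by omega)
  simp only [Nat.succ_eq_add_one] at h3
  omega

variable {α : Type} [Fintype α] [DecidableEq α] {H : Subgroup (Perm α)}

lemma orbL_even {τ w L γ : ℕ} (ht : Tr H univ τ) (hf : Fx H w) (hw : 3 ≤ w) (hL : Even L)
    (h4 : 4 ≤ L) (hτ : L + 4 + 2 * γ ≤ 2 * τ) (hn : τ ≤ Fintype.card α)
    (hω : L.primeFactors.card ≤ w) : OrbL H L γ := by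
  obtain ⟨e, b, hb, rfl⟩ := Nat.exists_eq_two_pow_mul_odd (n := L) (by omega)
  have hb0 := hb.pos
  rcases e with _ | e
  · simp only [pow_zero, one_mul] at hL
    exact absurd hL (Nat.not_even_iff_odd.2 hb)
  by_cases hb1 : b = 1
  · subst hb1
    rcases e with _ | e
    · simp at h4
    rw [mul_one] at *
    exact orbL_two_pow ht hf hw (by rw [pow_succ] at hτ; omega) hn
  · have h2 : 2 ≤ 2 ^ (e + 1) := by
      rw [pow_succ]; have := Nat.one_le_two_pow (n := e); omega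
    refine orbL_coprime ht hf (by omega) hb0
      ((Nat.coprime_two_left.2 hb).pow_left _) ?_ hn (by omega) hω
    obtain ⟨x, hx⟩ : ∃ x, 2 ^ (e + 1) = x + 2 := ⟨2 ^ (e + 1) - 2, by omega⟩
    obtain ⟨y, rfl⟩ : ∃ y, b = y + 2 := ⟨b - 2, by omega⟩
    rw [hx] at hτ ⊢
    nlinarith [Nat.zero_le (x * y)]

lemma hom_of_nr {t : ℕ} (h : nr H t ≤ 1) : Hom H univ t := fun A _ B _ hA hB =>
  mem_orb.1 (orb_eq_iff.1 (card_le_one.1 h _ (mem_image_of_mem _ (mem_lev.2 hB)) _
    (mem_image_of_mem _ (mem_lev.2 hA))))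

lemma two_of_nr {t : ℕ} (h : nr H t ≤ 2) : Two H t := by
  intro A B C hA hB hC
  by_contra hc
  simp only [not_or, ← orb_eq_iff] at hc
  have h1 : ({orb H A, orb H B, orb H C} : Finset (Finset (Finset α)))
      ⊆ (powersetCard t univ).image (orb H) := by
    intro O hO
    simp only [mem_insert, mem_singleton] at hO
    rcases hO with rfl | rfl | rfl <;> exact mem_image_of_mem _ (mem_lev.2 ‹_›)
  have h2 := card_le_card h1
  rw [card_eq_three.2 ⟨_, _, _, Ne.symm hc.1, Ne.symm hc.2.1, Ne.symm hc.2.2, rfl⟩] at h2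
  unfold nr at h
  omega

lemma hom_zero : Hom H univ 0 := by
  intro A _ B _ hA hB
  rw [card_eq_zero] at hA hB
  exact ⟨1, H.one_mem, by simp [hA, hB]⟩

lemma HH.hom_one {t : ℕ} (h : HH H t) (ht : 1 ≤ t) (hn : 2 * t + 2 ≤ Fintype.card α) :
    Hom H univ 1 := by
  have key : ∀ (Y : Finset α) (y : α), t + 1 ≤ Y.card → ∃ g ∈ H, g y ∈ Y := by
    intro Y y hY
    obtain ⟨C, hC, hC'⟩ := exists_subset_card_eq hY
    obtain ⟨A, hA, -, hA'⟩ := exists_subsuperset_card_eq (s := {y}) (t := univ) (n := t)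
      (subset_univ _) (by simpa using ht) (by rw [card_univ]; omega)
    obtain ⟨g, hg, hg'⟩ := h A C hA' hC'
    exact ⟨g, hg, hC (hg' (apply_mem_smul.2 (hA (mem_singleton_self y))))⟩
  intro A _ B _ hA hB
  obtain ⟨x, rfl⟩ := card_eq_one.1 hA
  obtain ⟨y, rfl⟩ := card_eq_one.1 hB
  have : y ∈ orb H x := by
    by_cases hc : t + 1 ≤ (orb H x).card
    · obtain ⟨g, hg, hg'⟩ := key _ y hc
      exact (smul_mem_orb hg).1 hg'
    · have := card_sdiff_add_card_eq_card (subset_univ (orb H x))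
      rw [card_univ] at this
      obtain ⟨g, hg, hg'⟩ := key (univ \ orb H x) x (by omega)
      exact absurd (mem_orb.2 ⟨g, hg, rfl⟩) (mem_sdiff.1 hg').2
  obtain ⟨g, hg, rfl⟩ := mem_orb.1 this
  exact ⟨g, hg, by simp [smul_eq_image]⟩

theorem core {t k i : ℕ} (h : HH H t) (hn : 2 * t + 2 ≤ Fintype.card α) (ht : 4000 * 900 ≤ t)
    (hπ : 100 * (Nat.primesLE (t + 1)).card ≤ t) (hs : Small α k t) (hk : 64 * (2 * k) < t)
    (hki : 2 * k ≤ i) (hi2 : 2 ≤ i) (hit : i + 2 ≤ t) (hH : ∀ j ≤ i, Hom H univ j)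
    (hi : ¬ Hom H univ (i + 1)) (hna : ¬ Alt3 H univ) (hbig : t ^ 100 < Fintype.card α) :
    False := by
  obtain ⟨f, hd⟩ := exists_dat (hH i le_rfl) hi
  obtain ⟨w, hw, hw'⟩ : ∃ w, 3 * t ≤ 100 * w ∧ 100 * w ≤ 3 * t + 100 :=
    ⟨3 * t / 100 + 1, by omega, by omega⟩
  have pass : t - (i + 1) < (Nat.primesLE (t + 1)).card + 2 * nr H t + w := by
    by_contra hc
    have h1 := padic_main h hn hs (hH k (by omega)) (i := i + 1) (by omega) (by omega) (by omega) hi
    refine absurd (num_pow (by omega) hbig hw (not_lt.1 hc) (by omega)) (not_lt.2 (h1.trans ?_))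
    have h2 : t + 1 ≤ 2 ^ t := Nat.lt_two_pow_self
    calc _ ≤ t ^ t * (Fintype.card α ^ (Nat.primesLE (t + 1)).card
          * (2 ^ t * 2 ^ t * Fintype.card α ^ nr H t) ^ 2) := by gcongr
      _ = _ := by rw [show 16 = 2 ^ 4 by norm_num, ← pow_mul]; ring
  have hr := nr_le hd h (by omega) hn
  have htr : Tr H univ (i - (Nat.primesLE (t + 1)).card - w - 2) := by
    refine tr_main (m := (Nat.primesLE (t + 1)).card + w) hn hs (fun j hj => hH j (by omega))
      (by omega) (by omega) (lt_of_le_of_lt ?_ (num_pow (by omega) hbig hw le_rfl (by omega)))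
    exact Nat.mul_le_mul_left _ (Nat.le_mul_of_pos_right _ (by positivity))
  have p1 : t ^ 9 ≤ t ^ 100 := Nat.pow_le_pow_right (by omega) (by norm_num)
  have p2 : 100 * t ^ 8 ≤ t ^ 9 := by
    rw [pow_succ' t 8]; exact Nat.mul_le_mul_right _ (by omega)
  have p3 : t ^ 5 ≤ t ^ 8 := Nat.pow_le_pow_right (by omega) (by norm_num)
  have p4 : t ^ 2 ≤ t ^ 5 := Nat.pow_le_pow_right (by omega) (by norm_num)
  have p5 : t ≤ t ^ 2 := Nat.le_self_pow (by norm_num) t
  have hw3 : 30 ≤ Nat.sqrt (t / 4000) := Nat.le_sqrt'.2 (by omega)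
  have hf : Fx H (Nat.sqrt (t / 4000)) := by
    refine fx_of_tr (m := t / 200) htr hna ?_ (by omega) ?_
    · have := Nat.sqrt_le' (t / 4000)
      omega
    · have h1 : (200 * (t / 200)) ^ 2 ≤ t ^ 2 := Nat.pow_le_pow_left (by omega) _
      rw [mul_pow] at h1
      omega
  have hr2 : 300 * nr H t ≤ t := by
    obtain ⟨q, hq, hq'⟩ : ∃ q, (q + 1) ^ 2 ≤ t + 1 ∧ t + 1 < (q + 2) ^ 2 := by
      have h1 := Nat.sqrt_le' (t + 1)
      have h2 := Nat.lt_succ_sqrt' (t + 1)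
      have h3 : 1 ≤ Nat.sqrt (t + 1) := Nat.le_sqrt'.2 (by omega)
      refine ⟨Nat.sqrt (t + 1) - 1, by rwa [Nat.sub_add_cancel h3], ?_⟩
      rwa [show Nat.sqrt (t + 1) - 1 + 2 = (Nat.sqrt (t + 1)).succ by omega]
    have h1 : 1000 ≤ q := by
      by_contra hc
      have : (q + 2) ^ 2 ≤ 1001 ^ 2 := Nat.pow_le_pow_left (by omega) _
      omega
    have h2 : 1000 * (q + 1) ≤ t + 1 := by nlinarith
    have h3 : q * (q + 1) ≤ t + 1 := by nlinarith
    have h4 : t + 1 - q * (q + 1) ≤ 3 * q + 3 := by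
      have : t + 1 ≤ q * (q + 1) + (3 * q + 3) := by nlinarith
      omega
    have := nr_le_of_orbL h (orbL_coprime (a := q) (b := q + 1) (γ := t + 1 - q * (q + 1)) htr hf
      (by omega) (by omega) (by simp) (by omega) (by omega) (by omega)
      (omega_le ht (by positivity) h3)) (by nlinarith) (by omega)
    omega
  rcases Nat.even_or_odd' t with ⟨u, hu | hu⟩
  swap
  · have := nr_le_of_orbL h (orbL_even (L := t + 1) (γ := 0) htr hf (by omega)
      ⟨u + 1, by omega⟩ (by omega) (by omega) (by omega) (omega_le ht (by omega) le_rfl))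
      (by omega) rfl
    exact hi ((hom_of_nr this).le (by rw [card_univ]; omega) (by omega))
  have ho := orbL_even (L := t) (γ := 1) htr hf (by omega) ⟨u, by omega⟩ (by omega) (by omega)
    (by omega) (omega_le ht (by omega) (by omega))
  have h2 := two_of_nr (nr_le_of_orbL h ho (by omega) rfl)
  obtain ⟨A₀, hA₀, hp⟩ := pure_of_orbL ho
  obtain ⟨j, rfl⟩ : ∃ j, t = j + 2 := ⟨t - 2, by omega⟩
  by_cases hij : i = j
  · subst hij
    rcases end_top h (hH _ le_rfl) hi h2 hn hA₀ hp with h3 | h3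
    · omega
    · have h4 := fixity (a := i + 2 + 3 - (i - (Nat.primesLE (i + 2 + 1)).card - w - 2)) htr
        (by omega) (by omega) (by omega) (by omega) h3
      have h5 : Fintype.card α ^ 2 ≤ (2 * (Fintype.card α - 3 * (i + 2))) ^ 2 :=
        Nat.pow_le_pow_left (by omega) _
      have h6 : Fintype.card α * Fintype.card α ≤ (16 * (i + 2) ^ 5) * Fintype.card α := by
        rw [mul_pow] at h5
        nlinarith
      have := Nat.le_of_mul_le_mul_right h6 (by omega)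
      omega
  · have := end_low hd (by omega) (by omega) h2 hn hA₀ hp
    omega

theorem main_large : ∃ t₀ : ℕ, ∀ t ≥ t₀, ∀ (α : Type) [Fintype α] [DecidableEq α]
    (H : Subgroup (Perm α)), 2 * (t + 1) + 2 ≤ Fintype.card α → HH H (t + 1) → Hom H univ t := by
  classical
  obtain ⟨k₀, hk₀⟩ := thmA 1400
  obtain ⟨t₁, ht₁⟩ := pi_small
  refine ⟨t₁ + 4000 * 900 + 64 * (2 * (k₀ + 2 ^ 15)) ^ 12, fun t ht α _ _ H hn h => ?_⟩
  by_contra hnot
  have hex : ∃ j, ¬ Hom H univ (j + 1) := ⟨t - 1, by rwa [Nat.sub_add_cancel (by omega)]⟩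
  obtain ⟨i, hi, hH, hit⟩ : ∃ i, ¬ Hom H univ (i + 1) ∧ (∀ j ≤ i, Hom H univ j) ∧ i + 1 ≤ t := by
    refine ⟨Nat.find hex, Nat.find_spec hex, fun j hj => ?_, ?_⟩
    · rcases j with _ | j
      · exact hom_zero
      · exact not_not.1 (Nat.find_min hex (by omega))
    · have := Nat.find_min' hex (m := t - 1) (by rwa [Nat.sub_add_cancel (by omega)])
      omega
  obtain ⟨f, hd⟩ := exists_dat (hH i le_rfl) hi
  have hb := level_bound hd h (by omega) hn (h.hom_one (by omega) hn)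
  obtain ⟨k, hk, hk1, hk2⟩ : ∃ k, k₀ + 2 ^ 15 ≤ k ∧ 64 * (2 * k) ^ 12 < t + 1 ∧
      t + 1 ≤ 64 * (2 * (k + 1)) ^ 12 := by
    have hex' : ∃ k, t + 1 ≤ 64 * (2 * (k + 1)) ^ 12 := ⟨t, by
      have := Nat.le_self_pow (n := 12) (by norm_num) (2 * (t + 1))
      omega⟩
    have h1 := Nat.find_spec hex'
    have h2 : k₀ + 2 ^ 15 ≤ Nat.find hex' := by
      by_contra hc
      have : (2 * (Nat.find hex' + 1)) ^ 12 ≤ (2 * (k₀ + 2 ^ 15)) ^ 12 :=
        Nat.pow_le_pow_left (by omega) _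
      omega
    refine ⟨_, h2, ?_, h1⟩
    have h3 := Nat.find_min hex' (m := Nat.find hex' - 1) (by omega)
    rw [Nat.sub_add_cancel (by omega)] at h3
    omega
  have hki : 2 * k ≤ i := by
    by_contra hc
    have : (i + 1) ^ 12 ≤ (2 * k) ^ 12 := Nat.pow_le_pow_left (by omega) _
    omega
  have hk14 : t + 1 ≤ k ^ 14 := by
    have h1 : (2 * (k + 1)) ^ 12 ≤ (4 * k) ^ 12 := Nat.pow_le_pow_left (by omega) _
    have h2 : (2 ^ 15) ^ 2 ≤ k ^ 2 := Nat.pow_le_pow_left (by omega) _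
    have h3 := Nat.mul_le_mul_right (k ^ 12) h2
    rw [mul_pow 4 k] at h1
    rw [show k ^ 14 = k ^ 2 * k ^ 12 by ring]
    omega
  have hk100 : (t + 1) ^ 100 ≤ k ^ 1400 := by
    rw [show 1400 = 14 * 100 by norm_num, pow_mul]; exact Nat.pow_le_pow_left hk14 _
  have hself : t + 1 ≤ (t + 1) ^ 100 := Nat.le_self_pow (by norm_num) _
  have h2k := Nat.le_self_pow (n := 12) (by norm_num) (2 * k)
  have hna : ¬ Alt3 H univ := fun ha => hnot (ha.hom inv_univ (by rw [card_univ]; omega) t)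
  refine core h hn (by omega) (ht₁ _ (by omega)) (k := k) (i := i)
    (fun K R h1 h2 h3 h4 => hk₀ k (by omega) α K R h1 h2 h3 (by omega)) (by omega) hki (by omega)
    (by omega) hH hi hna ?_
  by_contra hc
  exact hna (hk₀ k (by omega) α H univ inv_univ (hH k (by omega)) (by rw [card_univ]; omega)
    (by rw [card_univ]; omega))

end Pool.Agent.H5Hom
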