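import Pool.Agent.Lib.MP_078193_al.H5Up

/-! Minimal degree, cycles, and the Babai-Seress argument. -/

open Finset Equiv
open scoped Pointwise

set_option linter.unusedSectionVars false

namespace Pool.Agent.H5Hom

variable {α : Type} [Fintype α] [DecidableEq α] {H : Subgroup (Perm α)} {Ω : Finset α}

/-- moved points inside `Ω` -/
def supp (Ω : Finset α) (h : Perm α) : Finset α := Ω.filter (fun x => h x ≠ x)

lemma mem_supp {h : Perm α} {x : α} : x ∈ supp Ω h ↔ x ∈ Ω ∧ h x ≠ x := mem_filter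

lemma apply_mem_supp (hi : Inv H Ω) {h : Perm α} (hh : h ∈ H) {x : α} (hx : x ∈ supp Ω h) :
    h x ∈ supp Ω h :=
  mem_supp.2 ⟨hi h hh x (mem_supp.1 hx).1, fun h' => (mem_supp.1 hx).2 (h.injective h')⟩

lemma alt3_of_small (hi : Inv H Ω) (ht : Tr H Ω 3) (h3 : 3 ≤ Ω.card) {h : Perm α} (hh : h ∈ H)
    (hne : (supp Ω h).Nonempty) (hd : (supp Ω h).card ≤ 3) : Alt3 H Ω := by
  obtain ⟨a, ha⟩ := hne
  have hb := apply_mem_supp hi hh ha
  have hab : h a ≠ a := (mem_supp.1 ha).2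
  obtain ⟨T, hT1, hT2, hT3⟩ := exists_subsuperset_card_eq (s := supp Ω h) (t := Ω)
    (filter_subset _ _) hd h3
  have hc : ((T.erase a).erase (h a)).card = 1 := by
    rw [card_erase_of_mem (mem_erase.2 ⟨hab, hT1 hb⟩), card_erase_of_mem (hT1 ha), hT3]
  obtain ⟨c, hc⟩ := card_eq_one.1 hc
  have hc' : c ∈ (T.erase a).erase (h a) := hc ▸ mem_singleton_self c
  simp only [mem_erase] at hc'
  intro u hu v hv z hz huv huz hvz
  obtain ⟨g, hg, hg'⟩ := ht.family (β := Fin 3) (by simp) (u := ![a, h a, c]) (v := ![u, v, z])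
    (by
      intro i j hij
      fin_cases i <;> fin_cases j <;> simp_all [eq_comm])
    (by
      intro i j hij
      fin_cases i <;> fin_cases j <;> simp_all [eq_comm])
    (by
      intro i
      fin_cases i
      · exact hT2 (hT1 ha)
      · exact hT2 (hT1 hb)
      · exact hT2 hc'.2.2)
    (by
      intro i
      fin_cases i
      · exact hu
      · exact hv
      · exact hz)
  have e0 : g a = u := hg' 0
  have e1 : g (h a) = v := hg' 1
  have e2 : g c = z := hg' 2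
  refine ⟨g * h * g⁻¹, H.mul_mem (H.mul_mem hg hh) (H.inv_mem hg), by simp [← e0, e1], ?_⟩
  intro x hx hxu hxv hxz
  have hy : g⁻¹ x ∈ Ω := hi _ (H.inv_mem hg) x hx
  have : h (g⁻¹ x) = g⁻¹ x := by
    by_contra hne
    have h1 := hT1 (mem_supp.2 ⟨hy, hne⟩)
    have h2 : g⁻¹ x ∈ (T.erase a).erase (h a) := by
      refine mem_erase.2 ⟨fun h' => hxv ?_, mem_erase.2 ⟨fun h' => hxu ?_, h1⟩⟩
      · rw [← e1, ← h']; simp
      · rw [← e0, ← h']; simp
    rw [hc, mem_singleton] at h2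
    exact hxz (by rw [← e2, ← h2]; simp)
  rw [Perm.mul_apply, Perm.mul_apply, this]
  simp

lemma supp_comm (hi : Inv H Ω) {a b : Perm α} (ha : a ∈ H) (hb : b ∈ H) :
    (supp Ω (a * b * a⁻¹ * b⁻¹)).card ≤ 3 * (supp Ω a ∩ supp Ω b).card := by
  set I := supp Ω a ∩ supp Ω b
  have : supp Ω (a * b * a⁻¹ * b⁻¹) ⊆ I ∪ a • I ∪ b • I := by
    intro x hx
    obtain ⟨hx, hx'⟩ := mem_supp.1 hx
    by_contra hc
    simp only [mem_union, mem_smul, not_or, I, mem_inter, mem_supp, not_and, not_not] at hc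
    obtain ⟨⟨h1, h2⟩, h3⟩ := hc
    apply hx'
    simp only [Perm.mul_apply]
    by_cases hax : a x = x
    · by_cases hbx : b x = x
      · have e1 : a⁻¹ x = x := by rw [Perm.inv_eq_iff_eq, hax]
        have e2 : b⁻¹ x = x := by rw [Perm.inv_eq_iff_eq, hbx]
        rw [e2, e1, hbx, hax]
      · have hy := hi _ (H.inv_mem hb) x hx
        have e1 : a (b⁻¹ x) = b⁻¹ x := by
          by_contra h4
          have := h3 ⟨hy, h4⟩ hy
          rw [ap_inv] at this
          exact hbx (by conv_lhs => rw [this]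
                        simp)
        have e2 : a⁻¹ (b⁻¹ x) = b⁻¹ x := by rw [Perm.inv_eq_iff_eq, e1]
        rw [e2, ap_inv, hax]
    · have hbx : b x = x := h1 ⟨hx, hax⟩ hx
      have e2 : b⁻¹ x = x := by rw [Perm.inv_eq_iff_eq, hbx]
      have hy := hi _ (H.inv_mem ha) x hx
      have e1 : b (a⁻¹ x) = a⁻¹ x := by
        refine h2 ⟨hy, fun h4 => hax ?_⟩ hy
        rw [ap_inv] at h4
        conv_lhs => rw [h4]
        simp
      rw [e2, e1, ap_inv]
  have h1 := card_le_card this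
  have h2 := card_union_le (I ∪ a • I) (b • I)
  have h3 := card_union_le I (a • I)
  rw [card_smul] at h2 h3
  omega

theorem mindeg (hi : Inv H Ω) (ht : Tr H Ω 3) (h21 : 21 ≤ Ω.card) (hna : ¬ Alt3 H Ω)
    {h : Perm α} (hh : h ∈ H) (hne : (supp Ω h).Nonempty) : Ω.card < 5 * (supp Ω h).card := by
  induction hd : (supp Ω h).card using Nat.strong_induction_on generalizing h with
  | _ d ih =>
  by_contra hc
  have h4 : 4 ≤ d := by
    by_contra h4
    exact hna (alt3_of_small hi ht (by omega) hh hne (by omega))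
  obtain ⟨a, ha⟩ := hne
  have hb := apply_mem_supp hi hh ha
  have hab : h a ≠ a := (mem_supp.1 ha).2
  obtain ⟨z, hz, hz'⟩ := exists_mem_notMem_of_card_lt_card (s := supp Ω h) (t := Ω) (by omega)
  have haz : a ≠ z := fun h => hz' (h ▸ ha)
  set φ : α → α := Function.update id z (h a) with hφ
  have hS : ({z, a} : Finset α) ⊆ Ω := by
    intro x hx
    rcases mem_insert.1 hx with rfl | hx
    · exact hz
    · rw [mem_singleton.1 hx]; exact (mem_supp.1 ha).1
  have hSc : ({z, a} : Finset α).card = 2 := card_pair haz.symm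
  have hφa : φ a = a := by simp [hφ, haz]
  have hφz : φ z = h a := by simp [hφ]
  have hinj : Set.InjOn φ ({z, a} : Finset α) :=
    injOn_update (S := {a}) (Set.injOn_id _) (by simpa using haz.symm) (by simpa using hab.symm)
  have hmap : ∀ x ∈ ({z, a} : Finset α), φ x ∈ Ω := by
    intro x hx
    rcases mem_insert.1 hx with rfl | hx
    · rw [hφz]; exact (mem_supp.1 hb).1
    · rw [mem_singleton.1 hx, hφa]; exact (mem_supp.1 ha).1
  set C := cos H {z, a} φ with hC
  have hCne : C.Nonempty := ht.cos_nonempty hS (by omega) hinj hmap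
  have hlow : ∀ g ∈ C, d ≤ 3 * ((supp Ω h).filter (fun x => g x ∈ supp Ω h)).card := by
    intro g hg
    obtain ⟨hg, hg'⟩ := mem_cos.1 hg
    have e1 : g a = a := by rw [hg' a (by simp), hφa]
    have e2 : g z = h a := by rw [hg' z (by simp), hφz]
    have hbH : g * h * g⁻¹ ∈ H := H.mul_mem (H.mul_mem hg hh) (H.inv_mem hg)
    have h1 := supp_comm hi hh hbH
    have h2 : (supp Ω h ∩ supp Ω (g * h * g⁻¹)).card
        ≤ ((supp Ω h).filter (fun x => g x ∈ supp Ω h)).card := by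
      refine card_le_card_of_injOn (fun y => g⁻¹ y) ?_ (fun a _ b _ h => g⁻¹.injective h)
      intro y hy
      obtain ⟨hy1, hy2⟩ := mem_inter.1 (mem_coe.1 hy)
      refine mem_coe.2 (mem_filter.2 ⟨mem_supp.2 ⟨hi _ (H.inv_mem hg) y (mem_supp.1 hy1).1,
        fun h' => (mem_supp.1 hy2).2 ?_⟩, by simpa using hy1⟩)
      rw [Perm.mul_apply, Perm.mul_apply, h']
      simp
    by_contra hlt
    have hfix : h z = z := by
      by_contra h'
      exact hz' (mem_supp.2 ⟨hz, h'⟩)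
    have e3 : (g * h * g⁻¹)⁻¹ (h a) = h a := by
      rw [Perm.inv_eq_iff_eq, ← e2]
      simp [hfix]
    have := ih _ (by omega) (H.mul_mem (H.mul_mem (H.mul_mem hh hbH) (H.inv_mem hh))
      (H.inv_mem hbH)) ⟨h a, mem_supp.2 ⟨(mem_supp.1 hb).1, by
        rw [Perm.mul_apply, e3]
        have e4 : g⁻¹ a = a := by rw [Perm.inv_eq_iff_eq, e1]
        simp only [Perm.mul_apply, inv_ap, e4, ne_eq, EmbeddingLike.apply_eq_iff_eq]
        intro h'
        exact hab (g.injective (h'.trans e1.symm))⟩⟩ rfl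
    omega
  have hsum : ∑ g ∈ C, ((supp Ω h).filter (fun x => g x ∈ supp Ω h)).card
      = ∑ x ∈ supp Ω h, (C.filter (fun g => g x ∈ supp Ω h)).card := by
    simp only [card_filter]
    exact sum_comm
  have hY : (((supp Ω h).erase a).erase (h a)).card = d - 2 := by
    rw [card_erase_of_mem (mem_erase.2 ⟨hab, hb⟩), card_erase_of_mem ha, hd]
    omega
  have hx : ∀ x ∈ (supp Ω h).erase a,
      (Ω.card - 2) * (C.filter (fun g => g x ∈ supp Ω h)).card = (d - 2) * C.card := by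
    intro x hx
    obtain ⟨hxa, hx⟩ := mem_erase.1 hx
    have hxz : x ≠ z := fun h => hz' (h ▸ hx)
    have := ht.avg hi hS (by omega) hinj hmap (mem_supp.1 hx).1 (by simp [hxa, hxz])
      (Y := ((supp Ω h).erase a).erase (h a))
      ((erase_subset _ _).trans ((erase_subset _ _).trans (filter_subset _ _))) (by
        intro s hs
        rcases mem_insert.1 hs with rfl | hs
        · simp [hφz]
        · rw [mem_singleton.1 hs, hφa]; simp)
    rw [hSc, hY] at this
    rw [← this]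
    congr 2
    refine filter_congr fun g hg => ?_
    obtain ⟨hg, hg'⟩ := mem_cos.1 hg
    have e1 : g a = a := by rw [hg' a (by simp), hφa]
    have e2 : g z = h a := by rw [hg' z (by simp), hφz]
    simp only [mem_erase]
    refine ⟨fun h' => ⟨?_, ?_, h'⟩, fun h' => h'.2.2⟩
    · rw [← e2]; simpa using hxz
    · conv_rhs => rw [← e1]
      simpa using hxa
  have h5 : (Ω.card - 2) * ∑ x ∈ supp Ω h, (C.filter (fun g => g x ∈ supp Ω h)).card
      ≤ (Ω.card - 2) * C.card + (d - 1) * ((d - 2) * C.card) := by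
    rw [← add_sum_erase _ _ ha, mul_add, mul_sum, sum_congr rfl hx, sum_const,
      card_erase_of_mem ha, hd, smul_eq_mul]
    gcongr
    exact filter_subset _ _
  have h6 : C.card * d ≤ 3 * ∑ g ∈ C, ((supp Ω h).filter (fun x => g x ∈ supp Ω h)).card := by
    rw [mul_sum, ← smul_eq_mul, ← sum_const]
    exact sum_le_sum hlow
  rw [hsum] at h6
  have h7 : 0 < C.card := card_pos.2 hCne
  obtain ⟨e, rfl⟩ : ∃ e, d = e + 4 := ⟨d - 4, by omega⟩
  obtain ⟨m, hm⟩ : ∃ m, Ω.card = m + 2 := ⟨Ω.card - 2, by omega⟩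
  rw [hm] at h5 hc h21
  simp only [Nat.add_sub_cancel, show e + 4 - 1 = e + 3 by omega,
    show e + 4 - 2 = e + 2 by omega] at h5
  have h8 : C.card * (m * (e + 4)) ≤ C.card * (3 * (m + (e + 3) * (e + 2))) := by nlinarith
  have h9 := Nat.le_of_mul_le_mul_left h8 h7
  nlinarith

/-- cycle length -/
noncomputable def per (g : Perm α) (x : α) : ℕ := Function.minimalPeriod g x

lemma per_dvd {g : Perm α} {x : α} {m : ℕ} : (g ^ m) x = x ↔ per g x ∣ m := by
  rw [per, ← Function.isPeriodicPt_iff_minimalPeriod_dvd, Perm.coe_pow]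
  rfl

lemma per_pos (g : Perm α) (x : α) : 0 < per g x :=
  Function.minimalPeriod_pos_of_mem_periodicPts (g.injective.mem_periodicPts x)

lemma per_le (hi : Inv H Ω) {g : Perm α} (hg : g ∈ H) {x : α} (hx : x ∈ Ω) :
    per g x ≤ Ω.card := by
  rw [← card_range (per g x)]
  refine card_le_card_of_injOn (fun m => (g ^ m) x)
    (fun m _ => mem_coe.2 (hi _ (H.pow_mem hg m) x hx)) ?_
  intro a ha b hb hab
  simp only [Perm.coe_pow] at hab
  exact Function.iterate_injOn_Iio_minimalPeriod (by simpa [per] using ha)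
    (by simpa [per] using hb) hab

lemma Tr.cyc {τ : ℕ} (ht : Tr H Ω τ) {ι : Type} [Fintype ι] [DecidableEq ι] (L : ι → ℕ)
    (hL : ∀ i, 0 < L i) (h1 : ∑ i, L i ≤ τ) (h2 : ∑ i, L i ≤ Ω.card) :
    ∃ g ∈ H, ∃ w : ι → α, Function.Injective w ∧ (∀ i, w i ∈ Ω) ∧ ∀ i, per g (w i) = L i := by
  have : ∀ i, NeZero (L i) := fun i => ⟨(hL i).ne'⟩
  have hc : Fintype.card (Σ i, ZMod (L i)) = ∑ i, L i := by simp [ZMod.card]
  obtain ⟨u, hu, hu'⟩ := exists_family Ω (β := Σ i, ZMod (L i)) (by omega)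
  obtain ⟨g, hg, hg'⟩ := ht.family (β := Σ i, ZMod (L i)) (by omega) hu
    (v := fun b => u ⟨b.1, b.2 + 1⟩) (by
      rintro ⟨i, a⟩ ⟨j, b⟩ hab
      have := hu hab
      simp only [Sigma.mk.injEq] at this
      obtain ⟨rfl, h⟩ := this
      simpa using h) hu' (fun b => hu' _)
  have key : ∀ i (m : ℕ), (g ^ m) (u ⟨i, 0⟩) = u ⟨i, m⟩ := by
    intro i m
    induction m with
    | zero => simp
    | succ m ih => rw [pow_succ', Perm.mul_apply, ih, hg']; simp
  refine ⟨g, hg, fun i => u ⟨i, 0⟩, fun i j hij => congrArg Sigma.fst (hu hij),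
    fun i => hu' _, fun i => ?_⟩
  refine Nat.dvd_antisymm (per_dvd.1 (by rw [key]; simp)) ?_
  have := per_dvd.2 (dvd_refl (per g (u ⟨i, 0⟩)))
  rw [key] at this
  have := hu this
  simp only [Sigma.mk.injEq, heq_eq_eq, true_and] at this
  exact (ZMod.natCast_eq_zero_iff _ _).1 this

lemma card_dvd_le {P : Finset ℕ} {u K N : ℕ} (hu : 1 ≤ u) (hP : ∀ p ∈ P, p.Prime ∧ u < p)
    (hN : 0 < N) (hN' : N ≤ u ^ K) : (P.filter (· ∣ N)).card ≤ K := by
  have h1 : ∏ p ∈ P.filter (· ∣ N), p ∣ N :=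
    prod_primes_dvd N (fun p hp => (hP p (mem_filter.1 hp).1).1.prime)
      (fun p hp => (mem_filter.1 hp).2)
  have h2 : (u + 1) ^ (P.filter (· ∣ N)).card ≤ ∏ p ∈ P.filter (· ∣ N), p :=
    pow_card_le_prod _ _ _ (fun p hp => (hP p (mem_filter.1 hp).1).2)
  by_contra hc
  have h3 : (u + 1) ^ (K + 1) ≤ (u + 1) ^ (P.filter (· ∣ N)).card :=
    Nat.pow_le_pow_right (by omega) (by omega)
  have h4 := Nat.le_of_dvd hN h1
  have h5 : u ^ K ≤ (u + 1) ^ K := Nat.pow_le_pow_left (by omega) _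
  have h6 : 0 < (u + 1) ^ K := by positivity
  rw [pow_succ] at h3
  nlinarith

theorem babai_seress (hi : Inv H Ω) {τ u K : ℕ} (ht : Tr H Ω τ) (h3 : 3 ≤ τ) (hτ : τ ≤ Ω.card)
    (h21 : 21 ≤ Ω.card) (hu : 1 ≤ u) {P : Finset ℕ} (hP : ∀ p ∈ P, p.Prime ∧ u < p)
    (hPc : P.card = 5 * K + 1) (hPs : ∑ p ∈ P, p ≤ τ) (hν : Ω.card ≤ u ^ K) : Alt3 H Ω := by
  by_contra hna
  have hs : ∑ p : P, (p : ℕ) = ∑ p ∈ P, p := sum_coe_sort P (fun p => p)
  obtain ⟨g, hg, w, -, hw, hw'⟩ := ht.cyc (ι := P) (fun p => p) (fun p => (hP p p.2).1.pos)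
    (by omega) (by omega)
  have hsum : ∑ p ∈ P, (Ω.filter (fun x => p ∣ per g x)).card
      = ∑ x ∈ Ω, (P.filter (· ∣ per g x)).card := by
    simp only [card_filter]
    exact sum_comm
  have h1 : ∑ x ∈ Ω, (P.filter (· ∣ per g x)).card ≤ Ω.card * K := by
    rw [← smul_eq_mul, ← sum_const]
    exact sum_le_sum fun x hx => card_dvd_le hu hP (per_pos g x) ((per_le hi hg hx).trans hν)
  have h2 : ∀ p ∈ P, Ω.card ≤ 5 * (Ω.filter (fun x => p ∣ per g x)).card := by
    intro p hp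
    set e := ∏ x ∈ Ω.filter (fun x => ¬ p ∣ per g x), per g x with he
    have hpe : ¬ p ∣ e := by
      intro h
      obtain ⟨x, hx, hx'⟩ := (Prime.dvd_finsetProd_iff (hP p hp).1.prime _).1 h
      exact (mem_filter.1 hx).2 hx'
    have := mindeg hi (ht.mono h3) h21 hna (H.pow_mem hg e) ⟨w ⟨p, hp⟩, mem_supp.2 ⟨hw _, by
      rw [Ne, per_dvd, hw']; exact hpe⟩⟩
    have h3 : supp Ω (g ^ e) ⊆ Ω.filter (fun x => p ∣ per g x) := by
      intro x hx
      obtain ⟨hx, hx'⟩ := mem_supp.1 hx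
      refine mem_filter.2 ⟨hx, ?_⟩
      by_contra h
      exact hx' (per_dvd.2 (dvd_prod_of_mem _ (mem_filter.2 ⟨hx, h⟩)))
    have := card_le_card h3
    omega
  have h4 : P.card * Ω.card ≤ 5 * ∑ p ∈ P, (Ω.filter (fun x => p ∣ per g x)).card := by
    rw [mul_sum, ← smul_eq_mul, ← sum_const]
    exact sum_le_sum h2
  rw [hsum, hPc] at h4
  nlinarith

end Pool.Agent.H5Hom
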