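import Pool.Agent.Lib.MP_078193_al.H5Syl

/-! Large primes and orbit lengths. -/

open Finset Equiv
open scoped Pointwise

set_option linter.unusedSectionVars false

namespace Pool.Agent.H5Hom

variable {α : Type} [Fintype α] [DecidableEq α] {H : Subgroup (Perm α)}

/-- number of members of the orbit of `Y` containing `X` -/
noncomputable def up (H : Subgroup (Perm α)) (X Y : Finset α) : ℕ :=
  ((orb H Y).filter (X ⊆ ·)).card

/-- number of members of the orbit of `X` contained in `Y` -/
noncomputable def dn (H : Subgroup (Perm α)) (X Y : Finset α) : ℕ :=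
  ((orb H X).filter (· ⊆ Y)).card

lemma up_orb {X X' : Finset α} (h : X' ∈ orb H X) (Y : Finset α) : up H X' Y = up H X Y := by
  obtain ⟨g, hg, rfl⟩ := mem_orb.1 h
  refine card_bij' (fun Z _ => g⁻¹ • Z) (fun Z _ => g • Z) ?_ ?_ (by simp) (by simp)
  · intro Z hZ
    obtain ⟨h1, h2⟩ := mem_filter.1 hZ
    refine mem_filter.2 ⟨(smul_mem_orb (H.inv_mem hg)).2 h1, ?_⟩
    rw [← smul_subset_smul (g := g)]
    simpa using h2
  · intro Z hZ
    obtain ⟨h1, h2⟩ := mem_filter.1 hZ
    exact mem_filter.2 ⟨(smul_mem_orb hg).2 h1, smul_subset_smul.2 h2⟩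

lemma dn_orb (X : Finset α) {Y Y' : Finset α} (h : Y' ∈ orb H Y) : dn H X Y' = dn H X Y := by
  obtain ⟨g, hg, rfl⟩ := mem_orb.1 h
  refine card_bij' (fun Z _ => g⁻¹ • Z) (fun Z _ => g • Z) ?_ ?_ (by simp) (by simp)
  · intro Z hZ
    obtain ⟨h1, h2⟩ := mem_filter.1 hZ
    refine mem_filter.2 ⟨(smul_mem_orb (H.inv_mem hg)).2 h1, ?_⟩
    rw [← smul_subset_smul (g := g)]
    simpa using h2
  · intro Z hZ
    obtain ⟨h1, h2⟩ := mem_filter.1 hZ
    exact mem_filter.2 ⟨(smul_mem_orb hg).2 h1, smul_subset_smul.2 h2⟩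

lemma sum_dn (X : Finset α) (L : Finset (Finset α)) :
    ∑ Y ∈ L, dn H X Y = ∑ X' ∈ orb H X, (L.filter (X' ⊆ ·)).card := by
  simp only [dn, card_filter]
  exact sum_comm

lemma double_count (X Y : Finset α) :
    (orb H X).card * up H X Y = (orb H Y).card * dn H X Y := by
  rw [← smul_eq_mul, ← sum_const, ← smul_eq_mul, ← sum_const,
    ← sum_congr rfl (fun Y' hY' => dn_orb X hY'), sum_dn]
  exact sum_congr rfl fun X' hX' => (up_orb hX' Y).symm

lemma dn_le (X Y : Finset α) : dn H X Y ≤ Y.card.choose X.card := by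
  rw [← card_powersetCard]
  refine card_le_card fun Z hZ => ?_
  obtain ⟨h1, h2⟩ := mem_filter.1 hZ
  exact mem_powersetCard.2 ⟨h2, card_of_mem_orb h1⟩

lemma HH.dn_pos {t : ℕ} (h : HH H t) {A C : Finset α} (hA : A.card = t) (hC : C.card = t + 1) :
    0 < dn H A C := by
  obtain ⟨g, hg, hg'⟩ := h A C hA hC
  exact card_pos.2 ⟨g • A, mem_filter.2 ⟨mem_orb.2 ⟨g, hg, rfl⟩, hg'⟩⟩

lemma orb_pos (A : Finset α) : 0 < (orb H A).card := card_pos.2 ⟨A, self_mem_orb A⟩

lemma card_sup (X : Finset α) {j : ℕ} (hj : X.card ≤ j) :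
    ((powersetCard j univ).filter (X ⊆ ·)).card
      = (Fintype.card α - X.card).choose (j - X.card) := by
  rw [card_filter_powersetCard_subset X univ j (subset_univ _) hj, card_univ]

lemma dvd_sum_orb {t D : ℕ} (g : Finset α → ℕ) (hg : ∀ A B, B ∈ orb H A → g B = g A)
    (h : ∀ A : Finset α, A.card = t → D ∣ (orb H A).card * g A) :
    D ∣ ∑ A ∈ powersetCard t univ, g A := by
  rw [← sum_fiberwise_of_maps_to (g := orb H) (t := (powersetCard t univ).image (orb H))
    (fun x hx => mem_image_of_mem _ hx)]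
  refine dvd_sum fun O hO => ?_
  obtain ⟨A, hA, rfl⟩ := mem_image.1 hO
  have : (powersetCard t univ).filter (fun B => orb H B = orb H A) = orb H A := by
    ext Z
    simp only [mem_filter, mem_lev, orb_eq_iff]
    exact ⟨fun h => h.2, fun h => ⟨(card_of_mem_orb h).trans (mem_lev.1 hA), h⟩⟩
  rw [this, sum_congr rfl (fun B hB => hg A B hB), sum_const, smul_eq_mul]
  exact h A (mem_lev.1 hA)

/-- the auxiliary integer attached to an orbit of smaller sets -/
lemma HH.exists_u {t : ℕ} (h : HH H t) (hn : t + 1 ≤ Fintype.card α) {I : Finset α}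
    (hI : I.card ≤ t) : ∃ u : ℕ, 0 < u ∧ u ≤ (t + 1) * 2 ^ t * Fintype.card α ^ nr H t ∧
      ∀ p : ℕ, p.Prime → t + 1 < p → (∃ A : Finset α, A.card = t ∧
        (orb H A).card.factorization p ≤ (orb H I).card.factorization p) →
        ((Fintype.card α - I.card).choose (t - I.card)).factorization p ≤ u.factorization p := by
  obtain ⟨C, -, hC⟩ := exists_subset_card_eq (s := (univ : Finset α)) (n := t + 1)
    (by rwa [card_univ])
  set B := ∏ v ∈ (powersetCard t univ).image (fun A => up H A C), v with hB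
  have hu : ∀ A : Finset α, A.card = t → up H A C ≠ 0 := by
    intro A hA h0
    have := double_count (H := H) A C
    rw [h0, mul_zero] at this
    exact (mul_pos (orb_pos C) (h.dn_pos hA hC)).ne this
  have hB0 : B ≠ 0 := prod_ne_zero_iff.2 fun v hv => by
    obtain ⟨A, hA, rfl⟩ := mem_image.1 hv
    exact hu A (mem_lev.1 hA)
  have hB1 : ∀ A : Finset α, A.card = t → up H A C ∣ B := fun A hA =>
    dvd_prod_of_mem _ (mem_image_of_mem _ (mem_lev.2 hA))
  have hB2 : B ≤ Fintype.card α ^ nr H t := by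
    refine (prod_le_pow_card _ _ (Fintype.card α) fun v hv => ?_).trans
      (Nat.pow_le_pow_right (by omega) (card_image_le_nr _ fun A B h => up_orb h C))
    obtain ⟨A, hA, rfl⟩ := mem_image.1 hv
    have h1 := card_sup A (j := t + 1) (by rw [mem_lev.1 hA]; omega)
    rw [mem_lev.1 hA, Nat.add_sub_cancel_left, Nat.choose_one_right] at h1
    refine le_trans (card_le_card fun Z hZ => ?_) (h1.le.trans (Nat.sub_le _ _))
    obtain ⟨h2, h3⟩ := mem_filter.1 hZ
    exact mem_filter.2 ⟨mem_lev.2 ((card_of_mem_orb h2).trans hC), h3⟩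
  set c := (Fintype.card α - I.card).choose (t - I.card) with hc
  have hc0 : c ≠ 0 := (Nat.choose_pos (by omega)).ne'
  have e1 : ∑ A ∈ powersetCard t univ, dn H I A = (orb H I).card * c := by
    rw [sum_dn, ← smul_eq_mul, ← sum_const]
    refine sum_congr rfl fun I' hI' => ?_
    rw [card_sup I' (by rw [card_of_mem_orb hI']; exact hI), card_of_mem_orb hI']
  have e2 : (orb H C).card ∣ (orb H I).card * c * B := by
    rw [← e1, sum_mul]
    refine dvd_sum_orb _ (fun A A' hA => by rw [dn_orb I hA]) fun A hA => ?_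
    obtain ⟨w, hw⟩ := hB1 A hA
    refine ⟨dn H A C * dn H I A * w, ?_⟩
    rw [hw]
    calc _ = ((orb H A).card * up H A C) * (dn H I A * w) := by ring
      _ = _ := by rw [double_count]; ring
  obtain ⟨u, hu'⟩ := e2
  have e3 : (powersetCard t (univ : Finset α)).card ≤ (orb H C).card * (t + 1) := by
    refine le_trans (card_le_card (t := (orb H C).biUnion (powersetCard t)) fun A hA => ?_)
      (card_biUnion_le_card_mul _ _ _ fun Z hZ => ?_)
    · obtain ⟨Z, hZ⟩ := card_pos.1 (Nat.pos_of_ne_zero (hu A (mem_lev.1 hA)))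
      obtain ⟨h2, h3⟩ := mem_filter.1 hZ
      exact mem_biUnion.2 ⟨Z, h2, mem_powersetCard.2 ⟨h3, mem_lev.1 hA⟩⟩
    · rw [card_powersetCard, card_of_mem_orb hZ, hC, Nat.choose_succ_self_right]
  have e4 : (orb H I).card * c ≤ (powersetCard t (univ : Finset α)).card * 2 ^ t := by
    rw [← e1, ← smul_eq_mul]
    refine sum_le_card_nsmul _ _ _ fun A hA => (dn_le I A).trans ?_
    rw [mem_lev.1 hA]
    exact Nat.choose_le_two_pow _ _
  have hu0 : u ≠ 0 := by
    rintro rfl
    exact mul_ne_zero (mul_ne_zero (orb_pos I).ne' hc0) hB0 hu'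
  refine ⟨u, Nat.pos_of_ne_zero hu0, ?_, ?_⟩
  · refine Nat.le_of_mul_le_mul_left ?_ (orb_pos (H := H) C)
    calc _ = (orb H I).card * c * B := hu'.symm
      _ ≤ ((orb H C).card * (t + 1) * 2 ^ t) * Fintype.card α ^ nr H t :=
        Nat.mul_le_mul (e4.trans (Nat.mul_le_mul_right _ e3)) hB2
      _ = _ := by ring
  · rintro p hp hpt ⟨A, hA, hA'⟩
    have e5 := congrArg (fun m => m.factorization p) hu'
    have e6 := congrArg (fun m => m.factorization p) (double_count (H := H) A C)
    have e7 := (Nat.factorization_le_iff_dvd (hu A hA) hB0).2 (hB1 A hA) p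
    have e8 : (dn H A C).factorization p = 0 := by
      have h1 := dn_le (H := H) A C
      rw [hA, hC, Nat.choose_succ_self_right] at h1
      exact Nat.factorization_eq_zero_of_lt (by omega)
    simp only [Nat.factorization_mul (mul_ne_zero (orb_pos I).ne' hc0) hB0,
      Nat.factorization_mul (orb_pos I).ne' hc0, Nat.factorization_mul (orb_pos C).ne' hu0,
      Nat.factorization_mul (orb_pos A).ne' (hu A hA),
      Nat.factorization_mul (orb_pos C).ne' (h.dn_pos hA hC).ne', Finsupp.add_apply] at e5 e6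
    omega

lemma fact_orb_st (p : ℕ) (A : Finset α) :
    (orb H A).card.factorization p + (Nat.card (st H A)).factorization p
      = (Nat.card H).factorization p := by
  rw [← orb_mul_st H A, Nat.factorization_mul (orb_pos A).ne' Nat.card_pos.ne']
  rfl

lemma le_st_of_fixs {Q : Subgroup (Perm α)} (hQ : Q ≤ H) {A : Finset α} (hA : A ⊆ fixs Q) :
    Q ≤ st H A := by
  intro g hg
  refine mem_st.2 ⟨hQ hg, ?_⟩
  rw [smul_eq_image, image_congr (g := id) (fun y hy => mem_fixs.1 (hA hy) g hg), image_id]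

lemma exc_fixs {t p : ℕ} (hp : p.Prime) (hpt : t < p) {I : Finset α} (hI : I.card ≤ t)
    (he : ∀ A : Finset α, A.card = t →
      (orb H I).card.factorization p < (orb H A).card.factorization p) :
    ∃ Q, Syl p H Q ∧ I ⊆ fixs Q ∧ (fixs Q).card < t := by
  obtain ⟨P, hP⟩ := exists_syl' hp (st H I)
  have hPH : P ≤ H := hP.1.trans inf_le_left
  obtain ⟨Q, hQ, hQ'⟩ := exists_syl hp hPH hP.2
  have h1 : I ⊆ fixs P := subset_fixs hp hP.2 ((inv_st I).mono hP.1) (by omega)
  have h2 : (fixs P).card < t := by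
    by_contra hc
    obtain ⟨A, hA, hA'⟩ := exists_subset_card_eq (s := fixs P) (n := t) (by omega)
    have h3 := Subgroup.card_dvd_of_le (le_st_of_fixs hPH hA)
    rw [hP.2, hp.pow_dvd_iff_le_factorization Nat.card_pos.ne'] at h3
    have := he A hA'
    have := fact_orb_st (H := H) p A
    have := fact_orb_st (H := H) p I
    omega
  have h3 : fixs Q ⊆ fixs P := fun x hx => mem_fixs.2 fun g hg => mem_fixs.1 hx g (hQ hg)
  have h4 := card_le_card h3
  have h5 := dvd_sub_fixs hp hP.2
  have h6 := dvd_sub_fixs hp hQ'.2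
  have h7 := card_le_univ (fixs P)
  have h8 := Nat.dvd_sub h6 h5
  have h9 := Nat.eq_zero_of_dvd_of_lt h8 (by omega)
  have h10 : fixs Q = fixs P := eq_of_subset_of_card_le h3 (by omega)
  exact ⟨Q, hQ', h10 ▸ h1, h10 ▸ h2⟩

/-- small invariant sets carrying a `k`-homogeneous group carry the alternating group -/
def Small (α : Type) [Fintype α] [DecidableEq α] (k t : ℕ) : Prop :=
  ∀ (K : Subgroup (Perm α)) (R : Finset α), Inv K R → Hom K R k → 2 * k ≤ R.card →
    R.card ≤ t → Alt3 K R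

lemma binom_bound {N m y U : ℕ} (hm : m ≤ N) (hN : 0 < N) (hU : 0 < U)
    (h : ∀ p : ℕ, p.Prime → y < p → p ∣ N.choose m →
      (N.choose m).factorization p ≤ U.factorization p) :
    (N + 1 - m) ^ m ≤ m ^ m * (N ^ (Nat.primesLE y).card * U) := by
  have hc : N.choose m ≠ 0 := (Nat.choose_pos hm).ne'
  set W := ∏ p ∈ Nat.primesLE y, p ^ (N.choose m).factorization p with hW
  have hW0 : W ≠ 0 := prod_ne_zero_iff.2 fun p hp =>
    pow_ne_zero _ (Nat.prime_of_mem_primesLE hp).ne_zero
  have h1 : N.choose m ∣ W * U := by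
    rw [← Nat.factorization_prime_le_iff_dvd hc (mul_ne_zero hW0 hU.ne')]
    intro p hp
    rw [Nat.factorization_mul hW0 hU.ne', Finsupp.add_apply]
    by_cases hpy : p ≤ y
    · have := (hp.pow_dvd_iff_le_factorization hW0).1
        (dvd_prod_of_mem _ (Nat.mem_primesLE.2 ⟨hpy, hp⟩))
      omega
    · by_cases hd : p ∣ N.choose m
      · have := h p hp (by omega) hd
        omega
      · rw [Nat.factorization_eq_zero_of_not_dvd hd]
        omega
  have h2 : W ≤ N ^ (Nat.primesLE y).card :=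
    prod_le_pow_card _ _ _ fun p _ => Nat.pow_factorization_choose_le hN
  calc (N + 1 - m) ^ m ≤ N.descFactorial m := Nat.pow_sub_le_descFactorial N m
    _ = m.factorial * N.choose m := Nat.descFactorial_eq_factorial_mul_choose N m
    _ ≤ m ^ m * (W * U) := Nat.mul_le_mul (Nat.factorial_le_pow m)
        (Nat.le_of_dvd (Nat.pos_of_ne_zero (mul_ne_zero hW0 hU.ne')) h1)
    _ ≤ _ := by gcongr

lemma prime_dvd_choose {N m p : ℕ} (hp : p.Prime) (h : p ∣ N.choose m) :
    ∃ s < m, p ∣ N - s := by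
  have h1 : p ∣ N.descFactorial m := by
    rw [Nat.descFactorial_eq_factorial_mul_choose]; exact h.mul_left _
  rw [Nat.descFactorial_eq_prod_range] at h1
  obtain ⟨s, hs, hs'⟩ := (Prime.dvd_finsetProd_iff hp.prime _).1 h1
  exact ⟨s, mem_range.1 hs, hs'⟩

theorem padic_main {t k i : ℕ} (h : HH H t) (hn : 2 * t + 2 ≤ Fintype.card α)
    (hs : Small α k t) (hk : Hom H univ k) (hki : 2 * k ≤ i) (h3 : 3 ≤ i) (hit : i ≤ t)
    (hi : ¬ Hom H univ i) :
    (Fintype.card α - t) ^ (t - i) ≤ t ^ t * (Fintype.card α ^ (Nat.primesLE (t + 1)).card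
      * ((t + 1) * 2 ^ t * Fintype.card α ^ nr H t) ^ 2) := by
  unfold Hom at hi
  push Not at hi
  obtain ⟨I₁, -, I₂, -, h1, h2, h12⟩ := hi
  obtain ⟨u₁, hu₁, hu₁', hu₁''⟩ := h.exists_u (by omega) (I := I₁) (by omega)
  obtain ⟨u₂, hu₂, hu₂', hu₂''⟩ := h.exists_u (by omega) (I := I₂) (by omega)
  rw [h1] at hu₁''
  rw [h2] at hu₂''
  have := binom_bound (N := Fintype.card α - i) (m := t - i) (y := t + 1) (U := u₁ * u₂)
    (by omega) (by omega) (mul_pos hu₁ hu₂) (by
      intro p hp hpt hd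
      rw [Nat.factorization_mul hu₁.ne' hu₂.ne', Finsupp.add_apply]
      by_contra hc
      have e1 : ∀ A : Finset α, A.card = t →
          (orb H I₁).card.factorization p < (orb H A).card.factorization p := by
        intro A hA
        by_contra hc'
        have := hu₁'' p hp hpt ⟨A, hA, by omega⟩
        omega
      have e2 : ∀ A : Finset α, A.card = t →
          (orb H I₂).card.factorization p < (orb H A).card.factorization p := by
        intro A hA
        by_contra hc'
        have := hu₂'' p hp hpt ⟨A, hA, by omega⟩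
        omega
      obtain ⟨Q₁, hQ₁, hI₁, hc₁⟩ := exc_fixs hp (by omega) (by omega) e1
      obtain ⟨Q₂, hQ₂, hI₂, -⟩ := exc_fixs hp (by omega) (by omega) e2
      obtain ⟨g, hg, hg'⟩ := hQ₂.conj hp hQ₁
      have e3 := card_le_card hI₁
      obtain ⟨g', hg1, hg2⟩ := (hs _ _ (inv_st _) (witt hp hQ₁ hk) (by omega) hc₁.le).hom
        (inv_st _) (by omega) i I₁ hI₁ (g • I₂) (by
          rw [fixs_conj hg']; exact smul_subset_smul.2 hI₂) h1 (by rw [card_smul, h2])
      exact h12 (g⁻¹ * g') (H.mul_mem (H.inv_mem hg) (mem_st.1 hg1).1)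
        (by rw [mul_smul, hg2, inv_smul_smul]))
  calc _ ≤ (Fintype.card α - i + 1 - (t - i)) ^ (t - i) := Nat.pow_le_pow_left (by omega) _
    _ ≤ _ := this
    _ ≤ _ := by
      rw [sq]
      gcongr <;> omega

lemma tr_of_alt {R : Finset α} (hR : Alt3 (st H R) R) (hH : ∀ j ≤ R.card, Hom H univ j) :
    Tr H univ (R.card - 2) := by
  intro S _ hS φ hφ _
  obtain ⟨A, hA, hA'⟩ := exists_subset_card_eq (s := R) (n := S.card) (by omega)
  obtain ⟨g₁, hg₁, hg₁'⟩ := hH S.card (by omega) S (subset_univ _) A (subset_univ _) rfl hA'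
  obtain ⟨g₂, hg₂, hg₂'⟩ := hH S.card (by omega) (S.image φ) (subset_univ _) A (subset_univ _)
    (card_image_of_injOn hφ) hA'
  obtain ⟨g, hg, hg'⟩ := hR.tr (inv_st R) A hA (by omega) (fun x => g₂ (φ (g₁⁻¹ x))) (by
      intro a ha b hb hab
      rw [← hg₁'] at ha hb
      exact g₁⁻¹.injective (hφ (mem_smul.1 ha) (mem_smul.1 hb) (g₂.injective hab))) (by
      intro a ha
      rw [← hg₁'] at ha
      apply hA
      rw [← hg₂']
      exact apply_mem_smul.2 (mem_image_of_mem _ (mem_smul.1 ha)))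
  refine ⟨g₂⁻¹ * g * g₁, H.mul_mem (H.mul_mem (H.inv_mem hg₂) (mem_st.1 hg).1) hg₁,
    fun x hx => ?_⟩
  rw [Perm.mul_apply, Perm.mul_apply, hg' _ (hg₁' ▸ apply_mem_smul.2 hx), inv_ap, inv_ap]

theorem tr_main {t k a m : ℕ} (hn : 2 * t + 2 ≤ Fintype.card α) (hs : Small α k t)
    (hH : ∀ j ≤ a + m, Hom H univ j) (hka : 2 * k ≤ a) (ham : a + m ≤ t)
    (hm : t ^ t * Fintype.card α ^ (Nat.primesLE (t + 1)).card < (Fintype.card α - t) ^ m) :
    Tr H univ (a - 2) := by
  have hex : ∃ p : ℕ, p.Prime ∧ t + 1 < p ∧ p ∣ (Fintype.card α - a).choose m := by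
    by_contra hc
    push Not at hc
    have := binom_bound (N := Fintype.card α - a) (m := m) (y := t + 1) (U := 1)
      (by omega) (by omega) one_pos (fun p hp hpt hd => absurd hd (hc p hp hpt))
    have ht : 0 < t := by
      rcases Nat.eq_zero_or_pos t with rfl | ht
      · obtain rfl : m = 0 := by omega
        simp at hm
      · exact ht
    refine absurd hm (not_lt.2 ?_)
    calc _ ≤ (Fintype.card α - a + 1 - m) ^ m := Nat.pow_le_pow_left (by omega) _
      _ ≤ _ := this
      _ ≤ _ := by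
        rw [mul_one]
        gcongr <;> omega
  obtain ⟨p, hp, hpt, hd⟩ := hex
  obtain ⟨s, hs1, hs2⟩ := prime_dvd_choose hp hd
  obtain ⟨Q, hQ⟩ := exists_syl' hp H
  have h1 : (fixs Q).card ≤ a + s := by
    by_contra hc
    obtain ⟨A, hA, hA'⟩ := exists_subset_card_eq (s := fixs Q) (n := a + s + 1) (by omega)
    have h3 := Subgroup.card_dvd_of_le (le_st_of_fixs hQ.1 hA)
    rw [hQ.2, hp.pow_dvd_iff_le_factorization Nat.card_pos.ne'] at h3
    have h4 := fact_orb_st (H := H) p A
    rw [(hH _ (by omega)).orb_eq inv_univ (subset_univ _) hA', card_powersetCard, card_univ] at h4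
    have h5 : p ∣ (Fintype.card α).choose (a + s + 1) := by
      have h6 : p ∣ (Fintype.card α).descFactorial (a + s + 1) := by
        rw [Nat.descFactorial_succ]
        exact Dvd.dvd.mul_right (by rwa [← Nat.sub_sub]) _
      rw [Nat.descFactorial_eq_factorial_mul_choose] at h6
      rcases (Nat.Prime.dvd_mul hp).1 h6 with h7 | h7
      · have := hp.dvd_factorial.1 h7
        omega
      · exact h7
    have := hp.factorization_pos_of_dvd (Nat.choose_pos (by omega)).ne' h5
    omega
  have h2 := Nat.dvd_sub (dvd_sub_fixs hp hQ.2) hs2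
  have h3 := Nat.eq_zero_of_dvd_of_lt h2 (by omega)
  have h4 : (fixs Q).card = a + s := by omega
  refine (tr_of_alt (hs _ _ (inv_st _) (witt hp hQ (hH k (by omega))) (by omega) (by omega))
    (fun j hj => hH j (by omega))).mono (by omega)

end Pool.Agent.H5Hom
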