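import Pool.Agent.Lib.MP_078193_al.H5Main

/-! Finite hypergraph Ramsey theorem and the statement for large degree. -/

open Finset Equiv
open scoped Pointwise

set_option linter.unusedSectionVars false

namespace Pool.Agent.H5Hom

/-- all `t`-subsets of `S` have the property `c` -/
def Mono {α : Type} (t : ℕ) (c : Finset α → Prop) (S : Finset α) : Prop :=
  ∀ A ⊆ S, A.card = t → c A

/-- the Ramsey property -/
def Ram (t a b N : ℕ) : Prop :=
  ∀ (α : Type) [DecidableEq α] (Ω : Finset α) (c : Finset α → Prop), N ≤ Ω.card →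
    (∃ S ⊆ Ω, S.card = a ∧ Mono t c S) ∨ (∃ S ⊆ Ω, S.card = b ∧ Mono t (fun A => ¬ c A) S)

lemma Mono.ins {α : Type} [DecidableEq α] {t : ℕ} {c : Finset α → Prop} {S T : Finset α} {x : α}
    (h : Mono t (fun A => c (insert x A)) S) (hT : T ⊆ S) (h' : Mono (t + 1) c T) :
    Mono (t + 1) c (insert x T) := by
  intro A hA hc
  by_cases hx : x ∈ A
  · have := h (A.erase x) (fun y hy => hT (by
      have := mem_insert.1 (hA (mem_of_mem_erase hy))
      exact this.resolve_left (ne_of_mem_erase hy))) (by rw [card_erase_of_mem hx, hc]; rfl)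
    simpa only [insert_erase hx] using this
  · exact h' A ((subset_insert_iff_of_notMem hx).1 hA) hc

theorem ramsey (t : ℕ) : ∀ a b, ∃ N, Ram t a b N := by
  induction t with
  | zero =>
    intro a b
    refine ⟨a + b, fun α _ Ω c hN => ?_⟩
    by_cases hc : c ∅
    · obtain ⟨S, hS, hS'⟩ := exists_subset_card_eq (s := Ω) (n := a) (by omega)
      exact Or.inl ⟨S, hS, hS', fun A _ hA => by rwa [card_eq_zero.1 hA]⟩
    · obtain ⟨S, hS, hS'⟩ := exists_subset_card_eq (s := Ω) (n := b) (by omega)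
      exact Or.inr ⟨S, hS, hS', fun A _ hA => by rwa [card_eq_zero.1 hA]⟩
  | succ t ih =>
    have h0 : ∀ (α : Type) (c : Finset α → Prop), Mono (t + 1) c ∅ := fun α c A hA hc => by
      rw [subset_empty.1 hA] at hc; simp at hc
    intro a
    induction a with
    | zero => exact fun b => ⟨0, fun α _ Ω c _ => Or.inl ⟨∅, empty_subset _, rfl, h0 _ _⟩⟩
    | succ a iha =>
      intro b
      induction b with
      | zero => exact ⟨0, fun α _ Ω c _ => Or.inr ⟨∅, empty_subset _, rfl, h0 _ _⟩⟩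
      | succ b ihb =>
        obtain ⟨N₁, h₁⟩ := iha (b + 1)
        obtain ⟨N₂, h₂⟩ := ihb
        obtain ⟨N, hN⟩ := ih N₁ N₂
        refine ⟨N + 1, fun α _ Ω c hΩ => ?_⟩
        obtain ⟨x, hx⟩ := card_pos.1 (show 0 < Ω.card by omega)
        have key : ∀ S ⊆ Ω.erase x, ∀ T ⊆ S, insert x T ⊆ Ω ∧ (insert x T).card = T.card + 1 :=
          fun S hS T hT => ⟨insert_subset hx (hT.trans (hS.trans (erase_subset _ _))),
            card_insert_of_notMem fun h => notMem_erase x Ω (hS (hT h))⟩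
        rcases hN α (Ω.erase x) (fun A => c (insert x A))
          (by rw [card_erase_of_mem hx]; omega) with ⟨S, hS, hS', hm⟩ | ⟨S, hS, hS', hm⟩
        · rcases h₁ α S c hS'.ge with ⟨T, hT, hT', hm'⟩ | ⟨T, hT, hT', hm'⟩
          · exact Or.inl ⟨_, (key S hS T hT).1, by rw [(key S hS T hT).2, hT'], hm.ins hT hm'⟩
          · exact Or.inr ⟨T, hT.trans (hS.trans (erase_subset _ _)), hT', hm'⟩
        · rcases h₂ α S c hS'.ge with ⟨T, hT, hT', hm'⟩ | ⟨T, hT, hT', hm'⟩
          · exact Or.inl ⟨T, hT.trans (hS.trans (erase_subset _ _)), hT', hm'⟩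
          · exact Or.inr ⟨_, (key S hS T hT).1, by rw [(key S hS T hT).2, hT'],
              Mono.ins (c := fun A => ¬ c A) hm hT hm'⟩

lemma hom_of_ram {α : Type} [Fintype α] [DecidableEq α] {H : Subgroup (Perm α)} {t N : ℕ}
    (hR : Ram t (t + 1) (t + 1) N) (hN : N ≤ Fintype.card α) (h : HH H t) : Hom H univ t := by
  intro A _ B _ hA hB
  rcases hR α univ (fun C => C ∈ orb H A) (by rwa [card_univ]) with
    ⟨S, -, hS, hm⟩ | ⟨S, -, hS, hm⟩
  · obtain ⟨g, hg, hg'⟩ := h B S hB hS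
    exact mem_orb.1 ((smul_mem_orb hg).1 (hm _ hg' (by rw [card_smul_finset, hB])))
  · obtain ⟨g, hg, hg'⟩ := h A S hA hS
    exact absurd (mem_orb.2 ⟨g, hg, rfl⟩) (hm _ hg' (by rw [card_smul_finset, hA]))

theorem main_degree : ∃ N : ℕ, ∀ (α : Type) [Fintype α] [DecidableEq α]
    (H : Subgroup (Perm α)) (t : ℕ), N ≤ Fintype.card α → 2 * (t + 1) + 2 ≤ Fintype.card α →
    HH H (t + 1) → Hom H univ t := by
  obtain ⟨t₀, ht₀⟩ := main_large
  choose R hR using fun t => ramsey t (t + 1) (t + 1)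
  refine ⟨(range t₀).sup (fun t => R (t + 1)), fun α _ _ H t hN hn h => ?_⟩
  by_cases ht : t₀ ≤ t
  · exact ht₀ t ht α H hn h
  · have h1 : R (t + 1) ≤ (range t₀).sup (fun t => R (t + 1)) :=
      le_sup (f := fun t => R (t + 1)) (mem_range.2 (by omega))
    exact (hom_of_ram (hR _) (h1.trans hN) h).pred (by rw [card_univ]; omega)

end Pool.Agent.H5Hom
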