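import Pool.Agent.Lib.MP_078193_al.H5Bs

/-! Sylow subgroups, their fixed sets and the lemma of Witt. -/

open Finset Equiv
open scoped Pointwise

set_option linter.unusedSectionVars false

namespace Pool.Agent.H5Hom

variable {α : Type} [Fintype α] [DecidableEq α] {H : Subgroup (Perm α)}

/-- `Q` is a Sylow `p`-subgroup of `K` -/
def Syl (p : ℕ) (K Q : Subgroup (Perm α)) : Prop :=
  Q ≤ K ∧ Nat.card Q = p ^ (Nat.card K).factorization p

open Classical in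
/-- common fixed points -/
noncomputable def fixs (Q : Subgroup (Perm α)) : Finset α :=
  univ.filter (fun x => ∀ g ∈ Q, g x = x)

lemma mem_fixs {Q : Subgroup (Perm α)} {x : α} : x ∈ fixs Q ↔ ∀ g ∈ Q, g x = x := by
  simp [fixs]

lemma card_subgroupOf {Q K : Subgroup (Perm α)} (h : Q ≤ K) :
    Nat.card (Q.subgroupOf K) = Nat.card Q :=
  Nat.card_congr (Subgroup.subgroupOfEquivOfLe h).toEquiv

lemma exists_syl {p a : ℕ} (hp : p.Prime) {K P : Subgroup (Perm α)} (h : P ≤ K)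
    (hP : Nat.card P = p ^ a) : ∃ Q, P ≤ Q ∧ Syl p K Q := by
  have : Fact p.Prime := ⟨hp⟩
  obtain ⟨Q, hQ⟩ := (IsPGroup.of_card ((card_subgroupOf h).trans hP)).exists_le_sylow
  refine ⟨(Q : Subgroup K).map K.subtype, fun x hx => ⟨⟨x, h hx⟩, hQ hx, rfl⟩,
    Subgroup.map_subtype_le _, ?_⟩
  rw [Subgroup.card_map_of_injective K.subtype_injective, Q.card_eq_multiplicity]

lemma exists_syl' {p : ℕ} (hp : p.Prime) (K : Subgroup (Perm α)) : ∃ Q, Syl p K Q := by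
  obtain ⟨Q, -, h⟩ := exists_syl hp (K := K) (P := ⊥) (a := 0) bot_le (by simp)
  exact ⟨Q, h⟩

lemma Syl.conj {p : ℕ} (hp : p.Prime) {K Q Q' : Subgroup (Perm α)} (h : Syl p K Q)
    (h' : Syl p K Q') : ∃ k ∈ K, ∀ x, x ∈ Q' ↔ k⁻¹ * x * k ∈ Q := by
  have : Fact p.Prime := ⟨hp⟩
  obtain ⟨k, hk⟩ := MulAction.exists_smul_eq K
    (Sylow.ofCard (Q.subgroupOf K) ((card_subgroupOf h.1).trans h.2))
    (Sylow.ofCard (Q'.subgroupOf K) ((card_subgroupOf h'.1).trans h'.2))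
  have hk' := congrArg (fun P : Sylow p K => (P : Subgroup K)) hk
  simp only [Sylow.coe_subgroup_smul, Sylow.coe_ofCard] at hk'
  have key : ∀ x : K, (x : Perm α) ∈ Q' ↔ (k : Perm α)⁻¹ * x * k ∈ Q := by
    intro x
    rw [← Subgroup.mem_subgroupOf, ← hk', Subgroup.mem_pointwise_smul_iff_inv_smul_mem,
      Subgroup.mem_subgroupOf]
    simp
  refine ⟨k, k.2, fun x => ⟨fun hx => (key ⟨x, h'.1 hx⟩).1 hx, fun hx => (key ⟨x, ?_⟩).2 hx⟩⟩
  have := K.mul_mem (K.mul_mem k.2 (h.1 hx)) (K.inv_mem k.2)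
  simpa [mul_assoc] using this

lemma Syl.of_le {p : ℕ} (hp : p.Prime) {K Q : Subgroup (Perm α)} (h : Syl p H Q) (h1 : Q ≤ K)
    (h2 : K ≤ H) : Syl p K Q := by
  refine ⟨h1, ?_⟩
  have e1 := Subgroup.card_dvd_of_le h1
  have e2 := Subgroup.card_dvd_of_le h2
  have hK : Nat.card K ≠ 0 := Nat.card_pos.ne'
  rw [h.2] at e1 ⊢
  congr 1
  exact le_antisymm ((hp.pow_dvd_iff_le_factorization hK).1 e1)
    ((Nat.factorization_le_iff_dvd hK Nat.card_pos.ne').2 e2 p)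

lemma fixs_conj {Q Q' : Subgroup (Perm α)} {k : Perm α} (h : ∀ x, x ∈ Q' ↔ k⁻¹ * x * k ∈ Q) :
    fixs Q' = k • fixs Q := by
  ext y
  rw [mem_smul, mem_fixs, mem_fixs]
  constructor
  · intro hy g hg
    have := hy (k * g * k⁻¹) ((h _).2 (by simpa [mul_assoc] using hg))
    rw [Perm.eq_inv_iff_eq]
    exact this
  · intro hy g hg
    have := hy _ ((h g).1 hg)
    simpa using this

lemma inv_st (R : Finset α) : Inv (st H R) R := by
  intro g hg x hx
  rw [← (mem_st.1 hg).2]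
  exact apply_mem_smul.2 hx

theorem witt {p j : ℕ} (hp : p.Prime) {Q : Subgroup (Perm α)} (h : Syl p H Q)
    (hj : Hom H univ j) : Hom (st H (fixs Q)) (fixs Q) j := by
  intro A hA B hB hA' hB'
  obtain ⟨g, hg, rfl⟩ := hj A (subset_univ _) B (subset_univ _) hA' hB'
  set Q' := Q.map (MulAut.conj g).toMonoidHom with hQ'
  have hm : ∀ x, x ∈ Q' ↔ g⁻¹ * x * g ∈ Q := by
    intro x
    constructor
    · rintro ⟨y, hy, rfl⟩
      simpa [mul_assoc] using hy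
    · intro hx
      exact ⟨_, hx, by simp [mul_assoc]⟩
  have h1 : Syl p H Q' := by
    refine ⟨fun x hx => ?_, ?_⟩
    · have := H.mul_mem (H.mul_mem hg (h.1 ((hm x).1 hx))) (H.inv_mem hg)
      simpa [mul_assoc] using this
    · rw [hQ', Subgroup.card_map_of_injective (MulAut.conj g).injective, h.2]
  have h2 : Q ≤ fx H (g • A) := fun x hx => ⟨h.1 hx, fun y hy => mem_fixs.1 (hB hy) x hx⟩
  have h3 : Q' ≤ fx H (g • A) := fun x hx => ⟨h1.1 hx, fun y hy => by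
    have : y ∈ fixs Q' := by rw [fixs_conj hm]; exact smul_subset_smul.2 hA hy
    exact mem_fixs.1 this x hx⟩
  obtain ⟨k, hk, hk'⟩ := (h1.of_le hp h3 (fx_le _)).conj hp (h.of_le hp h2 (fx_le _))
  refine ⟨k * g, mem_st.2 ⟨H.mul_mem hk.1 hg, ?_⟩, ?_⟩
  · rw [mul_smul, ← fixs_conj hm, ← fixs_conj hk']
  · rw [mul_smul, smul_eq_image k, image_congr (g := id) (fun y hy => hk.2 y hy), image_id]

lemma dvd_card_of_orb {K : Subgroup (Perm α)} {Y : Finset α} (hY : Inv K Y) {D : ℕ}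
    (h : ∀ y ∈ Y, D ∣ (orb K y).card) : D ∣ Y.card := by
  rw [card_eq_sum_card_image (orb K) Y]
  refine dvd_sum fun O hO => ?_
  obtain ⟨y, hy, rfl⟩ := mem_image.1 hO
  have : Y.filter (fun x => orb K x = orb K y) = orb K y := by
    ext x
    rw [mem_filter, orb_eq_iff]
    refine ⟨fun h => h.2, fun h => ⟨?_, h⟩⟩
    obtain ⟨g, hg, rfl⟩ := mem_orb.1 h
    exact hY g hg y hy
  rw [this]
  exact h y hy

lemma card_orb_eq_one {Q : Subgroup (Perm α)} {y : α} (h : (orb Q y).card = 1) : y ∈ fixs Q := by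
  refine mem_fixs.2 fun g hg => ?_
  exact card_le_one.1 h.le _ (mem_orb.2 ⟨g, hg, rfl⟩) _ (self_mem_orb y)

lemma dvd_card_orb {p a : ℕ} (hp : p.Prime) {Q : Subgroup (Perm α)} (hQ : Nat.card Q = p ^ a)
    {y : α} (hy : y ∉ fixs Q) : p ∣ (orb Q y).card := by
  have h1 : (orb Q y).card ∣ p ^ a := hQ ▸ Dvd.intro _ (orb_mul_st Q y)
  obtain ⟨b, -, hb⟩ := (Nat.dvd_prime_pow hp).1 h1
  rcases b with _ | b
  · exact absurd (card_orb_eq_one hb) hy
  · rw [hb]; exact dvd_pow_self p (by omega)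

lemma dvd_card_sdiff_fixs {p a : ℕ} (hp : p.Prime) {Q : Subgroup (Perm α)}
    (hQ : Nat.card Q = p ^ a) {Y : Finset α} (hY : Inv Q Y) : p ∣ (Y \ fixs Q).card := by
  refine dvd_card_of_orb (K := Q) ?_ fun y hy => dvd_card_orb hp hQ (mem_sdiff.1 hy).2
  intro g hg x hx
  obtain ⟨h1, h2⟩ := mem_sdiff.1 hx
  refine mem_sdiff.2 ⟨hY g hg x h1, fun h => h2 ?_⟩
  have := mem_fixs.1 h g⁻¹ (Q.inv_mem hg)
  rw [inv_ap] at this
  rwa [this]

lemma subset_fixs {p a : ℕ} (hp : p.Prime) {Q : Subgroup (Perm α)}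
    (hQ : Nat.card Q = p ^ a) {Y : Finset α} (hY : Inv Q Y) (hc : Y.card < p) : Y ⊆ fixs Q := by
  have h1 := dvd_card_sdiff_fixs hp hQ hY
  have h2 : (Y \ fixs Q).card ≤ Y.card := card_le_card sdiff_subset
  rw [← sdiff_eq_empty_iff_subset, ← card_eq_zero]
  exact Nat.eq_zero_of_dvd_of_lt h1 (by omega)

lemma exists_fixs {p a : ℕ} (hp : p.Prime) {Q : Subgroup (Perm α)}
    (hQ : Nat.card Q = p ^ a) {Y : Finset α} (hY : Inv Q Y) (hc : ¬ p ∣ Y.card) :
    ∃ y ∈ Y, y ∈ fixs Q := by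
  by_contra hne
  push Not at hne
  have h1 := dvd_card_sdiff_fixs hp hQ hY
  rw [sdiff_eq_self_of_disjoint (disjoint_left.2 hne)] at h1
  exact hc h1

lemma dvd_sub_fixs {p a : ℕ} (hp : p.Prime) {Q : Subgroup (Perm α)}
    (hQ : Nat.card Q = p ^ a) : p ∣ Fintype.card α - (fixs Q).card := by
  simpa [card_sdiff_of_subset] using dvd_card_sdiff_fixs hp hQ (Y := univ) inv_univ

end Pool.Agent.H5Hom
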