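import Pool.Agent.Lib.MP_078193_al.H5Base

/-! Up and down operators on levels of subsets. -/

open Finset Equiv
open scoped Pointwise

set_option linter.unusedSectionVars false

namespace Pool.Agent.H5Hom

variable {α : Type} [Fintype α] [DecidableEq α] {H : Subgroup (Perm α)} {Ω : Finset α}

lemma sum_flag {M : Type} [AddCommMonoid M] (Ω : Finset α) (j : ℕ) (F : Finset α → α → M) :
    ∑ C ∈ powersetCard (j + 1) Ω, ∑ x ∈ C, F (C.erase x) x
      = ∑ A ∈ powersetCard j Ω, ∑ y ∈ Ω \ A, F A y := by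
  rw [sum_sigma', sum_sigma']
  refine sum_bij' (fun p _ => ⟨p.1.erase p.2, p.2⟩) (fun p _ => ⟨insert p.2 p.1, p.2⟩)
    ?_ ?_ ?_ ?_ ?_
  · rintro ⟨C, x⟩ h
    simp only [mem_sigma, mem_powersetCard, mem_sdiff] at h ⊢
    exact ⟨⟨(erase_subset _ _).trans h.1.1, by rw [card_erase_of_mem h.2, h.1.2]; rfl⟩,
      h.1.1 h.2, notMem_erase _ _⟩
  · rintro ⟨A, y⟩ h
    simp only [mem_sigma, mem_powersetCard, mem_sdiff] at h ⊢
    exact ⟨⟨insert_subset h.2.1 h.1.1, by rw [card_insert_of_notMem h.2.2, h.1.2]⟩,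
      mem_insert_self _ _⟩
  · rintro ⟨C, x⟩ h
    simp only [mem_sigma] at h
    simp [insert_erase h.2]
  · rintro ⟨A, y⟩ h
    simp only [mem_sigma, mem_sdiff] at h
    simp [erase_insert h.2.2]
  · rintro ⟨C, x⟩ h
    rfl

lemma up_inj {j : ℕ} (hj : 2 * j + 1 ≤ Ω.card) (f : Finset α → ℝ)
    (hf : ∀ C ∈ powersetCard (j + 1) Ω, ∑ x ∈ C, f (C.erase x) = 0) :
    ∀ A ∈ powersetCard j Ω, f A = 0 := by
  set D : Finset α → ℝ := fun J => ∑ y ∈ Ω \ J, f (insert y J) with hD
  have key : ∀ A ∈ powersetCard j Ω,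
      ∑ x ∈ A, D (A.erase x) = -((Ω.card : ℝ) - 2 * j) * f A := by
    intro A hA
    obtain ⟨hAΩ, hAc⟩ := mem_powersetCard.1 hA
    have h1 : ∑ y ∈ Ω \ A, (f A + ∑ x ∈ A, f (insert y (A.erase x))) = 0 := by
      refine sum_eq_zero fun y hy => ?_
      obtain ⟨hyΩ, hyA⟩ := mem_sdiff.1 hy
      rw [← hf (insert y A) (mem_powersetCard.2 ⟨insert_subset hyΩ hAΩ, by
        rw [card_insert_of_notMem hyA, hAc]⟩), sum_insert hyA, erase_insert hyA]
      congr 1
      refine sum_congr rfl fun x hx => ?_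
      rw [erase_insert_of_ne (by rintro rfl; exact hyA hx)]
    have h2 : ∑ x ∈ A, D (A.erase x)
        = ∑ x ∈ A, (f A + ∑ y ∈ Ω \ A, f (insert y (A.erase x))) := by
      refine sum_congr rfl fun x hx => ?_
      have : Ω \ A.erase x = insert x (Ω \ A) := by
        ext z
        simp only [mem_sdiff, mem_erase, mem_insert]
        constructor
        · rintro ⟨h1, h2⟩
          by_cases hz : z = x
          · exact Or.inl hz
          · exact Or.inr ⟨h1, fun h => h2 ⟨hz, h⟩⟩
        · rintro (rfl | ⟨h1, h2⟩)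
          · exact ⟨hAΩ hx, fun h => h.1 rfl⟩
          · exact ⟨h1, fun h => h2 h.2⟩
      simp only [hD]
      rw [this, sum_insert (by simp [hx]), insert_erase hx]
    rw [sum_add_distrib, sum_const, card_sdiff_of_subset hAΩ, hAc, nsmul_eq_mul,
      Nat.cast_sub (by omega), sum_comm] at h1
    rw [h2, sum_add_distrib, sum_const, hAc, nsmul_eq_mul]
    linarith
  have hpos : (0 : ℝ) < (Ω.card : ℝ) - 2 * j := by
    have : ((2 * j + 1 : ℕ) : ℝ) ≤ Ω.card := by exact_mod_cast hj
    push_cast at this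
    linarith
  have hsum : 0 ≤ ∑ A ∈ powersetCard j Ω, f A * ∑ x ∈ A, D (A.erase x) := by
    rcases j with _ | j
    · simp
    · have := sum_flag Ω j (fun J y => f (insert y J) * D J)
      have h3 : ∑ A ∈ powersetCard (j + 1) Ω, f A * ∑ x ∈ A, D (A.erase x)
          = ∑ C ∈ powersetCard (j + 1) Ω, ∑ x ∈ C, f (insert x (C.erase x)) * D (C.erase x) := by
        refine sum_congr rfl fun A _ => ?_
        rw [mul_sum]
        exact sum_congr rfl fun x hx => by rw [insert_erase hx]
      rw [h3, this]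
      refine sum_nonneg fun J _ => ?_
      rw [← sum_mul]
      exact mul_self_nonneg _
  have h4 : ∑ A ∈ powersetCard j Ω, f A * ∑ x ∈ A, D (A.erase x)
      = -((Ω.card : ℝ) - 2 * j) * ∑ A ∈ powersetCard j Ω, f A ^ 2 := by
    rw [mul_sum]
    exact sum_congr rfl fun A hA => by rw [key A hA]; ring
  rw [h4] at hsum
  have h5 : ∑ A ∈ powersetCard j Ω, f A ^ 2 ≤ 0 := by nlinarith
  have h6 := (sum_eq_zero_iff_of_nonneg (fun A _ => sq_nonneg (f A))).1
    (le_antisymm h5 (sum_nonneg fun A _ => sq_nonneg _))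
  exact fun A hA => pow_eq_zero_iff two_ne_zero |>.1 (h6 A hA)

lemma sum_erase_smul {M : Type} [AddCommMonoid M] (f : Finset α → M) {g : Perm α}
    (hf : ∀ A, f (g • A) = f A) (C : Finset α) :
    ∑ x ∈ g • C, f ((g • C).erase x) = ∑ x ∈ C, f (C.erase x) := by
  rw [smul_eq_image g C, sum_image (fun a _ b _ h => g.injective h)]
  refine sum_congr rfl fun x _ => ?_
  rw [← smul_eq_image, ← smul_erase, hf]

open Classical in
/-- indicator of an orbit -/
noncomputable def ind (H : Subgroup (Perm α)) (A B : Finset α) : ℝ :=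
  if B ∈ orb H A then 1 else 0

lemma ind_smul {g : Perm α} (hg : g ∈ H) (A B : Finset α) : ind H A (g • B) = ind H A B := by
  simp [ind, smul_mem_orb hg]

lemma up_ind_orb (A : Finset α) {C C' : Finset α} (h : C' ∈ orb H C) :
    ∑ x ∈ C', ind H A (C'.erase x) = ∑ x ∈ C, ind H A (C.erase x) := by
  obtain ⟨g, hg, rfl⟩ := mem_orb.1 h
  exact sum_erase_smul _ (ind_smul hg A) C

lemma Hom.pred {j : ℕ} (h : Hom H Ω (j + 1)) (hj : 2 * j + 1 ≤ Ω.card) : Hom H Ω j := by
  intro A hA B hB hA' hB'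
  obtain ⟨C, hC, hC'⟩ := exists_subset_card_eq (s := Ω) (n := j + 1) (by omega)
  set m := ∑ x ∈ C, ind H A (C.erase x) with hm
  have hj0 : ((j : ℝ) + 1) ≠ 0 := by positivity
  have := up_inj hj (fun B => ind H A B - m / (j + 1)) (by
    intro C' hC''
    obtain ⟨h1, h2⟩ := mem_powersetCard.1 hC''
    rw [sum_sub_distrib, up_ind_orb A (mem_orb.2 (h C hC C' h1 hC' h2)), sum_const, h2]
    simp only [nsmul_eq_mul, ← hm]
    push_cast
    field_simp
    ring)
  have h1 := this A (mem_powersetCard.2 ⟨hA, hA'⟩)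
  have h2 := this B (mem_powersetCard.2 ⟨hB, hB'⟩)
  simp only [ind, self_mem_orb, if_true] at h1 h2
  by_contra hc
  rw [if_neg (fun h' => hc (mem_orb.1 h'))] at h2
  linarith

lemma Hom.le {k : ℕ} (h : Hom H Ω k) (hk : 2 * k ≤ Ω.card + 1) {j : ℕ} (hj : j ≤ k) :
    Hom H Ω j := by
  induction k with
  | zero => obtain rfl : j = 0 := by omega
            exact h
  | succ k ih =>
    rcases Nat.eq_or_lt_of_le hj with rfl | hj'
    · exact h
    · exact ih (h.pred (by omega)) (by omega) (by omega)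

/-- at most two orbits on `j`-sets -/
def Two (H : Subgroup (Perm α)) (j : ℕ) : Prop :=
  ∀ A B C : Finset α, A.card = j → B.card = j → C.card = j →
    B ∈ orb H A ∨ C ∈ orb H A ∨ C ∈ orb H B

lemma Two.pred {j : ℕ} (h : Two H (j + 1)) (hj : 2 * j + 1 ≤ Fintype.card α) : Two H j := by
  intro A B C hA hB hC
  by_contra hc
  simp only [not_or] at hc
  obtain ⟨h1, h2, h3⟩ := hc
  obtain ⟨X, -, hX⟩ := exists_subset_card_eq (s := (univ : Finset α)) (n := j + 1)
    (by rw [card_univ]; omega)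
  have hY : ∃ Y : Finset α, ∀ Z : Finset α, Z.card = j + 1 → Z ∈ orb H X ∨ Z ∈ orb H Y := by
    by_cases h' : ∀ Z : Finset α, Z.card = j + 1 → Z ∈ orb H X
    · exact ⟨X, fun Z hZ => Or.inl (h' Z hZ)⟩
    · push Not at h'
      obtain ⟨Y, hY, hY'⟩ := h'
      refine ⟨Y, fun Z hZ => ?_⟩
      rcases h X Y Z hX hY hZ with h4 | h4 | h4
      · exact absurd h4 hY'
      · exact Or.inl h4
      · exact Or.inr h4
  obtain ⟨Y, hY⟩ := hY
  set u1 := ∑ x ∈ X, ind H A (X.erase x)
  set w1 := ∑ x ∈ Y, ind H A (Y.erase x)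
  set u2 := ∑ x ∈ X, ind H B (X.erase x)
  set w2 := ∑ x ∈ Y, ind H B (Y.erase x)
  have hj0 : ((j : ℝ) + 1) ≠ 0 := by positivity
  have main : ∀ l1 l2 : ℝ, l1 * u1 + l2 * u2 = l1 * w1 + l2 * w2 → l1 = 0 ∧ l2 = 0 := by
    intro l1 l2 hl
    have := up_inj (Ω := univ) (j := j) (by rwa [card_univ])
      (fun Z => l1 * ind H A Z + l2 * ind H B Z - (l1 * u1 + l2 * u2) / (j + 1)) (by
        intro Z hZ
        have hZ' := (mem_powersetCard.1 hZ).2
        rw [sum_sub_distrib, sum_add_distrib, ← mul_sum, ← mul_sum, sum_const, hZ']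
        rcases hY Z hZ' with h4 | h4
        · rw [up_ind_orb A h4, up_ind_orb B h4]
          simp only [nsmul_eq_mul]
          push_cast
          field_simp
          ring
        · rw [up_ind_orb A h4, up_ind_orb B h4, hl]
          simp only [nsmul_eq_mul]
          push_cast
          field_simp
          ring)
    have e1 := this A (mem_powersetCard.2 ⟨subset_univ _, hA⟩)
    have e2 := this B (mem_powersetCard.2 ⟨subset_univ _, hB⟩)
    have e3 := this C (mem_powersetCard.2 ⟨subset_univ _, hC⟩)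
    have h1' : A ∉ orb H B := fun h => h1 (orb_symm h)
    simp only [ind, self_mem_orb, if_true, h1, h2, h3, h1', if_false] at e1 e2 e3
    constructor <;> linarith
  by_cases hu : u1 = w1
  · have := main 1 0 (by simp [hu])
    simp at this
  · have := main (u2 - w2) (w1 - u1) (by ring)
    exact hu (by linarith [this.2])

/-- lift of a function on `i`-sets -/
noncomputable def lift (i : ℕ) (f : Finset α → ℝ) (A : Finset α) : ℝ :=
  ∑ I ∈ powersetCard i A, f I

lemma lift_up (i : ℕ) (f : Finset α → ℝ) (C : Finset α) :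
    ∑ x ∈ C, lift i f (C.erase x) = ((C.card : ℝ) - i) * lift i f C := by
  unfold lift
  have : ∀ x ∈ C, ∑ I ∈ powersetCard i (C.erase x), f I
      = ∑ I ∈ powersetCard i C, if x ∉ I then f I else 0 := by
    intro x _
    rw [← sum_filter]
    congr 1
    ext I
    simp only [mem_powersetCard, mem_filter, subset_erase]
    tauto
  rw [sum_congr rfl this, sum_comm, mul_sum]
  refine sum_congr rfl fun I hI => ?_
  obtain ⟨h1, h2⟩ := mem_powersetCard.1 hI
  rw [← sum_filter, sum_const, ← sdiff_eq_filter, card_sdiff_of_subset h1, nsmul_eq_mul,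
    Nat.cast_sub (card_le_card h1), h2]

/-- harmonic at level `i + 1` -/
def Harm (i : ℕ) (f : Finset α → ℝ) : Prop :=
  ∀ J : Finset α, J.card = i → ∑ y ∈ univ \ J, f (insert y J) = 0

lemma lift_down {i : ℕ} {f : Finset α → ℝ} (hf : Harm i f) (A : Finset α) :
    ∑ y ∈ univ \ A, lift (i + 1) f (insert y A)
      = ((Fintype.card α : ℝ) - A.card - (i + 1)) * lift (i + 1) f A := by
  have h1 : ∀ y ∈ univ \ A, lift (i + 1) f (insert y A)
      = lift (i + 1) f A + ∑ J ∈ powersetCard i A, f (insert y J) := by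
    intro y hy
    have hyA : y ∉ A := (mem_sdiff.1 hy).2
    unfold lift
    rw [powersetCard_succ_insert hyA, sum_union, sum_image]
    · intro J hJ J' hJ' h
      have h2 : y ∉ J := fun h => hyA ((mem_powersetCard.1 hJ).1 h)
      have h3 : y ∉ J' := fun h => hyA ((mem_powersetCard.1 hJ').1 h)
      rw [← erase_insert h2, h, erase_insert h3]
    · rw [disjoint_left]
      intro I hI hI'
      obtain ⟨J, -, rfl⟩ := mem_image.1 hI'
      exact hyA ((mem_powersetCard.1 hI).1 (mem_insert_self _ _))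
  rw [sum_congr rfl h1, sum_add_distrib, sum_const, card_sdiff_of_subset (subset_univ _),
    card_univ, nsmul_eq_mul, Nat.cast_sub (card_le_univ A), sum_comm]
  have h2 : ∀ J ∈ powersetCard i A, ∑ y ∈ univ \ A, f (insert y J)
      = -∑ y ∈ A \ J, f (insert y J) := by
    intro J hJ
    obtain ⟨h3, h4⟩ := mem_powersetCard.1 hJ
    have h5 := hf J h4
    have : univ \ J = (univ \ A) ∪ (A \ J) := by
      ext z
      simp only [mem_sdiff, mem_univ, true_and, mem_union]
      have := @h3 z
      tauto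
    rw [this, sum_union (by
      rw [disjoint_left]; intro z hz hz'
      exact (mem_sdiff.1 hz).2 (mem_sdiff.1 hz').1)] at h5
    linarith
  rw [sum_congr rfl h2, sum_neg_distrib, ← sum_flag A i (fun J y => f (insert y J))]
  have h3 : ∀ I ∈ powersetCard (i + 1) A, ∑ x ∈ I, f (insert x (I.erase x)) = (i + 1) * f I := by
    intro I hI
    rw [sum_congr rfl (fun x hx => by rw [insert_erase hx]), sum_const,
      (mem_powersetCard.1 hI).2, nsmul_eq_mul]
    push_cast; ring
  rw [sum_congr rfl h3, ← mul_sum]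
  unfold lift
  ring

lemma lift_smul {i : ℕ} {f : Finset α → ℝ} {g : Perm α} (hf : ∀ A, f (g • A) = f A)
    (A : Finset α) : lift i f (g • A) = lift i f A := by
  unfold lift
  refine sum_bij' (fun I _ => g⁻¹ • I) (fun I _ => g • I) ?_ ?_ ?_ ?_ ?_
  · intro I hI
    obtain ⟨h1, h2⟩ := mem_powersetCard.1 hI
    refine mem_powersetCard.2 ⟨?_, by rwa [card_smul]⟩
    rw [← smul_subset_smul (g := g)]
    simpa using h1
  · intro I hI
    obtain ⟨h1, h2⟩ := mem_powersetCard.1 hI
    exact mem_powersetCard.2 ⟨smul_subset_smul.2 h1, by rwa [card_smul]⟩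
  · simp
  · simp
  · intro I _
    rw [← hf (g⁻¹ • I)]
    simp

lemma lift_self {i : ℕ} (f : Finset α → ℝ) {I : Finset α} (hI : I.card = i) :
    lift i f I = f I := by
  unfold lift
  rw [← hI, powersetCard_self, sum_singleton]

/-- the basic data: an invariant harmonic function which is not constant on each level -/
structure Dat (H : Subgroup (Perm α)) (i : ℕ) (f : Finset α → ℝ) : Prop where
  harm : Harm i f
  inv : ∀ g ∈ H, ∀ A, f (g • A) = f A
  nc : ∃ I I' : Finset α, I.card = i + 1 ∧ I'.card = i + 1 ∧ f I ≠ f I'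

lemma exists_dat {i : ℕ} (h0 : Hom H univ i) (h1 : ¬ Hom H univ (i + 1)) :
    ∃ f, Dat H i f := by
  unfold Hom at h1
  push Not at h1
  obtain ⟨A, -, B, -, hA, hB, hAB⟩ := h1
  have hi : i + 1 ≤ Fintype.card α := hA ▸ card_le_univ A
  obtain ⟨J₀, -, hJ₀⟩ := exists_subset_card_eq (s := (univ : Finset α)) (n := i)
    (by rw [card_univ]; omega)
  set lam := ∑ y ∈ univ \ J₀, ind H A (insert y J₀) with hlam
  have hpos : ((Fintype.card α : ℝ) - i) ≠ 0 := by
    have : ((i + 1 : ℕ) : ℝ) ≤ Fintype.card α := by exact_mod_cast hi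
    push_cast at this
    linarith
  refine ⟨fun B => ind H A B - lam / (Fintype.card α - i), ?_, ?_, A, B, hA, hB, ?_⟩
  · intro J hJ
    obtain ⟨g, hg, rfl⟩ := h0 J₀ (subset_univ _) J (subset_univ _) hJ₀ hJ
    have : ∑ y ∈ univ \ g • J₀, ind H A (insert y (g • J₀)) = lam := by
      have h2 : univ \ g • J₀ = g • (univ \ J₀) := by
        rw [smul_finset_sdiff, inv_univ.smul_eq hg]
      rw [h2, smul_eq_image g (univ \ J₀), sum_image (fun a _ b _ h => g.injective h)]
      refine sum_congr rfl fun y _ => ?_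
      rw [← smul_insert, ind_smul hg]
    rw [sum_sub_distrib, this, sum_const, card_sdiff_of_subset (subset_univ _), card_univ, hJ,
      nsmul_eq_mul, Nat.cast_sub (by omega)]
    field_simp
    ring
  · intro g hg B
    simp only [ind_smul hg]
  · have : B ∉ orb H A := fun h => by
      obtain ⟨g, hg, hg'⟩ := mem_orb.1 h
      exact hAB g hg hg'
    simp [ind, self_mem_orb, this]

lemma Dat.lift_orb {i : ℕ} {f : Finset α → ℝ} (hd : Dat H i f) {A B : Finset α}
    (h : B ∈ orb H A) : lift (i + 1) f B = lift (i + 1) f A := by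
  obtain ⟨g, hg, rfl⟩ := mem_orb.1 h
  exact lift_smul (hd.inv g hg) A

lemma Dat.nc_level {i : ℕ} {f : Finset α → ℝ} (hd : Dat H i f) {j : ℕ} (hij : i + 1 ≤ j)
    (hj : j + i + 1 ≤ Fintype.card α) :
    ∃ A A' : Finset α, A.card = j ∧ A'.card = j ∧ lift (i + 1) f A ≠ lift (i + 1) f A' := by
  induction j, hij using Nat.le_induction with
  | base =>
    obtain ⟨I, I', h1, h2, h3⟩ := hd.nc
    exact ⟨I, I', h1, h2, by rwa [lift_self f h1, lift_self f h2]⟩
  | succ j hij ih =>
    obtain ⟨A, A', h1, h2, h3⟩ := ih (by omega)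
    by_contra hc
    push Not at hc
    obtain ⟨C, -, hC⟩ := exists_subset_card_eq (s := (univ : Finset α)) (n := j + 1)
      (by rw [card_univ]; omega)
    have key : ∀ B : Finset α, B.card = j →
        ((Fintype.card α : ℝ) - j - (i + 1)) * lift (i + 1) f B
          = (Fintype.card α - j : ℕ) * lift (i + 1) f C := by
      intro B hB
      have := lift_down hd.harm B
      rw [hB] at this
      rw [← this, sum_congr rfl (fun y hy => hc (insert y B) C
        (by rw [card_insert_of_notMem (mem_sdiff.1 hy).2, hB]) hC), sum_const,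
        card_sdiff_of_subset (subset_univ _), card_univ, hB, nsmul_eq_mul]
    have hpos : ((Fintype.card α : ℝ) - j - (i + 1)) ≠ 0 := by
      have : ((j + 1 + i + 1 : ℕ) : ℝ) ≤ Fintype.card α := by exact_mod_cast hj
      push_cast at this
      linarith
    exact h3 (mul_left_cancel₀ hpos ((key A h1).trans (key A' h2).symm))

end Pool.Agent.H5Hom
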