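import Pool.Agent.Lib.MP_078193_al.MBlue

open Finset Equiv MulAction
open scoped Pointwise

set_option linter.unusedSectionVars false

namespace Pool.Agent.H5Hom

namespace AltJ

variable {α : Type} [Fintype α] [DecidableEq α] {H : Subgroup (Perm α)}

lemma prim (h3 : 3 ≤ Fintype.card α) (h : Hom H univ 2) : IsPreprimitive H α := by
  have h1 : Hom H univ 1 := Hom.pred (j := 1) h (by rw [card_univ]; omega)
  have ht : IsPretransitive H α := ⟨fun x y => by
    obtain ⟨g, hg, hg'⟩ := h1 {x} (subset_univ _) {y} (subset_univ _) (card_singleton _)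
      (card_singleton _)
    refine ⟨⟨g, hg⟩, ?_⟩
    have : g x ∈ g • ({x} : Finset α) := apply_mem_smul.2 (mem_singleton_self x)
    rw [hg'] at this
    exact mem_singleton.1 this⟩
  refine ⟨fun {B} hB => B.subsingleton_or_nontrivial.imp id fun ⟨x, hx, y, hy, hxy⟩ => ?_⟩
  refine Set.eq_univ_of_forall fun z => ?_
  by_contra hz
  have hxz : x ≠ z := fun e => hz (e ▸ hx)
  obtain ⟨g, hg, hg'⟩ := h {x, y} (subset_univ _) {x, z} (subset_univ _) (card_pair hxy)
    (card_pair hxz)
  have key : ∀ w ∈ ({x, z} : Finset α), w ∈ (⟨g, hg⟩ : H) • B := by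
    intro w hw
    rw [← hg', smul_eq_image, mem_image] at hw
    obtain ⟨a, ha, rfl⟩ := hw
    refine ⟨a, ?_, rfl⟩
    rcases mem_insert.1 ha with rfl | ha
    · exact hx
    · rw [mem_singleton.1 ha]; exact hy
  rcases hB.smul_eq_or_disjoint ⟨g, hg⟩ with e | e
  · exact hz (e ▸ key z (by simp))
  · exact Set.disjoint_left.1 e (key x (by simp)) hx

lemma hom_of_mult {j : ℕ} (h : IsMultiplyPretransitive H α j) : Hom H univ j := by
  intro A _ B _ hA hB
  obtain ⟨g, hg⟩ := isMultiplyPretransitive_iff.1 h
    ((A.equivFinOfCardEq hA).symm.toEmbedding.trans (Function.Embedding.subtype _))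
    ((B.equivFinOfCardEq hB).symm.toEmbedding.trans (Function.Embedding.subtype _))
  refine ⟨g, g.2, eq_of_subset_of_card_le (fun y hy => ?_) ?_⟩
  · rw [smul_eq_image, mem_image] at hy
    obtain ⟨a, ha, rfl⟩ := hy
    have := congrArg (fun e : Fin j ↪ α => e (A.equivFinOfCardEq hA ⟨a, ha⟩)) hg
    simp only [Function.Embedding.smul_apply, Function.Embedding.trans_apply,
      Equiv.coe_toEmbedding, Equiv.symm_apply_apply, Function.Embedding.subtype_apply] at this
    have e : (g : Perm α) a = _ := this
    rw [e]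
    exact Subtype.property _
  · rw [smul_eq_image, card_image_of_injective _ (g : Perm α).injective]
    omega

lemma supp_univ (g : Perm α) : supp univ g = g.support := rfl

end AltJ

open AltJ

theorem alt_of : St_alt := by
  intro α _ _ H h5 h2 g hg hg1 hs j
  have hp := prim (by omega) h2
  have hA : alternatingGroup α ≤ H := by
    rw [supp_univ] at hs
    have := Perm.two_le_card_support_of_ne_one hg1
    rcases Nat.lt_or_ge g.support.card 3 with h | h
    · rw [Perm.subgroup_eq_top_of_isPreprimitive_of_isSwap_mem hp g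
        (Perm.card_support_eq_two.1 (by omega)) hg]
      exact le_top
    · exact Perm.alternatingGroup_le_of_isPreprimitive_of_isThreeCycle_mem hp
        (card_support_eq_three_iff.1 (by omega)) hg
  refine Alt3.hom (fun _ _ _ _ => mem_univ _) ?_ (by rw [card_univ]; omega) j
  intro u _ v _ z _ huv huz hvz
  refine ⟨swap u z * swap u v, hA ?_, ?_, fun x _ hu hv hz => ?_⟩
  · rw [Perm.mem_alternatingGroup, Perm.sign_mul, Perm.sign_swap huz, Perm.sign_swap huv]
    simp
  · rw [Perm.mul_apply, swap_apply_left, swap_apply_of_ne_of_ne huv.symm hvz]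
  · rw [Perm.mul_apply, swap_apply_of_ne_of_ne hu hv, swap_apply_of_ne_of_ne hu hz]

theorem jordan_of : St_jordan := by
  intro α _ _ H q j hq hj hc h2 z hz hzq hs
  classical
  have hq2 := hq.two_le
  have hp := prim (by omega) h2
  rw [supp_univ] at hs
  have : Fact q.Prime := ⟨hq⟩
  have hz1 : z ≠ 1 := by
    rintro rfl
    rw [Perm.support_one, card_empty] at hs
    omega
  have ho : orderOf z = q := orderOf_eq_prime hzq hz1
  have hcyc : z.IsCycle := Perm.isCycle_of_prime_order (ho ▸ hq) (by omega)
  obtain ⟨n, rfl⟩ : ∃ n, j = n + 1 := ⟨j - 1, by omega⟩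
  have hsc : Set.ncard ((z.support)ᶜ : Set α) = n + 1 := by
    apply Nat.add_left_cancel (n := q)
    rw [← hc, ← hs, ← Set.ncard_coe_finset, Set.ncard_add_ncard_compl, Nat.card_eq_fintype_card]
  refine hom_of_mult ?_
  suffices IsMultiplyPreprimitive H α (n + 2) from IsMultiplyPreprimitive.isMultiplyPretransitive ..
  apply hp.isMultiplyPreprimitive hsc
  · rw [Nat.card_eq_fintype_card]; omega
  have := Perm.isPretransitive_of_isCycle_mem hcyc hz
  apply IsPreprimitive.of_prime_card
  convert! hq
  rw [Nat.card_eq_fintype_card, Fintype.card_subtype, ← hs]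
  apply congr_arg
  ext x
  simp [SubMulAction.mem_ofFixingSubgroup_iff]

end Pool.Agent.H5Hom
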