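import Pool.Agent.Lib.MP_078193_al.MBlue

open Finset Equiv
open scoped Pointwise

set_option linter.unusedSectionVars false

namespace Pool.Agent.H5Hom

namespace CL2

variable {β : Type} [Fintype β] [DecidableEq β] {M : Subgroup (Perm β)}

lemma conj {u : Perm β} (hu : u ∈ M) {x y : β} (h : swap x y ∈ M) : swap (u x) (u y) ∈ M := by
  rw [swap_apply_apply]
  exact M.mul_mem (M.mul_mem hu h) (M.inv_mem hu)

lemma rfl' (x : β) : swap x x ∈ M := by rw [swap_self]; exact M.one_mem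

lemma symm' {x y : β} (h : swap x y ∈ M) : swap y x ∈ M := by rwa [swap_comm]

lemma trans' {x y z : β} (h : swap x y ∈ M) (h' : swap y z ∈ M) : swap x z ∈ M := by
  by_cases e : x = y
  · rwa [e]
  by_cases e' : x = z
  · rw [e']; exact rfl' z
  have := conj h' h
  rwa [swap_apply_of_ne_of_ne e e', swap_apply_left] at this

lemma swap_iff {x y : β} (h : x ≠ y) :
    swap x y ∈ M ↔ 2 ∣ Nat.card (fx M ({x, y} : Finset β)ᶜ) := by
  constructor
  · intro hs
    have h1 : swap x y ∈ fx M ({x, y} : Finset β)ᶜ := ⟨hs, fun z hz => by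
      simp only [mem_compl, mem_insert, mem_singleton, not_or] at hz
      exact swap_apply_of_ne_of_ne hz.1 hz.2⟩
    have h2 := Subgroup.orderOf_dvd_natCard _ h1
    rwa [Perm.IsSwap.orderOf (Perm.swap_isSwap_iff.2 h)] at h2
  · intro hd
    have h1 : fx M ({x, y} : Finset β)ᶜ ≠ ⊥ := fun e => by
      rw [e, Subgroup.card_bot] at hd; omega
    obtain ⟨⟨g, hg, hg'⟩, h2⟩ := Subgroup.ne_bot_iff_exists_ne_one.1 h1
    have h3 : ∀ z, z ≠ x → z ≠ y → g z = z := fun z a b => hg' z (by simp [a, b])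
    have h4 : ∀ z, g z = x ∨ g z = y ∨ g z = z := fun z => by
      by_cases a : g z = x
      · exact Or.inl a
      by_cases b : g z = y
      · exact Or.inr (Or.inl b)
      · exact Or.inr (Or.inr (g.injective (h3 _ a b)))
    have h5 : g x ≠ g y := fun e => h (g.injective e)
    have h6 : ¬ (g x = x ∧ g y = y) := fun e => h2 (Subtype.ext (Equiv.ext fun z => by
      by_cases a : z = x
      · rw [a]; exact e.1
      by_cases b : z = y
      · rw [b]; exact e.2
      · exact h3 z a b))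
    have h7 : g x = y ∧ g y = x := by
      have := h4 x
      have := h4 y
      grind
    have h8 : g = swap x y := Equiv.ext fun z => by
      by_cases a : z = x
      · rw [a, swap_apply_left]; exact h7.1
      by_cases b : z = y
      · rw [b, swap_apply_right]; exact h7.2
      · rw [swap_apply_of_ne_of_ne a b]; exact h3 z a b
    exact h8 ▸ hg

lemma fixes {S : Finset β} (hp : ∀ x : β, ∃ y, y ≠ x ∧ swap x y ∈ M)
    (hS : ∀ x ∈ S, ∀ y ∈ S, swap x y ∈ M → x = y) {u : Perm β} (hu : u ∈ fx M Sᶜ) : u = 1 := by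
  refine Equiv.ext fun a => ?_
  by_cases ha : a ∈ S
  · obtain ⟨y, hy, hy'⟩ := hp a
    have h1 : y ∈ Sᶜ := mem_compl.2 fun h => hy (hS a ha y h hy').symm
    have h2 := conj hu.1 hy'
    rw [hu.2 y h1] at h2
    have h3 : u a ∈ S := by
      by_contra h
      have := u.injective (hu.2 _ (mem_compl.2 h))
      exact h (this.symm ▸ ha)
    exact hS _ h3 _ ha (trans' h2 (symm' hy'))
  · exact hu.2 a (mem_compl.2 ha)

lemma four (hcore : St_core) (hfix : St_fix) {α : Type} [Fintype α] [DecidableEq α]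
    {G : Subgroup (Perm α)} {ι : β ↪ α} {t : ℕ} {B₀ A₀ : Finset α} (hc : Cex G t B₀ A₀)
    (hl : Link G t 2 M ι) (hβ : Fintype.card β = t + 2)
    (hp : ∀ x : β, ∃ y, y ≠ x ∧ swap x y ∈ M) {a b c d : β} (hab : swap a b ∉ M)
    (hac : swap a c ∉ M) (had : swap a d ∉ M) (hbc : swap b c ∉ M) (hbd : swap b d ∉ M)
    (hcd : swap c d ∉ M) : False := by
  have ne : ∀ {x y : β}, swap x y ∉ M → x ≠ y := fun {x y} h e => h (e ▸ rfl' x)
  have nab := ne hab
  have nac := ne hac
  have nad := ne had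
  have nbc := ne hbc
  have nbd := ne hbd
  have ncd := ne hcd
  have ht := hc.ht
  have hn := hc.hn
  set Y : Finset β := ({a, b, c, d} : Finset β)ᶜ with hY
  have h1 : ∀ u ∈ fx M Y, u = 1 := fun u hu => fixes hp (fun x hx y hy h => by
    have h' := symm' h
    simp only [mem_insert, mem_singleton] at hx hy
    rcases hx with rfl | rfl | rfl | rfl <;> rcases hy with rfl | rfl | rfl | rfl <;>
      first | rfl | contradiction) hu
  have h2 : ∀ X, Y ⊆ X → Nat.card (fx M X) = 1 := fun X hX => by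
    rw [Subgroup.card_eq_one, eq_bot_iff]
    exact fun u hu => Subgroup.mem_bot.2 (h1 u (fx_anti hX hu))
  have h3 : Y.card + 2 = t := by
    rw [hY, card_compl, card_insert_of_notMem (by simp [nab, nac, nad]),
      card_insert_of_notMem (by simp [nbc, nbd]), card_pair ncd]
    omega
  have ha : a ∉ Y := by simp [hY]
  have hb : b ∉ insert a Y := by simp [hY, nab.symm]
  have hc' : c ∉ insert a Y := by simp [hY, nac.symm]
  have h4 : ¬ 2 ∣ Nat.card (fx M (insert a Y)) := by rw [h2 _ (subset_insert _ _)]; omega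
  have h5 : ∀ u ∈ fx M Y, u a = a := fun u hu => by rw [h1 u hu]; rfl
  have h6 : ∀ x, Y ⊆ insert x (insert a Y) := fun x =>
    (subset_insert _ _).trans (subset_insert _ _)
  obtain ⟨b1, -, b3, -⟩ := hfix α β G M ι t 2 B₀ A₀ hc hl Y a b h3 ha hb h4 h5
  obtain ⟨-, -, c3, -⟩ := hfix α β G M ι t 2 B₀ A₀ hc hl Y a c h3 ha hc' h4 h5
  have h7 : ee G t ((insert c (insert a Y)).map ι) = ee G t ((insert b (insert a Y)).map ι) := by
    have e1 := b3 (h2 _ (h6 b))
    have e2 := c3 (h2 _ (h6 c))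
    rw [hβ, Nat.add_sub_cancel_left] at e1 e2
    omega
  obtain ⟨p, hp1, hp2⟩ := Nat.exists_prime_and_dvd b1.ne'
  have hp3 := h7 ▸ hp2
  rw [map_insert] at hp2 hp3
  obtain ⟨g, hg, hg'⟩ := (hcore α G t hc.hh (by omega) hc.nh).2.1 p hp1 ((insert a Y).map ι)
    (ι b) (ι c) (by rw [card_map, card_insert_of_notMem ha]; omega)
    (by rwa [mem_map' ι]) (by rwa [mem_map' ι]) hp2 hp3
  obtain ⟨u, hu, hu'⟩ := hl.fus (insert b (insert a Y)) (by rw [h2 _ (h6 b)]; omega) g hg.1
    (fun x => if x = b then c else x) (fun x hx => by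
      by_cases e : x = b
      · rw [if_pos e, e, hg']
      · rw [if_neg e]
        exact hg.2 _ (mem_map_of_mem ι ((mem_insert.1 hx).resolve_left e)))
  have h8 : u = 1 := h1 u ⟨hu, fun x hx => by
    rw [hu' x (h6 b hx), if_neg]
    rintro rfl
    exact hb (mem_insert_of_mem hx)⟩
  have h9 := hu' b (mem_insert_self _ _)
  rw [h8, if_pos rfl] at h9
  exact nbc h9

end CL2

open CL2 in
theorem cl2_of (hcore : St_core) (homega : St_omega) (hfix : St_fix) (htwob : St_twob)
    (hcl3 : St_cl3) (hswap : St_swap) : St_cl2 := by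
  classical
  intro α _ _ β _ _ G M ι t B₀ A₀ hc hl h2 A hA hA2
  have ht := hc.ht
  have hn := hc.hn
  have h1 : Triv M (t + 1) := by
    intro g hg X hX hf
    obtain ⟨X', hX', hX''⟩ := exists_subset_card_eq hX
    obtain ⟨a, ha⟩ := h2 (X'.map ι) (by rwa [card_map])
    have e1 := hl.dvd X'
    have e2 := hl.big X' hX''.ge
    rw [ha, Nat.dvd_prime_pow Nat.prime_two] at e1
    obtain ⟨i, -, hi⟩ := e1
    have e3 : i = 0 := by
      by_contra e
      exact e2 (hi ▸ dvd_pow_self 2 e)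
    rw [e3, pow_zero, Subgroup.card_eq_one, eq_bot_iff] at hi
    exact Subgroup.mem_bot.1 (hi ⟨hg, fun x hx => hf x (hX' hx)⟩)
  obtain ⟨A', hA', hA2'⟩ := (hcore α G t hc.hh (by omega) hc.nh).2.2.2.2 2 Nat.prime_two
  have h3 : ∀ C : Finset β, C.card = t + 1 → (∃ x ∈ C, 2 ∣ Nat.card (fx M (C.erase x))) ∧
      ∃ x ∈ C, ¬ 2 ∣ Nat.card (fx M (C.erase x)) := fun C hC => by
    obtain ⟨x, hx, hx'⟩ := hc.hh.erase_map (ι := ι) hA hC
    obtain ⟨y, hy, hy'⟩ := hc.hh.erase_map (ι := ι) hA' hC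
    refine ⟨⟨x, hx, ?_⟩, y, hy, ?_⟩
    · rwa [hl.dvd_ee (by rw [card_erase_of_mem hx]; omega), ee_orb hx']
    · rwa [hl.dvd_ee (by rw [card_erase_of_mem hy]; omega), ee_orb hy']
  have hβ := homega β M t ht hl.lo h1 h3
  have h4 : ∀ x : β, (∃ y, y ≠ x ∧ swap x y ∈ M) ∧ ∃ y, swap x y ∉ M := fun x => by
    have e : ∀ y : β, ({x} : Finset β)ᶜ.erase y = ({x, y} : Finset β)ᶜ := fun y => by
      ext z; simp [and_comm]
    obtain ⟨⟨y, hy, hy'⟩, z, hz, hz'⟩ := h3 {x}ᶜ (by rw [card_compl, card_singleton]; omega)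
    simp only [mem_compl, mem_singleton] at hy hz
    rw [e, ← swap_iff (Ne.symm hy)] at hy'
    rw [e, ← swap_iff (Ne.symm hz)] at hz'
    exact ⟨⟨y, hy, hy'⟩, z, hz'⟩
  have hp := fun x => (h4 x).1
  obtain ⟨a⟩ : Nonempty β := Fintype.card_pos_iff.1 (by omega)
  obtain ⟨b, hab⟩ := (h4 a).2
  by_cases h5 : ∃ c, swap a c ∉ M ∧ swap b c ∉ M
  · obtain ⟨c, hac, hbc⟩ := h5
    have h6 : ∀ x, swap a x ∉ M → swap b x ∉ M → swap c x ∈ M := fun x h h' => by
      by_contra h''
      exact four hcore hfix hc hl hβ hp hab hac h hbc h' h''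
    have h7 : ∀ x y, swap x y ∈ M ↔
        (if swap a x ∈ M then 0 else if swap b x ∈ M then 1 else 2 : Fin 3) =
          if swap a y ∈ M then 0 else if swap b y ∈ M then 1 else 2 := by
      intro x y
      constructor
      · intro h
        have e : ∀ z, swap z x ∈ M ↔ swap z y ∈ M := fun z =>
          ⟨fun h' => trans' h' h, fun h' => trans' h' (symm' h)⟩
        simp only [e]
      · intro h
        split_ifs at h with e1 e2 e3 e4 e5 e6 e7 e8 <;> try exact absurd h (by decide)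
        · exact trans' (symm' e1) e2
        · exact trans' (symm' e4) e6
        · exact trans' (symm' (h6 x e1 e4)) (h6 y e7 e8)
    refine hcl3 α β G M ι t B₀ A₀
      (fun x => if swap a x ∈ M then 0 else if swap b x ∈ M then 1 else 2) hc hl hβ
      (fun x y _ => h7 x y) fun i => ?_
    have h8 : ∃ x, (if swap a x ∈ M then 0 else if swap b x ∈ M then 1 else 2 : Fin 3) = i := by
      fin_cases i
      · exact ⟨a, by rw [if_pos (rfl' a)]; rfl⟩
      · exact ⟨b, by rw [if_neg hab, if_pos (rfl' b)]; rfl⟩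
      · exact ⟨c, by rw [if_neg hac, if_neg hbc]; rfl⟩
    obtain ⟨x, hx⟩ := h8
    obtain ⟨y, hy, hy'⟩ := hp x
    exact ⟨x, y, hy.symm, hx, ((h7 x y).1 hy').symm.trans hx⟩
  · have h6 : ∀ x, swap a x ∉ M → swap b x ∈ M := fun x h => by
      by_contra h'
      exact h5 ⟨x, h, h'⟩
    set V : Finset β := univ.filter fun x => swap a x ∈ M with hV
    have mV : ∀ x, x ∈ V ↔ swap a x ∈ M := fun x => by simp [hV]
    have sV : ∀ x ∈ V, ∀ y ∈ V, swap x y ∈ M := fun x hx y hy =>
      trans' (symm' ((mV x).1 hx)) ((mV y).1 hy)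
    have sV' : ∀ x ∈ Vᶜ, ∀ y ∈ Vᶜ, swap x y ∈ M := fun x hx y hy =>
      trans' (symm' (h6 x fun h => mem_compl.1 hx ((mV x).2 h)))
        (h6 y fun h => mem_compl.1 hy ((mV y).2 h))
    refine htwob α β G M ι t 2 B₀ A₀ V hc hl hβ ?_ ?_ (hswap β M V (Or.inl sV)) ?_
      (Or.inr fun x hx y hy hxy => ?_)
    · obtain ⟨y, hy, hy'⟩ := hp a
      exact one_lt_card.2 ⟨a, (mV a).2 (rfl' a), y, (mV y).2 hy', hy.symm⟩
    · obtain ⟨y, hy, hy'⟩ := hp b
      exact one_lt_card.2 ⟨b, mem_compl.2 fun h => hab ((mV b).1 h), y,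
        mem_compl.2 fun h => hab (trans' ((mV y).1 h) (symm' hy')), hy.symm⟩
    · have := hswap β M Vᶜ (Or.inl sV')
      rwa [compl_compl] at this
    · rw [← hl.dvd_ee (by rw [card_compl, card_pair hxy]; omega), ← swap_iff hxy]
      exact sV x hx y hy

end Pool.Agent.H5Hom
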