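import Pool.Agent.Lib.MP_078193_al.MBlue

/-! Three classes of transpositions on `t + 2` points are impossible. -/

open Finset Equiv
open scoped Pointwise

set_option linter.unusedSectionVars false

namespace Pool.Agent.H5Hom

namespace Cl3

variable {α : Type} [Fintype α] [DecidableEq α] {β : Type} [Fintype β] [DecidableEq β]

/-- image of the complement -/
def Pm (ι : β ↪ α) (S : Finset β) : Finset α := Sᶜ.map ι

variable {G : Subgroup (Perm α)} {M : Subgroup (Perm β)} {ι : β ↪ α} {t : ℕ}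
  {B₀ A₀ : Finset α} {c : β → Fin 3}

lemma mem_Pm {S : Finset β} {z : β} : ι z ∈ Pm ι S ↔ z ∉ S := by
  rw [Pm, mem_map', mem_compl]

lemma mem_Pm' {S : Finset β} {y : α} : y ∈ Pm ι S ↔ ∃ z, z ∉ S ∧ ι z = y := by
  simp [Pm]

lemma card_Pm (S : Finset β) : (Pm ι S).card + S.card = Fintype.card β := by
  rw [Pm, card_map, card_compl_add_card]

lemma Pm_erase (S : Finset β) (z : β) : (Pm ι S).erase (ι z) = Pm ι (insert z S) := by
  rw [Pm, Pm, compl_insert, map_erase']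

lemma Pm_insert {S : Finset β} {z : β} (hz : z ∉ S) :
    insert (ι z) (Pm ι (insert z S)) = Pm ι S := by
  rw [← Pm_erase, insert_erase (mem_Pm.2 hz)]

lemma mem_of_fix {S : Finset β} {g : Perm β} (h : ∀ w ∈ Sᶜ, g w = w) {x : β} (hx : x ∈ S) :
    g x ∈ S := by
  by_contra hn
  have := g.injective (h _ (mem_compl.2 hn))
  exact hn (this.symm ▸ hx)

lemma invol {S : Finset β} (hS : S.card ≤ 3) {g : Perm β} (h2 : ∀ x, g (g x) = x) (h1 : g ≠ 1)
    (h : ∀ w ∈ Sᶜ, g w = w) : ∃ p ∈ S, ∃ q ∈ S, p ≠ q ∧ g = swap p q := by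
  obtain ⟨p, hp⟩ : ∃ p, g p ≠ p := by
    by_contra hn
    push Not at hn
    exact h1 (Perm.ext hn)
  have hpS : p ∈ S := by
    by_contra hn
    exact hp (h p (mem_compl.2 hn))
  refine ⟨p, hpS, g p, mem_of_fix h hpS, hp.symm, Perm.ext fun w => ?_⟩
  by_cases e1 : w = p
  · rw [e1, swap_apply_left]
  by_cases e2 : w = g p
  · rw [e2, swap_apply_right, h2]
  rw [swap_apply_of_ne_of_ne e1 e2]
  by_contra e3
  have hw : w ∈ S := by
    by_contra hn
    exact e3 (h w (mem_compl.2 hn))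
  have e4 : g w ≠ p := fun e => e2 (by rw [← e, h2])
  have e5 : g w ≠ g p := fun e => e1 (g.injective e)
  have hsub : ({g w, w, p, g p} : Finset β) ⊆ S := by
    intro z hz
    simp only [mem_insert, mem_singleton] at hz
    rcases hz with rfl | rfl | rfl | rfl
    exacts [mem_of_fix h hw, hw, hpS, mem_of_fix h hpS]
  have := card_le_card hsub
  rw [card_insert_of_notMem (by simp [e3, e4, e5]), card_insert_of_notMem (by simp [e1, e2]),
    card_pair hp.symm] at this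
  omega

lemma two_dvd {X : Finset β} {x y : β} (hxy : x ≠ y) (h : swap x y ∈ M) (hx : x ∉ X)
    (hy : y ∉ X) : 2 ∣ Nat.card (fx M X) := by
  have hm : swap x y ∈ fx M X := ⟨h, fun z hz =>
    swap_apply_of_ne_of_ne (fun e => hx (e ▸ hz)) (fun e => hy (e ▸ hz))⟩
  have : orderOf (⟨swap x y, hm⟩ : fx M X) = 2 := by
    refine orderOf_eq_prime (Subtype.ext ?_) fun e => hxy ?_
    · simp [pow_two]
    · exact swap_eq_one_iff.1 (congrArg Subtype.val e)
  exact this ▸ orderOf_dvd_natCard _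

/-- the data of the block -/
structure D (G : Subgroup (Perm α)) (M : Subgroup (Perm β)) (ι : β ↪ α) (t : ℕ)
    (B₀ A₀ : Finset α) (c : β → Fin 3) : Prop where
  core : St_core
  cex : Cex G t B₀ A₀
  link : Link G t 2 M ι
  card : Fintype.card β = t + 2
  sw : ∀ x y, x ≠ y → (swap x y ∈ M ↔ c x = c y)
  two : ∀ i, ∃ x y, x ≠ y ∧ c x = i ∧ c y = i

namespace D

variable (h : D G M ι t B₀ A₀ c)
include h

lemma swap_mem {x y : β} (e : c x = c y) : swap x y ∈ M := by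
  by_cases hxy : x = y
  · rw [hxy, swap_self]; exact M.one_mem
  · exact (h.sw x y hxy).2 e

lemma generic {S : Finset β} (hS : S.card ≤ 3) (hi : ∀ p ∈ S, ∀ q ∈ S, c p = c q → p = q) :
    ¬ 2 ∣ Nat.card (fx M Sᶜ) := by
  intro hd
  obtain ⟨g, hg⟩ := exists_prime_orderOf_dvd_card' 2 hd
  have h2 : (g : Perm β) * g = 1 := by
    have := pow_orderOf_eq_one g
    rw [hg, pow_two] at this
    exact congrArg Subtype.val this
  have h1 : (g : Perm β) ≠ 1 := fun e => by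
    rw [show g = 1 from Subtype.ext e, orderOf_one] at hg
    omega
  obtain ⟨p, hp, q, hq, hpq, e⟩ := invol hS (fun x => by
    rw [← Perm.mul_apply, h2, Perm.one_apply]) h1 g.2.2
  exact hpq (hi p hp q hq ((h.sw p q hpq).1 (e ▸ g.2.1)))

lemma card2 {x y : β} (hxy : x ≠ y) : (Pm ι {x, y}).card = t := by
  have := card_Pm (ι := ι) {x, y}
  rw [card_pair hxy, h.card] at this
  omega

lemma card3 {x y z : β} (h1 : x ≠ y) (h2 : x ≠ z) (h3 : y ≠ z) :
    (Pm ι {x, y, z}).card + 1 = t := by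
  have := card_Pm (ι := ι) {x, y, z}
  rw [card_insert_of_notMem (by simp [h1, h2]), card_pair h3, h.card] at this
  omega

lemma dvd_iff {x y : β} (hxy : x ≠ y) : 2 ∣ ee G t (Pm ι {x, y}) ↔ c x = c y := by
  have hc := h.card2 hxy
  rw [Pm, card_map] at hc
  rw [Pm, ← h.link.dvd_ee hc]
  refine ⟨fun hd => ?_, fun e => two_dvd hxy (h.swap_mem e) (by simp) (by simp)⟩
  by_contra hne
  refine h.generic (card_le_two.trans (by omega)) (fun p hp q hq e => ?_) hd
  simp only [mem_insert, mem_singleton] at hp hq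
  rcases hp with rfl | rfl <;> rcases hq with rfl | rfl
  exacts [rfl, absurd e hne, absurd e.symm hne, rfl]

lemma cor : (∀ p : ℕ, p.Prime → ∀ (B : Finset α) (x x' : α), B.card + 1 = t → x ∉ B → x' ∉ B →
      p ∣ ee G t (insert x B) → p ∣ ee G t (insert x' B) → ∃ g ∈ fx G B, g x = x') ∧
    ∀ p : ℕ, p.Prime → ∀ A A' : Finset α, A.card = t → A'.card = t →
      p ∣ ee G t A → p ∣ ee G t A' → A' ∈ orb G A := by
  have := h.core α G t h.cex.hh (by have := h.cex.hn; omega) h.cex.nh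
  exact ⟨this.2.1, this.2.2.1⟩

lemma same {x y x' y' : β} (h1 : x ≠ y) (h2 : x' ≠ y') (e1 : c x = c y) (e2 : c x' = c y') :
    Pm ι {x', y'} ∈ orb G (Pm ι {x, y}) :=
  h.cor.2 2 Nat.prime_two _ _ (h.card2 h1) (h.card2 h2) ((h.dvd_iff h1).2 e1)
    ((h.dvd_iff h2).2 e2)

lemma mv {S : Finset β} {x x' : β} (e : c x = c x') (hS : ∀ y ∈ S, c y ≠ c x) :
    Pm ι (insert x' S) ∈ orb G (Pm ι (insert x S)) := by
  refine h.link.orb_map (mem_orb.2 ⟨swap x x', h.swap_mem e, ?_⟩)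
  ext z
  rw [mem_smul, swap_inv, mem_compl, mem_compl, mem_insert, mem_insert, not_iff_not]
  have h1 : x ∉ S := fun hx => hS x hx rfl
  have h2 : x' ∉ S := fun hx => hS x' hx e.symm
  by_cases e1 : z = x
  · subst e1
    rw [swap_apply_left]
    simp only [h1, h2, or_false]
    exact eq_comm
  by_cases e2 : z = x'
  · subst e2
    simp
  rw [swap_apply_of_ne_of_ne e1 e2]
  simp [e1, e2]

lemma mv2 {x y x' y' : β} (hne : c x ≠ c y) (e1 : c x = c x') (e2 : c y = c y') :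
    Pm ι {x', y'} ∈ orb G (Pm ι {x, y}) := by
  have a1 := h.mv (S := {y}) e1 (by simpa using hne.symm)
  have a2 := h.mv (S := {x'}) e2 (by simpa [← e1] using hne)
  rw [pair_comm y x', pair_comm y' x'] at a2
  exact orb_trans a1 a2

lemma mv3 {x y z x' y' z' : β} (n1 : c x ≠ c y) (n2 : c x ≠ c z) (n3 : c y ≠ c z)
    (e1 : c x = c x') (e2 : c y = c y') (e3 : c z = c z') :
    Pm ι {x', y', z'} ∈ orb G (Pm ι {x, y, z}) := by
  have a1 := h.mv (S := {y, z}) e1 (by simpa using ⟨n1.symm, n2.symm⟩)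
  have a2 := h.mv (S := {x', z}) e2 (by simpa [← e1] using ⟨n1, n3.symm⟩)
  have a3 := h.mv (S := {x', y'}) e3 (by simpa [← e1, ← e2] using ⟨n2, n3⟩)
  rw [Finset.insert_comm y x', Finset.insert_comm y' x'] at a2
  rw [Finset.insert_comm z x', Finset.insert_comm z' x', pair_comm z y', pair_comm z' y'] at a3
  exact orb_trans (orb_trans a1 a2) a3

lemma shows (x : β) {A : Finset α} (hA : A.card = t) : ∃ y, x ≠ y ∧ Pm ι {x, y} ∈ orb G A := by
  obtain ⟨y, hy, hy'⟩ := h.cex.hh.erase_map (ι := ι) hA (C := ({x} : Finset β)ᶜ)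
    (by rw [card_compl, h.card, card_singleton]; rfl)
  refine ⟨y, fun e => by simp [e] at hy, ?_⟩
  rwa [← compl_insert, pair_comm] at hy'

lemma third {x y z : β} (n1 : c x ≠ c y) (n2 : c x ≠ c z) (n3 : c y ≠ c z) :
    Pm ι {x, y} ∈ orb G (Pm ι {y, z}) ∨ Pm ι {x, z} ∈ orb G (Pm ι {y, z}) := by
  have hyz : y ≠ z := fun e => n3 (by rw [e])
  obtain ⟨w, hw, hw'⟩ := h.shows x (h.card2 hyz)
  have n4 : c x ≠ c w := fun e => by
    have := (h.dvd_iff hw).2 e
    rw [ee_orb hw'] at this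
    exact n3 ((h.dvd_iff hyz).1 this)
  have : c w = c y ∨ c w = c z := by
    revert n1 n2 n3 n4
    generalize c x = i, c y = j, c z = k, c w = l
    revert i j k l
    decide
  rcases this with e | e
  · exact Or.inl (orb_trans hw' (h.mv2 n4 rfl e))
  · exact Or.inr (orb_trans hw' (h.mv2 n4 rfl e))

lemma cross0 {x y z : β} (n1 : c x ≠ c y) (n2 : c x ≠ c z) (n3 : c y ≠ c z) :
    Pm ι {x, z} ∈ orb G (Pm ι {x, y}) := by
  have a1 := h.third n1 n2 n3
  have a2 := h.third n1.symm n3 n2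
  have a3 := h.third n2.symm n3.symm n1
  rw [pair_comm y x] at a2
  rw [pair_comm z x, pair_comm z y] at a3
  rcases a3 with a3 | a3
  · exact a3
  · rcases a2 with a2 | a2
    · exact orb_symm a2
    · exact orb_trans a3 (orb_symm a2)

lemma cross {x y x' y' : β} (n : c x ≠ c y) (n' : c x' ≠ c y') :
    Pm ι {x', y'} ∈ orb G (Pm ι {x, y}) := by
  have key : ∀ {x y y' : β}, c x ≠ c y → c x ≠ c y' → Pm ι {x, y'} ∈ orb G (Pm ι {x, y}) := by
    intro x y y' n1 n2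
    by_cases e : c y = c y'
    · exact h.mv2 n1 rfl e
    · exact h.cross0 n1 n2 e
  by_cases e : c x = c y'
  · have a1 := key n (y' := x') (fun e' => n' (e'.symm.trans e))
    have a2 := h.mv2 (x := x) (y := x') (x' := y') (y' := x') (fun e' => n' (e'.symm.trans e)) e rfl
    rw [pair_comm y' x'] at a2
    exact orb_trans a1 a2
  · have a1 := key n e
    have a2 := key (x := y') (y := x) (y' := x') (Ne.symm e) n'.symm
    rw [pair_comm y' x, pair_comm y' x'] at a2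
    exact orb_trans a1 a2

lemma twoT : Two G t := by
  intro A B C hA hB hC
  obtain ⟨x, -⟩ := h.two 0
  obtain ⟨a, a1, a2⟩ := h.shows x hA
  obtain ⟨b, b1, b2⟩ := h.shows x hB
  obtain ⟨d, d1, d2⟩ := h.shows x hC
  have key : ∀ {A B : Finset α} {a b : β}, x ≠ a → x ≠ b → Pm ι {x, a} ∈ orb G A →
      Pm ι {x, b} ∈ orb G B → (c x = c a ↔ c x = c b) → B ∈ orb G A := by
    intro A B a b a1 b1 a2 b2 e
    refine orb_trans (orb_trans a2 ?_) (orb_symm b2)
    by_cases e' : c x = c a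
    · exact h.same a1 b1 e' (e.1 e')
    · exact h.cross e' fun e'' => e' (e.2 e'')
  by_cases e1 : c x = c a ↔ c x = c b
  · exact Or.inl (key a1 b1 a2 b2 e1)
  by_cases e2 : c x = c a ↔ c x = c d
  · exact Or.inr (Or.inl (key a1 d1 a2 d2 e2))
  · exact Or.inr (Or.inr (key b1 d1 b2 d2 (by tauto)))

lemma conj {B B' : Finset α} (hB : B.card + 1 = t) (hB' : B'.card + 1 = t) (n : B ∉ orb G B₀)
    (n' : B' ∉ orb G B₀) : B' ∈ orb G B := by
  have h2 := h.twoT
  have h3 := h.cex.hB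
  have h4 := h.cex.hn
  rw [← h3] at h2
  have := h2.pred (by omega) B₀ B B' rfl (by omega) (by omega)
  tauto

omit h in
lemma sig_orb {A A' : Finset α} (e : A' ∈ orb G A) : (Sig G B₀ A').card = (Sig G B₀ A).card := by
  obtain ⟨g, hg, rfl⟩ := mem_orb.1 e
  rw [Sig_smul hg, card_smul]

omit h in
lemma not_mem_of_pure {x y : β} (hp : Sig G B₀ (Pm ι {x, y}) = ∅) {z : β} (h1 : z ≠ x)
    (h2 : z ≠ y) : Pm ι {z, x, y} ∉ orb G B₀ := by
  intro e
  have : ι z ∈ Sig G B₀ (Pm ι {x, y}) :=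
    mem_Sig.2 ⟨mem_Pm.2 (by simp [h1, h2]), by rwa [Pm_erase]⟩
  simp [hp] at this

lemma gen3 {x y z : β} (n1 : c x ≠ c y) (n2 : c x ≠ c z) (n3 : c y ≠ c z) :
    ¬ 2 ∣ Nat.card (fx M ({x, y, z} : Finset β)ᶜ) := by
  refine h.generic card_le_three fun p hp q hq e => ?_
  simp only [mem_insert, mem_singleton] at hp hq
  rcases hp with rfl | rfl | rfl <;> rcases hq with rfl | rfl | rfl <;> first | rfl | simp_all

lemma cross_not_pure {x y : β} (n : c x ≠ c y) : Sig G B₀ (Pm ι {x, y}) ≠ ∅ := by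
  intro hp
  have hp' : ∀ {x' y' : β}, c x' ≠ c y' → Sig G B₀ (Pm ι {x', y'}) = ∅ := fun n' => by
    rw [← card_eq_zero, sig_orb (h.cross n n'), hp, card_empty]
  obtain ⟨a, a', a1, a2, a3⟩ := h.two 0
  obtain ⟨b, -, -, b2, -⟩ := h.two 1
  obtain ⟨d, -, -, d2, -⟩ := h.two 2
  have nab : c a ≠ c b := by rw [a2, b2]; decide
  have nad : c a ≠ c d := by rw [a2, d2]; decide
  have nbd : c b ≠ c d := by rw [b2, d2]; decide
  have na'b : c a' ≠ c b := by rw [a3, b2]; decide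
  have ne : ∀ {p q : β}, c p ≠ c q → p ≠ q := fun n e => n (by rw [e])
  have e := h.conj (h.card3 (ne nab) (ne nad) (ne nbd)) (h.card3 a1 (ne nab) (ne na'b))
    (not_mem_of_pure (hp' nbd) (ne nab) (ne nad)) (not_mem_of_pure (hp' na'b) a1 (ne nab))
  have g1 := (h.link.gen _).1 (h.gen3 nab nad nbd)
  have g2 := card_fx_of_mem_orb e
  rw [Pm, Pm] at g2
  rw [← g2] at g1
  exact (h.link.gen _).2 g1 (two_dvd a1 (h.swap_mem (a2.trans a3.symm)) (by simp) (by simp))

lemma same_pure {x y : β} (n : x ≠ y) (e : c x = c y) : Sig G B₀ (Pm ι {x, y}) = ∅ := by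
  obtain ⟨z, z1, z2⟩ := h.shows x h.cex.hA
  have h0 : Sig G B₀ (Pm ι {x, z}) = ∅ := by
    rw [← card_eq_zero, sig_orb z2, h.cex.sig_empty, card_empty]
  have e' : c x = c z := by
    by_contra n'
    exact h.cross_not_pure n' h0
  rw [← card_eq_zero, sig_orb (h.same z1 n e' e), h0, card_empty]

lemma mem_sig {x y : β} (n : c x ≠ c y) (z : β) :
    ι z ∈ Sig G B₀ (Pm ι {x, y}) ↔ c z ≠ c x ∧ c z ≠ c y := by
  have key : ∀ z, ι z ∈ Sig G B₀ (Pm ι {x, y}) → c z ≠ c x ∧ c z ≠ c y := by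
    intro z hz
    obtain ⟨z1, z2⟩ := mem_Sig.1 hz
    rw [mem_Pm] at z1
    rw [Pm_erase] at z2
    simp only [mem_insert, mem_singleton, not_or] at z1
    have nxy : x ≠ y := fun e => n (by rw [e])
    refine ⟨fun e => ?_, fun e => ?_⟩
    · refine not_mem_of_pure (h.same_pure z1.1 e) (z := y) (Ne.symm z1.2) nxy.symm ?_
      rwa [Finset.insert_comm y z, pair_comm y x]
    · refine not_mem_of_pure (h.same_pure z1.2 e) (z := x) (Ne.symm z1.1) nxy ?_
      rwa [Finset.insert_comm x z]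
  refine ⟨key z, fun ⟨n1, n2⟩ => ?_⟩
  obtain ⟨w, hw⟩ := nonempty_iff_ne_empty.2 (h.cross_not_pure n)
  obtain ⟨w', -, rfl⟩ := mem_Pm'.1 (mem_Sig.1 hw).1
  obtain ⟨m1, m2⟩ := key w' hw
  have e : c w' = c z := by
    revert n n1 n2 m1 m2
    generalize c x = i, c y = j, c z = k, c w' = l
    revert i j k l
    decide
  have w2 := (mem_Sig.1 hw).2
  rw [Pm_erase] at w2
  refine mem_Sig.2 ⟨mem_Pm.2 ?_, ?_⟩
  · simp only [mem_insert, mem_singleton, not_or]
    exact ⟨fun e => n1 (by rw [e]), fun e => n2 (by rw [e])⟩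
  · rw [Pm_erase]
    exact orb_trans w2 (h.mv3 m1 m2 n e rfl rfl)

lemma sig_eq {x y : β} (n : c x ≠ c y) {k : Fin 3} (n1 : k ≠ c x) (n2 : k ≠ c y) :
    Sig G B₀ (Pm ι {x, y}) = (univ.filter (c · = k)).map ι := by
  have key : ∀ z, (c z ≠ c x ∧ c z ≠ c y) ↔ c z = k := by
    intro z
    revert n n1 n2
    generalize c x = i, c y = j, c z = l
    revert i j k l
    decide
  ext w
  constructor
  · intro hw
    obtain ⟨z, -, rfl⟩ := mem_Pm'.1 (mem_Sig.1 hw).1
    rw [mem_map']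
    simpa using (key z).1 ((h.mem_sig n z).1 hw)
  · intro hw
    obtain ⟨z, hz, rfl⟩ := mem_map.1 hw
    exact (h.mem_sig n z).2 ((key z).2 (by simpa using hz))

lemma sizes : ∃ u, 3 ≤ u ∧ ∀ k, (univ.filter (c · = k)).card = u := by
  obtain ⟨a, -, -, a2, -⟩ := h.two 0
  obtain ⟨b, -, -, b2, -⟩ := h.two 1
  obtain ⟨d, -, -, d2, -⟩ := h.two 2
  have nab : c a ≠ c b := by rw [a2, b2]; decide
  have nad : c a ≠ c d := by rw [a2, d2]; decide
  have nbd : c b ≠ c d := by rw [b2, d2]; decide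
  have e1 := sig_orb (B₀ := B₀) (h.cross nbd nad)
  have e2 := sig_orb (B₀ := B₀) (h.cross nbd nab)
  have s0 := h.sig_eq nbd (k := 0) (by rw [b2]; decide) (by rw [d2]; decide)
  rw [s0, h.sig_eq nad (k := 1) (by rw [a2]; decide) (by rw [d2]; decide), card_map, card_map] at e1
  rw [s0, h.sig_eq nab (k := 2) (by rw [a2]; decide) (by rw [b2]; decide), card_map, card_map] at e2
  have e3 := card_eq_sum_card_fiberwise (s := (univ : Finset β)) (t := (univ : Finset (Fin 3)))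
    (f := c) (fun _ _ => mem_coe.2 (mem_univ _))
  rw [Fin.sum_univ_three, card_univ, h.card] at e3
  have := h.cex.ht
  refine ⟨(univ.filter (c · = 0)).card, by omega, fun k => ?_⟩
  fin_cases k
  exacts [rfl, e1, e2]

lemma trans {a a' : β} (n : a ≠ a') (e : c a = c a') {y y' : α} (hy : y ∈ Pm ι {a, a'})
    (hy' : y' ∈ Pm ι {a, a'}) : ∃ g ∈ G, g • Pm ι {a, a'} = Pm ι {a, a'} ∧ g y = y' := by
  have hc := h.card2 n
  have ht := h.cex.ht
  have hd := (h.dvd_iff n).2 e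
  have hp := h.same_pure n e
  generalize Pm ι {a, a'} = A at *
  have no : ∀ y ∈ A, A.erase y ∉ orb G B₀ := fun y hy e => by
    have : y ∈ Sig G B₀ A := mem_Sig.2 ⟨hy, e⟩
    simp [hp] at this
  have cd : ∀ y ∈ A, (A.erase y).card + 1 = t := fun y hy => by
    rw [card_erase_add_one hy, hc]
  obtain ⟨g, hg, e1⟩ := mem_orb.1 (h.conj (cd y hy) (cd y' hy') (no y hy) (no y' hy'))
  have e2 : g • A = insert (g y) (A.erase y') := by rw [← e1, ← smul_insert, insert_erase hy]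
  obtain ⟨k, hk, e3⟩ := h.cor.1 2 Nat.prime_two (A.erase y') (g y) y' (cd y' hy')
    (by rw [← e1, apply_mem_smul]; exact notMem_erase _ _) (notMem_erase _ _)
    (by rw [← e2, ee_orb (mem_orb.2 ⟨g, hg, rfl⟩)]; exact hd) (by rwa [insert_erase hy'])
  refine ⟨k * g, G.mul_mem hk.1 hg, ?_, e3⟩
  have e4 : k • A.erase y' = A.erase y' := by
    rw [smul_eq_image]
    exact (image_congr fun z hz => hk.2 z hz).trans image_id
  rw [mul_smul, e2, smul_insert, e3, e4, insert_erase hy']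

end D

/-- some element acts on `A` as the transposition -/
def R (G : Subgroup (Perm α)) (A : Finset α) (y y' : α) : Prop :=
  ∃ g ∈ G, ∀ z ∈ A, g z = swap y y' z

lemma R.refl (A : Finset α) (y : α) : R G A y y := ⟨1, G.one_mem, fun z _ => by simp⟩

lemma R.symm {A : Finset α} {y y' : α} (h : R G A y y') : R G A y' y := by
  rwa [R, swap_comm]

lemma swap_mem' {A : Finset α} {y y' z : α} (h1 : y ∈ A) (h2 : y' ∈ A) (hz : z ∈ A) :
    swap y y' z ∈ A := by
  rw [swap_apply_def]; split_ifs <;> assumption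

lemma R.trans {A : Finset α} {x y z : α} (hx : x ∈ A) (hy : y ∈ A) (hz : z ∈ A) (h : R G A x y)
    (h' : R G A y z) : R G A x z := by
  by_cases e1 : x = y
  · rwa [e1]
  by_cases e2 : x = z
  · rw [e2]; exact R.refl _ _
  obtain ⟨g, hg, a1⟩ := h
  obtain ⟨k, hk, a2⟩ := h'
  refine ⟨k * g * k, G.mul_mem (G.mul_mem hk hg) hk, fun w hw => ?_⟩
  rw [Perm.mul_apply, Perm.mul_apply, a2 w hw, a1 _ (swap_mem' hy hz hw),
    a2 _ (swap_mem' hx hy (swap_mem' hy hz hw)), swap_comm x z,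
    ← swap_mul_swap_mul_swap e1 e2]
  rfl

lemma R.smul {A : Finset α} {x y : α} {g : Perm α} (hg : g ∈ G) (hA : g • A = A) (h : R G A x y) :
    R G A (g x) (g y) := by
  obtain ⟨k, hk, a⟩ := h
  refine ⟨g * k * g⁻¹, G.mul_mem (G.mul_mem hg hk) (G.inv_mem hg), fun w hw => ?_⟩
  rw [swap_apply_apply, Perm.mul_apply, Perm.mul_apply, Perm.mul_apply, Perm.mul_apply,
    a _ (mem_smul.1 (hA.symm ▸ hw))]

open Classical in
lemma R.card_le {A : Finset α} {x : α} {g : Perm α} (hg : g ∈ G) (hA : g • A = A) :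
    (A.filter (R G A x)).card ≤ (A.filter (R G A (g x))).card := by
  refine card_le_card_of_injOn g (fun y hy => ?_) g.injective.injOn
  obtain ⟨h1, h2⟩ := mem_filter.1 (mem_coe.1 hy)
  exact mem_coe.2 (mem_filter.2 ⟨hA ▸ apply_mem_smul.2 h1, h2.smul hg hA⟩)

lemma swap_map (ι : β ↪ α) (x y z : β) : swap (ι x) (ι y) (ι z) = ι (swap x y z) :=
  ι.injective.swap_apply x y z

namespace D

variable (h : D G M ι t B₀ A₀ c)
include h

lemma R_of {S : Finset β} {x y : β} (e : c x = c y) : R G (Pm ι S) (ι x) (ι y) := by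
  obtain ⟨g, hg, a⟩ := h.link.lift _ (h.swap_mem e)
  refine ⟨g, hg, fun z hz => ?_⟩
  obtain ⟨w, -, rfl⟩ := mem_Pm'.1 hz
  rw [a, swap_map]

lemma exists_R {a a' : β} (n : a ≠ a') (e : c a = c a') : ∃ b d, c b ≠ c a ∧ c d ≠ c a ∧
    c b ≠ c d ∧ R G (Pm ι {a, a'}) (ι b) (ι d) := by
  classical
  obtain ⟨u, hu, hs⟩ := h.sizes
  have out : ∀ {z : β}, c z ≠ c a → ι z ∈ Pm ι {a, a'} := fun {z} hz => mem_Pm.2 (by
    simp only [mem_insert, mem_singleton, not_or]
    exact ⟨fun e' => hz (by rw [e']), fun e' => hz (by rw [e', e])⟩)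
  have eqs : ∀ y ∈ Pm ι {a, a'}, ∀ y' ∈ Pm ι {a, a'},
      ((Pm ι {a, a'}).filter (R G (Pm ι {a, a'}) y)).card ≤
        ((Pm ι {a, a'}).filter (R G (Pm ι {a, a'}) y')).card := fun y hy y' hy' => by
    obtain ⟨g, hg, e1, rfl⟩ := h.trans n e hy hy'
    exact R.card_le hg e1
  have sub : ∀ {z : β}, c z ≠ c a → (univ.filter (c · = c z)).map ι ⊆
      (Pm ι {a, a'}).filter (R G (Pm ι {a, a'}) (ι z)) := fun {z} hz w hw => by
    obtain ⟨w', hw', rfl⟩ := mem_map.1 hw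
    have e' : c w' = c z := by simpa using hw'
    exact mem_filter.2 ⟨out (e' ▸ hz), h.R_of e'.symm⟩
  -- a third point of the class of `a`
  obtain ⟨w, w1, w2⟩ := exists_mem_notMem_of_card_lt_card (s := ({a, a'} : Finset β))
    (t := univ.filter (c · = c a)) (by rw [hs, card_pair n]; omega)
  have w1' : c w = c a := by simpa using w1
  obtain ⟨k, hk⟩ := exists_ne (c a)
  obtain ⟨b₀, -, -, hb₀, -⟩ := h.two k
  have nb₀ : c b₀ ≠ c a := hb₀ ▸ hk
  have c1 := (card_le_card (sub nb₀)).trans (eqs _ (out nb₀) _ (mem_Pm.2 w2))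
  rw [card_map, hs] at c1
  obtain ⟨y, y1, y2⟩ := exists_mem_notMem_of_card_lt_card
    (s := ((univ.filter (c · = c a)).erase a).map ι) (lt_of_lt_of_le (by
      rw [card_map, card_erase_of_mem (by simp), hs]; omega) c1)
  obtain ⟨y3, y4⟩ := mem_filter.1 y1
  obtain ⟨b, b1, rfl⟩ := mem_Pm'.1 y3
  have nb : c b ≠ c a := fun e' => y2 (by
    rw [mem_map']
    exact mem_erase.2 ⟨fun e'' => b1 (by simp [e'']), by simpa using e'⟩)
  obtain ⟨l, l1, l2⟩ : ∃ l : Fin 3, l ≠ c a ∧ l ≠ c b := by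
    generalize c a = i, c b = j
    revert i j
    decide
  obtain ⟨d, -, -, hd, -⟩ := h.two l
  have nd : c d ≠ c a := hd ▸ l1
  have nd' : c b ≠ c d := hd ▸ l2.symm
  have c2 : (insert (ι w) ((univ.filter (c · = c b)).map ι)).card ≤
      ((Pm ι {a, a'}).filter (R G (Pm ι {a, a'}) (ι b))).card :=
    card_le_card (insert_subset (mem_filter.2 ⟨mem_Pm.2 w2, y4.symm⟩) (sub nb))
  rw [card_insert_of_notMem (by rw [mem_map']; simpa [w1'] using nb.symm), card_map, hs] at c2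
  obtain ⟨v, v1, v2⟩ := exists_mem_notMem_of_card_lt_card
    (s := (univ.filter (c · = c d)).map ι) (lt_of_lt_of_le (by rw [card_map, hs]; omega)
      (c2.trans (eqs _ y3 _ (out nd))))
  obtain ⟨v3, v4⟩ := mem_filter.1 v1
  obtain ⟨v', -, rfl⟩ := mem_Pm'.1 v3
  have nv : c v' ≠ c d := fun e' => v2 (by rw [mem_map']; simpa using e')
  refine ⟨b, d, nb, nd, nd', (R.trans (out nd) v3 y3 v4 ?_).symm⟩
  have : c v' = c a ∨ c v' = c b := by
    revert nb nd nd' nv
    generalize c a = i, c b = j, c d = k, c v' = l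
    revert i j k l
    decide
  rcases this with e' | e'
  · exact R.trans v3 (mem_Pm.2 w2) y3 (h.R_of (e'.trans w1'.symm)) y4
  · exact h.R_of e'

lemma corr {a b d : β} (n1 : c a ≠ c b) (n2 : c a ≠ c d) (n3 : c b ≠ c d) {x : α}
    (hx : x ∉ Pm ι {a, b, d}) :
    ∃ k ∈ fx G (Pm ι {a, b, d}), ∃ x' ∈ ({a, b, d} : Finset β), k x = ι x' := by
  have ne : ∀ {p q : β}, c p ≠ c q → p ≠ q := fun n e => n (by rw [e])
  have hc := h.card3 (ne n1) (ne n2) (ne n3)
  rw [Pm, card_map] at hc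
  obtain ⟨x', hx'⟩ := h.link.meet _ hc (h.gen3 n1 n2 n3) x hx
  obtain ⟨k, hk, e⟩ := mem_orb.1 hx'
  refine ⟨k, hk, x', ?_, e⟩
  by_contra hn
  have e' : k x = ι x' := e
  have := k.injective (e'.trans (hk.2 _ (mem_Pm.2 hn)).symm)
  exact hx (this ▸ mem_Pm.2 hn)

lemma tri_mem {a b d : β} (n1 : c a ≠ c b) (n2 : c a ≠ c d) (n3 : c b ≠ c d) :
    Pm ι {a, b, d} ∈ orb G B₀ := by
  have := (mem_Sig.1 ((h.mem_sig n3 a).2 ⟨n1, n2⟩)).2
  rwa [Pm_erase] at this

omit h in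
lemma smul_of_R {A : Finset α} {g : Perm α} {y y' : α} (hy : y ∈ A) (hy' : y' ∈ A)
    (a : ∀ z ∈ A, g z = swap y y' z) : g • A = A := by
  refine eq_of_subset_of_card_le (fun w hw => ?_) (card_smul g A).ge
  obtain ⟨z, hz, rfl⟩ := mem_image.1 hw
  change g z ∈ A
  rw [a z hz]
  exact swap_mem' hy hy' hz

lemma R_tri {a a' b b' d d' : β} (n : a ≠ a') (e : c a = c a') (n1 : c a ≠ c b) (n2 : c a ≠ c d)
    (n3 : c b ≠ c d) (eb : c b = c b') (ed : c d = c d') (nb : b ≠ b') (nd : d ≠ d')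
    (hR : R G (Pm ι {a, a'}) (ι b') (ι d')) : R G (Pm ι {a, b, d}) (ι b') (ι d') := by
  have ne : ∀ {p q : β}, c p ≠ c q → p ≠ q := fun n e => n (by rw [e])
  obtain ⟨g, hg, ag⟩ := hR
  have f1 := ne (e ▸ n1)
  have f2 := ne (e ▸ n2)
  have f3 := ne (eb ▸ n1)
  have f4 := ne (ed ▸ n2)
  have f5 := ne (eb ▸ n3)
  have f6 := ne (ed ▸ n3)
  have f7 := ne (eb ▸ e ▸ n1)
  have f8 := ne (ed ▸ e ▸ n2)
  have f9 := ne n1
  have f10 := ne n2
  have f11 := ne n3
  have ha' : a' ∉ ({a, b, d} : Finset β) := by simp [n.symm, f1, f2]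
  have hY : Pm ι {a', a, b, d} ⊆ Pm ι {a, a'} := by
    intro z hz
    obtain ⟨w, hw, rfl⟩ := mem_Pm'.1 hz
    refine mem_Pm.2 fun hw' => hw ?_
    simp only [mem_insert, mem_singleton] at hw' ⊢
    tauto
  have hb' : ι b' ∈ Pm ι {a', a, b, d} := mem_Pm.2 (by simp [f7.symm, f3.symm, nb.symm, f5])
  have hd' : ι d' ∈ Pm ι {a', a, b, d} := mem_Pm.2 (by simp [f8.symm, f4.symm, f6.symm, nd.symm])
  have gY := smul_of_R hb' hd' fun z hz => ag z (hY hz)
  have fin : ∀ f ∈ G, f (ι a') = ι a' → (∀ z ∈ Pm ι {a', a, b, d}, f z = g z) →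
      R G (Pm ι {a, b, d}) (ι b') (ι d') := fun f hf e1 e2 => ⟨f, hf, fun z hz => by
    rw [← Pm_insert ha'] at hz
    rcases mem_insert.1 hz with rfl | hz
    · rw [e1, swap_map, swap_apply_of_ne_of_ne f7 f8]
    · rw [e2 z hz, ag z (hY hz)]⟩
  by_cases hx : g (ι a') = ι a'
  · exact fin g hg hx fun _ _ => rfl
  have hx' : g (ι a') ∉ Pm ι {a, b, d} := by
    rw [← Pm_insert ha', mem_insert, not_or, ← gY, apply_mem_smul, mem_Pm]
    exact ⟨hx, by simp⟩
  obtain ⟨k, hk, x', x1, x2⟩ := h.corr n1 n2 n3 hx'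
  have kY : ∀ z ∈ Pm ι {a', a, b, d}, k (g z) = g z := fun z hz =>
    hk.2 _ (by rw [← Pm_insert ha']; exact mem_insert_of_mem (gY ▸ apply_mem_smul.2 hz))
  have e1 : (k * g) • Pm ι {a, b, d} = insert (ι x') (Pm ι {a', a, b, d}) := by
    rw [← Pm_insert ha', smul_insert, Perm.mul_apply, x2]
    congr 1
    rw [← gY, smul_eq_image, smul_eq_image]
    rw [← smul_eq_image g, gY]
    conv_rhs => rw [← gY, smul_eq_image]
    exact image_congr fun z hz => kY z hz
  have e2 : insert (ι x') (Pm ι {a', a, b, d}) ∈ orb G B₀ :=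
    e1 ▸ (smul_mem_orb (G.mul_mem hk.1 hg)).2 (h.tri_mem n1 n2 n3)
  simp only [mem_insert, mem_singleton] at x1
  rcases x1 with rfl | rfl | rfl
  · obtain ⟨s, hs, as⟩ := h.link.lift _ (h.swap_mem e)
    refine fin (s * (k * g)) (G.mul_mem hs (G.mul_mem hk.1 hg))
      (by rw [Perm.mul_apply, Perm.mul_apply, x2, as, swap_apply_left]) fun z hz => ?_
    rw [Perm.mul_apply, Perm.mul_apply, kY z hz]
    obtain ⟨w, hw, e3⟩ := mem_Pm'.1 (gY ▸ apply_mem_smul.2 hz : g z ∈ Pm ι {a', x', b, d})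
    simp only [mem_insert, mem_singleton, not_or] at hw
    rw [← e3, as, swap_apply_of_ne_of_ne hw.2.1 hw.1]
  · refine absurd ?_ (not_mem_of_pure (h.same_pure n e) f10.symm f2.symm)
    rwa [show ({a', a, x', d} : Finset β) = insert x' {d, a, a'} by
      ext z; simp only [mem_insert, mem_singleton]; tauto,
      Pm_insert (by simp [f11, f9.symm, f1.symm])] at e2
  · refine absurd ?_ (not_mem_of_pure (h.same_pure n e) f9.symm f1.symm)
    rwa [show ({a', a, b, x'} : Finset β) = insert x' {b, a, a'} by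
      ext z; simp only [mem_insert, mem_singleton]; tauto,
      Pm_insert (by simp [f11.symm, f10.symm, f2.symm])] at e2

lemma final : False := by
  have ne : ∀ {p q : β}, c p ≠ c q → p ≠ q := fun n e => n (by rw [e])
  obtain ⟨a, a', n, a1, a2⟩ := h.two 0
  have e : c a = c a' := a1.trans a2.symm
  obtain ⟨b', d', m1, m2, m3, hR⟩ := h.exists_R n e
  obtain ⟨u, hu, hs⟩ := h.sizes
  have pick : ∀ (x : β) (S : Finset β), S.card ≤ 2 → ∃ y, c y = c x ∧ y ∉ S := fun x S hS => by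
    obtain ⟨y, y1, y2⟩ := exists_mem_notMem_of_card_lt_card (s := S)
      (t := univ.filter (c · = c x)) (by rw [hs]; omega)
    exact ⟨y, by simpa using y1, y2⟩
  obtain ⟨b, eb, nb⟩ := pick b' {b'} (by simp)
  obtain ⟨d, ed, nd⟩ := pick d' {d'} (by simp)
  obtain ⟨b'', eb', nb'⟩ := pick b' {b, b'} card_le_two
  simp only [mem_insert, mem_singleton, not_or] at nb nd nb'
  have n1 : c a ≠ c b := eb ▸ m1.symm
  have n2 : c a ≠ c d := ed ▸ m2.symm
  have n3 : c b ≠ c d := eb ▸ ed ▸ m3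
  obtain ⟨f, hf, af⟩ := h.R_tri n e n1 n2 n3 eb ed nb nd hR
  have hb' : ι b' ∈ Pm ι {a, b, d} :=
    mem_Pm.2 (by simp [ne m1, Ne.symm nb, ne (eb ▸ n3 : c b' ≠ c d)])
  have hd' : ι d' ∈ Pm ι {a, b, d} :=
    mem_Pm.2 (by simp [ne m2, Ne.symm nd, (ne (ed ▸ n3 : c b ≠ c d')).symm])
  have hb'' : ι b'' ∈ Pm ι {a, b, d} :=
    mem_Pm.2 (by simp [ne (eb' ▸ m1 : c b'' ≠ c a), nb'.1, ne (eb' ▸ eb ▸ n3 : c b'' ≠ c d)])
  have fB := smul_of_R hb' hd' af
  obtain ⟨k, hk, x, x1, x2⟩ := h.corr n1 n2 n3 (x := f (ι b))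
    (by rw [← fB, apply_mem_smul, mem_Pm]; simp)
  have kB : k • Pm ι {a, b, d} = Pm ι {a, b, d} := by
    rw [smul_eq_image]
    exact (image_congr fun z hz => hk.2 z hz).trans image_id
  have e0 : insert (ι b) (Pm ι {a, b, d}) = Pm ι {a, d} := by
    rw [Finset.insert_comm a b, Pm_insert (by simp [(ne n1).symm, ne n3])]
  have e1 : (k * f) • Pm ι {a, d} = insert (ι x) (Pm ι {a, b, d}) := by
    rw [← e0, smul_insert, mul_smul, fB, kB, Perm.mul_apply, x2]
  have hS := Sig_smul (B₀ := B₀) (G.mul_mem hk.1 hf) (Pm ι {a, d})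
  rw [e1] at hS
  have s1 : ι d' ∈ Sig G B₀ (insert (ι x) (Pm ι {a, b, d})) := by
    have : (k * f) (ι b') = ι d' := by
      rw [Perm.mul_apply, af _ hb', swap_apply_left, hk.2 _ hd']
    rw [hS, ← this, apply_mem_smul]
    exact (h.mem_sig n2 b').2 ⟨m1, eb ▸ n3⟩
  have s2 : ι b'' ∈ Sig G B₀ (insert (ι x) (Pm ι {a, b, d})) := by
    have : (k * f) (ι b'') = ι b'' := by
      rw [Perm.mul_apply, af _ hb'', swap_map,
        swap_apply_of_ne_of_ne nb'.2 (ne (eb' ▸ m3 : c b'' ≠ c d')), hk.2 _ hb'']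
    rw [hS, ← this, apply_mem_smul]
    exact (h.mem_sig n2 b'').2 ⟨eb' ▸ m1, eb' ▸ eb ▸ n3⟩
  simp only [mem_insert, mem_singleton] at x1
  rcases x1 with rfl | rfl | rfl
  · rw [Pm_insert (by simp [ne n1, ne n2])] at s1
    exact ((h.mem_sig n3 d').1 s1).2 ed.symm
  · rw [e0] at s1
    exact ((h.mem_sig n2 d').1 s1).2 ed.symm
  · rw [show ({a, b, x} : Finset β) = insert x {a, b} by
      ext z; simp only [mem_insert, mem_singleton]; tauto,
      Pm_insert (by simp [(ne n2).symm, (ne n3).symm])] at s2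
    exact ((h.mem_sig n1 b'').1 s2).2 (eb'.trans eb.symm)

end D

end Cl3

theorem cl3_of (h1 : St_core) (_h2 : St_swap) : St_cl3 :=
  fun _ _ _ _ _ _ _ _ _ _ _ _ _ hc hl hβ hs h2 => Cl3.D.final ⟨h1, hc, hl, hβ, hs, h2⟩

end Pool.Agent.H5Hom
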