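import Pool.Agent.Lib.MP_078193_al.MBlue2

/-! Block COF: large primes dividing the group order. -/

open Finset Equiv
open scoped Pointwise

set_option linter.unusedSectionVars false

namespace Pool.Agent.H5Hom

namespace Cof

variable {α : Type} [Fintype α] [DecidableEq α] {G Z : Subgroup (Perm α)} {p t : ℕ}

/-- normaliser inside `G` -/
def NN (G Z : Subgroup (Perm α)) : Subgroup (Perm α) := G ⊓ Subgroup.normalizer (Z : Set (Perm α))

/-- centraliser inside `G` -/
def CC (G Z : Subgroup (Perm α)) : Subgroup (Perm α) := G ⊓ Subgroup.centralizer (Z : Set (Perm α))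

lemma mem_NN {g : Perm α} : g ∈ NN G Z ↔ g ∈ G ∧ ∀ h, h ∈ Z ↔ g * h * g⁻¹ ∈ Z := by
  rw [NN, Subgroup.mem_inf, Subgroup.mem_normalizer_iff]

lemma mem_CC {g : Perm α} : g ∈ CC G Z ↔ g ∈ G ∧ ∀ h ∈ Z, h * g = g * h := by
  rw [CC, Subgroup.mem_inf, Subgroup.mem_centralizer_iff]
  rfl

lemma CC_le : CC G Z ≤ NN G Z := inf_le_inf_left _ (Subgroup.centralizer_le_normalizer _)

lemma inv_NN : Inv (NN G Z) (fixs Z) := inv_fixs fun _ hy x hx => ((mem_NN.1 hy).2 x).1 hx

lemma conj_CC {n c : Perm α} (hn : n ∈ NN G Z) (hc : c ∈ CC G Z) : n * c * n⁻¹ ∈ CC G Z := by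
  obtain ⟨n1, n2⟩ := mem_NN.1 ((NN G Z).inv_mem hn)
  obtain ⟨c1, c2⟩ := mem_CC.1 hc
  refine mem_CC.2 ⟨G.mul_mem (G.mul_mem (mem_NN.1 hn).1 c1) n1, fun h hh => ?_⟩
  have := c2 _ ((n2 h).1 hh)
  calc h * (n * c * n⁻¹) = n * (n⁻¹ * h * n⁻¹⁻¹ * c) * n⁻¹ := by group
    _ = n * c * n⁻¹ * h := by rw [this]; group

/-- the action of the normaliser on `Z` -/
noncomputable def phi (G Z : Subgroup (Perm α)) : NN G Z →* MulAut Z :=
  Z.normalizerMonoidHom.comp (Subgroup.inclusion inf_le_right)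

lemma ker_phi : (phi G Z).ker = (CC G Z).subgroupOf (NN G Z) := by
  ext g
  rw [phi, ← MonoidHom.comap_ker, Subgroup.normalizerMonoidHom_ker, Subgroup.mem_comap,
    Subgroup.mem_subgroupOf, Subgroup.mem_subgroupOf]
  exact ⟨fun h => ⟨g.2.1, h⟩, fun h => h.2⟩

lemma card_NN (hp : p.Prime) (hZ : Nat.card Z = p) :
    Nat.card (NN G Z) ∣ Nat.card (CC G Z) * (p - 1) := by
  have : Fact p.Prime := ⟨hp⟩
  have : IsCyclic Z := isCyclic_of_prime_card hZ
  rw [← (phi G Z).ker.card_mul_index, Subgroup.index_ker, ker_phi, card_subgroupOf CC_le]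
  refine Nat.mul_dvd_mul_left _ ?_
  rw [← Nat.totient_prime hp, ← hZ, ← IsCyclic.card_mulAut]
  exact Subgroup.card_subgroup_dvd_card _

lemma comm_mem (hp : p.Prime) (hZ : Nat.card Z = p) {n m : Perm α} (hn : n ∈ NN G Z)
    (hm : m ∈ NN G Z) : (m * n)⁻¹ * (n * m) ∈ CC G Z := by
  have : Fact p.Prime := ⟨hp⟩
  have : IsCyclic Z := isCyclic_of_prime_card hZ
  have h : ((⟨m, hm⟩ * ⟨n, hn⟩)⁻¹ * (⟨n, hn⟩ * ⟨m, hm⟩) : NN G Z) ∈ (phi G Z).ker := by
    rw [MonoidHom.mem_ker, map_mul, map_inv, inv_mul_eq_one, map_mul, map_mul]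
    apply (IsCyclic.mulAutMulEquiv Z).injective
    rw [map_mul, map_mul, mul_comm]
  rw [ker_phi] at h
  exact h

lemma Z_le_CC (hp : p.Prime) (hZ : Nat.card Z = p) (hG : Z ≤ G) : Z ≤ CC G Z := by
  have : Fact p.Prime := ⟨hp⟩
  have : IsCyclic Z := isCyclic_of_prime_card hZ
  intro z hz
  refine mem_CC.2 ⟨hG hz, fun h hh => ?_⟩
  exact congrArg Subtype.val (IsCyclic.commGroup.mul_comm (⟨h, hh⟩ : Z) ⟨z, hz⟩)

lemma card_CC (hp : p.Prime) (hZ : Nat.card Z = p) (htr : Triv G (t + 1)) (ht : t < p) :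
    Nat.card (CC G Z) ∣ (univ \ fixs Z).card := by
  refine dvd_card_of_orb (K := CC G Z) (fun g hg x hx => ?_) fun y hy => ?_
  · refine mem_sdiff.2 ⟨mem_univ _, fun h => (mem_sdiff.1 hx).2 ?_⟩
    simpa using inv_NN g⁻¹ ((NN G Z).inv_mem (CC_le hg)) _ h
  · have h1 : st (CC G Z) y = ⊥ := by
      refine eq_bot_iff.2 fun c hc => Subgroup.mem_bot.2 ?_
      obtain ⟨c1, c2⟩ := mem_st.1 hc
      have h2 := dvd_card_orb hp (hZ.trans (pow_one p).symm) (mem_sdiff.1 hy).2
      have h3 := Nat.le_of_dvd (card_pos.2 ⟨y, self_mem_orb y⟩) h2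
      refine htr c (mem_CC.1 c1).1 (orb Z y) (by omega) fun x hx => ?_
      obtain ⟨g, hg, rfl⟩ := mem_orb.1 hx
      have := congrArg (fun f : Perm α => f y) ((mem_CC.1 c1).2 g hg)
      simp only [Perm.mul_apply] at this
      rw [Perm.smul_def] at c2 ⊢
      rw [← this, c2]
    have := orb_mul_st (CC G Z) y
    rw [h1, Subgroup.card_bot, mul_one] at this
    rw [this]

lemma wittN (hp : p.Prime) (h : Syl p G Z) {A : Finset α} {g : Perm α} (hg : g ∈ G)
    (hA : A ⊆ fixs Z) (hB : g • A ⊆ fixs Z) : ∃ n ∈ NN G Z, n • A = g • A := by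
  set Q' := Z.map (MulAut.conj g).toMonoidHom with hQ'
  have hm : ∀ x, x ∈ Q' ↔ g⁻¹ * x * g ∈ Z := by
    intro x
    constructor
    · rintro ⟨y, hy, rfl⟩
      simpa [mul_assoc] using hy
    · intro hx
      exact ⟨_, hx, by simp [mul_assoc]⟩
  have h1 : Syl p G Q' := by
    refine ⟨fun x hx => ?_, ?_⟩
    · have := G.mul_mem (G.mul_mem hg (h.1 ((hm x).1 hx))) (G.inv_mem hg)
      simpa [mul_assoc] using this
    · rw [hQ', Subgroup.card_map_of_injective (MulAut.conj g).injective, h.2]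
  have h2 : Z ≤ fx G (g • A) := fun x hx => ⟨h.1 hx, fun y hy => mem_fixs.1 (hB hy) x hx⟩
  have h3 : Q' ≤ fx G (g • A) := fun x hx => ⟨h1.1 hx, fun y hy => by
    have : y ∈ fixs Q' := by rw [fixs_conj hm]; exact smul_subset_smul.2 hA hy
    exact mem_fixs.1 this x hx⟩
  obtain ⟨k, hk, hk'⟩ := (h1.of_le hp h3 (fx_le _)).conj hp (h.of_le hp h2 (fx_le _))
  refine ⟨k * g, ⟨G.mul_mem hk.1 hg, Subgroup.mem_normalizer_iff''.2 fun x => ?_⟩, ?_⟩
  · rw [hk', hm, mul_inv_rev]
    simp only [mul_assoc]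
  · rw [mul_smul, smul_eq_image k, image_congr (g := id) (fun y hy => hk.2 y hy), image_id]

end Cof

open Cof in
theorem cof_of : St_cof := by
  intro α _ _ G t p q j htr hp ht hj hq hn hd
  have : Fact p.Prime := ⟨hp⟩
  obtain ⟨z, hz⟩ := exists_prime_orderOf_dvd_card' p hd
  set Z := Subgroup.zpowers (z : Perm α)
  have hZ : Nat.card Z = p := by rw [Nat.card_zpowers, Subgroup.orderOf_coe, hz]
  have hZ1 : Nat.card Z = p ^ 1 := hZ.trans (pow_one p).symm
  have hG : Z ≤ G := (Subgroup.zpowers_le).2 z.2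
  have hz1 : (z : Perm α) ≠ 1 := fun h => by
    rw [← Subgroup.orderOf_coe, h, orderOf_one] at hz
    exact hp.one_lt.ne hz
  have hzR : ∀ x ∈ fixs Z, (z : Perm α) x = x := fun x hx =>
    mem_fixs.1 hx _ (Subgroup.mem_zpowers _)
  have hRt : (fixs Z).card ≤ t := by
    by_contra h
    exact hz1 (htr z z.2 (fixs Z) (by omega) hzR)
  have hRn := card_le_univ (fixs Z)
  have hR : (fixs Z).card = j := by
    obtain ⟨m, hm⟩ := dvd_sub_fixs hp hZ1
    have e : (q * p + j) % p = (p * m + (fixs Z).card) % p := by congr 1; omega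
    rw [Nat.mul_add_mod_self_right, Nat.mul_add_mod, Nat.mod_eq_of_lt hj,
      Nat.mod_eq_of_lt (by omega)] at e
    exact e.symm
  have hq0 : 0 < q := by
    by_contra h
    obtain rfl : q = 0 := by omega
    have : fixs Z = univ := eq_univ_of_card _ (by omega)
    exact hz1 (Perm.ext fun x => hzR x (this ▸ mem_univ x))
  have hC : Nat.card (CC G Z) ∣ q * p := by
    have := card_CC hp hZ htr ht
    rwa [card_sdiff_of_subset (subset_univ _), card_univ, hR, hn, Nat.add_sub_cancel] at this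
  have hN : Nat.card (NN G Z) ∣ q * (p - 1) * p := by
    have := (card_NN (G := G) hp hZ).trans (Nat.mul_dvd_mul_right hC _)
    rwa [mul_right_comm] at this
  have hS : Syl p G Z := by
    refine ⟨hG, hZ1.trans ?_⟩
    congr 1
    have h0 : Nat.card G ≠ 0 := Nat.card_pos.ne'
    refine le_antisymm (hp.dvd_iff_one_le_factorization h0 |>.1 hd) ?_
    by_contra h
    obtain ⟨P₁, a1, a2, a3, a4⟩ := grow hp hG hZ1
      ((hp.pow_dvd_iff_le_factorization h0).2 (by omega))
    have a5 : P₁ ≤ NN G Z := fun y hy => mem_NN.2 ⟨a2 hy, fun x => ⟨a4 y hy x, fun hx => by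
      simpa [mul_assoc] using a4 y⁻¹ (P₁.inv_mem hy) _ hx⟩⟩
    have a6 := (Subgroup.card_dvd_of_le a5).trans hN
    rw [a3, pow_succ, pow_one, Nat.mul_dvd_mul_iff_right hp.pos, hp.dvd_mul] at a6
    have := hp.two_le
    rcases a6 with a | a
    · exact absurd (Nat.le_of_dvd hq0 a) (by omega)
    · exact absurd (Nat.le_of_dvd (by omega) a) (by omega)
  have hZC := Z_le_CC hp hZ hG
  have horb : ∀ I ⊆ fixs Z, (orb (NN G Z) I).card ∣ q * (p - 1) := by
    intro I hI
    have h1 : Z ≤ st (NN G Z) I := fun g hg => mem_st.2 ⟨CC_le (hZC hg), by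
      rw [smul_eq_image, image_congr (g := id) (fun y hy => mem_fixs.1 (hI hy) g hg), image_id]⟩
    have h2 := Subgroup.card_dvd_of_le h1
    rw [hZ] at h2
    rw [← orb_mul_st _ I] at hN
    exact Nat.dvd_of_mul_dvd_mul_right hp.pos ((Nat.mul_dvd_mul_left _ h2).trans hN)
  have hw : ∀ i, Hom G univ i → Hom (NN G Z) (fixs Z) i := by
    intro i h A hA B hB hA' hB'
    obtain ⟨g, hg, rfl⟩ := h A (subset_univ _) B (subset_univ _) hA' hB'
    exact wittN hp hS hg hA hB
  refine ⟨by omega, fun h2 => ?_, fun i hi h => ?_, fun i hi => ?_⟩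
  · by_cases hj3 : j ≤ 3
    · exact Or.inl hj3
    refine Or.inr ?_
    have w2 := hw 2 h2
    have pr : ∀ a ∈ fixs Z, ∀ b ∈ fixs Z, ∀ c ∈ fixs Z, ∀ d ∈ fixs Z, a ≠ b → c ≠ d →
        ∃ n ∈ NN G Z, (n a = c ∧ n b = d) ∨ (n a = d ∧ n b = c) := by
      intro a ha b hb c hc d hd hab hcd
      obtain ⟨n, hn, e⟩ := w2 {a, b} (by simp [insert_subset_iff, ha, hb]) {c, d}
        (by simp [insert_subset_iff, hc, hd]) (card_pair hab) (card_pair hcd)
      have e1 : n a ∈ ({c, d} : Finset α) := e ▸ apply_mem_smul.2 (by simp)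
      have e2 : n b ∈ ({c, d} : Finset α) := e ▸ apply_mem_smul.2 (by simp)
      have e3 := n.injective.ne hab
      simp only [mem_insert, mem_singleton] at e1 e2
      refine ⟨n, hn, ?_⟩
      rcases e1 with e1 | e1 <;> rcases e2 with e2 | e2
      · exact absurd (e1.trans e2.symm) e3
      · exact Or.inl ⟨e1, e2⟩
      · exact Or.inr ⟨e1, e2⟩
      · exact absurd (e1.trans e2.symm) e3
    by_cases hc : ∃ x ∈ fixs Z, ∃ c ∈ CC G Z, c x ≠ x
    · obtain ⟨x, hx, c, hc, hcx⟩ := hc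
      have h3 : orb (CC G Z) x = fixs Z := by
        ext y
        refine ⟨fun hy => ?_, fun hy => ?_⟩
        · obtain ⟨g, hg, rfl⟩ := mem_orb.1 hy
          exact inv_NN g (CC_le hg) x hx
        · by_cases e : x = y
          · exact e ▸ self_mem_orb x
          obtain ⟨n, hn, h⟩ := pr x hx (c x) (inv_NN c (CC_le hc) x hx) x hx y hy hcx.symm e
          have h4 : n (c x) ∈ orb (CC G Z) (n x) :=
            mem_orb.2 ⟨_, conj_CC hn hc, by simp [Perm.smul_def]⟩
          rcases h with ⟨a, b⟩ | ⟨a, b⟩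
          · rwa [a, b] at h4
          · rw [a, b] at h4
            exact orb_symm h4
      have h1 : Z ≤ st (CC G Z) x := fun g hg => mem_st.2 ⟨hZC hg, mem_fixs.1 hx g hg⟩
      have h4 := Subgroup.card_dvd_of_le h1
      rw [hZ] at h4
      rw [← orb_mul_st _ x, h3, hR] at hC
      exact Nat.dvd_of_mul_dvd_mul_right hp.pos ((Nat.mul_dvd_mul_left _ h4).trans hC)
    · exfalso
      have hc' : ∀ x ∈ fixs Z, ∀ c ∈ CC G Z, c x = x := fun x hx c hcc => by
        by_contra h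
        exact hc ⟨x, hx, c, hcc, h⟩
      have w1 := hw 1 (Hom.pred h2 (by rw [card_univ]; omega))
      have fixall : ∀ n ∈ NN G Z, ∀ a ∈ fixs Z, ∀ b ∈ fixs Z, n a = a → n b = b := by
        intro n hn a ha b hb e
        obtain ⟨r, hr, e'⟩ := w1 {a} (by simpa using ha) {b} (by simpa using hb) rfl rfl
        have e1 : r a = b := mem_singleton.1 (e' ▸ apply_mem_smul.2 (mem_singleton_self a))
        have e2 := hc' a ha _ (comm_mem hp hZ hn hr)
        rw [Perm.mul_apply, Perm.inv_eq_iff_eq, Perm.mul_apply, Perm.mul_apply, e, e1] at e2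
        exact e2
      obtain ⟨S, hS1, hS2⟩ := exists_subset_card_eq (s := fixs Z) (n := 4) (by omega)
      obtain ⟨a, b, c, d, hab, hac, had, hbc, hbd, hcd, rfl⟩ := card_eq_four.1 hS2
      have ha : a ∈ fixs Z := hS1 (by simp)
      have hb : b ∈ fixs Z := hS1 (by simp)
      have hc : c ∈ fixs Z := hS1 (by simp)
      have hd : d ∈ fixs Z := hS1 (by simp)
      obtain ⟨n, hn, ⟨n1, n2⟩ | ⟨n1, n2⟩⟩ := pr a ha b hb a ha c hc hab hac
      · exact hbc ((fixall n hn a ha b hb n1).symm.trans n2)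
      obtain ⟨m, hm, ⟨m1, m2⟩ | ⟨m1, m2⟩⟩ := pr a ha b hb a ha d hd hab had
      · exact hbd ((fixall m hm a ha b hb m1).symm.trans m2)
      have := fixall _ ((NN G Z).mul_mem ((NN G Z).inv_mem hm) hn) b hb a ha (by
        rw [Perm.mul_apply, Perm.inv_eq_iff_eq, n2, m2])
      rw [Perm.mul_apply, Perm.inv_eq_iff_eq, n1, m1] at this
      exact hcd this
  · obtain ⟨I, hI, hI'⟩ := exists_subset_card_eq (s := fixs Z) (n := i) (by omega)
    have h1 : orb (NN G Z) I = powersetCard i (fixs Z) := by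
      ext J
      rw [mem_powersetCard]
      refine ⟨fun hJ => ⟨?_, (card_of_mem_orb hJ).trans hI'⟩, fun hJ =>
        mem_orb.2 (hw i h I hI J hJ.1 hI' hJ.2)⟩
      obtain ⟨g, hg, rfl⟩ := mem_orb.1 hJ
      exact inv_NN.smul_subset hg hI
    have := horb I hI
    rwa [h1, card_powersetCard, hR] at this
  · have hpos : 0 < q * (p - 1) := Nat.mul_pos hq0 (by have := hp.two_le; omega)
    have h1 := card_le_mul_card_image (f := orb G) (powersetCard i (fixs Z)) (q * (p - 1)) (by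
      intro O hO
      obtain ⟨I, hI, rfl⟩ := mem_image.1 hO
      have hI1 := (mem_powersetCard.1 hI).1
      refine le_trans (card_le_card fun J hJ => ?_) (Nat.le_of_dvd hpos (horb I hI1))
      obtain ⟨j1, j2⟩ := mem_filter.1 hJ
      obtain ⟨g, hg, rfl⟩ := mem_orb.1 (orb_eq_iff.1 j2)
      exact mem_orb.2 (wittN hp hS hg hI1 (mem_powersetCard.1 j1).1))
    rw [card_powersetCard, hR, mul_comm] at h1
    exact h1.trans (Nat.mul_le_mul_right _
      (card_le_card (image_subset_image (powersetCard_mono (subset_univ _)))))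

end Pool.Agent.H5Hom
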