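import Pool.Agent.Lib.MP_078193_al.MBlue

open Finset Equiv
open scoped Pointwise

set_option linter.unusedSectionVars false

namespace Pool.Agent.H5Hom

namespace Core

variable {α : Type} [Fintype α] [DecidableEq α] {H : Subgroup (Perm α)} {t p : ℕ}

lemma c1 (hh : HH H t) {C : Finset α} (hC : C.card = t + 1) : Nat.card (fx H C) ∣ mm H t := by
  refine Finset.dvd_gcd fun A hA => ?_
  obtain ⟨x, -, hx⟩ := hh.erase (mem_lev.1 hA) hC
  rw [← card_fx_of_mem_orb hx]
  exact Subgroup.card_dvd_of_le (fx_anti (erase_subset _ _))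

lemma sub_fixs {A : Finset α} {P : Subgroup (Perm α)} (hP : P ≤ fx H A) : A ⊆ fixs P :=
  fun x hx => mem_fixs.2 fun _ hg => (hP hg).2 x hx

lemma c4a (hh : HH H t) (hp : p.Prime) {A : Finset α} {P : Subgroup (Perm α)} (hA : A.card = t)
    (hP : Syl p (fx H A) P) (hd : p ∣ ee H t A) : fixs P = A := by
  refine Subset.antisymm (fun x hx => ?_) (sub_fixs hP.1)
  by_contra hxA
  have h1 : P ≤ fx H (insert x A) := fun g hg => ⟨(hP.1 hg).1, fun z hz => by
    rcases mem_insert.1 hz with rfl | hz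
    · exact mem_fixs.1 hx g hg
    · exact (hP.1 hg).2 z hz⟩
  have h2 := (Subgroup.card_dvd_of_le h1).trans
    (c1 hh (C := insert x A) (by rw [card_insert_of_notMem hxA, hA]))
  rw [hP.2, hp.pow_dvd_iff_le_factorization (mm_pos (H := H) hA).ne'] at h2
  have h3 := (Nat.factorization_le_iff_dvd (mm_pos (H := H) hA).ne' Nat.card_pos.ne').2
    (mm_dvd (H := H) hA) p
  exact (not_dvd_ee hp hA).2 (le_antisymm h2 h3) hd

lemma card_lt (hp : p.Prime) {X : Finset α} {x : α} (h : X ⊆ {x}) : X.card < p :=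
  ((card_le_card h).trans (card_singleton x).le).trans_lt hp.one_lt

lemma c2 (hh : HH H t) (hp : p.Prime) {B : Finset α} {x x' : α} (hB : B.card + 1 = t)
    (hx : x ∉ B) (hx' : x' ∉ B) (hd : p ∣ ee H t (insert x B)) (hd' : p ∣ ee H t (insert x' B)) :
    ∃ g ∈ fx H B, g x = x' := by
  obtain ⟨P, hP⟩ := exists_syl' hp (fx H (insert x B))
  obtain ⟨P', hP'⟩ := exists_syl' hp (fx H (insert x' B))
  obtain ⟨k, hk, -, hk'⟩ := adj hp hP
    (c4a hh hp (by rw [card_insert_of_notMem hx, hB]) hP hd) hP'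
    (c4a hh hp (by rw [card_insert_of_notMem hx', hB]) hP' hd')
    (card_lt hp (x := x) fun z hz => by simp at hz ⊢; tauto)
    (card_lt hp (x := x') fun z hz => by simp at hz ⊢; tauto)
  have hkB : k ∈ fx H B :=
    fx_anti (subset_inter (subset_insert _ _) (subset_insert _ _)) hk
  refine ⟨k, hkB, ?_⟩
  have h1 : k x ∈ insert x' B := hk' ▸ apply_mem_smul.2 (mem_insert_self _ _)
  rcases mem_insert.1 h1 with h | h
  · exact h
  · exact absurd (k.injective (hkB.2 _ h) ▸ h) hx

lemma c3 (hh : HH H t) (hn : t + 1 ≤ Fintype.card α) (hp : p.Prime) {A A' : Finset α}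
    (hA : A.card = t) (hA' : A'.card = t) (hd : p ∣ ee H t A) (hd' : p ∣ ee H t A') :
    A' ∈ orb H A := by
  obtain ⟨C, -, hC⟩ := exists_subset_card_eq (s := (univ : Finset α)) (n := t + 1)
    (by rwa [card_univ])
  obtain ⟨y, hy, h1⟩ := hh.erase hA hC
  obtain ⟨y', hy', h2⟩ := hh.erase hA' hC
  refine orb_trans (orb_trans h1 ?_) (orb_symm h2)
  by_cases hyy : y = y'
  · rw [hyy]; exact self_mem_orb _
  have e1 : C.erase y = insert y' ((C.erase y).erase y') :=
    (insert_erase (mem_erase.2 ⟨fun h => hyy h.symm, hy'⟩)).symm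
  have e2 : C.erase y' = insert y ((C.erase y).erase y') := by
    rw [erase_right_comm]
    exact (insert_erase (mem_erase.2 ⟨hyy, hy⟩)).symm
  have hc : ((C.erase y).erase y').card + 1 = t := by
    have := card_erase_add_one (mem_erase.2 ⟨fun h => hyy h.symm, hy'⟩ : y' ∈ C.erase y)
    have := card_erase_add_one hy
    omega
  obtain ⟨g, hg, hg'⟩ := c2 hh hp (x := y') (x' := y) hc (by simp) (by simp)
    (by rw [← e1, ee_orb h1]; exact hd) (by rw [← e2, ee_orb h2]; exact hd')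
  refine mem_orb.2 ⟨g, hg.1, ?_⟩
  rw [e2, e1, smul_eq_image, image_insert, hg', ← e1]
  congr 1
  exact (image_congr fun z hz => hg.2 z hz).trans image_id

lemma c4b (hh : HH H t) (hn : t + 1 ≤ Fintype.card α) (nh : ¬ Hom H univ t) (hp : p.Prime)
    {A : Finset α} {P : Subgroup (Perm α)} (hA : A.card = t)
    (hP : Syl p (fx H A) P) (hf : fixs P = A) : p ∣ ee H t A := by
  by_contra hd
  obtain ⟨x, -, hx⟩ := exists_mem_notMem_of_card_lt_card (s := A) (t := univ)
    (by rw [card_univ]; omega)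
  obtain ⟨A₁, h1, h2⟩ : ∃ A₁ : Finset α, A₁.card = t ∧ A₁ ∉ orb H A := by
    by_contra hc
    push Not at hc
    exact nh fun X _ Y _ hX hY => mem_orb.1 (orb_trans (orb_symm (hc X hX)) (hc Y hY))
  have hC : (insert x A).card = t + 1 := by rw [card_insert_of_notMem hx, hA]
  obtain ⟨y, hy, h3⟩ := hh.erase h1 hC
  have h4 : (insert x A).erase y ∉ orb H A := fun h => h2 (orb_trans h (orb_symm h3))
  set A' := (insert x A).erase y with hA'
  have hc' : A'.card = t := by rw [hA', card_erase_of_mem hy, hC]; rfl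
  obtain ⟨P', hP'⟩ := exists_syl' hp (fx H A')
  have s1 : A \ A' ⊆ {y} := fun z hz => by simp [hA'] at hz ⊢; tauto
  have s2 : A' \ A ⊆ {x} := fun z hz => by simp [hA'] at hz ⊢; tauto
  have key : fixs P' = A' := by
    by_contra hne
    have hd' : ¬ p ∣ ee H t A' := fun h => hne (c4a hh hp hc' hP' h)
    have a1 := adj0 hp hP hf (Y := A ∩ A') inter_subset_left
      (by rw [sdiff_inter_self_left]; exact card_lt hp s1)
    have a2 : Syl p (fx H (A ∩ A')) P' := ⟨hP'.1.trans (fx_anti inter_subset_right), by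
      rw [← a1.2, hP.2, hP'.2, (not_dvd_ee hp hA).1 hd, (not_dvd_ee hp hc').1 hd']⟩
    obtain ⟨k, -, hk⟩ := a1.conj hp a2
    refine hne (eq_of_subset_of_card_le (sub_fixs hP'.1) ?_).symm
    rw [fixs_conj hk, card_smul, hf, hA, hc']
  obtain ⟨k, hk, -, hk'⟩ := adj hp hP hf hP' key (card_lt hp s1) (card_lt hp s2)
  exact h4 (mem_orb.2 ⟨k, hk.1, hk'⟩)

end Core

theorem core_of : St_core := by
  intro α _ _ H t hh hn nh
  refine ⟨fun C hC => Core.c1 hh hC, fun p hp B x x' hB hx hx' => Core.c2 hh hp hB hx hx',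
    fun p hp A A' hA hA' => Core.c3 hh hn hp hA hA',
    fun p hp A P hA hP => ⟨Core.c4a hh hp hA hP, Core.c4b hh hn nh hp hA hP⟩, fun p hp => ?_⟩
  by_contra hc
  push Not at hc
  exact nh fun X _ Y _ hX hY => mem_orb.1 (Core.c3 hh hn hp hX hY (hc X hX) (hc Y hY))

end Pool.Agent.H5Hom
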