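import Pool.Agent.Lib.MP_078193_al.MBlue

/-! Block COUNT: a counting argument gives multiple transitivity of the local group. -/

open Finset Equiv
open scoped Pointwise

set_option linter.unusedSectionVars false

namespace Pool.Agent.H5Hom

namespace Count

variable {β : Type} [Fintype β] [DecidableEq β]

open Classical in
lemma card_ne (K : Subgroup (Perm β)) :
    (univ.filter (fun g => g ∈ K ∧ g ≠ 1)).card + 1 = Nat.card K := by
  rw [← card_mem K]
  have h1 : (1 : Perm β) ∈ univ.filter (fun g => g ∈ K) := by simp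
  rw [← card_erase_add_one h1]
  congr 2
  ext g
  simp [and_comm]

lemma sq_id (Z : Finset β) (i : β → ℕ) (hi : ∀ x, i x * i x = i x) :
    (∑ x ∈ Z, ∑ y ∈ Z.erase x, i x * i y) + ∑ x ∈ Z, i x = (∑ x ∈ Z, i x) * ∑ x ∈ Z, i x := by
  rw [← sum_add_distrib, sum_mul]
  refine sum_congr rfl fun x hx => ?_
  rw [← mul_sum, ← add_sum_erase Z i hx, mul_add, hi, add_comm]

lemma three_le (f : ℕ) : 3 * f ≤ 2 + f * f := by
  rcases f with _ | _ | f
  · simp
  · simp
  · nlinarith

lemma sum_orb (L : Subgroup (Perm β)) (x : β) :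
    ∑ w ∈ orb L x, Nat.card (st L w) = Nat.card L := by
  rw [← orb_mul_st L x, ← smul_eq_mul, ← sum_const]
  refine sum_congr rfl fun w hw => ?_
  have h1 := orb_mul_st L w
  rw [orb_eq hw, ← orb_mul_st L x] at h1
  exact Nat.eq_of_mul_eq_mul_left (card_pos.2 ⟨x, self_mem_orb x⟩) h1

lemma inv_compl (M : Subgroup (Perm β)) (D : Finset β) : Inv (fx M D) Dᶜ := by
  intro g hg x hx
  rw [mem_compl] at hx ⊢
  intro h
  have := hg.2 _ h
  rw [g.injective this] at h
  exact hx h

/-- the abstract counting step -/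
lemma sum_st_le (L : Subgroup (Perm β)) (Z : Finset β)
    (h : ∀ x ∈ Z, (∑ y ∈ Z.erase x, (Nat.card (st (st L x) y) - 1)) + 2 ≤ Nat.card (st L x)) :
    (∑ x ∈ Z, Nat.card (st L x)) + 2 ≤ 2 * Nat.card L := by
  classical
  set N := univ.filter (fun g : Perm β => g ∈ L ∧ g ≠ 1) with hN
  let i : Perm β → β → ℕ := fun g x => if g x = x then 1 else 0
  have hi : ∀ g x, i g x * i g x = i g x := fun g x => by
    simp only [i]; split_ifs <;> rfl
  have hA : ∀ x, (∑ g ∈ N, i g x) + 1 = Nat.card (st L x) := by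
    intro x
    rw [← card_ne (st L x), ← card_filter, hN, filter_filter]
    congr 2
    ext g
    simp only [mem_filter, mem_univ, true_and, mem_st, Perm.smul_def]
    tauto
  have hB : ∀ x y, ∑ g ∈ N, i g x * i g y = Nat.card (st (st L x) y) - 1 := by
    intro x y
    rw [← card_ne (st (st L x) y), Nat.add_sub_cancel]
    have : ∀ g, i g x * i g y = if g x = x ∧ g y = y then 1 else 0 := fun g => by
      simp only [i]; split_ifs <;> simp_all
    simp only [this]
    rw [← card_filter, hN, filter_filter]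
    congr 1
    ext g
    simp only [mem_filter, mem_univ, true_and, mem_st, Perm.smul_def]
    tauto
  have h1 : (∑ g ∈ N, ∑ x ∈ Z, i g x) + Z.card = ∑ x ∈ Z, Nat.card (st L x) := by
    rw [sum_comm, card_eq_sum_ones, ← sum_add_distrib]
    exact sum_congr rfl fun x _ => hA x
  have h2 : (∑ g ∈ N, ∑ x ∈ Z, ∑ y ∈ Z.erase x, i g x * i g y) + Z.card * 2
      ≤ ∑ x ∈ Z, Nat.card (st L x) := by
    rw [sum_comm, ← smul_eq_mul Z.card, ← sum_const, ← sum_add_distrib]
    refine sum_le_sum fun x hx => ?_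
    rw [sum_comm]
    simp only [hB]
    exact h x hx
  have h3 : 2 * ∑ g ∈ N, ∑ x ∈ Z, i g x
      ≤ N.card * 2 + ∑ g ∈ N, ∑ x ∈ Z, ∑ y ∈ Z.erase x, i g x * i g y := by
    rw [mul_sum, ← smul_eq_mul N.card, ← sum_const, ← sum_add_distrib]
    refine sum_le_sum fun g _ => ?_
    have a1 := sq_id Z (i g) (hi g)
    have a2 := three_le (∑ x ∈ Z, i g x)
    omega
  have h4 : N.card + 1 = Nat.card L := card_ne L
  omega

lemma trans (hti : St_ti) {M : Subgroup (Perm β)} {t : ℕ} (hc : t + 1 ≤ Fintype.card β)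
    (hT : Triv M t) (hN : NoFix M t) {D : Finset β} (hD : D.card + 3 = t) {x y : β}
    (hx : x ∉ D) (hy : y ∉ D) : y ∈ orb (fx M D) x := by
  classical
  have key := sum_st_le (fx M D) Dᶜ (by
    intro a ha
    rw [mem_compl] at ha
    have hcard : (insert a D).card + 2 = t := by rw [card_insert_of_notMem ha]; omega
    have hX : Dᶜ.erase a = (insert a D)ᶜ := by
      ext w; simp
    rw [st_fx, hX]
    refine ((hti β (fx M (insert a D)) (insert a D)ᶜ (inv_compl M _) ?_).2 ?_ ?_).1
    · intro g hg u hu v hv huv h1 h2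
      rw [mem_compl] at hu hv
      refine hT g hg.1 (insert u (insert v (insert a D))) ?_ ?_
      · rw [card_insert_of_notMem, card_insert_of_notMem hv]
        · omega
        · rw [mem_insert, not_or]; exact ⟨huv, hu⟩
      · intro w hw
        rcases mem_insert.1 hw with rfl | hw
        · exact h1
        rcases mem_insert.1 hw with rfl | hw
        · exact h2
        exact hg.2 w hw
    · rw [← card_pos, card_compl]; omega
    · intro w hw
      exact hN _ w hcard (mem_compl.1 hw))
  by_contra hxy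
  have hsub : ∀ a, a ∉ D → orb (fx M D) a ⊆ Dᶜ := by
    intro a ha w hw
    obtain ⟨g, hg, rfl⟩ := mem_orb.1 hw
    exact inv_compl M D g hg a (mem_compl.2 ha)
  have hdis : Disjoint (orb (fx M D) x) (orb (fx M D) y) := by
    rw [disjoint_left]
    intro w h1 h2
    exact hxy (orb_trans h1 (orb_symm h2))
  have h1 : ∑ w ∈ orb (fx M D) x ∪ orb (fx M D) y, Nat.card (st (fx M D) w)
      ≤ ∑ w ∈ Dᶜ, Nat.card (st (fx M D) w) :=
    sum_le_sum_of_subset (union_subset (hsub x hx) (hsub y hy))
  rw [sum_union hdis, sum_orb, sum_orb] at h1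
  omega

end Count

theorem count_of (hti : St_ti) : St_count := by
  intro β _ _ M t ht hc hT hN S
  induction S using Finset.induction_on with
  | empty => exact fun _ _ _ _ _ => ⟨1, M.one_mem, by simp⟩
  | insert x S hxS ih =>
    intro hS hcard φ hφ hφ'
    rw [card_insert_of_notMem hxS] at hcard
    obtain ⟨g, hg, hg'⟩ := ih (subset_univ _) (by omega) φ
      (hφ.mono (by simp)) (fun y _ => mem_univ _)
    have h1 : S.image φ ⊆ ({g x, φ x} : Finset β)ᶜ := by
      intro w hw
      obtain ⟨y, hy, rfl⟩ := mem_image.1 hw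
      have hyx : y ≠ x := fun h => hxS (h ▸ hy)
      simp only [mem_compl, mem_insert, mem_singleton, not_or]
      refine ⟨?_, fun h' => hyx (hφ (by simp [hy]) (by simp) h')⟩
      rw [← hg' y hy]; simpa using hyx
    have h2 : (S.image φ).card ≤ t - 3 := card_image_le.trans (by omega)
    have h3 : t - 3 ≤ (({g x, φ x} : Finset β)ᶜ).card := by
      rw [card_compl]
      have := card_le_two (a := g x) (b := φ x)
      omega
    obtain ⟨D, hD1, hD2, hD3⟩ := exists_subsuperset_card_eq h1 h2 h3
    have a1 : g x ∉ D := fun h => by simpa using hD2 h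
    have a2 : φ x ∉ D := fun h => by simpa using hD2 h
    obtain ⟨k, hk, hk'⟩ := mem_orb.1 (Count.trans hti hc hT hN (by omega) a1 a2)
    refine ⟨k * g, M.mul_mem hk.1 hg, fun y hy => ?_⟩
    rcases mem_insert.1 hy with rfl | hy'
    · simpa using hk'
    · rw [Perm.mul_apply, hg' y hy']
      exact hk.2 _ (hD1 (mem_image_of_mem _ hy'))

end Pool.Agent.H5Hom
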