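import Pool.Agent.Lib.MP_078193_al.MBlue

/-! Only the identity of the local group fixes `t` points. -/

open Finset Equiv
open scoped Pointwise

set_option linter.unusedSectionVars false

namespace Pool.Agent.H5Hom

namespace E1

variable {β : Type} [Fintype β] [DecidableEq β] {M : Subgroup (Perm β)} {s l : ℕ}

/-- lower bounds for supports -/
structure Ctx (M : Subgroup (Perm β)) (s : ℕ) : Prop where
  big : ∀ g ∈ M, g ≠ 1 → s + 1 ≤ (supp univ g).card
  four : ∀ g ∈ M, g ≠ 1 → 4 ≤ (supp univ g).card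

/-- an element of order `l` with smallest possible support -/
structure Good (M : Subgroup (Perm β)) (s l : ℕ) (z : Perm β) : Prop where
  mem : z ∈ M
  ne : z ≠ 1
  pw : z ^ l = 1
  cd : (supp univ z).card = s + 1

lemma mem_su {g : Perm β} {x : β} : x ∈ supp univ g ↔ g x ≠ x := by simp [mem_supp]

lemma ne_one_of {g : Perm β} (h : (supp univ g).Nonempty) : g ≠ 1 := by
  rintro rfl
  obtain ⟨x, hx⟩ := h
  exact mem_su.1 hx rfl

lemma comm_mem {a b : Perm β} (ha : a ∈ M) (hb : b ∈ M) : a * b * a⁻¹ * b⁻¹ ∈ M :=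
  M.mul_mem (M.mul_mem (M.mul_mem ha hb) (M.inv_mem ha)) (M.inv_mem hb)

lemma supp_conj (g z : Perm β) : supp univ (g * z * g⁻¹) = g • supp univ z := by
  ext x
  rw [mem_smul, mem_su, mem_su, Perm.mul_apply, Perm.mul_apply, Ne, Ne, ← Perm.eq_inv_iff_eq]

lemma Good.conj {z g : Perm β} (h : Good M s l z) (hg : g ∈ M) : Good M s l (g * z * g⁻¹) := by
  refine ⟨M.mul_mem (M.mul_mem hg h.mem) (M.inv_mem hg), fun e => h.ne ?_, ?_, ?_⟩
  · have : z = g⁻¹ * (g * z * g⁻¹) * g := by group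
    rw [this, e]; simp
  · rw [conj_pow, h.pw]; simp
  · rw [supp_conj, card_smul, h.cd]

lemma Good.pow (hc : Ctx M s) {z : Perm β} (h : Good M s l z) {i : ℕ} (hi : z ^ i ≠ 1) :
    Good M s l (z ^ i) ∧ supp univ (z ^ i) = supp univ z := by
  have hs : supp univ (z ^ i) ⊆ supp univ z := fun x hx => mem_su.2 fun e =>
    mem_su.1 hx (Perm.pow_apply_eq_self_of_apply_eq_self e i)
  have he : supp univ (z ^ i) = supp univ z :=
    eq_of_subset_of_card_le hs (h.cd ▸ hc.big _ (M.pow_mem h.mem i) hi)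
  refine ⟨⟨M.pow_mem h.mem i, hi, ?_, he ▸ h.cd⟩, he⟩
  rw [← pow_mul, mul_comm, pow_mul, h.pw, one_pow]

lemma not_one (hcomm : St_comm) (hc : Ctx M s) {a b : Perm β} (ha : a ∈ M) (hb : b ∈ M) :
    (supp univ a ∩ supp univ b).card ≠ 1 := by
  intro h
  obtain ⟨c1, c2, -, -⟩ := hcomm β univ a b (by simp) (by simp)
  have h1 := hc.four _ (comm_mem ha hb) (ne_one_of (c2 h))
  have h2 := card_le_card c1
  have h3 := card_union_le ((supp univ a ∩ supp univ b) ∪ a • (supp univ a ∩ supp univ b))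
    (b • (supp univ a ∩ supp univ b))
  have h4 := card_union_le (supp univ a ∩ supp univ b) (a • (supp univ a ∩ supp univ b))
  rw [card_smul] at h3 h4
  omega

lemma odd_fix {z : Perm β} {a : β} (hl : Odd l) (h : z ^ l = 1) (h2 : z (z a) = a) : z a = a := by
  obtain ⟨k, rfl⟩ := hl
  have h3 : (z ^ (2 * k)) a = a := by
    rw [pow_mul]
    exact Perm.pow_apply_eq_self_of_apply_eq_self (by rw [sq]; exact h2) k
  have h4 : (z ^ (2 * k + 1)) a = a := by rw [h]; rfl
  rwa [pow_succ', Perm.mul_apply, h3] at h4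

lemma two (hcomm : St_comm) (hc : Ctx M s) (hl : Odd l) {z w : Perm β} (hz : Good M s l z)
    (hw : Good M s l w) {a b : β} (hI : supp univ z ∩ supp univ w = {a, b}) :
    s + 1 ≤ ({a, b, z a, z b, w a, w b} : Finset β).card := by
  obtain ⟨c1, -, c3, -⟩ := hcomm β univ z w (by simp) (by simp)
  rw [hI] at c1 c3
  have ha : z a ≠ a := mem_su.1 (mem_inter.1 (hI ▸ mem_insert_self a {b})).1
  have hb : z b ≠ b := mem_su.1 (mem_inter.1 (hI ▸ mem_insert_of_mem (mem_singleton_self b))).1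
  have hne : (supp univ (z * w * z⁻¹ * w⁻¹)).Nonempty := by
    rw [nonempty_iff_ne_empty]
    intro e
    have e1 := (c3 e).1
    have e2 : z a ∈ ({a, b} : Finset β) := e1 ▸ apply_mem_smul.2 (mem_insert_self _ _)
    have e3 : z b ∈ ({a, b} : Finset β) :=
      e1 ▸ apply_mem_smul.2 (mem_insert_of_mem (mem_singleton_self _))
    simp only [mem_insert, mem_singleton, ha, hb, false_or, or_false] at e2 e3
    exact ha (odd_fix hl hz.pw (by rw [e2, e3]))
  refine (hc.big _ (comm_mem hz.mem hw.mem) (ne_one_of hne)).trans (card_le_card (c1.trans ?_))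
  intro x hx
  simp only [smul_eq_image, image_insert, image_singleton, mem_union, mem_insert,
    mem_singleton] at hx ⊢
  tauto

lemma five (hcomm : St_comm) (hc : Ctx M s) (hl : Odd l) {z w : Perm β} (hz : Good M s l z)
    (hw : Good M s l w) {a b : β} (hab : a ≠ b) (hI : supp univ z ∩ supp univ w = {a, b})
    {i : ℕ} (hi : (z ^ i) a = b) : s + 1 ≤ 5 := by
  have h1 : z ^ i ≠ 1 := fun e => hab (by rw [← hi, e]; rfl)
  obtain ⟨g1, g2⟩ := hz.pow hc h1
  have h2 := two hcomm hc hl g1 hw (a := a) (b := b) (by rw [g2, hI])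
  rw [hi] at h2
  refine h2.trans ((card_le_card (t := {a, b, (z ^ i) b, w a, w b}) ?_).trans card_le_five)
  intro x hx
  simp only [mem_insert, mem_singleton] at hx ⊢
  tauto

lemma four' (hcomm : St_comm) (hc : Ctx M s) (hl : Odd l) {z w : Perm β} (hz : Good M s l z)
    (hw : Good M s l w) {a b : β} (hab : a ≠ b) (hI : supp univ z ∩ supp univ w = {a, b})
    {i j : ℕ} (hi : (z ^ i) a = b) (hj : (w ^ j) a = b) : s + 1 ≤ 4 := by
  have h1 : z ^ i ≠ 1 := fun e => hab (by rw [← hi, e]; rfl)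
  have h1' : w ^ j ≠ 1 := fun e => hab (by rw [← hj, e]; rfl)
  obtain ⟨g1, g2⟩ := hz.pow hc h1
  obtain ⟨g3, g4⟩ := hw.pow hc h1'
  have h2 := two hcomm hc hl g1 g3 (a := a) (b := b) (by rw [g2, g4, hI])
  rw [hi, hj] at h2
  refine h2.trans ((card_le_card (t := {a, b, (z ^ i) b, (w ^ j) b}) ?_).trans card_le_four)
  intro x hx
  simp only [mem_insert, mem_singleton] at hx ⊢
  tauto

/-- every `s`-set lies in a conjugate support -/
lemma cover {t : ℕ} (hφ : Fintype.card β = s + 1 + t) (hh : HH M t) {z : Perm β}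
    (hz : Good M s l z) {T : Finset β} (hT : T.card = s) :
    ∃ w, Good M s l w ∧ T ⊆ supp univ w := by
  obtain ⟨g, hg, hg'⟩ := hh (supp univ z)ᶜ Tᶜ (by rw [card_compl, hz.cd]; omega)
    (by rw [card_compl]; omega)
  refine ⟨g * z * g⁻¹, hz.conj hg, fun x hx => ?_⟩
  rw [supp_conj, mem_smul]
  by_contra h
  exact mem_compl.1 (hg' (mem_smul.2 (mem_compl.2 h))) hx

lemma pair (hcomm : St_comm) (hc : Ctx M s) {t : ℕ} (hφ : Fintype.card β = s + 1 + t)
    (hh : HH M t) {z : Perm β} (hz : Good M s l z) {T : Finset β} (hT : T.card + 1 = s)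
    (hTs : T ⊆ (supp univ z)ᶜ) {a : β} (ha : a ∈ supp univ z) :
    ∃ w b, Good M s l w ∧ a ≠ b ∧ supp univ z ∩ supp univ w = {a, b} ∧
      ∀ x, x ∉ supp univ z → (x ∈ supp univ w ↔ x ∈ T) := by
  have haT : a ∉ T := fun h => mem_compl.1 (hTs h) ha
  obtain ⟨w, hw, hw'⟩ := cover hφ hh hz (T := insert a T) (by rw [card_insert_of_notMem haT, hT])
  have hTw : T ⊆ supp univ w := (subset_insert _ _).trans hw'
  have h1 : supp univ z ∩ supp univ w ⊆ supp univ w \ T := fun x hx =>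
    mem_sdiff.2 ⟨(mem_inter.1 hx).2, fun h => mem_compl.1 (hTs h) (mem_inter.1 hx).1⟩
  have h2 : (supp univ w \ T).card = 2 := by rw [card_sdiff_of_subset hTw, hw.cd]; omega
  have h3 := card_le_card h1
  have h4 := not_one hcomm hc hz.mem hw.mem
  have h5 : a ∈ supp univ z ∩ supp univ w := mem_inter.2 ⟨ha, hw' (mem_insert_self _ _)⟩
  have h6 := card_pos.2 ⟨a, h5⟩
  have h7 : supp univ z ∩ supp univ w = supp univ w \ T := eq_of_subset_of_card_le h1 (by omega)
  have h8 : ((supp univ z ∩ supp univ w).erase a).card = 1 := by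
    rw [card_erase_of_mem h5]; omega
  obtain ⟨b, hb⟩ := card_eq_one.1 h8
  have h9 : b ∈ (supp univ z ∩ supp univ w).erase a := hb ▸ mem_singleton_self b
  refine ⟨w, b, hw, (ne_of_mem_erase h9).symm, by rw [← hb, insert_erase h5], fun x hx => ?_⟩
  refine ⟨fun h => ?_, fun h => hTw h⟩
  by_contra h'
  exact hx (mem_inter.1 (h7 ▸ mem_sdiff.2 ⟨h, h'⟩)).1

lemma cyc (hp : l.Prime) (hl : Odd l) (hs : s + 1 ≤ 5) {z : Perm β} (hz : Good M s l z) :
    l = s + 1 ∧ ∀ a ∈ supp univ z, ∀ b ∈ supp univ z, ∃ i : ℕ, (z ^ i) a = b := by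
  have : Fact l.Prime := ⟨hp⟩
  have ho : orderOf z = l := orderOf_eq_prime hz.pw hz.ne
  have hsup : z.support.card = s + 1 := hz.cd
  have h3 : 3 ≤ l := by
    have := hp.two_le
    obtain ⟨k, rfl⟩ := hl
    omega
  have hcy : z.IsCycle := Perm.isCycle_of_prime_order (ho ▸ hp) (by rw [ho, hsup]; omega)
  exact ⟨by rw [← ho, hcy.orderOf, hsup],
    fun a ha b hb => hcy.exists_pow_eq (mem_su.1 ha) (mem_su.1 hb)⟩

lemma odd_case (hcomm : St_comm) (hc : Ctx M s) {t : ℕ} (hφ : Fintype.card β = s + 1 + t)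
    (hs : 2 ≤ s) (hst : s + 2 ≤ t) (hh : HH M t) (hp : l.Prime) (hl : Odd l) {z : Perm β}
    (hz : Good M s l z) : False := by
  have hA : (supp univ z)ᶜ.card = t := by rw [card_compl, hz.cd]; omega
  obtain ⟨a, ha⟩ : (supp univ z).Nonempty := card_pos.1 (by rw [hz.cd]; omega)
  obtain ⟨T, hT, hT'⟩ := exists_subset_card_eq (s := (supp univ z)ᶜ) (n := s - 1) (by omega)
  obtain ⟨w, b, hw, hab, hI, hw'⟩ := pair hcomm hc hφ hh hz (by omega) hT ha
  have hb : b ∈ supp univ z ∩ supp univ w := hI ▸ mem_insert_of_mem (mem_singleton_self b)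
  have ha' : a ∈ supp univ z ∩ supp univ w := hI ▸ mem_insert_self a {b}
  have h6 := (two hcomm hc hl hz hw hI).trans card_le_six
  by_cases h5 : s + 1 ≤ 5
  · obtain ⟨e1, e2⟩ := cyc hp hl h5 hz
    obtain ⟨-, e3⟩ := cyc hp hl h5 hw
    obtain ⟨i, hi⟩ := e2 a ha b (mem_inter.1 hb).1
    obtain ⟨j, hj⟩ := e3 a (mem_inter.1 ha').2 b (mem_inter.1 hb).2
    have e4 := four' hcomm hc hl hz hw hab hI hi hj
    have e5 := hc.four z hz.mem hz.ne
    rw [hz.cd] at e5
    obtain ⟨k, hk⟩ := hl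
    omega
  · obtain ⟨p, hpT⟩ : T.Nonempty := card_pos.1 (by omega)
    obtain ⟨U, hU, hU'⟩ := exists_subset_card_eq (s := (supp univ z)ᶜ \ T) (n := 3)
      (by rw [card_sdiff_of_subset hT]; omega)
    have hpU : p ∉ U := fun h => (mem_sdiff.1 (hU h)).2 hpT
    obtain ⟨v, c, hv, hac, hJ, hv'⟩ := pair hcomm hc hφ hh hz (T := insert p U)
      (by rw [card_insert_of_notMem hpU]; omega)
      (insert_subset (hT hpT) (hU.trans sdiff_subset)) ha
    have hc' : c ∈ supp univ z ∩ supp univ v := hJ ▸ mem_insert_of_mem (mem_singleton_self c)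
    have hz2 : z ^ 2 ≠ 1 := fun e => mem_su.1 ha (odd_fix hl hz.pw (by
      rw [← Perm.mul_apply, ← sq, e]; rfl))
    obtain ⟨k, hk1, hk2⟩ : ∃ k : ℕ, z ^ k ≠ 1 ∧ (z ^ k) c ≠ b := by
      by_cases e : z c = b
      · refine ⟨2, hz2, fun e' => mem_su.1 (mem_inter.1 hc').1 (z.injective ?_)⟩
        rw [← Perm.mul_apply, ← sq, e', e]
      · exact ⟨1, by simpa using hz.ne, by simpa using e⟩
    obtain ⟨g1, g2⟩ := hz.pow hc hk1
    have n1 : (z ^ k) a ≠ a := mem_su.1 (g2 ▸ ha)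
    have n2 : (z ^ k) a ≠ b := fun e => h5 (five hcomm hc hl hz hw hab hI e)
    have n3 : (z ^ k) c ≠ a := fun e => h5 (five hcomm hc hl hz hv hac.symm
      (by rw [hJ, pair_comm]) e)
    apply not_one hcomm hc hw.mem (hv.conj g1.mem).mem
    rw [supp_conj, card_eq_one]
    refine ⟨p, eq_singleton_iff_unique_mem.2 ⟨mem_inter.2 ⟨?_, ?_⟩, fun x hx => ?_⟩⟩
    · exact (hw' p (mem_compl.1 (hT hpT))).2 hpT
    · have e : (z ^ k) p = p := by
        by_contra e
        exact mem_compl.1 (hT hpT) (g2 ▸ mem_su.2 e)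
      rw [← e, apply_mem_smul]
      exact (hv' p (mem_compl.1 (hT hpT))).2 (mem_insert_self _ _)
    · obtain ⟨x1, x2⟩ := mem_inter.1 hx
      obtain ⟨y, rfl⟩ := (z ^ k).surjective x
      rw [apply_mem_smul] at x2
      by_cases hy : y ∈ supp univ z
      · have hy' : (z ^ k) y ∈ supp univ z := by
          rw [← g2] at hy ⊢
          exact mem_su.2 fun e => mem_su.1 hy ((z ^ k).injective e)
        have e1 : y ∈ ({a, c} : Finset β) := hJ ▸ mem_inter.2 ⟨hy, x2⟩
        have e2 : (z ^ k) y ∈ ({a, b} : Finset β) := hI ▸ mem_inter.2 ⟨hy', x1⟩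
        simp only [mem_insert, mem_singleton] at e1 e2
        rcases e1 with rfl | rfl <;> tauto
      · have e : (z ^ k) y = y := by
          by_contra e
          exact hy (g2 ▸ mem_su.2 e)
        rw [e] at x1 ⊢
        rcases mem_insert.1 ((hv' y hy).1 x2) with h | h
        · exact h
        · exact absurd ((hw' y hy).1 x1) (mem_sdiff.1 (hU h)).2

end E1

open E1 in
theorem e1_of (hcore : St_core) (homega : St_omega) (hram : St_ram) (halt : St_alt)
    (hcomm : St_comm) : St_e1 := by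
  intro β _ _ M t s hφ hs hst ht hh h2 hnh htr g hg X hX hX'
  by_contra hg1
  have hc : Ctx M s := by
    refine ⟨fun u hu hu1 => ?_, fun u hu hu1 => ?_⟩
    · by_contra h
      refine hu1 (htr u hu (supp univ u)ᶜ (by rw [card_compl]; omega) fun x hx => ?_)
      by_contra e
      exact mem_compl.1 hx (mem_su.2 e)
    · by_contra h
      exact hnh (halt β M (by omega) (hram β M (by omega) h2) u hu hu1 (by omega) t)
  obtain ⟨A, hA, hA'⟩ := exists_subset_card_eq hX
  have hne : Nat.card (fx M A) ≠ 1 := by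
    rw [Ne, Subgroup.card_eq_one, eq_bot_iff]
    exact fun h => hg1 (Subgroup.mem_bot.1 (h ⟨hg, fun x hx => hX' x (hA hx)⟩))
  obtain ⟨l, hp, hl⟩ := Nat.exists_prime_and_dvd hne
  rcases hp.eq_two_or_odd' with rfl | hodd
  · obtain ⟨-, -, -, c4, c5⟩ := hcore β M t hh (by omega) hnh
    obtain ⟨B, hB, hB'⟩ := c5 2 hp
    obtain ⟨P, hP⟩ := exists_syl' hp (fx M B)
    have e1 : fixs P ≠ B := fun e => hB' ((c4 2 hp B P hB hP).2 e)
    have e2 : B ⊆ fixs P := fun x hx => mem_fixs.2 fun u hu => (hP.1 hu).2 x hx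
    have e3 : t + 1 ≤ (fixs P).card := hB ▸ card_lt_card (ssubset_of_subset_of_ne e2 e1.symm)
    have e4 : Nat.card P = 1 := by
      rw [Subgroup.card_eq_one, eq_bot_iff]
      exact fun u hu => Subgroup.mem_bot.2
        (htr u (hP.1 hu).1 _ e3 fun x hx => mem_fixs.1 hx u hu)
    have e5 : ¬ 2 ∣ Nat.card (fx M B) := by
      rw [hp.dvd_iff_one_le_factorization Nat.card_pos.ne']
      have e6 := hP.2
      rw [e4] at e6
      have := (Nat.pow_eq_one.1 e6.symm).resolve_left (by omega)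
      omega
    have := homega β M t ht (by omega) htr fun C hC => by
      obtain ⟨x, hx, hx'⟩ := hh.erase hA' hC
      obtain ⟨y, hy, hy'⟩ := hh.erase hB hC
      exact ⟨⟨x, hx, by rwa [card_fx_of_mem_orb hx']⟩, y, hy, by rwa [card_fx_of_mem_orb hy']⟩
    omega
  · have : Fact l.Prime := ⟨hp⟩
    obtain ⟨⟨z, hz⟩, hz'⟩ := exists_prime_orderOf_dvd_card' l hl
    rw [Subgroup.orderOf_mk] at hz'
    have e1 : z ≠ 1 := by
      rintro rfl
      exact hp.one_lt.ne (by rw [← hz', orderOf_one])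
    refine odd_case hcomm hc hφ hs hst hh hp hodd (z := z)
      ⟨hz.1, e1, hz' ▸ pow_orderOf_eq_one z, le_antisymm ?_ (hc.big z hz.1 e1)⟩
    have e2 : supp univ z ⊆ Aᶜ := fun x hx => mem_compl.2 fun h => mem_su.1 hx (hz.2 x h)
    have e3 := card_le_card e2
    rw [card_compl] at e3
    omega

end Pool.Agent.H5Hom
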