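import Pool.Agent.Lib.MP_078193_al.MBlue

/-! Stabilisers of `t`-sets when only the identity fixes `t + 1` points. -/

open Finset Equiv
open scoped Pointwise

set_option linter.unusedSectionVars false

namespace Pool.Agent.H5Hom

namespace M1

variable {α : Type} [Fintype α] [DecidableEq α] {G : Subgroup (Perm α)} {t : ℕ}

lemma inv_compl (B : Finset α) : Inv (fx G B) (univ \ B) := by
  intro g hg x hx
  refine mem_sdiff.2 ⟨mem_univ _, fun h => (mem_sdiff.1 hx).2 ?_⟩
  rwa [g.injective (hg.2 _ h)] at h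

lemma orb_sub (B : Finset α) {x : α} (hx : x ∉ B) : orb (fx G B) x ⊆ univ \ B := by
  intro y hy
  obtain ⟨g, hg, rfl⟩ := mem_orb.1 hy
  exact inv_compl B g hg x (mem_sdiff.2 ⟨mem_univ _, hx⟩)

lemma exists_ne {K : Subgroup (Perm α)} (h : Nat.card K ≠ 1) : ∃ g ∈ K, g ≠ 1 := by
  by_contra hc
  push Not at hc
  apply h
  rw [Subgroup.card_eq_one, eq_bot_iff]
  exact fun g hg => Subgroup.mem_bot.2 (hc g hg)

lemma key (hti : St_ti) (htr : Triv G (t + 1)) {B : Finset α} (hB : B.card + 1 = t) {x y : α}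
    (hx : x ∉ B) (hy : y ∉ B) (h1 : Nat.card (fx G (insert x B)) ≠ 1)
    (h2 : Nat.card (fx G (insert y B)) ≠ 1) : y ∈ orb (fx G B) x := by
  have h := (hti α (fx G B) (univ \ B) (inv_compl B) (by
    intro g hg a ha b hb hab ga gb
    have ha' := (mem_sdiff.1 ha).2
    have hb' := (mem_sdiff.1 hb).2
    refine htr g hg.1 (insert a (insert b B)) ?_ ?_
    · rw [card_insert_of_notMem (by simp [hab, ha']), card_insert_of_notMem hb']; omega
    · intro z hz
      rcases mem_insert.1 hz with rfl | hz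
      · exact ga
      rcases mem_insert.1 hz with rfl | hz
      · exact gb
      · exact hg.2 z hz)).1
  obtain ⟨g, hg, g1⟩ := exists_ne h1
  obtain ⟨g', hg', g1'⟩ := exists_ne h2
  exact h x (mem_sdiff.2 ⟨mem_univ _, hx⟩) y (mem_sdiff.2 ⟨mem_univ _, hy⟩)
    ⟨g, fx_anti (subset_insert _ _) hg, g1, hg.2 x (mem_insert_self _ _)⟩
    ⟨g', fx_anti (subset_insert _ _) hg', g1', hg'.2 y (mem_insert_self _ _)⟩

lemma insert_orb {B : Finset α} {x y : α} (h : y ∈ orb (fx G B) x) :
    insert y B ∈ orb G (insert x B) := by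
  obtain ⟨g, hg, rfl⟩ := mem_orb.1 h
  refine mem_orb.2 ⟨g, hg.1, ?_⟩
  rw [smul_insert]
  congr 1
  rw [smul_eq_image]
  exact (image_congr fun z hz => hg.2 z hz).trans image_id

end M1

open M1 in
theorem m1_of (homega : St_omega) (hti : St_ti) : St_m1 := by
  intro α _ _ G t B₀ A₀ hc htr
  have ht := hc.ht
  have hn := hc.hn
  have p1 : ∀ A A' : Finset α, A.card = t → A'.card = t → Nat.card (fx G A) ≠ 1 →
      Nat.card (fx G A') ≠ 1 → A' ∈ orb G A := by
    intro A A' hA hA' h1 h2
    obtain ⟨C, -, hC⟩ := exists_subset_card_eq (s := (univ : Finset α)) (n := t + 1)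
      (by rw [card_univ]; omega)
    obtain ⟨x, hx, hx'⟩ := hc.hh.erase hA hC
    obtain ⟨y, hy, hy'⟩ := hc.hh.erase hA' hC
    by_cases hxy : x = y
    · subst hxy
      exact orb_trans hx' (orb_symm hy')
    have e1 : insert y ((C.erase x).erase y) = C.erase x :=
      insert_erase (mem_erase.2 ⟨Ne.symm hxy, hy⟩)
    have e2 : insert x ((C.erase x).erase y) = C.erase y := by
      rw [erase_right_comm]
      exact insert_erase (mem_erase.2 ⟨hxy, hx⟩)
    have := insert_orb (key hti htr (B := (C.erase x).erase y) (x := y) (y := x)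
      (by rw [card_erase_of_mem (mem_erase.2 ⟨Ne.symm hxy, hy⟩), card_erase_of_mem hx]; omega)
      (by simp) (by simp) (by rwa [e1, card_fx_of_mem_orb hx'])
      (by rwa [e2, card_fx_of_mem_orb hy']))
    rw [e1, e2] at this
    exact orb_trans (orb_trans hx' this) (orb_symm hy')
  have p3 : ∃ A : Finset α, A.card = t ∧ Nat.card (fx G A) = 1 := by
    by_contra h
    push Not at h
    exact hc.nh fun A _ A' _ hA hA' => mem_orb.1 (p1 A A' hA hA' (h A hA) (h A' hA'))
  refine ⟨p1, fun A hA => ⟨fun h2 => ?_, ?_⟩, p3⟩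
  · obtain ⟨D, hD, hD'⟩ := p3
    have := homega α G t ht (by omega) htr fun C hC => by
      obtain ⟨x, hx, hx'⟩ := hc.hh.erase hA hC
      obtain ⟨y, hy, hy'⟩ := hc.hh.erase hD hC
      exact ⟨⟨x, hx, by rwa [card_fx_of_mem_orb hx']⟩,
        ⟨y, hy, by rw [card_fx_of_mem_orb hy', hD']; decide⟩⟩
    omega
  by_cases he : Nat.card (fx G A) = 1
  · omega
  obtain ⟨D, hD, hD'⟩ := p3
  set e := Nat.card (fx G A) with hedef
  classical
  set L : α → Finset α := fun y =>
    (univ \ D.erase y).filter fun x => Nat.card (fx G (insert x (D.erase y))) ≠ 1 with hL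
  have b1 : ∀ y ∈ D, (L y).card * (e + 1) ≤ Fintype.card α - t + 1 := by
    intro y hy
    rcases (L y).eq_empty_or_nonempty with h | ⟨x, hx⟩
    · simp [h]
    have hB : (D.erase y).card + 1 = t := by rw [card_erase_of_mem hy]; omega
    obtain ⟨x1, x2⟩ := mem_filter.1 hx
    have x3 := (mem_sdiff.1 x1).2
    have s1 : L y ⊆ orb (fx G (D.erase y)) x := fun z hz =>
      key hti htr hB x3 (mem_sdiff.1 (mem_filter.1 hz).1).2 x2 (mem_filter.1 hz).2
    have s2 := orb_fx_mul (H := G) (D.erase y) x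
    rw [card_fx_of_mem_orb (p1 A _ hA (by rw [card_insert_of_notMem x3]; omega) he x2),
      ← hedef] at s2
    have s3 := orb_fx_mul (H := G) (D.erase y) y
    rw [insert_erase hy, hD', mul_one] at s3
    have s4 : Disjoint (orb (fx G (D.erase y)) x) (orb (fx G (D.erase y)) y) := by
      rw [disjoint_left]
      intro z z1 z2
      have := card_fx_of_mem_orb (insert_orb (orb_trans z1 (orb_symm z2)))
      rw [insert_erase hy, hD'] at this
      exact x2 this.symm
    have s5 := card_le_card (union_subset (orb_sub (G := G) (D.erase y) x3)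
      (orb_sub (G := G) (D.erase y) (notMem_erase y D)))
    rw [card_union_of_disjoint s4, card_sdiff_of_subset (subset_univ _), card_univ] at s5
    have s6 := Nat.mul_le_mul_right (e + 1) (card_le_card s1)
    rw [mul_add (orb _ x).card, mul_one, s2, ← s3] at s6
    omega
  have b2 : univ \ D ⊆ D.biUnion L := by
    intro x hx
    have x1 := (mem_sdiff.1 hx).2
    obtain ⟨y, hy, hy'⟩ := hc.hh.erase hA (C := insert x D)
      (by rw [card_insert_of_notMem x1]; omega)
    have hc' := card_fx_of_mem_orb hy'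
    have hxy : x ≠ y := by
      rintro rfl
      rw [erase_insert x1, hD'] at hc'
      exact he hc'.symm
    have hyD : y ∈ D := (mem_insert.1 hy).resolve_left (Ne.symm hxy)
    rw [erase_insert_of_ne hxy] at hc'
    refine mem_biUnion.2 ⟨y, hyD, mem_filter.2 ⟨mem_sdiff.2 ⟨mem_univ _, fun h =>
      x1 (mem_of_mem_erase h)⟩, by rwa [hc']⟩⟩
  have b3 := (card_le_card b2).trans card_biUnion_le
  rw [card_sdiff_of_subset (subset_univ _), card_univ, hD] at b3
  have b4 := Nat.mul_le_mul_right (e + 1) b3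
  rw [sum_mul] at b4
  have b5 := b4.trans (sum_le_card_nsmul D _ _ b1)
  rw [hD, smul_eq_mul] at b5
  obtain ⟨m, hm⟩ : ∃ m, Fintype.card α - t = m := ⟨_, rfl⟩
  rw [hm] at b5
  have hm' : t + 1 ≤ m := by omega
  by_contra hlt
  have : m * (t + 1) ≤ m * (e + 1) := Nat.mul_le_mul_left _ (by omega)
  nlinarith

end Pool.Agent.H5Hom
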