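import Pool.Agent.Lib.MP_078193_al.MBlue2
import Pool.Agent.Lib.MP_078193_al.MCount
import Pool.Agent.Lib.MP_078193_al.MM1

/-! Block EB: a `t`-set with nontrivial pointwise stabiliser forces small degree. -/

open Finset Equiv
open scoped Pointwise

set_option linter.unusedSectionVars false

namespace Pool.Agent.H5Hom

namespace Eb

variable {α : Type} [Fintype α] [DecidableEq α] {G : Subgroup (Perm α)} {t e : ℕ}

/-- the counting inequality -/
lemma cnt (L : Subgroup (Perm α)) (Z : Finset α) :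
    2 * (∑ x ∈ Z, Nat.card (st L x)) + 2 ≤ 2 * Nat.card L +
      ∑ x ∈ Z, ((∑ y ∈ Z.erase x, (Nat.card (st (st L x) y) - 1)) + 2) := by
  classical
  set N := univ.filter (fun g : Perm α => g ∈ L ∧ g ≠ 1) with hN
  let i : Perm α → α → ℕ := fun g x => if g x = x then 1 else 0
  have hi : ∀ g x, i g x * i g x = i g x := fun g x => by
    simp only [i]; split_ifs <;> rfl
  have hA : ∀ x, (∑ g ∈ N, i g x) + 1 = Nat.card (st L x) := by
    intro x
    rw [← Count.card_ne (st L x), ← card_filter, hN, filter_filter]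
    congr 2
    ext g
    simp only [mem_filter, mem_univ, true_and, mem_st, Perm.smul_def]
    tauto
  have hB : ∀ x y, ∑ g ∈ N, i g x * i g y = Nat.card (st (st L x) y) - 1 := by
    intro x y
    rw [← Count.card_ne (st (st L x) y), Nat.add_sub_cancel]
    have : ∀ g, i g x * i g y = if g x = x ∧ g y = y then 1 else 0 := fun g => by
      simp only [i]; split_ifs <;> simp_all
    simp only [this]
    rw [← card_filter, hN, filter_filter]
    congr 1
    ext g
    simp only [mem_filter, mem_univ, true_and, mem_st, Perm.smul_def]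
    tauto
  have h1 : (∑ g ∈ N, ∑ x ∈ Z, i g x) + Z.card = ∑ x ∈ Z, Nat.card (st L x) := by
    rw [sum_comm, card_eq_sum_ones, ← sum_add_distrib]
    exact sum_congr rfl fun x _ => hA x
  have h2 : (∑ g ∈ N, ∑ x ∈ Z, ∑ y ∈ Z.erase x, i g x * i g y) + Z.card * 2
      = ∑ x ∈ Z, ((∑ y ∈ Z.erase x, (Nat.card (st (st L x) y) - 1)) + 2) := by
    rw [sum_comm, ← smul_eq_mul Z.card, ← sum_const, ← sum_add_distrib]
    refine sum_congr rfl fun x hx => ?_
    rw [sum_comm]
    simp only [hB]
  have h3 : 2 * ∑ g ∈ N, ∑ x ∈ Z, i g x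
      ≤ N.card * 2 + ∑ g ∈ N, ∑ x ∈ Z, ∑ y ∈ Z.erase x, i g x * i g y := by
    rw [mul_sum, ← smul_eq_mul N.card, ← sum_const, ← sum_add_distrib]
    refine sum_le_sum fun g _ => ?_
    have a1 := Count.sq_id Z (i g) (hi g)
    have a2 := Count.three_le (∑ x ∈ Z, i g x)
    omega
  have h4 : N.card + 1 = Nat.card L := Count.card_ne L
  omega

lemma cnt' (L : Subgroup (Perm α)) {Z W : Finset α} (hW : W ⊆ Z)
    (h0 : ∀ x ∈ Z, (∑ y ∈ Z.erase x, (Nat.card (st (st L x) y) - 1)) + 2
      ≤ 2 * Nat.card (st L x))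
    (h1 : ∀ x ∈ W, (∑ y ∈ Z.erase x, (Nat.card (st (st L x) y) - 1)) + 2 ≤ Nat.card (st L x)) :
    (∑ x ∈ W, Nat.card (st L x)) + 2 ≤ 2 * Nat.card L := by
  have a := cnt L Z
  have b := sum_le_sum h1
  have c := sum_le_sum (s := Z \ W) fun x hx => h0 x (mem_sdiff.1 hx).1
  rw [← sum_sdiff hW, ← sum_sdiff hW] at a
  rw [← mul_sum] at c
  omega

open Classical in
/-- points which extend `B` to a set with nontrivial stabiliser -/
noncomputable def lm (G : Subgroup (Perm α)) (B : Finset α) : Finset α :=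
  Bᶜ.filter (fun x => Nat.card (fx G (insert x B)) ≠ 1)

lemma mem_lm {B : Finset α} {x : α} :
    x ∈ lm G B ↔ x ∉ B ∧ Nat.card (fx G (insert x B)) ≠ 1 := by
  simp [lm]

lemma lm_smul {g : Perm α} (hg : g ∈ G) (B : Finset α) : lm G (g • B) = g • lm G B := by
  ext y
  obtain ⟨x, rfl⟩ := g.surjective y
  rw [apply_mem_smul, mem_lm, mem_lm, apply_mem_smul, ← smul_insert, card_fx_smul hg]

lemma lm_orb {B B' : Finset α} (h : B' ∈ orb G B) : (lm G B').card = (lm G B).card := by
  obtain ⟨g, hg, rfl⟩ := mem_orb.1 h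
  rw [lm_smul hg, card_smul]

lemma orb_sub (B : Finset α) {x : α} (hx : x ∉ B) : orb (fx G B) x ⊆ Bᶜ := fun _ hy =>
  mem_compl.2 (mem_sdiff.1 (M1.orb_sub B hx hy)).2

/-- standing facts -/
structure Ctx (G : Subgroup (Perm α)) (t e : ℕ) : Prop where
  triv : Triv G (t + 1)
  e1 : e ≠ 1
  odd : ¬ 2 ∣ e
  card : ∀ A : Finset α, A.card = t → Nat.card (fx G A) ≠ 1 → Nat.card (fx G A) = e
  key : ∀ (B : Finset α) (x y : α), B.card + 1 = t → x ∈ lm G B → y ∈ lm G B →
    y ∈ orb (fx G B) x

lemma Ctx.pos (h : Ctx G t e) : 0 < e :=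
  Nat.pos_of_ne_zero fun h0 => h.odd (h0 ▸ dvd_zero 2)

lemma Ctx.lm_eq (h : Ctx G t e) {B : Finset α} (hB : B.card + 1 = t) {x : α}
    (hx : x ∈ lm G B) : lm G B = orb (fx G B) x := by
  refine Subset.antisymm (fun y hy => h.key B x y hB hx hy) fun y hy => mem_lm.2 ⟨?_, ?_⟩
  · exact mem_compl.1 (orb_sub B (mem_lm.1 hx).1 hy)
  · rw [card_fx_of_mem_orb (M1.insert_orb hy)]
    exact (mem_lm.1 hx).2

lemma Ctx.lm_mul (h : Ctx G t e) {B : Finset α} (hB : B.card + 1 = t) {x : α}
    (hx : x ∈ lm G B) : (lm G B).card * e = Nat.card (fx G B) := by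
  obtain ⟨h1, h2⟩ := mem_lm.1 hx
  rw [h.lm_eq hB hx, ← orb_fx_mul B x,
    h.card _ (by rw [card_insert_of_notMem h1]; omega) h2]

lemma Ctx.sum_eq (h : Ctx G t e) {Y : Finset α} (hY : Y.card + 2 = t) {v : α} (hv : v ∉ Y) :
    ∑ w ∈ Yᶜ.erase v, (Nat.card (st (st (fx G Y) v) w) - 1)
      = (lm G (insert v Y)).card * (e - 1) := by
  classical
  have hX : Yᶜ.erase v = (insert v Y)ᶜ := by
    ext w; simp
  rw [st_fx, hX, ← smul_eq_mul, ← sum_const]
  symm
  refine (sum_congr rfl fun w hw => ?_).trans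
    (sum_subset (filter_subset _ _) fun w hw hw' => ?_)
  · obtain ⟨h1, h2⟩ := mem_lm.1 hw
    rw [st_fx, h.card _ (by rw [card_insert_of_notMem h1, card_insert_of_notMem hv]; omega) h2]
  · have : ¬ w ∈ lm G (insert v Y) := hw'
    rw [mem_lm, not_and, not_not] at this
    rw [st_fx, this (mem_compl.1 hw), Nat.sub_self]

/-- at most one orbit is rich -/
lemma Ctx.dich (h : Ctx G t e) {Y : Finset α} (hY : Y.card + 2 = t) {y v : α} (hy : y ∉ Y)
    (hv : v ∉ Y) (h2 : 2 ≤ (lm G (insert y Y)).card) (hvy : v ∉ orb (fx G Y) y) :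
    Nat.card (fx G (insert v Y)) = 1 ∨ (lm G (insert v Y)).card = 1 := by
  by_contra hn
  rw [not_or] at hn
  obtain ⟨d, rfl⟩ : ∃ d, e = d + 1 := ⟨e - 1, by have := h.odd; omega⟩
  have hc : ∀ w ∉ Y, (lm G (insert w Y)).card = 0 ∨
      (lm G (insert w Y)).card * (d + 1) = Nat.card (fx G (insert w Y)) := by
    intro w hw
    rcases (lm G (insert w Y)).eq_empty_or_nonempty with h0 | ⟨x, hx⟩
    · exact Or.inl (by rw [h0, card_empty])
    · exact Or.inr (h.lm_mul (by rw [card_insert_of_notMem hw]; omega) hx)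
  have hdis : Disjoint (orb (fx G Y) y) (orb (fx G Y) v) :=
    disjoint_left.2 fun w h1 h2 => hvy (orb_trans h1 (orb_symm h2))
  have key := cnt' (fx G Y) (union_subset (orb_sub Y hy) (orb_sub Y hv)) (fun w hw => by
      have hw' := mem_compl.1 hw
      have hp : 0 < Nat.card (fx G (insert w Y)) := Nat.card_pos
      rw [h.sum_eq hY hw', st_fx, Nat.add_sub_cancel]
      rcases hc w hw' with h0 | h0
      · rw [h0]; omega
      · rcases Nat.eq_zero_or_pos (lm G (insert w Y)).card with h1 | h1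
        · rw [h1]; omega
        · rw [mul_add] at h0
          omega)
    (fun w hw => by
      have hw' : w ∉ Y := mem_compl.1 (union_subset (orb_sub Y hy) (orb_sub Y hv) hw)
      have hp : 0 < Nat.card (fx G (insert w Y)) := Nat.card_pos
      rw [h.sum_eq hY hw', st_fx, Nat.add_sub_cancel]
      have h3 : 2 ≤ (lm G (insert w Y)).card ∨ ((lm G (insert w Y)).card = 0 ∧
          Nat.card (fx G (insert w Y)) ≠ 1) := by
        rcases mem_union.1 hw with h4 | h4
        · exact Or.inl (by rwa [lm_orb (M1.insert_orb h4)])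
        · rw [lm_orb (M1.insert_orb h4), card_fx_of_mem_orb (M1.insert_orb h4)]
          omega
      rcases hc w hw' with h0 | h0
      · rw [h0]; omega
      · rw [mul_add] at h0
        rcases h3 with h3 | h3
        · omega
        · rw [h3.1] at h0; omega)
  rw [sum_union hdis, Count.sum_orb, Count.sum_orb] at key
  omega

lemma Ctx.conj (h : Ctx G t e) {S S' : Finset α} (hS : S.card = t) (hS' : S'.card = t)
    (h1 : Nat.card (fx G S) ≠ 1) (h1' : Nat.card (fx G S') ≠ 1) (c : (S \ S').card ≤ 2)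
    (c' : (S' \ S).card ≤ 2) : ∃ k ∈ fx G (S ∩ S'), k • S = S' := by
  obtain ⟨p, hp, hpe⟩ := Nat.exists_prime_and_dvd h.e1
  have hp2 : 2 < p := lt_of_le_of_ne hp.two_le fun h2 => h.odd (h2 ▸ hpe)
  have syl : ∀ T : Finset α, T.card = t → Nat.card (fx G T) ≠ 1 →
      ∃ P, Syl p (fx G T) P ∧ fixs P = T := by
    intro T hT hT1
    obtain ⟨P, hP⟩ := exists_syl' hp (fx G T)
    refine ⟨P, hP, Subset.antisymm (fun x hx => ?_)
      fun x hx => mem_fixs.2 fun g hg => (hP.1 hg).2 x hx⟩
    by_contra hxT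
    have hle : P ≤ fx G (insert x T) := fun g hg => ⟨(hP.1 hg).1, fun z hz => by
      rcases mem_insert.1 hz with rfl | hz
      · exact mem_fixs.1 hx g hg
      · exact (hP.1 hg).2 z hz⟩
    have h2 := Subgroup.card_dvd_of_le hle
    rw [h.triv.card (by rw [card_insert_of_notMem hxT]; omega), hP.2, h.card T hT hT1] at h2
    have h3 := (hp.dvd_iff_one_le_factorization h.pos.ne').1 hpe
    have h4 := (dvd_pow_self p (by omega : e.factorization p ≠ 0)).trans h2
    exact hp.one_lt.ne' (Nat.dvd_one.1 h4)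
  obtain ⟨P, hP, hP'⟩ := syl S hS h1
  obtain ⟨Q, hQ, hQ'⟩ := syl S' hS' h1'
  obtain ⟨k, hk, -, hk'⟩ := adj hp hP hP' hQ hQ' (by omega) (by omega)
  exact ⟨k, hk, hk'⟩

lemma sdiff_two (Y : Finset α) (a b c d : α) :
    (insert a (insert b Y) \ insert c (insert d Y)).card ≤ 2 := by
  refine (card_le_card fun x hx => ?_).trans (card_le_two (a := a) (b := b))
  simp only [mem_sdiff, mem_insert, mem_singleton] at hx ⊢
  tauto

/-- the case of a proper nontrivial orbit -/
lemma Ctx.caseS (h : Ctx G t e) {Y : Finset α} (hY : Y.card + 2 = t) {y : α} (hy : y ∉ Y)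
    (h2 : 2 ≤ (lm G (insert y Y)).card) (hF : ∃ u ∈ fx G Y, u y ≠ y)
    (hT : ∃ v ∉ Y, v ∉ orb (fx G Y) y) :
    ((lm G (insert y Y)).card + 1) * ((lm G (insert y Y)).card * e + 1) ≤ Yᶜ.card := by
  have hB : (insert y Y).card + 1 = t := by rw [card_insert_of_notMem hy]; omega
  obtain ⟨z₀, hz₀⟩ := card_pos.1 (show 0 < (lm G (insert y Y)).card by omega)
  have hH := h.lm_mul hB hz₀
  have hL := orb_fx_mul (H := G) Y y
  have two : ∀ v ∉ Y, v ∉ orb (fx G Y) y →
      (orb (fx G Y) y).card + (orb (fx G Y) v).card ≤ Yᶜ.card := by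
    intro v hv hvy
    rw [← card_union_of_disjoint
      (disjoint_left.2 fun w h1 h2 => hvy (orb_trans h1 (orb_symm h2)))]
    exact card_le_card (union_subset (orb_sub Y hy) (orb_sub Y hv))
  by_cases hs : lm G (insert y Y) ⊆ orb (fx G Y) y
  · have a1 : (lm G (insert y Y)).card + 1 ≤ (orb (fx G Y) y).card := by
      rw [← card_insert_of_notMem (a := y) fun h' => (mem_lm.1 h').1 (mem_insert_self _ _)]
      exact card_le_card (insert_subset (self_mem_orb y) hs)
    obtain ⟨v, hv, hvy⟩ := hT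
    rcases h.dich hY hy hv h2 hvy with h3 | h3
    · have a2 := orb_fx_mul (H := G) Y v
      rw [h3, mul_one, ← hL, ← hH] at a2
      have a3 := two v hv hvy
      rw [a2] at a3
      calc _ ≤ (orb (fx G Y) y).card * ((lm G (insert y Y)).card * e + 1) :=
            Nat.mul_le_mul_right _ a1
        _ ≤ _ := by rw [mul_add, mul_one, add_comm]; exact a3
    · exfalso
      obtain ⟨w, hw⟩ := card_pos.1 (show 0 < (lm G (insert v Y)).card by omega)
      obtain ⟨w1, w2⟩ := mem_lm.1 hw
      obtain ⟨z1, z2⟩ := mem_lm.1 hz₀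
      obtain ⟨k, hk, hk'⟩ := h.conj
        (by rw [card_insert_of_notMem w1, card_insert_of_notMem hv]; omega)
        (by rw [card_insert_of_notMem z1]; omega) w2 z2 (sdiff_two _ _ _ _ _)
        (sdiff_two _ _ _ _ _)
      have hkL : k ∈ fx G Y := fx_anti (subset_inter
        ((subset_insert _ _).trans (subset_insert _ _))
        ((subset_insert _ _).trans (subset_insert _ _))) hk
      have b1 : k v ∈ orb (fx G Y) v := mem_orb.2 ⟨k, hkL, rfl⟩
      have b2 : k v ∈ insert z₀ (insert y Y) := by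
        rw [← hk', apply_mem_smul]
        exact mem_insert_of_mem (mem_insert_self _ _)
      refine hvy (orb_trans ?_ (orb_symm b1))
      rcases mem_insert.1 b2 with b | b
      · rw [b]; exact hs hz₀
      rcases mem_insert.1 b with b | b
      · rw [b]; exact self_mem_orb y
      · exact absurd b (mem_compl.1 (orb_sub Y hv b1))
  · obtain ⟨z, hz, hzy⟩ := not_subset.1 hs
    obtain ⟨z1, z2⟩ := mem_lm.1 hz
    have z3 : z ∉ Y := fun h' => z1 (mem_insert_of_mem h')
    have z4 : y ∈ lm G (insert z Y) := by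
      refine mem_lm.2 ⟨fun h' => ?_, by rwa [insert_comm]⟩
      rcases mem_insert.1 h' with h' | h'
      · exact z1 (h' ▸ mem_insert_self _ _)
      · exact hy h'
    have a0 := h.lm_mul (by rw [card_insert_of_notMem z3]; omega) z4
    have a1 : Nat.card (fx G (insert z Y)) = e := by
      rcases h.dich hY hy z3 h2 hzy with h3 | h3
      · rw [h3] at a0
        exact absurd (Nat.eq_one_of_mul_eq_one_left a0) h.e1
      · rw [← a0, h3, one_mul]
    have a2 := orb_fx_mul (H := G) Y z
    rw [a1, ← hL, ← hH, ← mul_assoc] at a2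
    have a3 := Nat.eq_of_mul_eq_mul_right h.pos a2
    have a4 := two z z3 hzy
    obtain ⟨u, hu, hu'⟩ := hF
    have b1 : u y ∈ orb (fx G Y) y := mem_orb.2 ⟨u, hu, rfl⟩
    have b2 : u y ∉ insert y Y := by
      rw [mem_insert, not_or]
      exact ⟨hu', mem_compl.1 (orb_sub Y hy b1)⟩
    have up : ∀ a b : α, b ∈ orb (fx G (insert y Y)) a → b ∈ orb (fx G Y) a := fun a b hb => by
      obtain ⟨g, hg, rfl⟩ := mem_orb.1 hb
      exact mem_orb.2 ⟨g, fx_anti (subset_insert _ _) hg, rfl⟩
    have b3 : Nat.card (fx G (insert (u y) (insert y Y))) = 1 := by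
      by_contra h'
      exact hzy (orb_trans b1 (up _ _ (h.key _ _ _ hB (mem_lm.2 ⟨b2, h'⟩) hz)))
    have b4 := orb_fx_mul (H := G) (insert y Y) (u y)
    rw [b3, mul_one, ← hH] at b4
    have b5 : (lm G (insert y Y)).card * e + 1 ≤ (orb (fx G Y) y).card := by
      rw [← b4, ← card_insert_of_notMem (a := y)
        fun h' => mem_compl.1 (orb_sub _ b2 h') (mem_insert_self _ _)]
      exact card_le_card (insert_subset (self_mem_orb y) fun w hw => orb_trans b1 (up _ _ hw))
    rw [a3] at a4
    calc _ ≤ ((lm G (insert y Y)).card + 1) * (orb (fx G Y) y).card := Nat.mul_le_mul_left _ b5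
      _ ≤ _ := by rw [add_mul, one_mul, add_comm, mul_comm]; exact a4

open Classical in
/-- points of `B'` which can be exchanged freely -/
noncomputable def phi (G : Subgroup (Perm α)) (B B' : Finset α) : Finset α :=
  B'.filter (fun y => ∀ x ∉ B', insert x (B'.erase y) ∈ orb G B)

lemma mem_phi {B B' : Finset α} {y : α} :
    y ∈ phi G B B' ↔ y ∈ B' ∧ ∀ x ∉ B', insert x (B'.erase y) ∈ orb G B := by
  simp [phi]

lemma phi_smul {g : Perm α} (hg : g ∈ G) (B B' : Finset α) :
    phi G B (g • B') = g • phi G B B' := by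
  ext y
  obtain ⟨y, rfl⟩ := g.surjective y
  rw [apply_mem_smul, mem_phi, mem_phi, apply_mem_smul, g.surjective.forall]
  simp only [apply_mem_smul, ← smul_erase, ← smul_insert, smul_mem_orb hg]

/-- the case of full or trivial orbits -/
lemma Ctx.caseTF (h : Ctx G t e) (hjo : St_john) (hco : St_const) {B₀ A₀ : Finset α}
    (hc : Cex G t B₀ A₀) {B : Finset α} (hB : B.card + 1 = t) (h2 : 2 ≤ (lm G B).card)
    (hTF : ∀ y ∈ B, y ∈ phi G B B ∨ ∀ u ∈ fx G (B.erase y), u y = y) : False := by
  classical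
  have ht := hc.ht
  have hn := hc.hn
  obtain ⟨z, hz⟩ := card_pos.1 (show 0 < (lm G B).card by omega)
  have hH := h.lm_mul hB hz
  have he := h.pos
  have hbig : e < Nat.card (fx G B) := by
    rw [← hH]; nlinarith
  have tf : ∀ B' ∈ orb G B, ∀ y ∈ B', y ∈ phi G B B' ∨ ∀ u ∈ fx G (B'.erase y), u y = y := by
    intro B' hB' y hy
    obtain ⟨g, hg, rfl⟩ := mem_orb.1 hB'
    obtain ⟨y, rfl⟩ := g.surjective y
    rw [phi_smul hg, apply_mem_smul]
    refine (hTF y (apply_mem_smul.1 hy)).imp_right fun hF u hu => ?_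
    have := hF (g⁻¹ * u * g) ⟨G.mul_mem (G.mul_mem (G.inv_mem hg) hu.1) hg, fun x hx => by
      rw [Perm.mul_apply, Perm.mul_apply, hu.2 _ (by rwa [← smul_erase, apply_mem_smul]), inv_ap]⟩
    rwa [Perm.mul_apply, Perm.mul_apply, Perm.inv_eq_iff_eq] at this
  have nf : ∀ B' ∈ orb G B, ∀ y ∈ B', y ∉ phi G B B' → ∀ x ∉ B',
      insert x (B'.erase y) ∉ orb G B := by
    intro B' hB' y hy hy' x hx ho
    have hF := (tf B' hB' y hy).resolve_left hy'
    have hle : fx G (insert x (B'.erase y)) ≤ fx G (insert x B') := fun u hu =>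
      ⟨hu.1, fun w hw => by
        by_cases hwy : w = y
        · rw [hwy]; exact hF u (fx_anti (subset_insert _ _) hu)
        · refine hu.2 w ?_
          simp only [mem_insert, mem_erase] at hw ⊢
          tauto⟩
    have h3 := Nat.le_of_dvd Nat.card_pos (Subgroup.card_dvd_of_le hle)
    rw [card_fx_of_mem_orb ho] at h3
    by_cases h4 : Nat.card (fx G (insert x B')) = 1
    · omega
    · rw [h.card _ (by rw [card_insert_of_notMem hx, card_of_mem_orb hB']; omega) h4] at h3
      omega
  have count : ∀ C : Finset α, C.card = t + 1 →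
      (C.filter (fun w => ∃ v ∈ C.erase w, (C.erase w).erase v ∈ orb G B)).card
        = (phi G B B).card + 2 := by
    intro C hC
    obtain ⟨z1, z2⟩ := mem_lm.1 hz
    obtain ⟨x', hx', ho⟩ := hc.hh.erase (A := insert z B)
      (by rw [card_insert_of_notMem z1]; omega) hC
    obtain ⟨g, hg, hg'⟩ := mem_orb.1 ho
    have hB' : g • B ∈ orb G B := mem_orb.2 ⟨g, hg, rfl⟩
    have hx : g z ∉ g • B := by rwa [apply_mem_smul]
    have hne : Nat.card (fx G (insert (g z) (g • B))) ≠ 1 := by
      rwa [← smul_insert, card_fx_smul hg]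
    rw [← card_smul g (phi G B B), ← phi_smul hg]
    rw [smul_insert] at hg'
    generalize g • B = B' at *
    generalize g z = x at *
    have hx'' : x' ∉ insert x B' := hg' ▸ notMem_erase _ _
    obtain rfl : C = insert x' (insert x B') := by rw [hg', insert_erase hx']
    have n1 : x' ≠ x := fun h' => hx'' (h' ▸ mem_insert_self _ _)
    have n2 : x' ∉ B' := fun h' => hx'' (mem_insert_of_mem h')
    have hsub : phi G B B' ⊆ B' := filter_subset _ _
    rw [← one_add_one_eq_two, ← add_assoc,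
      ← card_insert_of_notMem (a := x) (fun h' => hx (hsub h')),
      ← card_insert_of_notMem (a := x') (fun h' => hx'' (insert_subset_insert _ hsub h'))]
    congr 1
    ext w
    rw [mem_filter]
    constructor
    · rintro ⟨hw0, v, hv0, hv'⟩
      rcases mem_insert.1 hw0 with rfl | hw1
      · exact mem_insert_self _ _
      rcases mem_insert.1 hw1 with rfl | hw
      · exact mem_insert_of_mem (mem_insert_self _ _)
      refine mem_insert_of_mem (mem_insert_of_mem ?_)
      by_contra hw'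
      have w1 : w ≠ x := fun h' => hx (h' ▸ hw)
      have w2 : w ≠ x' := fun h' => n2 (h' ▸ hw)
      obtain ⟨v1, hv1⟩ := mem_erase.1 hv0
      rcases mem_insert.1 hv1 with rfl | hv2
      · refine nf B' hB' w hw hw' x hx ?_
        convert hv' using 1
        ext a
        simp only [mem_insert, mem_erase]
        constructor
        · rintro (rfl | ⟨a1, a2⟩)
          · exact ⟨n1.symm, w1.symm, Or.inr (Or.inl rfl)⟩
          · exact ⟨fun h' => n2 (h' ▸ a2), a1, Or.inr (Or.inr a2)⟩
        · tauto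
      rcases mem_insert.1 hv2 with rfl | hv
      · refine nf B' hB' w hw hw' x' n2 ?_
        convert hv' using 1
        ext a
        simp only [mem_insert, mem_erase]
        constructor
        · rintro (rfl | ⟨a1, a2⟩)
          · exact ⟨n1, w2.symm, Or.inl rfl⟩
          · exact ⟨fun h' => hx (h' ▸ a2), a1, Or.inr (Or.inr a2)⟩
        · tauto
      have v2 : v ≠ x := fun h' => hx (h' ▸ hv)
      have v3 : v ≠ x' := fun h' => n2 (h' ▸ hv)
      rcases tf _ hv' x' (mem_erase.2 ⟨v3.symm, mem_erase.2 ⟨w2.symm, mem_insert_self _ _⟩⟩)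
        with h5 | h5
      · refine nf B' hB' w hw hw' x hx ?_
        convert (mem_phi.1 h5).2 v (notMem_erase _ _) using 1
        ext a
        simp only [mem_insert, mem_erase]
        constructor
        · rintro (rfl | ⟨a1, a2⟩)
          · exact Or.inr ⟨n1.symm, v2.symm, w1.symm, Or.inr (Or.inl rfl)⟩
          · by_cases a3 : a = v
            · exact Or.inl a3
            · exact Or.inr ⟨fun h' => n2 (h' ▸ a2), a3, a1, Or.inr (Or.inr a2)⟩
        · rintro (rfl | h')
          · exact Or.inr ⟨v1, hv⟩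
          · tauto
      · obtain ⟨u, hu, u1⟩ := M1.exists_ne hne
        refine u1 (h.triv u hu.1 _ hC.ge fun a ha => ?_)
        rcases mem_insert.1 ha with rfl | ha
        · refine h5 u (fx_anti (fun b hb => ?_) hu)
          simp only [mem_insert, mem_erase] at hb ⊢
          tauto
        · exact hu.2 a ha
    · intro hw
      rcases mem_insert.1 hw with rfl | hw
      · refine ⟨mem_insert_self _ _, x, ?_, ?_⟩
        · rw [erase_insert hx'']; exact mem_insert_self _ _
        · rwa [erase_insert hx'', erase_insert hx]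
      rcases mem_insert.1 hw with rfl | hw
      · refine ⟨mem_insert_of_mem (mem_insert_self _ _), x',
          mem_erase.2 ⟨n1, mem_insert_self _ _⟩, ?_⟩
        rwa [erase_right_comm, erase_insert hx'', erase_insert hx]
      · have w1 : w ≠ x := fun h' => hx (h' ▸ hsub hw)
        have w2 : w ≠ x' := fun h' => n2 (h' ▸ hsub hw)
        refine ⟨mem_insert_of_mem (mem_insert_of_mem (hsub hw)), x',
          mem_erase.2 ⟨w2.symm, mem_insert_self _ _⟩, ?_⟩
        rw [erase_right_comm, erase_insert hx'', erase_insert_of_ne w1.symm]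
        exact (mem_phi.1 hw).2 x hx
  have all : ∀ A' : Finset α, A'.card = t → ∃ v ∈ A', A'.erase v ∈ orb G B := fun A' hA' =>
    hco α t _ (fun A' => ∃ v ∈ A', A'.erase v ∈ orb G B) hn count (insert z B) A'
      (by rw [card_insert_of_notMem (mem_lm.1 hz).1]; omega) hA'
      ⟨z, mem_insert_self _ _, by rw [erase_insert (mem_lm.1 hz).1]; exact self_mem_orb B⟩
  obtain ⟨C, -, hC⟩ := exists_subset_card_eq (s := (univ : Finset α)) (n := t + 1)
    (by rw [card_univ]; omega)
  have hphi := count C hC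
  rw [filter_true_of_mem fun w hw => all _ (by rw [card_erase_of_mem hw]; omega)] at hphi
  have full : phi G B B = B := eq_of_subset_of_card_le (filter_subset _ _) (by omega)
  have every : ∀ V : Finset α, V.card = t - 1 → V ∈ orb G B := fun V hV =>
    hjo α univ (t - 1) (fun U => U ∈ orb G B) (fun U _ _ hU a ha b _ hb => by
      obtain ⟨g, hg, rfl⟩ := mem_orb.1 hU
      have : a ∈ phi G B (g • B) := by rwa [phi_smul hg, full]
      exact (mem_phi.1 this).2 b hb) B (subset_univ _) V (subset_univ _) (by omega) hV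
      (self_mem_orb B)
  obtain ⟨a, ha, ha'⟩ := all A₀ hc.hA
  obtain ⟨g, hg, hg'⟩ := mem_orb.1
    (orb_trans (orb_symm (every B₀ (by have := hc.hB; omega))) ha')
  exact hc.pure g hg (hg' ▸ erase_subset _ _)

lemma arith {n t e l : ℕ} (h2 : 2 ≤ l) (h1 : n ≤ t + t * l)
    (h3 : (l + 1) * (l * e + 1) + t ≤ n + 2) : 3 * e + 1 ≤ t ∧ n * e + t ≤ t * t := by
  have a : (l + 1) * e + 1 ≤ t := by
    by_contra hn
    have : t ≤ (l + 1) * e := by omega
    nlinarith
  refine ⟨by nlinarith, ?_⟩
  calc n * e + t ≤ (t + t * l) * e + t := by gcongr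
    _ = t * ((l + 1) * e + 1) := by ring
    _ ≤ t * t := Nat.mul_le_mul_left _ a

end Eb

open Eb in
theorem eb_of (hm : St_m1) (hti : St_ti) (hjo : St_john) (hco : St_const) : St_eb := by
  intro α _ _ G t B₀ A₀ hc htr A hA he
  classical
  have ht := hc.ht
  have hn := hc.hn
  obtain ⟨m1, m2, D, hD, hD'⟩ := hm α G t B₀ A₀ hc htr
  have h : Ctx G t (Nat.card (fx G A)) := ⟨htr, he, (m2 A hA).1,
    fun A' hA' h1 => card_fx_of_mem_orb (m1 A A' hA hA' he h1),
    fun B x y hB hx hy => M1.key hti htr hB (mem_lm.1 hx).1 (mem_lm.1 hy).1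
      (mem_lm.1 hx).2 (mem_lm.1 hy).2⟩
  have cover : Dᶜ ⊆ D.biUnion fun y => lm G (D.erase y) := by
    intro x hx
    have hx' := mem_compl.1 hx
    obtain ⟨y, hy, hy'⟩ := hc.hh.erase hA (C := insert x D)
      (by rw [card_insert_of_notMem hx', hD])
    have hne : Nat.card (fx G ((insert x D).erase y)) ≠ 1 := by rwa [card_fx_of_mem_orb hy']
    have hyx : y ≠ x := by
      rintro rfl
      rw [erase_insert hx'] at hne
      exact hne hD'
    rw [erase_insert_of_ne hyx.symm] at hne
    exact mem_biUnion.2 ⟨y, (mem_insert.1 hy).resolve_left hyx,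
      mem_lm.2 ⟨fun h' => hx' (mem_of_mem_erase h'), hne⟩⟩
  obtain ⟨y₀, hy₀, hmax⟩ := exists_max_image D (fun y => (lm G (D.erase y)).card)
    (card_pos.1 (by omega))
  have h1 := (card_le_card cover).trans (card_biUnion_le_card_mul _ _ _ hmax)
  rw [card_compl, hD] at h1
  have hB : (D.erase y₀).card + 1 = t := by rw [card_erase_of_mem hy₀]; omega
  generalize D.erase y₀ = B at h1 hB
  have h2 : 2 ≤ (lm G B).card := by
    by_contra h'
    have : t * (lm G B).card ≤ t * 1 := Nat.mul_le_mul_left _ (by omega)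
    omega
  by_cases hTF : ∀ y ∈ B, y ∈ phi G B B ∨ ∀ u ∈ fx G (B.erase y), u y = y
  · exact (h.caseTF hjo hco hc hB h2 hTF).elim
  push Not at hTF
  obtain ⟨y, hy, hT, hF⟩ := hTF
  have hY : (B.erase y).card + 2 = t := by rw [card_erase_of_mem hy]; omega
  have h3 := h.caseS hY (notMem_erase y B) (by rwa [insert_erase hy]) hF (by
    by_contra h'
    push Not at h'
    refine hT (mem_phi.2 ⟨hy, fun x hx => ?_⟩)
    have := M1.insert_orb (h' x fun h'' => hx (mem_of_mem_erase h''))
    rwa [insert_erase hy] at this)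
  rw [insert_erase hy, card_compl] at h3
  exact arith h2 (by omega) (by omega)

end Pool.Agent.H5Hom
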