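import Pool.Agent.Lib.MP_078193_al.MBlue

/-! A stabiliser with a further fixed point. -/

open Finset Equiv
open scoped Pointwise

set_option linter.unusedSectionVars false

namespace Pool.Agent.H5Hom

namespace MFix

variable {α : Type} [Fintype α] [DecidableEq α] {β : Type} [Fintype β] [DecidableEq β]
  {G : Subgroup (Perm α)} {M : Subgroup (Perm β)} {ι : β ↪ α} {t q : ℕ}

lemma fus' (h : Link G t q M ι) {Y : Finset β} {y y' : β} (hy : y ∉ Y)
    (hq : ¬ q ∣ Nat.card (fx M (insert y Y))) {g : Perm α} (hg : g ∈ fx G (Y.map ι))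
    (he : g (ι y) = ι y') : ∃ u ∈ fx M Y, u y = y' := by
  obtain ⟨u, hu, hu'⟩ := h.fus _ hq g hg.1 (Function.update id y y') fun w hw => by
    rcases mem_insert.1 hw with rfl | hw'
    · rw [Function.update_self, he]
    · rw [Function.update_of_ne (by rintro rfl; exact hy hw')]
      exact hg.2 _ (mem_map_of_mem ι hw')
  refine ⟨u, ⟨hu, fun w hw => ?_⟩, by rw [hu' y (mem_insert_self _ _), Function.update_self]⟩
  rw [hu' w (mem_insert_of_mem hw), Function.update_of_ne (by rintro rfl; exact hy hw)]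
  rfl

lemma step1 (h : Link G t q M ι) {Y : Finset β} {y : β} (hY : Y.card + 2 = t) (hy : y ∉ Y)
    (hq : ¬ q ∣ Nat.card (fx M (insert y Y))) (hf : ∀ u ∈ fx M Y, u y = y) {g : Perm α}
    (hg : g ∈ fx G (Y.map ι)) : g (ι y) = ι y := by
  by_contra hne
  have hz : g (ι y) ∉ (insert y Y).map ι := by
    rw [map_insert, mem_insert]
    rintro (h1 | h1)
    · exact hne h1
    · exact hne (hg.2 _ (g.injective (hg.2 _ h1) ▸ h1))
  obtain ⟨x', hx'⟩ := h.meet _ (by rw [card_insert_of_notMem hy]; omega) hq _ hz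
  obtain ⟨k, hk, hk'⟩ := mem_orb.1 hx'
  have hk1 : k ∈ fx G (Y.map ι) := fx_anti (map_subset_map.2 (subset_insert _ _)) hk
  obtain ⟨u, hu, hu'⟩ := fus' h hy hq ((fx G (Y.map ι)).mul_mem hk1 hg) (y' := x') hk'
  rw [hf u hu] at hu'
  rw [← hu'] at hk'
  exact hne (k.injective (hk'.trans (hk.2 _ (mem_map_of_mem ι (mem_insert_self y Y))).symm))

lemma hom_succ {A : Finset α} (hh : HH G t) (hA : A.card = t)
    (h : ∀ z ∉ A, ∀ z' ∉ A, ∃ g ∈ fx G A, g z = z') : Hom G univ (t + 1) := by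
  have key : ∀ C : Finset α, C.card = t + 1 → ∃ z ∉ A, C ∈ orb G (insert z A) := by
    intro C hC
    obtain ⟨w, hw, hw'⟩ := hh.erase hA hC
    obtain ⟨g, hg, hg'⟩ := mem_orb.1 hw'
    refine ⟨g⁻¹ w, fun h1 => ?_, mem_orb.2 ⟨g, hg, ?_⟩⟩
    · have := mem_smul.2 h1
      rw [hg'] at this
      exact notMem_erase w C this
    · rw [smul_insert, hg', ap_inv, insert_erase hw]
  intro C _ C' _ hC hC'
  obtain ⟨z, hz, h1⟩ := key C hC
  obtain ⟨z', hz', h2⟩ := key C' hC'
  obtain ⟨g, hg, hg'⟩ := h z hz z' hz'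
  have h3 : insert z' A ∈ orb G (insert z A) := mem_orb.2 ⟨g, hg.1, by
    rw [smul_insert, hg', smul_eq_image g, image_congr (g := id) (fun y hy => hg.2 y hy), image_id]⟩
  exact mem_orb.1 (orb_trans (orb_trans (orb_symm h1) h3) h2)

end MFix

open MFix in
theorem fix_of (hcore : St_core) : St_fix := by
  intro α _ _ β _ _ G M ι t q B₀ A₀ hc h Y y x hY hy hx hq hf
  have hn := hc.hn
  have hxy : x ≠ y := fun e => hx (e ▸ mem_insert_self _ _)
  have hxY : x ∉ Y := fun e => hx (mem_insert_of_mem e)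
  have hyY' : y ∉ insert x Y := by
    rw [mem_insert]; rintro (e | e); exacts [hxy e.symm, hy e]
  set A := insert x (insert y Y) with hAdef
  have hA : A.card = t := by
    rw [hAdef, card_insert_of_notMem hx, card_insert_of_notMem hy]; omega
  have hA' : (A.map ι).card = t := by rwa [card_map]
  have hY' : (insert x Y).card + 1 = t := by rw [card_insert_of_notMem hxY]; omega
  have hAe : A.map ι = insert (ι y) ((insert x Y).map ι) := by
    rw [hAdef, insert_comm, map_insert]
  have hsub : (insert x Y).map ι ⊆ A.map ι := hAe ▸ subset_insert _ _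
  have hfix : ∀ g ∈ fx G ((insert x Y).map ι), g (ι y) = ι y := fun g hg =>
    step1 h hY hy hq hf (fx_anti (map_subset_map.2 (subset_insert _ _)) hg)
  have hH : fx G ((insert x Y).map ι) = fx G (A.map ι) := by
    refine le_antisymm (fun g hg => ⟨hg.1, fun z hz => ?_⟩) (fx_anti hsub)
    rw [hAe] at hz
    rcases mem_insert.1 hz with rfl | hz
    exacts [hfix g hg, hg.2 z hz]
  have hgen : ¬ q ∣ Nat.card (fx M (insert x Y)) := fun e => hq (e.trans
    (Subgroup.card_dvd_of_le fun u hu => ⟨hu.1, fun w hw => by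
      have hu' : u ∈ fx M Y := fx_anti (subset_insert _ _) hu
      rcases mem_insert.1 hw with rfl | hw
      exacts [hf u hu', hu'.2 w hw]⟩))
  have hcz : ∀ z, z ∉ A.map ι → (insert z ((insert x Y).map ι)).card = t := fun z hz => by
    rw [card_insert_of_notMem fun e => hz (hsub e), card_map]; exact hY'
  have h2 : ∀ z, z ∉ A.map ι → ee G t (insert z ((insert x Y).map ι)) = 1 := by
    intro z hz
    by_contra hne
    obtain ⟨p, hp, hpd⟩ := Nat.exists_prime_and_dvd hne
    have d1 : Nat.card (fx G (insert z ((insert x Y).map ι))) ∣ Nat.card (fx G (A.map ι)) :=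
      Subgroup.card_dvd_of_le (hH ▸ fx_anti (subset_insert _ _))
    rw [← mm_mul_ee (hcz z hz), ← mm_mul_ee hA'] at d1
    have d2 := hpd.trans (Nat.dvd_of_mul_dvd_mul_left (mm_pos hA') d1)
    obtain ⟨g, hg, hg'⟩ := (hcore α G t hc.hh (by omega) hc.nh).2.1 p hp _ (ι y) z
      (by rw [card_map]; exact hY') (by simpa using hyY') (fun e => hz (hsub e)) (hAe ▸ d2) hpd
    rw [hfix g hg] at hg'
    exact hz (hg' ▸ hAe ▸ mem_insert_self _ _)
  have horb : ∀ z, z ∉ A.map ι → (orb (fx G (A.map ι)) z).card = ee G t (A.map ι) := by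
    intro z hz
    have := orb_fx_mul (H := G) ((insert x Y).map ι) z
    rw [hH, ← mm_mul_ee (hcz z hz), ← mm_mul_ee hA', h2 z hz, mul_one, mul_comm] at this
    exact Nat.eq_of_mul_eq_mul_left (mm_pos hA') this
  have hout : ∀ z, z ∉ A.map ι → ∀ w ∈ orb (fx G (A.map ι)) z, w ∉ A.map ι := by
    intro z hz w hw hwA
    obtain ⟨g, hg, hg'⟩ := mem_orb.1 hw
    have : g z = g w := by rw [hg.2 w hwA]; exact hg'
    exact hz (g.injective this ▸ hwA)
  have hmeet : ∀ z, z ∉ A.map ι → ∃ a ∉ A, ι a ∈ orb (fx G (A.map ι)) z := by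
    intro z hz
    obtain ⟨a, ha⟩ := h.meet _ hY' hgen z fun e => hz (hsub e)
    rw [hH] at ha
    exact ⟨a, fun e => hout z hz _ ha (mem_map_of_mem ι e), ha⟩
  refine ⟨?_, h2, fun h1 => ?_, fun hall => hc.nh ?_⟩
  · by_contra he
    have he1 : ee G t (A.map ι) = 1 := by have := ee_pos (H := G) hA'; omega
    obtain ⟨z, -, hz⟩ := exists_mem_notMem_of_card_lt_card (s := (univ : Finset β).map ι)
      (t := (univ : Finset α)) (by rw [card_map, card_univ, card_univ]; exact h.hi)
    have hz' : z ∉ A.map ι := fun e => hz (map_subset_map.2 (subset_univ _) e)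
    obtain ⟨a, -, ha⟩ := hmeet z hz'
    have := card_le_one.1 ((horb z hz').trans he1).le _ ha _ (self_mem_orb z)
    exact hz (this ▸ mem_map_of_mem ι (mem_univ a))
  · have hU : (A.map ι)ᶜ = Aᶜ.biUnion fun a => orb (fx G (A.map ι)) (ι a) := by
      ext z
      rw [mem_compl, mem_biUnion]
      constructor
      · intro hz
        obtain ⟨a, ha, ha'⟩ := hmeet z hz
        exact ⟨a, mem_compl.2 ha, orb_symm ha'⟩
      · rintro ⟨a, ha, ha'⟩
        exact hout _ (by simpa using ha) z ha'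
    have hcard := congrArg card hU
    rw [card_compl, hA', card_biUnion, sum_congr rfl (g := fun _ => ee G t (A.map ι))
      (fun a ha => horb _ (by simpa using ha)), sum_const, card_compl, hA, smul_eq_mul,
      mul_comm] at hcard
    · exact hcard
    · intro a ha b _ hab
      refine disjoint_left.2 fun z hz hz' => hab ?_
      obtain ⟨g, hg, hg'⟩ := mem_orb.1 (orb_trans hz (orb_symm hz'))
      have ha' : a ∉ A := by simpa using ha
      obtain ⟨u, hu, hu'⟩ := fus' h ha' (h.big _ (by rw [card_insert_of_notMem ha', hA])) hg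
        (y' := b) hg'
      rw [Subgroup.card_eq_one.1 h1, Subgroup.mem_bot] at hu
      rw [← hu', hu]; rfl
  · refine Hom.pred (hom_succ hc.hh hA' fun z hz z' hz' => ?_) (by rw [card_univ]; exact hn)
    obtain ⟨a, ha, ha'⟩ := hmeet z hz
    obtain ⟨b, hb, hb'⟩ := hmeet z' hz'
    obtain ⟨u, hu, hu'⟩ := hall a ha b hb
    obtain ⟨g, hg, hg'⟩ := h.lift u hu.1
    have hg1 : g ∈ fx G (A.map ι) := ⟨hg, fun w hw => by
      obtain ⟨v, hv, rfl⟩ := mem_map.1 hw
      rw [hg', hu.2 v hv]⟩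
    have h3 : ι b ∈ orb (fx G (A.map ι)) (ι a) := mem_orb.2 ⟨g, hg1, hu' ▸ hg' a⟩
    exact mem_orb.1 (orb_trans (orb_trans ha' h3) (orb_symm hb'))

end Pool.Agent.H5Hom
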