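import Pool.Agent.Lib.MP_078193_al.MBlue

/-! Block GENA: in the generic case stabilisers of `(t-2)`-sets have no further fixed point. -/

open Finset Equiv
open scoped Pointwise

set_option linter.unusedSectionVars false

namespace Pool.Agent.H5Hom

variable {α : Type} [Fintype α] [DecidableEq α] {G : Subgroup (Perm α)}

namespace GenA

/-- the pointwise stabiliser of `S` is transitive outside `S` -/
def Full (G : Subgroup (Perm α)) (S : Finset α) : Prop :=
  ∀ z ∉ S, ∀ z' ∉ S, ∃ g ∈ fx G S, g z = z'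

lemma smul_fx {S : Finset α} {g : Perm α} (hg : g ∈ fx G S) : g • S = S := by
  rw [smul_eq_image]
  exact (image_congr fun x hx => hg.2 x hx).trans image_id

lemma notMem_fx {S : Finset α} {g : Perm α} (hg : g ∈ fx G S) {z : α} (hz : z ∉ S) : g z ∉ S :=
  fun h => hz (g.injective (hg.2 _ h) ▸ h)

lemma Full.smul {S : Finset α} (h : Full G S) {g : Perm α} (hg : g ∈ G) : Full G (g • S) := by
  intro z hz z' hz'
  obtain ⟨k, hk, hk'⟩ := h _ (mem_smul.not.1 hz) _ (mem_smul.not.1 hz')
  refine ⟨g * k * g⁻¹, ⟨G.mul_mem (G.mul_mem hg hk.1) (G.inv_mem hg), fun x hx => ?_⟩, ?_⟩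
  · rw [Perm.mul_apply, Perm.mul_apply, hk.2 _ (mem_smul.1 hx), ap_inv]
  · rw [Perm.mul_apply, Perm.mul_apply, hk', ap_inv]

lemma Full.ext {S : Finset α} (h : Full G S) {a z : α} (ha : a ∉ S) (hz : z ∉ S) :
    insert z S ∈ orb G (insert a S) := by
  obtain ⟨g, hg, rfl⟩ := h a ha z hz
  exact mem_orb.2 ⟨g, hg.1, by rw [smul_insert, smul_fx hg]⟩

lemma fin (hk : St_const) {t : ℕ} {B₀ A₀ : Finset α} (hc : Cex G t B₀ A₀) {A : Finset α}
    (hA : A.card = t) (D : ∀ a ∈ A, ∀ z ∉ A, ∀ z' ∉ A,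
      insert z (A.erase a) ∈ orb G A → insert z' (A.erase a) ∈ orb G A) : False := by
  classical
  have hn := hc.hn
  obtain ⟨z₀, -, h0⟩ := exists_mem_notMem_of_card_lt_card (s := A) (t := univ)
    (by rw [card_univ]; omega)
  have h1 : ∀ z ∉ A, (Sig G A (insert z A)).card =
      (A.filter fun a => insert z₀ (A.erase a) ∈ orb G A).card + 1 := fun z hz => by
    rw [← card_insert_of_notMem (a := z) fun h => hz (mem_filter.1 h).1]
    congr 1
    ext w
    rw [mem_Sig, mem_insert, mem_insert, mem_filter]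
    by_cases hw : z = w
    · subst hw
      simp [erase_insert hz, self_mem_orb]
    · rw [erase_insert_of_ne hw, or_iff_right (Ne.symm hw), or_iff_right (Ne.symm hw)]
      exact and_congr_right fun h => ⟨D w h z hz z₀ h0, D w h z₀ h0 z hz⟩
  have h2 := hk α t ((A.filter fun a => insert z₀ (A.erase a) ∈ orb G A).card + 1)
    (fun X => X ∈ orb G A) hn (fun C hC => by
    obtain ⟨w, hw, hw'⟩ := hc.hh.erase hA hC
    obtain ⟨g, hg, hg'⟩ := mem_orb.1 hw'
    obtain ⟨z, rfl⟩ := g.surjective w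
    have hz : z ∉ A := fun h => notMem_erase (g z) C (hg' ▸ apply_mem_smul.2 h)
    have h3 : C = g • insert z A := by rw [smul_insert, hg', insert_erase hw]
    rw [← h1 z hz, ← card_smul g (Sig G A _), ← Sig_smul hg, ← h3]
    congr 1)
  refine hc.nh fun X _ X' _ hX hX' => mem_orb.1 ?_
  exact orb_trans (orb_symm (h2 A X hA hX (self_mem_orb A))) (h2 A X' hA hX' (self_mem_orb A))

end GenA

open GenA in
theorem genA_of (h1 : St_core) (h2 : St_fix) (h3 : St_const) : St_genA := by
  intro α _ _ β _ _ G M ι t q B₀ A₀ hc hl hgen htr Y y hY hy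
  by_contra hfix
  push Not at hfix
  have hn := hc.hn
  have hlo := hl.lo
  obtain ⟨B, hB⟩ : ∃ B, B = insert y Y := ⟨_, rfl⟩
  have cB : B.card + 1 = t := by rw [hB, card_insert_of_notMem hy]; omega
  have cA : ∀ x ∉ B, (insert x B).card = t := fun x hx => by rwa [card_insert_of_notMem hx]
  have f1 := fun x (hx : x ∉ B) =>
    h2 α β G M ι t q B₀ A₀ hc hl Y y x hY hy (hB ▸ hx) (hB ▸ hgen B cB) hfix
  rw [← hB] at f1
  obtain ⟨x, -, hx⟩ := exists_mem_notMem_of_card_lt_card (s := B) (t := univ)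
    (by rw [card_univ]; omega)
  have e1 : ∀ x' ∉ B, ee G t ((insert x' B).map ι) = ee G t ((insert x B).map ι) :=
    fun x' hx' => Nat.eq_of_mul_eq_mul_right (show 0 < Fintype.card β - t by omega)
      (((f1 x' hx').2.2.1 (htr.card (cA x' hx').ge)).symm.trans
        ((f1 x hx).2.2.1 (htr.card (cA x hx).ge)))
  obtain ⟨p, hp, hpe⟩ := Nat.exists_prime_and_dvd (f1 x hx).1.ne'
  have nm : ∀ {S : Finset β} {w : β}, w ∉ S → ι w ∉ S.map ι := fun h => mem_map' ι |>.not.2 h
  have t1 : ∀ a ∉ B, ∀ b ∉ B, ∃ g ∈ fx G (B.map ι), g (ι a) = ι b := fun a ha b hb =>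
    (h1 α G t hc.hh (by omega) hc.nh).2.1 p hp _ _ _ (by rwa [card_map]) (nm ha) (nm hb)
      (by rwa [← map_insert, e1 a ha]) (by rwa [← map_insert, e1 b hb])
  have t2 : ∀ z ∉ B.map ι, ∃ a ∉ B, ι a ∈ orb (fx G (B.map ι)) z := fun z hz => by
    obtain ⟨a, ha⟩ := hl.meet B cB (hgen B cB) z hz
    refine ⟨a, fun h => ?_, ha⟩
    obtain ⟨g, hg, hg'⟩ := mem_orb.1 ha
    exact notMem_fx hg hz (by rw [show g z = ι a from hg']; exact mem_map_of_mem ι h)
  have full : Full G (B.map ι) := fun z hz z' hz' => by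
    obtain ⟨a, ha, ha'⟩ := t2 z hz
    obtain ⟨b, hb, hb'⟩ := t2 z' hz'
    exact mem_orb.1 (orb_trans (orb_trans ha' (mem_orb.2 (t1 a ha b hb))) (orb_symm hb'))
  have fullM : Full M B := fun a ha b hb => by
    obtain ⟨g, hg, hg'⟩ := t1 a ha b hb
    obtain ⟨u, hu, hu'⟩ := hl.fus (insert a B)
      (by rw [htr.card (cA a ha).ge]; exact hl.prime.not_dvd_one) g hg.1
      (fun w => if w = a then b else w) fun w hw => by
        split_ifs with h
        · rwa [h]
        · exact hg.2 _ (mem_map_of_mem ι ((mem_insert.1 hw).resolve_left h))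
    refine ⟨u, ⟨hu, fun w hw => ?_⟩, by simpa using hu' a (mem_insert_self a B)⟩
    rw [hu' w (mem_insert_of_mem hw), if_neg fun h : w = a => ha (h ▸ hw)]
  refine fin h3 hc (A := (insert x B).map ι) (by rw [card_map, cA x hx]) ?_
  have key : ∀ a ∈ (insert x B).map ι, Full G (((insert x B).map ι).erase a) → ∀ z,
      z ∉ (insert x B).map ι →
      insert z (((insert x B).map ι).erase a) ∈ orb G ((insert x B).map ι) :=
    fun a ha h z hz => by
      simpa only [insert_erase ha] using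
        h.ext (notMem_erase a _) fun h' => hz (mem_of_mem_erase h')
  intro a' ha' z hz z' hz' ho
  obtain ⟨a, ha, rfl⟩ := mem_map.1 ha'
  by_cases hax : x = a
  · subst hax
    exact key _ ha' (by rwa [← map_erase', erase_insert hx]) z' hz'
  have haB : a ∈ B := (mem_insert.1 ha).resolve_left (Ne.symm hax)
  by_cases hu : ∀ u ∈ fx M (B.erase a), u a = a
  · have f2 := (h2 α β G M ι t q B₀ A₀ hc hl (B.erase a) a x
      (by rw [card_erase_of_mem haB]; have := hc.ht; omega) (notMem_erase a B)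
      (by rwa [insert_erase haB]) (by rw [insert_erase haB]; exact hgen B cB) hu).2.1 z
      (by rwa [insert_erase haB])
    rw [← erase_insert_of_ne hax, map_erase', ee_orb ho] at f2
    exact absurd f2 (f1 x hx).1.ne'
  push Not at hu
  obtain ⟨u, hu, hua⟩ := hu
  obtain ⟨v, hv, hv'⟩ := fullM (u a)
    (fun h => notMem_fx hu (notMem_erase a B) (mem_erase.2 ⟨hua, h⟩)) x hx
  have e2 : (v * u) • B = (insert x B).erase a := by
    have : v * u ∈ fx M (B.erase a) := (fx M _).mul_mem (fx_anti (erase_subset a B) hv) hu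
    rw [erase_insert_of_ne hax, ← smul_fx this, ← hv', ← Perm.mul_apply, ← smul_insert,
      insert_erase haB]
  obtain ⟨g, hg, -, hg'⟩ := hl.smul_map (M.mul_mem hv.1 hu.1)
  exact key _ ha' (by rw [← map_erase', ← e2, hg']; exact full.smul hg) z' hz'

end Pool.Agent.H5Hom
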