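import Pool.Agent.Lib.MP_078193_al.MBlue

/-! Block GENB: a `(t-2)`-transitive group with small fixity on at most `2t-1` points. -/

open Finset Equiv
open scoped Pointwise

set_option linter.unusedSectionVars false

namespace Pool.Agent.H5Hom

namespace GenB

variable {β : Type} [Fintype β] [DecidableEq β] {M : Subgroup (Perm β)} {t : ℕ}

lemma inv_compl (Y : Finset β) : Inv (fx M Y) Yᶜ := fun g hg x hx => by
  refine mem_compl.2 fun h => mem_compl.1 hx ?_
  rwa [g.injective (hg.2 _ h)] at h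

lemma inv_compl' (Y : Finset β) : Inv (st M Y) Yᶜ := fun g hg x hx => by
  refine mem_compl.2 fun h => mem_compl.1 hx ?_
  rw [← (mem_st.1 hg).2] at h
  exact apply_mem_smul.1 h

lemma two (htr : Triv M t) {Y : Finset β} (hY : Y.card + 2 = t) :
    ∀ g ∈ fx M Y, ∀ x ∈ Yᶜ, ∀ y ∈ Yᶜ, x ≠ y → g x = x → g y = y → g = 1 := by
  intro g hg x hx y hy hxy h1 h2
  refine htr g hg.1 (insert x (insert y Y)) ?_ fun z hz => ?_
  · rw [card_insert_of_notMem, card_insert_of_notMem (mem_compl.1 hy)]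
    · omega
    · rw [mem_insert, not_or]
      exact ⟨hxy, mem_compl.1 hx⟩
  · rcases mem_insert.1 hz with rfl | hz
    · exact h1
    rcases mem_insert.1 hz with rfl | hz
    · exact h2
    · exact hg.2 z hz

lemma norm {Y : Finset β} {k η : Perm β} (hk : k ∈ st M Y) (hη : η ∈ fx M Y) :
    k * η * k⁻¹ ∈ fx M Y := by
  obtain ⟨h1, h2⟩ := mem_st.1 hk
  refine ⟨M.mul_mem (M.mul_mem h1 hη.1) (M.inv_mem h1), fun x hx => ?_⟩
  rw [← h2] at hx
  rw [Perm.mul_apply, Perm.mul_apply, hη.2 _ (mem_smul.1 hx), ap_inv]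

lemma pow_mem_orb {Y : Finset β} {k : Perm β} (hk : k ∈ st M Y) {z : β}
    (h : k z ∈ orb (fx M Y) z) (n : ℕ) : (k ^ n) z ∈ orb (fx M Y) z := by
  induction n with
  | zero => exact self_mem_orb z
  | succ n ih =>
    obtain ⟨η, hη, e⟩ := mem_orb.1 ih
    refine orb_trans h (mem_orb.2 ⟨k * η * k⁻¹, norm hk hη, ?_⟩)
    rw [Perm.smul_def] at e
    rw [Perm.smul_def, Perm.mul_apply, Perm.mul_apply, inv_ap, e, pow_succ', Perm.mul_apply]

/-- an element of order five preserving `Y` -/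
lemma exists_five (htr : Triv M t) (hT : Tr M univ (t - 2)) {Y : Finset β} (hY : Y.card + 2 = t)
    (h7 : 7 ≤ t) (h8 : t ≤ 8) (hc : Yᶜ.card = t + 1) :
    ∃ y ∈ st M Y, y ≠ 1 ∧ y ^ 5 = 1 := by
  obtain ⟨u, hu, hu'⟩ := exists_family Y (β := ZMod 5) (by rw [ZMod.card]; omega)
  set c : Perm β := (Equiv.addRight (1 : ZMod 5)).viaEmbedding ⟨u, hu⟩ with hc'
  have c1 : ∀ i, c (u i) = u (i + 1) := fun i => Perm.viaEmbedding_apply _ ⟨u, hu⟩ i
  have c2 : ∀ x ∈ Y, c x ∈ Y := by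
    intro x hx
    by_cases h : x ∈ Set.range u
    · obtain ⟨i, rfl⟩ := h
      rw [c1]; exact hu' _
    · rw [hc', Perm.viaEmbedding_apply_of_notMem _ ⟨u, hu⟩ x h]; exact hx
  obtain ⟨g, hg, hg'⟩ := hT Y (subset_univ _) (by omega) c c.injective.injOn
    (fun _ _ => mem_univ _)
  have g1 : g ∈ st M Y := by
    refine mem_st.2 ⟨hg, eq_of_subset_of_card_le (fun y hy => ?_) (card_smul g Y).ge⟩
    obtain ⟨x, hx, rfl⟩ := mem_image.1 hy
    change g x ∈ Y
    rw [hg' x hx]; exact c2 x hx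
  have key : ∀ m : ℕ, (g ^ m) (u 0) = u m := by
    intro m
    induction m with
    | zero => simp
    | succ m ih => rw [pow_succ', Perm.mul_apply, ih, hg' _ (hu' _), c1]; simp
  refine ⟨g ^ 504, (st M Y).pow_mem g1 _, fun h => ?_, ?_⟩
  · have := key 504
    rw [h, Perm.one_apply] at this
    exact absurd (hu this) (by decide)
  · rw [← pow_mul]
    refine htr _ (M.pow_mem hg _) Yᶜ (by omega) fun x hx => per_dvd.2 ?_
    have h1 := per_pos g x
    have h2 := per_le (inv_compl' Y) g1 hx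
    have h3 : per g x ≤ 9 := by omega
    interval_cases per g x <;> norm_num

lemma trans (hti : St_ti) (htr : Triv M t) (hnf : NoFix M t) (hT : Tr M univ (t - 2))
    {Y : Finset β} (hY : Y.card + 2 = t) (h6 : 6 ≤ t) (h8 : t ≤ 8) (hc : Yᶜ.card = t + 1) :
    ∃ z ∈ Yᶜ, Yᶜ ⊆ orb (fx M Y) z := by
  have hi := inv_compl (M := M) Y
  have hsub : ∀ z ∈ Yᶜ, orb (fx M Y) z ⊆ Yᶜ := fun z hz w hw => by
    obtain ⟨g, hg, rfl⟩ := mem_orb.1 hw
    exact hi g hg z hz
  have hmove : ∀ x ∈ Yᶜ, ∃ g ∈ fx M Y, g x ≠ x := fun x hx => hnf Y x hY (mem_compl.1 hx)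
  obtain ⟨-, x, hx, d2, dd⟩ := (hti β (fx M Y) Yᶜ hi (two htr hY)).2
    (card_pos.1 (by omega)) hmove
  have dX := dvd_card_of_orb hi dd
  rw [hc] at dX
  rcases Nat.lt_or_ge t 7 with h7 | h7
  · obtain rfl : t = 6 := by omega
    refine ⟨x, hx, (eq_of_subset_of_card_le (hsub x hx) ?_).ge⟩
    rcases (Nat.dvd_prime (by norm_num : Nat.Prime 7)).1 dX with h | h <;> omega
  obtain ⟨y, hy, y1, y5⟩ := exists_five htr hT hY h7 h8 hc
  have : Fact (Nat.Prime 5) := ⟨by norm_num⟩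
  have hQ : Nat.card (Subgroup.zpowers y) = 5 := by
    rw [Nat.card_zpowers, orderOf_eq_prime y5 y1]
  have hle : Subgroup.zpowers y ≤ st M Y := (Subgroup.zpowers_le_of_mem hy)
  have hiQ : Inv (Subgroup.zpowers y) Yᶜ := (inv_compl' Y).mono hle
  have five : ∀ z, y z ≠ z → (orb (Subgroup.zpowers y) z).card = 5 := by
    intro z hz
    have h1 : (orb (Subgroup.zpowers y) z).card ∣ 5 :=
      hQ ▸ Dvd.intro _ (orb_mul_st (Subgroup.zpowers y) z)
    rcases (Nat.dvd_prime (by norm_num : Nat.Prime 5)).1 h1 with h | h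
    · exact absurd (mem_fixs.1 (card_orb_eq_one h) y (Subgroup.mem_zpowers y)) hz
    · exact h
  obtain ⟨z, hz, hz'⟩ : ∃ z ∈ Yᶜ, y z ≠ z := by
    by_contra h
    push Not at h
    exact y1 (htr y (mem_st.1 hy).1 Yᶜ (by omega) h)
  have hsQ : ∀ w ∈ Yᶜ, orb (Subgroup.zpowers y) w ⊆ Yᶜ := fun w hw v hv => by
    obtain ⟨g, hg, rfl⟩ := mem_orb.1 hv
    exact hiQ g hg w hw
  have moved : ∀ w ∈ Yᶜ, y w ≠ w → w ∈ orb (Subgroup.zpowers y) z := by
    intro w hw hw'
    by_contra hn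
    have hd : Disjoint (orb (Subgroup.zpowers y) z) (orb (Subgroup.zpowers y) w) :=
      disjoint_left.2 fun v h1 h2 => hn (orb_trans h1 (orb_symm h2))
    have := card_le_card (union_subset (hsQ z hz) (hsQ w hw))
    rw [card_union_of_disjoint hd, five z hz', five w hw'] at this
    omega
  -- the orbit of `z` contains the cycle
  obtain ⟨k, hk, k1, hkz⟩ : ∃ k ∈ Subgroup.zpowers y, k ≠ 1 ∧ k z ∈ orb (fx M Y) z := by
    obtain ⟨η, hη, hη'⟩ := hmove z hz
    by_cases h : y (η z) = η z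
    · refine ⟨y, Subgroup.mem_zpowers y, y1, ?_⟩
      refine orb_trans (mem_orb.2 ⟨η, hη, rfl⟩)
        (mem_orb.2 ⟨y * η⁻¹ * y⁻¹, norm hy ((fx M Y).inv_mem hη), ?_⟩)
      have h' : y⁻¹ (η z) = η z := by rw [Perm.inv_eq_iff_eq, h]
      simp only [Perm.smul_def, Perm.mul_apply, h', inv_ap]
    · obtain ⟨k, hk, e⟩ := mem_orb.1 (moved _ (hi η hη z hz) h)
      rw [Perm.smul_def] at e
      refine ⟨k, hk, fun h1 => hη' ?_, e ▸ mem_orb.2 ⟨η, hη, rfl⟩⟩
      rw [← e, h1, Perm.one_apply]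
  have hZ : orb (Subgroup.zpowers y) z ⊆ orb (fx M Y) z := by
    intro w hw
    obtain ⟨k', hk', rfl⟩ := mem_orb.1 hw
    obtain ⟨n, hn⟩ := mem_powers_of_prime_card hQ (g := ⟨k, hk⟩) (g' := ⟨k', hk'⟩)
      (fun h => k1 (congrArg Subtype.val h))
    have e : k ^ n = k' := congrArg Subtype.val hn
    rw [← e]
    exact pow_mem_orb (hle hk) hkz n
  refine ⟨z, hz, fun x₁ hx₁ => ?_⟩
  by_contra hn
  have fixd : ∀ w ∈ orb (fx M Y) x₁, y w = w := by
    intro w hw
    by_contra h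
    exact hn (orb_trans (hZ (moved w (hsub x₁ hx₁ hw) h)) (orb_symm hw))
  obtain ⟨u, hu, hu'⟩ := hmove x₁ hx₁
  have comm : ∀ η ∈ fx M Y, y * η * y⁻¹ * η⁻¹ = 1 := by
    intro η hη
    have hf : ∀ w ∈ orb (fx M Y) x₁, (y * η * y⁻¹ * η⁻¹) w = w := by
      intro w hw
      have h1 : η⁻¹ w ∈ orb (fx M Y) x₁ :=
        orb_trans hw (mem_orb.2 ⟨η⁻¹, (fx M Y).inv_mem hη, rfl⟩)
      have h2 : y⁻¹ (η⁻¹ w) = η⁻¹ w := by rw [Perm.inv_eq_iff_eq, fixd _ h1]
      simp only [Perm.mul_apply, h2, ap_inv, fixd w hw]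
    exact two htr hY _ ((fx M Y).mul_mem (norm hy hη) ((fx M Y).inv_mem hη)) (u x₁)
      (hi u hu x₁ hx₁) x₁ hx₁ hu' (hf _ (mem_orb.2 ⟨u, hu, rfl⟩)) (hf _ (self_mem_orb _))
  have hO : orb (fx M Y) z = orb (Subgroup.zpowers y) z := by
    refine Subset.antisymm (fun w hw => moved w (hsub z hz hw) ?_) hZ
    obtain ⟨η, hη, rfl⟩ := mem_orb.1 hw
    have e : y * η = η * y := by
      have := comm η hη
      rwa [mul_inv_eq_one, mul_inv_eq_iff_eq_mul] at this
    rw [Perm.smul_def, ← Perm.mul_apply, e, Perm.mul_apply]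
    exact fun h => hz' (η.injective h)
  have d5 := dd z hz
  rw [hO, five z hz'] at d5
  rcases (Nat.dvd_prime (by norm_num : Nat.Prime 5)).1 d5 with h | h
  · omega
  · rw [h] at dX
    omega

end GenB

theorem genB_of (hmd : St_md) (hti : St_ti) (hco : St_compl) : St_genB := by
  intro β _ _ M t h6 hlo hhi htr hnf hT
  rcases Nat.lt_or_ge (Fintype.card β + 1) (2 * t) with h | h
  · exact (hco β M (Fintype.card β - t) t).2 (by omega) (hT.hom (by omega))
  refine (hco β M (t - 1) t).2 (by omega) ?_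
  have hc : ∀ Y : Finset β, Y.card + 2 = t → Yᶜ.card = t + 1 := fun Y hY => by
    rw [card_compl]; omega
  have hs : ∀ g ∈ M, g ≠ 1 → 4 ≤ (supp univ g).card := by
    intro g hg g1
    by_contra hlt
    refine g1 (htr g hg (supp univ g)ᶜ (by rw [card_compl]; omega) fun x hx => ?_)
    by_contra hx'
    exact mem_compl.1 hx (mem_supp.2 ⟨mem_univ _, hx'⟩)
  intro A _ B _ hA hB
  obtain ⟨a, ha⟩ : A.Nonempty := card_pos.1 (by omega)
  obtain ⟨b, hb⟩ : B.Nonempty := card_pos.1 (by omega)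
  have hA' : (A.erase a).card + 2 = t := by rw [card_erase_of_mem ha]; omega
  have hB' : (B.erase b).card + 2 = t := by rw [card_erase_of_mem hb]; omega
  have h8 : t ≤ 8 := by
    obtain ⟨u, hu, hu'⟩ := hnf (B.erase b) b hB' (notMem_erase _ _)
    have h1 : (supp univ u).card ≤ t + 1 := by
      rw [← hc _ hB']
      exact card_le_card fun x hx => mem_compl.2 fun h => (mem_supp.1 hx).2 (hu.2 x h)
    have := hmd β M (t - 2) hT hs u hu.1 (fun h => hu' (by rw [h, Perm.one_apply])) (by omega)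
    omega
  obtain ⟨g, hg, e⟩ := hT.hom (le_refl _) (A.erase a) (subset_univ _) (B.erase b) (subset_univ _)
    (by omega) (by omega)
  obtain ⟨z, -, hz⟩ := GenB.trans hti htr hnf hT hB' h6 h8 (hc _ hB')
  have h1 : g a ∈ (B.erase b)ᶜ := by
    rw [mem_compl, ← e, apply_mem_smul]
    exact notMem_erase _ _
  obtain ⟨k, hk, e'⟩ := mem_orb.1
    (orb_trans (orb_symm (hz h1)) (hz (mem_compl.2 (notMem_erase b B))))
  rw [Perm.smul_def] at e'
  refine ⟨k * g, M.mul_mem hk.1 hg, ?_⟩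
  rw [mul_smul, ← insert_erase ha, smul_insert, e, smul_insert, e', smul_eq_image k,
    image_congr (g := id) (fun y hy => hk.2 y hy), image_id, insert_erase hb]

end Pool.Agent.H5Hom
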