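import Pool.Agent.Lib.MP_078193_al.MBlue

/-! Block LEMB: a nontrivial element cannot fix `t + 1` points. -/

open Finset Equiv
open scoped Pointwise

set_option linter.unusedSectionVars false

namespace Pool.Agent.H5Hom

namespace LemB

variable {β : Type} [Fintype β] [DecidableEq β] {M : Subgroup (Perm β)}

lemma supp_conj (h g : Perm β) : supp univ (h * g * h⁻¹) = h • supp univ g := by
  ext x
  obtain ⟨y, rfl⟩ := h.surjective x
  rw [apply_mem_smul, mem_supp, mem_supp]
  simp

lemma meet (hram : St_ram) (halt : St_alt) (hcomm : St_comm) (h6 : 6 ≤ Fintype.card β)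
    (h2 : HH M 2) {t : ℕ} (hn : ¬ Hom M univ t) {g : Perm β} (hg : g ∈ M) {U V : Finset β}
    (hU : U ∈ orb M (supp univ g)) (hV : V ∈ orb M (supp univ g)) : (U ∩ V).card ≠ 1 := by
  intro h1
  obtain ⟨h, hh, rfl⟩ := mem_orb.1 hU
  obtain ⟨k, hk, rfl⟩ := mem_orb.1 hV
  rw [← supp_conj, ← supp_conj] at h1
  set a := h * g * h⁻¹
  set b := k * g * k⁻¹
  have ha : a ∈ M := M.mul_mem (M.mul_mem hh hg) (M.inv_mem hh)
  have hb : b ∈ M := M.mul_mem (M.mul_mem hk hg) (M.inv_mem hk)
  obtain ⟨c1, c2, -, -⟩ := hcomm β univ a b (fun _ _ => mem_univ _) (fun _ _ => mem_univ _)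
  have hc : a * b * a⁻¹ * b⁻¹ ∈ M :=
    M.mul_mem (M.mul_mem (M.mul_mem ha hb) (M.inv_mem ha)) (M.inv_mem hb)
  refine hn (halt β M (by omega) (hram β M h6 h2) _ hc ?_ ?_ t)
  · intro e
    obtain ⟨x, hx⟩ := c2 h1
    rw [e, mem_supp] at hx
    exact hx.2 rfl
  · have := supp_comm (H := M) inv_univ ha hb
    omega

end LemB

open LemB in
theorem lemB_of (hjohn : St_john) (hram : St_ram) (halt : St_alt) (hcomm : St_comm) :
    St_lemB := by
  intro β _ _ M t s hc hs ht hH hn g hg X hX hfix
  by_contra hne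
  set U := supp univ g with hUdef
  have hUX : U ⊆ Xᶜ := fun x hx => mem_compl.2 fun hx' => (mem_supp.1 hx).2 (hfix x hx')
  have hUs : U.card ≤ s := by
    have := card_le_card hUX
    rw [card_compl] at this
    omega
  have hmeet : ∀ {A B : Finset β}, A ∈ orb M U → B ∈ orb M U → (A ∩ B).card ≠ 1 :=
    fun hA hB => meet hram halt hcomm (by omega) (hH 2 hs) hn hg hA hB
  have hcard : ∀ {A : Finset β}, A ∈ orb M U → A.card = U.card := by
    intro A hA
    obtain ⟨h, -, rfl⟩ := mem_orb.1 hA
    exact card_smul _ _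
  -- sets disjoint from a nonempty good set are good
  have hdis : ∀ {A V : Finset β} {a : β}, A ∈ orb M U → a ∈ A → Disjoint A V →
      V.card = U.card → V ∈ orb M U := by
    intro A V a hA ha hd hV
    have haV : a ∉ V := disjoint_left.1 hd ha
    obtain ⟨y, hy, hy'⟩ := (hH _ hUs).erase (A := U) rfl (C := insert a V)
      (by rw [card_insert_of_notMem haV, hV])
    by_cases e : y = a
    · rwa [e, erase_insert haV] at hy'
    · exfalso
      refine hmeet hA hy' (card_eq_one.2 ⟨a, ?_⟩)
      ext x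
      simp only [mem_inter, mem_erase, mem_insert, mem_singleton]
      constructor
      · rintro ⟨h1, -, h2 | h2⟩
        · exact h2
        · exact absurd h2 (disjoint_left.1 hd h1)
      · rintro rfl
        exact ⟨ha, Ne.symm e, Or.inl rfl⟩
  obtain ⟨x, hx⟩ : ∃ x, g x ≠ x := by
    by_contra h
    push Not at h
    exact hne (Equiv.ext h)
  have hxU : x ∈ U := mem_supp.2 ⟨mem_univ _, hx⟩
  have hU0 : 0 < U.card := card_pos.2 ⟨x, hxU⟩
  have hall : ∀ V : Finset β, V.card = U.card → V ∈ orb M U := by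
    intro V hV
    refine hjohn β univ U.card (fun A => A ∈ orb M U) ?_ U (subset_univ _) V (subset_univ _) rfl hV
      (self_mem_orb _)
    intro A _ hA hA' a ha b _ hb
    obtain ⟨W, hW, hW'⟩ := exists_subset_card_eq (s := (insert b A)ᶜ) (n := U.card)
      (by rw [card_compl, card_insert_of_notMem hb]; omega)
    have hd : Disjoint (insert b A) W :=
      disjoint_left.2 fun y hy hy' => mem_compl.1 (hW hy') hy
    have hWg : W ∈ orb M U := hdis hA' ha (hd.mono_left (subset_insert _ _)) hW'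
    obtain ⟨w, hw⟩ := card_pos.1 (hW' ▸ hU0)
    refine hdis hWg hw (hd.symm.mono_right (insert_subset_insert _ (erase_subset _ _))) ?_
    rw [card_insert_of_notMem (fun h => hb (mem_of_mem_erase h)), card_erase_of_mem ha]
    omega
  obtain ⟨W, hW, hW'⟩ := exists_subset_card_eq (s := Uᶜ) (n := U.card - 1)
    (by rw [card_compl]; omega)
  have hxW : x ∉ W := fun h => mem_compl.1 (hW h) hxU
  refine hmeet (self_mem_orb _) (hall (insert x W) (by rw [card_insert_of_notMem hxW]; omega))
    (card_eq_one.2 ⟨x, ?_⟩)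
  ext y
  simp only [mem_inter, mem_insert, mem_singleton]
  constructor
  · rintro ⟨h1, h2 | h2⟩
    · exact h2
    · exact absurd h1 (mem_compl.1 (hW h2))
  · rintro rfl
    exact ⟨hxU, Or.inl rfl⟩

end Pool.Agent.H5Hom
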