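import Pool.Agent.Lib.MP_078193_al.MBlue

/-! The group induced on the fixed set of a `q`-subgroup. -/

open Finset Equiv
open scoped Pointwise

set_option linter.unusedSectionVars false

namespace Pool.Agent.H5Hom
namespace LINK

variable {α : Type} [Fintype α] [DecidableEq α]

/-- the group induced by `G` on `F` -/
def indG (G : Subgroup (Perm α)) (F : Finset α) : Subgroup (Perm F) where
  carrier := {u | ∃ g ∈ G, ∀ x : F, g x = u x}
  mul_mem' := by
    rintro a b ⟨g, hg, hg'⟩ ⟨h, hh, hh'⟩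
    exact ⟨g * h, G.mul_mem hg hh, fun x => by rw [Perm.mul_apply, hh', hg', Perm.mul_apply]⟩
  one_mem' := ⟨1, G.one_mem, fun x => rfl⟩
  inv_mem' := by
    rintro a ⟨g, hg, hg'⟩
    exact ⟨g⁻¹, G.inv_mem hg, fun x => by rw [Perm.inv_eq_iff_eq, hg', ap_inv]⟩

lemma mem_iff {G : Subgroup (Perm α)} {F : Finset α} {g : Perm α} (hg : g ∈ st G F) (x : α) :
    g x ∈ F ↔ x ∈ F := by
  have := (mem_st.1 hg).2
  conv_lhs => rw [← this]
  exact apply_mem_smul

/-- restriction to `F` -/
def res (G : Subgroup (Perm α)) (F : Finset α) (K : Subgroup (Perm α)) (hK : K ≤ st G F) :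
    K →* Perm F where
  toFun k := (k : Perm α).subtypePerm (mem_iff (hK k.2))
  map_one' := by ext x; simp
  map_mul' a b := by ext x; simp

lemma key (G : Subgroup (Perm α)) (F : Finset α) (X : Finset F) :
    Nat.card (fx (indG G F) X) * Nat.card (fx G F)
      = Nat.card (fx (st G F) (X.map (Function.Embedding.subtype _))) := by
  set K := fx (st G F) (X.map (Function.Embedding.subtype _)) with hKdef
  have hK : K ≤ st G F := fx_le _
  have h1 : (res G F K hK).range = fx (indG G F) X := by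
    ext u
    constructor
    · rintro ⟨k, rfl⟩
      exact ⟨⟨k, (mem_st.1 (hK k.2)).1, fun x => rfl⟩,
        fun x hx => Subtype.ext (k.2.2 x (mem_map_of_mem _ hx))⟩
    · rintro ⟨⟨g, hg, hg'⟩, hu⟩
      have h0 : g • F = F := by
        refine eq_of_subset_of_card_le (fun y hy => ?_) (card_smul g F).ge
        have := hg' ⟨_, mem_smul.1 hy⟩
        simp only [ap_inv] at this
        rw [this]
        exact Subtype.property _
      have : g ∈ K := by
        refine ⟨mem_st.2 ⟨hg, h0⟩, fun y hy => ?_⟩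
        obtain ⟨x, hx, rfl⟩ := mem_map.1 hy
        have := hg' x
        rw [hu x hx] at this
        exact this
      exact ⟨⟨g, this⟩, Equiv.ext fun x => Subtype.ext (hg' x)⟩
  have h3 : fx G F ≤ K := by
    intro g hg
    refine ⟨mem_st.2 ⟨hg.1, ?_⟩, fun y hy => ?_⟩
    · rw [smul_eq_image, image_congr (g := id) (fun y hy => hg.2 y hy), image_id]
    · obtain ⟨x, -, rfl⟩ := mem_map.1 hy
      exact hg.2 x x.2
  have h2 : (res G F K hK).ker = (fx G F).subgroupOf K := by
    ext k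
    rw [MonoidHom.mem_ker, Subgroup.mem_subgroupOf]
    constructor
    · intro h
      exact ⟨(mem_st.1 (hK k.2)).1, fun x hx => congrArg Subtype.val (Equiv.congr_fun h ⟨x, hx⟩)⟩
    · intro h
      exact Equiv.ext fun x => Subtype.ext (h.2 x x.2)
  rw [← h1, ← card_subgroupOf h3, ← h2, ← Subgroup.index_ker, mul_comm, Subgroup.card_mul_index]

lemma inv_orb {K L : Subgroup (Perm α)} (h : K ≤ L) (z : α) : Inv K (orb L z) :=
  fun g hg _ hy => (smul_mem_orb (h hg)).2 hy

end LINK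

open LINK in
theorem link_of (hcore : St_core) : St_link := by
  intro α _ _ G t q B₀ A₀ hc hq hqm
  have ht := hc.ht
  have hn := hc.hn
  obtain ⟨c1, -, -, c4, c5⟩ := hcore α G t hc.hh (by omega) hc.nh
  obtain ⟨A₁, hA₁, hA₁'⟩ := c5 q hq
  obtain ⟨Q, hQ⟩ := exists_syl' hq (fx G A₁)
  have hm0 : mm G t ≠ 0 := (mm_pos hA₁).ne'
  obtain ⟨μ, hμ⟩ : ∃ μ, μ = (mm G t).factorization q := ⟨_, rfl⟩
  have hμ1 : 1 ≤ μ := hμ ▸ (hq.dvd_iff_one_le_factorization hm0).1 hqm
  have hQc : Nat.card Q = q ^ μ := by rw [hQ.2, (not_dvd_ee hq hA₁).1 hA₁', hμ]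
  have hμm : q ^ μ ∣ mm G t := (hq.pow_dvd_iff_le_factorization hm0).2 hμ.le
  have hQG : Q ≤ G := hQ.1.trans (fx_le _)
  have hne := (c4 q hq A₁ Q hA₁ hQ).not.1 hA₁'
  have hsub : A₁ ⊆ fixs Q := fun x hx => mem_fixs.2 fun g hg => (hQ.1 hg).2 x hx
  obtain ⟨F, hF⟩ : ∃ F, F = fixs Q := ⟨_, rfl⟩
  rw [← hF] at hne hsub
  have hFc : t + 1 ≤ F.card := by
    have := card_lt_card (hsub.ssubset_of_ne (Ne.symm hne))
    omega
  have hQS : ∀ S ⊆ F, Q ≤ fx G S := fun S hS g hg =>
    ⟨hQG hg, fun x hx => mem_fixs.1 (hF ▸ hS hx) g hg⟩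
  have pd : ∀ (a : ℕ) (K : Subgroup (Perm α)),
      q ^ a ∣ Nat.card K ↔ a ≤ (Nat.card K).factorization q :=
    fun a K => hq.pow_dvd_iff_le_factorization Nat.card_pos.ne'
  have lowS : ∀ S ⊆ F, μ ≤ (Nat.card (fx G S)).factorization q := fun S hS =>
    (pd _ _).1 (hQc ▸ Subgroup.card_dvd_of_le (hQS S hS))
  have vS : ∀ S ⊆ F, t + 1 ≤ S.card → (Nat.card (fx G S)).factorization q = μ := by
    intro S hS hS'
    refine le_antisymm ?_ (lowS S hS)
    obtain ⟨C, hC, hC'⟩ := exists_subset_card_eq hS'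
    rw [hμ]
    exact (Nat.factorization_le_iff_dvd Nat.card_pos.ne' hm0).2
      ((Subgroup.card_dvd_of_le (fx_anti hC)).trans (c1 C hC')) q
  obtain ⟨x₀, hx₀⟩ : ∃ x, x ∉ F := by
    by_contra h
    push Not at h
    have : Q = ⊥ := eq_bot_iff.2 fun g hg =>
      Subgroup.mem_bot.2 (Equiv.ext fun x => mem_fixs.1 (hF ▸ h x) g hg)
    rw [this, Subgroup.card_bot] at hQc
    have := Nat.one_lt_pow (n := μ) (by omega) hq.one_lt
    omega
  set ι : F ↪ α := Function.Embedding.subtype _ with hι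
  have hmap : ∀ X : Finset F, X.map ι ⊆ F := fun X y hy => by
    obtain ⟨x, -, rfl⟩ := mem_map.1 hy
    exact x.2
  have hv : ∀ X : Finset F, (Nat.card (fx (st G F) (X.map ι))).factorization q
      = (Nat.card (fx (indG G F) X)).factorization q + μ := by
    intro X
    rw [← key, Nat.factorization_mul Nat.card_pos.ne' Nat.card_pos.ne', Finsupp.add_apply,
      vS F subset_rfl hFc]
  have hle : ∀ S : Finset α, fx (st G F) S ≤ fx G S := fun S g hg => ⟨(mem_st.1 hg.1).1, hg.2⟩
  have gen : ∀ X : Finset F, ¬ q ∣ Nat.card (fx (indG G F) X) ↔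
      (Nat.card (fx G (X.map ι))).factorization q = μ := by
    intro X
    rw [hq.dvd_iff_one_le_factorization Nat.card_pos.ne']
    have h1 := hv X
    constructor
    · intro h
      by_contra h'
      have h2 := lowS _ (hmap X)
      obtain ⟨P₁, -, a2, a3, a4⟩ := grow hq (hQS _ (hmap X)) hQc ((pd _ _).2 (by omega))
      have hi := inv_fixs a4
      rw [← hF] at hi
      have h3 : P₁ ≤ fx (st G F) (X.map ι) := fun y hy =>
        ⟨mem_st.2 ⟨(a2 hy).1, hi.smul_eq hy⟩, (a2 hy).2⟩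
      have h4 := Subgroup.card_dvd_of_le h3
      rw [a3, pd] at h4
      omega
    · intro h
      have h2 := (Nat.factorization_le_iff_dvd Nat.card_pos.ne' Nat.card_pos.ne').2
        (Subgroup.card_dvd_of_le (hle (X.map ι))) q
      omega
  refine ⟨F, inferInstance, inferInstance, indG G F, ι, hq, by simpa using hFc, ?_, ?_,
    fun u hu => hu, ?_, fun X => hμ ▸ gen X, ?_, ?_, ?_, ?_⟩
  · rw [Fintype.card_coe, ← card_univ]
    exact card_lt_card ((subset_univ F).ssubset_of_ne fun h => hx₀ (h ▸ mem_univ _))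
  · rw [Fintype.card_coe, hF]
    exact dvd_sub_fixs hq hQc
  · intro X hX g hg φ hφ
    have hS : g • X.map ι ⊆ F := by
      intro y hy
      obtain ⟨x, hx, hx'⟩ := mem_map.1 (mem_smul.1 hy)
      have := hφ x hx
      rw [hx', ap_inv] at this
      rw [this]
      exact (φ x).2
    have hvS : (Nat.card (fx G (g • X.map ι))).factorization q = μ := by
      rw [card_fx_smul hg, (gen X).1 hX]
    set Q' := Q.map (MulAut.conj g).toMonoidHom with hQ'
    have hm : ∀ x, x ∈ Q' ↔ g⁻¹ * x * g ∈ Q := by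
      intro x
      constructor
      · rintro ⟨y, hy, rfl⟩
        simpa [mul_assoc] using hy
      · intro hx
        exact ⟨_, hx, by simp [mul_assoc]⟩
    have h1 : Syl q (fx G (g • X.map ι)) Q' := by
      refine ⟨fun x hx => ⟨?_, fun y hy => ?_⟩, ?_⟩
      · have := G.mul_mem (G.mul_mem hg (hQG ((hm x).1 hx))) (G.inv_mem hg)
        simpa [mul_assoc] using this
      · have : y ∈ fixs Q' := by
          rw [fixs_conj hm, ← hF]
          exact smul_subset_smul.2 (hmap X) hy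
        exact mem_fixs.1 this x hx
      · rw [hQ', Subgroup.card_map_of_injective (MulAut.conj g).injective, hvS, hQc]
    have h2 : Syl q (fx G (g • X.map ι)) Q := ⟨hQS _ hS, by rw [hvS, hQc]⟩
    obtain ⟨k, hk, hk'⟩ := h1.conj hq h2
    have h3 : k * g ∈ st G F := by
      refine mem_st.2 ⟨G.mul_mem hk.1 hg, ?_⟩
      rw [hF, mul_smul, ← fixs_conj hm, ← fixs_conj hk']
    refine ⟨(k * g).subtypePerm (mem_iff h3), ⟨k * g, (mem_st.1 h3).1, fun x => rfl⟩,
      fun x hx => Subtype.ext ?_⟩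
    have h4 := hk.2 (g (ι x)) (apply_mem_smul.2 (mem_map_of_mem _ hx))
    exact h4.trans (hφ x hx)
  · intro B hB hB' z hz
    have h1 := orb_fx_mul (H := G) (B.map ι) z
    have h2 : q ^ μ ∣ Nat.card (fx G (insert z (B.map ι))) :=
      hμm.trans (mm_dvd (by rw [card_insert_of_notMem hz, card_map]; exact hB))
    have h3 : ¬ q ∣ (orb (fx G (B.map ι)) z).card := by
      intro h
      have h4 := mul_dvd_mul h h2
      rw [h1, ← pow_succ', pd, (gen B).1 hB'] at h4
      omega
    obtain ⟨y, hy, hy'⟩ := exists_fixs hq hQc (inv_orb (hQS _ (hmap B)) z) h3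
    exact ⟨⟨y, hF ▸ hy'⟩, hy⟩
  · intro X
    exact (Dvd.intro _ (key G F X)).trans (Subgroup.card_dvd_of_le (hle _))
  · intro X hX
    exact (gen X).2 (vS _ (hmap X) (by rwa [card_map]))
  · intro T hT
    by_contra hgen
    have e0 := (gen T).1 hgen
    have e1 := orb_mul_st Q x₀
    have e2 : st Q x₀ ≤ Q := fun g hg => (mem_st.1 hg).1
    obtain ⟨a, -, ha⟩ := (Nat.dvd_prime_pow hq).1 (hQc ▸ Subgroup.card_dvd_of_le e2)
    have e3 : q ^ (a + 1) ∣ Nat.card Q := by
      rw [← e1, ha, pow_succ']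
      exact mul_dvd_mul_right (dvd_card_orb hq hQc (hF ▸ hx₀)) _
    obtain ⟨Y, y1, y2, y3, -⟩ := grow hq e2 ha e3
    have e4 : st Y x₀ = st Q x₀ := le_antisymm
      (fun g hg => mem_st.2 ⟨y2 (mem_st.1 hg).1, (mem_st.1 hg).2⟩)
      (fun g hg => mem_st.2 ⟨y1 hg, (mem_st.1 hg).2⟩)
    have e5 : (orb Y x₀).card = q := by
      have := orb_mul_st Y x₀
      rw [e4, ha, y3, pow_succ'] at this
      exact Nat.eq_of_mul_eq_mul_right (pow_pos hq.pos a) this
    have e6 : Disjoint (orb Y x₀) (T.map ι) := by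
      refine disjoint_left.2 fun y hy hy' => hx₀ ?_
      obtain ⟨h, hh, rfl⟩ := mem_orb.1 hy
      have := (hQS _ (hmap T) (y2 hh)).2 _ hy'
      have h' : h x₀ = x₀ := h.injective this
      have h'' := hmap T hy'
      rwa [Perm.smul_def, h'] at h''
    have e7 : (orb Y x₀ ∪ T.map ι).card = t := by
      rw [card_union_of_disjoint e6, e5, card_map]; omega
    set E := st (fx G (T.map ι)) (orb Y x₀) with hE
    have e8 : Y ≤ E := fun g hg =>
      mem_st.2 ⟨hQS _ (hmap T) (y2 hg), (inv_orb le_rfl x₀).smul_eq hg⟩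
    have e9 : orb E x₀ = orb Y x₀ := by
      ext y
      constructor
      · intro hy
        obtain ⟨h, hh, rfl⟩ := mem_orb.1 hy
        exact inv_st _ h hh x₀ (self_mem_orb x₀)
      · intro hy
        obtain ⟨h, hh, rfl⟩ := mem_orb.1 hy
        exact mem_orb.2 ⟨h, e8 hh, rfl⟩
    have e10 : fx G (orb Y x₀ ∪ T.map ι) ≤ st E x₀ := by
      intro g hg
      refine mem_st.2 ⟨mem_st.2 ⟨fx_anti subset_union_right hg, ?_⟩,
        hg.2 x₀ (mem_union_left _ (self_mem_orb x₀))⟩
      rw [smul_eq_image, image_congr (g := id) (fun y hy => hg.2 y (mem_union_left _ hy)), image_id]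
    have e11 := orb_mul_st E x₀
    rw [e9, e5] at e11
    have e12 : q ^ (μ + 1) ∣ Nat.card (fx G (T.map ι)) := by
      refine Dvd.dvd.trans ?_ (Subgroup.card_dvd_of_le (fun g (hg : g ∈ E) => (mem_st.1 hg).1))
      rw [← e11, pow_succ']
      exact mul_dvd_mul_left _ ((hμm.trans (mm_dvd e7)).trans (Subgroup.card_dvd_of_le e10))
    rw [pd] at e12
    omega

end Pool.Agent.H5Hom
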