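import Pool.Agent.Lib.MP_078193_al.MBlue

/-! Minimal degree of a multiply transitive group without elements of support at most three. -/

open Finset Equiv
open scoped Pointwise

set_option linter.unusedSectionVars false

namespace Pool.Agent.H5Hom

namespace Md

variable {β : Type} [Fintype β] [DecidableEq β]

/-- subsets of the support which are closed under `g` up to one point -/
lemma almost_closed (g : Perm β) (a : β) (k : ℕ) (hk : k ≤ (supp univ g).card) :
    ∃ Δ ⊆ supp univ g, Δ.card = k ∧ ∃ y, ∀ x ∈ Δ, x ≠ y → g x ∈ Δ := by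
  induction k with
  | zero => exact ⟨∅, empty_subset _, rfl, a, by simp⟩
  | succ k ih =>
    obtain ⟨Δ, h1, h2, y, h3⟩ := ih (by omega)
    by_cases hy : y ∈ Δ ∧ g y ∉ Δ
    · have hgy : g y ∈ supp univ g :=
        mem_supp.2 ⟨mem_univ _, fun h => (mem_supp.1 (h1 hy.1)).2 (g.injective h)⟩
      refine ⟨insert (g y) Δ, insert_subset hgy h1, by rw [card_insert_of_notMem hy.2, h2],
        g y, fun x hx hxy => ?_⟩
      rcases mem_insert.1 hx with h | h
      · exact absurd h hxy
      · by_cases hxy' : x = y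
        · rw [hxy']; exact mem_insert_self _ _
        · exact mem_insert_of_mem (h3 x h hxy')
    · obtain ⟨z, hz, hz'⟩ := exists_mem_notMem_of_card_lt_card (s := Δ) (t := supp univ g)
        (by omega)
      refine ⟨insert z Δ, insert_subset hz h1, by rw [card_insert_of_notMem hz', h2],
        z, fun x hx hxz => ?_⟩
      rcases mem_insert.1 hx with h | h
      · exact absurd h hxz
      · by_cases hxy' : x = y
        · subst hxy'
          exact mem_insert_of_mem (by by_contra h'; exact hy ⟨h, h'⟩)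
        · exact mem_insert_of_mem (h3 x h hxy')

/-- the support of a conjugate -/
lemma mem_supp_conj (g h : Perm β) (x : β) :
    x ∈ supp univ (h * g * h⁻¹) ↔ x ∈ (supp univ g).image h := by
  obtain ⟨z, rfl⟩ := h.surjective x
  rw [h.injective.mem_finset_image, mem_supp, mem_supp]
  simp

/-- the key step: an element of small support -/
lemma step {M : Subgroup (Perm β)} {τ k : ℕ} (hT : Tr M univ τ) {g : Perm β} (hg : g ∈ M)
    (hk : k + 1 ≤ τ) (hku : k + 1 ≤ (supp univ g).card)
    (hn : (supp univ g).card < Fintype.card β) :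
    ∃ w ∈ M, w ≠ 1 ∧ (supp univ w).card + 2 * k ≤ 2 * (supp univ g).card + 1 := by
  obtain ⟨c, -, hc⟩ := exists_mem_notMem_of_card_lt_card (s := supp univ g) (t := univ)
    (by rwa [card_univ])
  obtain ⟨Δ, h1, h2, y, h3⟩ := almost_closed g c k (by omega)
  obtain ⟨a, ha, ha'⟩ := exists_mem_notMem_of_card_lt_card (s := Δ) (t := supp univ g)
    (by omega)
  have hcΔ : c ∉ Δ := fun h => hc (h1 h)
  obtain ⟨h, hh, hh'⟩ := hT (insert a Δ) (subset_univ _)
    (by rw [card_insert_of_notMem ha']; omega) (fun x => if x = a then c else x)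
    (by
      intro x hx z hz hxz
      simp only [coe_insert, Set.mem_insert_iff, mem_coe] at hx hz
      by_cases h₁ : x = a <;> by_cases h₂ : z = a
      · rw [h₁, h₂]
      · simp only [h₁, h₂, if_true, if_false] at hxz
        exact absurd (hxz ▸ hz.resolve_left h₂) hcΔ
      · simp only [h₁, h₂, if_true, if_false] at hxz
        exact absurd (hxz ▸ hx.resolve_left h₁) hcΔ
      · simpa only [h₁, h₂, if_false] using hxz)
    (fun _ _ => mem_univ _)
  have hac : h a = c := by simpa using hh' a (mem_insert_self _ _)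
  have hfix : ∀ x ∈ Δ, h x = x := by
    intro x hx
    have hxa : x ≠ a := fun e => ha' (e ▸ hx)
    simpa [hxa] using hh' x (mem_insert_of_mem hx)
  have hfix' : ∀ x ∈ Δ, h⁻¹ x = x := fun x hx => by
    rw [Perm.inv_eq_iff_eq, hfix x hx]
  set g' := h * g * h⁻¹ with hg'
  have hg'M : g' ∈ M := M.mul_mem (M.mul_mem hh hg) (M.inv_mem hh)
  have hgc : g c = c := by
    by_contra h'
    exact hc (mem_supp.2 ⟨mem_univ _, h'⟩)
  have hg'c : g' c ≠ c :=
    (mem_supp.1 ((mem_supp_conj g h c).2 (mem_image.2 ⟨a, ha, hac⟩))).2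
  refine ⟨g'⁻¹ * g, M.mul_mem (M.inv_mem hg'M) hg, fun h' => hg'c ?_, ?_⟩
  · rw [inv_mul_eq_one] at h'
    rw [h', hgc]
  · have hsub : supp univ (g'⁻¹ * g) ⊆
        (supp univ g ∪ ((supp univ g).image h \ Δ)) \ Δ.erase y := by
      intro x hx
      have hx' : g x ≠ g' x := by
        intro e
        apply (mem_supp.1 hx).2
        rw [Perm.mul_apply, Perm.inv_eq_iff_eq, e]
      refine mem_sdiff.2 ⟨?_, fun hxΔ => hx' ?_⟩
      · by_cases hxU : x ∈ supp univ g
        · exact mem_union_left _ hxU
        · refine mem_union_right _ (mem_sdiff.2 ⟨?_, fun h' => hxU (h1 h')⟩)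
          rw [← mem_supp_conj]
          refine mem_supp.2 ⟨mem_univ _, fun e => hx' ?_⟩
          rw [← hg'] at e
          rw [e]
          by_contra h'
          exact hxU (mem_supp.2 ⟨mem_univ _, h'⟩)
      · obtain ⟨b1, b2⟩ := mem_erase.1 hxΔ
        rw [hg', Perm.mul_apply, Perm.mul_apply, hfix' x b2, hfix _ (h3 x b2 b1)]
    have e1 : Δ ⊆ (supp univ g).image h := fun x hx => mem_image.2 ⟨x, h1 hx, hfix x hx⟩
    have e2 : ((supp univ g).image h \ Δ).card + k = (supp univ g).card := by
      rw [← h2, card_sdiff_add_card_eq_card e1, card_image_of_injective _ h.injective]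
    have e3 : Δ.erase y ⊆ supp univ g ∪ ((supp univ g).image h \ Δ) :=
      ((erase_subset _ _).trans h1).trans subset_union_left
    have e4 := card_sdiff_add_card_eq_card e3
    have e5 := card_union_le (supp univ g) ((supp univ g).image h \ Δ)
    have e6 := card_le_card hsub
    have e7 : k ≤ (Δ.erase y).card + 1 := by
      have := pred_card_le_card_erase (s := Δ) (a := y)
      omega
    omega

end Md

theorem md_of : St_md := by
  intro β _ _ M τ hT h4 g hg hg1 hn
  classical
  obtain ⟨g₀, hg₀, hmin⟩ := exists_min_image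
    ((univ : Finset (Perm β)).filter (fun w => w ∈ M ∧ w ≠ 1)) (fun w => (supp univ w).card)
    ⟨g, mem_filter.2 ⟨mem_univ _, hg, hg1⟩⟩
  obtain ⟨-, hM, h1⟩ := mem_filter.1 hg₀
  have hle : (supp univ g₀).card ≤ (supp univ g).card :=
    hmin g (mem_filter.2 ⟨mem_univ _, hg, hg1⟩)
  have hu := h4 g₀ hM h1
  by_contra hlt
  obtain ⟨w, hw, hw1, hw2⟩ := Md.step (k := min (τ - 1) ((supp univ g₀).card - 1)) hT hM
    (by omega) (by omega) (by omega)
  have a1 : (supp univ g₀).card ≤ (supp univ w).card :=
    hmin w (mem_filter.2 ⟨mem_univ _, hw, hw1⟩)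
  have a2 := h4 w hw hw1
  omega

end Pool.Agent.H5Hom
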