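import Pool.Agent.Lib.MP_078193_al.MBlue

/-! Block OMEGA: involutions with `t` fixed points force a one point extension. -/

open Finset Equiv

set_option linter.unusedSectionVars false

namespace Pool.Agent.H5Hom

namespace Omega

variable {β : Type} [Fintype β] [DecidableEq β] {H : Subgroup (Perm β)} {t : ℕ}

/-- some involution fixes `A` pointwise -/
def CC (H : Subgroup (Perm β)) (A : Finset β) : Prop :=
  ∃ u ∈ H, u ≠ 1 ∧ u * u = 1 ∧ ∀ x ∈ A, u x = x

lemma inv_of_even (K : Subgroup (Perm β)) (h : 2 ∣ Nat.card K) : ∃ u ∈ K, u ≠ 1 ∧ u * u = 1 := by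
  have : Fact (Nat.Prime 2) := ⟨Nat.prime_two⟩
  obtain ⟨u, hu⟩ := exists_prime_orderOf_dvd_card' (G := K) 2 h
  refine ⟨u, u.2, fun h1 => ?_, ?_⟩
  · have : u = 1 := Subtype.ext h1
    rw [this, orderOf_one] at hu
    omega
  · have := pow_orderOf_eq_one u
    rw [hu, sq] at this
    exact congrArg Subtype.val this

lemma cc_iff {A : Finset β} : 2 ∣ Nat.card (fx H A) ↔ CC H A := by
  refine ⟨fun h => ?_, fun ⟨u, hu, h1, h2, h3⟩ => ?_⟩
  · obtain ⟨u, hu, h1, h2⟩ := inv_of_even _ h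
    exact ⟨u, hu.1, h1, h2, hu.2⟩
  · have : Fact (Nat.Prime 2) := ⟨Nat.prime_two⟩
    have e2 : u ∈ fx H A := ⟨hu, h3⟩
    rw [← orderOf_eq_prime (p := 2) ((sq u).trans h2) h1, ← Subgroup.orderOf_mk _ e2]
    exact orderOf_dvd_natCard _

lemma conj_ne {g u : Perm β} (h : u ≠ 1) : g * u * g⁻¹ ≠ 1 := fun h1 => h (by
  have : u = g⁻¹ * (g * u * g⁻¹) * g := by group
  rw [this, h1]; group)

lemma conj_sq {g u : Perm β} (h : u * u = 1) : g * u * g⁻¹ * (g * u * g⁻¹) = 1 := by
  have : g * u * g⁻¹ * (g * u * g⁻¹) = g * (u * u) * g⁻¹ := by group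
  rw [this, h]; group

lemma conj_app (g u : Perm β) (x : β) : (g * u * g⁻¹) (g x) = g (u x) := by simp

lemma CC.map {A B : Finset β} (h : CC H A) {g : Perm β} (hg : g ∈ H)
    (hB : ∀ x ∈ B, ∃ y ∈ A, g y = x) : CC H B := by
  obtain ⟨u, hu, h1, h2, h3⟩ := h
  refine ⟨g * u * g⁻¹, H.mul_mem (H.mul_mem hg hu) (H.inv_mem hg), conj_ne h1, conj_sq h2,
    fun x hx => ?_⟩
  obtain ⟨y, hy, rfl⟩ := hB x hx
  rw [conj_app, h3 y hy]

lemma sq_app {u : Perm β} (h : u * u = 1) (x : β) : u (u x) = x := by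
  rw [← Perm.mul_apply, h, Perm.one_apply]

/-- an involution normalising the stabiliser centralises an involution of it -/
lemma central {A : Finset β} (h : CC H A) {u : Perm β} (hu : u ∈ H) (h2 : u * u = 1)
    (hA : ∀ x ∈ A, u x ∈ A) :
    ∃ v ∈ H, v ≠ 1 ∧ v * v = 1 ∧ (∀ x ∈ A, v x = x) ∧ u * v = v * u := by
  classical
  have : Fact (Nat.Prime 2) := ⟨Nat.prime_two⟩
  let f : Function.End (fx H A) := fun k => ⟨u * k.1 * u, H.mul_mem (H.mul_mem hu k.2.1) hu,
    fun x hx => by rw [Perm.mul_apply, Perm.mul_apply, k.2.2 _ (hA x hx), sq_app h2]⟩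
  have hf : f ^ 2 ^ 1 = 1 := by
    funext k
    apply Subtype.ext
    change u * (u * k.1 * u) * u = k.1
    rw [show u * (u * k.1 * u) * u = (u * u) * k.1 * (u * u) by group, h2]
    group
  have h3 := Equiv.Perm.card_fixedPoints_modEq hf
  let K : Subgroup (Perm β) := fx H A ⊓ Subgroup.centralizer {u}
  have e : f.fixedPoints ≃ K :=
    { toFun := fun k => ⟨k.1.1, k.1.2, Subgroup.mem_centralizer_singleton_iff.2 (by
        have h4 : u * k.1.1 * u = k.1.1 := congrArg Subtype.val k.2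
        calc k.1.1 * u = (u * k.1.1 * u) * u := by rw [h4]
          _ = u * k.1.1 * (u * u) := by group
          _ = u * k.1.1 := by rw [h2, mul_one])⟩
      invFun := fun k => ⟨⟨k.1, k.2.1⟩, Subtype.ext (by
        have h4 := Subgroup.mem_centralizer_singleton_iff.1 k.2.2
        change u * k.1 * u = k.1
        rw [← h4, mul_assoc, h2, mul_one])⟩
      left_inv := fun _ => rfl
      right_inv := fun _ => rfl }
  have h5 : 2 ∣ Nat.card K := by
    rw [← Nat.card_congr e, Nat.card_eq_fintype_card, ← h3.dvd_iff dvd_rfl,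
      ← Nat.card_eq_fintype_card]
    exact cc_iff.2 h
  obtain ⟨v, hv, h6, h7⟩ := inv_of_even K h5
  exact ⟨v, hv.1.1, h6, h7, hv.1.2, (Subgroup.mem_centralizer_singleton_iff.1 hv.2).symm⟩

/-- `v` swaps `x, y`, fixes the rest of `C` and the outer point `o` -/
structure Ed (H : Subgroup (Perm β)) (C : Finset β) (o x y : β) (v : Perm β) : Prop where
  hx : x ∈ C
  hy : y ∈ C
  ne : x ≠ y
  ho : o ∉ C
  hv : v ∈ H
  vx : v x = y
  vy : v y = x
  vo : v o = o
  fix : ∀ z ∈ C, z ≠ x → z ≠ y → v z = z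

/-- the involution `u` fixes `C - w` and sends `w` to `o` -/
structure In (H : Subgroup (Perm β)) (C : Finset β) (w o : β) (u : Perm β) : Prop where
  hw : w ∈ C
  hu : u ∈ H
  ne : u ≠ 1
  sq : u * u = 1
  fix : ∀ z ∈ C, z ≠ w → u z = z
  uw : u w = o

variable {C : Finset β} {o o' x y x' y' w w' a : β} {u u' v v' g : Perm β}

lemma Ed.symm (h : Ed H C o x y v) : Ed H C o y x v :=
  ⟨h.hy, h.hx, h.ne.symm, h.ho, h.hv, h.vy, h.vx, h.vo, fun z hz h1 h2 => h.fix z hz h2 h1⟩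

lemma Ed.mem (h : Ed H C o x y v) (z : β) : v z ∈ C ↔ z ∈ C := by
  by_cases h1 : z = x
  · rw [h1, h.vx]; simp [h.hx, h.hy]
  by_cases h2 : z = y
  · rw [h2, h.vy]; simp [h.hx, h.hy]
  refine ⟨fun h3 => ?_, fun h3 => by rwa [h.fix z h3 h1 h2]⟩
  have h4 : v z ≠ x := fun h5 => h2 (v.injective (h5.trans h.vy.symm))
  have h5 : v z ≠ y := fun h5 => h1 (v.injective (h5.trans h.vx.symm))
  rwa [← v.injective (h.fix _ h3 h4 h5)]

lemma Ed.conj (h : Ed H C o x y v) (hg : g ∈ H) (hC : ∀ z, g z ∈ C ↔ z ∈ C) :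
    Ed H C (g o) (g x) (g y) (g * v * g⁻¹) := by
  refine ⟨(hC _).2 h.hx, (hC _).2 h.hy, g.injective.ne h.ne, fun h1 => h.ho ((hC _).1 h1),
    H.mul_mem (H.mul_mem hg h.hv) (H.inv_mem hg), by rw [conj_app, h.vx], by rw [conj_app, h.vy],
    by rw [conj_app, h.vo], fun z hz h1 h2 => ?_⟩
  obtain ⟨z, rfl⟩ := g.surjective z
  rw [conj_app, h.fix z ((hC _).1 hz) (fun h3 => h1 (h3 ▸ rfl)) (fun h3 => h2 (h3 ▸ rfl))]

lemma In.conj (h : In H C w o u) (hg : g ∈ H) (hC : ∀ z, g z ∈ C ↔ z ∈ C) :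
    In H C (g w) (g o) (g * u * g⁻¹) := by
  refine ⟨(hC _).2 h.hw, H.mul_mem (H.mul_mem hg h.hu) (H.inv_mem hg), conj_ne h.ne, conj_sq h.sq,
    fun z hz h1 => ?_, by rw [conj_app, h.uw]⟩
  obtain ⟨z, rfl⟩ := g.surjective z
  rw [conj_app, h.fix z ((hC _).1 hz) (fun h3 => h1 (h3 ▸ rfl))]

lemma In.uo (h : In H C w o u) : u o = w := by rw [← h.uw, sq_app h.sq]

lemma In.cc (h : In H C w o u) : CC H (C.erase w) :=
  ⟨u, h.hu, h.ne, h.sq, fun z hz => h.fix z (mem_of_mem_erase hz) (ne_of_mem_erase hz)⟩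

lemma CC.ex (h : CC H (C.erase w)) (hw : w ∈ C) : ∃ o u, In H C w o u := by
  obtain ⟨u, hu, h1, h2, h3⟩ := h
  exact ⟨_, u, hw, hu, h1, h2, fun z hz h4 => h3 z (mem_erase.2 ⟨h4, hz⟩), rfl⟩

section
variable (hT : Triv H (t + 1)) (hC : C.card = t + 1)
include hT hC

lemma eq_on (hg : g ∈ H) (hv : v ∈ H) (h : ∀ z ∈ C, g z = v z) : g = v := by
  have := hT (v⁻¹ * g) (H.mul_mem (H.inv_mem hv) hg) C hC.ge fun z hz => by
    rw [Perm.mul_apply, h z hz]; simp
  exact (inv_mul_eq_one.1 this).symm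

lemma Ed.sq (h : Ed H C o x y v) : v * v = 1 :=
  hT _ (H.mul_mem h.hv h.hv) C hC.ge fun z hz => by
    rw [Perm.mul_apply]
    by_cases h1 : z = x
    · rw [h1, h.vx, h.vy]
    by_cases h2 : z = y
    · rw [h2, h.vy, h.vx]
    rw [h.fix z hz h1 h2, h.fix z hz h1 h2]

omit hT hC in
lemma Ed.ne1 (h : Ed H C o x y v) : v ≠ 1 := fun h1 => h.ne (by rw [← h.vx, h1]; rfl)

lemma Ed.fixo (h : Ed H C o x y v) {p : β} (hp : p ∉ C) (h1 : v p = p) : p = o := by
  by_contra h2
  refine h.ne1 (hT v h.hv (insert p (insert o ((C.erase x).erase y))) ?_ ?_)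
  · have h3 := card_pos.2 ⟨y, mem_erase.2 ⟨h.ne.symm, h.hy⟩⟩
    rw [card_insert_of_notMem (by simp [h2, hp]), card_insert_of_notMem (by simp [h.ho]),
      card_erase_of_mem (mem_erase.2 ⟨h.ne.symm, h.hy⟩)]
    rw [card_erase_of_mem h.hx] at h3 ⊢
    omega
  · intro z hz
    simp only [mem_insert, mem_erase] at hz
    rcases hz with rfl | rfl | ⟨h3, h4, h5⟩
    · exact h1
    · exact h.vo
    · exact h.fix z h5 h4 h3

lemma Ed.uniq (h : Ed H C o x y v) (h' : Ed H C o' x y v') : o = o' := by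
  have : v = v' := eq_on hT hC h.hv h'.hv fun z hz => by
    by_cases h1 : z = x
    · rw [h1, h.vx, h'.vx]
    by_cases h2 : z = y
    · rw [h2, h.vy, h'.vy]
    rw [h.fix z hz h1 h2, h'.fix z hz h1 h2]
  exact h'.fixo hT hC h.ho (this ▸ h.vo)

lemma Ed.disj (h : Ed H C o x y v) (h' : Ed H C o' x' y' v') (h1 : x ≠ x') (h2 : x ≠ y')
    (h3 : y ≠ x') (h4 : y ≠ y') : o = o' := by
  have e : v * v' = v' * v := eq_on hT hC (H.mul_mem h.hv h'.hv) (H.mul_mem h'.hv h.hv)
    fun z hz => by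
      rw [Perm.mul_apply, Perm.mul_apply]
      by_cases a1 : z = x
      · rw [a1, h'.fix x h.hx h1 h2, h.vx, h'.fix y h.hy h3 h4]
      by_cases a2 : z = y
      · rw [a2, h'.fix y h.hy h3 h4, h.vy, h'.fix x h.hx h1 h2]
      rw [h.fix z hz a1 a2]
      by_cases a3 : z = x'
      · rw [a3, h'.vx, h.fix y' h'.hy h2.symm h4.symm]
      by_cases a4 : z = y'
      · rw [a4, h'.vy, h.fix x' h'.hx h1.symm h3.symm]
      rw [h'.fix z hz a3 a4, h.fix z hz a1 a2]
  have e1 : v (v' o) = v' o := by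
    rw [← Perm.mul_apply, e, Perm.mul_apply, h.vo]
  exact h'.fixo hT hC h.ho (h.fixo hT hC (fun a => h.ho ((h'.mem o).1 a)) e1)

lemma In.fixd (h : In H C w o u) {p : β} (hp : u p = p) : p ∈ C ∧ p ≠ w := by
  by_contra h1
  refine h.ne (hT u h.hu (insert p (C.erase w)) ?_ ?_)
  · rw [card_insert_of_notMem (fun a => h1 ⟨mem_of_mem_erase a, ne_of_mem_erase a⟩),
      card_erase_of_mem h.hw]
    omega
  · intro z hz
    rcases mem_insert.1 hz with rfl | h2
    · exact hp
    · exact h.fix z (mem_of_mem_erase h2) (ne_of_mem_erase h2)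

lemma In.ho (h : In H C w o u) : o ∉ C := fun h1 => by
  by_cases h2 : o = w
  · exact (h.fixd hT hC (h.uw.trans h2)).2 rfl
  · exact h2 ((h.fix o h1 h2).symm.trans h.uo)

end

/-- the standing hypothesis -/
def Mix (H : Subgroup (Perm β)) (t : ℕ) : Prop :=
  ∀ C : Finset β, C.card = t + 1 → (∃ x ∈ C, CC H (C.erase x)) ∧ ∃ x ∈ C, ¬ CC H (C.erase x)

section
variable (hT : Triv H (t + 1)) (hM : Mix H t) (hC : C.card = t + 1)
include hT hM hC

lemma In.edge (h : In H C w o u) (ha : a ∈ C) (hn : ¬ CC H (C.erase a)) :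
    ∃ z v, Ed H C o a z v ∧ ¬ CC H (C.erase z) := by
  have ho := h.ho hT hC
  have haw : a ≠ w := fun h1 => hn (h1 ▸ h.cc)
  have hc : (insert o (C.erase a)).card = t + 1 := by
    rw [card_insert_of_notMem (by simp [ho]), card_erase_of_mem ha]
    omega
  obtain ⟨z, hz, hcc⟩ := (hM _ hc).1
  have hzo : z ≠ o := by
    rintro rfl
    rw [erase_insert (by simp [ho])] at hcc
    exact hn hcc
  have hzw : z ≠ w := by
    rintro rfl
    refine hn (hcc.map h.hu fun p hp => ?_)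
    by_cases h1 : p = z
    · exact ⟨o, by simp [hzo.symm], h1 ▸ h.uo⟩
    · exact ⟨p, by simp [h1, hp], h.fix p (mem_of_mem_erase hp) h1⟩
  have hz' : z ∈ C ∧ z ≠ a := by
    simp only [mem_insert, mem_erase] at hz
    exact ⟨(hz.resolve_left hzo).2, (hz.resolve_left hzo).1⟩
  obtain ⟨v, hv, v1, v2, v3, v4⟩ := central hcc h.hu h.sq (by
    intro p hp
    simp only [mem_erase, mem_insert] at hp ⊢
    obtain ⟨h1, rfl | ⟨h2, h3⟩⟩ := hp
    · rw [h.uo]; exact ⟨hzw.symm, Or.inr ⟨haw.symm, h.hw⟩⟩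
    · by_cases h4 : p = w
      · rw [h4, h.uw]; exact ⟨hzo.symm, Or.inl rfl⟩
      · rw [h.fix p h3 h4]; exact ⟨h1, Or.inr ⟨h2, h3⟩⟩)
  have hfix : ∀ p ∈ C, p ≠ a → p ≠ z → v p = p := fun p hp h1 h2 => v3 p (by simp [hp, h1, h2])
  have hva : v a = z := by
    have h1 : u (v a) = v a := by
      rw [← Perm.mul_apply, v4, Perm.mul_apply, h.fix a ha haw]
    have h2 := (h.fixd hT hC h1).1
    by_contra h3
    have h4 : v a = a := by
      by_contra h4
      exact h4 (v.injective (hfix _ h2 h4 h3))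
    refine v1 (hT v hv (insert a ((insert o (C.erase a)).erase z)) ?_ ?_)
    · rw [card_insert_of_notMem (by simp [(ne_of_mem_of_not_mem ha ho)]), card_erase_of_mem hz]
      omega
    · intro p hp
      rcases mem_insert.1 hp with rfl | h5
      · exact h4
      · exact v3 p h5
  have hvz : v z = a := by rw [← hva, sq_app v2]
  refine ⟨z, v, ⟨ha, hz'.1, hz'.2.symm, ho, hv, hva, hvz, v3 o (by simp [hzo.symm]), hfix⟩,
    fun h1 => hn (h1.map hv fun p hp => ?_)⟩
  by_cases h2 : p = z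
  · exact ⟨a, mem_erase.2 ⟨hz'.2.symm, ha⟩, h2 ▸ hva⟩
  · exact ⟨p, mem_erase.2 ⟨h2, mem_of_mem_erase hp⟩,
      hfix p (mem_of_mem_erase hp) (ne_of_mem_erase hp) h2⟩

lemma square (h : In H C w o u) (h' : In H C w' o' u') (hne : o ≠ o') :
    ∃ a b c d v₁ v₂, Ed H C o' a c v₁ ∧ Ed H C o c d v₂ ∧ a ≠ d ∧ ¬ CC H (C.erase a) ∧
      ¬ CC H (C.erase c) ∧ ¬ CC H (C.erase d) ∧
      ∀ e ∈ C, ¬ CC H (C.erase e) → e = a ∨ e = b ∨ e = c ∨ e = d := by
  obtain ⟨a, ha, na⟩ := (hM C hC).2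
  obtain ⟨b, v1, e1, nb⟩ := h.edge hT hM hC ha na
  obtain ⟨c, v2, e2, nc⟩ := h'.edge hT hM hC ha na
  obtain ⟨d, v3, e3, nd⟩ := h'.edge hT hM hC e1.hy nb
  obtain ⟨d', v4, e4, nd'⟩ := h.edge hT hM hC e2.hy nc
  have bc : b ≠ c := by
    rintro rfl
    exact hne (e1.uniq hT hC e2)
  have da : d ≠ a := by
    rintro rfl
    exact hne (e1.symm.uniq hT hC e3)
  have dc : d ≠ c := by
    rintro rfl
    have e5 := e2.conj e1.hv e1.mem
    rw [e1.vx, e1.fix d e2.hy da bc.symm] at e5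
    exact hne (e1.fixo hT hC e2.ho (e5.uniq hT hC e3)).symm
  have da' : d' ≠ a := by
    rintro rfl
    exact hne (e4.uniq hT hC e2.symm)
  have db' : d' ≠ b := by
    rintro rfl
    have e5 := e1.conj e2.hv e2.mem
    rw [e2.vx, e2.fix d' e1.hy da' bc] at e5
    exact hne (e2.fixo hT hC e1.ho (e5.uniq hT hC e4))
  have dd : d' = d := by
    by_contra h1
    exact hne (e4.disj hT hC e3 bc.symm dc.symm db' h1)
  subst dd
  refine ⟨a, b, c, d', v2, v4, e2, e4, da.symm, na, nc, nd, fun e he ne => ?_⟩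
  by_contra h1
  simp only [not_or] at h1
  obtain ⟨f, v5, e5, -⟩ := h.edge hT hM hC he ne
  by_cases h2 : f = a ∨ f = c
  · refine hne (e5.disj hT hC e3 h1.2.1 h1.2.2.2 ?_ ?_)
    · rcases h2 with rfl | rfl
      · exact e1.ne
      · exact bc.symm
    · rcases h2 with rfl | rfl
      · exact da.symm
      · exact dc.symm
  · simp only [not_or] at h2
    exact hne (e5.disj hT hC e2 h1.1 h1.2.2.1 h2.1 h2.2)

lemma uniq1 (h : In H C w o u) (h' : In H C w' o' u') (hw : w ≠ w') : o = o' := by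
  by_contra hne
  obtain ⟨a, b, c, d, v1, v2, e1, e2, ad, na, nc, nd, -⟩ := square hT hM hC h h' hne
  have k : ∀ {p q : β}, CC H (C.erase p) → ¬ CC H (C.erase q) → p ≠ q :=
    fun h1 h2 h3 => h2 (h3 ▸ h1)
  have e3 := e1.conj e2.hv e2.mem
  rw [e2.vx, e2.fix a e1.hx e1.ne ad] at e3
  have e4 := e1.conj e3.hv e3.mem
  rw [e3.vx, e3.fix c e1.hy e1.ne.symm e2.ne] at e4
  have i1 := h'.conj e3.hv e3.mem
  rw [e4.uniq hT hC e2.symm, e3.fix w' h'.hw (k h'.cc na) (k h'.cc nd)] at i1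
  generalize (v2 * v1 * v2⁻¹ * u' * (v2 * v1 * v2⁻¹)⁻¹) = s at i1
  have e5 : Ed H C o w w' (s * u * s⁻¹) := by
    refine ⟨h.hw, h'.hw, hw, e2.ho, H.mul_mem (H.mul_mem i1.hu h.hu) (H.inv_mem i1.hu), ?_, ?_, ?_,
      fun z hz h1 h2 => ?_⟩
    · conv_lhs => rw [← i1.fix w h.hw hw]
      rw [conj_app, h.uw, i1.uo]
    · conv_lhs => rw [← i1.uo]
      rw [conj_app, h.uo, i1.fix w h.hw hw]
    · conv_lhs => rw [← i1.uw]
      rw [conj_app, h.fix w' h'.hw hw.symm, i1.uw]
    · conv_lhs => rw [← i1.fix z hz h2]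
      rw [conj_app, h.fix z hz h1, i1.fix z hz h2]
  exact hne (e5.disj hT hC e1 (k h.cc na) (k h.cc nc) (k h'.cc na) (k h'.cc nc))

lemma uniq (ht : 6 ≤ t) (h : In H C w o u) (h' : In H C w' o' u') : o = o' := by
  by_cases hw : w = w'
  · by_contra hne
    obtain ⟨a, b, c, d, v1, v2, -, -, -, -, -, -, h1⟩ := square hT hM hC h h' hne
    obtain ⟨z, hz, h2⟩ : ∃ z ∈ C, z ∉ ({w, a, b, c, d} : Finset β) := by
      by_contra h2
      push Not at h2
      have h3 := card_le_card (show C ⊆ {w, a, b, c, d} from h2)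
      have h4 : ({w, a, b, c, d} : Finset β).card ≤ 5 := card_le_five
      omega
    simp only [mem_insert, mem_singleton, not_or] at h2
    have h3 : CC H (C.erase z) := by
      by_contra h3
      have := h1 z hz h3
      tauto
    obtain ⟨o1, u1, i1⟩ := h3.ex hz
    exact hne ((uniq1 hT hM hC i1 h h2.1).symm.trans (uniq1 hT hM hC i1 h' (hw ▸ h2.1)))
  · exact uniq1 hT hM hC h h' hw

end

/-- blocks -/
def Bl (H : Subgroup (Perm β)) (t : ℕ) (Y : Finset β) : Prop :=
  Y.card = t + 2 ∧ ∀ x ∈ Y, ∃ w u, In H (Y.erase x) w x u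

section
variable (hT : Triv H (t + 1)) (hM : Mix H t) (ht : 6 ≤ t)
include hT hM ht

lemma In.bl (hC : C.card = t + 1) (h : In H C w o u) : Bl H t (insert o C) := by
  have ho := h.ho hT hC
  refine ⟨by rw [card_insert_of_notMem ho, hC], fun x hx => ?_⟩
  rcases mem_insert.1 hx with rfl | hx
  · rw [erase_insert ho]
    exact ⟨w, u, h⟩
  have hox : o ≠ x := (ne_of_mem_of_not_mem hx ho).symm
  by_cases h1 : CC H (C.erase x)
  · obtain ⟨o', u', h2⟩ := h1.ex hx
    obtain rfl := uniq hT hM hC ht h h2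
    refine ⟨o, u', by simp [hox], h2.hu, h2.ne, h2.sq, fun z hz h3 => ?_, h2.uo⟩
    simp only [mem_erase, mem_insert] at hz
    exact h2.fix z (hz.2.resolve_left h3) hz.1
  · obtain ⟨z, v, e, -⟩ := h.edge hT hM hC hx h1
    refine ⟨z, v, by simp [e.ne.symm, e.hy], e.hv, e.ne1, e.sq hT hC, fun p hp h3 => ?_, e.vy⟩
    simp only [mem_erase, mem_insert] at hp
    rcases hp.2 with rfl | h4
    · exact e.vo
    · exact e.fix p h4 hp.1 h3

lemma Bl.pt {Y : Finset β} (h : Bl H t Y) (hx : x ∈ Y) (h1 : In H (Y.erase x) w o u) : o = x := by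
  obtain ⟨w', u', h2⟩ := h.2 x hx
  exact uniq hT hM (by rw [card_erase_of_mem hx, h.1]; rfl) ht h1 h2

lemma Bl.eq {Y Y' : Finset β} (h : Bl H t Y) (h' : Bl H t Y') (hx : x ∈ Y) (hx' : x' ∈ Y')
    (e : Y.erase x = Y'.erase x') : x = x' := by
  obtain ⟨w, u, h2⟩ := h.2 x hx
  exact h'.pt hT hM ht hx' (e ▸ h2)

lemma final (hC : C.card = t + 1) (p : β) (h : In H C w o u) : p ∈ insert o C := by
  by_contra hp
  obtain ⟨a, ha, na⟩ := (hM C hC).2
  obtain ⟨b, v, e, nb⟩ := h.edge hT hM hC ha na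
  have ho := e.ho
  have hb := e.hy
  have hw := h.hw
  have ab := e.ne
  have aw : a ≠ w := fun h1 => na (h1 ▸ h.cc)
  have bw : b ≠ w := fun h1 => nb (h1 ▸ h.cc)
  have hY := h.bl hT hM ht hC
  have v1 : ∀ q, q ∉ insert o C → v q ∉ insert o C ∧ v q ≠ q := fun q hq => by
    simp only [mem_insert, not_or] at hq ⊢
    exact ⟨⟨fun h1 => hq.1 (v.injective (h1.trans e.vo.symm)), fun h1 => hq.2 ((e.mem q).1 h1)⟩,
      fun h1 => hq.1 (e.fixo hT hC hq.2 h1)⟩
  have u1 : ∀ q, q ∉ insert o C → u q ∉ insert o C := fun q hq => by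
    simp only [mem_insert, not_or] at hq ⊢
    refine ⟨fun h1 => hq.2 (u.injective (h1.trans h.uw.symm) ▸ hw), fun h1 => ?_⟩
    by_cases h2 : u q = w
    · exact hq.1 (u.injective (h2.trans h.uo.symm))
    · exact hq.2 (u.injective (h.fix _ h1 h2) ▸ h1)
  have hg : v * u ∈ H := H.mul_mem e.hv h.hu
  have comm : v * u = u * v := eq_on hT hC hg (H.mul_mem h.hu e.hv) fun z hz => by
    rw [Perm.mul_apply, Perm.mul_apply]
    by_cases a1 : z = w
    · rw [a1, h.uw, e.vo, e.fix w hw aw.symm bw.symm, h.uw]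
    rw [h.fix z hz a1, h.fix _ ((e.mem z).2 hz) fun h1 =>
      a1 (v.injective (h1.trans (e.fix w hw aw.symm bw.symm).symm))]
  have gsq : v * u * (v * u) = 1 := by
    calc v * u * (v * u) = v * (u * v) * u := by group
      _ = (v * v) * (u * u) := by rw [← comm]; group
      _ = 1 := by rw [e.sq hT hC, h.sq, mul_one]
  have ga : (v * u) a = b := by rw [Perm.mul_apply, h.fix a ha aw, e.vx]
  have gb : (v * u) b = a := by rw [Perm.mul_apply, h.fix b hb bw, e.vy]
  have gw : (v * u) w = o := by rw [Perm.mul_apply, h.uw, e.vo]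
  have go : (v * u) o = w := by rw [Perm.mul_apply, h.uo, e.fix w hw aw.symm bw.symm]
  have g1 : v * u ≠ 1 := fun h1 => ab (by rw [← ga, h1]; rfl)
  obtain ⟨E, hE⟩ : ∃ E, E = ((C.erase a).erase b).erase w := ⟨_, rfl⟩
  have mE : ∀ z, z ∈ E ↔ z ≠ w ∧ z ≠ b ∧ z ≠ a ∧ z ∈ C := fun z => by simp [hE]
  have cE : E.card + 2 = t := by
    rw [hE, card_erase_of_mem (by simp [aw.symm, bw.symm, hw]),
      card_erase_of_mem (by simp [ab.symm, hb]), card_erase_of_mem ha]
    omega
  have gE : ∀ z ∈ E, (v * u) z = z := fun z hz => by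
    obtain ⟨h1, h2, h3, h4⟩ := (mE z).1 hz
    rw [Perm.mul_apply, h.fix z h4 h1, e.fix z h4 h3 h2]
  by_cases hcase : ∃ q, q ∉ insert o C ∧ (v * u) q ≠ q
  · clear hp p
    obtain ⟨p, hp, hgp⟩ := hcase
    obtain ⟨p', hp'⟩ : ∃ p', p' = (v * u) p := ⟨_, rfl⟩
    have hp1 : p' ∉ insert o C := hp' ▸ (v1 _ (u1 p hp)).1
    have gp' : (v * u) p' = p := by rw [hp', sq_app gsq]
    rw [← hp'] at hgp
    have pC : p ∉ C := fun h1 => hp (mem_insert_of_mem h1)
    have pC' : p' ∉ C := fun h1 => hp1 (mem_insert_of_mem h1)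
    have nE : ∀ {q}, q ∉ C → q ∉ E := fun h1 h2 => h1 ((mE _).1 h2).2.2.2
    let D : β → Finset β := fun z => insert a (insert b (insert p (insert p' (E.erase z))))
    have cD : ∀ z ∈ E, (D z).card = t + 1 := fun z hz => by
      have a1 := ne_of_mem_of_not_mem ha pC
      have a2 := ne_of_mem_of_not_mem ha pC'
      have a3 := ne_of_mem_of_not_mem hb pC
      have a4 := ne_of_mem_of_not_mem hb pC'
      have a5 := card_pos.2 ⟨z, hz⟩
      simp only [D]
      rw [card_insert_of_notMem (by simp [ab, a1, a2, mE]),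
        card_insert_of_notMem (by simp [a3, a4, mE]),
        card_insert_of_notMem (by simp [hgp.symm, nE pC]),
        card_insert_of_notMem (by simp [nE pC']), card_erase_of_mem hz]
      omega
    have iD : ∀ z q, q ∈ D z → (v * u) q ∈ D z := fun z q hq => by
      simp only [D, mem_insert] at hq ⊢
      rcases hq with rfl | rfl | rfl | rfl | hq
      · simp only [ga, true_or, or_true]
      · simp only [gb, true_or]
      · simp only [← hp', true_or, or_true]
      · simp only [gp', true_or, or_true]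
      · rw [gE q (mem_of_mem_erase hq)]; simp only [hq, or_true]
    have exD : ∀ z ∈ E, ∃ f, Bl H t (insert f (D z)) ∧ f ∉ D z ∧ (v * u) f = f := fun z hz => by
      obtain ⟨x, hx, h1⟩ := (hM _ (cD z hz)).1
      obtain ⟨f, s, h2⟩ := h1.ex hx
      exact ⟨f, h2.bl hT hM ht (cD z hz), h2.ho hT (cD z hz), uniq hT hM (cD z hz) ht
        (h2.conj hg fun q => ⟨fun h3 => sq_app gsq q ▸ iD z _ h3, iD z q⟩) h2⟩
    choose! f f1 f2 f3 using exD
    by_cases h1 : ∃ z ∈ E, f z = z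
    · obtain ⟨z, hz, h1⟩ := h1
      have h2 := f1 z hz
      rw [h1] at h2
      have h3 : u p = p' := h2.pt hT hM ht (x := p') (w := p) (u := u) (by simp [D])
        ⟨by simp [D, hgp.symm], h.hu, h.ne, h.sq, fun q hq h4 => by
          simp only [D, mem_erase, mem_insert] at hq
          obtain ⟨h5, rfl | rfl | rfl | rfl | rfl | h6⟩ := hq
          · exact h.fix _ ((mE _).1 hz).2.2.2 ((mE _).1 hz).1
          · exact h.fix _ ha aw
          · exact h.fix _ hb bw
          · exact absurd rfl h4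
          · exact absurd rfl h5
          · exact h.fix _ ((mE _).1 h6.2).2.2.2 ((mE _).1 h6.2).1, rfl⟩
      refine (v1 p' hp1).2 ?_
      conv_lhs => rw [← h3]
      exact hp'.symm
    · push Not at h1
      have fE : ∀ z ∈ E, f z ∉ E := fun z hz h2 => f2 z hz (by simp [D, h1 z hz, h2])
      have inj : Set.InjOn f E := fun z hz z' hz' h2 => by
        by_contra h3
        have h4 := f1 z' hz'
        rw [← h2] at h4
        have hz1 : z ∈ E := hz
        have hz2 : z' ∈ E := hz'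
        have k : ∀ q ∈ E, q ≠ f z ∧ q ≠ a ∧ q ≠ b ∧ q ≠ p ∧ q ≠ p' := fun q hq =>
          ⟨ne_of_mem_of_not_mem hq (fE z hz), ((mE _).1 hq).2.2.1, ((mE _).1 hq).2.1,
            ne_of_mem_of_not_mem hq (nE pC), ne_of_mem_of_not_mem hq (nE pC')⟩
        refine h3 (h4.eq hT hM ht (f1 z hz) (by simp [D, h3, hz1]) (by simp [D, Ne.symm h3, hz2]) ?_)
        ext q
        simp only [D, mem_erase, mem_insert]
        have k1 := k z hz1
        have k2 := k z' hz2
        by_cases q1 : q = z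
        · subst q1; tauto
        by_cases q2 : q = z'
        · subst q2; tauto
        tauto
      refine g1 (hT _ hg (E ∪ E.image f) ?_ fun q hq => ?_)
      · rw [card_union_of_disjoint (disjoint_right.2 fun q hq => by
          obtain ⟨z, hz, rfl⟩ := mem_image.1 hq
          exact fE z hz), card_image_of_injOn inj]
        omega
      · rcases mem_union.1 hq with h2 | h2
        · exact gE q h2
        · obtain ⟨z, hz, rfl⟩ := mem_image.1 h2
          exact f3 z hz
  · push Not at hcase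
    obtain ⟨p', hp'⟩ : ∃ p', p' = v p := ⟨_, rfl⟩
    obtain ⟨hp1, hp2⟩ := v1 p hp
    rw [← hp'] at hp1 hp2
    have nE : ∀ {q}, q ∉ insert o C → q ∉ E := fun h1 h2 =>
      h1 (mem_insert_of_mem ((mE _).1 h2).2.2.2)
    have two : ∀ q, q ∉ insert o C → q = p ∨ q = p' := fun q hq => by
      by_contra h1
      simp only [not_or] at h1
      refine g1 (hT _ hg (insert q (insert p' (insert p E))) ?_ fun z hz => ?_)
      · rw [card_insert_of_notMem (by simp [h1.1, h1.2, nE hq]),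
          card_insert_of_notMem (by simp [hp2, nE hp1]), card_insert_of_notMem (nE hp)]
        omega
      · simp only [mem_insert] at hz
        rcases hz with rfl | rfl | rfl | hz
        · exact hcase _ hq
        · exact hcase _ hp1
        · exact hcase _ hp
        · exact gE z hz
    obtain ⟨Y, hY'⟩ : ∃ Y, Y = insert o C := ⟨_, rfl⟩
    have aY : a ∈ Y := hY' ▸ mem_insert_of_mem ha
    have bY : b ∈ Y := hY' ▸ mem_insert_of_mem hb
    have wY : w ∈ Y := hY' ▸ mem_insert_of_mem hw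
    have vY : ∀ z ∈ Y, z ≠ a → z ≠ b → v z = z := fun z hz h1 h2 => by
      rcases mem_insert.1 (hY' ▸ hz) with rfl | h3
      · exact e.vo
      · exact e.fix z h3 h1 h2
    rw [← hY'] at hY hp hp1 two
    have cc : ∀ c ∈ Y, c ≠ a → (insert p ((Y.erase a).erase c)).card = t + 1 := fun c hc h1 => by
      rw [card_insert_of_notMem (by simp [hp]), card_erase_of_mem (by simp [h1, hc]),
        card_erase_of_mem aY, hY.1]
      omega
    have B0 : Bl H t (insert p' (insert p ((Y.erase a).erase b))) :=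
      In.bl hT hM ht (cc b bY ab.symm) (w := p) (u := v)
        ⟨mem_insert_self _ _, e.hv, e.ne1, e.sq hT hC, fun z hz h1 => by
          simp only [mem_insert, mem_erase] at hz
          obtain ⟨h2, h3, h4⟩ := hz.resolve_left h1
          exact vY z h4 h3 h2, hp'.symm⟩
    obtain ⟨x, hx, h1⟩ := (hM _ (cc w wY aw.symm)).1
    obtain ⟨f, s, h2⟩ := h1.ex hx
    have B1 := h2.bl hT hM ht (cc w wY aw.symm)
    have h3 := h2.ho hT (cc w wY aw.symm)
    have n1 := ne_of_mem_of_not_mem aY hp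
    have n2 := ne_of_mem_of_not_mem bY hp
    have n3 := ne_of_mem_of_not_mem wY hp
    have n4 := ne_of_mem_of_not_mem bY hp1
    have n5 := ne_of_mem_of_not_mem wY hp1
    simp only [mem_insert, mem_erase, not_or] at h3
    by_cases h4 : f ∈ Y
    · by_cases h5 : f = w
      · subst h5
        refine n1 (hY.eq hT hM ht B1 aY (by simp) ?_)
        ext q
        simp only [mem_erase, mem_insert]
        by_cases q1 : q = p
        · subst q1; tauto
        by_cases q2 : q = f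
        · subst q2; tauto
        tauto
      · obtain rfl : f = a := by tauto
        refine n3 (hY.eq hT hM ht B1 wY (by simp) ?_)
        ext q
        simp only [mem_erase, mem_insert]
        by_cases q1 : q = p
        · subst q1; tauto
        by_cases q2 : q = f
        · subst q2; tauto
        tauto
    · obtain rfl : f = p' := (two f h4).resolve_left h3.1
      refine bw (B1.eq hT hM ht B0 (by simp [bw, ab.symm, bY]) (by simp [bw.symm, aw.symm, wY]) ?_)
      ext q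
      simp only [mem_erase, mem_insert]
      by_cases q1 : q = b
      · subst q1; tauto
      by_cases q2 : q = w
      · subst q2; tauto
      tauto

end

end Omega

open Omega in
theorem omega_of : St_omega := by
  intro β _ _ H t ht hn hT hM
  have hM' : Mix H t := fun C hC => by simpa only [cc_iff] using hM C hC
  obtain ⟨C, -, hC⟩ := exists_subset_card_eq (s := (univ : Finset β)) (n := t + 1) hn
  obtain ⟨w, hw, h1⟩ := (hM' C hC).1
  obtain ⟨o, u, h2⟩ := h1.ex hw
  rw [← (h2.bl hT hM' ht hC).1, eq_univ_of_forall fun p => final hT hM' ht hC p h2, card_univ]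

end Pool.Agent.H5Hom
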