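import Pool.Agent.Lib.MP_078193_al.MBlue

/-! Block QN2: the local situation is impossible for `q = 2`. -/

open Finset Equiv
open scoped Pointwise

set_option linter.unusedSectionVars false

namespace Pool.Agent.H5Hom

namespace Qn2

variable {β : Type} [Fintype β] [DecidableEq β] {M : Subgroup (Perm β)} {t k : ℕ} {z : Perm β}
  {K : Finset β} {p₀ : β}

/-- elements commuting with `z` and fixing `p₀` -/
structure Ga (M : Subgroup (Perm β)) (z : Perm β) (p₀ : β) (g : Perm β) : Prop where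
  mem : g ∈ M
  com : ∀ u, g (z u) = z (g u)
  fix : g p₀ = p₀

/-- `τ` acts on `K` as the transposition of `x` and `y` -/
structure Tau (M : Subgroup (Perm β)) (z : Perm β) (K : Finset β) (p₀ x y : β) (τ : Perm β) :
    Prop where
  ga : Ga M z p₀ τ
  hx : x ∈ K
  hy : y ∈ K
  ne : x ≠ y
  xy : τ x = y
  yx : τ y = x
  rest : ∀ u ∈ K, u ≠ x → u ≠ y → τ u = u

lemma Ga.mul {g h : Perm β} (a : Ga M z p₀ g) (b : Ga M z p₀ h) : Ga M z p₀ (g * h) :=
  ⟨M.mul_mem a.mem b.mem, fun u => by simp [a.com, b.com], by simp [a.fix, b.fix]⟩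

lemma Tau.symm {x y : β} {τ : Perm β} (h : Tau M z K p₀ x y τ) : Tau M z K p₀ y x τ :=
  ⟨h.ga, h.hy, h.hx, h.ne.symm, h.yx, h.xy, fun u hu a b => h.rest u hu b a⟩

lemma zz (h : ZW M t 2 k z K p₀) (u : β) : z (z u) = u := by
  have := congrArg (fun g : Perm β => g u) h.zq
  simpa [sq] using this

lemma ext (h : ZW M t 2 k z K p₀) {g g' : Perm β} (a : Ga M z p₀ g) (b : Ga M z p₀ g')
    (e : ∀ u ∈ K, g u = g' u) : g = g' := by
  have := h.qn.triv (g'⁻¹ * g) (M.mul_mem (M.inv_mem b.mem) a.mem) (insert p₀ K)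
    (by rw [card_insert_of_notMem h.hp, h.hK]) (fun x hx => by
      rw [Perm.mul_apply, Perm.inv_eq_iff_eq]
      rcases mem_insert.1 hx with rfl | hx
      · rw [a.fix, b.fix]
      · exact e x hx)
  exact (inv_mul_eq_one.1 this).symm

lemma ga_one : Ga M z p₀ 1 := ⟨M.one_mem, fun _ => rfl, rfl⟩

lemma Tau.sq (h : ZW M t 2 k z K p₀) {x y : β} {τ : Perm β} (a : Tau M z K p₀ x y τ) (u : β) :
    τ (τ u) = u := by
  have := ext h (a.ga.mul a.ga) ga_one fun u hu => by
    by_cases h1 : u = x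
    · simp [h1, a.xy, a.yx]
    by_cases h2 : u = y
    · simp [h2, a.xy, a.yx]
    simp [a.rest u hu h1 h2]
  exact congrArg (fun g : Perm β => g u) this

lemma Tau.trans {x y u : β} {τ τ' : Perm β} (a : Tau M z K p₀ x y τ) (b : Tau M z K p₀ x u τ')
    (ne : y ≠ u) : Tau M z K p₀ y u (τ * τ' * τ) := by
  have e1 : τ u = u := a.rest u b.hy b.ne.symm ne.symm
  have e2 : τ' y = y := b.rest y a.hy a.ne.symm ne
  refine ⟨(a.ga.mul b.ga).mul a.ga, a.hy, b.hy, ne, by simp [a.yx, b.xy, e1],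
    by simp [e1, b.yx, a.xy], fun v hv h1 h2 => ?_⟩
  by_cases h3 : v = x
  · simp [h3, a.xy, a.yx, e2]
  · simp [a.rest v hv h3 h1, b.rest v hv h3 h2]

lemma Tau.comm (h : ZW M t 2 k z K p₀) {x y u v : β} {τ τ' : Perm β} (a : Tau M z K p₀ x y τ)
    (b : Tau M z K p₀ u v τ') (h1 : u ≠ x) (h2 : u ≠ y) (h3 : v ≠ x) (h4 : v ≠ y) (w : β) :
    τ (τ' w) = τ' (τ w) := by
  have e1 : τ u = u := a.rest u b.hx h1 h2
  have e2 : τ v = v := a.rest v b.hy h3 h4
  have e3 : τ' x = x := b.rest x a.hx h1.symm h3.symm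
  have e4 : τ' y = y := b.rest y a.hy h2.symm h4.symm
  have := ext h (a.ga.mul b.ga) (b.ga.mul a.ga) fun w hw => by
    by_cases c1 : w = x
    · simp [c1, e3, e4, a.xy]
    by_cases c2 : w = y
    · simp [c2, e3, e4, a.yx]
    by_cases c3 : w = u
    · simp [c3, e1, e2, b.xy]
    by_cases c4 : w = v
    · simp [c4, e1, e2, b.yx]
    simp [a.rest w hw c1 c2, b.rest w hw c3 c4]
  exact congrArg (fun g : Perm β => g w) this

lemma pair (h : ZW M t 2 k z K p₀) {a b c : β} (ha : a ∈ K) (hb : b ∈ K) (hc : c ∈ K) (ab : a ≠ b)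
    (ac : a ≠ c) (bc : b ≠ c) : (∃ τ, Tau M z K p₀ a b τ) ∨ (∃ τ, Tau M z K p₀ a c τ) ∨
      ∃ τ, Tau M z K p₀ b c τ := by
  obtain ⟨w, hw, wz, w2, wp, hs, hc2⟩ := h.cyc {a, b, c} (by simp [insert_subset_iff, *])
    (by rw [card_eq_three.2 ⟨a, b, c, ab, ac, bc, rfl⟩])
  have ga : Ga M z p₀ w := ⟨hw, fun u => congrArg (fun g : Perm β => g u) wz, wp⟩
  obtain ⟨x, y, xy, e⟩ := card_eq_two.1 hc2
  have hx : x ∈ supp K w := by simp [e]
  have hy : y ∈ supp K w := by simp [e]
  have key : ∀ u ∈ supp K w, w u ∈ supp K w ∧ w u ≠ u := fun u hu => by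
    obtain ⟨u1, u2⟩ := mem_supp.1 hu
    exact ⟨mem_supp.2 ⟨(h.fixz _).1 (by rw [← ga.com, (h.fixz u).2 u1]),
      fun e => u2 (w.injective e)⟩, u2⟩
  have T : Tau M z K p₀ x y w := by
    refine ⟨ga, (mem_supp.1 hx).1, (mem_supp.1 hy).1, xy, ?_, ?_, fun u hu h1 h2 => ?_⟩
    · have := key x hx
      rw [e] at this
      simpa [this.2] using this.1
    · have := key y hy
      rw [e] at this
      simpa [this.2] using this.1
    · by_contra hn
      have : u ∈ supp K w := mem_supp.2 ⟨hu, hn⟩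
      rw [e] at this
      simp [h1, h2] at this
  have x1 := hs hx
  have y1 := hs hy
  simp only [mem_insert, mem_singleton] at x1 y1
  rcases x1 with rfl | rfl | rfl <;> rcases y1 with rfl | rfl | rfl
  all_goals first
    | exact absurd rfl xy
    | exact Or.inl ⟨w, T⟩
    | exact Or.inl ⟨w, T.symm⟩
    | exact Or.inr (Or.inl ⟨w, T⟩)
    | exact Or.inr (Or.inl ⟨w, T.symm⟩)
    | exact Or.inr (Or.inr ⟨w, T⟩)
    | exact Or.inr (Or.inr ⟨w, T.symm⟩)

lemma clique (h : ZW M t 2 k z K p₀) {K' : Finset β} (hK : K' ⊆ K) : ∃ W ⊆ K',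
    K'.card ≤ 2 * W.card ∧ ∀ x ∈ W, ∀ y ∈ W, x ≠ y → ∃ τ, Tau M z K p₀ x y τ := by
  classical
  rcases K'.eq_empty_or_nonempty with rfl | ⟨a, ha⟩
  · exact ⟨∅, by simp⟩
  have e := card_filter_add_card_filter_not (s := K') (fun y => y = a ∨ ∃ τ, Tau M z K p₀ a y τ)
  rcases le_total (K'.filter fun y => y = a ∨ ∃ τ, Tau M z K p₀ a y τ).card
    (K'.filter fun y => ¬(y = a ∨ ∃ τ, Tau M z K p₀ a y τ)).card with c | c
  · refine ⟨K'.filter fun y => ¬(y = a ∨ ∃ τ, Tau M z K p₀ a y τ), filter_subset _ _, by omega,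
      fun x hx y hy xy => ?_⟩
    obtain ⟨x1, x2⟩ := mem_filter.1 hx
    obtain ⟨y1, y2⟩ := mem_filter.1 hy
    rw [not_or] at x2 y2
    exact ((pair h (hK ha) (hK x1) (hK y1) (Ne.symm x2.1) (Ne.symm y2.1) xy).resolve_left
      x2.2).resolve_left y2.2
  · refine ⟨K'.filter fun y => y = a ∨ ∃ τ, Tau M z K p₀ a y τ, filter_subset _ _, by omega,
      fun x hx y hy xy => ?_⟩
    rcases (mem_filter.1 hx).2 with rfl | ⟨τ, a1⟩ <;> rcases (mem_filter.1 hy).2 with rfl | ⟨τ', a2⟩
    · exact absurd rfl xy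
    · exact ⟨_, a2⟩
    · exact ⟨_, a1.symm⟩
    · exact ⟨_, a1.trans a2 xy⟩

lemma triangle (h : ZW M t 2 k z K p₀) {K' : Finset β} (hK : K' ⊆ K) (h5 : 5 ≤ K'.card) :
    ∃ x ∈ K', ∃ y ∈ K', ∃ u ∈ K', y ≠ u ∧ ∃ τ τ', Tau M z K p₀ x y τ ∧ Tau M z K p₀ x u τ' := by
  obtain ⟨W, w1, w2, w3⟩ := clique h hK
  obtain ⟨x, y, u, hx, hy, hu, xy, xu, yu⟩ := two_lt_card_iff.1 (show 2 < W.card by omega)
  obtain ⟨τ, a⟩ := w3 x hx y hy xy
  obtain ⟨τ', b⟩ := w3 x hx u hu xu
  exact ⟨x, w1 hx, y, w1 hy, u, w1 hu, yu, τ, τ', a, b⟩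

/-- points outside `K` and the cycle of `p₀` -/
def Out (z : Perm β) (K : Finset β) (p₀ p : β) : Prop := p ∉ K ∧ p ≠ p₀ ∧ p ≠ z p₀

lemma z_ne (h : ZW M t 2 k z K p₀) {p : β} (hp : p ∉ K) : z p ≠ p := fun e => hp ((h.fixz p).1 e)

lemma z_out (h : ZW M t 2 k z K p₀) {p : β} (hp : p ∉ K) : z p ∉ K := fun e =>
  z_ne h hp (z.injective ((h.fixz _).2 e))

lemma Out.zo (h : ZW M t 2 k z K p₀) {p : β} (a : Out z K p₀ p) : Out z K p₀ (z p) :=
  ⟨z_out h a.1, fun e => a.2.2 (by rw [← e, zz h]), fun e => a.2.1 (Equiv.injective _ e)⟩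

lemma Out.ga (h : ZW M t 2 k z K p₀) {p : β} (a : Out z K p₀ p) {g : Perm β} (b : Ga M z p₀ g) :
    Out z K p₀ (g p) :=
  ⟨fun e => z_ne h a.1 (g.injective (by rw [b.com, (h.fixz _).2 e])),
    fun e => a.2.1 (g.injective (by rw [e, b.fix])),
    fun e => a.2.2 (g.injective (by rw [e, b.com, b.fix]))⟩

lemma card_out (h : ZW M t 2 k z K p₀) : ((Kᶜ.erase p₀).erase (z p₀)).card = 2 * k := by
  have := h.qn.hc
  have := h.hK
  rw [card_erase_of_mem (mem_erase.2 ⟨z_ne h h.hp, mem_compl.2 (z_out h h.hp)⟩),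
    card_erase_of_mem (mem_compl.2 h.hp), card_compl]
  omega

lemma pig (h : ZW M t 2 k z K p₀) {ι : Type} (W : Finset ι) (f : ι → β)
    (h1 : ∀ x ∈ W, Out z K p₀ (f x)) (h2 : ∀ x ∈ W, ∀ y ∈ W, x ≠ y → f x ≠ f y ∧ f x ≠ z (f y)) :
    W.card ≤ k := by
  have i1 : Set.InjOn f W := fun x hx y hy e => by
    by_contra c
    exact (h2 x hx y hy c).1 e
  have i2 : Set.InjOn (fun x => z (f x)) W := fun x hx y hy e => i1 hx hy (z.injective e)
  have d : Disjoint (W.image f) (W.image fun x => z (f x)) := by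
    rw [disjoint_left]
    intro p hp hp'
    obtain ⟨x, hx, rfl⟩ := mem_image.1 hp
    obtain ⟨y, hy, e⟩ := mem_image.1 hp'
    by_cases c : x = y
    · exact z_ne h (h1 y hy).1 (by rw [e, c])
    · exact (h2 x hx y hy c).2 e.symm
  have s : W.image f ∪ (W.image fun x => z (f x)) ⊆ (Kᶜ.erase p₀).erase (z p₀) := by
    intro p hp
    have : Out z K p₀ p := by
      rcases mem_union.1 hp with hp | hp <;> obtain ⟨x, hx, rfl⟩ := mem_image.1 hp
      · exact h1 x hx
      · exact (h1 x hx).zo h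
    simp [this.1, this.2.1, this.2.2]
  have := card_le_card s
  rw [card_union_of_disjoint d, card_image_of_injOn i1, card_image_of_injOn i2, card_out h] at this
  omega

/-- an element fixing most of `K` and enough points outside is trivial -/
lemma triv (h : ZW M t 2 k z K p₀) {g : Perm β} (hg : g ∈ M) (S T : Finset β) (hS : S.card < T.card)
    (h1 : ∀ u ∈ K, u ∉ S → g u = u) (h2 : ∀ u ∈ T, u ∉ K ∧ g u = u) : g = 1 := by
  refine h.qn.triv g hg (K \ S ∪ T) ?_ fun x hx => ?_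
  · rw [card_union_of_disjoint (disjoint_right.2 fun x hx e => (h2 x hx).1 (mem_sdiff.1 e).1)]
    have := le_card_sdiff S K
    have := h.hK
    omega
  · rcases mem_union.1 hx with hx | hx
    · exact h1 x (mem_sdiff.1 hx).1 (mem_sdiff.1 hx).2
    · exact (h2 x hx).2

lemma cube (h : ZW M t 2 k z K p₀) {x y u : β} {τ τ' : Perm β} (a : Tau M z K p₀ x y τ)
    (b : Tau M z K p₀ x u τ') (ne : y ≠ u) (p : β) : (τ * τ') ((τ * τ') ((τ * τ') p)) = p := by
  have e1 : τ u = u := a.rest u b.hy b.ne.symm ne.symm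
  have e2 : τ' y = y := b.rest y a.hy a.ne.symm ne
  have g := a.ga.mul b.ga
  have := ext h (g.mul (g.mul g)) ga_one fun v hv => by
    by_cases c1 : v = x
    · simp [c1, e1, e2, a.xy, a.yx, b.xy, b.yx]
    by_cases c2 : v = y
    · simp [c2, e1, e2, a.xy, a.yx, b.xy, b.yx]
    by_cases c3 : v = u
    · simp [c3, e1, e2, a.xy, a.yx, b.xy, b.yx]
    simp [a.rest v hv c1 c2, b.rest v hv c1 c3]
  exact congrArg (fun g : Perm β => g p) this

lemma move (h : ZW M t 2 k z K p₀) {x y u : β} {τ τ' : Perm β} (a : Tau M z K p₀ x y τ)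
    (b : Tau M z K p₀ x u τ') (ne : y ≠ u) {p : β} (hp : Out z K p₀ p) :
    (τ * τ') p ≠ p ∧ (τ * τ') p ≠ z p := by
  have g := a.ga.mul b.ga
  have n1 : (τ * τ') p ≠ p := fun e => by
    have c4 : ({p₀, z p₀, p, z p} : Finset β).card = 4 := by
      have := z_ne h h.hp
      have := z_ne h hp.1
      have := hp.2.1
      have := hp.2.2
      have := (hp.zo h).2.1
      have := (hp.zo h).2.2
      rw [card_insert_of_notMem (by simp; tauto), card_insert_of_notMem (by simp; tauto),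
        card_pair (by tauto)]
    have := triv h g.mem {x, y, u} {p₀, z p₀, p, z p} (by rw [c4]; exact Nat.lt_succ_of_le card_le_three)
      (fun v hv hn => by
        simp only [mem_insert, mem_singleton, not_or] at hn
        simp [a.rest v hv hn.1 hn.2.1, b.rest v hv hn.1 hn.2.2])
      (fun v hv => by
        simp only [mem_insert, mem_singleton] at hv
        rcases hv with rfl | rfl | rfl | rfl
        · exact ⟨h.hp, g.fix⟩
        · exact ⟨z_out h h.hp, by rw [g.com, g.fix]⟩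
        · exact ⟨hp.1, e⟩
        · exact ⟨z_out h hp.1, by rw [g.com, e]⟩)
    have e3 : (τ * τ') u = u := by rw [this]; rfl
    rw [Perm.mul_apply, b.yx, a.xy] at e3
    exact ne e3
  refine ⟨n1, fun e => n1 ?_⟩
  have := cube h a b ne p
  rwa [e, g.com, e, zz h] at this

end Qn2

open Qn2 in
theorem qn2_of : St_qn2 := by
  intro β _ _ M t k z K p₀ h
  classical
  have ht := h.qn.ht
  have hk := h.qn.hk
  have hK := h.hK
  obtain ⟨p, hp⟩ : ∃ p, Out z K p₀ p := by
    obtain ⟨p, hp⟩ := card_pos.1 (show 0 < ((Kᶜ.erase p₀).erase (z p₀)).card by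
      rw [card_out h]; have := h.k1; omega)
    simp only [mem_erase, mem_compl] at hp
    exact ⟨p, hp.2.2, hp.2.1, hp.1⟩
  have k3 : 3 ≤ k := by
    obtain ⟨x, -, y, -, u, -, ne, τ, τ', a, b⟩ := triangle h subset_rfl (by omega)
    have g := a.ga.mul b.ga
    have m := fun q (hq : Out z K p₀ q) => move h a b ne hq
    have c := cube h a b ne
    obtain ⟨γ, hγ⟩ : ∃ γ, γ = τ * τ' := ⟨_, rfl⟩
    rw [← hγ] at g m c
    have o1 := hp.ga h g
    have o2 := o1.ga h g
    have sw : ∀ {v w : β}, v ≠ w ∧ v ≠ z w → w ≠ v ∧ w ≠ z v := fun e =>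
      ⟨e.1.symm, fun e' => e.2 (by rw [e', zz h])⟩
    have m0 := m p hp
    have m1 := m _ o1
    have m2 := m _ o2
    rw [c] at m2
    refine pig h (univ : Finset (Fin 3)) ![p, γ p, γ (γ p)] (fun i _ => ?_) fun i _ j _ ij => ?_
    · fin_cases i
      exacts [hp, o1, o2]
    · fin_cases i <;> fin_cases j
      all_goals first
        | exact absurd rfl ij
        | exact m0
        | exact m1
        | exact m2
        | exact sw m0
        | exact sw m1
        | exact sw m2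
  obtain ⟨W, w1, w2, w3⟩ := clique h subset_rfl
  obtain ⟨a, ha⟩ := card_pos.1 (show 0 < W.card by omega)
  choose! T hT using w3 a ha
  have n1 : ∀ x ∈ W, a ≠ x → T x p ≠ p := fun x hx ax e => by
    have b := hT x hx ax
    have := triv h b.ga.mem {a, x} {p₀, z p₀, p} (by
      rw [card_eq_three.2 ⟨_, _, _, (z_ne h h.hp).symm, hp.2.1.symm, hp.2.2.symm, rfl⟩]
      exact Nat.lt_succ_of_le card_le_two)
      (fun v hv hn => by
        simp only [mem_insert, mem_singleton, not_or] at hn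
        exact b.rest v hv hn.1 hn.2)
      (fun v hv => by
        simp only [mem_insert, mem_singleton] at hv
        rcases hv with rfl | rfl | rfl
        · exact ⟨h.hp, b.ga.fix⟩
        · exact ⟨z_out h h.hp, by rw [b.ga.com, b.ga.fix]⟩
        · exact ⟨hp.1, e⟩)
    exact ax (by rw [← b.xy, this]; rfl)
  have n2 : ∀ x ∈ W, a ≠ x → T x p ≠ z p := fun x hx ax e => by
    have b := hT x hx ax
    obtain ⟨v, hv, y, hy, u, hu, ne, τ, τ', c, c'⟩ := triangle h (K' := (K.erase a).erase x)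
      ((erase_subset _ _).trans (erase_subset _ _)) (by
        have := pred_card_le_card_erase (s := K) (a := a)
        have := pred_card_le_card_erase (s := K.erase a) (a := x)
        omega)
    simp only [mem_erase] at hv hy hu
    have g := c.ga.mul c'.ga
    have m := move h c c' ne hp
    have f1 : (T x * z) p = p := by rw [Perm.mul_apply, b.ga.com, e, zz h]
    have := triv h (M.mul_mem b.ga.mem h.hz) {a, x} {p, z p, (τ * τ') p} (by
      rw [card_eq_three.2 ⟨_, _, _, (z_ne h hp.1).symm, m.1.symm, m.2.symm, rfl⟩]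
      exact Nat.lt_succ_of_le card_le_two)
      (fun v hv hn => by
        simp only [mem_insert, mem_singleton, not_or] at hn
        rw [Perm.mul_apply, (h.fixz v).2 hv]
        exact b.rest v hv hn.1 hn.2)
      (fun w hw => by
        simp only [mem_insert, mem_singleton] at hw
        rcases hw with rfl | rfl | rfl
        · exact ⟨hp.1, f1⟩
        · exact ⟨z_out h hp.1, by rw [Perm.mul_apply, zz h, e]⟩
        · refine ⟨(hp.ga h g).1, ?_⟩
          rw [Perm.mul_apply, ← g.com, Perm.mul_apply, b.comm h c hv.2.1 hv.1 hy.2.1 hy.1,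
            b.comm h c' hv.2.1 hv.1 hu.2.1 hu.1, ← Perm.mul_apply (T x) z, f1, Perm.mul_apply])
    have e3 : (T x * z) p₀ = p₀ := by rw [this]; rfl
    rw [Perm.mul_apply, b.ga.com, b.ga.fix] at e3
    exact z_ne h h.hp e3
  have := pig h W (fun x => if a = x then p else T x p) (fun x hx => by
    split_ifs with c
    · exact hp
    · exact hp.ga h (hT x hx c).ga) fun x hx y hy xy => by
    by_cases c : a = x <;> by_cases c' : a = y
    · exact absurd (c.symm.trans c') xy
    · simp only [if_pos c, if_neg c']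
      exact ⟨(n1 y hy c').symm, fun e => n2 y hy c' (by rw [← z.injective.eq_iff, zz h, ← e])⟩
    · simp only [if_neg c, if_pos c']
      exact ⟨n1 x hx c, n2 x hx c⟩
    · simp only [if_neg c, if_neg c']
      have b := hT x hx c
      have b' := hT y hy c'
      have m := move h b' b (Ne.symm xy) hp
      exact ⟨fun e => m.1 (by rw [Perm.mul_apply, e, b'.sq h]),
        fun e => m.2 (by rw [Perm.mul_apply, e, b'.ga.com, b'.sq h])⟩
  omega

end Pool.Agent.H5Hom
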