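import Pool.Agent.Lib.MP_078193_al.MBlue

/-! The local situation for the prime three. -/

open Finset Equiv
open scoped Pointwise

set_option linter.unusedSectionVars false

namespace Pool.Agent.H5Hom

namespace Qn3

variable {β : Type} [Fintype β] [DecidableEq β]

/-- elements commuting with `z` and fixing `p₀` -/
def LL (M : Subgroup (Perm β)) (z : Perm β) (p₀ : β) : Subgroup (Perm β) where
  carrier := {g | g ∈ M ∧ g * z = z * g ∧ g p₀ = p₀}
  mul_mem' := by
    rintro a b ⟨a1, a2, a3⟩ ⟨b1, b2, b3⟩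
    refine ⟨M.mul_mem a1 b1, ?_, ?_⟩
    · rw [mul_assoc, b2, ← mul_assoc, a2, mul_assoc]
    · rw [Perm.mul_apply, b3, a3]
  one_mem' := ⟨M.one_mem, by simp, rfl⟩
  inv_mem' := by
    rintro a ⟨a1, a2, a3⟩
    refine ⟨M.inv_mem a1, ?_, ?_⟩
    · exact (Commute.inv_left (show Commute a z from a2))
    · rw [Perm.inv_eq_iff_eq, a3]

variable {M : Subgroup (Perm β)} {z : Perm β} {p₀ : β} {K : Finset β} {t k : ℕ}

lemma comm_ap {g : Perm β} (hg : g ∈ LL M z p₀) (x : β) : g (z x) = z (g x) := by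
  have := congrArg (fun f : Perm β => f x) hg.2.1
  simpa using this

lemma comm_pow {g : Perm β} (hg : g ∈ LL M z p₀) (j : ℕ) (x : β) :
    g ((z ^ j) x) = (z ^ j) (g x) := by
  have h : Commute g (z ^ j) := Commute.pow_right (show Commute g z from hg.2.1) j
  have := congrArg (fun f : Perm β => f x) h.eq
  simpa using this

lemma memK (h : ZW M t 3 k z K p₀) {g : Perm β} (hg : g ∈ LL M z p₀) (x : β) :
    g x ∈ K ↔ x ∈ K := by
  rw [← h.fixz, ← h.fixz, ← comm_ap hg, g.injective.eq_iff]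

lemma inv_K (h : ZW M t 3 k z K p₀) : Inv (LL M z p₀) K :=
  fun _ hg x hx => (memK h hg x).2 hx

lemma z3 (h : ZW M t 3 k z K p₀) (x : β) : z (z (z x)) = x := by
  have := congrArg (fun f : Perm β => f x) h.zq
  simpa [pow_succ] using this

lemma zK (h : ZW M t 3 k z K p₀) (x : β) : z x ∈ K ↔ x ∈ K := by
  rw [← h.fixz, ← h.fixz, z.injective.eq_iff]

lemma ne1 (h : ZW M t 3 k z K p₀) {x : β} (hx : x ∉ K) : z x ≠ x := fun e => hx ((h.fixz x).1 e)

lemma ne2 (h : ZW M t 3 k z K p₀) {x : β} (hx : x ∉ K) : z (z x) ≠ x := by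
  intro e
  have := z3 h x
  rw [e] at this
  exact ne1 h hx this

lemma ne3 (h : ZW M t 3 k z K p₀) {x : β} (hx : x ∉ K) : z (z x) ≠ z x :=
  fun e => ne1 h hx (z.injective e)

/-- the cycle of a point -/
def cy (z : Perm β) (x : β) : Finset β := {x, z x, z (z x)}

lemma card_cy (h : ZW M t 3 k z K p₀) {x : β} (hx : x ∉ K) : (cy z x).card = 3 :=
  card_eq_three.2 ⟨x, z x, z (z x), (ne1 h hx).symm, (ne2 h hx).symm, (ne3 h hx).symm, rfl⟩

lemma mem_cy {x y : β} : y ∈ cy z x ↔ y = x ∨ y = z x ∨ y = z (z x) := by simp [cy]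

lemma disj_cy (h : ZW M t 3 k z K p₀) {x : β} (hx : x ∉ K) : Disjoint K (cy z x) := by
  rw [disjoint_right]
  intro y hy hK
  rcases mem_cy.1 hy with rfl | rfl | rfl
  · exact hx hK
  · exact hx ((zK h _).1 hK)
  · exact hx ((zK h _).1 ((zK h _).1 hK))

lemma fix_cy {g : Perm β} (hg : g ∈ LL M z p₀) {y : β} (hy : y ∈ cy z p₀) : g y = y := by
  rcases mem_cy.1 hy with rfl | rfl | rfl
  · exact hg.2.2
  · rw [comm_ap hg, hg.2.2]
  · rw [comm_ap hg, comm_ap hg, hg.2.2]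

lemma z_cy (h : ZW M t 3 k z K p₀) {x y : β} (hy : z y ∈ cy z x) : y ∈ cy z x := by
  rw [mem_cy] at hy ⊢
  rcases hy with e | e | e
  · right; right
    rw [← e, z3 h]
  · left; exact z.injective e
  · right; left; exact z.injective e

lemma disj_cy2 (h : ZW M t 3 k z K p₀) {x y : β} (hy : y ∉ cy z x) :
    Disjoint (cy z x) (cy z y) := by
  rw [disjoint_right]
  intro u hu hx
  rcases mem_cy.1 hu with rfl | rfl | rfl
  · exact hy hx
  · exact hy (z_cy h hx)
  · exact hy (z_cy h (z_cy h hx))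

lemma t3_of (h : ZW M t 3 k z K p₀) (S : Finset β) (hS : S ⊆ K) (hc : S.card = 5) :
    ∃ a ∈ S, ∃ b ∈ S, ∃ c ∈ S, T3 (LL M z p₀) K a b c := by
  obtain ⟨w, hw, w1, w2, w3, w4, w5⟩ := h.cyc S hS (by omega)
  have hL : w ∈ LL M z p₀ := ⟨hw, w1, w3⟩
  have w3' : ∀ x, w (w (w x)) = x := fun x => by
    have := congrArg (fun f : Perm β => f x) w2
    simpa [pow_succ] using this
  obtain ⟨a, ha⟩ : (supp K w).Nonempty := card_pos.1 (by omega)
  have hb := apply_mem_supp (inv_K h) hL ha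
  have hc' := apply_mem_supp (inv_K h) hL hb
  have n1 : a ≠ w a := fun e => (mem_supp.1 ha).2 e.symm
  have n2 : w a ≠ w (w a) := fun e => n1 (w.injective e)
  have n3 : a ≠ w (w a) := by
    intro e
    have := w3' a
    rw [← e] at this
    exact n1 this.symm
  have hs : ({a, w a, w (w a)} : Finset β) = supp K w := by
    refine eq_of_subset_of_card_le ?_ ?_
    · intro x hx
      simp only [mem_insert, mem_singleton] at hx
      rcases hx with rfl | rfl | rfl <;> assumption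
    · rw [w5, card_eq_three.2 ⟨a, w a, w (w a), n1, n3, n2, rfl⟩]
  refine ⟨a, w4 ha, w a, w4 hb, w (w a), w4 hc', (mem_supp.1 ha).1, (mem_supp.1 hb).1,
    (mem_supp.1 hc').1, n1, n3, n2, w, hL, rfl, rfl, w3' a, fun x hx x1 x2 x3 => ?_⟩
  by_contra hne
  have : x ∈ supp K w := mem_supp.2 ⟨hx, hne⟩
  rw [← hs] at this
  simp only [mem_insert, mem_singleton] at this
  tauto

/-- `δ` acts on `K` as the cycle `(b x y)` -/
def Cy3 (K : Finset β) (δ : Perm β) (b x y : β) : Prop :=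
  δ b = x ∧ δ x = y ∧ δ y = b ∧ ∀ u ∈ K, u ≠ b → u ≠ x → u ≠ y → δ u = u

lemma two_pairs (h : ZW M t 3 k z K p₀) {p b x y x' y' : β} (hp : p ∉ K) (hp' : p ∉ cy z p₀)
    {δ δ' : Perm β} (hδ : δ ∈ LL M z p₀) (hδ' : δ' ∈ LL M z p₀) {j j' : ℕ}
    (e : δ p = (z ^ j) p) (e' : δ' p = (z ^ j') p) (c : Cy3 K δ b x y) (c' : Cy3 K δ' b x' y')
    (hx : x ≠ b) (hx' : x' ∈ K) (hy' : y' ∈ K) (bx' : x' ≠ b) (by' : y' ≠ b) :
    (x' = x ∨ x' = y) ∧ (y' = x ∨ y' = y) := by
  have hcomm : δ⁻¹ * δ'⁻¹ * δ * δ' = 1 := by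
    refine h.qn.triv _ (M.mul_mem (M.mul_mem (M.mul_mem (M.inv_mem hδ.1) (M.inv_mem hδ'.1)) hδ.1)
      hδ'.1) ((K \ {b, x, y, x', y'}) ∪ (cy z p₀ ∪ cy z p)) ?_ ?_
    · have d1 : Disjoint (K \ {b, x, y, x', y'}) (cy z p₀ ∪ cy z p) :=
        disjoint_of_subset_left sdiff_subset
          (disjoint_union_right.2 ⟨disj_cy h h.hp, disj_cy h hp⟩)
      rw [card_union_of_disjoint d1, card_union_of_disjoint (disj_cy2 h hp'), card_cy h h.hp,
        card_cy h hp]
      have h1 := le_card_sdiff ({b, x, y, x', y'} : Finset β) K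
      have h2 : ({b, x, y, x', y'} : Finset β).card ≤ 5 := card_le_five
      have := h.hK
      omega
    · intro u hu
      have key : δ (δ' u) = δ' (δ u) := by
        rcases mem_union.1 hu with hu | hu
        · obtain ⟨u1, u2⟩ := mem_sdiff.1 hu
          simp only [mem_insert, mem_singleton, not_or] at u2
          obtain ⟨n1, n2, n3, n4, n5⟩ := u2
          rw [c'.2.2.2 u u1 n1 n4 n5, c.2.2.2 u u1 n1 n2 n3, c'.2.2.2 u u1 n1 n4 n5]
        · rcases mem_union.1 hu with hu | hu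
          · rw [fix_cy hδ hu, fix_cy hδ' hu, fix_cy hδ hu]
          · have k0 : δ (δ' p) = δ' (δ p) := by
              rw [e, e', comm_pow hδ, comm_pow hδ', e, e', ← Perm.mul_apply, ← Perm.mul_apply,
                ← pow_add, ← pow_add, add_comm]
            rcases mem_cy.1 hu with rfl | rfl | rfl
            · exact k0
            · rw [comm_ap hδ', comm_ap hδ, comm_ap hδ, comm_ap hδ', k0]
            · rw [comm_ap hδ', comm_ap hδ', comm_ap hδ, comm_ap hδ, comm_ap hδ, comm_ap hδ,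
                comm_ap hδ', comm_ap hδ', k0]
      simp only [Perm.mul_apply]
      rw [key]
      simp
  have hc : ∀ u, δ (δ' u) = δ' (δ u) := by
    intro u
    have := congrArg (fun f : Perm β => δ' (δ (f u))) hcomm
    simpa using this
  constructor
  · by_contra hn
    push Not at hn
    have := hc b
    rw [c'.1, c.1, c.2.2.2 x' hx' bx' hn.1 hn.2, ← c'.1] at this
    exact hx (δ'.injective this).symm
  · by_contra hn
    push Not at hn
    have := hc y'
    rw [c'.2.2.1, c.1, c.2.2.2 y' hy' by' hn.1 hn.2, c'.2.2.1] at this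
    exact hx this

lemma no_W (h : ZW M t 3 k z K p₀) (hk : 3 ≤ k) {W : Finset β} (hW : W ⊆ K)
    (hT : ∀ a ∈ W, ∀ b ∈ W, ∀ c ∈ W, a ≠ b → a ≠ c → b ≠ c → T3 (LL M z p₀) K a b c)
    (hc : K.card ≤ 2 * W.card) : False := by
  have hK := h.hK
  have hn := h.qn.hc
  have hk' := h.qn.hk
  obtain ⟨a, ha, b, hb, hab⟩ := one_lt_card.1 (show 1 < W.card by omega)
  -- the elements
  have hγ : ∀ x, ∃ g ∈ LL M z p₀, (x = a → g = 1) ∧ (x ∈ W → x ≠ a → x ≠ b → Cy3 K g a b x) := by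
    intro x
    by_cases hx : x ∈ W ∧ x ≠ a ∧ x ≠ b
    · obtain ⟨-, -, -, -, -, -, g, hg, g1⟩ := hT a ha b hb x hx.1 hab hx.2.1.symm hx.2.2.symm
      exact ⟨g, hg, fun e => absurd e hx.2.1, fun _ _ _ => g1⟩
    · exact ⟨1, Subgroup.one_mem _, fun _ => rfl, fun a1 a2 a3 => absurd ⟨a1, a2, a3⟩ hx⟩
  choose γ γL γ1 γ2 using hγ
  have hδ : ∀ x ∈ W.erase b, ∀ y ∈ W.erase b, x ≠ y → Cy3 K ((γ y)⁻¹ * γ x) b x y := by
    intro x hx y hy hxy
    obtain ⟨xb, xW⟩ := mem_erase.1 hx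
    obtain ⟨yb, yW⟩ := mem_erase.1 hy
    unfold Cy3
    simp only [Perm.mul_apply, Perm.inv_eq_iff_eq]
    by_cases xa : x = a
    · have ya : y ≠ a := fun e => hxy (xa.trans e.symm)
      obtain ⟨c1, c2, c3, c4⟩ := γ2 y yW ya yb
      rw [γ1 x xa, xa]
      exact ⟨c1.symm, c3.symm, c2.symm, fun u hu u1 u2 u3 => (c4 u hu u2 u1 u3).symm⟩
    · obtain ⟨c1, c2, c3, c4⟩ := γ2 x xW xa xb
      by_cases ya : y = a
      · rw [γ1 y ya, ya]
        exact ⟨c2, c3, c1, fun u hu u1 u2 u3 => c4 u hu u3 u1 u2⟩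
      · obtain ⟨d1, d2, d3, d4⟩ := γ2 y yW ya yb
        refine ⟨?_, ?_, ?_, fun u hu u1 u2 u3 => ?_⟩
        · rw [c2, d4 x (hW xW) xa xb hxy]
        · rw [c3, d3]
        · rw [c4 y (hW yW) ya yb (Ne.symm hxy), d2]
        · by_cases ua : u = a
          · rw [ua, c1, d1]
          · rw [c4 u hu ua u1 u2, d4 u hu ua u1 u3]
  -- the remaining points
  set Ψ : Finset β := univ \ (K ∪ cy z p₀) with hΨ
  have cΨ : Ψ.card = 3 * k := by
    rw [hΨ, card_univ_sdiff, card_union_of_disjoint (disj_cy h h.hp), card_cy h h.hp]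
    omega
  have mΨ : ∀ y, y ∈ Ψ ↔ y ∉ K ∧ y ∉ cy z p₀ := by
    intro y
    simp [hΨ]
  obtain ⟨p, hp⟩ : Ψ.Nonempty := card_pos.1 (by omega)
  have gΨ : ∀ g ∈ LL M z p₀, ∀ y ∈ Ψ, g y ∈ Ψ := by
    intro g hg y hy
    obtain ⟨y1, y2⟩ := (mΨ y).1 hy
    refine (mΨ _).2 ⟨fun e => y1 ((memK h hg y).1 e), fun e => y2 ?_⟩
    have := fix_cy hg e
    rwa [g.injective this] at e
  have zΨ : ∀ (i : ℕ), ∀ y ∈ Ψ, (z ^ i) y ∈ Ψ := by
    intro i
    induction i with
    | zero => intro y hy; simpa using hy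
    | succ i ih =>
      intro y hy
      obtain ⟨y1, y2⟩ := (mΨ _).1 (ih y hy)
      rw [pow_succ', Perm.mul_apply]
      exact (mΨ _).2 ⟨fun e => y1 ((zK h _).1 e), fun e => y2 (z_cy h e)⟩
  have col : ∀ x y (j : ℕ), γ x p = (z ^ j) (γ y p) → ((γ y)⁻¹ * γ x) p = (z ^ j) p := by
    intro x y j e
    rw [Perm.mul_apply, Perm.inv_eq_iff_eq, e, comm_pow (γL y)]
  obtain ⟨X, hX, cX, nX⟩ : ∃ X ⊆ W.erase b, W.card ≤ X.card + 2 ∧
      ∀ x ∈ X, ∀ y ∈ X, ∀ j : ℕ, γ x p = (z ^ j) (γ y p) → x = y := by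
    have c1 := card_erase_of_mem hb
    by_cases hcol : ∃ x ∈ W.erase b, ∃ y ∈ W.erase b, x ≠ y ∧ ∃ j : ℕ, γ x p = (z ^ j) (γ y p)
    · obtain ⟨x, hx, y, hy, hxy, j, e⟩ := hcol
      refine ⟨(W.erase b).erase x, erase_subset _ _, ?_, ?_⟩
      · rw [card_erase_of_mem hx]; omega
      · intro x' hx' y' hy' j' e'
        by_contra hne
        obtain ⟨x1, x2⟩ := mem_erase.1 hx'
        obtain ⟨y1, y2⟩ := mem_erase.1 hy'
        have := two_pairs h ((mΨ p).1 hp).1 ((mΨ p).1 hp).2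
          (Subgroup.mul_mem _ (Subgroup.inv_mem _ (γL y)) (γL x))
          (Subgroup.mul_mem _ (Subgroup.inv_mem _ (γL y')) (γL x'))
          (col x y j e) (col x' y' j' e') (hδ x hx y hy hxy) (hδ x' x2 y' y2 hne)
          (mem_erase.1 hx).1 (hW (mem_erase.1 x2).2) (hW (mem_erase.1 y2).2)
          (mem_erase.1 x2).1 (mem_erase.1 y2).1
        obtain ⟨r1, r2⟩ := this
        exact hne ((r1.resolve_left x1).trans (r2.resolve_left y1).symm)
    · refine ⟨W.erase b, Subset.refl _, by omega, fun x hx y hy j e => ?_⟩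
      by_contra hne
      exact hcol ⟨x, hx, y, hy, hne, j, e⟩
  have hle : (X ×ˢ range 3).card ≤ Ψ.card := by
    refine card_le_card_of_injOn (fun r => (z ^ r.2) (γ r.1 p)) ?_ ?_
    · intro r _
      exact zΨ _ _ (gΨ _ (γL _) _ hp)
    · rintro ⟨x, i⟩ hx ⟨y, j⟩ hy e
      simp only [coe_product, Set.mem_prod, mem_coe, mem_range] at hx hy
      simp only at e
      have e2 : γ x p = (z ^ (3 - i + j)) (γ y p) := by
        rw [pow_add, Perm.mul_apply, ← e, ← Perm.mul_apply, ← pow_add,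
          show 3 - i + i = 3 by omega, h.zq, Perm.one_apply]
      obtain rfl := nX x hx.1 y hy.1 _ e2
      have hq := ((mΨ _).1 (gΨ _ (γL x) _ hp)).1
      have n1 := ne1 h hq
      have n2 := ne2 h hq
      have n3 := ne3 h hq
      obtain ⟨-, hi⟩ := hx
      obtain ⟨-, hj⟩ := hy
      congr 1
      interval_cases i <;> interval_cases j <;> simp [pow_succ] at e ⊢ <;>
        first | exact n1 e | exact n1 e.symm | exact n2 e | exact n2 e.symm
  rw [card_product, card_range] at hle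
  omega

end Qn3

open Qn3 in
theorem qn3_of (htri : St_tri) : St_qn3 := by
  intro β _ _ M t k z K p₀ hk h
  have hK := h.hK
  have hk' := h.qn.hk
  obtain ⟨W₁, s1, W₂, s2, -, -, t1, t2, -, hc⟩ :=
    htri β (LL M z p₀) K (inv_K h) (by omega) (t3_of h)
  rcases hc with ⟨-, hc⟩ | ⟨-, hc⟩
  · exact no_W h hk s1 t1 (by omega)
  · have := card_union_le W₁ W₂
    rw [hc] at this
    rcases le_total W₁.card W₂.card with l | l
    · exact no_W h hk s2 t2 (by omega)
    · exact no_W h hk s1 t1 (by omega)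

end Pool.Agent.H5Hom
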