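import Pool.Agent.Lib.MP_078193_al.MBlue

/-! Commuting cycles of prime length on the fixed set of an element of that order. -/

open Finset Equiv
open scoped Pointwise

set_option linter.unusedSectionVars false

namespace Pool.Agent.H5Hom

namespace QN5

variable {β : Type} [Fintype β] [DecidableEq β]

/-- a family of `q`-sets without one-point intersections misses some `(2q-1)`-set -/
lemma comb {K : Finset β} {q : ℕ} (hq : 2 ≤ q) (P : Finset β → Prop)
    (hP : ∀ U, P U → U.card = q)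
    (h1 : ∀ U U', P U → P U' → (U ∩ U').card ≠ 1)
    (hS : ∀ S ⊆ K, S.card + 1 = 2 * q → ∃ U ⊆ S, P U)
    (hK : (q + 1) * q ≤ K.card + 1) : False := by
  have key : ∀ m, m + 1 ≤ q → ∃ R ⊆ K, K.card ≤ R.card + m * q ∧
      ∀ S ⊆ R, S.card + 1 + m = 2 * q → ∃ U ⊆ S, P U := by
    intro m
    induction m with
    | zero => exact fun _ => ⟨K, Subset.rfl, by simp, fun S h h' => hS S h (by omega)⟩
    | succ m ih =>
      intro hm
      obtain ⟨R, hR, hc, hR'⟩ := ih (by omega)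
      have hmq : (m + 2) * q ≤ q * q := Nat.mul_le_mul_right _ hm
      obtain ⟨S, hS1, hS2⟩ := exists_subset_card_eq (s := R) (n := 2 * q - 1 - m) (by
        have : (q + 1) * q = q * q + q := by ring
        have : (m + 2) * q = m * q + 2 * q := by ring
        omega)
      obtain ⟨U, hU, hPU⟩ := hR' S hS1 (by omega)
      have hUc := hP U hPU
      have hUR : U ⊆ R := hU.trans hS1
      refine ⟨R \ U, sdiff_subset.trans hR, ?_, fun T hT hT' => ?_⟩
      · have := card_sdiff_add_card_eq_card hUR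
        have : (m + 1) * q = m * q + q := by ring
        omega
      · obtain ⟨a, ha⟩ : U.Nonempty := card_pos.1 (by omega)
        have haT : a ∉ T := fun h => (mem_sdiff.1 (hT h)).2 ha
        obtain ⟨U', hU', hPU'⟩ := hR' (insert a T)
          (insert_subset (hUR ha) (hT.trans sdiff_subset))
          (by rw [card_insert_of_notMem haT]; omega)
        refine ⟨U', fun x hx => ?_, hPU'⟩
        rcases mem_insert.1 (hU' hx) with rfl | h
        · exfalso
          refine h1 U U' hPU hPU' (card_eq_one.2 ⟨x, ?_⟩)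
          refine eq_singleton_iff_unique_mem.2 ⟨mem_inter.2 ⟨ha, hx⟩, fun y hy => ?_⟩
          rcases mem_insert.1 (hU' (mem_inter.1 hy).2) with h | h
          · exact h
          · exact absurd (mem_inter.1 hy).1 (mem_sdiff.1 (hT h)).2
        · exact h
  obtain ⟨q, rfl⟩ : ∃ q', q = q' + 1 := ⟨q - 1, by omega⟩
  obtain ⟨R, -, hc, hR⟩ := key q le_rfl
  have hall : ∀ V ⊆ R, V.card = q + 1 → P V := fun V hV hV' => by
    obtain ⟨U, hU, hPU⟩ := hR V hV (by omega)
    rwa [← eq_of_subset_of_card_le hU (by rw [hP U hPU, hV'])]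
  obtain ⟨S, hS1, hS2⟩ := exists_subset_card_eq (s := R) (n := 2 * q + 1) (by
    have : (q + 1 + 1) * (q + 1) = q * (q + 1) + 2 * q + 2 := by ring
    omega)
  obtain ⟨V, hV1, hV2⟩ := exists_subset_card_eq (s := S) (n := q + 1) (by omega)
  obtain ⟨v, hv⟩ : V.Nonempty := card_pos.1 (by omega)
  have hv' : v ∉ S \ V := fun h => (mem_sdiff.1 h).2 hv
  refine h1 V (insert v (S \ V)) (hall V (hV1.trans hS1) hV2)
    (hall _ (insert_subset (hS1 (hV1 hv)) (sdiff_subset.trans hS1)) ?_) (card_eq_one.2 ⟨v, ?_⟩)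
  · have := card_sdiff_add_card_eq_card hV1
    rw [card_insert_of_notMem hv']; omega
  · refine eq_singleton_iff_unique_mem.2 ⟨mem_inter.2 ⟨hv, mem_insert_self _ _⟩, fun y hy => ?_⟩
    rcases mem_insert.1 (mem_inter.1 hy).2 with h | h
    · exact h
    · exact absurd (mem_inter.1 hy).1 (mem_sdiff.1 h).2

lemma comm_pow {w z : Perm β} (h : w * z = z * w) (i j : ℕ) (x : β) :
    (w ^ i) ((z ^ j) x) = (z ^ j) ((w ^ i) x) := by
  have : Commute w z := h
  rw [← Perm.mul_apply, (this.pow_pow i j).eq, Perm.mul_apply]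

lemma comm_one {w z : Perm β} (h : w * z = z * w) (j : ℕ) (x : β) :
    w ((z ^ j) x) = (z ^ j) (w x) := by
  simpa using comm_pow h 1 j x

lemma per_eq {z : Perm β} {q : ℕ} (hq : q.Prime) (hz : z ^ q = 1) {p : β} (hp : z p ≠ p) :
    per z p = q := by
  have h1 : per z p ∣ q := per_dvd.1 (by rw [hz]; rfl)
  rcases (Nat.dvd_prime hq).1 h1 with h | h
  · exact absurd (by simpa using (per_dvd (g := z) (x := p) (m := 1)).2 (by rw [h])) hp
  · exact h

lemma pow_inj {z : Perm β} {q : ℕ} (hq : q.Prime) (hz : z ^ q = 1) {p : β} (hp : z p ≠ p)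
    {i j : ℕ} (hi : i < q) (hj : j < q) (h : (z ^ i) p = (z ^ j) p) : i = j := by
  wlog hij : i ≤ j generalizing i j
  · exact (this hj hi h.symm (by omega)).symm
  obtain ⟨d, rfl⟩ := Nat.exists_eq_add_of_le hij
  rw [pow_add, Perm.mul_apply] at h
  have h2 := per_dvd.1 ((z ^ i).injective h).symm
  rw [per_eq hq hz hp] at h2
  have := Nat.eq_zero_of_dvd_of_lt h2 (by omega)
  omega

lemma undo {z : Perm β} {q : ℕ} (hq : q.Prime) (hz : z ^ q = 1) {j : ℕ} {x y : β}
    (h : (z ^ j) x = y) : x = (z ^ (j * (q - 1))) y := by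
  have h1 : j * (q - 1) + j = q * j := by
    obtain ⟨r, rfl⟩ : ∃ r, q = r + 1 := ⟨q - 1, by have := hq.pos; omega⟩
    simp only [Nat.add_sub_cancel]; ring
  rw [← h, ← Perm.mul_apply, ← pow_add, h1, pow_mul, hz, one_pow, Perm.one_apply]

lemma root {w z : Perm β} {q : ℕ} (hq : q.Prime) (hw : w ^ q = 1) (h : w * z = z * w) {p : β}
    {d m : ℕ} (hd : 0 < d) (hd' : d < q) (hp : (w ^ d) p = (z ^ m) p) :
    ∃ j : ℕ, w p = (z ^ j) p := by
  have h1 : ∀ n, (w ^ (d * n)) p = (z ^ (m * n)) p := by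
    intro n
    induction n with
    | zero => simp
    | succ n ih =>
      rw [Nat.mul_succ, Nat.mul_succ, add_comm (d * n), pow_add, Perm.mul_apply, ih, comm_pow h,
        hp, pow_add, Perm.mul_apply]
  obtain ⟨n, -, hn⟩ := Nat.exists_mul_mod_eq_one_of_coprime
    (Nat.coprime_comm.1 ((Nat.Prime.coprime_iff_not_dvd hq).2
      (Nat.not_dvd_of_pos_of_lt hd hd'))) hq.one_lt
  refine ⟨m * n, ?_⟩
  rw [← h1, ← Nat.div_add_mod (d * n) q, hn, pow_add, pow_mul, hw, one_pow, one_mul, pow_one]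

/-- the cycle of `p` -/
def cyc (z : Perm β) (q : ℕ) (p : β) : Finset β := (range q).image (fun j => (z ^ j) p)

lemma card_cyc {z : Perm β} {q : ℕ} (hq : q.Prime) (hz : z ^ q = 1) {p : β} (hp : z p ≠ p) :
    (cyc z q p).card = q := by
  rw [cyc, card_image_of_injOn, card_range]
  intro i hi j hj h
  exact pow_inj hq hz hp (by simpa using hi) (by simpa using hj) h

lemma mem_cyc {z : Perm β} {q : ℕ} (hq : q.Prime) (hz : z ^ q = 1) {p x : β} :
    x ∈ cyc z q p ↔ ∃ j : ℕ, (z ^ j) p = x := by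
  rw [cyc, mem_image]
  refine ⟨fun ⟨j, _, h⟩ => ⟨j, h⟩, fun ⟨j, h⟩ => ⟨j % q, mem_range.2 (Nat.mod_lt _ hq.pos), ?_⟩⟩
  rw [← h]
  conv_rhs => rw [← Nat.div_add_mod j q, pow_add, pow_mul, hz, one_pow, one_mul]

variable {M : Subgroup (Perm β)} {t q k : ℕ} {z : Perm β} {K : Finset β} {p₀ : β}

lemma mem_iff (h : ZW M t q k z K p₀) {w : Perm β} (hw : w * z = z * w) {x : β} :
    w x ∈ K ↔ x ∈ K := by
  have : w (z x) = z (w x) := by rw [← Perm.mul_apply, hw, Perm.mul_apply]
  rw [← h.fixz, ← h.fixz, ← this, w.injective.eq_iff]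

lemma pow_mem_iff (h : ZW M t q k z K p₀) {w : Perm β} (hw : w * z = z * w) (i : ℕ) {x : β} :
    (w ^ i) x ∈ K ↔ x ∈ K :=
  mem_iff h ((show Commute w z from hw).pow_left i).eq

lemma card_compl' (h : ZW M t q k z K p₀) : Kᶜ.card = (k + 1) * q := by
  have h1 := h.qn.hc
  have h2 := h.hK
  have h3 := card_le_univ K
  rw [card_compl]; omega

lemma cyc_sub (h : ZW M t q k z K p₀) : cyc z q p₀ ⊆ Kᶜ := by
  intro x hx
  obtain ⟨j, rfl⟩ := (mem_cyc h.qn.prime h.zq).1 hx
  exact mem_compl.2 fun h' => h.hp ((pow_mem_iff h rfl j).1 h')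

lemma fix_cyc (h : ZW M t q k z K p₀) {w : Perm β} (hw : w * z = z * w) (hp : w p₀ = p₀) :
    ∀ x ∈ cyc z q p₀, w x = x := by
  intro x hx
  obtain ⟨j, rfl⟩ := (mem_cyc h.qn.prime h.zq).1 hx
  rw [comm_one hw, hp]

omit [Fintype β] [DecidableEq β] in
lemma comm_fix {a b : Perm β} {x : β} (ha : a x = x) (hb : b x = x) :
    (a * b * a⁻¹ * b⁻¹) x = x := by
  have ha' : a⁻¹ x = x := Perm.inv_eq_iff_eq.2 ha.symm
  have hb' : b⁻¹ x = x := Perm.inv_eq_iff_eq.2 hb.symm
  simp only [Perm.mul_apply, ha', hb', ha, hb]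

lemma dj1 (h : ZW M t q k z K p₀) (hk : k < q) {w : Perm β} (hw : w * z = z * w)
    (hwq : w ^ q = 1) (hp₀ : w p₀ = p₀) {p : β} (hp : p ∉ K) : ∃ j : ℕ, w p = (z ^ j) p := by
  have hq := h.qn.prime
  by_cases hc : p ∈ cyc z q p₀
  · exact ⟨0, by simpa using fix_cyc h hw hp₀ p hc⟩
  have hzp : z p ≠ p := fun h' => hp ((h.fixz p).1 h')
  have hcard : (Kᶜ \ cyc z q p₀).card < (range q ×ˢ range q).card := by
    have h1 := card_sdiff_add_card_eq_card (cyc_sub h)
    rw [card_cyc hq h.zq (fun h' => h.hp ((h.fixz _).1 h')), card_compl' h] at h1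
    rw [card_product, card_range]
    have h2 : k * q < q * q := Nat.mul_lt_mul_of_pos_right hk hq.pos
    have h3 : (k + 1) * q = k * q + q := by ring
    omega
  obtain ⟨⟨i, j⟩, hij, ⟨i', j'⟩, hij', hne, he⟩ := exists_ne_map_eq_of_card_lt_of_maps_to hcard
    (f := fun ij : ℕ × ℕ => (w ^ ij.1) ((z ^ ij.2) p)) (by
      rintro ⟨i, j⟩ -
      refine mem_coe.2 (mem_sdiff.2 ⟨mem_compl.2 fun h' => hp ?_, fun h' => hc ?_⟩)
      · exact (pow_mem_iff h rfl j).1 ((pow_mem_iff h hw i).1 h')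
      · have h1 := fix_cyc h ((show Commute w z from hw).pow_left i).eq
          (Perm.pow_apply_eq_self_of_apply_eq_self hp₀ i) _ h'
        have h2 := (w ^ i).injective h1
        dsimp only at h' h2
        rw [h2] at h'
        obtain ⟨m, hm⟩ := (mem_cyc hq h.zq).1 h'
        refine (mem_cyc hq h.zq).2 ⟨j * (q - 1) + m, ?_⟩
        rw [pow_add, Perm.mul_apply]
        exact (undo hq h.zq hm.symm).symm)
  simp only [mem_product, mem_range] at hij hij' he
  wlog hle : i ≤ i' generalizing i j i' j'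
  · exact this i' j' i j hne.symm he.symm hij' hij (by omega)
  obtain ⟨d, rfl⟩ := Nat.exists_eq_add_of_le hle
  rw [pow_add, Perm.mul_apply] at he
  have h2 := (w ^ i).injective he
  rcases Nat.eq_zero_or_pos d with rfl | hd
  · rw [pow_zero, Perm.one_apply] at h2
    exact absurd (by rw [pow_inj hq h.zq hzp hij.2 hij'.2 h2, add_zero]) hne
  · rw [comm_pow hw] at h2
    refine root hq hwq hw hd (by omega) (m := j' * (q - 1) + j) ?_
    rw [pow_add, Perm.mul_apply]
    exact undo hq h.zq h2.symm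

end QN5

open QN5 in
theorem qn5_of (h1 : St_comm) : St_qn5 := by
  intro β _ _ M t q k z K p₀ h5 hk h
  have hq := h.qn.prime
  refine comb (K := K) hq.two_le (fun U => ∃ w ∈ M, w * z = z * w ∧ w p₀ = p₀ ∧
    supp K w = U ∧ U.card = q) (fun U ⟨_, _, _, _, _, hU⟩ => hU) ?_ (fun S hS hS' => ?_) ?_
  · rintro _ _ ⟨a, ha, haz, hap, rfl, -⟩ ⟨b, hb, hbz, hbp, rfl, -⟩ hI
    obtain ⟨c1, c2, -, -⟩ := h1 β K a b (fun x hx => (mem_iff h haz).2 hx)
      (fun x hx => (mem_iff h hbz).2 hx)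
    have e1 : (supp K (a * b * a⁻¹ * b⁻¹)).card ≤ 3 := by
      refine (card_le_card c1).trans ((card_union_le _ _).trans ?_)
      have := card_union_le (supp K a ∩ supp K b) (a • (supp K a ∩ supp K b))
      rw [card_smul, hI] at *
      omega
    have e2 : a * b * a⁻¹ * b⁻¹ = 1 := by
      refine h.qn.triv _ (M.mul_mem (M.mul_mem (M.mul_mem ha hb) (M.inv_mem ha)) (M.inv_mem hb))
        (cyc z q p₀ ∪ (K \ supp K (a * b * a⁻¹ * b⁻¹))) ?_ fun x hx => ?_
      · rw [card_union_of_disjoint (disjoint_left.2 fun x hx hx' =>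
          mem_compl.1 (cyc_sub h hx) (mem_sdiff.1 hx').1),
          card_cyc hq h.zq (fun h' => h.hp ((h.fixz _).1 h'))]
        have := card_sdiff_add_card_eq_card (s := supp K (a * b * a⁻¹ * b⁻¹)) (t := K)
          (filter_subset _ _)
        have := h.hK
        omega
      · rcases mem_union.1 hx with hx | hx
        · exact comm_fix (fix_cyc h haz hap x hx) (fix_cyc h hbz hbp x hx)
        · by_contra h'
          exact (mem_sdiff.1 hx).2 (mem_supp.2 ⟨(mem_sdiff.1 hx).1, h'⟩)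
    obtain ⟨x, hx⟩ := c2 hI
    exact (mem_supp.1 hx).2 (by rw [e2]; rfl)
  · obtain ⟨w, hw, hwz, -, hwp, hs, hc⟩ := h.cyc S hS hS'
    exact ⟨_, hs, w, hw, hwz, hwp, rfl, hc⟩
  · rw [h.hK]
    exact (Nat.mul_le_mul_right q (by omega)).trans h.qn.hk

open QN5 in
theorem dj_of (h1 : St_comm) : St_dj := by
  intro β _ _ M t q k z K p₀ h
  refine ⟨fun hk w hw hwq hp₀ p hp => dj1 h hk hw hwq hp₀ hp, ?_⟩
  intro a ha b hb haz hbz haq hbq hpa hpb hca hcb
  have hq := h.qn.prime
  by_cases hd : Disjoint (supp K a) (supp K b)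
  · exact Or.inr hd
  left
  have hI : (supp K a ∩ supp K b).Nonempty := not_disjoint_iff_nonempty_inter.1 hd
  have e2 : a * b * a⁻¹ * b⁻¹ = 1 := by
    refine h.qn.triv _ (M.mul_mem (M.mul_mem (M.mul_mem ha hb) (M.inv_mem ha)) (M.inv_mem hb))
      (supp K a ∪ supp K b)ᶜ ?_ fun x hx => ?_
    · have i1 := card_union_add_card_inter (supp K a) (supp K b)
      have i2 := card_pos.2 hI
      have i3 := h.qn.hc
      have i4 : 2 * q ≤ (k + 1) * q := Nat.mul_le_mul_right q (by have := h.k1; omega)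
      rw [card_compl]
      omega
    · by_cases hxK : x ∈ K
      · have hx' := mem_compl.1 hx
        rw [mem_union, not_or, mem_supp, mem_supp] at hx'
        exact comm_fix (by_contra fun h' => hx'.1 ⟨hxK, h'⟩) (by_contra fun h' => hx'.2 ⟨hxK, h'⟩)
      · obtain ⟨y, rfl⟩ := b.surjective x
        obtain ⟨p, rfl⟩ := a.surjective y
        have hp : p ∉ K := fun h' => hxK ((mem_iff h hbz).2 ((mem_iff h haz).2 h'))
        obtain ⟨i, hi⟩ := hpa p hp
        obtain ⟨j, hj⟩ := hpb p hp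
        simp only [Perm.mul_apply, Perm.coe_inv, symm_apply_apply]
        have e1 : a (b p) = (z ^ j) ((z ^ i) p) := by rw [hj, comm_one haz, hi]
        have e3 : b (a p) = (z ^ i) ((z ^ j) p) := by rw [hi, comm_one hbz, hj]
        rw [e1, e3, comm_pow rfl]
  have hKa : ∀ x ∈ K, a x ∈ K := fun x hx => (mem_iff h haz).2 hx
  have hKb : ∀ x ∈ K, b x ∈ K := fun x hx => (mem_iff h hbz).2 hx
  obtain ⟨-, -, c3, c4⟩ := h1 β K a b hKa hKb
  obtain ⟨-, -, -, c5⟩ := h1 β K b a hKb hKa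
  obtain ⟨d1, d2⟩ := c3 (by
    rw [e2]
    exact eq_empty_of_forall_notMem fun x hx => (mem_supp.1 hx).2 rfl)
  exact (c4 q hq haq hca _ inter_subset_left hI d1).symm.trans
    (c5 q hq hbq hcb _ inter_subset_right hI d2)

end Pool.Agent.H5Hom
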