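import Pool.Agent.Lib.MP_078193_al.MBlue

/-! The case `3 ≤ q`, `k < q` of the local situation with many commuting `q`-cycles. -/

open Finset Equiv
open scoped Pointwise

set_option linter.unusedSectionVars false

namespace Pool.Agent.H5Hom

namespace QNS

variable {β : Type} [Fintype β] [DecidableEq β] {M : Subgroup (Perm β)} {t q : ℕ}
  {z z' w w' g : Perm β} {K K' : Finset β}

/-- an element of order dividing `q` with fixed set `K` of size `t - 1` -/
structure Zd (M : Subgroup (Perm β)) (t q : ℕ) (z : Perm β) (K : Finset β) : Prop where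
  hz : z ∈ M
  zq : z ^ q = 1
  fixz : ∀ x, z x = x ↔ x ∈ K
  hK : K.card + 1 = t

/-- a commuting element which is a `q`-cycle on `K` and preserves the cycles of `z` -/
structure Wd (M : Subgroup (Perm β)) (q : ℕ) (z : Perm β) (K : Finset β) (w : Perm β) : Prop where
  hw : w ∈ M
  cm : w * z = z * w
  wq : w ^ q = 1
  out : ∀ p ∉ K, ∃ j : ℕ, w p = (z ^ j) p
  sc : (supp K w).card = q

lemma supp_conj (g w : Perm β) (K : Finset β) :
    supp (g • K) (g * w * g⁻¹) = g • supp K w := by
  ext y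
  obtain ⟨x, rfl⟩ := g.surjective y
  rw [apply_mem_smul, mem_supp, mem_supp, apply_mem_smul]
  simp

lemma Zd.conj (h : Zd M t q z K) (hg : g ∈ M) : Zd M t q (g * z * g⁻¹) (g • K) := by
  refine ⟨M.mul_mem (M.mul_mem hg h.hz) (M.inv_mem hg), by rw [conj_pow, h.zq]; simp,
    fun y => ?_, by rw [card_smul]; exact h.hK⟩
  obtain ⟨x, rfl⟩ := g.surjective y
  rw [apply_mem_smul, ← h.fixz]
  simp

lemma Wd.conj (h : Wd M q z K w) (hg : g ∈ M) :
    Wd M q (g * z * g⁻¹) (g • K) (g * w * g⁻¹) := by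
  refine ⟨M.mul_mem (M.mul_mem hg h.hw) (M.inv_mem hg), ?_, by rw [conj_pow, h.wq]; simp,
    fun y hy => ?_, by rw [supp_conj, card_smul]; exact h.sc⟩
  · have : g * w * g⁻¹ * (g * z * g⁻¹) = g * (w * z) * g⁻¹ := by group
    rw [this, h.cm]
    group
  · obtain ⟨x, rfl⟩ := g.surjective y
    rw [apply_mem_smul] at hy
    obtain ⟨j, hj⟩ := h.out x hy
    exact ⟨j, by rw [conj_pow]; simp [hj]⟩

lemma Zd.fix_zp (h : Zd M t q z K) {u : Perm β} (hu : u ∈ Subgroup.zpowers z) {x : β}
    (hx : x ∈ K) : u x = x := by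
  obtain ⟨i, rfl⟩ := Subgroup.mem_zpowers_iff.1 hu
  exact Perm.zpow_apply_eq_self_of_apply_eq_self ((h.fixz x).2 hx) i

lemma Zd.fixs_eq (h : Zd M t q z K) : fixs (Subgroup.zpowers z) = K := by
  ext x
  rw [mem_fixs]
  exact ⟨fun hx => (h.fixz x).1 (hx z (Subgroup.mem_zpowers z)), fun hx u hu => h.fix_zp hu hx⟩

lemma Zd.card_zp (h : Zd M t q z K) (hq : q.Prime) {x : β} (hx : x ∉ K) :
    Nat.card (Subgroup.zpowers z) = q := by
  have : Fact q.Prime := ⟨hq⟩
  rw [Nat.card_zpowers]
  refine orderOf_eq_prime h.zq ?_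
  rintro rfl
  exact hx ((h.fixz x).1 rfl)

lemma Zd.syl (h : Zd M t q z K) (hq : q.Prime) (h3 : 3 ≤ q) (htr : Triv M t)
    (hc : Fintype.card β + 1 = t + 2 * q) : Syl q (fx M K) (Subgroup.zpowers z) := by
  have hK := h.hK
  obtain ⟨x, -, hx⟩ := exists_mem_notMem_of_card_lt_card (s := K) (t := univ)
    (by rw [card_univ]; omega)
  have hle : Subgroup.zpowers z ≤ fx M K := fun u hu =>
    ⟨(Subgroup.zpowers_le_of_mem h.hz) hu, fun y hy => h.fix_zp hu hy⟩
  refine ⟨hle, ?_⟩
  have h1 := Subgroup.card_dvd_of_le hle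
  rw [h.card_zp hq hx] at h1 ⊢
  have h2 := orb_fx_mul (H := M) K x
  rw [htr.card (by rw [card_insert_of_notMem hx]; omega), mul_one] at h2
  have h4 : orb (fx M K) x ⊆ univ \ K := by
    intro y hy
    obtain ⟨u, hu, rfl⟩ := mem_orb.1 hy
    refine mem_sdiff.2 ⟨mem_univ _, fun hy' => hx ?_⟩
    have := hu.2 _ hy'
    simp only [Perm.smul_def, EmbeddingLike.apply_eq_iff_eq] at this hy'
    rwa [this] at hy'
  have h5 := card_le_card h4
  rw [card_sdiff_of_subset (subset_univ _), card_univ, h2] at h5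
  have h0 : Nat.card (fx M K) ≠ 0 := Nat.card_pos.ne'
  have h6 : 1 ≤ (Nat.card (fx M K)).factorization q := (hq.dvd_iff_one_le_factorization h0).1 h1
  have h7 : ¬ 2 ≤ (Nat.card (fx M K)).factorization q := by
    intro h8
    have h9 := Nat.le_of_dvd (Nat.pos_of_ne_zero h0) ((hq.pow_dvd_iff_le_factorization h0).2 h8)
    have : Nat.card (fx M K) ≤ 2 * q := by omega
    nlinarith
  rw [show (Nat.card (fx M K)).factorization q = 1 by omega, pow_one]

/-- change of the generator -/
lemma Wd.gen (h : Wd M q z' K w) (h1 : z ∈ Subgroup.zpowers z') (h2 : z' ∈ Subgroup.zpowers z) :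
    Wd M q z K w := by
  refine ⟨h.hw, ?_, h.wq, fun p hp => ?_, h.sc⟩
  · obtain ⟨i, rfl⟩ := Subgroup.mem_zpowers_iff.1 h1
    exact (Commute.zpow_right (show Commute w z' from h.cm) i)
  · obtain ⟨j, hj⟩ := h.out p hp
    obtain ⟨i, hi⟩ := (mem_powers_iff_mem_zpowers (x := z) (y := z')).2 h2
    exact ⟨i * j, by rw [hj, pow_mul]; simp only at hi; rw [hi]⟩

/-- transport of a commuting cycle to a neighbouring fixed set -/
lemma transport (h : Zd M t q z K) (h' : Zd M t q z' K') (hw : Wd M q z' K' w) (hq : q.Prime)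
    (h3 : 3 ≤ q) (htr : Triv M t) (hc : Fintype.card β + 1 = t + 2 * q)
    (hI : t ≤ (K' ∩ K).card + q) (hs : supp K' w ⊆ K) :
    ∃ v, Wd M q z K v ∧ supp K v = supp K' w := by
  have e1 := h.hK
  have e2 := h'.hK
  have e3 := card_sdiff_add_card_inter K' K
  have e4 := card_sdiff_add_card_inter K K'
  rw [inter_comm] at e4
  obtain ⟨k, hk, hk1, hk2⟩ := adj hq (h'.syl hq h3 htr hc) h'.fixs_eq (h.syl hq h3 htr hc)
    h.fixs_eq (by omega) (by omega)
  have hv := hw.conj hk.1
  rw [hk2] at hv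
  refine ⟨k * w * k⁻¹, hv.gen ?_ ?_, ?_⟩
  · obtain ⟨i, hi⟩ := Subgroup.mem_zpowers_iff.1 ((hk1 z).1 (Subgroup.mem_zpowers z))
    refine Subgroup.mem_zpowers_iff.2 ⟨i, ?_⟩
    rw [conj_zpow, hi]
    group
  · refine (hk1 _).2 ?_
    have : k⁻¹ * (k * z' * k⁻¹) * k = z' := by group
    rw [this]
    exact Subgroup.mem_zpowers z'
  · rw [← hk2, supp_conj, smul_eq_image, image_congr (g := id) (fun y hy => hk.2 y
      (mem_inter.2 ⟨(mem_supp.1 hy).1, hs hy⟩)), image_id]

/-- elements with disjoint supports on `K` commute -/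
lemma Wd.comm (h : Zd M t q z K) (h1 : Wd M q z K w) (h2 : Wd M q z K w')
    (hd : Disjoint (supp K w) (supp K w')) : w * w' = w' * w := by
  have key : ∀ {v : Perm β}, v * z = z * v → ∀ x ∈ K, v x ∈ K := by
    intro v hv x hx
    rw [← h.fixz, ← Perm.mul_apply, ← hv, Perm.mul_apply, (h.fixz x).2 hx]
  have one : ∀ {v v' : Perm β}, v * z = z * v → Disjoint (supp K v) (supp K v') → ∀ x ∈ K,
      v x ≠ x → v' x = x ∧ v' (v x) = v x := by
    intro v v' hv hvv x hx hne
    constructor
    · by_contra hh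
      exact disjoint_left.1 hvv (mem_supp.2 ⟨hx, hne⟩) (mem_supp.2 ⟨hx, hh⟩)
    · by_contra hh
      exact disjoint_left.1 hvv (mem_supp.2 ⟨key hv x hx, fun e => hne (v.injective e)⟩)
        (mem_supp.2 ⟨key hv x hx, hh⟩)
  ext x
  rw [Perm.mul_apply, Perm.mul_apply]
  by_cases hx : x ∈ K
  · by_cases a1 : w x = x
    · by_cases a2 : w' x = x
      · rw [a1, a2, a1]
      · obtain ⟨b1, b2⟩ := one h2.cm hd.symm x hx a2
        rw [b1, b2]
    · obtain ⟨b1, b2⟩ := one h1.cm hd x hx a1
      rw [b1, b2]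
  · obtain ⟨i, hi⟩ := h1.out x hx
    obtain ⟨j, hj⟩ := h2.out x hx
    have c1 : w * z ^ j = z ^ j * w := Commute.pow_right (show Commute w z from h1.cm) j
    have c2 : w' * z ^ i = z ^ i * w' := Commute.pow_right (show Commute w' z from h2.cm) i
    have d1 : w (w' x) = (z ^ (j + i)) x := by
      rw [hj, ← Perm.mul_apply, c1, Perm.mul_apply, hi, pow_add, Perm.mul_apply]
    have d2 : w' (w x) = (z ^ (i + j)) x := by
      rw [hi, ← Perm.mul_apply, c2, Perm.mul_apply, hj, pow_add, Perm.mul_apply]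
    rw [d1, d2, add_comm]

/-- correction by a power of `z` so that a given outside point is fixed -/
lemma Wd.fixpt (h : Zd M t q z K) (h1 : Wd M q z K w) (hq : 0 < q) {a : β} (ha : a ∉ K) :
    ∃ i : ℕ, (w * z ^ i) a = a := by
  obtain ⟨j, hj⟩ := h1.out a ha
  refine ⟨(q - 1) * j, ?_⟩
  have c1 : w * z ^ ((q - 1) * j) = z ^ ((q - 1) * j) * w :=
    Commute.pow_right (show Commute w z from h1.cm) _
  rw [c1, Perm.mul_apply, hj, ← Perm.mul_apply, ← pow_add]
  obtain ⟨r, rfl⟩ : ∃ r, q = r + 1 := ⟨q - 1, by omega⟩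
  rw [show (r + 1 - 1) * j + j = (r + 1) * j by simp only [Nat.add_sub_cancel]; ring, pow_mul,
    h.zq, one_pow, Perm.one_apply]

lemma pow_iter {v : Perm β} (hv : v * z = z * v) {p : β} {n : ℕ} (hp : v p = (z ^ n) p) (i : ℕ) :
    (v ^ i) p = (z ^ (n * i)) p := by
  induction i with
  | zero => simp
  | succ i ih =>
    have c1 : v * z ^ (n * i) = z ^ (n * i) * v := Commute.pow_right (show Commute v z from hv) _
    rw [pow_succ', Perm.mul_apply, ih, ← Perm.mul_apply, c1, Perm.mul_apply, hp,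
      ← Perm.mul_apply, ← pow_add, mul_add, mul_one]

/-- the switch to the fixed set `U₁ ∪ c'` -/
lemma switch (h : Zd M t q z K) (h1 : Wd M q z K w) (h2 : Wd M q z K w') (hq : q.Prime)
    (htr : Triv M t) (ht : t = 2 * q + 1) (hd : Disjoint (supp K w) (supp K w'))
    {a : β} (ha : a ∉ K) : ∃ z₁ K₁ w₁, Zd M t q z₁ K₁ ∧ Wd M q z₁ K₁ w₁ ∧
      supp K₁ w₁ = supp K w ∧ a ∈ K₁ := by
  have hK := h.hK
  have s1 := h1.sc
  have s2 := h2.sc
  have hU : supp K w ∪ supp K w' = K := eq_of_subset_of_card_le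
    (union_subset (filter_subset _ _) (filter_subset _ _)) (by
      rw [card_union_of_disjoint hd]; omega)
  obtain ⟨i, hi⟩ := h1.fixpt h hq.pos ha
  obtain ⟨j, hj⟩ := h2.fixpt h hq.pos ha
  have cw : Commute w z := h1.cm
  have cw' : Commute w' z := h2.cm
  have cww : Commute w w' := h1.comm h h2 hd
  set c := orb (Subgroup.zpowers z) a with hc
  have hcq : c.card = q := by
    have e1 := h.card_zp hq ha
    refine Nat.dvd_antisymm ?_ (dvd_card_orb hq (a := 1) (by rw [e1, pow_one])
      (by rwa [h.fixs_eq]))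
    exact Dvd.intro _ ((orb_mul_st _ a).trans e1)
  have hcK : ∀ x ∈ c, x ∉ K := by
    intro x hx hx'
    obtain ⟨u, hu, rfl⟩ := mem_orb.1 hx
    have := h.fix_zp hu hx'
    simp only [Perm.smul_def, EmbeddingLike.apply_eq_iff_eq] at this hx'
    exact ha (this ▸ hx')
  have hcf : ∀ {v : Perm β}, Commute v z → v a = a → ∀ x ∈ c, v x = x := by
    intro v hv hva x hx
    obtain ⟨u, hu, rfl⟩ := mem_orb.1 hx
    obtain ⟨n, rfl⟩ := Subgroup.mem_zpowers_iff.1 hu
    rw [Perm.smul_def, ← Perm.mul_apply, (hv.zpow_right n).eq, Perm.mul_apply, hva]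
  have hzK : ∀ (n : ℕ), ∀ x ∈ K, (z ^ n) x = x := fun n x hx =>
    h.fix_zp (Subgroup.pow_mem _ (Subgroup.mem_zpowers z) n) hx
  have c1 : Commute (w * z ^ i) z := cw.mul_left ((Commute.refl z).pow_left i)
  have c2 : Commute (w' * z ^ j) z := cw'.mul_left ((Commute.refl z).pow_left j)
  have hdj : Disjoint (supp K w) c := disjoint_left.2 fun x hx hx' => hcK x hx' (mem_supp.1 hx).1
  have hcard : (supp K w ∪ c).card = 2 * q := by rw [card_union_of_disjoint hdj]; omega
  have hm1 : w * z ^ i ∈ M := M.mul_mem h1.hw (M.pow_mem h.hz i)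
  have hm2 : w' * z ^ j ∈ M := M.mul_mem h2.hw (M.pow_mem h.hz j)
  have hfix : ∀ x ∈ supp K w ∪ c, (w' * z ^ j) x = x := by
    intro x hx
    rcases mem_union.1 hx with hx | hx
    · rw [Perm.mul_apply, hzK j x (mem_supp.1 hx).1]
      by_contra hh
      exact disjoint_left.1 hd hx (mem_supp.2 ⟨(mem_supp.1 hx).1, hh⟩)
    · exact hcf c2 hj x hx
  have hfix' : ∀ x, (w' * z ^ j) x = x → x ∈ supp K w ∪ c := by
    intro x hx
    by_contra hn
    have e1 := htr _ hm2 (insert x (supp K w ∪ c)) (by rw [card_insert_of_notMem hn]; omega)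
      (fun y hy => by
        rcases mem_insert.1 hy with rfl | hy
        · exact hx
        · exact hfix y hy)
    obtain ⟨b, hb⟩ : (supp K w').Nonempty := card_pos.1 (by have := hq.pos; omega)
    apply (mem_supp.1 hb).2
    have e2 : (w' * z ^ j) b = b := by rw [e1]; rfl
    rwa [Perm.mul_apply, hzK j b (mem_supp.1 hb).1] at e2
  have hsupp : supp (supp K w ∪ c) (w * z ^ i) = supp K w := by
    ext x
    rw [mem_supp, mem_union]
    constructor
    · rintro ⟨hx | hx, hx'⟩
      · exact hx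
      · exact absurd (hcf c1 hi x hx) hx'
    · intro hx
      refine ⟨Or.inl hx, ?_⟩
      rw [Perm.mul_apply, hzK i x (mem_supp.1 hx).1]
      exact (mem_supp.1 hx).2
  refine ⟨w' * z ^ j, supp K w ∪ c, w * z ^ i, ⟨hm2, ?_, fun x => ⟨hfix' x, hfix x⟩, by omega⟩,
    ⟨hm1, ?_, ?_, fun p hp => ?_, by rw [hsupp]; exact s1⟩, hsupp,
    mem_union_right _ (self_mem_orb a)⟩
  · rw [(cw'.pow_right j).mul_pow, h2.wq, ← pow_mul, mul_comm j q, pow_mul, h.zq, one_pow, mul_one]
  · exact (cww.mul_right (cw.pow_right j)).mul_left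
      (((cw'.pow_right i).symm).mul_right ((Commute.refl z).pow_pow i j))
  · rw [(cw.pow_right i).mul_pow, h1.wq, ← pow_mul, mul_comm i q, pow_mul, h.zq, one_pow, mul_one]
  · by_cases hpK : p ∈ K
    · refine ⟨0, ?_⟩
      rw [Perm.mul_apply, hzK i p hpK, pow_zero, Perm.one_apply]
      by_contra hh
      exact hp (mem_union_left _ (mem_supp.2 ⟨hpK, hh⟩))
    · obtain ⟨m, hm⟩ := h1.out p hpK
      obtain ⟨n, hn⟩ := h2.out p hpK
      have f1 : (w * z ^ i) p = (z ^ (i + m)) p := by
        rw [(cw.pow_right i).eq, Perm.mul_apply, hm, pow_add, Perm.mul_apply]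
      have f2 : (w' * z ^ j) p = (z ^ (j + n)) p := by
        rw [(cw'.pow_right j).eq, Perm.mul_apply, hn, pow_add, Perm.mul_apply]
      have f3 : ¬ q ∣ j + n := by
        rintro ⟨r, hr⟩
        apply hp
        apply hfix'
        rw [f2, hr, pow_mul, h.zq, one_pow, Perm.one_apply]
      obtain ⟨r, -, hr⟩ := Nat.exists_mul_mod_eq_of_coprime (i + m)
        ((Nat.coprime_comm.1 ((Nat.Prime.coprime_iff_not_dvd hq).2 f3))) hq.ne_zero
      refine ⟨r, ?_⟩
      rw [f1, pow_iter c2.eq f2 r, pow_eq_pow_mod (i + m) h.zq, pow_eq_pow_mod ((j + n) * r) h.zq,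
        hr]

end QNS

open QNS in
theorem qns_of (h1 : St_dj) : St_qns := by
  intro β _ _ M t q k z K p₀ h3 hkq hz
  obtain ⟨d1, d2⟩ := h1 β M t q k z K p₀ hz
  have hq := hz.qn.prime
  have hK := hz.hK
  have hk1 := hz.k1
  have hkt := hz.qn.hk
  have htr := hz.qn.triv
  have hZ : Zd M t q z K := ⟨hz.hz, hz.zq, hz.fixz, hK⟩
  have ex : ∀ S ⊆ K, S.card + 1 = 2 * q → ∃ w, Wd M q z K w ∧ supp K w ⊆ S := by
    intro S hS hc
    obtain ⟨w, a1, a2, a3, a4, a5, a6⟩ := hz.cyc S hS hc
    exact ⟨w, ⟨a1, a2, a3, d1 hkq w a2 a3 a4, a6⟩, a5⟩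
  have dj : ∀ {w w'}, Wd M q z K w → Wd M q z K w' →
      supp K w = supp K w' ∨ Disjoint (supp K w) (supp K w') := fun a b =>
    d2 _ a.hw _ b.hw a.cm b.cm a.wq b.wq a.out b.out a.sc b.sc
  have h2q : 2 * q ≤ t := le_trans (Nat.mul_le_mul_right q (by omega)) hkt
  obtain ⟨S₁, hS₁, hS₁'⟩ := exists_subset_card_eq (s := K) (n := 2 * q - 1) (by omega)
  obtain ⟨w₁, hw₁, -⟩ := ex S₁ hS₁ (by omega)
  have s1 := hw₁.sc
  have sub1 : supp K w₁ ⊆ K := filter_subset _ _
  obtain ⟨a, ha⟩ : (supp K w₁).Nonempty := card_pos.1 (by omega)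
  have second : 2 * q + 1 ≤ t → ∃ w₂, Wd M q z K w₂ ∧ Disjoint (supp K w₁) (supp K w₂) := by
    intro h
    obtain ⟨S, hS, hS'⟩ := exists_subset_card_eq (s := K.erase a) (n := 2 * q - 1)
      (by rw [card_erase_of_mem (sub1 ha)]; omega)
    obtain ⟨w₂, hw₂, hw₂'⟩ := ex S (hS.trans (erase_subset _ _)) (by omega)
    refine ⟨w₂, hw₂, (dj hw₁ hw₂).resolve_left fun e => ?_⟩
    exact notMem_erase a K (hS (hw₂' (e ▸ ha)))
  have hup : t ≤ 2 * q + 1 := by
    by_contra hlt
    obtain ⟨w₂, hw₂, hd⟩ := second (by omega)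
    have s2 := hw₂.sc
    have sub2 : supp K w₂ ⊆ K := filter_subset _ _
    obtain ⟨b, hb⟩ : (supp K w₂).Nonempty := card_pos.1 (by omega)
    obtain ⟨r, hr, hr'⟩ := exists_mem_notMem_of_card_lt_card (s := supp K w₁ ∪ supp K w₂) (t := K)
      (by rw [card_union_of_disjoint hd]; omega)
    have hd' : Disjoint ((supp K w₁).erase a) ((supp K w₂).erase b) :=
      hd.mono (erase_subset _ _) (erase_subset _ _)
    have hr'' : r ∉ (supp K w₁).erase a ∪ (supp K w₂).erase b := fun h =>
      hr' (union_subset_union (erase_subset _ _) (erase_subset _ _) h)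
    obtain ⟨w₃, hw₃, hw₃'⟩ := ex (insert r ((supp K w₁).erase a ∪ (supp K w₂).erase b))
      (insert_subset hr (union_subset ((erase_subset _ _).trans sub1)
        ((erase_subset _ _).trans sub2))) (by
        rw [card_insert_of_notMem hr'', card_union_of_disjoint hd', card_erase_of_mem ha,
          card_erase_of_mem hb]; omega)
    have e1 : Disjoint (supp K w₁) (supp K w₃) := (dj hw₁ hw₃).resolve_left fun e => by
      have := hw₃' (e ▸ ha)
      rcases mem_insert.1 this with rfl | h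
      · exact hr' (mem_union_left _ ha)
      · rcases mem_union.1 h with h | h
        · exact notMem_erase _ _ h
        · exact disjoint_left.1 hd ha (mem_of_mem_erase h)
    have e2 : Disjoint (supp K w₂) (supp K w₃) := (dj hw₂ hw₃).resolve_left fun e => by
      have := hw₃' (e ▸ hb)
      rcases mem_insert.1 this with rfl | h
      · exact hr' (mem_union_right _ hb)
      · rcases mem_union.1 h with h | h
        · exact disjoint_left.1 hd (mem_of_mem_erase h) hb
        · exact notMem_erase _ _ h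
    have e3 : supp K w₃ ⊆ {r} := by
      intro x hx
      rcases mem_insert.1 (hw₃' hx) with rfl | h
      · exact mem_singleton_self _
      · rcases mem_union.1 h with h | h
        · exact absurd hx (disjoint_left.1 e1 (mem_of_mem_erase h))
        · exact absurd hx (disjoint_left.1 e2 (mem_of_mem_erase h))
    have e4 := card_le_card e3
    rw [card_singleton, hw₃.sc] at e4
    omega
  have hk : k = 1 := by
    by_contra hne
    have : 3 * q ≤ (k + 1) * q := Nat.mul_le_mul_right q (by omega)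
    omega
  subst hk
  have hc : Fintype.card β + 1 = t + 2 * q := hz.qn.hc
  have hh : HH M q := hz.qn.hh q (by omega)
  -- conjugated supports inside `K` are equal to or disjoint from the first support
  have fin : ∀ z' K' w' g, g ∈ M → Zd M t q z' K' → Wd M q z' K' w' →
      t ≤ (g • K' ∩ K).card + q → g • supp K' w' ⊆ K →
      supp K w₁ = g • supp K' w' ∨ Disjoint (supp K w₁) (g • supp K' w') := by
    intro z' K' w' g hg a1 a2 a3 a4
    obtain ⟨v, hv, hv'⟩ := transport hZ (a1.conj hg) (a2.conj hg) hq h3 htr hc a3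
      (by rwa [supp_conj])
    rw [← supp_conj, ← hv']
    exact dj hw₁ hv
  rcases Nat.lt_or_ge t (2 * q + 1) with ht | ht
  · obtain ⟨R, hR, hR'⟩ := exists_subset_card_eq (s := K \ supp K w₁) (n := 2)
      (by rw [card_sdiff_of_subset sub1]; omega)
    have hdR : Disjoint ((supp K w₁).erase a) R := disjoint_left.2 fun x hx hx' =>
      (mem_sdiff.1 (hR hx')).2 (mem_of_mem_erase hx)
    obtain ⟨g, hg, hg'⟩ := hh (supp K w₁) ((supp K w₁).erase a ∪ R) s1 (by
      rw [card_union_of_disjoint hdR, card_erase_of_mem ha]; omega)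
    have hgK : g • supp K w₁ ⊆ K := hg'.trans
      (union_subset ((erase_subset _ _).trans sub1) (hR.trans sdiff_subset))
    have e1 := card_le_card (subset_inter (smul_subset_smul.2 sub1) hgK)
    rw [card_smul] at e1
    rcases fin z K w₁ g hg hZ hw₁ (by omega) hgK with e | e
    · rcases mem_union.1 (hg' (e ▸ ha)) with h | h
      · exact notMem_erase _ _ h
      · exact (mem_sdiff.1 (hR h)).2 ha
    · have e2 := card_le_card (union_subset sub1 hgK)
      rw [card_union_of_disjoint e, card_smul] at e2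
      omega
  · obtain ⟨w₂, hw₂, hd⟩ := second ht
    have s2 := hw₂.sc
    have sub2 : supp K w₂ ⊆ K := filter_subset _ _
    obtain ⟨R, hR, hR'⟩ := exists_subset_card_eq (s := supp K w₁) (n := 2) (by omega)
    obtain ⟨R', hQ, hQ'⟩ := exists_subset_card_eq (s := supp K w₂) (n := q - 1) (by omega)
    have hdR : Disjoint R R' := hd.mono hR hQ
    have hT : (R ∪ R').card = q + 1 := by rw [card_union_of_disjoint hdR]; omega
    have hTK : R ∪ R' ⊆ K := union_subset (hR.trans sub1) (hQ.trans sub2)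
    obtain ⟨g, hg, hg'⟩ := hh (supp K w₁) (R ∪ R') s1 hT
    have bad : ¬ (supp K w₁ = g • supp K w₁ ∨ Disjoint (supp K w₁) (g • supp K w₁)) := by
      rintro (e | e)
      · have e1 : supp K w₁ ⊆ R := by
          intro x hx
          rcases mem_union.1 (hg' (e ▸ hx)) with h | h
          · exact h
          · exact absurd (hQ h) (disjoint_left.1 hd hx)
        have := card_le_card e1
        omega
      · have e1 : g • supp K w₁ ⊆ R' := by
          intro x hx
          rcases mem_union.1 (hg' hx) with h | h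
          · exact absurd hx (disjoint_left.1 e (hR h))
          · exact h
        have := card_le_card e1
        rw [card_smul] at this
        omega
    obtain ⟨y, hy, hy'⟩ := exists_mem_notMem_of_card_lt_card (s := g • supp K w₁) (t := R ∪ R')
      (by rw [card_smul]; omega)
    obtain ⟨a', rfl⟩ := g.surjective y
    have hins : insert (g a') (g • supp K w₁) ⊆ K := (insert_subset hy hg').trans hTK
    have hic : (insert (g a') (g • supp K w₁)).card = q + 1 := by
      rw [card_insert_of_notMem hy', card_smul, s1]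
    have use : ∀ z' K' w', Zd M t q z' K' → Wd M q z' K' w' → supp K' w' = supp K w₁ →
        a' ∈ K' → False := by
      intro z' K' w' a1 a2 a3 a4
      have e1 : insert (g a') (g • supp K w₁) ⊆ g • K' := by
        rw [← smul_insert, smul_subset_smul, ← a3]
        exact insert_subset a4 (filter_subset _ _)
      have e2 := card_le_card (subset_inter e1 hins)
      have := fin z' K' w' g hg a1 a2 (by omega) (by rw [a3]; exact hg'.trans hTK)
      rw [a3] at this
      exact bad this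
    by_cases haK : a' ∈ K
    · exact use z K w₁ hZ hw₁ rfl haK
    · obtain ⟨z', K', w', a1, a2, a3, a4⟩ := switch hZ hw₁ hw₂ hq htr (by omega) hd haK
      exact use z' K' w' a1 a2 a3 a4

end Pool.Agent.H5Hom
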