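import Pool.Agent.Lib.MP_078193_al.MBlue

/-! Two orbits on `t`-sets: the exact proportion of pure sets and a variance inequality. -/

open Finset Equiv
open scoped Pointwise

set_option linter.unusedSectionVars false

namespace Pool.Agent.H5Hom

namespace R2

variable {α : Type} [Fintype α] [DecidableEq α] {G : Subgroup (Perm α)} {B₀ : Finset α}

lemma card_Sig_orb {A A' : Finset α} (h : A' ∈ orb G A) :
    (Sig G B₀ A').card = (Sig G B₀ A).card := by
  obtain ⟨g, hg, rfl⟩ := mem_orb.1 h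
  rw [Sig_smul hg, card_smul]

lemma mean_two {l : ℕ} {F : Finset α → ℝ} {X : Finset α} {x y : ℝ} (hX : X.card = l)
    (h1 : ∀ A ∈ orb G X, F A = x) (h2 : ∀ A : Finset α, A.card = l → A ∉ orb G X → F A = y) :
    ∑ A ∈ powersetCard l univ, F A
      = (orb G X).card * (x - y) + (Fintype.card α).choose l * y := by
  have e1 : ∑ A ∈ orb G X, (F A - y) = ∑ A ∈ powersetCard l univ, (F A - y) :=
    sum_subset (fun A hA => mem_lev.2 ((card_of_mem_orb hA).trans hX))
      (fun A hA hA' => by rw [h2 A (mem_lev.1 hA) hA', sub_self])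
  rw [sum_congr rfl (fun A hA => by rw [h1 A hA]), sum_const, sum_sub_distrib, sum_const,
    card_powersetCard, card_univ, nsmul_eq_mul, nsmul_eq_mul] at e1
  linarith

lemma up_split {F : Finset α → ℝ} {C S : Finset α} {x y : ℝ} (hS : S ⊆ C)
    (h1 : ∀ z ∈ S, F (C.erase z) = x) (h2 : ∀ z ∈ C, z ∉ S → F (C.erase z) = y) :
    ∑ z ∈ C, F (C.erase z) = S.card * x + (C.card - S.card) * y := by
  rw [← sum_sdiff hS, sum_congr rfl h1,
    sum_congr rfl (s₁ := C \ S) (fun z hz => h2 z (mem_sdiff.1 hz).1 (mem_sdiff.1 hz).2),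
    sum_const, sum_const, card_sdiff_of_subset hS, nsmul_eq_mul, nsmul_eq_mul,
    Nat.cast_sub (card_le_card hS)]
  ring

end R2

open R2 in
theorem r2_of : St_r2 := by
  classical
  intro α _ _ G t i B₀ A₀ hc hnr h0 h1 hit
  have ht := hc.ht
  have hn := hc.hn
  have hB := hc.hB
  have hA := hc.hA
  obtain ⟨j, rfl⟩ : ∃ j, t = j + 1 := ⟨t - 1, by omega⟩
  have hB' : B₀.card = j := by omega
  have hij : i + 1 ≤ j := by
    by_contra hne
    obtain rfl : i = j := by omega
    obtain ⟨B, hB1, hB2⟩ := exists_subset_card_eq (s := A₀) (n := i) (by omega)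
    obtain ⟨g, hg, hg'⟩ := h0 B₀ (subset_univ _) B (subset_univ _) hB' hB2
    exact hc.pure g hg (hg' ▸ hB1)
  refine ⟨by omega, ?_⟩
  obtain ⟨f, hd⟩ := exists_dat h0 h1
  have h2 : Two G (j + 1) := two_of_nr hnr
  have h2' : Two G j := h2.pred (by omega)
  obtain ⟨A₁, a1, a2, a3, a4, a5⟩ := hd.other h2 (by omega) (by omega) hA
  obtain ⟨B₁, b1, -, b3, -, b5⟩ := hd.other h2' hij (by omega) hB'
  have pure : ∀ A ∈ orb G A₀, Sig G B₀ A = ∅ := fun A h => by
    rw [← card_eq_zero, card_Sig_orb h, hc.sig_empty, card_empty]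
  -- structure of a `(t+1)`-set
  have str : ∀ C : Finset α, C.card = j + 1 + 1 → ∃ S ⊆ C, (∀ z ∈ S, C.erase z ∈ orb G A₀) ∧
      (∀ z ∈ C, z ∉ S → C.erase z ∈ orb G A₁) ∧ 1 ≤ S.card ∧
      S.card + (Sig G B₀ A₁).card ≤ j + 1 := by
    intro C hC
    refine ⟨C.filter (fun z => C.erase z ∈ orb G A₀), filter_subset _ _,
      fun z hz => (mem_filter.1 hz).2, fun z hz hz' => ?_, ?_, ?_⟩
    · exact (a3 _ (by rw [card_erase_of_mem hz]; omega)).resolve_left
        fun h => hz' (mem_filter.2 ⟨hz, h⟩)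
    · obtain ⟨x, hx, hx'⟩ := hc.hh.erase hA hC
      exact card_pos.2 ⟨x, mem_filter.2 ⟨hx, hx'⟩⟩
    · obtain ⟨y, hy, hy'⟩ := hc.hh.erase a1 hC
      have hyA : C.erase y ∉ orb G A₀ := fun h =>
        a2 (hd.lift_orb (orb_trans h (orb_symm hy')))
      rw [← card_Sig_orb hy', ← card_union_of_disjoint]
      · have : (C.erase y).card = j + 1 := by rw [card_erase_of_mem hy]; omega
        rw [← this]
        refine card_le_card (union_subset (fun z hz => ?_) fun z hz => (mem_Sig.1 hz).1)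
        obtain ⟨e1, e2⟩ := mem_filter.1 hz
        exact mem_erase.2 ⟨fun h => hyA (h ▸ e2), e1⟩
      · rw [disjoint_left]
        intro z hz hz'
        obtain ⟨e1, e2⟩ := mem_filter.1 hz
        obtain ⟨e3, e4⟩ := mem_Sig.1 hz'
        have : y ∈ Sig G B₀ (C.erase z) :=
          mem_Sig.2 ⟨mem_erase.2 ⟨(mem_erase.1 e3).1.symm, hy⟩, by rwa [erase_right_comm]⟩
        rw [pure _ e2] at this
        exact notMem_empty _ this
  have ha1 : 1 ≤ (Sig G B₀ A₁).card := by
    obtain ⟨A, e1, e2⟩ := hc.exists_sig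
    have : A ∈ orb G A₁ := (a3 A e1).resolve_left fun h => by
      rw [pure A h] at e2; exact not_nonempty_empty e2
    rw [← card_Sig_orb this]
    exact card_pos.2 e2
  have ha2 : (Sig G B₀ A₁).card + 1 ≤ j + 1 := by
    obtain ⟨C, -, hC⟩ := exists_subset_card_eq (s := (univ : Finset α)) (n := j + 1 + 1)
      (by rw [card_univ]; omega)
    obtain ⟨S, -, -, -, e1, e2⟩ := str C hC
    omega
  set F := lift (i + 1) f with hF
  have upB : ∀ A : Finset α, A.card = j + 1 → ((j : ℝ) - i) * F A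
      = (Sig G B₀ A).card * F B₀ + (j + 1 - (Sig G B₀ A).card) * F B₁ := by
    intro A hA'
    have e1 := lift_up (i + 1) f A
    rw [up_split (F := F) (S := Sig G B₀ A) (x := F B₀) (y := F B₁)
      (fun z hz => (mem_Sig.1 hz).1) (fun z hz => hd.lift_orb (mem_Sig.1 hz).2)
      (fun z hz hz' => hd.lift_orb ((b3 _ (by rw [card_erase_of_mem hz]; omega)).resolve_left
        fun h => hz' (mem_Sig.2 ⟨hz, h⟩))), hA'] at e1
    push_cast at e1
    linear_combination -e1
  have u0 := upB A₀ hA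
  have u1 := upB A₁ a1
  rw [hc.sig_empty, card_empty] at u0
  have m1 := mean_two (G := G) (F := F) (x := F A₀) (y := F A₁) hA (fun A h => hd.lift_orb h)
    (fun A h h' => hd.lift_orb ((a3 A h).resolve_left h'))
  rw [hd.harm.mean (by omega)] at m1
  have v0 := hd.harm.var j
  rw [a5, b5] at v0
  have v0' := var_rel (by omega) v0
  have hδ : F A₀ - F A₁ ≠ 0 := sub_ne_zero.2 a2.symm
  have hα : F A₀ ≠ 0 := by rintro h; rw [h] at a4; simp at a4
  have hd0 : (0 : ℝ) < (j : ℝ) - i := by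
    have : ((i + 1 : ℕ) : ℝ) ≤ j := by exact_mod_cast hij
    push_cast at this; linarith
  have hN : (0 : ℝ) < (Fintype.card α).choose (j + 1) := by
    exact_mod_cast Nat.choose_pos (by omega)
  refine ⟨_, ha1, ha2, ?_, ?_⟩
  · generalize (Sig G B₀ A₁).card = a at *
    have key : ((orb G A₀).card : ℝ) * (a * (i + 1) * (Fintype.card α - i))
        = (Fintype.card α).choose (j + 1)
          * ((j - i) * (Fintype.card α - (j + 1) - i) * (j + 1 - a)) := by
      have e1 : a * F A₁ * (Fintype.card α - j) * (j + 1)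
          = (Fintype.card α - (j + 1) - i) * (j - i) * ((j + 1) * F A₁ - (j + 1 - a) * F A₀) := by
        refine mul_left_cancel₀ (mul_ne_zero hd0.ne' hα) ?_
        push_cast at u0
        have e2 : (a : ℝ) * F B₀ = (j - i) * F A₁ - (j + 1 - a) * F B₁ := by linarith
        have e3 : ((j : ℝ) + 1) * F B₁ = (j - i) * F A₀ := by linarith
        calc _ = a * (j + 1) * (((j : ℝ) - i) * (F A₀ * F A₁) * (Fintype.card α - j)) := by ring
          _ = (Fintype.card α - (j + 1) - i) * ((j + 1) * (a * F B₀)) * ((j + 1) * F B₁) := by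
              rw [v0']; ring
          _ = (Fintype.card α - (j + 1) - i) * ((j + 1) * (j - i) * F A₁
              - (j + 1 - a) * ((j + 1) * F B₁)) * ((j + 1) * F B₁) := by rw [e2]; ring
          _ = _ := by rw [e3]; ring
      refine mul_left_cancel₀ hδ ?_
      linear_combination (-(a * (i + 1) * (Fintype.card α - i))) * m1
        - ((Fintype.card α).choose (j + 1) : ℝ) * e1
    have c1 : ((Fintype.card α - i : ℕ) : ℝ) = Fintype.card α - i := Nat.cast_sub (by omega)
    have c2 : ((j + 1 - (i + 1) : ℕ) : ℝ) = j - i := by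
      rw [Nat.cast_sub (by omega)]; push_cast; ring
    have c3 : ((Fintype.card α - (j + 1) - i : ℕ) : ℝ) = Fintype.card α - (j + 1) - i := by
      rw [Nat.cast_sub (by omega), Nat.cast_sub (by omega)]; push_cast; ring
    have c4 : ((j + 1 - a : ℕ) : ℝ) = j + 1 - a := by
      rw [Nat.cast_sub (by omega)]; push_cast; ring
    refine Nat.cast_injective (R := ℝ) ?_
    simp only [Nat.cast_mul, c1, c2, c3, c4]
    push_cast
    exact key
  · intro n u hn' hu
    subst hn'
    generalize (Sig G B₀ A₁).card = a at *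
    have hu' : (F A₀ - F A₁) * u = -(j + 1 + 1) * F A₁ := by
      refine mul_left_cancel₀ hN.ne' ?_
      push_cast at hu
      linear_combination (F A₀ - F A₁) * hu - (j + 1 + 1) * m1
    have pt : ∀ C ∈ powersetCard (j + 1 + 1) (univ : Finset α),
        0 ≤ (F A₀ - F A₁) ^ 2 * ((u - 1) * (j + 1 - a - u))
          + ((j + 1 - i) * (F A₀ - F A₁) * (j + 2 - a - 2 * u)) * F C
          - (j + 1 - i) ^ 2 * F C ^ 2 := by
      intro C hC
      obtain ⟨S, s1, s2, s3, s4, s5⟩ := str C (mem_lev.1 hC)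
      have e1 := lift_up (i + 1) f C
      rw [up_split (F := F) (x := F A₀) (y := F A₁) s1 (fun z hz => hd.lift_orb (s2 z hz))
        (fun z hz hz' => hd.lift_orb (s3 z hz hz')), mem_lev.1 hC] at e1
      push_cast at e1
      have e2 : ((j : ℝ) + 1 - i) * F C = (F A₀ - F A₁) * (S.card - u) := by
        linear_combination -e1 + hu'
      have e3 : (1 : ℝ) ≤ S.card := by exact_mod_cast s4
      have e4 : (S.card : ℝ) + a ≤ j + 1 := by exact_mod_cast s5
      have e5 : 0 ≤ (F A₀ - F A₁) ^ 2 * (((S.card : ℝ) - 1) * (j + 1 - a - S.card)) :=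
        mul_nonneg (sq_nonneg _) (mul_nonneg (by linarith) (by linarith))
      calc 0 ≤ _ := e5
        _ = (F A₀ - F A₁) ^ 2 * ((u - 1) * (j + 1 - a - u))
          + ((F A₀ - F A₁) * (j + 2 - a - 2 * u)) * ((F A₀ - F A₁) * (S.card - u))
          - ((F A₀ - F A₁) * (S.card - u)) ^ 2 := by ring
        _ = _ := by rw [← e2]; ring
    have s0 := sum_nonneg pt
    rw [sum_sub_distrib, sum_add_distrib, sum_const, ← mul_sum, ← mul_sum, card_powersetCard,
      card_univ, nsmul_eq_mul, hd.harm.mean (by omega)] at s0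
    have v1 := hd.harm.var (j + 1)
    rw [← hF, a5] at v1
    have c1 := congrArg (Nat.cast (R := ℝ)) (Nat.choose_succ_right_eq (Fintype.card α) (j + 1))
    push_cast [Nat.cast_sub (show j + 1 ≤ Fintype.card α by omega)] at c1 v1 ⊢
    have hp : 0 < ((Fintype.card α).choose (j + 1) : ℝ) * (F A₀ - F A₁) ^ 2 := by positivity
    refine le_of_mul_le_mul_left ?_ hp
    have e1 : ((j : ℝ) + 1 + 1) ^ 2 * -(F A₀ * F A₁) = (F A₀ - F A₁) ^ 2 * (u * (j + 1 + 1 - u)) := by
      have e2 : ((j : ℝ) + 1 + 1) * F A₀ = (F A₀ - F A₁) * (j + 1 + 1 - u) := by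
        linear_combination hu'
      calc _ = (((j : ℝ) + 1 + 1) * F A₀) * (-(j + 1 + 1) * F A₁) := by ring
        _ = _ := by rw [e2, ← hu']; ring
    have s1 := mul_nonneg (sq_nonneg ((j : ℝ) + 1 + 1)) s0
    set S2 := ∑ A ∈ powersetCard (j + 1 + 1) (univ : Finset α), F A ^ 2
    set N := ((Fintype.card α).choose (j + 1) : ℝ)
    set N' := ((Fintype.card α).choose (j + 1 + 1) : ℝ)
    have e3 : ((j : ℝ) + 1 + 1) ^ 2 * ((j + 1 - i) ^ 2 * S2) = N * (F A₀ - F A₁) ^ 2
        * ((j + 1 - i) * (Fintype.card α - (j + 1) - (i + 1)) * u * (j + 1 + 1 - u)) := by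
      linear_combination ((j : ℝ) + 1 + 1) ^ 2 * (j + 1 - i) * v1
        + (j + 1 - i) * (Fintype.card α - (j + 1) - (i + 1)) * N * e1
    have e4 : ((j : ℝ) + 1 + 1) ^ 2 * (N' * ((F A₀ - F A₁) ^ 2 * ((u - 1) * (j + 1 - a - u))))
        = N * (F A₀ - F A₁) ^ 2
          * ((j + 1 - a - u) * (u - 1) * (Fintype.card α - (j + 1)) * (j + 1 + 1)) := by
      linear_combination ((j : ℝ) + 1 + 1) * ((F A₀ - F A₁) ^ 2 * ((u - 1) * (j + 1 - a - u))) * c1
    rw [← e3, ← e4]
    linarith

end Pool.Agent.H5Hom
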