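import Pool.Agent.Lib.MP_078193_al.MBlue

/-! The local group does not act on exactly `t + 1` points. -/

open Finset Equiv
open scoped Pointwise

set_option linter.unusedSectionVars false

namespace Pool.Agent.H5Hom

namespace S0

variable {α : Type} [Fintype α] [DecidableEq α] {β : Type} [Fintype β] [DecidableEq β]
  {G : Subgroup (Perm α)} {M : Subgroup (Perm β)} {ι : β ↪ α} {t q : ℕ} {B₀ A₀ : Finset α}

lemma smul_compl (g : Perm β) (A : Finset β) : g • Aᶜ = (g • A)ᶜ := by
  ext y
  simp only [mem_smul, mem_compl]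

lemma smul_one (g : Perm β) (x : β) : g • ({x} : Finset β)ᶜ = {g x}ᶜ := by
  rw [smul_compl, smul_eq_image, image_singleton]

lemma smul_two (g : Perm β) (x y : β) : g • ({x, y} : Finset β)ᶜ = {g x, g y}ᶜ := by
  rw [smul_compl, smul_insert, smul_eq_image, image_singleton]

/-- a permutation supported in a pair -/
lemma pair {g : Perm β} {b c : β} (hg : ∀ x, x ≠ b → x ≠ c → g x = x) : g = 1 ∨ g = swap b c := by
  have key : ∀ x, (g x = b ∨ g x = c) ↔ (x = b ∨ x = c) := by
    intro x
    constructor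
    · intro h
      by_contra h'
      push Not at h'
      rw [hg x h'.1 h'.2] at h
      tauto
    · intro h
      by_contra h'
      push Not at h'
      have := g.injective (hg _ h'.1 h'.2)
      rw [this] at h'
      tauto
  have hb := (key b).2 (Or.inl rfl)
  have hc := (key c).2 (Or.inr rfl)
  by_cases hbc : b = c
  · subst hbc
    left
    ext x
    by_cases hx : x = b
    · subst hx; simpa using hb
    · exact hg x hx hx
  rcases hb with hb | hb
  · left
    have hc' : g c = c := hc.resolve_left fun h => hbc (g.injective (hb.trans h.symm))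
    ext x
    by_cases hx : x = b
    · rw [hx, hb]; rfl
    by_cases hx' : x = c
    · rw [hx', hc']; rfl
    exact hg x hx hx'
  · right
    have hc' : g c = b := hc.resolve_right fun h => hbc (g.injective (hb.trans h.symm))
    ext x
    by_cases hx : x = b
    · rw [hx, hb, swap_apply_left]
    by_cases hx' : x = c
    · rw [hx', hc', swap_apply_right]
    rw [hg x hx hx', swap_apply_of_ne_of_ne hx hx']

lemma cauchy {p : ℕ} (hp : p.Prime) {K : Subgroup (Perm β)} (h : p ∣ Nat.card K) :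
    ∃ g ∈ K, orderOf g = p := by
  have : Fact p.Prime := ⟨hp⟩
  obtain ⟨g, hg⟩ := exists_prime_orderOf_dvd_card' (G := K) p h
  exact ⟨g, g.2, by rw [← hg, Subgroup.orderOf_coe]⟩

lemma order_swap (b c : β) : orderOf (swap b c) ∣ 2 :=
  orderOf_dvd_of_pow_eq_one (by rw [sq, swap_mul_self])

lemma gen_odd (hq : q.Prime) (h2 : q ≠ 2) (b c : β) :
    ¬ q ∣ Nat.card (fx M ({b, c} : Finset β)ᶜ) := by
  intro h
  obtain ⟨g, hg, ho⟩ := cauchy hq h
  rcases pair (g := g) (b := b) (c := c) (fun x h1 h2 => hg.2 x (by simp [h1, h2])) with e | e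
  · rw [e, orderOf_one] at ho
    exact hq.one_lt.ne ho
  · rw [e] at ho
    exact h2 ((Nat.prime_dvd_prime_iff_eq hq Nat.prime_two).1 (ho ▸ order_swap b c))

lemma gen_two {b c : β} (hbc : b ≠ c) :
    2 ∣ Nat.card (fx M ({b, c} : Finset β)ᶜ) ↔ swap b c ∈ M := by
  constructor
  · intro h
    obtain ⟨g, hg, ho⟩ := cauchy Nat.prime_two h
    rcases pair (g := g) (b := b) (c := c) (fun x h1 h2 => hg.2 x (by simp [h1, h2])) with e | e
    · rw [e, orderOf_one] at ho
      omega
    · exact e ▸ hg.1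
  · intro h
    have e2 : swap b c ∈ fx M ({b, c} : Finset β)ᶜ := ⟨h, fun x hx => by
      simp only [mem_compl, mem_insert, mem_singleton, not_or] at hx
      exact swap_apply_of_ne_of_ne hx.1 hx.2⟩
    have : Fact (Nat.Prime 2) := ⟨Nat.prime_two⟩
    have e3 : swap b c ^ 2 = 1 := by rw [sq, swap_mul_self]
    have e4 : swap b c ≠ 1 := by rwa [Ne, swap_eq_one_iff]
    rw [← orderOf_eq_prime e3 e4, ← Subgroup.orderOf_mk _ e2]
    exact orderOf_dvd_natCard _

lemma card3 (hβ : Fintype.card β = t + 1) {a b c : β} (hab : a ≠ b) (hac : a ≠ c) (hbc : b ≠ c) :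
    (({a, b, c} : Finset β)ᶜ).card + 2 = t := by
  have h3 : ({a, b, c} : Finset β).card = 3 := card_eq_three.2 ⟨a, b, c, hab, hac, hbc, rfl⟩
  have := card_le_univ ({a, b, c} : Finset β)
  rw [card_compl]; omega

lemma card2 (hβ : Fintype.card β = t + 1) {a b : β} (hab : a ≠ b) :
    (({a, b} : Finset β)ᶜ).card + 1 = t := by
  have h3 : ({a, b} : Finset β).card = 2 := card_pair hab
  have := card_le_univ ({a, b} : Finset β)
  rw [card_compl]; omega

lemma card1 (hβ : Fintype.card β = t + 1) (a : β) : (({a} : Finset β)ᶜ).card = t := by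
  rw [card_compl, card_singleton]; omega

lemma hom_of_trans (hβ : Fintype.card β = t + 1) (h : ∀ a b : β, ∃ u ∈ M, u a = b) :
    Hom M univ t := by
  intro A _ B _ hA hB
  obtain ⟨a, ha⟩ := card_eq_one.1 (show Aᶜ.card = 1 by rw [card_compl]; omega)
  obtain ⟨b, hb⟩ := card_eq_one.1 (show Bᶜ.card = 1 by rw [card_compl]; omega)
  obtain ⟨u, hu, hu'⟩ := h a b
  refine ⟨u, hu, ?_⟩
  rw [← compl_compl A, ← compl_compl B, ha, hb, smul_one, hu']

lemma odd (hfix : St_fix) (hc : Cex G t B₀ A₀) (hl : Link G t q M ι)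
    (hβ : Fintype.card β = t + 1) (h2 : q ≠ 2) : False := by
  have mv : ∀ a b c : β, a ≠ b → a ≠ c → b ≠ c → ∃ u ∈ M, u a = b ∨ u a = c := by
    intro a b c hab hac hbc
    have e1 : insert a ({a, b, c} : Finset β)ᶜ = {b, c}ᶜ := by
      ext x
      simp only [mem_insert, mem_compl, mem_singleton]
      by_cases hx : x = a
      · subst hx; tauto
      · tauto
    have hm : ¬ ∀ u ∈ fx M ({a, b, c} : Finset β)ᶜ, u a = a := by
      intro hall
      refine (hfix α β G M ι t q B₀ A₀ hc hl _ a b (card3 hβ hab hac hbc) (by simp)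
        (by rw [e1]; simp) (by rw [e1]; exact gen_odd hl.prime h2 b c) hall).2.2.2 ?_
      intro x hx y hy
      rw [e1] at hx hy
      simp only [mem_insert, mem_compl, mem_singleton] at hx hy
      refine ⟨1, Subgroup.one_mem _, ?_⟩
      have e2 : x = c := by tauto
      have e3 : y = c := by tauto
      rw [e2, e3]; rfl
    push Not at hm
    obtain ⟨u, hu, hu'⟩ := hm
    refine ⟨u, hu.1, ?_⟩
    by_contra h
    push Not at h
    exact hu' (u.injective (hu.2 _ (by simp [hu', h.1, h.2])))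
  refine hl.nh hc (hom_of_trans hβ fun a b => ?_)
  by_cases hab : a = b
  · exact ⟨1, M.one_mem, hab⟩
  obtain ⟨c, -, hc'⟩ := exists_mem_notMem_of_card_lt_card (s := ({a, b} : Finset β)) (t := univ)
    (by rw [card_univ, card_pair hab]; have := hc.ht; omega)
  simp only [mem_insert, mem_singleton, not_or] at hc'
  obtain ⟨u, hu, h | h⟩ := mv a b c hab (Ne.symm hc'.1) (Ne.symm hc'.2)
  · exact ⟨u, hu, h⟩
  obtain ⟨v, hv, h' | h'⟩ := mv b a c (Ne.symm hab) (Ne.symm hc'.2) (Ne.symm hc'.1)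
  · exact ⟨v⁻¹, M.inv_mem hv, by rw [← h', inv_ap]⟩
  · exact ⟨v⁻¹ * u, M.mul_mem (M.inv_mem hv) hu, by rw [Perm.mul_apply, h, ← h', inv_ap]⟩

lemma triple (hl : Link G t 2 M ι) (hβ : Fintype.card β = t + 1) {a b c : β} (hab : a ≠ b)
    (hac : a ≠ c) (hbc : b ≠ c) : swap a b ∈ M ∨ swap a c ∈ M ∨ swap b c ∈ M := by
  obtain ⟨g, hg, ho⟩ := cauchy Nat.prime_two (hl.lemA _ (card3 hβ hab hac hbc))
  have hf : ∀ x, x ≠ a → x ≠ b → x ≠ c → g x = x := fun x h1 h2 h3 =>
    hg.2 x (by simp [h1, h2, h3])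
  have h1 : g ≠ 1 := by
    rintro rfl
    rw [orderOf_one] at ho
    omega
  have h2 : ∀ x, g (g x) = x := fun x => by
    have := pow_orderOf_eq_one g
    rw [ho, sq] at this
    exact DFunLike.congr_fun this x
  by_cases ha : g a = a
  · right; right
    rcases pair (g := g) (b := b) (c := c) (fun x hb hc => by
      by_cases hx : x = a
      · rw [hx, ha]
      · exact hf x hx hb hc) with e | e
    · exact absurd e h1
    · exact e ▸ hg.1
  by_cases hb : g b = b
  · right; left
    rcases pair (g := g) (b := a) (c := c) (fun x ha hc => by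
      by_cases hx : x = b
      · rw [hx, hb]
      · exact hf x ha hx hc) with e | e
    · exact absurd e h1
    · exact e ▸ hg.1
  have hc : g c = c := by
    have e1 : g a = b ∨ g a = c := by
      by_contra h
      push Not at h
      exact ha (g.injective (hf _ ha h.1 h.2))
    have e2 : g b = a ∨ g b = c := by
      by_contra h
      push Not at h
      exact hb (g.injective (hf _ h.1 hb h.2))
    by_contra hc
    have e3 : g c = a ∨ g c = b := by
      by_contra h
      push Not at h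
      exact hc (g.injective (hf _ h.1 h.2 hc))
    have a1 := h2 a
    have a2 := h2 b
    have a3 := h2 c
    rcases e1 with e1 | e1 <;> rcases e2 with e2 | e2 <;> rcases e3 with e3 | e3
    all_goals grind
  left
  rcases pair (g := g) (b := a) (c := b) (fun x ha hb => by
    by_cases hx : x = c
    · rw [hx, hc]
    · exact hf x ha hb hx) with e | e
  · exact absurd e h1
  · exact e ▸ hg.1

lemma rel_trans {a b c : β} (h1 : swap a b ∈ M) (h2 : swap b c ∈ M) : swap a c ∈ M := by
  by_cases hab : a = b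
  · rwa [hab]
  by_cases hac : a = c
  · rw [hac, swap_self]; exact M.one_mem
  have := M.mul_mem (M.mul_mem h2 h1) h2
  rwa [swap_mul_swap_mul_swap hab hac, swap_comm] at this

lemma sig_orb {A A' : Finset α} (h : A' ∈ orb G A) :
    (Sig G B₀ A').card = (Sig G B₀ A).card := by
  obtain ⟨g, hg, rfl⟩ := mem_orb.1 h
  rw [Sig_smul hg, card_smul]

lemma erase_one (x y : β) :
    (({x} : Finset β)ᶜ.map ι).erase (ι y) = ({x, y} : Finset β)ᶜ.map ι := by
  rw [← map_erase']
  congr 1
  ext z
  simp only [mem_erase, mem_compl, mem_singleton, mem_insert]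
  tauto

lemma even (hconst : St_const) (hc : Cex G t B₀ A₀) (hl : Link G t 2 M ι)
    (hβ : Fintype.card β = t + 1) : False := by
  classical
  have ht := hc.ht
  have hn := hc.hn
  have hB := hc.hB
  have typ : ∀ A : Finset α, A.card = t → ∃ x : β, ({x} : Finset β)ᶜ.map ι ∈ orb G A := by
    intro A hA
    obtain ⟨x, -, hx⟩ := hc.hh.erase_map (ι := ι) hA (C := univ) (by rw [card_univ, hβ])
    exact ⟨x, by rwa [compl_singleton]⟩
  have rel : ∀ x y : β, swap x y ∈ M →
      ({y} : Finset β)ᶜ.map ι ∈ orb G (({x} : Finset β)ᶜ.map ι) := fun x y h =>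
    hl.orb_map (mem_orb.2 ⟨_, h, by rw [smul_one, swap_apply_left]⟩)
  obtain ⟨A₁, hA₁, hA₁'⟩ := hc.exists_sig
  obtain ⟨x₀, h0⟩ := typ A₀ hc.hA
  obtain ⟨x₁, h1⟩ := typ A₁ hA₁
  have s0 : (Sig G B₀ (({x₀} : Finset β)ᶜ.map ι)).card = 0 := by
    rw [sig_orb h0, hc.sig_empty, card_empty]
  have s1 : 0 < (Sig G B₀ (({x₁} : Finset β)ᶜ.map ι)).card := by
    rw [sig_orb h1]; exact hA₁'.card_pos
  have n01 : swap x₀ x₁ ∉ M := fun h => by
    have := sig_orb (B₀ := B₀) (rel _ _ h)
    omega
  have ne01 : x₀ ≠ x₁ := by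
    rintro rfl
    omega
  have cls : ∀ y, swap x₀ y ∈ M ∨ swap x₁ y ∈ M := by
    intro y
    by_cases e0 : x₀ = y
    · left; rw [e0, swap_self]; exact M.one_mem
    by_cases e1 : x₁ = y
    · right; rw [e1, swap_self]; exact M.one_mem
    exact (triple hl hβ ne01 e0 e1).resolve_left n01
  have two : ∀ A : Finset α, A.card = t → A ∈ orb G (({x₀} : Finset β)ᶜ.map ι) ∨
      A ∈ orb G (({x₁} : Finset β)ᶜ.map ι) := by
    intro A hA
    obtain ⟨x, hx⟩ := typ A hA
    exact (cls x).imp (fun h => orb_trans (rel _ _ h) (orb_symm hx))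
      (fun h => orb_trans (rel _ _ h) (orb_symm hx))
  have hTwo : Two G (t - 1) := by
    refine Two.pred (j := t - 1) ?_ (by omega)
    rw [show t - 1 + 1 = t by omega]
    intro A B C hA hB hC
    rcases two A hA with a | a <;> rcases two B hB with b | b <;> rcases two C hC with c | c
    all_goals first
      | exact Or.inl (orb_trans (orb_symm a) b)
      | exact Or.inr (Or.inl (orb_trans (orb_symm a) c))
      | exact Or.inr (Or.inr (orb_trans (orb_symm b) c))
  have p0 : ∀ y, x₀ ≠ y → ({x₀, y} : Finset β)ᶜ.map ι ∉ orb G B₀ := by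
    intro y hy h
    have : ι y ∈ Sig G B₀ (({x₀} : Finset β)ᶜ.map ι) :=
      mem_Sig.2 ⟨mem_map_of_mem _ (by simpa using hy.symm), by rwa [erase_one]⟩
    rw [card_eq_zero.1 s0] at this
    exact notMem_empty _ this
  have v0 : ∀ y, x₀ ≠ y → swap x₀ y ∉ M := by
    intro y hy h
    have c1 : (({x₀, y} : Finset β)ᶜ.map ι).card = t - 1 := by
      have := card2 hβ hy
      rw [card_map]; omega
    have c2 : (({x₀, x₁} : Finset β)ᶜ.map ι).card = t - 1 := by
      have := card2 hβ ne01
      rw [card_map]; omega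
    rcases hTwo B₀ _ _ (by omega) c1 c2 with a | a | a
    · exact p0 y hy a
    · exact p0 x₁ ne01 a
    · have b1 := (hl.gen _).1 fun h' => n01 ((gen_two ne01).1 h')
      rw [card_fx_of_mem_orb a] at b1
      exact (hl.gen _).2 b1 ((gen_two hy).2 h)
  have v1 : ∀ y, x₀ ≠ y → swap x₁ y ∈ M := fun y hy => (cls y).resolve_left (v0 y hy)
  have s2 : t ≤ (Sig G B₀ (({x₁} : Finset β)ᶜ.map ι)).card + 1 := by
    obtain ⟨z, hz⟩ := card_pos.1 s1
    obtain ⟨z1, z2⟩ := mem_Sig.1 hz
    obtain ⟨y, hy, rfl⟩ := mem_map.1 z1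
    rw [erase_one] at z2
    have y1 : y ≠ x₁ := by simpa using hy
    have y0 : x₀ ≠ y := by
      rintro rfl
      exact p0 x₁ ne01 (by rwa [pair_comm])
    have hsub : ({x₀, x₁} : Finset β)ᶜ.map ι ⊆ Sig G B₀ (({x₁} : Finset β)ᶜ.map ι) := by
      intro w hw
      obtain ⟨y', hy', rfl⟩ := mem_map.1 hw
      simp only [mem_compl, mem_insert, mem_singleton, not_or] at hy'
      refine mem_Sig.2 ⟨mem_map_of_mem _ (by simpa using hy'.2), ?_⟩
      rw [erase_one]
      have hs : swap y y' ∈ M :=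
        rel_trans (swap_comm x₁ y ▸ v1 y y0) (v1 y' (Ne.symm hy'.1))
      refine orb_trans z2 (hl.orb_map (mem_orb.2 ⟨_, hs, ?_⟩))
      rw [smul_two, swap_apply_left, swap_apply_of_ne_of_ne y1.symm (Ne.symm hy'.2)]
    have := card_le_card hsub
    rw [card_map] at this
    have := card2 hβ ne01
    omega
  have big : ∀ A : Finset α, A.card = t → (Sig G B₀ A).Nonempty →
      t ≤ (Sig G B₀ A).card + 1 := by
    intro A hA hne
    rcases two A hA with a | a
    · have := sig_orb (B₀ := B₀) a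
      have := hne.card_pos
      omega
    · rw [sig_orb a]; exact s2
  have := hconst α t 1 (fun A => Sig G B₀ A = ∅) hn (fun C hC => ?_) A₀ A₁ hc.hA hA₁ hc.sig_empty
  · exact hA₁'.ne_empty this
  obtain ⟨x, hx, hx'⟩ := hc.hh.erase hc.hA hC
  obtain ⟨y, hy, hy'⟩ := hc.hh.erase hA₁ hC
  have px : Sig G B₀ (C.erase x) = ∅ := by
    rw [← card_eq_zero, sig_orb hx', hc.sig_empty, card_empty]
  have py : (Sig G B₀ (C.erase y)).Nonempty := by
    rw [← card_pos, sig_orb hy']; exact hA₁'.card_pos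
  have cy : (C.erase y).card = t := by rw [card_erase_of_mem hy]; omega
  have b1 := big _ cy py
  have hsub : Sig G B₀ (C.erase y) ⊆ C.erase y := fun z hz => (mem_Sig.1 hz).1
  have b2 : (C.erase y \ Sig G B₀ (C.erase y)).card ≤ 1 := by
    rw [card_sdiff_of_subset hsub]; omega
  have b3 : ∀ z ∈ C, Sig G B₀ (C.erase z) = ∅ → z ∈ C.erase y \ Sig G B₀ (C.erase y) := by
    intro z hz pz
    have zy : z ≠ y := by
      rintro rfl
      exact py.ne_empty pz
    refine mem_sdiff.2 ⟨mem_erase.2 ⟨zy, hz⟩, fun h => ?_⟩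
    have : y ∈ Sig G B₀ (C.erase z) :=
      mem_Sig.2 ⟨mem_erase.2 ⟨zy.symm, hy⟩, by rw [erase_right_comm]; exact (mem_Sig.1 h).2⟩
    rw [pz] at this
    exact notMem_empty _ this
  refine card_eq_one.2 ⟨x, eq_singleton_iff_unique_mem.2 ⟨mem_filter.2 ⟨hx, px⟩, fun z hz => ?_⟩⟩
  exact card_le_one.1 b2 _ (b3 z (mem_filter.1 hz).1 (mem_filter.1 hz).2) _ (b3 x hx px)

end S0

theorem s0_of (hfix : St_fix) (hconst : St_const) : St_s0 := by
  intro α _ _ β _ _ G M ι t q B₀ A₀ hc hl hβ
  by_cases h2 : q = 2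
  · subst h2
    exact S0.even hconst hc hl hβ
  · exact S0.odd hfix hc hl hβ h2

end Pool.Agent.H5Hom
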