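import Pool.Agent.Lib.MP_078193_al.MBlue

/-! Block S1: the local group on `t + 2` points. -/

open Finset Equiv
open scoped Pointwise

set_option linter.unusedSectionVars false

namespace Pool.Agent.H5Hom

namespace S1

variable {β : Type} [Fintype β] [DecidableEq β] {M : Subgroup (Perm β)}

lemma cauchy {q : ℕ} (hq : q.Prime) {T : Finset β} (h : q ∣ Nat.card (fx M T)) :
    ∃ g ∈ M, g ^ q = 1 ∧ g.support ⊆ Tᶜ ∧ ∃ n, g.support.card = (n + 1) * q := by
  have : Fact q.Prime := ⟨hq⟩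
  obtain ⟨g, hg⟩ := exists_prime_orderOf_dvd_card' q h
  have ho : orderOf (g : Perm β) = q := by rw [Subgroup.orderOf_coe, hg]
  refine ⟨g, g.2.1, ho ▸ pow_orderOf_eq_one _, fun x hx => mem_compl.2 fun h' =>
    Perm.mem_support.1 hx (g.2.2 x h'), ?_⟩
  obtain ⟨n, hn⟩ := Perm.cycleType_prime_order (σ := (g : Perm β)) (ho ▸ hq)
  exact ⟨n, by rw [← Perm.sum_cycleType, hn, ho, Multiset.sum_replicate, smul_eq_mul]⟩

lemma t3_of {S : Finset β} (hS : S.card = 5) (h : 3 ∣ Nat.card (fx M Sᶜ)) :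
    ∃ a ∈ S, ∃ b ∈ S, ∃ c ∈ S, T3 M univ a b c := by
  obtain ⟨g, hg, h3, hs, n, hn⟩ := cauchy Nat.prime_three h
  rw [compl_compl] at hs
  have h5 := card_le_card hs
  have hc : g.support.card = 3 := by omega
  obtain ⟨a, ha⟩ := card_pos.1 (show 0 < g.support.card by omega)
  have hb : g a ∈ g.support := Perm.apply_mem_support.2 ha
  have hcc : g (g a) ∈ g.support := Perm.apply_mem_support.2 hb
  have e3 : g (g (g a)) = a := by
    have := congrArg (fun f : Perm β => f a) h3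
    simpa [pow_succ] using this
  have n1 : a ≠ g a := (Perm.mem_support.1 ha).symm
  have n2 : g a ≠ g (g a) := (Perm.mem_support.1 hb).symm
  have n3 : a ≠ g (g a) := fun e => n1 (by
    have := congrArg g e
    rw [e3] at this
    exact this.symm)
  have hsup : ({a, g a, g (g a)} : Finset β) = g.support :=
    eq_of_subset_of_card_le (by simp [insert_subset_iff, ha, hb, hcc])
      (by rw [hc, card_eq_three.2 ⟨_, _, _, n1, n3, n2, rfl⟩])
  refine ⟨a, hs ha, g a, hs hb, g (g a), hs hcc, mem_univ _, mem_univ _, mem_univ _, n1, n3, n2,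
    g, hg, rfl, rfl, e3, fun x _ x1 x2 x3 => ?_⟩
  by_contra hx
  have := hsup ▸ Perm.mem_support.2 hx
  simp [x1, x2, x3] at this

lemma t3_conj {a b c : β} (h : T3 M univ a b c) {k : Perm β} (hk : k ∈ M) :
    T3 M univ (k a) (k b) (k c) := by
  obtain ⟨-, -, -, n1, n2, n3, g, hg, e1, e2, e3, e4⟩ := h
  refine ⟨mem_univ _, mem_univ _, mem_univ _, k.injective.ne n1, k.injective.ne n2,
    k.injective.ne n3, k * g * k⁻¹, M.mul_mem (M.mul_mem hk hg) (M.inv_mem hk),
    by simp [e1], by simp [e2], by simp [e3], fun x _ x1 x2 x3 => ?_⟩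
  obtain ⟨y, rfl⟩ := k.surjective x
  simp [e4 y (mem_univ _) (fun e => x1 (e ▸ rfl)) (fun e => x2 (e ▸ rfl)) (fun e => x3 (e ▸ rfl))]

lemma trans1 (h : Hom M univ 1) (x y : β) : ∃ g ∈ M, g x = y := by
  obtain ⟨g, hg, e⟩ := h {x} (subset_univ _) {y} (subset_univ _) rfl rfl
  refine ⟨g, hg, ?_⟩
  have : g x ∈ g • ({x} : Finset β) := apply_mem_smul.2 (mem_singleton_self x)
  rwa [e, mem_singleton] at this

lemma r_refl (x : β) : swap x x ∈ M := by
  rw [swap_self]; exact M.one_mem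

lemma r_symm {x y : β} (h : swap x y ∈ M) : swap y x ∈ M := by rwa [swap_comm]

lemma r_conj {x y : β} (h : swap x y ∈ M) {g : Perm β} (hg : g ∈ M) : swap (g x) (g y) ∈ M := by
  rw [swap_apply_apply]
  exact M.mul_mem (M.mul_mem hg h) (M.inv_mem hg)

lemma r_trans {x y z : β} (h : swap x y ∈ M) (h' : swap y z ∈ M) : swap x z ∈ M := by
  by_cases e1 : x = y
  · rwa [e1]
  by_cases e2 : x = z
  · rw [e2]; exact r_refl z
  have := r_conj h h'
  rwa [swap_apply_of_ne_of_ne e1 e2, swap_apply_left] at this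

end S1

open S1 in
theorem s1_of (hfix : St_fix) (htwob : St_twob) (htri : St_tri) (hswap : St_swap) : St_s1 := by
  intro α _ _ β _ _ G M ι t q B₀ A₀ hc hl hβ hq2 hh
  have ht := hc.ht
  have hnh := hl.nh hc
  have h1 : Hom M univ 1 := hh.hom_one le_rfl (by omega)
  have hall : ∀ V : Finset β, V = univ → (∀ j, Hom (fx M Vᶜ) V j) → False := by
    rintro V rfl h
    have := h t
    rw [compl_univ, fx_empty] at this
    exact hnh this
  have hq3 : q ≠ 3 := by
    rintro rfl
    have h5 : ∀ S ⊆ (univ : Finset β), S.card = 5 → ∃ a ∈ S, ∃ b ∈ S, ∃ c ∈ S, T3 M univ a b c :=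
      fun S _ hS => t3_of hS (hl.lemA _ (by rw [card_compl]; omega))
    obtain ⟨W₁, -, W₂, -, hd, w1, w2, w3, w4, w5⟩ :=
      htri β M univ inv_univ (by rw [card_univ]; omega) h5
    have hu : W₁ ∪ W₂ = univ := by
      obtain ⟨S, hS, hS'⟩ := exists_subset_card_eq (s := (univ : Finset β)) (n := 5)
        (by rw [card_univ]; omega)
      obtain ⟨a, -, b, -, c, -, h⟩ := h5 S hS hS'
      refine eq_univ_of_forall fun x => ?_
      obtain ⟨g, hg, rfl⟩ := trans1 h1 a x
      exact w4 _ _ _ (t3_conj h hg)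
    have s1 := hswap β M W₁ (Or.inr ⟨w1, w2⟩)
    rcases w5 with ⟨e, -⟩ | ⟨e, -⟩
    · exact hall W₁ (by simpa [e] using hu) s1
    · have s2 := hswap β M W₂ (Or.inr ⟨e, w3⟩)
      have hcomp : IsCompl W₁ W₂ := ⟨hd, codisjoint_iff.2 hu⟩
      have c1 : W₁ᶜ = W₂ := hcomp.compl_eq
      have c2 : W₂ᶜ = W₁ := hcomp.symm.compl_eq
      rw [c2] at s2
      exact htwob α β G M ι t 3 B₀ A₀ W₁ hc hl hβ (by omega) (by rw [c1]; omega) s1
        (by rw [c1]; exact s2) (Or.inl hq2)
  refine ⟨hq3, fun g hg X hX hX' => ?_⟩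
  by_contra hg1
  have hq5 : 4 ≤ q := by have := hl.prime.two_le; omega
  obtain ⟨x₀, y₀, hxy, hsw⟩ : ∃ x y, x ≠ y ∧ swap x y ∈ M := by
    have e4 : g.support ⊆ Xᶜ := fun x hx => mem_compl.2 fun h =>
      Perm.mem_support.1 hx (hX' x h)
    have e5 := card_le_card e4
    rw [card_compl] at e5
    have e6 := Perm.two_le_card_support_of_ne_one hg1
    obtain ⟨x, y, hxy, rfl⟩ := Perm.card_support_eq_two.1 (show g.support.card = 2 by omega)
    exact ⟨x, y, hxy, hg⟩
  have part : ∀ a, ∃ a', a ≠ a' ∧ swap a a' ∈ M := fun a => by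
    obtain ⟨k, hk, rfl⟩ := trans1 h1 x₀ a
    exact ⟨k y₀, k.injective.ne hxy, r_conj hsw hk⟩
  by_cases h3 : ∃ a b c, swap a b ∉ M ∧ swap a c ∉ M ∧ swap b c ∉ M
  · obtain ⟨a, b, c, hab, hac, hbc⟩ := h3
    obtain ⟨a', ha, ha'⟩ := part a
    obtain ⟨b', hb, hb'⟩ := part b
    have hab' : swap a' b ∉ M := fun h => hab (r_trans ha' h)
    have hac' : swap a' c ∉ M := fun h => hac (r_trans ha' h)
    have ne : ∀ {x y : β}, swap x y ∉ M → x ≠ y := fun h e => h (e ▸ r_refl _)
    have n1 := ne hab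
    have n2 := ne hac
    have n3 := ne hbc
    have n4 := ne hab'
    have n5 := ne hac'
    have hcard : ({a, a', b, c} : Finset β).card = 4 := by
      rw [card_insert_of_notMem (by simp [ha, n1, n2]), card_insert_of_notMem (by simp [n4, n5]),
        card_pair n3]
    set Y : Finset β := ({a, a', b, c} : Finset β)ᶜ with hY
    have hmem : ∀ x, x ∈ Y ↔ x ≠ a ∧ x ≠ a' ∧ x ≠ b ∧ x ≠ c := fun x => by simp [hY]
    have hYc : Y.card + 2 = t := by rw [hY, card_compl, hcard]; omega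
    have hbY : b ∉ Y := by simp [hmem]
    have hcY : c ∉ insert b Y := by simp [hmem, n3.symm]
    have hgen : ¬ q ∣ Nat.card (fx M (insert b Y)) := by
      intro h
      obtain ⟨u, -, -, hs, n, hn⟩ := cauchy hl.prime h
      have := card_le_card hs
      rw [card_compl, card_insert_of_notMem hbY, hn] at this
      have : q ≤ (n + 1) * q := Nat.le_mul_of_pos_left _ (Nat.succ_pos n)
      omega
    have hfb : ∀ u ∈ fx M Y, u b = b := by
      intro u hu
      have hb'Y : b' ∈ Y := (hmem b').2 ⟨fun e => hab (r_symm (e ▸ hb')),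
        fun e => hab' (r_symm (e ▸ hb')), hb.symm, fun e => hbc (e ▸ hb')⟩
      have h2 := r_conj hb' hu.1
      rw [hu.2 b' hb'Y] at h2
      have h4 : swap (u b) b ∈ M := r_trans h2 (r_symm hb')
      by_contra hne
      exact hne (u.injective (hu.2 (u b) ((hmem _).2 ⟨fun e => hab (e ▸ h4),
        fun e => hab' (e ▸ h4), hne, fun e => hbc (r_symm (e ▸ h4))⟩)))
    refine (hfix α β G M ι t q B₀ A₀ hc hl Y b c hYc hbY hcY hgen hfb).2.2.2
      fun x hx y hy => ?_
    have out : ∀ z, z ∉ insert c (insert b Y) → swap a z ∈ M := by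
      intro z hz
      by_cases e1 : z = a
      · rw [e1]; exact r_refl a
      by_cases e2 : z = a'
      · rwa [e2]
      simp only [mem_insert, hmem, not_or] at hz
      exact absurd ⟨e1, e2, hz.2.1, hz.1⟩ hz.2.2
    refine ⟨swap x y, ⟨r_trans (r_symm (out x hx)) (out y hy), fun z hz => ?_⟩,
      swap_apply_left x y⟩
    exact swap_apply_of_ne_of_ne (fun e => hx (e ▸ hz)) (fun e => hy (e ▸ hz))
  · classical
    set V : Finset β := univ.filter (fun z => swap x₀ z ∈ M) with hV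
    have hmem : ∀ z, z ∈ V ↔ swap x₀ z ∈ M := fun z => by simp [hV]
    have s1 := hswap β M V (Or.inl fun x hx y hy =>
      r_trans (r_symm ((hmem x).1 hx)) ((hmem y).1 hy))
    by_cases hU : V = univ
    · exact hall V hU s1
    have s2 := hswap β M Vᶜ (Or.inl fun x hx y hy => by
      by_contra h
      exact h3 ⟨x₀, x, y, (hmem x).not.1 (mem_compl.1 hx), (hmem y).not.1 (mem_compl.1 hy), h⟩)
    rw [compl_compl] at s2
    obtain ⟨b, hb⟩ : ∃ b, b ∉ V := by
      by_contra h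
      exact hU (eq_univ_of_forall fun z => by
        by_contra hz
        exact h ⟨z, hz⟩)
    obtain ⟨b', hb1, hb2⟩ := part b
    refine htwob α β G M ι t q B₀ A₀ V hc hl hβ
      (one_lt_card.2 ⟨x₀, (hmem _).2 (r_refl _), y₀, (hmem _).2 hsw, hxy⟩)
      (one_lt_card.2 ⟨b, mem_compl.2 hb, b', mem_compl.2 fun h => hb ?_, hb1⟩) s1 s2 (Or.inl hq2)
    exact (hmem _).2 (r_trans ((hmem _).1 h) (r_symm hb2))

end Pool.Agent.H5Hom
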