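import Pool.Agent.Lib.MP_078193_al.MBlue

/-! The local group inherits the homogeneity property and acts on at most `2 t - 1` points. -/

open Finset Equiv
open scoped Pointwise

set_option linter.unusedSectionVars false

namespace Pool.Agent.H5Hom

namespace Step0

variable {α : Type} [Fintype α] [DecidableEq α] {β : Type} [Fintype β] [DecidableEq β]
  {G : Subgroup (Perm α)} {M : Subgroup (Perm β)} {ι : β ↪ α} {t q : ℕ} {B₀ A₀ : Finset α}

lemma generic (hc : Cex G t B₀ A₀) (h : Link G t q M ι) {A C : Finset β} (hA : A.card = t)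
    (hC : C.card = t + 1) (hq : ¬ q ∣ Nat.card (fx M A)) : ∃ u ∈ M, u • A ⊆ C := by
  obtain ⟨g, hg, hg'⟩ := hc.hh (A.map ι) (C.map ι) (by rwa [card_map]) (by rwa [card_map])
  have h1 : ∀ x : β, ∃ y : β, x ∈ A → y ∈ C ∧ g (ι x) = ι y := by
    intro x
    by_cases hx : x ∈ A
    · obtain ⟨y, hy, hy'⟩ := mem_map.1 (hg' (apply_mem_smul.2 (mem_map_of_mem ι hx)))
      exact ⟨y, fun _ => ⟨hy, hy'.symm⟩⟩
    · exact ⟨x, fun hx' => absurd hx' hx⟩
  choose φ hφ using h1
  obtain ⟨u, hu, hu'⟩ := h.fus A hq g hg φ fun x hx => (hφ x hx).2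
  refine ⟨u, hu, fun y hy => ?_⟩
  obtain ⟨x, rfl⟩ := u.surjective y
  have hx := apply_mem_smul.1 hy
  rw [hu' x hx]
  exact (hφ x hx).1

lemma closed (h : Link G t q M ι) {A : Finset β} (hA : A.card = t)
    (hq : q ∣ Nat.card (fx M A)) : ∃ P, Syl q (fx M A) P ∧ fixs P = A := by
  obtain ⟨P, hP⟩ := exists_syl' h.prime (fx M A)
  refine ⟨P, hP, Subset.antisymm (fun x hx => ?_)
    (fun x hx => mem_fixs.2 fun g hg => (hP.1 hg).2 x hx)⟩
  by_contra hxA
  have h1 : P ≤ fx M (insert x A) := fun g hg => ⟨(hP.1 hg).1, fun y hy => by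
    rcases mem_insert.1 hy with rfl | hy
    · exact mem_fixs.1 hx g hg
    · exact (hP.1 hg).2 y hy⟩
  have h2 := Subgroup.card_dvd_of_le h1
  rw [hP.2] at h2
  have h3 := (h.prime.dvd_iff_one_le_factorization Nat.card_pos.ne').1 hq
  exact h.big (insert x A) (by rw [card_insert_of_notMem hxA]; omega)
    ((dvd_pow_self q (by omega)).trans h2)

lemma special (hj : St_john) (hc : Cex G t B₀ A₀) (h : Link G t q M ι) (h2 : q ≠ 2)
    {A C : Finset β} (hA : A.card = t) (hC : C.card = t + 1) (hq : q ∣ Nat.card (fx M A)) :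
    ∃ u ∈ M, u • A ⊆ C := by
  have hq3 : 2 < q := lt_of_le_of_ne h.prime.two_le h2.symm
  obtain ⟨x, -, hx⟩ := exists_mem_notMem_of_card_lt_card (s := A) (t := univ)
    (by rw [card_univ]; have := h.lo; omega)
  refine hj β univ (t + 1) (fun C => ∃ u ∈ M, u • A ⊆ C) ?_ (insert x A) (subset_univ _) C
    (subset_univ _) (by rw [card_insert_of_notMem hx, hA]) hC
    ⟨1, M.one_mem, by rw [one_smul]; exact subset_insert _ _⟩
  rintro U - hU ⟨u, hu, hu'⟩ a ha b - hb
  have hC' : (insert b (U.erase a)).card = t + 1 := by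
    rw [card_insert_of_notMem (fun hb' => hb (mem_of_mem_erase hb')), card_erase_of_mem ha]
    omega
  obtain ⟨y, hy, hy'⟩ := hc.hh.erase_map (ι := ι) (A := A.map ι) (by rwa [card_map]) hC'
  have c1 : (u • A).card = t := by rw [card_smul, hA]
  have c2 : ((insert b (U.erase a)).erase y).card = t := by rw [card_erase_of_mem hy]; omega
  have q1 : q ∣ Nat.card (fx M (u • A)) := by rwa [card_fx_smul hu]
  have q2 : q ∣ Nat.card (fx M ((insert b (U.erase a)).erase y)) := by
    rw [h.dvd_ee c2, ee_orb hy']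
    exact (h.dvd_ee hA).1 hq
  obtain ⟨P, hP, hP'⟩ := closed h c1 q1
  obtain ⟨Q, hQ, hQ'⟩ := closed h c2 q2
  have d1 : (u • A \ (insert b (U.erase a)).erase y).card < q := by
    have : u • A \ (insert b (U.erase a)).erase y ⊆ {a, y} := by
      intro z hz
      obtain ⟨z1, z2⟩ := mem_sdiff.1 hz
      have z3 := hu' z1
      simp only [mem_erase, mem_insert, mem_singleton] at z2 ⊢
      tauto
    exact lt_of_le_of_lt ((card_le_card this).trans card_le_two) hq3
  obtain ⟨k, hk, -, hk'⟩ := adj h.prime hP hP' hQ hQ' d1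
    (by rwa [card_sdiff_comm (c2.trans c1.symm)])
  exact ⟨k * u, M.mul_mem hk.1 hu, by rw [mul_smul, hk']; exact erase_subset _ _⟩

lemma not_pred (hc : Cex G t B₀ A₀) (h : Link G t q M ι) : ¬ HH M (t - 1) := by
  intro hh
  have ht := hc.ht
  obtain ⟨C, -, hC⟩ := exists_subset_card_eq (s := (univ : Finset β)) (n := t + 1)
    (by rw [card_univ]; exact h.lo)
  obtain ⟨x, hx, hx'⟩ := hc.hh.erase_map (ι := ι) hc.hA hC
  obtain ⟨A, hA, z, hz⟩ := hc.exists_sig
  obtain ⟨y, hy, hy'⟩ := hc.hh.erase_map (ι := ι) hA hC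
  obtain ⟨g, hg, hg'⟩ := mem_orb.1 hy'
  have h1 : g z ∈ Sig G B₀ ((C.erase y).map ι) := by
    rw [← hg', Sig_smul hg]
    exact apply_mem_smul.2 hz
  obtain ⟨h2, h3⟩ := mem_Sig.1 h1
  obtain ⟨w, hw, hw'⟩ := mem_map.1 h2
  rw [← hw', ← map_erase'] at h3
  obtain ⟨u, hu, hu'⟩ := hh ((C.erase y).erase w) (C.erase x)
    (by rw [card_erase_of_mem hw, card_erase_of_mem hy]; omega)
    (by rw [card_erase_of_mem hx]; omega)
  obtain ⟨g₁, hg₁, e₁⟩ := mem_orb.1 (orb_trans h3 (h.orb_map (mem_orb.2 ⟨u, hu, rfl⟩)))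
  obtain ⟨g₀, hg₀, e₀⟩ := mem_orb.1 hx'
  refine hc.pure (g₀⁻¹ * g₁) (G.mul_mem (G.inv_mem hg₀) hg₁) ?_
  rw [← smul_subset_smul (g := g₀), ← mul_smul, mul_inv_cancel_left, e₁, e₀]
  exact map_subset_map.2 hu'

end Step0

theorem step0_of (h1 : St_john) (h2 : St_compl) (h3 : St_small) : St_step0 := by
  intro α _ _ β _ _ G M ι t q B₀ A₀ hc h hq hd
  have ht := hc.ht
  have hlo := h.lo
  have hh : HH M t := by
    intro A C hA hC
    by_cases hg : q ∣ Nat.card (fx M A)
    · refine Step0.special h1 hc h ?_ hA hC hg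
      rcases hq with hq | hq
      · exact hq
      · rintro rfl
        exact hq (A.map ι) (by rwa [card_map]) ((h.dvd_ee hA).1 hg)
    · exact Step0.generic hc h hA hC hg
  have hn := Step0.not_pred hc h
  have hφ : Fintype.card β + 1 ≤ 2 * t := by
    by_contra hlt
    by_cases he : Fintype.card β = 2 * t
    · exact hn ((h2 β M t (t - 1)).1 (by omega) hh)
    · exact hn (hd M t ht (by omega) hh)
  refine ⟨hh, hφ, ?_⟩
  have key : ∀ d i, i + d + t + 1 = Fintype.card β → HH M i := by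
    intro d
    induction d with
    | zero => exact fun i hi => (h2 β M t i).1 (by omega) hh
    | succ d ih =>
      intro i hi
      have h4 := ih (i + 1) (by omega)
      by_cases h6 : 6 ≤ i + 1
      · exact hd M (i + 1) h6 (by omega) h4
      · exact h3 β M (i + 1) (by omega) (by omega) (by omega) h4
  exact fun i hi => key (Fintype.card β - (i + t + 1)) i (by omega)

end Pool.Agent.H5Hom
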