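import Pool.Agent.Lib.MP_078193_al.MBlue

/-! Induced three-cycles on an invariant set split it into at most two classes. -/

open Finset Equiv

set_option linter.unusedSectionVars false

namespace Pool.Agent.H5Hom

namespace Tri

variable {α : Type} [Fintype α] [DecidableEq α] {L : Subgroup (Perm α)} {K : Finset α}
  {a b c p x y u : α}

lemma rot (h : T3 L K a b c) : T3 L K b c a := by
  obtain ⟨ha, hb, hc, hab, hac, hbc, g, hg, h1, h2, h3, h4⟩ := h
  exact ⟨hb, hc, ha, hbc, hab.symm, hac.symm, g, hg, h2, h3, h1,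
    fun x hx e1 e2 e3 => h4 x hx e3 e1 e2⟩

lemma flip (h : T3 L K a b c) : T3 L K a c b := by
  obtain ⟨ha, hb, hc, hab, hac, hbc, g, hg, h1, h2, h3, h4⟩ := h
  refine ⟨ha, hc, hb, hac, hab, hbc.symm, g⁻¹, L.inv_mem hg, ?_, ?_, ?_, fun x hx e1 e2 e3 => ?_⟩
  · rw [Perm.inv_eq_iff_eq]; exact h3.symm
  · rw [Perm.inv_eq_iff_eq]; exact h2.symm
  · rw [Perm.inv_eq_iff_eq]; exact h1.symm
  · rw [Perm.inv_eq_iff_eq]; exact (h4 x hx e1 e3 e2).symm

lemma swap (h : T3 L K a b c) : T3 L K b a c := flip (rot h)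

lemma conj (hK : Inv L K) {g : Perm α} (hg : g ∈ L) (h : T3 L K a b c) :
    T3 L K (g a) (g b) (g c) := by
  obtain ⟨ha, hb, hc, hab, hac, hbc, k, hk, h1, h2, h3, h4⟩ := h
  refine ⟨hK g hg a ha, hK g hg b hb, hK g hg c hc, g.injective.ne hab, g.injective.ne hac,
    g.injective.ne hbc, g * k * g⁻¹, L.mul_mem (L.mul_mem hg hk) (L.inv_mem hg), ?_, ?_, ?_,
    fun x hx e1 e2 e3 => ?_⟩
  · simp [h1]
  · simp [h2]
  · simp [h3]
  · obtain ⟨y, rfl⟩ := g.surjective x
    have hy : y ∈ K := by simpa using hK g⁻¹ (L.inv_mem hg) _ hx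
    have := h4 y hy (fun e => e1 (e ▸ rfl)) (fun e => e2 (e ▸ rfl)) (fun e => e3 (e ▸ rfl))
    simp [this]

/-- two points lie in a common induced three-cycle -/
def R (L : Subgroup (Perm α)) (K : Finset α) (x y : α) : Prop := ∃ z, T3 L K x y z

lemma R.symm (h : R L K x y) : R L K y x := by
  obtain ⟨z, h⟩ := h
  exact ⟨z, swap h⟩

lemma R.trans (hK : Inv L K) (h : R L K a b) (h' : R L K b c) (hac : a ≠ c) : R L K a c := by
  obtain ⟨z, h⟩ := h
  obtain ⟨e, h'⟩ := h'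
  by_cases hae : a = e
  · subst hae
    exact ⟨b, flip (rot (rot h'))⟩
  · obtain ⟨-, -, -, -, -, -, g, hg, h1, -, -, h4⟩ := h'
    have h5 := conj hK hg h
    rw [h4 a h.1 h.2.2.2.1 hac hae, h1] at h5
    exact ⟨_, h5⟩

lemma full (hK : Inv L K) (h : R L K x y) (h' : R L K x u) (hyu : y ≠ u) : T3 L K x y u := by
  obtain ⟨v, h⟩ := h
  by_cases hv : v = u
  · exact hv ▸ h
  have hxu : x ≠ u := by obtain ⟨w, hw⟩ := h'; exact hw.2.2.2.1
  have hxy := h.2.2.2.1
  have hxv := h.2.2.2.2.1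
  have hyv := h.2.2.2.2.2.1
  obtain ⟨w, hw⟩ : R L K v u := R.trans hK (R.symm ⟨y, flip h⟩) h' hv
  obtain ⟨-, -, -, -, -, -, g, hg, h1, -, h3, h4⟩ := hw
  have h5 := conj hK hg h
  rw [h1] at h5
  by_cases hwx : x = w
  · subst hwx
    rw [h3, h4 y h.2.1 hyv hyu hxy.symm] at h5
    obtain ⟨-, -, -, -, -, -, k, hk, k1, k2, -, k4⟩ := h5
    have h6 := conj hK hk h
    rw [k1, k2, k4 x h.1 hxv hxy hxu] at h6
    exact flip h6
  by_cases hwy : y = w
  · subst hwy
    rw [h3, h4 x h.1 hxv hxu hxy] at h5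
    obtain ⟨-, -, -, -, -, -, k, hk, k1, k2, -, k4⟩ := swap h5
    have h6 := conj hK hk h
    rw [k1, k2, k4 y h.2.1 hyv hxy.symm hyu] at h6
    exact rot (rot (flip (rot h6)))
  · rwa [h4 x h.1 hxv hxu hwx, h4 y h.2.1 hyv hyu hwy] at h5

open Classical in
/-- the class of a point -/
noncomputable def W (L : Subgroup (Perm α)) (K : Finset α) (p : α) : Finset α :=
  K.filter fun x => x = p ∨ R L K p x

lemma mem_W : x ∈ W L K p ↔ x ∈ K ∧ (x = p ∨ R L K p x) := by
  simp [W]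

lemma W_sub : W L K p ⊆ K := fun _ h => (mem_W.1 h).1

lemma W_step (hK : Inv L K) (hx : x ∈ W L K p) (h : R L K x y) : y ∈ W L K p := by
  have hy : y ∈ K := by obtain ⟨z, hz⟩ := h; exact hz.2.1
  refine mem_W.2 ⟨hy, ?_⟩
  by_cases e : y = p
  · exact Or.inl e
  rcases (mem_W.1 hx).2 with rfl | h'
  · exact Or.inr h
  · exact Or.inr (R.trans hK h' h (Ne.symm e))

lemma W_rel (hK : Inv L K) (hx : x ∈ W L K p) (hy : y ∈ W L K p) (e : x ≠ y) : R L K x y := by
  rcases (mem_W.1 hx).2 with rfl | h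
  · exact (mem_W.1 hy).2.resolve_left e.symm
  rcases (mem_W.1 hy).2 with rfl | h'
  · exact h.symm
  · exact R.trans hK h.symm h' e

lemma W_all (hK : Inv L K) : ∀ a ∈ W L K p, ∀ b ∈ W L K p, ∀ c ∈ W L K p,
    a ≠ b → a ≠ c → b ≠ c → T3 L K a b c :=
  fun _ ha _ hb _ hc h1 h2 h3 => full hK (W_rel hK ha hb h1) (W_rel hK ha hc h2) h3

lemma W_self (h : p ∈ K) : p ∈ W L K p := mem_W.2 ⟨h, Or.inl rfl⟩

lemma W_card (h : T3 L K p b c) : 3 ≤ (W L K p).card :=
  two_lt_card_iff.2 ⟨p, b, c, W_self h.1, mem_W.2 ⟨h.2.1, Or.inr ⟨c, h⟩⟩,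
    mem_W.2 ⟨h.2.2.1, Or.inr ⟨b, flip h⟩⟩, h.2.2.2.1, h.2.2.2.2.1, h.2.2.2.2.2.1⟩

lemma no3 {U : Finset α} (hU : U.card = 2) (h : T3 L K a b c) (ha : a ∈ U) (hb : b ∈ U)
    (hc : c ∈ U) : False := by
  have : 2 < U.card := two_lt_card_iff.2 ⟨a, b, c, ha, hb, hc, h.2.2.2.1, h.2.2.2.2.1, h.2.2.2.2.2.1⟩
  omega

lemma trap (hK : Inv L K) {S U : Finset α} (hU : U.card = 2) (hS : ∀ x ∈ S, x ∈ W L K p → x ∈ U)
    (h : T3 L K a b c) (ha : a ∈ S) (hb : b ∈ S) (hc : c ∈ S) : a ∉ W L K p := fun hp =>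
  no3 hU h (hS a ha hp) (hS b hb (W_step hK hp ⟨c, h⟩)) (hS c hc (W_step hK hp ⟨b, flip h⟩))

end Tri

open Tri in
theorem tri_of : St_tri := by
  intro α _ _ L K hK h5 hS
  obtain ⟨S₀, hS₀, hS₀'⟩ := exists_subset_card_eq h5
  obtain ⟨p, -, b₀, -, c₀, -, hp⟩ := hS S₀ hS₀ hS₀'
  have hW := W_card hp
  obtain ⟨U, hU, hU'⟩ := exists_subset_card_eq (s := W L K p) (n := 2) (by omega)
  by_cases hall : ∀ a b c, T3 L K a b c → a ∈ W L K p
  · refine ⟨W L K p, W_sub, ∅, empty_subset _, disjoint_empty_right _, hW, W_all hK, by simp,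
      fun a b c h => mem_union_left _ (hall a b c h), Or.inl ⟨rfl, ?_⟩⟩
    by_contra hlt
    have hc : (K \ W L K p).card = K.card - (W L K p).card := card_sdiff_of_subset W_sub
    obtain ⟨T, hT, hT'⟩ := exists_subset_card_eq (s := K \ W L K p) (n := 3) (by omega)
    have hd : Disjoint T U := disjoint_left.2 fun x hx hx' => (mem_sdiff.1 (hT hx)).2 (hU hx')
    obtain ⟨a, ha, b, hb, c, hc, h⟩ := hS (T ∪ U)
      (union_subset (hT.trans sdiff_subset) (hU.trans W_sub))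
      (by rw [card_union_of_disjoint hd]; omega)
    refine trap hK hU' (fun x hx hx' => ?_) h ha hb hc (hall a b c h)
    exact (mem_union.1 hx).resolve_left fun e => (mem_sdiff.1 (hT e)).2 hx'
  · push Not at hall
    obtain ⟨r, b₁, c₁, hr, hr'⟩ := hall
    have hW' := W_card hr
    obtain ⟨V, hV, hV'⟩ := exists_subset_card_eq (s := W L K r) (n := 2) (by omega)
    have hd : Disjoint (W L K p) (W L K r) := disjoint_left.2 fun x hx hx' => by
      rcases (mem_W.1 hx').2 with rfl | h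
      · exact hr' hx
      · exact hr' (W_step hK hx h.symm)
    have hun : W L K p ∪ W L K r = K := by
      refine Subset.antisymm (union_subset W_sub W_sub) fun z hz => ?_
      by_contra hz'
      have hz1 : z ∉ W L K p := fun e => hz' (mem_union_left _ e)
      have hz2 : z ∉ W L K r := fun e => hz' (mem_union_right _ e)
      have hz3 : z ∉ U ∪ V := fun e => (mem_union.1 e).elim (fun e => hz1 (hU e))
        fun e => hz2 (hV e)
      obtain ⟨a, ha, b, hb, c, hc, h⟩ := hS (insert z (U ∪ V))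
        (insert_subset hz (union_subset (hU.trans W_sub) (hV.trans W_sub)))
        (by rw [card_insert_of_notMem hz3, card_union_of_disjoint (hd.mono hU hV)]; omega)
      have t1 : ∀ x ∈ insert z (U ∪ V), x ∈ W L K p → x ∈ U := fun x hx hx' => by
        rcases mem_insert.1 hx with rfl | hx
        · exact absurd hx' hz1
        · exact (mem_union.1 hx).resolve_right fun e => disjoint_left.1 hd hx' (hV e)
      have t2 : ∀ x ∈ insert z (U ∪ V), x ∈ W L K r → x ∈ V := fun x hx hx' => by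
        rcases mem_insert.1 hx with rfl | hx
        · exact absurd hx' hz2
        · exact (mem_union.1 hx).resolve_left fun e => disjoint_left.1 hd (hU e) hx'
      have key : ∀ {x y w : α}, T3 L K x y w → x ∈ insert z (U ∪ V) → y ∈ insert z (U ∪ V) →
          w ∈ insert z (U ∪ V) → x = z := fun h hx hy hw => by
        rcases mem_insert.1 hx with e | e
        · exact e
        · rcases mem_union.1 e with e | e
          · exact absurd (hU e) (trap hK hU' t1 h hx hy hw)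
          · exact absurd (hV e) (trap hK hV' t2 h hx hy hw)
      exact h.2.2.2.1 ((key h ha hb hc).trans (key (rot h) hb hc ha).symm)
    exact ⟨W L K p, W_sub, W L K r, W_sub, hd, hW, W_all hK, W_all hK,
      fun a b c h => hun.symm ▸ h.1, Or.inr ⟨hW', hun⟩⟩

end Pool.Agent.H5Hom
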