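import Pool.Agent.Lib.MP_078193_al.MBlue

/-! Block TWOB: two classes on a fixed set of `t + 2` points. -/

open Finset Equiv
open scoped Pointwise

set_option linter.unusedSectionVars false

namespace Pool.Agent.H5Hom

namespace TWOB

variable {α : Type} [Fintype α] [DecidableEq α] {β : Type} [Fintype β] [DecidableEq β]
  {G : Subgroup (Perm α)} {M : Subgroup (Perm β)} {ι : β ↪ α} {t q : ℕ} {B₀ A₀ : Finset α}
  {V : Finset β}

/-- the image of a complement -/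
def cc (ι : β ↪ α) (D : Finset β) : Finset α := Dᶜ.map ι

lemma mem_cc {D : Finset β} {z : β} : ι z ∈ cc ι D ↔ z ∉ D := by simp [cc]

lemma cc_erase (D : Finset β) (z : β) : (cc ι D).erase (ι z) = cc ι (insert z D) := by
  rw [cc, cc, compl_insert, map_erase]

lemma cc_insert {D : Finset β} {z : β} (h : z ∉ D) : insert (ι z) (cc ι (insert z D)) = cc ι D := by
  rw [← cc_erase, insert_erase (mem_cc.2 h)]

lemma card_cc (D : Finset β) : (cc ι D).card = Fintype.card β - D.card := by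
  rw [cc, card_map, card_compl]

lemma card_sig {A A' : Finset α} (h : A' ∈ orb G A) : (Sig G B₀ A').card = (Sig G B₀ A).card := by
  obtain ⟨g, hg, rfl⟩ := mem_orb.1 h
  rw [Sig_smul hg, card_smul]

lemma pure_orb {A A' : Finset α} (h : A' ∈ orb G A) : Sig G B₀ A' = ∅ ↔ Sig G B₀ A = ∅ := by
  rw [← card_eq_zero, ← card_eq_zero, card_sig h]

lemma mem_sig_cc {D : Finset β} {y : α} :
    y ∈ Sig G B₀ (cc ι D) ↔ ∃ z ∉ D, ι z = y ∧ cc ι (insert z D) ∈ orb G B₀ := by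
  rw [mem_Sig]
  constructor
  · rintro ⟨h1, h2⟩
    obtain ⟨z, hz, rfl⟩ := mem_map.1 h1
    exact ⟨z, mem_compl.1 hz, rfl, by rwa [← cc_erase]⟩
  · rintro ⟨z, hz, rfl, h⟩
    exact ⟨mem_cc.2 hz, by rwa [cc_erase]⟩

lemma pure_cc {D : Finset β} :
    Sig G B₀ (cc ι D) = ∅ ↔ ∀ z ∉ D, cc ι (insert z D) ∉ orb G B₀ := by
  simp only [eq_empty_iff_forall_notMem, mem_sig_cc]
  exact ⟨fun h z hz h' => h _ ⟨z, hz, rfl, h'⟩, fun h _ ⟨z, hz, _, h'⟩ => h z hz h'⟩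

lemma smul_compl' (u : Perm β) (D : Finset β) : u • Dᶜ = (u • D)ᶜ := by
  ext x
  simp [mem_smul]

lemma cc_orb (hl : Link G t q M ι) {D D' : Finset β} (h : D' ∈ orb M D) :
    cc ι D' ∈ orb G (cc ι D) := by
  obtain ⟨u, hu, rfl⟩ := mem_orb.1 h
  exact hl.orb_map (mem_orb.2 ⟨u, hu, smul_compl' u D⟩)

lemma smul_fix {u : Perm β} {S : Finset β} (h : ∀ x ∈ S, u x = x) : u • S = S := by
  rw [smul_eq_image]
  exact (image_congr fun x hx => h x hx).trans image_id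

lemma conj (h1 : ∀ j, Hom (fx M Vᶜ) V j) (h2 : ∀ j, Hom (fx M V) Vᶜ j) {D D' : Finset β}
    (e1 : (D ∩ V).card = (D' ∩ V).card) (e2 : (D ∩ Vᶜ).card = (D' ∩ Vᶜ).card) : D' ∈ orb M D := by
  obtain ⟨g, hg, hg'⟩ := h1 _ (D ∩ V) inter_subset_right (D' ∩ V) inter_subset_right rfl e1.symm
  obtain ⟨h, hh, hh'⟩ := h2 _ (D ∩ Vᶜ) inter_subset_right (D' ∩ Vᶜ) inter_subset_right rfl e2.symm
  have sp : ∀ S : Finset β, S = S ∩ V ∪ S ∩ Vᶜ := fun S => by
    rw [← inter_union_distrib_left, union_compl, inter_univ]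
  refine mem_orb.2 ⟨h * g, M.mul_mem hh.1 hg.1, ?_⟩
  rw [mul_smul, sp D, smul_finset_union, hg', smul_fix fun x hx => hg.2 x (mem_inter.1 hx).2,
    smul_finset_union, hh', smul_fix fun x hx => hh.2 x (mem_inter.1 hx).2, ← sp]

lemma card_int (D U : Finset β) : (D ∩ U).card = ∑ x ∈ D, if x ∈ U then 1 else 0 := by
  rw [← filter_mem_eq_inter, card_filter]

/-- the hypotheses used for both classes -/
structure Hy (G : Subgroup (Perm α)) (M : Subgroup (Perm β)) (ι : β ↪ α) (t q : ℕ)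
    (B₀ A₀ : Finset α) (V : Finset β) : Prop where
  hc : Cex G t B₀ A₀
  hl : Link G t q M ι
  hβ : Fintype.card β = t + 2
  v2 : 2 ≤ V.card
  w2 : 2 ≤ Vᶜ.card
  h1 : ∀ j, Hom (fx M Vᶜ) V j
  h2 : ∀ j, Hom (fx M V) Vᶜ j

lemma Hy.symm (h : Hy G M ι t q B₀ A₀ V) : Hy G M ι t q B₀ A₀ Vᶜ :=
  ⟨h.hc, h.hl, h.hβ, h.w2, by rw [compl_compl]; exact h.v2, by rw [compl_compl]; exact h.h2,
    by rw [compl_compl]; exact h.h1⟩

lemma Hy.pair (h : Hy G M ι t q B₀ A₀ V) {x y x' y' : β} (hxy : x ≠ y) (hxy' : x' ≠ y')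
    (ex : x ∈ V ↔ x' ∈ V) (ey : y ∈ V ↔ y' ∈ V) : cc ι {x', y'} ∈ orb G (cc ι {x, y}) := by
  refine cc_orb h.hl (conj h.h1 h.h2 ?_ ?_) <;>
    simp only [card_int, sum_pair hxy, sum_pair hxy', mem_compl, ex, ey]

lemma Hy.triple (h : Hy G M ι t q B₀ A₀ V) {D D' : Finset β} (hD : D ⊆ V) (hD' : D' ⊆ V)
    (e : D.card = D'.card) : cc ι D' ∈ orb G (cc ι D) := by
  have z : ∀ S ⊆ V, S ∩ Vᶜ = ∅ := fun S hS =>
    eq_empty_of_forall_notMem fun x hx => mem_compl.1 (mem_inter.1 hx).2 (hS (mem_inter.1 hx).1)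
  refine cc_orb h.hl (conj h.h1 h.h2 ?_ ?_)
  · rwa [inter_eq_left.2 hD, inter_eq_left.2 hD']
  · rw [z D hD, z D' hD']

lemma Hy.shows (h : Hy G M ι t q B₀ A₀ V) (x : β) {A : Finset α} (hA : A.card = t) :
    ∃ y, x ≠ y ∧ cc ι {x, y} ∈ orb G A := by
  obtain ⟨y, hy, hy'⟩ := h.hc.hh.erase_map (ι := ι) hA (C := {x}ᶜ)
    (by rw [card_compl, h.hβ, card_singleton]; omega)
  refine ⟨y, fun e => by simp [e] at hy, ?_⟩
  rwa [← compl_insert, pair_comm] at hy'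

lemma Hy.ex (h : Hy G M ι t q B₀ A₀ V) : ∃ a ∈ V, ∃ a' ∈ V, a ≠ a' := one_lt_card.1 h.v2

lemma Hy.inner_of (h : Hy G M ι t q B₀ A₀ V) {A : Finset α} (hA : A.card = t) {a b : β}
    (ha : a ∈ V) (hb : b ∉ V) (hn : cc ι {a, b} ∉ orb G A) {x y : β} (hx : x ∈ V) (hy : y ∈ V)
    (hxy : x ≠ y) : cc ι {x, y} ∈ orb G A := by
  obtain ⟨z, hz, hz'⟩ := h.shows a hA
  by_cases e : z ∈ V
  · exact orb_trans hz' (h.pair hz hxy (by simp [ha, hx]) (by simp [e, hy]))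
  · exact (hn (orb_trans hz' (h.pair hz (fun e => hb (e ▸ ha)) Iff.rfl (by simp [e, hb])))).elim

lemma Hy.cross (h : Hy G M ι t q B₀ A₀ V) {a b : β} (ha : a ∈ V) (hb : b ∉ V) :
    Sig G B₀ (cc ι {a, b}) = ∅ := by
  have hn : ∀ {D}, Sig G B₀ (cc ι D) ≠ ∅ → cc ι D ∉ orb G A₀ := fun hD e =>
    hD ((pure_orb e).2 h.hc.sig_empty)
  by_contra hp
  have hp' : Sig G B₀ (cc ι {b, a}) ≠ ∅ := by rwa [pair_comm]
  obtain ⟨_, hy⟩ := nonempty_iff_ne_empty.2 hp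
  obtain ⟨z, hz, -, hz'⟩ := mem_sig_cc.1 hy
  simp only [mem_insert, mem_singleton, not_or] at hz
  by_cases e : z ∈ V
  · have := (pure_orb (B₀ := B₀) (h.inner_of h.hc.hA ha hb (hn hp) e ha hz.1)).2 h.hc.sig_empty
    refine pure_cc.1 this b (by simp [Ne.symm hz.2, show b ≠ a from fun e => hb (e ▸ ha)]) ?_
    rwa [show insert b ({z, a} : Finset β) = {z, a, b} by ext; simp; tauto]
  · have := (pure_orb (B₀ := B₀) (h.symm.inner_of h.hc.hA (mem_compl.2 hb) (by simpa using ha)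
      (hn hp') (mem_compl.2 e) (mem_compl.2 hb) hz.2)).2 h.hc.sig_empty
    refine pure_cc.1 this a (by simp [Ne.symm hz.1, show a ≠ b from fun e => hb (e ▸ ha)]) ?_
    rwa [show insert a ({z, b} : Finset β) = {z, a, b} by ext; simp; tauto]

lemma Hy.nonpure (h : Hy G M ι t q B₀ A₀ V) {A : Finset α} (hA : A.card = t)
    (hp : Sig G B₀ A ≠ ∅) {x y : β} (hx : x ∈ V) (hy : y ∈ V) (hxy : x ≠ y) :
    cc ι {x, y} ∈ orb G A := by
  obtain ⟨b, hb, -⟩ := h.symm.ex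
  exact h.inner_of hA hx (mem_compl.1 hb)
    (fun e => hp ((pure_orb e).1 (h.cross hx (mem_compl.1 hb)))) hx hy hxy

lemma Hy.inner (h : Hy G M ι t q B₀ A₀ V) {x y : β} (hx : x ∈ V) (hy : y ∈ V) (hxy : x ≠ y) :
    Sig G B₀ (cc ι {x, y}) ≠ ∅ := by
  obtain ⟨A, hA, hA'⟩ := h.hc.exists_sig
  exact fun e => hA'.ne_empty ((pure_orb (h.nonpure hA hA'.ne_empty hx hy hxy)).1 e)

lemma Hy.pure (h : Hy G M ι t q B₀ A₀ V) {A : Finset α} (hA : A.card = t)
    (hp : Sig G B₀ A = ∅) {a b : β} (ha : a ∈ V) (hb : b ∉ V) : cc ι {a, b} ∈ orb G A := by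
  by_contra hn
  obtain ⟨x, hx, y, hy, hxy⟩ := h.ex
  exact h.inner hx hy hxy ((pure_orb (h.inner_of hA ha hb hn hx hy hxy)).2 hp)

lemma Hy.two (h : Hy G M ι t q B₀ A₀ V) : Two G t := by
  obtain ⟨x, hx, y, hy, hxy⟩ := h.ex
  obtain ⟨b, hb, -⟩ := h.symm.ex
  have k1 : ∀ {A B : Finset α}, A.card = t → B.card = t → (Sig G B₀ A = ∅ ↔ Sig G B₀ B = ∅) →
      B ∈ orb G A := fun {A B} hA hB e => by
    by_cases hp : Sig G B₀ A = ∅
    · exact orb_trans (h.pure hA hp hx (mem_compl.1 hb))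
        (orb_symm (h.pure hB (e.1 hp) hx (mem_compl.1 hb)))
    · exact orb_trans (h.nonpure hA hp hx hy hxy)
        (orb_symm (h.nonpure hB (fun e' => hp (e.2 e')) hx hy hxy))
  intro A B C hA hB hC
  by_contra hn
  simp only [not_or] at hn
  have e1 := mt (k1 hA hB) hn.1
  have e2 := mt (k1 hA hC) hn.2.1
  have e3 := mt (k1 hB hC) hn.2.2
  tauto

lemma Hy.mixed (h : Hy G M ι t q B₀ A₀ V) {x y b : β} (hx : x ∈ V) (hy : y ∈ V) (hxy : x ≠ y)
    (hb : b ∉ V) : cc ι {b, x, y} ∉ orb G B₀ := by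
  have := pure_cc.1 (h.cross hx hb) y (by simp [hxy.symm, show y ≠ b from fun e => hb (e ▸ hy)])
  rwa [show insert y ({x, b} : Finset β) = {b, x, y} by ext; simp; tauto] at this

lemma Hy.sig (h : Hy G M ι t q B₀ A₀ V) {x y : β} (hx : x ∈ V) (hy : y ∈ V) (hxy : x ≠ y) :
    Sig G B₀ (cc ι {x, y}) = ((V.erase x).erase y).map ι := by
  have k : ∀ z, cc ι {z, x, y} ∈ orb G B₀ → z ∈ V := fun z hz => by
    by_contra e
    exact h.mixed hx hy hxy e hz
  obtain ⟨_, hw⟩ := nonempty_iff_ne_empty.2 (h.inner hx hy hxy)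
  obtain ⟨w, hw1, -, hw2⟩ := mem_sig_cc.1 hw
  ext p
  rw [mem_sig_cc, mem_map]
  constructor
  · rintro ⟨z, hz, rfl, hz'⟩
    simp only [mem_insert, mem_singleton, not_or] at hz
    exact ⟨z, by simp [hz.1, hz.2, k z hz'], rfl⟩
  · rintro ⟨z, hz, rfl⟩
    simp only [mem_erase] at hz
    have hz' : z ∉ ({x, y} : Finset β) := by simp [hz.1, hz.2.1]
    refine ⟨z, hz', rfl, orb_trans hw2 (h.triple ?_ ?_ ?_)⟩
    · simp [insert_subset_iff, hx, hy, k w hw2]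
    · simp [insert_subset_iff, hx, hy, hz.2.2]
    · rw [card_insert_of_notMem hw1, card_insert_of_notMem hz']

lemma Hy.card_eq (h : Hy G M ι t q B₀ A₀ V) : V.card = Vᶜ.card := by
  obtain ⟨x, hx, y, hy, hxy⟩ := h.ex
  obtain ⟨x', hx', y', hy', hxy'⟩ := h.symm.ex
  have := card_sig (B₀ := B₀) (h.symm.nonpure (by rw [card_cc, h.hβ, card_pair hxy]; rfl)
    (h.inner hx hy hxy) hx' hy' hxy')
  rw [h.sig hx hy hxy, h.symm.sig hx' hy' hxy', card_map, card_map,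
    card_erase_of_mem (mem_erase.2 ⟨hxy.symm, hy⟩), card_erase_of_mem hx,
    card_erase_of_mem (mem_erase.2 ⟨hxy'.symm, hy'⟩), card_erase_of_mem hx'] at this
  have := h.v2
  have := h.w2
  omega

lemma Hy.third (h : Hy G M ι t q B₀ A₀ V) {a b : β} (ha : a ∈ V) (hb : b ∉ V) :
    ∀ y ∈ (V.erase a).map ι, ∃ x ∉ cc ι {a, b},
      Sig G B₀ (insert x ((cc ι {a, b}).erase y)) = ((V.erase a).map ι).erase y := by
  intro y hy
  obtain ⟨a', ha', rfl⟩ := mem_map.1 hy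
  obtain ⟨h1, h2⟩ := mem_erase.1 ha'
  refine ⟨ι b, by simp [mem_cc], ?_⟩
  rw [cc_erase, show insert a' ({a, b} : Finset β) = {b, a, a'} by ext; simp; tauto,
    cc_insert (by simp [show b ≠ a from fun e => hb (e ▸ ha), show b ≠ a' from fun e => hb (e ▸ h2)]),
    h.sig ha h2 h1.symm, map_erase]

lemma Hy.generic (h : Hy G M ι t q B₀ A₀ V) (hq : q ≠ 2) {x y b : β} (hx : x ∈ V) (hy : y ∈ V)
    (hb : b ∉ V) : ¬ q ∣ Nat.card (fx M ({b, x, y} : Finset β)ᶜ) := by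
  intro hd
  have : Fact q.Prime := ⟨h.hl.prime⟩
  obtain ⟨⟨u, hu⟩, ho⟩ := exists_prime_orderOf_dvd_card' q hd
  rw [Subgroup.orderOf_mk] at ho
  have hub : u b = b := by
    obtain ⟨w, hw, hwb⟩ := exists_mem_ne (show 1 < Vᶜ.card from h.w2) b
    have hw' : u w = w := hu.2 w (by
      simp [hwb, show w ≠ x from fun e => mem_compl.1 hw (e ▸ hx),
        show w ≠ y from fun e => mem_compl.1 hw (e ▸ hy)])
    have h1 : cc ι {u b, w} ∈ orb G (cc ι {b, w}) := cc_orb h.hl (mem_orb.2 ⟨u, hu.1, by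
      rw [smul_insert, smul_eq_image, image_singleton, hw']⟩)
    have h2 : u b ∉ V := fun e => h.symm.inner (mem_compl.2 hb) hw hwb.symm
      ((pure_orb h1).1 (h.cross e (mem_compl.1 hw)))
    by_contra h3
    exact h3 (u.injective (hu.2 (u b) (by
      simp [h3, show u b ≠ x from fun e => h2 (e ▸ hx), show u b ≠ y from fun e => h2 (e ▸ hy)])))
  have h1 : u ≠ 1 := by
    rintro rfl
    exact h.hl.prime.one_lt.ne (by rw [← ho, orderOf_one])
  have h2 : u.support ⊆ {x, y} := fun z hz => by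
    by_contra e
    refine Perm.mem_support.1 hz ?_
    by_cases e' : z = b
    · rw [e', hub]
    · exact hu.2 z (by simpa [e'] using e)
  have h3 := (card_le_card h2).trans card_le_two
  have h4 := Perm.two_le_card_support_of_ne_one h1
  exact hq (ho ▸ (Perm.card_support_eq_two.1 (le_antisymm h3 h4)).orderOf)

lemma Hy.ext (h : Hy G M ι t q B₀ A₀ V) (hq : q ≠ 2) {x y b : β} (hx : x ∈ V) (hy : y ∈ V)
    (hxy : x ≠ y) (hb : b ∉ V) {z : α} (hz : z ∉ cc ι {b, x, y})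
    (hp : Sig G B₀ (insert z (cc ι {b, x, y})) ≠ ∅) : ι b ∈ orb (fx G (cc ι {b, x, y})) z := by
  have bx : b ≠ x := fun e => hb (e ▸ hx)
  have bY : b ≠ y := fun e => hb (e ▸ hy)
  have ht := h.hc.ht
  obtain ⟨w, hw⟩ := h.hl.meet ({b, x, y} : Finset β)ᶜ (by
    rw [card_compl, h.hβ, card_eq_three.2 ⟨b, x, y, bx, bY, hxy, rfl⟩]; omega)
    (h.generic hq hx hy hb) z hz
  obtain ⟨g, hg, hg'⟩ := mem_orb.1 hw
  have hg2 : g z = ι w := hg'
  have h1 : insert (ι w) (cc ι {b, x, y}) ∈ orb G (insert z (cc ι {b, x, y})) :=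
    mem_orb.2 ⟨g, hg.1, by rw [smul_insert, hg2, smul_fix (S := cc ι {b, x, y}) hg.2]⟩
  have h2 := mt (pure_orb (B₀ := B₀) h1).1 hp
  have h3 : w ∈ ({b, x, y} : Finset β) := by
    by_contra e
    have e1 : ι w ∈ cc ι {b, x, y} := mem_cc.2 e
    have := hg.2 _ e1
    rw [← hg2] at this e1
    exact hz (g.injective this ▸ e1)
  simp only [mem_insert, mem_singleton] at h3
  rcases h3 with rfl | rfl | rfl
  · exact hw
  · rw [show ({b, w, y} : Finset β) = {w, y, b} by ext; simp; tauto,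
      cc_insert (by simp [hxy, bx.symm])] at h2
    exact (h2 (h.cross hy hb)).elim
  · rw [show ({b, x, w} : Finset β) = {w, x, b} by ext; simp; tauto,
      cc_insert (by simp [hxy.symm, bY.symm])] at h2
    exact (h2 (h.cross hx hb)).elim

lemma Hy.second (h : Hy G M ι t q B₀ A₀ V) (hq : q ≠ 2) (B : Finset α) (z z' : α)
    (hB : B.card + 1 = t) (hB' : B ∉ orb G B₀) (hz : z ∉ B) (hz' : z' ∉ B)
    (hp : Sig G B₀ (insert z B) ≠ ∅) (hp' : Sig G B₀ (insert z' B) ≠ ∅) :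
    ∃ g ∈ fx G B, g z = z' := by
  obtain ⟨x, hx, y, hy, hxy⟩ := h.ex
  obtain ⟨b, hb, -⟩ := h.symm.ex
  rw [mem_compl] at hb
  have hn := h.hc.hn
  have hB0 := h.hc.hB
  have h2 : Two G (B.card + 1) := hB ▸ h.two
  have h3 := h2.pred (by omega) B B₀ (cc ι {b, x, y}) rfl (by omega) (by
    rw [card_cc, h.hβ, card_eq_three.2 ⟨b, x, y, fun e => hb (e ▸ hx), fun e => hb (e ▸ hy), hxy, rfl⟩]
    omega)
  obtain ⟨k, hk, hk'⟩ := mem_orb.1
    ((h3.resolve_left fun e => hB' (orb_symm e)).resolve_right (h.mixed hx hy hxy hb))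
  have key : ∀ z ∉ B, Sig G B₀ (insert z B) ≠ ∅ → ι b ∈ orb (fx G (k • B)) (k z) := by
    intro z hz hp
    rw [hk']
    refine h.ext hq hx hy hxy hb (by rwa [← hk', apply_mem_smul]) ?_
    rw [← hk', ← smul_insert]
    exact mt (pure_orb (mem_orb.2 ⟨k, hk, rfl⟩)).1 hp
  obtain ⟨g, hg, hg'⟩ := mem_orb.1 (orb_trans (key z hz hp) (orb_symm (key z' hz' hp')))
  have hg2 : g (k z) = k z' := hg'
  refine ⟨k⁻¹ * g * k, ⟨G.mul_mem (G.mul_mem (G.inv_mem hk) hg.1) hk, fun p hp => ?_⟩, ?_⟩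
  · simp [hg.2 _ (apply_mem_smul.2 hp)]
  · simp [hg2]

end TWOB

open TWOB in
theorem twob_of (hcore : St_core) (halpha : St_alpha) : St_twob := by
  intro α _ _ β _ _ G M ι t q B₀ A₀ V hc hl hβ v2 w2 h1 h2 hq
  have h : Hy G M ι t q B₀ A₀ V := ⟨hc, hl, hβ, v2, w2, h1, h2⟩
  obtain ⟨a, ha, a', ha', haa⟩ := h.ex
  obtain ⟨b, hb, -⟩ := h.symm.ex
  have hb' := mem_compl.1 hb
  have hab : a ≠ b := fun e => hb' (e ▸ ha)
  have hn := hc.hn
  have ht := hc.ht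
  have hU : (V.erase a).map ι ∪ (Vᶜ.erase b).map ι = cc ι {a, b} := by
    rw [← map_union, cc]
    congr 1
    ext z
    by_cases e : z ∈ V
    · simp [e, show z ≠ b from fun e' => hb' (e' ▸ e)]
    · simp [e, show z ≠ a from fun e' => e (e' ▸ ha)]
  refine halpha α G t B₀ A₀ ((V.erase a).map ι) ((Vᶜ.erase b).map ι) hc ?_ ?_ ?_ ?_ ?_ ?_ ?_ ?_
  · rw [disjoint_map]
    exact disjoint_compl_right.mono (erase_subset _ _) (erase_subset _ _)
  · rw [card_map, card_map, card_erase_of_mem ha, card_erase_of_mem hb, h.card_eq]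
  · rw [hU, card_cc, hβ, card_pair hab]; rfl
  · rw [hU]; exact h.cross ha hb'
  · rw [hU]; exact fun A hA hp => orb_symm (h.pure hA hp ha hb')
  · rcases hq with hq | hq
    · exact h.second hq
    · intro B z z' hB _ hz hz' hp hp'
      have key : ∀ z ∉ B, Sig G B₀ (insert z B) ≠ ∅ → q ∣ ee G t (insert z B) := fun z hz hp => by
        rw [← ee_orb (h.nonpure (by rw [card_insert_of_notMem hz, hB]) hp ha ha' haa)]
        exact hq a ha a' ha' haa
      exact (hcore α G t hc.hh (by omega) hc.nh).2.1 q hl.prime B z z' hB hz hz' (key z hz hp)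
        (key z' hz' hp')
  · rw [hU]; exact h.third ha hb'
  · rw [hU, pair_comm]; exact h.symm.third hb (by simpa using ha)

end Pool.Agent.H5Hom
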