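import Pool.Agent.Lib.MP_078193_al.MBlue

/-! Block UT1: elementary utilities. -/

open Finset Equiv
open scoped Pointwise

set_option linter.unusedSectionVars false

namespace Pool.Agent.H5Hom

theorem john_of : St_john := by
  intro α _ Ω k P hP U hU V hV hUk hVk h
  generalize hn : (U \ V).card = n
  induction n generalizing U with
  | zero =>
    have h1 : U ⊆ V := sdiff_eq_empty_iff_subset.1 (card_eq_zero.1 hn)
    rwa [← eq_of_subset_of_card_le h1 (by omega)]
  | succ n ih =>
    obtain ⟨a, ha⟩ := card_pos.1 (show 0 < (U \ V).card by omega)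
    have hc : (V \ U).card = (U \ V).card := card_sdiff_comm (by omega)
    obtain ⟨b, hb⟩ := card_pos.1 (show 0 < (V \ U).card by omega)
    obtain ⟨ha1, ha2⟩ := mem_sdiff.1 ha
    obtain ⟨hb1, hb2⟩ := mem_sdiff.1 hb
    have hb3 : b ∉ U.erase a := fun h => hb2 (mem_of_mem_erase h)
    refine ih (insert b (U.erase a)) (insert_subset (hV hb1) ((erase_subset _ _).trans hU)) ?_
      (hP U hU hUk h a ha1 b (hV hb1) hb2) ?_
    · rw [card_insert_of_notMem hb3, card_erase_of_mem ha1]
      have := card_pos.2 ⟨a, ha1⟩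
      omega
    · have : insert b (U.erase a) \ V = (U \ V).erase a := by
        ext x
        simp only [mem_sdiff, mem_insert, mem_erase]
        constructor
        · rintro ⟨rfl | h1, h2⟩
          · exact absurd hb1 h2
          · exact ⟨h1.1, h1.2, h2⟩
        · rintro ⟨h1, h2, h3⟩
          exact ⟨Or.inr ⟨h1, h2⟩, h3⟩
      rw [this, card_erase_of_mem ha]
      omega

theorem compl_of : St_compl := by
  intro α _ _ H i j
  constructor
  · intro hn h A C hA hC
    obtain ⟨g, hg, hg'⟩ := h Cᶜ Aᶜ (by rw [card_compl]; omega) (by rw [card_compl]; omega)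
    refine ⟨g⁻¹, H.inv_mem hg, fun y hy => ?_⟩
    rw [mem_smul, inv_inv] at hy
    by_contra hc
    exact mem_compl.1 (hg' (apply_mem_smul.2 (mem_compl.2 hc))) hy
  · intro hn h A _ B _ hA hB
    obtain ⟨g, hg, hg'⟩ := h Aᶜ (subset_univ _) Bᶜ (subset_univ _) (by rw [card_compl]; omega)
      (by rw [card_compl]; omega)
    refine ⟨g, hg, ?_⟩
    ext y
    have : y ∈ g • Aᶜ ↔ y ∈ Bᶜ := by rw [hg']
    rw [mem_smul, mem_compl, mem_compl] at this
    rw [mem_smul]
    exact not_iff_not.1 this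

namespace UT1

lemma deg_le {α : Type} [Fintype α] [DecidableEq α] (c : Finset α → Prop) [DecidablePred c]
    (h1 : ∀ x y z : α, x ≠ y → x ≠ z → y ≠ z → c {x, y} ∨ c {x, z} ∨ c {y, z})
    (h2 : ∀ x y z : α, x ≠ y → x ≠ z → y ≠ z → ¬ c {x, y} ∨ ¬ c {x, z} ∨ ¬ c {y, z})
    (v : α) : ((univ.erase v).filter fun x => c {v, x}).card ≤ 2 := by
  by_contra hc
  obtain ⟨x, hx, y, hy, z, hz, hxy, hxz, hyz⟩ := two_lt_card.1 (not_le.1 hc)
  simp only [mem_filter, mem_erase, mem_univ, and_true] at hx hy hz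
  have a1 := h2 v x y hx.1.symm hy.1.symm hxy
  have a2 := h2 v x z hx.1.symm hz.1.symm hxz
  have a3 := h2 v y z hy.1.symm hz.1.symm hyz
  have a4 := h1 x y z hxy hxz hyz
  tauto

lemma tri {α : Type} [Fintype α] [DecidableEq α] {H : Subgroup (Perm α)} (h : HH H 2)
    {A : Finset α} (hA : A.card = 2) (x y z : α) (hxy : x ≠ y) (hxz : x ≠ z) (hyz : y ≠ z) :
    {x, y} ∈ orb H A ∨ {x, z} ∈ orb H A ∨ {y, z} ∈ orb H A := by
  obtain ⟨w, hw, hw'⟩ := h.erase hA (C := {x, y, z}) (card_eq_three.2 ⟨x, y, z, hxy, hxz, hyz, rfl⟩)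
  simp only [mem_insert, mem_singleton] at hw
  rcases hw with rfl | rfl | rfl
  · refine Or.inr (Or.inr ?_)
    rwa [erase_insert (by simp [hxy, hxz])] at hw'
  · refine Or.inr (Or.inl ?_)
    rwa [erase_insert_of_ne hxy, erase_insert (by simp [hyz])] at hw'
  · refine Or.inl ?_
    rwa [erase_insert_of_ne hxz, erase_insert_of_ne hyz, erase_singleton] at hw'

end UT1

theorem ram_of : St_ram := by
  intro α _ _ H hn h A _ B _ hA hB
  classical
  by_contra hc
  have hc' : B ∉ orb H A := fun h' => hc (mem_orb.1 h')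
  have h1 := UT1.tri h hA
  have h2 : ∀ x y z : α, x ≠ y → x ≠ z → y ≠ z →
      {x, y} ∉ orb H A ∨ {x, z} ∉ orb H A ∨ {y, z} ∉ orb H A := by
    intro x y z hxy hxz hyz
    rcases UT1.tri h hB x y z hxy hxz hyz with h' | h' | h'
    · exact Or.inl fun h'' => hc' (orb_trans h'' (orb_symm h'))
    · exact Or.inr (Or.inl fun h'' => hc' (orb_trans h'' (orb_symm h')))
    · exact Or.inr (Or.inr fun h'' => hc' (orb_trans h'' (orb_symm h')))
  obtain ⟨v⟩ : Nonempty α := Fintype.card_pos_iff.1 (by omega)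
  have a1 := UT1.deg_le (fun S => S ∈ orb H A) h1 h2 v
  have a2 := UT1.deg_le (fun S => S ∉ orb H A) h2 (by simpa only [not_not] using h1) v
  have a3 := card_filter_add_card_filter_not (s := univ.erase v)
    (fun x => ({v, x} : Finset α) ∈ orb H A)
  rw [card_erase_of_mem (mem_univ _), card_univ] at a3
  omega

theorem const_of : St_const := by
  intro α _ _ t c P _ hn h A A' hA hA' hP
  have hj0 : ((t : ℝ) + 1) ≠ 0 := by positivity
  have := up_inj (Ω := univ) (j := t) (by rwa [card_univ])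
    (fun B => (if P B then (1 : ℝ) else 0) - c / (t + 1)) (by
    intro C hC
    have h2 := mem_lev.1 hC
    rw [sum_sub_distrib, sum_boole, h C h2, sum_const, h2]
    simp only [nsmul_eq_mul]
    push_cast
    field_simp
    ring)
  have h1 := this A (mem_lev.2 hA)
  have h2 := this A' (mem_lev.2 hA')
  by_contra hc
  simp only [if_pos hP, if_neg hc] at h1 h2
  linarith

theorem swap_of : St_swap := by
  intro α _ _ H V h j
  rcases h with h | ⟨h3, h⟩
  · intro A hA B hB hA' hB'
    refine john_of α V j (fun U => ∃ g ∈ fx H Vᶜ, g • A = U) ?_ A hA B hB hA' hB'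
      ⟨1, Subgroup.one_mem _, one_smul _ _⟩
    rintro U hU - ⟨g, hg, rfl⟩ a ha b hb hb'
    have haV := hU ha
    refine ⟨swap a b * g, Subgroup.mul_mem _ ⟨h a haV b hb, fun x hx => ?_⟩ hg, ?_⟩
    · have hx' := mem_compl.1 hx
      exact swap_apply_of_ne_of_ne (fun e => hx' (e ▸ haV)) (fun e => hx' (e ▸ hb))
    · rw [mul_smul]
      ext y
      rw [mem_smul (g := swap a b), swap_inv, mem_insert, mem_erase]
      by_cases h1 : y = a
      · subst h1
        rw [swap_apply_left]
        constructor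
        · exact fun h' => absurd h' hb'
        · rintro (rfl | h')
          · exact absurd ha hb'
          · exact absurd rfl h'.1
      by_cases h2 : y = b
      · subst h2
        rw [swap_apply_right]
        exact ⟨fun _ => Or.inl rfl, fun _ => ha⟩
      rw [swap_apply_of_ne_of_ne h1 h2]
      exact ⟨fun h' => Or.inr ⟨h1, h'⟩, fun h' => (h'.resolve_left h2).2⟩
  · refine Alt3.hom ?_ ?_ h3 j
    · intro g hg x hx
      by_contra hc
      have := g.injective (hg.2 _ (mem_compl.2 hc))
      exact hc (this.symm ▸ hx)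
    · intro u hu v hv z hz huv huz hvz
      obtain ⟨-, -, -, -, -, -, g, hg, g1, -, -, g4⟩ := h u hu v hv z hz huv huz hvz
      refine ⟨g, ⟨hg, fun x hx => ?_⟩, g1, fun x _ => g4 x (mem_univ _)⟩
      have hx' := mem_compl.1 hx
      exact g4 x (mem_univ _) (fun e => hx' (e ▸ hu)) (fun e => hx' (e ▸ hv))
        (fun e => hx' (e ▸ hz))

end Pool.Agent.H5Hom
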