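import Pool.Agent.Lib.MP_078193_al.MBlue

/-! Block UT2: supports of commutators, and groups whose two-point stabilisers are trivial. -/

open Finset Equiv
open scoped Pointwise

set_option linter.unusedSectionVars false

namespace Pool.Agent.H5Hom

namespace Ut2

variable {α : Type} [Fintype α] [DecidableEq α] {K X : Finset α} {a b : Perm α}
  {H : Subgroup (Perm α)} {x y : α}

lemma inv_mem (ha : ∀ x ∈ K, a x ∈ K) (hx : x ∈ K) : a⁻¹ x ∈ K := by
  have : a • K = K := eq_of_subset_of_card_le (fun y hy => by simpa using ha _ (mem_smul.1 hy))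
    (card_smul a K).ge
  exact mem_smul.1 (this.symm ▸ hx)

lemma comm_sub (ha : ∀ x ∈ K, a x ∈ K) (hb : ∀ x ∈ K, b x ∈ K) :
    supp K (a * b * a⁻¹ * b⁻¹) ⊆ (supp K a ∩ supp K b) ∪ a • (supp K a ∩ supp K b)
      ∪ b • (supp K a ∩ supp K b) := by
  intro x hx
  obtain ⟨hx, hx'⟩ := mem_supp.1 hx
  by_contra hc
  simp only [mem_union, mem_smul, not_or, mem_inter, mem_supp, not_and, not_not] at hc
  obtain ⟨⟨h1, h2⟩, h3⟩ := hc
  apply hx'
  simp only [Perm.mul_apply]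
  by_cases hax : a x = x
  · by_cases hbx : b x = x
    · have e1 : a⁻¹ x = x := by rw [Perm.inv_eq_iff_eq, hax]
      have e2 : b⁻¹ x = x := by rw [Perm.inv_eq_iff_eq, hbx]
      rw [e2, e1, hbx, hax]
    · have hy := inv_mem hb hx
      have e1 : a (b⁻¹ x) = b⁻¹ x := by
        by_contra h4
        have := h3 ⟨hy, h4⟩ hy
        rw [ap_inv] at this
        exact hbx (Perm.eq_inv_iff_eq.1 this)
      have e2 : a⁻¹ (b⁻¹ x) = b⁻¹ x := by rw [Perm.inv_eq_iff_eq, e1]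
      rw [e2, ap_inv, hax]
  · have hbx : b x = x := h1 ⟨hx, hax⟩ hx
    have e2 : b⁻¹ x = x := by rw [Perm.inv_eq_iff_eq, hbx]
    have hy := inv_mem ha hx
    have e1 : b (a⁻¹ x) = a⁻¹ x := by
      refine h2 ⟨hy, fun h4 => hax ?_⟩ hy
      rw [ap_inv] at h4
      exact Perm.eq_inv_iff_eq.1 h4
    rw [e2, e1, ap_inv]

lemma smul_inter (ha : ∀ x ∈ K, a x ∈ K) (h : ∀ x ∈ K, a (b x) = b (a x)) :
    a • (supp K a ∩ supp K b) = supp K a ∩ supp K b := by
  refine eq_of_subset_of_card_le (fun y hy => ?_) (card_smul _ _).ge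
  obtain ⟨x, rfl⟩ := a.surjective y
  simp only [apply_mem_smul, mem_inter, mem_supp] at hy ⊢
  exact ⟨⟨ha x hy.1.1, fun e => hy.1.2 (a.injective e)⟩, ha x hy.1.1,
    fun e => hy.2.2 (a.injective ((h x hy.1.1).trans e))⟩

lemma st_eq_one : Nat.card (st H x) = 1 ↔ ¬ ∃ g ∈ H, g ≠ 1 ∧ g x = x := by
  rw [Subgroup.card_eq_one, eq_bot_iff]
  refine ⟨fun h ⟨g, h1, h2, h3⟩ => h2 (h (mem_st.2 ⟨h1, h3⟩)), fun h g hg => ?_⟩
  by_contra h2
  exact h ⟨g, (mem_st.1 hg).1, h2, (mem_st.1 hg).2⟩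

lemma sum_orb (x : α) :
    ∑ y ∈ orb H x, (Nat.card (st H y) - 1) + (orb H x).card = Nat.card H := by
  have h0 : 0 < (orb H x).card := card_pos.2 ⟨x, self_mem_orb x⟩
  have h1 : ∀ y ∈ orb H x, Nat.card (st H y) - 1 + 1 = Nat.card (st H x) := fun y hy => by
    rw [Nat.sub_add_cancel Nat.card_pos]
    refine Nat.eq_of_mul_eq_mul_left h0 ?_
    rw [orb_mul_st, ← orb_eq hy, orb_mul_st]
  rw [card_eq_sum_ones, ← sum_add_distrib, sum_congr rfl h1, sum_const, smul_eq_mul, orb_mul_st]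

lemma sum_lt (h : ∀ g ∈ H, ∀ x ∈ X, ∀ y ∈ X, x ≠ y → g x = x → g y = y → g = 1) :
    ∑ x ∈ X, (Nat.card (st H x) - 1) < Nat.card H := by
  classical
  have h1 : ∀ L : Subgroup (Perm α), ((univ.filter (· ∈ L)).erase 1).card = Nat.card L - 1 :=
    fun L => by rw [card_erase_of_mem (by simp), card_mem]
  have h2 := card_le_card (s := X.biUnion fun x => (univ.filter (· ∈ st H x)).erase 1)
    (t := (univ.filter (· ∈ H)).erase 1) fun g hg => by
      simp only [mem_biUnion, mem_erase, mem_filter, mem_univ, true_and, mem_st] at hg ⊢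
      obtain ⟨x, -, h3, h4, -⟩ := hg
      exact ⟨h3, h4⟩
  rw [card_biUnion fun x hx y hy hxy => disjoint_left.2 fun g h3 h4 => by
    simp only [mem_erase, mem_filter, mem_univ, true_and, mem_st] at h3 h4
    exact h3.1 (h g h3.2.1 x hx y hy hxy h3.2.2 h4.2.2)] at h2
  simp only [h1] at h2
  have : 0 < Nat.card H := Nat.card_pos
  omega

lemma two_mul_le (h : ∃ g ∈ H, g ≠ 1 ∧ g x = x) : 2 * (orb H x).card ≤ Nat.card H := by
  have h1 : Nat.card (st H x) ≠ 1 := fun e => st_eq_one.1 e h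
  have h2 : 0 < Nat.card (st H x) := Nat.card_pos
  rw [← orb_mul_st H x, mul_comm]
  exact Nat.mul_le_mul_left _ (by omega)

lemma orb_sub (hi : Inv H X) (hx : x ∈ X) : orb H x ⊆ X := fun y hy => by
  obtain ⟨g, hg, rfl⟩ := mem_orb.1 hy
  exact hi g hg x hx

end Ut2

open Ut2

theorem comm_of : St_comm := by
  intro α _ _ K a b ha hb
  refine ⟨comm_sub ha hb, fun h => ?_, fun h => ?_, fun q hq h1 h2 I hI hne h3 => ?_⟩
  · obtain ⟨x, hx⟩ := card_eq_one.1 h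
    have h1 := mem_inter.1 (hx ▸ mem_singleton_self x)
    simp only [mem_supp] at h1
    have h2 : b (a⁻¹ x) = a⁻¹ x := by
      have h3 : a⁻¹ x ≠ x := fun e => h1.1.2 (Perm.inv_eq_iff_eq.1 e).symm
      by_contra h4
      exact h3 (mem_singleton.1 (hx ▸ mem_inter.2 ⟨mem_supp.2 ⟨inv_mem ha h1.1.1,
        by rw [ap_inv]; exact h3.symm⟩, mem_supp.2 ⟨inv_mem ha h1.1.1, h4⟩⟩))
    refine ⟨b x, mem_supp.2 ⟨hb x h1.1.1, ?_⟩⟩
    simp only [Perm.mul_apply]
    rw [inv_ap, h2, ap_inv]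
    exact h1.2.2.symm
  · have h1 : ∀ x ∈ K, a (b x) = b (a x) := fun x hx => by
      by_contra h2
      refine eq_empty_iff_forall_notMem.1 h (b (a x)) (mem_supp.2 ⟨hb _ (ha x hx), ?_⟩)
      simp only [Perm.mul_apply]
      rwa [inv_ap, inv_ap]
    exact ⟨smul_inter ha h1, by rw [inter_comm]; exact smul_inter hb fun x hx => (h1 x hx).symm⟩
  · obtain ⟨k, -, hk⟩ := (Nat.dvd_prime_pow hq (m := 1) (i := orderOf a)).1
      (by rw [pow_one]; exact orderOf_dvd_of_pow_eq_one h1)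
    have h4 : Inv (Subgroup.zpowers a) I := fun g hg x hx => by
      have : g • I = I := Subgroup.zpowers_le.2 (MulAction.mem_stabilizer_iff.2 h3) hg
      exact this ▸ apply_mem_smul.2 hx
    have h5 : q ∣ I.card := by
      by_contra h5
      obtain ⟨y, h6, h7⟩ := exists_fixs hq ((Nat.card_zpowers a).trans hk) h4 h5
      exact (mem_supp.1 (hI h6)).2 (mem_fixs.1 h7 a (Subgroup.mem_zpowers a))
    exact eq_of_subset_of_card_le hI (h2 ▸ Nat.le_of_dvd hne.card_pos h5)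

theorem ti_of : St_ti := by
  intro α _ _ H X hi h
  have h1 : ∀ x ∈ X, ∀ y ∈ X, (∃ g ∈ H, g ≠ 1 ∧ g x = x) → (∃ g ∈ H, g ≠ 1 ∧ g y = y) →
      y ∈ orb H x := fun x hx y hy a1 a2 => by
    by_contra a3
    have a4 : Disjoint (orb H x) (orb H y) :=
      disjoint_left.2 fun z b1 b2 => a3 (orb_trans b1 (orb_symm b2))
    have a5 := (sum_le_sum_of_subset (f := fun x => Nat.card (st H x) - 1)
      (union_subset (orb_sub hi hx) (orb_sub hi hy))).trans_lt (sum_lt h)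
    rw [sum_union a4] at a5
    have := sum_orb (H := H) x
    have := sum_orb (H := H) y
    have := two_mul_le a1
    have := two_mul_le a2
    omega
  refine ⟨h1, fun ⟨x₀, hx₀⟩ h2 => ?_⟩
  obtain ⟨x, hx, h3⟩ : ∃ x ∈ X, ∀ y ∈ X, y ∉ orb H x → Nat.card (st H y) = 1 := by
    by_cases h3 : ∃ x ∈ X, ∃ g ∈ H, g ≠ 1 ∧ g x = x
    · obtain ⟨x, hx, h3⟩ := h3
      exact ⟨x, hx, fun y hy h4 => st_eq_one.2 fun h5 => h4 (h1 x hx y hy h3 h5)⟩
    · exact ⟨x₀, hx₀, fun y hy _ => st_eq_one.2 fun h5 => h3 ⟨y, hy, h5⟩⟩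
  have h4 : 2 ≤ (orb H x).card := by
    obtain ⟨g, a1, a2⟩ := h2 x hx
    exact one_lt_card.2 ⟨_, mem_orb.2 ⟨g, a1, rfl⟩, x, self_mem_orb x, a2⟩
  refine ⟨?_, x, hx, h4, fun y hy => ?_⟩
  · rw [← sum_subset (orb_sub hi hx) fun y hy a => by simp [h3 y hy a], ← sum_orb (H := H) x]
    omega
  · by_cases a : y ∈ orb H x
    · rw [orb_eq a]
    · have := orb_mul_st H y
      rw [h3 y hy a, mul_one, ← orb_mul_st H x] at this
      exact ⟨_, this⟩

end Pool.Agent.H5Hom
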