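import Pool.Agent.Lib.MP_078193_al.MBlue

/-! A variance bound for the number of types of `t`-sets. -/

open Finset Equiv
open scoped Pointwise

set_option linter.unusedSectionVars false

namespace Pool.Agent.H5Hom

namespace Var

variable {α : Type} [Fintype α] [DecidableEq α] {G : Subgroup (Perm α)}

/-- one vertex per type, the other vertices are `W` -/
lemma split {t T : ℕ} (h : HH G t) (hT : nr G t + T = t + 1) {C : Finset α}
    (hC : C.card = t + 1) : ∃ W ⊆ C, W.card = T ∧ ∀ F : Finset α → ℝ,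
      (∀ A B, B ∈ orb G A → F B = F A) → ∑ x ∈ C, F (C.erase x)
        = ∑ O ∈ (powersetCard t (univ : Finset α)).image (orb G), F (rep O)
          + ∑ x ∈ W, F (C.erase x) := by
  classical
  obtain ⟨R, h1, h2, h3⟩ := Finset.exists_subset_injOn_image_eq_of_surjOn
    (f := fun x => orb G (C.erase x)) (C : Set α)
    ((powersetCard t (univ : Finset α)).image (orb G)) (by
      rw [← h.image hC]
      intro O hO
      obtain ⟨x, hx, rfl⟩ := mem_image.1 (mem_coe.1 hO)
      exact ⟨x, hx, rfl⟩)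
  have h1' : R ⊆ C := fun x hx => mem_coe.1 (h1 (mem_coe.2 hx))
  have h4 : R.card = nr G t := by
    rw [nr, ← h3, card_image_of_injOn h2]
  refine ⟨C \ R, sdiff_subset, by rw [card_sdiff_of_subset h1']; omega, fun F hF => ?_⟩
  rw [← h3, sum_image h2, ← sum_sdiff h1', add_comm]
  congr 1
  exact sum_congr rfl fun x _ => (hF _ _ (rep_mem _)).symm

lemma alg {T N c Z S Q M m D : ℝ} (hT : 0 ≤ T) (hc : 0 ≤ c) (hZ : 0 < Z)
    (hQ : M ^ 2 + m ^ 2 ≤ Q) (h1 : D * Z + c * S ^ 2 ≤ T * (N * Z - c * Q))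
    (h2 : N * Z - c * Q ≤ -((M + m) * (c * S)) - T * (M * m) * c) :
    2 * T * N ≤ (T + 2) * (T * N - D) := by
  refine le_of_mul_le_mul_right ?_ hZ
  have h3 : 2 * T * (Q - (M + m) * S - T * (M * m)) ≤ (T + 2) * (T * Q + S ^ 2) := by
    have a1 := mul_le_mul_of_nonneg_left hQ (sq_nonneg T)
    have a2 := sq_nonneg (T * (M + m) + S)
    have a3 : 0 ≤ (T + 1) * S ^ 2 := by positivity
    nlinarith
  have h4 := mul_le_mul_of_nonneg_left h3 hc
  have h5 := mul_le_mul_of_nonneg_left h1 (show 0 ≤ T + 2 by linarith)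
  have h6 := mul_le_mul_of_nonneg_left h2 (show 0 ≤ 2 * T by linarith)
  nlinarith

end Var

theorem var_of : St_var := by
  intro α _ _ G t i T N h h0 h1 hit hn hN hT
  classical
  obtain ⟨f, hd⟩ := exists_dat h0 h1
  set F := lift (i + 1) f with hF
  obtain ⟨A₁, A₂, a1, a2, a3⟩ := hd.nc_level hit (by omega)
  obtain ⟨P, hP, hP'⟩ := exists_max_image (powersetCard t univ) F ⟨A₁, mem_lev.2 a1⟩
  obtain ⟨P', hQ, hQ'⟩ := exists_min_image (powersetCard t univ) F ⟨A₁, mem_lev.2 a1⟩
  simp only [mem_lev] at hP hP' hQ hQ'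
  have hlt : F P' < F P := by
    have := hP' A₁ a1; have := hP' A₂ a2; have := hQ' A₁ a1; have := hQ' A₂ a2
    by_contra hc
    exact a3 (by linarith)
  have horb : ∀ A B, B ∈ orb G A → F B = F A := fun A B hB => hd.lift_orb hB
  set L := (powersetCard t (univ : Finset α)).image (orb G) with hL
  set S := ∑ O ∈ L, F (rep O) with hS
  set Q := ∑ O ∈ L, F (rep O) ^ 2 with hQd
  have hQ2 : F P ^ 2 + F P' ^ 2 ≤ Q := by
    have hne : orb G P ≠ orb G P' := fun e => hlt.ne (horb _ _ (orb_eq_iff.1 e.symm))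
    have hsub : ({orb G P, orb G P'} : Finset (Finset (Finset α))) ⊆ L := by
      intro O hO
      rcases mem_insert.1 hO with rfl | hO
      · exact mem_image_of_mem _ (mem_lev.2 hP)
      · rw [mem_singleton.1 hO]; exact mem_image_of_mem _ (mem_lev.2 hQ)
    have := sum_le_sum_of_subset_of_nonneg (f := fun O => F (rep O) ^ 2) hsub
      (fun _ _ _ => sq_nonneg _)
    rwa [sum_pair hne, horb _ _ (rep_mem P), horb _ _ (rep_mem P')] at this
  have key : ∀ C ∈ powersetCard (t + 1) (univ : Finset α),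
      (((t : ℝ) - i) * F C - S) ^ 2 ≤ T * (∑ x ∈ C, F (C.erase x) ^ 2 - Q) ∧
      ∑ x ∈ C, F (C.erase x) ^ 2 - Q
        ≤ (F P + F P') * (((t : ℝ) - i) * F C - S) - T * (F P * F P') := by
    intro C hC
    have hC' := mem_lev.1 hC
    obtain ⟨W, w1, w2, w3⟩ := Var.split h hT hC'
    have e1 := w3 F horb
    have e2 := w3 (fun A => F A ^ 2) (fun A B hB => by rw [horb A B hB])
    rw [hF, lift_up, ← hF, hC'] at e1
    have e1' : ((t : ℝ) - i) * F C - S = ∑ x ∈ W, F (C.erase x) := by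
      push_cast at e1
      linarith
    have e2' : ∑ x ∈ C, F (C.erase x) ^ 2 - Q = ∑ x ∈ W, F (C.erase x) ^ 2 := by
      linarith
    rw [e1', e2', ← w2]
    refine ⟨sq_sum_le_card_mul_sum_sq, ?_⟩
    have e3 : ∑ x ∈ W, F (C.erase x) ^ 2
        ≤ ∑ x ∈ W, ((F P + F P') * F (C.erase x) - F P * F P') := by
      refine sum_le_sum fun x hx => ?_
      have hc : (C.erase x).card = t := by rw [card_erase_of_mem (w1 hx)]; omega
      have b1 := hP' _ hc
      have b2 := hQ' _ hc
      nlinarith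
    rwa [sum_sub_distrib, ← mul_sum, sum_const, nsmul_eq_mul] at e3
  set Z := ∑ A ∈ powersetCard t (univ : Finset α), F A ^ 2 with hZ
  have hZ0 : 0 < Z := by
    refine sum_pos' (fun A _ => sq_nonneg _) ?_
    by_cases hz : F P = 0
    · refine ⟨P', mem_lev.2 hQ, ?_⟩
      have : F P' ≠ 0 := by rw [← hz]; exact hlt.ne
      positivity
    · exact ⟨P, mem_lev.2 hP, by positivity⟩
  have hmean : ∑ C ∈ powersetCard (t + 1) (univ : Finset α), F C = 0 :=
    hd.harm.mean (by omega) (t + 1)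
  have hvar := hd.harm.var t
  rw [← hF, ← hZ, hn] at hvar
  have hflag : ∑ C ∈ powersetCard (t + 1) (univ : Finset α), ∑ x ∈ C, F (C.erase x) ^ 2
      = N * Z := by
    rw [sum_flag univ t (fun A _ => F A ^ 2), hZ, mul_sum]
    refine sum_congr rfl fun A hA => ?_
    rw [sum_compl_const, mem_lev.1 hA, hn]
    push_cast
    ring
  set c : ℝ := ((powersetCard (t + 1) (univ : Finset α)).card : ℝ) with hc
  have s1 := sum_le_sum fun C hC => (key C hC).1
  have s2 := sum_le_sum fun C hC => (key C hC).2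
  have r1 : ∀ C : Finset α, (((t : ℝ) - i) * F C - S) ^ 2
      = ((t : ℝ) - i) ^ 2 * F C ^ 2 - 2 * (t - i) * S * F C + S ^ 2 := fun C => by ring
  simp only [r1, sum_add_distrib, sum_sub_distrib, ← mul_sum, sum_const, nsmul_eq_mul, hmean,
    hflag] at s1 s2
  rw [← hc] at s1 s2
  have fin := Var.alg (T := T) (N := N) (c := c) (Z := Z) (S := S) (Q := Q) (M := F P)
    (m := F P') (D := ((t : ℝ) - i) * (N - (i + 1))) (by positivity) (by positivity) hZ0 hQ2
    (by push_cast at hvar; nlinarith) (by linarith)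
  have hT' : (nr G t : ℝ) + T = t + 1 := by exact_mod_cast hT
  have goal : (N : ℝ) * (nr G t * (T + 2) + 2 * T) ≤ (i + 1) * (t + N - i) * (T + 2) := by
    have : (nr G t : ℝ) = t + 1 - T := by linarith
    rw [this]
    nlinarith
  have hsub : ((t + N - i : ℕ) : ℝ) = t + N - i := by
    rw [Nat.cast_sub (by omega)]; push_cast; ring
  rw [← hsub] at goal
  exact_mod_cast goal

end Pool.Agent.H5Hom
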