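import Pool.Agent.Lib.MP_078193_al.MBlue

/-! An element of order `q` with `t - 1` fixed points and commuting `q`-cycles. -/

open Finset Equiv
open scoped Pointwise

set_option linter.unusedSectionVars false

namespace Pool.Agent.H5Hom

namespace Zw

variable {β : Type} [Fintype β] [DecidableEq β]

lemma mem_zp {g h : Perm β} (hh : h ∈ Subgroup.zpowers g) : ∃ n : ℕ, g ^ n = h :=
  (mem_powers_iff_mem_zpowers.2 hh)

lemma pow_mem {g : Perm β} {Y : Finset β} (hY : ∀ x ∈ Y, g x ∈ Y) (n : ℕ) :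
    ∀ x ∈ Y, (g ^ n) x ∈ Y := by
  induction n with
  | zero => intro x hx; simpa using hx
  | succ n ih => intro x hx; rw [pow_succ', Perm.mul_apply]; exact hY _ (ih x hx)

lemma inv_zp {g : Perm β} {Y : Finset β} (hY : ∀ x ∈ Y, g x ∈ Y) :
    Inv (Subgroup.zpowers g) Y := by
  intro h hh
  obtain ⟨n, rfl⟩ := mem_zp hh
  exact pow_mem hY n

lemma mem_fixs_zp {g : Perm β} {x : β} : x ∈ fixs (Subgroup.zpowers g) ↔ g x = x := by
  rw [mem_fixs]
  refine ⟨fun h => h g (Subgroup.mem_zpowers g), fun h u hu => ?_⟩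
  obtain ⟨n, rfl⟩ := mem_zp hu
  exact Perm.pow_apply_eq_self_of_apply_eq_self h n

lemma dvd_supp {q : ℕ} (hq : q.Prime) {g : Perm β} (hg : orderOf g = q) {Y : Finset β}
    (hY : ∀ x ∈ Y, g x ∈ Y) : q ∣ (supp Y g).card := by
  have h := dvd_card_sdiff_fixs hq (a := 1) (Q := Subgroup.zpowers g)
    (by rw [Nat.card_zpowers, hg, pow_one]) (inv_zp hY)
  have e : Y \ fixs (Subgroup.zpowers g) = supp Y g := by
    ext x; rw [mem_sdiff, mem_fixs_zp, mem_supp]
  rwa [e] at h

lemma cauchy {q : ℕ} (hq : q.Prime) {N : Subgroup (Perm β)} (h : q ∣ Nat.card N) :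
    ∃ w ∈ N, orderOf w = q := by
  have : Fact q.Prime := ⟨hq⟩
  obtain ⟨w, hw⟩ := exists_prime_orderOf_dvd_card' q h
  exact ⟨w, w.2, by rw [Subgroup.orderOf_coe, hw]⟩

lemma card_orb {q : ℕ} (hq : q.Prime) {g : Perm β} (hg : orderOf g = q) {x : β} (hx : g x ≠ x) :
    (orb (Subgroup.zpowers g) x).card = q := by
  have h1 : (orb (Subgroup.zpowers g) x).card ∣ q := by
    rw [← hg, ← Nat.card_zpowers]
    exact Dvd.intro _ (orb_mul_st _ x)
  rcases (Nat.dvd_prime hq).1 h1 with h | h
  · exact absurd (mem_fixs_zp.1 (card_orb_eq_one h)) hx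
  · exact h

/-- a `q`-element normalising a subgroup of order divisible by `q` centralises an element of
order `q` -/
lemma central {q : ℕ} (hq : q.Prime) {z : Perm β} (hz : z ^ q = 1) {N : Subgroup (Perm β)}
    (hN : ∀ g ∈ N, z * g * z⁻¹ ∈ N) (h : q ∣ Nat.card N) :
    ∃ w ∈ N, w * z = z * w ∧ orderOf w = q := by
  classical
  have : Fact q.Prime := ⟨hq⟩
  let f : Function.End N := fun g => ⟨z * g * z⁻¹, hN g g.2⟩
  have hf : ∀ (n : ℕ) (g : N), (((f ^ n) g : N) : Perm β) = z ^ n * g * (z ^ n)⁻¹ := by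
    intro n
    induction n with
    | zero => intro g; simp [Function.End.one_def]
    | succ n ih =>
      intro g
      have e : (f ^ (n + 1)) g = f ((f ^ n) g) := by rw [pow_succ']; rfl
      rw [e]
      show z * ((f ^ n) g : Perm β) * z⁻¹ = _
      rw [ih, pow_succ']; group
  have h1 : f ^ q ^ 1 = 1 := by
    funext g
    apply Subtype.ext
    rw [pow_one, hf, hz]; simp [Function.End.one_def]
  have h2 := Perm.card_fixedPoints_modEq h1
  let C : Subgroup (Perm β) := N ⊓ Subgroup.centralizer {z}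
  have h3 : Nat.card C = Fintype.card (Function.fixedPoints f) := by
    rw [← Nat.card_eq_fintype_card]
    refine Nat.card_congr ⟨fun g => ⟨⟨g, g.2.1⟩, Subtype.ext ?_⟩, fun g => ⟨g.1, g.1.2, ?_⟩,
      fun _ => rfl, fun _ => rfl⟩
    · have := Subgroup.mem_centralizer_iff.1 g.2.2 z rfl
      show z * (g : Perm β) * z⁻¹ = g
      rw [this]; group
    · refine Subgroup.mem_centralizer_iff.2 ?_
      intro y hy
      have : z * (g.1 : Perm β) * z⁻¹ = g.1 := congrArg Subtype.val g.2
      rw [Set.mem_singleton_iff.1 hy, ← mul_inv_eq_iff_eq_mul, this]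
  have h4 : q ∣ Nat.card C := by
    rw [h3]
    rw [Nat.card_eq_fintype_card] at h
    exact (Nat.modEq_zero_iff_dvd).1 (h2.symm.trans ((Nat.modEq_zero_iff_dvd).2 h))
  obtain ⟨w, hw, hw'⟩ := cauchy hq h4
  exact ⟨w, hw.1, (Subgroup.mem_centralizer_iff.1 hw.2 z rfl).symm, hw'⟩

end Zw

theorem zw_of (hram : St_ram) (hj : St_jordan) : St_zw := by
  intro β _ _ M t q k h
  have hq := h.prime
  have hc := h.hc
  have hk := h.hk
  have h4 := h.h4
  have ht := h.ht
  have q2 := hq.two_le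
  have hkq : q ≤ (k + 1) * q := Nat.le_mul_of_pos_left q (Nat.succ_pos k)
  have hne : ∀ w : Perm β, orderOf w = q → w ≠ 1 := fun w hw e => by
    rw [e, orderOf_one] at hw; omega
  obtain ⟨T, -, hT⟩ := exists_subset_card_eq (s := (univ : Finset β)) (n := t - q)
    (by rw [card_univ]; omega)
  obtain ⟨z, hz, hzq⟩ := Zw.cauchy hq (h.lemA T (by omega))
  have zq : z ^ q = 1 := hzq ▸ pow_orderOf_eq_one z
  set K : Finset β := univ.filter fun x => z x = x with hKdef
  have fixz : ∀ x, z x = x ↔ x ∈ K := fun x => by simp [hKdef]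
  have hsum : K.card + (supp univ z).card = Fintype.card β := by
    rw [← card_univ]; exact card_filter_add_card_filter_not _
  have hlo : t - q ≤ K.card := hT ▸ card_le_card fun x hx => (fixz x).1 (hz.2 x hx)
  have hhi : K.card < t := by
    by_contra hh
    exact hne z hzq (h.triv z hz.1 K (by omega) fun x hx => (fixz x).2 hx)
  have hK : K.card + 1 = t := by
    have h1 := Zw.dvd_supp hq hzq (Y := univ) fun x _ => mem_univ _
    have h2 : (supp univ z).card = (k + 1) * q + (t - 1 - K.card) := by omega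
    rw [h2] at h1
    have h3 := (Nat.dvd_add_right (Dvd.intro_left _ rfl)).1 h1
    have h5 := Nat.eq_zero_of_dvd_of_lt h3 (by omega)
    omega
  have k1 : 1 ≤ k := by
    by_contra hh
    obtain rfl : k = 0 := by omega
    have h2 : Hom M univ 2 := hram β M (by omega) (h.hh 2 (by omega))
    have := hj β M q (t - 1) hq (by omega) (by omega) h2 z hz.1 zq (by omega)
    rw [show t - 1 + 1 = t by omega] at this
    exact h.nh this
  obtain ⟨p₀, -, hp⟩ := exists_mem_notMem_of_card_lt_card (s := K) (t := univ)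
    (by rw [card_univ]; omega)
  refine ⟨z, K, p₀, h, k1, hz.1, zq, fixz, hK, hp, fun S hS hS' => ?_⟩
  set c := orb (Subgroup.zpowers z) p₀ with hcdef
  have hcq : c.card = q := Zw.card_orb hq hzq fun e => hp ((fixz _).1 e)
  have hcz : ∀ u ∈ Subgroup.zpowers z, ∀ x ∈ c, u x ∈ c := fun u hu x hx =>
    (smul_mem_orb hu).2 hx
  have hdis : Disjoint c K := by
    refine disjoint_left.2 fun x hx hx' => hp ?_
    obtain ⟨u, hu, hu'⟩ := mem_orb.1 (orb_symm hx)
    have := mem_fixs.1 (Zw.mem_fixs_zp.2 ((fixz x).2 hx')) u hu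
    rw [Perm.smul_def, this] at hu'
    exact hu' ▸ hx'
  have hSK := card_le_card hS
  have hcard : (c ∪ (K \ S)).card + q = t := by
    rw [card_union_of_disjoint (hdis.mono_right sdiff_subset), card_sdiff_of_subset hS]
    omega
  obtain ⟨w, hw, hwz, hwq⟩ := Zw.central hq zq (N := fx M (c ∪ (K \ S))) (fun g hg => by
    refine ⟨M.mul_mem (M.mul_mem hz.1 hg.1) (M.inv_mem hz.1), fun x hx => ?_⟩
    have : z⁻¹ x ∈ c ∪ (K \ S) := by
      rcases mem_union.1 hx with h1 | h1
      · exact mem_union_left _ (hcz _ (Subgroup.inv_mem _ (Subgroup.mem_zpowers z)) x h1)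
      · have : z⁻¹ x = x := by
          rw [Perm.inv_eq_iff_eq, (fixz x).2 (mem_sdiff.1 h1).1]
        rw [this]; exact hx
    rw [Perm.mul_apply, Perm.mul_apply, hg.2 _ this, ap_inv]) (h.lemA _ hcard)
  have hwK : ∀ x ∈ K, w x ∈ K := fun x hx => (fixz _).1 (by
    rw [← Perm.mul_apply, ← hwz, Perm.mul_apply, (fixz x).2 hx])
  have hsub : supp K w ⊆ S := fun x hx => by
    by_contra hh
    exact (mem_supp.1 hx).2 (hw.2 x (mem_union_right _ (mem_sdiff.2 ⟨(mem_supp.1 hx).1, hh⟩)))
  refine ⟨w, hw.1, hwz, hwq ▸ pow_orderOf_eq_one w,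
    hw.2 _ (mem_union_left _ (self_mem_orb p₀)), hsub, ?_⟩
  obtain ⟨m, hm⟩ := Zw.dvd_supp hq hwq hwK
  have hle := card_le_card hsub
  have h0 : (supp K w).card ≠ 0 := by
    intro e
    refine hne w hwq (h.triv w hw.1 (c ∪ K) (by rw [card_union_of_disjoint hdis]; omega) ?_)
    intro x hx
    rcases mem_union.1 hx with h1 | h1
    · exact hw.2 x (mem_union_left _ h1)
    · by_contra hh
      have : x ∈ supp K w := mem_supp.2 ⟨h1, hh⟩
      rw [card_eq_zero.1 e] at this
      exact notMem_empty _ this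
  rcases m with _ | _ | m
  · omega
  · omega
  · have : q * (m + 1 + 1) = q * m + 2 * q := by ring
    omega

end Pool.Agent.H5Hom
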