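import Pool.Agent.Lib.MP_078193_al.MAlpha
import Pool.Agent.Lib.MP_078193_al.MAltJ
import Pool.Agent.Lib.MP_078193_al.MCl2
import Pool.Agent.Lib.MP_078193_al.MCl3
import Pool.Agent.Lib.MP_078193_al.MCof
import Pool.Agent.Lib.MP_078193_al.MCore
import Pool.Agent.Lib.MP_078193_al.MCount
import Pool.Agent.Lib.MP_078193_al.ME1
import Pool.Agent.Lib.MP_078193_al.MEb
import Pool.Agent.Lib.MP_078193_al.MFix
import Pool.Agent.Lib.MP_078193_al.MGenA
import Pool.Agent.Lib.MP_078193_al.MGenB
import Pool.Agent.Lib.MP_078193_al.MK1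
import Pool.Agent.Lib.MP_078193_al.MLemB
import Pool.Agent.Lib.MP_078193_al.MLink
import Pool.Agent.Lib.MP_078193_al.MM1
import Pool.Agent.Lib.MP_078193_al.MMd
import Pool.Agent.Lib.MP_078193_al.MOmega
import Pool.Agent.Lib.MP_078193_al.MQn2
import Pool.Agent.Lib.MP_078193_al.MQn3
import Pool.Agent.Lib.MP_078193_al.MQn5
import Pool.Agent.Lib.MP_078193_al.MQns
import Pool.Agent.Lib.MP_078193_al.MR2
import Pool.Agent.Lib.MP_078193_al.MS0
import Pool.Agent.Lib.MP_078193_al.MS1
import Pool.Agent.Lib.MP_078193_al.MSmall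
import Pool.Agent.Lib.MP_078193_al.MStep0
import Pool.Agent.Lib.MP_078193_al.MTri
import Pool.Agent.Lib.MP_078193_al.MTwob
import Pool.Agent.Lib.MP_078193_al.MUt1
import Pool.Agent.Lib.MP_078193_al.MUt2
import Pool.Agent.Lib.MP_078193_al.MVar
import Pool.Agent.Lib.MP_078193_al.MZw

/-! Unconditional versions of the block statements. -/

namespace Pool.Agent.H5Hom

theorem fixA : St_fix := fix_of core_of

theorem twobA : St_twob := twob_of core_of (alpha_of const_of)

theorem countA : St_count := count_of ti_of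

theorem fixityA : St_fixity :=
  fixity_of core_of (link_of core_of) (step0_of john_of compl_of small_of)
    (lemB_of john_of ram_of alt_of comm_of) (e1_of core_of omega_of ram_of alt_of comm_of)
    (genA_of core_of fixA const_of) countA (genB_of md_of ti_of compl_of)
    (zw_of ram_of jordan_of) qn2_of (qn3_of tri_of) (qn5_of comm_of) (qns_of (dj_of comm_of))
    (s0_of fixA const_of) (s1_of fixA twobA tri_of swap_of)
    (cl2_of core_of omega_of fixA twobA (cl3_of core_of swap_of) swap_of)

theorem m1A : St_m1 := m1_of omega_of ti_of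

theorem ebA : St_eb := eb_of m1A ti_of john_of const_of

end Pool.Agent.H5Hom
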