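import Pool.Agent.Lib.MP_078193_al.MBlue

/-! Block alpha. -/

open Finset Equiv
open scoped Pointwise

set_option linter.unusedSectionVars false

namespace Pool.Agent.H5Hom

namespace Alpha

variable {α : Type} [Fintype α] [DecidableEq α] {G : Subgroup (Perm α)} {t : ℕ}
  {B₀ A₀ P₁ P₂ : Finset α}

lemma smul_fix {g : Perm α} {B S : Finset α} (hg : g ∈ fx G B) (hS : S ⊆ B) : g • S = S := by
  rw [smul_eq_image]
  exact (image_congr (g := id) fun x hx => hg.2 x (hS hx)).trans image_id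

/-- hypothesis on nonpure extensions -/
def HB (G : Subgroup (Perm α)) (t : ℕ) (B₀ : Finset α) : Prop :=
  ∀ (B : Finset α) (x x' : α), B.card + 1 = t → B ∉ orb G B₀ → x ∉ B → x' ∉ B →
    Sig G B₀ (insert x B) ≠ ∅ → Sig G B₀ (insert x' B) ≠ ∅ → ∃ g ∈ fx G B, g x = x'

lemma sig_eq {A P : Finset α} (hb : HB G t B₀) (hA : A.card = t) (hs : Sig G B₀ A = ∅)
    (hP : P ⊆ A) (h2 : 2 ≤ P.card)
    (hc : ∀ y ∈ P, ∃ x ∉ A, Sig G B₀ (insert x (A.erase y)) = P.erase y)
    {x y : α} (hx : x ∉ A) (hy : y ∈ P) (hn : Sig G B₀ (insert x (A.erase y)) ≠ ∅) :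
    Sig G B₀ (insert x (A.erase y)) = P.erase y := by
  obtain ⟨x₀, hx₀, h₀⟩ := hc y hy
  have hB : A.erase y ∉ orb G B₀ := fun h => by
    have : y ∈ Sig G B₀ A := mem_Sig.2 ⟨hP hy, h⟩
    simp [hs] at this
  have hne : P.erase y ≠ ∅ := by
    rw [← nonempty_iff_ne_empty, ← card_pos, card_erase_of_mem hy]; omega
  obtain ⟨g, hg, hg'⟩ := hb (A.erase y) x₀ x
    (by rw [card_erase_add_one (hP hy), hA]) hB (fun h => hx₀ (mem_of_mem_erase h))
    (fun h => hx (mem_of_mem_erase h)) (h₀ ▸ hne) hn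
  have e : insert x (A.erase y) = g • insert x₀ (A.erase y) := by
    rw [smul_insert, hg', smul_fix hg subset_rfl]
  rw [e, Sig_smul hg.1, h₀, smul_fix hg (erase_subset_erase y hP)]

lemma erase_ins {A : Finset α} {x y : α} (hx : x ∉ A) (hy : y ∈ A) :
    (insert x A).erase y = insert x (A.erase y) :=
  erase_insert_of_ne fun h => hx (h ▸ hy)

/-- if one point of `P₁` is nonpure then the nonpure points are exactly those of `P₁` -/
lemma filter_eq (hb : HB G t B₀) (hd : Disjoint P₁ P₂) (hA : (P₁ ∪ P₂).card = t)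
    (hs : Sig G B₀ (P₁ ∪ P₂) = ∅) (h1 : 2 ≤ P₁.card) (h2 : 2 ≤ P₂.card)
    (hc1 : ∀ y ∈ P₁, ∃ x ∉ P₁ ∪ P₂, Sig G B₀ (insert x ((P₁ ∪ P₂).erase y)) = P₁.erase y)
    (hc2 : ∀ y ∈ P₂, ∃ x ∉ P₁ ∪ P₂, Sig G B₀ (insert x ((P₁ ∪ P₂).erase y)) = P₂.erase y)
    {x y : α} (hx : x ∉ P₁ ∪ P₂) (hy : y ∈ P₁)
    (hn : Sig G B₀ ((insert x (P₁ ∪ P₂)).erase y) ≠ ∅) :
    (insert x (P₁ ∪ P₂)).filter (fun z => Sig G B₀ ((insert x (P₁ ∪ P₂)).erase z) ≠ ∅) = P₁ := by
  set A := P₁ ∪ P₂ with hAdef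
  set C := insert x A with hC
  have hyA : y ∈ A := mem_union_left _ hy
  have hCc : C.card = t + 1 := by rw [hC, card_insert_of_notMem hx, hA]
  have e1 : Sig G B₀ (C.erase y) = P₁.erase y := by
    rw [hC, erase_ins hx hyA] at hn ⊢
    exact sig_eq hb hA hs subset_union_left h1 hc1 hx hy hn
  ext z
  rw [mem_filter]
  constructor
  · rintro ⟨hz, hz'⟩
    rcases mem_insert.1 hz with rfl | hzA
    · rw [hC, erase_insert hx] at hz'
      exact absurd hs hz'
    rcases mem_union.1 hzA with h | h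
    · exact h
    exfalso
    have e2 : Sig G B₀ (C.erase z) = P₂.erase z := by
      rw [hC, erase_ins hx hzA] at hz' ⊢
      exact sig_eq hb hA hs subset_union_right h2 hc2 hx h hz'
    have hz1 : z ∉ P₁ := fun h' => disjoint_left.1 hd h' h
    have hzy : z ≠ y := fun h' => hz1 (h' ▸ hy)
    have hyC : y ∈ C := mem_insert_of_mem hyA
    have m1 : z ∈ C.erase y := mem_erase.2 ⟨hzy, hz⟩
    have m2 : y ∈ C.erase z := mem_erase.2 ⟨hzy.symm, hyC⟩
    have hB : (C.erase y).erase z ∉ orb G B₀ := fun h' => by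
      have : z ∈ Sig G B₀ (C.erase y) := mem_Sig.2 ⟨m1, h'⟩
      rw [e1] at this
      exact hz1 (mem_of_mem_erase this)
    have i1 : insert z ((C.erase y).erase z) = C.erase y := insert_erase m1
    have i2 : insert y ((C.erase y).erase z) = C.erase z := by
      rw [erase_right_comm]; exact insert_erase m2
    obtain ⟨g, hg, hg'⟩ := hb ((C.erase y).erase z) z y
      (by
        have a1 := card_erase_add_one m1
        have a2 := card_erase_add_one hyC
        omega) hB (notMem_erase _ _)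
      (fun h' => notMem_erase y C (mem_of_mem_erase h')) (by rwa [i1]) (by rwa [i2])
    have e3 : C.erase z = g • C.erase y := by
      rw [← i2]
      conv_rhs => rw [← i1]
      rw [smul_insert, hg', smul_fix hg subset_rfl]
    have hsub : P₁.erase y ⊆ (C.erase y).erase z := fun w hw =>
      mem_erase.2 ⟨fun h' => hz1 (h' ▸ mem_of_mem_erase hw), mem_erase.2
        ⟨ne_of_mem_erase hw, mem_insert_of_mem (mem_union_left _ (mem_of_mem_erase hw))⟩⟩
    rw [e3, Sig_smul hg.1, e1, smul_fix hg hsub] at e2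
    obtain ⟨w, hw⟩ : (P₁.erase y).Nonempty := by
      rw [← card_pos, card_erase_of_mem hy]; omega
    exact disjoint_left.1 hd (mem_of_mem_erase hw) (mem_of_mem_erase (e2 ▸ hw))
  · intro hz
    have hzC : z ∈ C := mem_insert_of_mem (mem_union_left _ hz)
    refine ⟨hzC, ?_⟩
    by_cases hzy : z = y
    · rwa [hzy]
    have : z ∈ Sig G B₀ (C.erase y) := e1 ▸ mem_erase.2 ⟨hzy, hz⟩
    have h3 : y ∈ Sig G B₀ (C.erase z) := mem_Sig.2
      ⟨mem_erase.2 ⟨Ne.symm hzy, mem_insert_of_mem hyA⟩, by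
        rw [erase_right_comm]; exact (mem_Sig.1 this).2⟩
    exact ne_empty_of_mem h3

lemma filter_smul {g : Perm α} (hg : g ∈ G) (C : Finset α) :
    (g • C).filter (fun z => Sig G B₀ ((g • C).erase z) ≠ ∅)
      = g • C.filter (fun z => Sig G B₀ (C.erase z) ≠ ∅) := by
  ext y
  obtain ⟨x, rfl⟩ := g.surjective y
  rw [apply_mem_smul, mem_filter, mem_filter, apply_mem_smul, ← smul_erase, Sig_smul hg]
  simp

end Alpha

open Alpha in
theorem alpha_of (hconst : St_const) : St_alpha := by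
  intro α _ _ G t B₀ A₀ P₁ P₂ hc hd he hA hs _ hb hc1 hc2
  have ht := hc.ht
  have hu := card_union_of_disjoint hd
  have h1 : 2 ≤ P₁.card := by omega
  have h2 : 2 ≤ P₂.card := by omega
  obtain ⟨A, hAc, hAs⟩ := hc.exists_sig
  refine hconst α t P₁.card (fun A => Sig G B₀ A ≠ ∅) hc.hn (fun C hC => ?_) A (P₁ ∪ P₂) hAc hA
    hAs.ne_empty hs
  obtain ⟨y, hy, hy'⟩ := hc.hh.erase hA hC
  obtain ⟨g, hg, hg'⟩ := mem_orb.1 hy'
  obtain ⟨x, rfl⟩ := g.surjective y
  have hx : x ∉ P₁ ∪ P₂ := fun h => by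
    rw [← apply_mem_smul (g := g), hg'] at h
    exact notMem_erase _ _ h
  have e : C = g • insert x (P₁ ∪ P₂) := by rw [smul_insert, hg', insert_erase hy]
  rw [e, filter_smul hg, card_smul]
  obtain ⟨z, hz, hz'⟩ := hc.hh.erase hAc (C := insert x (P₁ ∪ P₂))
    (by rw [card_insert_of_notMem hx, hA])
  have hn : Sig G B₀ ((insert x (P₁ ∪ P₂)).erase z) ≠ ∅ := by
    obtain ⟨k, hk, hk'⟩ := mem_orb.1 hz'
    rw [← hk', Sig_smul hk]
    simpa using hAs.ne_empty
  rcases mem_insert.1 hz with rfl | hzA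
  · rw [erase_insert hx] at hn
    exact absurd hs hn
  rcases mem_union.1 hzA with h | h
  · rw [filter_eq hb hd hA hs h1 h2 hc1 hc2 hx h hn]
  · rw [union_comm] at hA hs hc1 hc2 hx hn ⊢
    rw [filter_eq hb hd.symm hA hs h2 h1 hc2 hc1 hx h hn, he]

end Pool.Agent.H5Hom
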