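import Pool.Agent.Lib.MP_078193_al.H5Main

/-! Counterexample data, orders of pointwise stabilisers, and the local group on a fixed set. -/

open Finset Equiv
open scoped Pointwise

set_option linter.unusedSectionVars false

namespace Pool.Agent.H5Hom

variable {α : Type} [Fintype α] [DecidableEq α] {β : Type} [Fintype β] [DecidableEq β]

/-- common part of the orders of pointwise stabilisers of `t`-sets -/
noncomputable def mm (H : Subgroup (Perm α)) (t : ℕ) : ℕ :=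
  (powersetCard t (univ : Finset α)).gcd (fun A => Nat.card (fx H A))

/-- excess of a `t`-set -/
noncomputable def ee (H : Subgroup (Perm α)) (t : ℕ) (A : Finset α) : ℕ :=
  Nat.card (fx H A) / mm H t

/-- only the identity fixes `j` points -/
def Triv (H : Subgroup (Perm α)) (j : ℕ) : Prop :=
  ∀ g ∈ H, ∀ X : Finset α, j ≤ X.card → (∀ x ∈ X, g x = x) → g = 1

/-- stabilisers of `(t-2)`-sets have no further fixed point -/
def NoFix (H : Subgroup (Perm α)) (t : ℕ) : Prop :=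
  ∀ (Y : Finset α) (y : α), Y.card + 2 = t → y ∉ Y → ∃ u ∈ fx H Y, u y ≠ y

open Classical in
/-- points of `A` whose removal gives a conjugate of `B₀` -/
noncomputable def Sig (H : Subgroup (Perm α)) (B₀ A : Finset α) : Finset α :=
  A.filter (fun y => A.erase y ∈ orb H B₀)

/-- `H` induces the cycle `(a b c)` on `K` -/
def T3 (H : Subgroup (Perm α)) (K : Finset α) (a b c : α) : Prop :=
  a ∈ K ∧ b ∈ K ∧ c ∈ K ∧ a ≠ b ∧ a ≠ c ∧ b ≠ c ∧
    ∃ g ∈ H, g a = b ∧ g b = c ∧ g c = a ∧ ∀ x ∈ K, x ≠ a → x ≠ b → x ≠ c → g x = x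

/-- a counterexample to downward inheritance -/
structure Cex (G : Subgroup (Perm α)) (t : ℕ) (B₀ A₀ : Finset α) : Prop where
  hh : HH G t
  ht : 6 ≤ t
  hn : 2 * t + 1 ≤ Fintype.card α
  hB : B₀.card + 1 = t
  hA : A₀.card = t
  pure : ∀ g ∈ G, ¬ g • B₀ ⊆ A₀

/-- the group `M` induced on the fixed set of a `q`-subgroup of order the `q`-part of `mm` -/
structure Link (G : Subgroup (Perm α)) (t q : ℕ) (M : Subgroup (Perm β)) (ι : β ↪ α) : Prop where
  prime : q.Prime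
  lo : t + 1 ≤ Fintype.card β
  hi : Fintype.card β < Fintype.card α
  cong : q ∣ Fintype.card α - Fintype.card β
  lift : ∀ u ∈ M, ∃ g ∈ G, ∀ x, g (ι x) = ι (u x)
  fus : ∀ X : Finset β, ¬ q ∣ Nat.card (fx M X) → ∀ g ∈ G, ∀ φ : β → β,
    (∀ x ∈ X, g (ι x) = ι (φ x)) → ∃ u ∈ M, ∀ x ∈ X, u x = φ x
  gen : ∀ X : Finset β, ¬ q ∣ Nat.card (fx M X) ↔
    (Nat.card (fx G (X.map ι))).factorization q = (mm G t).factorization q
  meet : ∀ B : Finset β, B.card + 1 = t → ¬ q ∣ Nat.card (fx M B) → ∀ z, z ∉ B.map ι →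
    ∃ x, ι x ∈ orb (fx G (B.map ι)) z
  dvd : ∀ X : Finset β, Nat.card (fx M X) ∣ Nat.card (fx G (X.map ι))
  big : ∀ X : Finset β, t + 1 ≤ X.card → ¬ q ∣ Nat.card (fx M X)
  lemA : ∀ T : Finset β, T.card + q = t → q ∣ Nat.card (fx M T)

/-- the local situation when `q` divides `n - t + 1` -/
structure QN (M : Subgroup (Perm β)) (t q k : ℕ) : Prop where
  prime : q.Prime
  ht : 6 ≤ t
  hc : Fintype.card β + 1 = t + (k + 1) * q
  hk : (k + 1) * q ≤ t
  h4 : 4 ≤ (k + 1) * q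
  triv : Triv M t
  lemA : ∀ T : Finset β, T.card + q = t → q ∣ Nat.card (fx M T)
  hh : ∀ i, i + 2 ≤ (k + 1) * q → HH M i
  nh : ¬ Hom M univ t

/-- an element of order `q` with `t - 1` fixed points and many commuting `q`-cycles on them -/
structure ZW (M : Subgroup (Perm β)) (t q k : ℕ) (z : Perm β) (K : Finset β) (p₀ : β) : Prop where
  qn : QN M t q k
  k1 : 1 ≤ k
  hz : z ∈ M
  zq : z ^ q = 1
  fixz : ∀ x, z x = x ↔ x ∈ K
  hK : K.card + 1 = t
  hp : p₀ ∉ K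
  cyc : ∀ S ⊆ K, S.card + 1 = 2 * q → ∃ w ∈ M, w * z = z * w ∧ w ^ q = 1 ∧ w p₀ = p₀ ∧
    supp K w ⊆ S ∧ (supp K w).card = q

/-- the theorem for all groups on the type `β` -/
def Down (β : Type) [Fintype β] [DecidableEq β] : Prop :=
  ∀ (M : Subgroup (Perm β)) (i : ℕ), 6 ≤ i → 2 * i + 1 ≤ Fintype.card β → HH M i → HH M (i - 1)

variable {H G : Subgroup (Perm α)} {M : Subgroup (Perm β)} {ι : β ↪ α} {t q : ℕ}
  {B₀ A₀ : Finset α}

lemma mm_dvd {A : Finset α} (hA : A.card = t) : mm H t ∣ Nat.card (fx H A) :=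
  gcd_dvd (mem_lev.2 hA)

lemma mm_mul_ee {A : Finset α} (hA : A.card = t) : mm H t * ee H t A = Nat.card (fx H A) :=
  Nat.mul_div_cancel' (mm_dvd hA)

lemma mm_pos {A : Finset α} (hA : A.card = t) : 0 < mm H t :=
  Nat.pos_of_dvd_of_pos (mm_dvd hA) Nat.card_pos

lemma ee_pos {A : Finset α} (hA : A.card = t) : 0 < ee H t A := by
  have h := mm_mul_ee (H := H) hA
  have h' : 0 < Nat.card (fx H A) := Nat.card_pos
  exact Nat.pos_of_mul_pos_left (h ▸ h')

lemma ee_orb {A B : Finset α} (h : B ∈ orb H A) : ee H t B = ee H t A := by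
  rw [ee, ee, card_fx_of_mem_orb h]

lemma not_dvd_ee {p : ℕ} (hp : p.Prime) {A : Finset α} (hA : A.card = t) : ¬ p ∣ ee H t A ↔
    (Nat.card (fx H A)).factorization p = (mm H t).factorization p := by
  rw [← mm_mul_ee hA, Nat.factorization_mul (mm_pos hA).ne' (ee_pos hA).ne',
    hp.dvd_iff_one_le_factorization (ee_pos hA).ne']
  simp

lemma Triv.mono {i j : ℕ} (h : Triv H i) (hij : i ≤ j) : Triv H j :=
  fun g hg X hX => h g hg X (hij.trans hX)

lemma Triv.card {j : ℕ} (h : Triv H j) {X : Finset α} (hX : j ≤ X.card) :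
    Nat.card (fx H X) = 1 := by
  rw [Subgroup.card_eq_one, eq_bot_iff]
  exact fun g hg => Subgroup.mem_bot.2 (h g hg.1 X hX hg.2)

lemma mem_Sig {A : Finset α} {y : α} : y ∈ Sig H B₀ A ↔ y ∈ A ∧ A.erase y ∈ orb H B₀ := by
  simp [Sig]

lemma Sig_smul {g : Perm α} (hg : g ∈ H) (A : Finset α) : Sig H B₀ (g • A) = g • Sig H B₀ A := by
  ext y
  obtain ⟨x, rfl⟩ := g.surjective y
  rw [apply_mem_smul, mem_Sig, mem_Sig, apply_mem_smul, ← smul_erase, smul_mem_orb hg]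

lemma Cex.sig_empty (h : Cex G t B₀ A₀) : Sig G B₀ A₀ = ∅ := by
  refine eq_empty_of_forall_notMem fun y hy => ?_
  obtain ⟨g, hg, hg'⟩ := mem_orb.1 (mem_Sig.1 hy).2
  exact h.pure g hg (hg' ▸ erase_subset _ _)

lemma Cex.exists_sig (h : Cex G t B₀ A₀) : ∃ A : Finset α, A.card = t ∧ (Sig G B₀ A).Nonempty := by
  have := h.hB; have := h.hn
  obtain ⟨x, -, hx⟩ := exists_mem_notMem_of_card_lt_card (s := B₀) (t := univ)
    (by rw [card_univ]; omega)
  exact ⟨insert x B₀, by rw [card_insert_of_notMem hx]; omega, x,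
    mem_Sig.2 ⟨mem_insert_self _ _, by rw [erase_insert hx]; exact self_mem_orb _⟩⟩

lemma Cex.nh (h : Cex G t B₀ A₀) : ¬ Hom G univ t := by
  intro hh
  obtain ⟨A, hA, hA'⟩ := h.exists_sig
  obtain ⟨g, hg, rfl⟩ := hh A₀ (subset_univ _) A (subset_univ _) h.hA hA
  rw [Sig_smul hg, h.sig_empty] at hA'
  simp at hA'

lemma map_erase' (X : Finset β) (x : β) : (X.erase x).map ι = (X.map ι).erase (ι x) :=
  map_erase ι X x

lemma Link.smul_map (h : Link G t q M ι) {u : Perm β} (hu : u ∈ M) :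
    ∃ g ∈ G, (∀ x, g (ι x) = ι (u x)) ∧ ∀ X : Finset β, (u • X).map ι = g • X.map ι := by
  obtain ⟨g, hg, hg'⟩ := h.lift u hu
  refine ⟨g, hg, hg', fun X => ?_⟩
  rw [smul_eq_image, smul_eq_image, map_eq_image, map_eq_image, image_image, image_image]
  exact image_congr fun x _ => (hg' x).symm

lemma Link.orb_map (h : Link G t q M ι) {X Y : Finset β} (hY : Y ∈ orb M X) :
    Y.map ι ∈ orb G (X.map ι) := by
  obtain ⟨u, hu, rfl⟩ := mem_orb.1 hY
  obtain ⟨g, hg, -, hg'⟩ := h.smul_map hu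
  exact mem_orb.2 ⟨g, hg, (hg' X).symm⟩

/-- every type of `t`-set occurs in every `(t+1)`-subset of `β` -/
lemma HH.erase_map (h : HH G t) {A : Finset α} (hA : A.card = t) {C : Finset β}
    (hC : C.card = t + 1) : ∃ x ∈ C, (C.erase x).map ι ∈ orb G A := by
  obtain ⟨y, hy, hy'⟩ := h.erase hA (C := C.map ι) (by rwa [card_map])
  obtain ⟨x, hx, rfl⟩ := mem_map.1 hy
  exact ⟨x, hx, by rwa [map_erase']⟩

lemma Link.nh (h : Link G t q M ι) (hc : Cex G t B₀ A₀) : ¬ Hom M univ t := by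
  intro hh
  apply hc.nh
  obtain ⟨C, -, hC⟩ := exists_subset_card_eq (s := (univ : Finset β)) (n := t + 1)
    (by rw [card_univ]; exact h.lo)
  intro A _ A' _ hA hA'
  obtain ⟨x, hx, hx'⟩ := hc.hh.erase_map (ι := ι) hA hC
  obtain ⟨y, hy, hy'⟩ := hc.hh.erase_map (ι := ι) hA' hC
  have := h.orb_map (mem_orb.2 (hh (C.erase x) (subset_univ _) (C.erase y) (subset_univ _)
    (by rw [card_erase_of_mem hx]; omega) (by rw [card_erase_of_mem hy]; omega)))
  exact mem_orb.1 (orb_trans (orb_trans hx' this) (orb_symm hy'))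

lemma Link.dvd_ee (h : Link G t q M ι) {A : Finset β} (hA : A.card = t) :
    q ∣ Nat.card (fx M A) ↔ q ∣ ee G t (A.map ι) := by
  rw [← not_iff_not, h.gen, not_dvd_ee h.prime (by rwa [card_map])]

/-- normalisers grow in `p`-groups -/
lemma grow {p a : ℕ} (hp : p.Prime) {P K : Subgroup (Perm α)} (h : P ≤ K)
    (hP : Nat.card P = p ^ a) (hK : p ^ (a + 1) ∣ Nat.card K) : ∃ P₁, P ≤ P₁ ∧ P₁ ≤ K ∧
      Nat.card P₁ = p ^ (a + 1) ∧ ∀ y ∈ P₁, ∀ x ∈ P, y * x * y⁻¹ ∈ P := by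
  obtain ⟨P₁, h1, h2, h3⟩ := exists_between hp h hP hK (by omega)
  refine ⟨P₁, h1, h2, h3, fun y hy x hx => ?_⟩
  have hi : (P.subgroupOf P₁).index = p := by
    have := (P.subgroupOf P₁).card_mul_index
    rw [card_subgroupOf h1, hP, h3, pow_succ] at this
    exact Nat.eq_of_mul_eq_mul_left (pow_pos hp.pos a) this
  have hn : (P.subgroupOf P₁).Normal :=
    Subgroup.normal_of_index_eq_minFac_card (by
      rw [hi, h3, hp.pow_minFac (by omega)])
  exact hn.conj_mem ⟨x, h1 hx⟩ hx ⟨y, hy⟩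

lemma inv_fixs {P P₁ : Subgroup (Perm α)} (h : ∀ y ∈ P₁, ∀ x ∈ P, y * x * y⁻¹ ∈ P) :
    Inv P₁ (fixs P) := by
  intro y hy z hz
  refine mem_fixs.2 fun x hx => ?_
  have := mem_fixs.1 hz _ (h y⁻¹ (P₁.inv_mem hy) x hx)
  rw [inv_inv, Perm.mul_apply, Perm.mul_apply, Perm.inv_eq_iff_eq] at this
  exact this

/-- a Sylow subgroup of a closed set stays Sylow after removing fewer than `p` points -/
lemma adj0 {p : ℕ} (hp : p.Prime) {X Y : Finset α} {P : Subgroup (Perm α)}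
    (hP : Syl p (fx H X) P) (hX : fixs P = X) (hY : Y ⊆ X) (hc : (X \ Y).card < p) :
    Syl p (fx H Y) P := by
  have hle : P ≤ fx H Y := hP.1.trans (fx_anti hY)
  refine ⟨hle, ?_⟩
  have h0 : Nat.card (fx H Y) ≠ 0 := Nat.card_pos.ne'
  have h1 := Subgroup.card_dvd_of_le hle
  rw [hP.2] at h1 ⊢
  congr 1
  refine le_antisymm ((hp.pow_dvd_iff_le_factorization h0).1 h1) ?_
  by_contra hlt
  obtain ⟨P₁, a1, a2, a3, a4⟩ := grow hp hle hP.2
    ((hp.pow_dvd_iff_le_factorization h0).2 (by omega))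
  have hi : Inv P₁ (X \ Y) := by
    intro y hy z hz
    obtain ⟨b1, b2⟩ := mem_sdiff.1 hz
    refine mem_sdiff.2 ⟨hX ▸ inv_fixs a4 y hy z (hX ▸ b1), fun b3 => b2 ?_⟩
    have := (a2 hy).2 _ b3
    rwa [y.injective this] at b3
  have h2 := subset_fixs hp a3 hi hc
  have h3 : P₁ ≤ fx H X := fun y hy => ⟨(a2 hy).1, fun z hz => by
    by_cases b : z ∈ Y
    · exact (a2 hy).2 z b
    · exact mem_fixs.1 (h2 (mem_sdiff.2 ⟨hz, b⟩)) y hy⟩
  have h4 := Subgroup.card_dvd_of_le h3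
  rw [a3, hp.pow_dvd_iff_le_factorization Nat.card_pos.ne'] at h4
  omega

/-- two closed sets at distance less than `p` are conjugate -/
lemma adj {p : ℕ} (hp : p.Prime) {X X' : Finset α} {P P' : Subgroup (Perm α)}
    (hP : Syl p (fx H X) P) (hX : fixs P = X) (hP' : Syl p (fx H X') P') (hX' : fixs P' = X')
    (hc : (X \ X').card < p) (hc' : (X' \ X).card < p) :
    ∃ k ∈ fx H (X ∩ X'), (∀ x, x ∈ P' ↔ k⁻¹ * x * k ∈ P) ∧ k • X = X' := by
  obtain ⟨k, hk, hk'⟩ := (adj0 hp hP hX inter_subset_left (by rwa [sdiff_inter_self_left])).conj hp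
    (adj0 hp hP' hX' inter_subset_right (by rwa [sdiff_inter_self_right]))
  exact ⟨k, hk, hk', by rw [← hX, ← hX', fixs_conj hk']⟩

end Pool.Agent.H5Hom
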