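import Pool.Agent.Lib.MP_078193_al.MBase

/-! Statements of the blocks for the proof that only the identity fixes `t + 1` points. -/

open Finset Equiv
open scoped Pointwise

set_option linter.unusedSectionVars false

namespace Pool.Agent.H5Hom

/-! ### Utilities -/

def St_john : Prop := ∀ (α : Type) [DecidableEq α] (Ω : Finset α) (k : ℕ) (P : Finset α → Prop),
  (∀ U ⊆ Ω, U.card = k → P U → ∀ a ∈ U, ∀ b ∈ Ω, b ∉ U → P (insert b (U.erase a))) →
  ∀ U ⊆ Ω, ∀ V ⊆ Ω, U.card = k → V.card = k → P U → P V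

def St_compl : Prop := ∀ (α : Type) [Fintype α] [DecidableEq α] (H : Subgroup (Perm α)) (i j : ℕ),
  (i + j + 1 = Fintype.card α → HH H i → HH H j) ∧
  (i + j = Fintype.card α → Hom H univ i → Hom H univ j)

def St_ram : Prop := ∀ (α : Type) [Fintype α] [DecidableEq α] (H : Subgroup (Perm α)),
  6 ≤ Fintype.card α → HH H 2 → Hom H univ 2

def St_const : Prop := ∀ (α : Type) [Fintype α] [DecidableEq α] (t c : ℕ) (P : Finset α → Prop)
  [DecidablePred P], 2 * t + 1 ≤ Fintype.card α →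
  (∀ C : Finset α, C.card = t + 1 → (C.filter (fun x => P (C.erase x))).card = c) →
  ∀ A A' : Finset α, A.card = t → A'.card = t → P A → P A'

def St_swap : Prop := ∀ (α : Type) [Fintype α] [DecidableEq α] (H : Subgroup (Perm α))
  (V : Finset α), ((∀ x ∈ V, ∀ y ∈ V, swap x y ∈ H) ∨
    (3 ≤ V.card ∧ ∀ a ∈ V, ∀ b ∈ V, ∀ c ∈ V, a ≠ b → a ≠ c → b ≠ c → T3 H univ a b c)) →
  ∀ j, Hom (fx H Vᶜ) V j

def St_comm : Prop := ∀ (α : Type) [Fintype α] [DecidableEq α] (K : Finset α) (a b : Perm α),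
  (∀ x ∈ K, a x ∈ K) → (∀ x ∈ K, b x ∈ K) →
  (supp K (a * b * a⁻¹ * b⁻¹) ⊆ (supp K a ∩ supp K b) ∪ a • (supp K a ∩ supp K b)
      ∪ b • (supp K a ∩ supp K b)) ∧
  ((supp K a ∩ supp K b).card = 1 → (supp K (a * b * a⁻¹ * b⁻¹)).Nonempty) ∧
  (supp K (a * b * a⁻¹ * b⁻¹) = ∅ → a • (supp K a ∩ supp K b) = supp K a ∩ supp K b ∧
    b • (supp K a ∩ supp K b) = supp K a ∩ supp K b) ∧
  (∀ q : ℕ, q.Prime → a ^ q = 1 → (supp K a).card = q → ∀ I ⊆ supp K a, I.Nonempty →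
    a • I = I → I = supp K a)

def St_ti : Prop := ∀ (α : Type) [Fintype α] [DecidableEq α] (H : Subgroup (Perm α))
  (X : Finset α), Inv H X → (∀ g ∈ H, ∀ x ∈ X, ∀ y ∈ X, x ≠ y → g x = x → g y = y → g = 1) →
  (∀ x ∈ X, ∀ y ∈ X, (∃ g ∈ H, g ≠ 1 ∧ g x = x) → (∃ g ∈ H, g ≠ 1 ∧ g y = y) → y ∈ orb H x) ∧
  (X.Nonempty → (∀ x ∈ X, ∃ g ∈ H, g x ≠ x) →
    (∑ x ∈ X, (Nat.card (st H x) - 1)) + 2 ≤ Nat.card H ∧
    ∃ x ∈ X, 2 ≤ (orb H x).card ∧ ∀ y ∈ X, (orb H x).card ∣ (orb H y).card)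

def St_small : Prop := ∀ (α : Type) [Fintype α] [DecidableEq α] (H : Subgroup (Perm α)) (i : ℕ),
  1 ≤ i → i ≤ 5 → 2 * i + 2 ≤ Fintype.card α → HH H i → HH H (i - 1)

def St_alt : Prop := ∀ (α : Type) [Fintype α] [DecidableEq α] (H : Subgroup (Perm α)),
  5 ≤ Fintype.card α → Hom H univ 2 → ∀ g ∈ H, g ≠ 1 → (supp univ g).card ≤ 3 →
  ∀ j, Hom H univ j

def St_jordan : Prop := ∀ (α : Type) [Fintype α] [DecidableEq α] (H : Subgroup (Perm α)) (q j : ℕ),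
  q.Prime → 1 ≤ j → Fintype.card α = q + j → Hom H univ 2 → ∀ z ∈ H, z ^ q = 1 →
  (supp univ z).card = q → Hom H univ (j + 1)

def St_tri : Prop := ∀ (α : Type) [Fintype α] [DecidableEq α] (L : Subgroup (Perm α))
  (K : Finset α), Inv L K → 5 ≤ K.card →
  (∀ S ⊆ K, S.card = 5 → ∃ a ∈ S, ∃ b ∈ S, ∃ c ∈ S, T3 L K a b c) →
  ∃ W₁ ⊆ K, ∃ W₂ ⊆ K, Disjoint W₁ W₂ ∧ 3 ≤ W₁.card ∧
    (∀ a ∈ W₁, ∀ b ∈ W₁, ∀ c ∈ W₁, a ≠ b → a ≠ c → b ≠ c → T3 L K a b c) ∧
    (∀ a ∈ W₂, ∀ b ∈ W₂, ∀ c ∈ W₂, a ≠ b → a ≠ c → b ≠ c → T3 L K a b c) ∧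
    (∀ a b c, T3 L K a b c → a ∈ W₁ ∪ W₂) ∧
    ((W₂ = ∅ ∧ K.card ≤ W₁.card + 2) ∨ (3 ≤ W₂.card ∧ W₁ ∪ W₂ = K))

/-! ### Sylow facts -/

def St_core : Prop := ∀ (α : Type) [Fintype α] [DecidableEq α] (H : Subgroup (Perm α)) (t : ℕ),
  HH H t → t + 1 ≤ Fintype.card α → ¬ Hom H univ t →
  (∀ C : Finset α, C.card = t + 1 → Nat.card (fx H C) ∣ mm H t) ∧
  (∀ p : ℕ, p.Prime → ∀ (B : Finset α) (x x' : α), B.card + 1 = t → x ∉ B → x' ∉ B →
    p ∣ ee H t (insert x B) → p ∣ ee H t (insert x' B) → ∃ g ∈ fx H B, g x = x') ∧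
  (∀ p : ℕ, p.Prime → ∀ A A' : Finset α, A.card = t → A'.card = t →
    p ∣ ee H t A → p ∣ ee H t A' → A' ∈ orb H A) ∧
  (∀ p : ℕ, p.Prime → ∀ (A : Finset α) (P : Subgroup (Perm α)), A.card = t →
    Syl p (fx H A) P → (p ∣ ee H t A ↔ fixs P = A)) ∧
  (∀ p : ℕ, p.Prime → ∃ A : Finset α, A.card = t ∧ ¬ p ∣ ee H t A)

def St_link : Prop := ∀ (α : Type) [Fintype α] [DecidableEq α] (G : Subgroup (Perm α)) (t q : ℕ)
  (B₀ A₀ : Finset α), Cex G t B₀ A₀ → q.Prime → q ∣ mm G t →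
  ∃ (β : Type) (_ : Fintype β) (_ : DecidableEq β) (M : Subgroup (Perm β)) (ι : β ↪ α),
    Link G t q M ι

def St_step0 : Prop := ∀ (α : Type) [Fintype α] [DecidableEq α] (β : Type) [Fintype β]
  [DecidableEq β] (G : Subgroup (Perm α)) (M : Subgroup (Perm β)) (ι : β ↪ α) (t q : ℕ)
  (B₀ A₀ : Finset α), Cex G t B₀ A₀ → Link G t q M ι →
  (q ≠ 2 ∨ ∀ A : Finset α, A.card = t → ¬ 2 ∣ ee G t A) → Down β →
  HH M t ∧ Fintype.card β + 1 ≤ 2 * t ∧ ∀ i, i + t + 1 ≤ Fintype.card β → HH M i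

/-! ### The local group -/

def St_lemB : Prop := ∀ (β : Type) [Fintype β] [DecidableEq β] (M : Subgroup (Perm β)) (t s : ℕ),
  Fintype.card β = s + 1 + t → 2 ≤ s → s + 2 ≤ t → (∀ i ≤ s, HH M i) → ¬ Hom M univ t →
  Triv M (t + 1)

def St_omega : Prop := ∀ (β : Type) [Fintype β] [DecidableEq β] (H : Subgroup (Perm β)) (t : ℕ),
  6 ≤ t → t + 1 ≤ Fintype.card β → Triv H (t + 1) →
  (∀ C : Finset β, C.card = t + 1 → (∃ x ∈ C, 2 ∣ Nat.card (fx H (C.erase x))) ∧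
    ∃ x ∈ C, ¬ 2 ∣ Nat.card (fx H (C.erase x))) → Fintype.card β = t + 2

def St_e1 : Prop := ∀ (β : Type) [Fintype β] [DecidableEq β] (M : Subgroup (Perm β)) (t s : ℕ),
  Fintype.card β = s + 1 + t → 2 ≤ s → s + 2 ≤ t → 6 ≤ t → HH M t → HH M 2 → ¬ Hom M univ t →
  Triv M (t + 1) → Triv M t

def St_fix : Prop := ∀ (α : Type) [Fintype α] [DecidableEq α] (β : Type) [Fintype β]
  [DecidableEq β] (G : Subgroup (Perm α)) (M : Subgroup (Perm β)) (ι : β ↪ α) (t q : ℕ)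
  (B₀ A₀ : Finset α), Cex G t B₀ A₀ → Link G t q M ι → ∀ (Y : Finset β) (y x : β),
  Y.card + 2 = t → y ∉ Y → x ∉ insert y Y → ¬ q ∣ Nat.card (fx M (insert y Y)) →
  (∀ u ∈ fx M Y, u y = y) →
  1 < ee G t ((insert x (insert y Y)).map ι) ∧
  (∀ z, z ∉ (insert x (insert y Y)).map ι → ee G t (insert z ((insert x Y).map ι)) = 1) ∧
  (Nat.card (fx M (insert x (insert y Y))) = 1 → Fintype.card α - t
    = ee G t ((insert x (insert y Y)).map ι) * (Fintype.card β - t)) ∧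
  ¬ ∀ a ∉ insert x (insert y Y), ∀ b ∉ insert x (insert y Y),
    ∃ u ∈ fx M (insert x (insert y Y)), u a = b

def St_genA : Prop := ∀ (α : Type) [Fintype α] [DecidableEq α] (β : Type) [Fintype β]
  [DecidableEq β] (G : Subgroup (Perm α)) (M : Subgroup (Perm β)) (ι : β ↪ α) (t q : ℕ)
  (B₀ A₀ : Finset α), Cex G t B₀ A₀ → Link G t q M ι →
  (∀ B : Finset β, B.card + 1 = t → ¬ q ∣ Nat.card (fx M B)) → Triv M t → NoFix M t

def St_count : Prop := ∀ (β : Type) [Fintype β] [DecidableEq β] (M : Subgroup (Perm β)) (t : ℕ),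
  3 ≤ t → t + 1 ≤ Fintype.card β → Triv M t → NoFix M t → Tr M univ (t - 2)

def St_md : Prop := ∀ (β : Type) [Fintype β] [DecidableEq β] (M : Subgroup (Perm β)) (τ : ℕ),
  Tr M univ τ → (∀ g ∈ M, g ≠ 1 → 4 ≤ (supp univ g).card) → ∀ g ∈ M, g ≠ 1 →
  (supp univ g).card < Fintype.card β → 2 * τ ≤ (supp univ g).card + 3

def St_genB : Prop := ∀ (β : Type) [Fintype β] [DecidableEq β] (M : Subgroup (Perm β)) (t : ℕ),
  6 ≤ t → t + 1 ≤ Fintype.card β → Fintype.card β + 1 ≤ 2 * t → Triv M t → NoFix M t →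
  Tr M univ (t - 2) → Hom M univ t

def St_zw : Prop := ∀ (β : Type) [Fintype β] [DecidableEq β] (M : Subgroup (Perm β)) (t q k : ℕ),
  QN M t q k → ∃ z K p₀, ZW M t q k z K p₀

def St_qn2 : Prop := ∀ (β : Type) [Fintype β] [DecidableEq β] (M : Subgroup (Perm β)) (t k : ℕ)
  (z : Perm β) (K : Finset β) (p₀ : β), ¬ ZW M t 2 k z K p₀

def St_qn3 : Prop := ∀ (β : Type) [Fintype β] [DecidableEq β] (M : Subgroup (Perm β)) (t k : ℕ)
  (z : Perm β) (K : Finset β) (p₀ : β), 3 ≤ k → ¬ ZW M t 3 k z K p₀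

def St_qn5 : Prop := ∀ (β : Type) [Fintype β] [DecidableEq β] (M : Subgroup (Perm β)) (t q k : ℕ)
  (z : Perm β) (K : Finset β) (p₀ : β), 5 ≤ q → q ≤ k → ¬ ZW M t q k z K p₀

/-- commuting `q`-cycles which preserve the cycles of `z` have equal or disjoint supports -/
def St_dj : Prop := ∀ (β : Type) [Fintype β] [DecidableEq β] (M : Subgroup (Perm β)) (t q k : ℕ)
  (z : Perm β) (K : Finset β) (p₀ : β), ZW M t q k z K p₀ →
  (k < q → ∀ w, w * z = z * w → w ^ q = 1 → w p₀ = p₀ → ∀ p ∉ K, ∃ j : ℕ, w p = (z ^ j) p) ∧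
  (∀ w ∈ M, ∀ w' ∈ M, w * z = z * w → w' * z = z * w' → w ^ q = 1 → w' ^ q = 1 →
    (∀ p ∉ K, ∃ j : ℕ, w p = (z ^ j) p) → (∀ p ∉ K, ∃ j : ℕ, w' p = (z ^ j) p) →
    (supp K w).card = q → (supp K w').card = q →
    supp K w = supp K w' ∨ Disjoint (supp K w) (supp K w'))

def St_qns : Prop := ∀ (β : Type) [Fintype β] [DecidableEq β] (M : Subgroup (Perm β)) (t q k : ℕ)
  (z : Perm β) (K : Finset β) (p₀ : β), 3 ≤ q → k < q → ¬ ZW M t q k z K p₀

/-! ### Small fixed sets -/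

def St_s0 : Prop := ∀ (α : Type) [Fintype α] [DecidableEq α] (β : Type) [Fintype β]
  [DecidableEq β] (G : Subgroup (Perm α)) (M : Subgroup (Perm β)) (ι : β ↪ α) (t q : ℕ)
  (B₀ A₀ : Finset α), Cex G t B₀ A₀ → Link G t q M ι → Fintype.card β ≠ t + 1

def St_alpha : Prop := ∀ (α : Type) [Fintype α] [DecidableEq α] (G : Subgroup (Perm α)) (t : ℕ)
  (B₀ A₀ P₁ P₂ : Finset α), Cex G t B₀ A₀ → Disjoint P₁ P₂ → P₁.card = P₂.card →
  (P₁ ∪ P₂).card = t → Sig G B₀ (P₁ ∪ P₂) = ∅ →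
  (∀ A : Finset α, A.card = t → Sig G B₀ A = ∅ → A ∈ orb G (P₁ ∪ P₂)) →
  (∀ (B : Finset α) (x x' : α), B.card + 1 = t → B ∉ orb G B₀ → x ∉ B → x' ∉ B →
    Sig G B₀ (insert x B) ≠ ∅ → Sig G B₀ (insert x' B) ≠ ∅ → ∃ g ∈ fx G B, g x = x') →
  (∀ y ∈ P₁, ∃ x ∉ P₁ ∪ P₂, Sig G B₀ (insert x ((P₁ ∪ P₂).erase y)) = P₁.erase y) →
  (∀ y ∈ P₂, ∃ x ∉ P₁ ∪ P₂, Sig G B₀ (insert x ((P₁ ∪ P₂).erase y)) = P₂.erase y) → False

def St_twob : Prop := ∀ (α : Type) [Fintype α] [DecidableEq α] (β : Type) [Fintype β]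
  [DecidableEq β] (G : Subgroup (Perm α)) (M : Subgroup (Perm β)) (ι : β ↪ α) (t q : ℕ)
  (B₀ A₀ : Finset α) (V : Finset β), Cex G t B₀ A₀ → Link G t q M ι →
  Fintype.card β = t + 2 → 2 ≤ V.card → 2 ≤ Vᶜ.card →
  (∀ j, Hom (fx M Vᶜ) V j) → (∀ j, Hom (fx M V) Vᶜ j) →
  (q ≠ 2 ∨ ∀ a ∈ V, ∀ a' ∈ V, a ≠ a' → q ∣ ee G t (({a, a'} : Finset β)ᶜ.map ι)) → False

def St_s1 : Prop := ∀ (α : Type) [Fintype α] [DecidableEq α] (β : Type) [Fintype β]
  [DecidableEq β] (G : Subgroup (Perm α)) (M : Subgroup (Perm β)) (ι : β ↪ α) (t q : ℕ)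
  (B₀ A₀ : Finset α), Cex G t B₀ A₀ → Link G t q M ι → Fintype.card β = t + 2 → q ≠ 2 →
  HH M 1 → q ≠ 3 ∧ Triv M t

def St_cl3 : Prop := ∀ (α : Type) [Fintype α] [DecidableEq α] (β : Type) [Fintype β]
  [DecidableEq β] (G : Subgroup (Perm α)) (M : Subgroup (Perm β)) (ι : β ↪ α) (t : ℕ)
  (B₀ A₀ : Finset α) (c : β → Fin 3), Cex G t B₀ A₀ → Link G t 2 M ι →
  Fintype.card β = t + 2 → (∀ x y, x ≠ y → (swap x y ∈ M ↔ c x = c y)) →
  (∀ i, ∃ x y, x ≠ y ∧ c x = i ∧ c y = i) → False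

def St_cl2 : Prop := ∀ (α : Type) [Fintype α] [DecidableEq α] (β : Type) [Fintype β]
  [DecidableEq β] (G : Subgroup (Perm α)) (M : Subgroup (Perm β)) (ι : β ↪ α) (t : ℕ)
  (B₀ A₀ : Finset α), Cex G t B₀ A₀ → Link G t 2 M ι →
  (∀ C : Finset α, C.card = t + 1 → ∃ a, Nat.card (fx G C) = 2 ^ a) →
  ∀ A : Finset α, A.card = t → ¬ 2 ∣ ee G t A

/-! ### Results -/

def St_fixity : Prop := ∀ (α : Type) [Fintype α] [DecidableEq α] (G : Subgroup (Perm α)) (t : ℕ)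
  (B₀ A₀ : Finset α), Cex G t B₀ A₀ →
  (∀ (β : Type) [Fintype β] [DecidableEq β], Fintype.card β < Fintype.card α → Down β) →
  Triv G (t + 1)

def St_m1 : Prop := ∀ (α : Type) [Fintype α] [DecidableEq α] (G : Subgroup (Perm α)) (t : ℕ)
  (B₀ A₀ : Finset α), Cex G t B₀ A₀ → Triv G (t + 1) →
  (∀ A A' : Finset α, A.card = t → A'.card = t → Nat.card (fx G A) ≠ 1 →
    Nat.card (fx G A') ≠ 1 → A' ∈ orb G A) ∧
  (∀ A : Finset α, A.card = t → ¬ 2 ∣ Nat.card (fx G A) ∧ Nat.card (fx G A) + 1 ≤ t) ∧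
  (∃ A : Finset α, A.card = t ∧ Nat.card (fx G A) = 1)

def St_var : Prop := ∀ (α : Type) [Fintype α] [DecidableEq α] (G : Subgroup (Perm α))
  (t i T N : ℕ), HH G t → Hom G univ i → ¬ Hom G univ (i + 1) → i + 1 ≤ t →
  Fintype.card α = t + N → t + 1 ≤ N → nr G t + T = t + 1 →
  N * (nr G t * (T + 2) + 2 * T) ≤ (i + 1) * (t + N - i) * (T + 2)

def St_k1 : Prop := ∀ (α : Type) [Fintype α] [DecidableEq α] (G : Subgroup (Perm α)) (t : ℕ),
  (2 * t + 1 ≤ Fintype.card α → nr G t ≤ nr G (t + 1)) ∧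
  (∀ C : Finset α, C.card = t + 1 →
    ∑ O ∈ (powersetCard t (univ : Finset α)).image (orb G), dn G (rep O) C = t + 1) ∧
  (∀ A : Finset α, A.card = t → ∑ O ∈ (powersetCard (t + 1) (univ : Finset α)).image (orb G),
    up G A (rep O) = Fintype.card α - t) ∧
  (∀ i, HH G t → Hom G univ i → ¬ Hom G univ (i + 1) → i + 1 ≤ t → 2 * t + 1 ≤ Fintype.card α →
    (t - i) * (Fintype.card α - t - (i + 1))
      ≤ (t + 1 - nr G t) * (Fintype.card α - t - nr G (t + 1)) ∧ nr G t ≤ i + 1)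

def St_r2 : Prop := ∀ (α : Type) [Fintype α] [DecidableEq α] (G : Subgroup (Perm α)) (t i : ℕ)
  (B₀ A₀ : Finset α), Cex G t B₀ A₀ → nr G t ≤ 2 → Hom G univ i → ¬ Hom G univ (i + 1) →
  i + 1 ≤ t → i + 2 ≤ t ∧ ∃ a : ℕ, 1 ≤ a ∧ a + 1 ≤ t ∧
    (orb G A₀).card * (a * (i + 1) * (Fintype.card α - i))
      = (Fintype.card α).choose t * ((t - (i + 1)) * (Fintype.card α - t - i) * (t - a)) ∧
    ∀ n u : ℝ, n = Fintype.card α → u * (Fintype.card α).choose t = (t + 1) * (orb G A₀).card →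
      (t - i) * (n - t - (i + 1)) * u * (t + 1 - u) ≤ (t - a - u) * (u - 1) * (n - t) * (t + 1)

/-! ### Assembly -/

theorem fixity_of (hcore : St_core) (hlink : St_link) (hstep : St_step0) (hB : St_lemB)
    (he1 : St_e1) (hgA : St_genA) (hcount : St_count) (hgB : St_genB) (hzw : St_zw)
    (h2 : St_qn2) (h3 : St_qn3) (h5 : St_qn5) (hs : St_qns) (hs0 : St_s0) (hs1 : St_s1)
    (hcl : St_cl2) : St_fixity := by
  intro α _ _ G t B₀ A₀ hc ih
  have ht := hc.ht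
  have hn := hc.hn
  obtain ⟨c1, -, -, -, -⟩ := hcore α G t hc.hh (by omega) hc.nh
  -- the main case
  have main : ∀ q, q.Prime → q ∣ mm G t →
      (q ≠ 2 ∨ ∀ C : Finset α, C.card = t + 1 → ∃ a, Nat.card (fx G C) = 2 ^ a) → False := by
    intro q hq hqm hcase
    obtain ⟨β, _, _, M, ι, hl⟩ := hlink α G t q B₀ A₀ hc hq hqm
    have hcase' : q ≠ 2 ∨ ∀ A : Finset α, A.card = t → ¬ 2 ∣ ee G t A := by
      by_cases h : q = 2
      · subst h
        exact Or.inr (hcl α β G M ι t B₀ A₀ hc hl (hcase.resolve_left (by simp)))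
      · exact Or.inl h
    obtain ⟨a1, a2, a3⟩ := hstep α β G M ι t q B₀ A₀ hc hl hcase' (ih β hl.hi)
    have hnh := hl.nh hc
    have hlo := hl.lo
    have hhi := hl.hi
    -- generic case
    have gen : Triv M t → ¬ q ∣ Fintype.card β + 1 - t → False := by
      intro htr hd
      have hall : ∀ B : Finset β, B.card + 1 = t → ¬ q ∣ Nat.card (fx M B) := by
        intro B hB hq'
        apply hd
        have : Fintype.card β + 1 - t = (univ \ B).card := by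
          rw [card_sdiff_of_subset (subset_univ _), card_univ]; omega
        rw [this]
        refine dvd_card_of_orb (K := fx M B) (fun g hg x hx => ?_) fun y hy => ?_
        · refine mem_sdiff.2 ⟨mem_univ _, fun h => (mem_sdiff.1 hx).2 ?_⟩
          rwa [g.injective (hg.2 _ h)] at h
        · have := orb_fx_mul (H := M) B y
          rw [htr.card (by rw [card_insert_of_notMem (mem_sdiff.1 hy).2]; omega), mul_one] at this
          rwa [this]
      have hnf := hgA α β G M ι t q B₀ A₀ hc hl hall htr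
      exact hnh (hgB β M t ht hlo a2 htr hnf (hcount β M t (by omega) hlo htr hnf))
    obtain ⟨s, hs'⟩ : ∃ s, Fintype.card β = s + 1 + t := ⟨Fintype.card β - 1 - t, by omega⟩
    rcases Nat.lt_or_ge s 2 with h | h
    · interval_cases s
      · exact hs0 α β G M ι t q B₀ A₀ hc hl (by omega)
      · by_cases hq2 : q = 2
        · subst hq2
          refine gen (fun g hg X hX hX' => ?_) (by rw [hs']; omega)
          obtain ⟨A, hA, hA'⟩ := exists_subset_card_eq hX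
          by_contra hg1
          have e1 := (hl.dvd_ee hA').not.2 (hcase'.resolve_left (by simp) _ (by rwa [card_map]))
          have e2 : g ∈ fx M A := ⟨hg, fun x hx => hX' x (hA hx)⟩
          have e3 : g ^ 2 = 1 := by
            have e4 : g.support ⊆ Aᶜ := fun x hx => mem_compl.2 fun h =>
              Perm.mem_support.1 hx (e2.2 x h)
            have e5 := card_le_card e4
            rw [card_compl] at e5
            have e6 := Perm.two_le_card_support_of_ne_one hg1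
            have e7 := Perm.card_support_eq_two.1 (show g.support.card = 2 by omega)
            obtain ⟨x, y, -, rfl⟩ := e7
            rw [sq, swap_mul_self]
          have : Fact (Nat.Prime 2) := ⟨Nat.prime_two⟩
          apply e1
          rw [← orderOf_eq_prime e3 hg1, ← Subgroup.orderOf_mk _ e2]
          exact orderOf_dvd_natCard _
        · obtain ⟨b1, b2⟩ := hs1 α β G M ι t q B₀ A₀ hc hl (by omega) hq2 (a3 1 (by omega))
          refine gen b2 fun h => b1 ?_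
          rw [show Fintype.card β + 1 - t = 3 by omega] at h
          exact (Nat.prime_dvd_prime_iff_eq hq Nat.prime_three).1 h
    · have b1 := hB β M t s hs' h (by omega) (fun i hi => a3 i (by omega)) hnh
      have b2 := he1 β M t s hs' h (by omega) ht a1 (a3 2 (by omega)) hnh b1
      by_cases hd : q ∣ Fintype.card β + 1 - t
      · obtain ⟨k, hk⟩ := hd
        obtain ⟨k, rfl⟩ : ∃ k', k = k' + 1 := ⟨k - 1, by
          rcases k with _ | k
          · omega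
          · rfl⟩
        rw [mul_comm] at hk
        obtain ⟨z, K, p₀, hz⟩ := hzw β M t q k ⟨hq, ht, by omega, by omega, by omega, b2, hl.lemA,
          fun i hi => a3 i (by omega), hnh⟩
        by_cases hq2 : q = 2
        · subst hq2; exact h2 β M t k z K p₀ hz
        have hq3 : 3 ≤ q := by have := hq.two_le; omega
        rcases Nat.lt_or_ge k q with hkq | hkq
        · exact hs β M t q k z K p₀ hq3 hkq hz
        by_cases hq4 : q = 3
        · subst hq4; exact h3 β M t k z K p₀ hkq hz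
        · refine h5 β M t q k z K p₀ ?_ hkq hz
          have : q ≠ 4 := by rintro rfl; exact absurd hq (by decide)
          omega
      · exact gen b2 hd
  intro g hg X hX hX'
  by_contra hg1
  obtain ⟨C, hC, hC'⟩ := exists_subset_card_eq hX
  have hne : Nat.card (fx G C) ≠ 1 := by
    rw [Ne, Subgroup.card_eq_one, eq_bot_iff]
    exact fun h => hg1 (Subgroup.mem_bot.1 (h ⟨hg, fun x hx => hX' x (hC hx)⟩))
  by_cases hodd : ∃ q, q.Prime ∧ q ≠ 2 ∧ q ∣ mm G t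
  · obtain ⟨q, h1, h2, h3⟩ := hodd
    exact main q h1 h3 (Or.inl h2)
  · push Not at hodd
    have hp : ∀ D : Finset α, D.card = t + 1 → ∀ {p}, p.Prime → p ∣ Nat.card (fx G D) → p = 2 :=
      fun D hD p hp h => by
        by_contra h'
        exact hodd p hp h' (h.trans (c1 D hD))
    obtain ⟨q, h1, h2⟩ := Nat.exists_prime_and_dvd hne
    obtain rfl := hp C hC' h1 h2
    exact main 2 h1 (h2.trans (c1 C hC')) (Or.inr fun D hD =>
      ⟨_, Nat.eq_prime_pow_of_unique_prime_dvd Nat.card_pos.ne' (hp D hD)⟩)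

end Pool.Agent.H5Hom
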