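import Pool.Agent.Lib.MP_078193_al.MBlue

/-! Further statements for the case of trivial stabilisers of `(t+1)`-sets. -/

open Finset Equiv
open scoped Pointwise

namespace Pool.Agent.H5Hom

/-- a `t`-set with nontrivial pointwise stabiliser forces small degree -/
def St_eb : Prop := ∀ (α : Type) [Fintype α] [DecidableEq α] (G : Subgroup (Perm α)) (t : ℕ)
  (B₀ A₀ : Finset α), Cex G t B₀ A₀ → Triv G (t + 1) → ∀ A : Finset α, A.card = t →
  Nat.card (fx G A) ≠ 1 → 3 * Nat.card (fx G A) + 1 ≤ t ∧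
    Fintype.card α * Nat.card (fx G A) + t ≤ t * t

/-- large primes dividing the group order -/
def St_cof : Prop := ∀ (α : Type) [Fintype α] [DecidableEq α] (G : Subgroup (Perm α))
  (t p q j : ℕ), Triv G (t + 1) → p.Prime → t < p → j < p → q < p →
  Fintype.card α = q * p + j → p ∣ Nat.card G →
  j ≤ t ∧ (Hom G univ 2 → j ≤ 3 ∨ j ∣ q) ∧ (∀ i ≤ j, Hom G univ i → j.choose i ∣ q * (p - 1)) ∧
    ∀ i ≤ j, j.choose i ≤ nr G i * (q * (p - 1))

end Pool.Agent.H5Hom
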