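import Pool.Agent.Lib.MP_078193_al.MAll

/-! The induction on the degree, given the case of trivial stabilisers of `(t+1)`-sets. -/

open Finset Equiv
open scoped Pointwise

namespace Pool.Agent.H5Hom

/-- the remaining case: only the identity fixes `t + 1` points -/
def St_one : Prop := ∀ (α : Type) [Fintype α] [DecidableEq α] (G : Subgroup (Perm α)) (t : ℕ)
  (B₀ A₀ : Finset α), Cex G t B₀ A₀ →
  (∀ (β : Type) [Fintype β] [DecidableEq β], Fintype.card β < Fintype.card α → Down β) →
  Triv G (t + 1) → False

theorem down_of (h : St_one) (n : ℕ) :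
    ∀ (α : Type) [Fintype α] [DecidableEq α], Fintype.card α = n → Down α := by
  induction n using Nat.strong_induction_on with
  | _ n ih =>
    intro α _ _ hn G t ht htn hh B A hB hA
    by_contra! k
    have hc : Cex G t B A := ⟨hh, ht, htn, by omega, by omega, k⟩
    have ih' : ∀ (β : Type) [Fintype β] [DecidableEq β],
        Fintype.card β < Fintype.card α → Down β :=
      fun β _ _ hβ => ih _ (hn ▸ hβ) β rfl
    exact h α G t B A hc ih' (fixityA α G t B A hc ih')

theorem full_of (h : St_one) (n k : ℕ) (h2 : 2 ≤ k) (hn : 2 * k ≤ n)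
    (G : Subgroup (Perm (Fin n)))
    (hG : ∀ A B : Finset (Fin n), A.card = k - 1 → B.card = k → ∃ g ∈ G, A.image g ⊆ B) :
    ∀ A B : Finset (Fin n), A.card = k - 2 → B.card = k - 1 → ∃ g ∈ G, A.image g ⊆ B := by
  obtain ⟨t, rfl⟩ : ∃ t, k = t + 1 := ⟨k - 1, by omega⟩
  have hh : HH G t := fun A C hA hC => hG A C hA hC
  have : HH G (t - 1) := by
    rcases Nat.lt_or_ge t 6 with h6 | h6
    · exact small_of _ G t (by omega) (by omega) (by rw [Fintype.card_fin]; omega) hh
    · exact down_of h _ _ rfl G t h6 (by rw [Fintype.card_fin]; omega) hh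
  intro A B hA hB
  exact this A B hA (by omega)

end Pool.Agent.H5Hom
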