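import Pool.Agent.Lib.MP_078193_al.MBlue

/-! Orbit numbers on consecutive levels. -/

open Finset Equiv
open scoped Pointwise

set_option linter.unusedSectionVars false

namespace Pool.Agent.H5Hom

namespace K1

variable {α : Type} [Fintype α] [DecidableEq α] {G : Subgroup (Perm α)}

lemma orb_rep (A : Finset α) : orb G (rep (orb G A)) = orb G A := orb_eq (rep_mem A)

open Classical in
/-- extension by zero of a function on the orbits of one level -/
noncomputable def ext (G : Subgroup (Perm α)) (t : ℕ)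
    (f : ((powersetCard t (univ : Finset α)).image (orb G)) → ℝ) (A : Finset α) : ℝ :=
  if h : orb G A ∈ (powersetCard t (univ : Finset α)).image (orb G) then f ⟨_, h⟩ else 0

lemma ext_add (t : ℕ) (f g : ((powersetCard t (univ : Finset α)).image (orb G)) → ℝ)
    (A : Finset α) : ext G t (f + g) A = ext G t f A + ext G t g A := by
  unfold ext
  split_ifs <;> simp

lemma ext_smul (t : ℕ) (c : ℝ) (f : ((powersetCard t (univ : Finset α)).image (orb G)) → ℝ)
    (A : Finset α) : ext G t (c • f) A = c * ext G t f A := by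
  unfold ext
  split_ifs <;> simp

lemma ext_inv (t : ℕ) (f : ((powersetCard t (univ : Finset α)).image (orb G)) → ℝ)
    {g : Perm α} (hg : g ∈ G) (A : Finset α) : ext G t f (g • A) = ext G t f A := by
  have : orb G (g • A) = orb G A := orb_eq (mem_orb.2 ⟨g, hg, rfl⟩)
  unfold ext
  simp only [this]

/-- the up operator on orbit functions -/
noncomputable def upL (G : Subgroup (Perm α)) (t : ℕ) :
    (((powersetCard t (univ : Finset α)).image (orb G)) → ℝ) →ₗ[ℝ]
      (((powersetCard (t + 1) (univ : Finset α)).image (orb G)) → ℝ) where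
  toFun f O := ∑ x ∈ rep O.1, ext G t f ((rep O.1).erase x)
  map_add' f g := by
    funext O
    simp only [ext_add, sum_add_distrib, Pi.add_apply]
  map_smul' c f := by
    funext O
    simp only [ext_smul, ← mul_sum, Pi.smul_apply, smul_eq_mul, RingHom.id_apply]

lemma upL_inj {t : ℕ} (hn : 2 * t + 1 ≤ Fintype.card α) : Function.Injective (upL G t) := by
  rw [injective_iff_map_eq_zero]
  intro f hf
  have key := up_inj (Ω := (univ : Finset α)) (j := t) (by rwa [card_univ]) (ext G t f) (by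
    intro C hC
    have h1 := congrFun hf ⟨orb G C, mem_image_of_mem _ hC⟩
    obtain ⟨g, hg, hg'⟩ := mem_orb.1 (rep_mem (H := G) C)
    change ∑ x ∈ rep (orb G C), ext G t f ((rep (orb G C)).erase x) = 0 at h1
    rw [← hg', sum_erase_smul _ (ext_inv t f hg)] at h1
    exact h1)
  funext O
  obtain ⟨O, hO⟩ := O
  obtain ⟨A, hA, rfl⟩ := mem_image.1 hO
  have := key A hA
  unfold ext at this
  rw [dif_pos hO] at this
  exact this

theorem nr_mono {t : ℕ} (hn : 2 * t + 1 ≤ Fintype.card α) : nr G t ≤ nr G (t + 1) := by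
  have := LinearMap.finrank_le_finrank_of_injective (upL_inj (G := G) hn)
  rwa [Module.finrank_fintype_fun_eq_card, Module.finrank_fintype_fun_eq_card, Fintype.card_coe,
    Fintype.card_coe] at this

theorem sum_dn_rep {t : ℕ} {C : Finset α} (hC : C.card = t + 1) :
    ∑ O ∈ (powersetCard t (univ : Finset α)).image (orb G), dn G (rep O) C = t + 1 := by
  have h1 := card_eq_sum_card_fiberwise (f := orb G) (s := powersetCard t C)
    (t := (powersetCard t (univ : Finset α)).image (orb G)) (fun B hB =>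
      mem_coe.2 (mem_image_of_mem _ (mem_lev.2 (mem_powersetCard.1 hB).2)))
  rw [card_powersetCard, hC, Nat.choose_succ_self_right] at h1
  rw [h1]
  refine sum_congr rfl fun O hO => ?_
  obtain ⟨A, hA, rfl⟩ := mem_image.1 hO
  rw [dn, orb_rep]
  congr 1
  ext B
  simp only [mem_filter, mem_powersetCard, orb_eq_iff]
  exact ⟨fun h => ⟨⟨h.2, (card_of_mem_orb h.1).trans (mem_lev.1 hA)⟩, h.1⟩, fun h => ⟨h.2, h.1.1⟩⟩

theorem sum_up_rep {t : ℕ} {A : Finset α} (hA : A.card = t) :
    ∑ O ∈ (powersetCard (t + 1) (univ : Finset α)).image (orb G), up G A (rep O)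
      = Fintype.card α - t := by
  have h1 := card_eq_sum_card_fiberwise (f := orb G)
    (s := (powersetCard (t + 1) (univ : Finset α)).filter (A ⊆ ·))
    (t := (powersetCard (t + 1) (univ : Finset α)).image (orb G)) (fun B hB =>
      mem_coe.2 (mem_image_of_mem _ (mem_filter.1 hB).1))
  rw [card_sup A (by omega), hA, Nat.add_sub_cancel_left, Nat.choose_one_right] at h1
  rw [h1]
  refine sum_congr rfl fun O hO => ?_
  obtain ⟨C, hC, rfl⟩ := mem_image.1 hO
  rw [up, orb_rep]
  congr 1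
  ext B
  simp only [mem_filter, mem_lev, orb_eq_iff]
  exact ⟨fun h => ⟨⟨(card_of_mem_orb h.1).trans (mem_lev.1 hC), h.2⟩, h.1⟩, fun h => ⟨h.2, h.1.2⟩⟩

lemma image_ins {t : ℕ} (h : HH G t) {A : Finset α} (hA : A.card = t) :
    (univ \ A).image (fun y => orb G (insert y A))
      = (powersetCard (t + 1) (univ : Finset α)).image (orb G) := by
  ext O
  simp only [mem_image, mem_lev]
  constructor
  · rintro ⟨y, hy, rfl⟩
    exact ⟨_, by rw [card_insert_of_notMem (mem_sdiff.1 hy).2, hA], rfl⟩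
  · rintro ⟨C, hC, rfl⟩
    obtain ⟨x, hx, hx'⟩ := h.erase hA hC
    obtain ⟨g, hg, hg'⟩ := mem_orb.1 hx'
    refine ⟨g⁻¹ x, mem_sdiff.2 ⟨mem_univ _, fun h1 => ?_⟩, ?_⟩
    · have h2 : x ∈ g • A := mem_smul.2 h1
      rw [hg'] at h2
      exact notMem_erase _ _ h2
    · refine (orb_eq (mem_orb.2 ⟨g, hg, ?_⟩)).symm
      rw [smul_insert, hg', ap_inv, insert_erase hx]

theorem osc {i t : ℕ} {f : Finset α → ℝ} (hd : Dat G i f) (h : HH G t) (hit : i + 1 ≤ t)
    (hn : 2 * t + 1 ≤ Fintype.card α) :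
    (t - i) * (Fintype.card α - t - (i + 1))
      ≤ (t + 1 - nr G t) * (Fintype.card α - t - nr G (t + 1)) := by
  set F := lift (i + 1) f with hF
  obtain ⟨A₁, A₂, h1, h2, h3⟩ := hd.nc_level hit (by omega)
  obtain ⟨P, hP, hP'⟩ := exists_max_image (powersetCard t univ) F ⟨A₁, mem_lev.2 h1⟩
  obtain ⟨Q, hQ, hQ'⟩ := exists_min_image (powersetCard t univ) F ⟨A₁, mem_lev.2 h1⟩
  obtain ⟨C₀, -, hC₀⟩ := exists_subset_card_eq (s := (univ : Finset α)) (n := t + 1)
    (by rw [card_univ]; omega)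
  obtain ⟨P', hP1, hP1'⟩ := exists_max_image (powersetCard (t + 1) univ) F ⟨C₀, mem_lev.2 hC₀⟩
  obtain ⟨Q', hQ1, hQ1'⟩ := exists_min_image (powersetCard (t + 1) univ) F ⟨C₀, mem_lev.2 hC₀⟩
  simp only [mem_lev] at hP hP' hQ hQ' hP1 hP1' hQ1 hQ1'
  have hlt : F Q < F P := by
    have := hP' A₁ h1; have := hP' A₂ h2; have := hQ' A₁ h1; have := hQ' A₂ h2
    by_contra hc
    exact h3 (by linarith)
  have hrep : ∀ A, F (rep (orb G A)) = F A := fun A => hd.lift_orb (rep_mem A)
  have hr1 : nr G t ≤ t + 1 := by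
    rw [nr, ← h.image hC₀, ← hC₀]
    exact card_image_le
  have hcP : (univ \ P).card = Fintype.card α - t := by
    rw [card_sdiff_of_subset (subset_univ _), card_univ, hP]
  have hcQ : (univ \ Q).card = Fintype.card α - t := by
    rw [card_sdiff_of_subset (subset_univ _), card_univ, hQ]
  have hr2 : nr G (t + 1) ≤ Fintype.card α - t := by
    rw [nr, ← image_ins h hP, ← hcP]
    exact card_image_le
  have e1 := sum_image_le_of_nonneg (s := P') (g := fun x => orb G (P'.erase x))
    (f := fun O => F P - F (rep O)) (by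
      intro O hO
      obtain ⟨x, hx, rfl⟩ := mem_image.1 hO
      rw [hrep, sub_nonneg]
      exact hP' _ (by rw [card_erase_of_mem hx]; omega))
  have e2 := sum_image_le_of_nonneg (s := Q') (g := fun x => orb G (Q'.erase x))
    (f := fun O => F (rep O) - F Q) (by
      intro O hO
      obtain ⟨x, hx, rfl⟩ := mem_image.1 hO
      rw [hrep, sub_nonneg]
      exact hQ' _ (by rw [card_erase_of_mem hx]; omega))
  have e5 := sum_image_le_of_nonneg (s := univ \ P) (g := fun y => orb G (insert y P))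
    (f := fun O => F P' - F (rep O)) (by
      intro O hO
      obtain ⟨y, hy, rfl⟩ := mem_image.1 hO
      rw [hrep, sub_nonneg]
      exact hP1' _ (by rw [card_insert_of_notMem (mem_sdiff.1 hy).2, hP]))
  have e6 := sum_image_le_of_nonneg (s := univ \ Q) (g := fun y => orb G (insert y Q))
    (f := fun O => F (rep O) - F Q') (by
      intro O hO
      obtain ⟨y, hy, rfl⟩ := mem_image.1 hO
      rw [hrep, sub_nonneg]
      exact hQ1' _ (by rw [card_insert_of_notMem (mem_sdiff.1 hy).2, hQ]))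
  rw [h.image hP1] at e1
  rw [h.image hQ1] at e2
  rw [image_ins h hP] at e5
  rw [image_ins h hQ] at e6
  simp only [hrep, sum_sub_distrib, sum_const, nsmul_eq_mul, hP1, hQ1, hcP, hcQ] at e1 e2 e5 e6
  rw [hF, lift_up, ← hF, hP1] at e1
  rw [hF, lift_up, ← hF, hQ1] at e2
  have e3 := lift_down hd.harm P
  have e4 := lift_down hd.harm Q
  rw [← hF] at e3 e4
  rw [e3, hP] at e5
  rw [e4, hQ] at e6
  change ((nr G t : ℕ) : ℝ) * F P - _ ≤ _ at e1
  change _ - ((nr G t : ℕ) : ℝ) * F Q ≤ _ at e2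
  change ((nr G (t + 1) : ℕ) : ℝ) * F P' - _ ≤ _ at e5
  change _ - ((nr G (t + 1) : ℕ) : ℝ) * F Q' ≤ _ at e6
  have c1 : t ≤ Fintype.card α := by omega
  have c2 : i ≤ t := by omega
  have c3 : i + 1 ≤ Fintype.card α - t := by omega
  have hr2' : ((nr G (t + 1) : ℕ) : ℝ) ≤ (Fintype.card α : ℝ) - t := by
    rw [← Nat.cast_sub c1]; exact_mod_cast hr2
  have hit' : (i : ℝ) + 1 ≤ t := by exact_mod_cast hit
  rw [← Nat.cast_le (α := ℝ)]
  push_cast [Nat.cast_sub c1, Nat.cast_sub c2, Nat.cast_sub c3, Nat.cast_sub hr1,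
    Nat.cast_sub hr2] at e1 e2 e5 e6 ⊢
  set r : ℝ := (nr G t : ℝ)
  set s : ℝ := (nr G (t + 1) : ℝ)
  set n : ℝ := (Fintype.card α : ℝ)
  have e7 : (t - i) * (F P' - F Q') ≤ (t + 1 - r) * (F P - F Q) := by linarith
  have e8 : (n - t - (i + 1)) * (F P - F Q) ≤ (n - t - s) * (F P' - F Q') := by linarith
  refine le_of_mul_le_mul_right ?_ (sub_pos.2 hlt)
  have h4 := mul_le_mul_of_nonneg_left e8 (show (0 : ℝ) ≤ t - i by linarith)
  have h5 := mul_le_mul_of_nonneg_left e7 (show (0 : ℝ) ≤ n - t - s by linarith)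
  linarith

end K1

theorem k1_of : St_k1 := by
  intro α _ _ G t
  refine ⟨K1.nr_mono, fun C hC => K1.sum_dn_rep hC, fun A hA => K1.sum_up_rep hA, ?_⟩
  intro i h h0 h1 hit hn
  obtain ⟨f, hd⟩ := exists_dat h0 h1
  have e := K1.osc hd h hit hn
  refine ⟨e, ?_⟩
  have e' := K1.nr_mono (G := G) hn
  by_contra hc
  have a1 : t + 1 - nr G t < t - i := by omega
  have a2 : Fintype.card α - t - nr G (t + 1) < Fintype.card α - t - (i + 1) := by omega
  exact absurd e (not_le.2 (Nat.mul_lt_mul'' a1 a2))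

end Pool.Agent.H5Hom
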