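import Pool.Agent.Lib.MP_078193_al.Check

/-! No family of `(t-1)`-sets shows the same degree set, containing zero, on all `(t+1)`-sets. -/

namespace Pool.Agent.Lib.MP_078193_al

set_option linter.unusedSectionVars false

open Finset

variable {α : Type*} [Fintype α] [DecidableEq α]

/-- number of members of `O` just below `C` -/
def cnt (O : Finset (Finset α)) (C : Finset α) : ℕ := (C.filter fun w => C.erase w ∈ O).card

theorem up_ind (O : Finset (Finset α)) (b c : ℚ) (C : Finset α) :
    up (fun A => if A ∈ O then b - c else -c) C = b * cnt O C - C.card * c ∧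
    ∑ v ∈ C, (if C.erase v ∈ O then b - c else -c) ^ 2 =
      cnt O C * (b - c) ^ 2 + (C.card - cnt O C) * c ^ 2 := by
  have := card_filter_add_card_filter_not (s := C) fun w => C.erase w ∈ O
  simp only [up, cnt, ite_pow, sum_ite, sum_const, nsmul_eq_mul, ← this]
  push_cast
  constructor <;> ring

theorem ok_of (O : Finset (Finset α)) {t : ℕ} (h2 : 2 ≤ t) (h5 : t ≤ 5) {D : Finset α}
    (hD : D.card = t + 1) {x : α} (hx : x ∈ D) (h0 : cnt O (D.erase x) = 0) :
    ∃ l : List α, l.Nodup ∧ l.toFinset = D ∧ ok t (l.map fun v => cnt O (D.erase v)) := by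
  refine ⟨x :: (D.erase x).toList, by simp [nodup_toList], by simp [hx], ?_⟩
  have := ok_dg h2 h5 fun i j =>
    decide ((D.erase ((D.erase x).toList.getD i x)).erase ((D.erase x).toList.getD j x) ∈ O)
  have e : (D.erase x).toList.length = t := by rw [length_toList, card_erase_of_mem hx, hD]; rfl
  rw [← e, dg_eq (nodup_toList _) (R := fun v w => (D.erase v).erase w ∈ O)
    (fun v w h => erase_right_comm (s := D) ▸ h), e] at this
  rw [List.map_cons, h0]
  convert this using 2
  refine List.map_congr_left fun v hv => ?_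
  rw [cnt, List.countP_eq_length_filter, ← List.toFinset_card_of_nodup ((nodup_toList _).filter _)]
  rw [cnt, card_eq_zero, filter_eq_empty_iff] at h0
  have := h0 (mem_toList.1 hv)
  congr 1; ext w
  by_cases k : w = x
  · subst k; simp [erase_right_comm (a := v), this]
  · simp; tauto

theorem no_family (O : Finset (Finset α)) {t : ℕ} (h2 : 2 ≤ t) (h5 : t ≤ 5)
    (hn : 2 * t + 2 ≤ Fintype.card α)
    (h : ∀ C D : Finset α, C.card = t → D.card = t + 1 → ∃ v ∈ D, cnt O (D.erase v) = cnt O C)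
    {C0 C1 : Finset α} (a0 : C0.card = t) (a1 : C1.card = t) (b0 : cnt O C0 = 0)
    (b1 : cnt O C1 ≠ 0) : False := by
  obtain ⟨D0, -, hD0⟩ := exists_subset_card_eq (s := (univ : Finset α)) (n := t + 1)
    (by rw [card_univ]; omega)
  choose! l l1 l2 l3 using fun (D : Finset α) (hD : D.card = t + 1) =>
    (h C0 D a0 hD).elim fun x hx => ok_of O h2 h5 hD hx.1 (hx.2.trans b0)
  set d := fun D : Finset α => (l D).map fun v => cnt O (D.erase v) with hd
  have mem : ∀ D, D.card = t + 1 → ∀ s, s ∈ d D ↔ ∃ C : Finset α, C.card = t ∧ cnt O C = s := by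
    intro D hD s
    simp only [hd, List.mem_map]
    simp only [← List.mem_toFinset, l2 D hD]
    exact ⟨fun ⟨v, c, e⟩ => ⟨_, by rw [card_erase_of_mem c, hD]; rfl, e⟩,
      fun ⟨C, c, e⟩ => e ▸ h C D c hD⟩
  have hk : ∀ D, D.card = t + 1 → key (d D) = key (d D0) := fun D hD => by
    simp only [key, mem D hD, mem D0 hD0]
  have k1 : key (d D0) ≠ 1 := by
    have c0 := (mem D0 hD0 _).2 ⟨C0, a0, b0⟩
    have c1 := (mem D0 hD0 _).2 ⟨C1, a1, rfl⟩
    have : cnt O C1 ≤ t := a1 ▸ card_filter_le _ _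
    generalize cnt O C1 = s at *
    have : s ≤ 5 := by omega
    simp only [key, List.range_succ, List.range_zero, List.map, List.nil_append, List.cons_append,
      List.sum_cons, List.sum_nil, c0, if_true]
    have : 0 < s := by omega
    interval_cases s <;> simp only [c1, if_true] <;> omega
  have hok : ∀ D, D.card = t + 1 → if t = 5 ∧ key (d D0) = 7 then ok2 (d D) else
      ok1 t (cert t (key (d D0))) (d D) := fun D hD => by
    rcases l3 D hD with k | k
    · exact (k1 (hk D hD ▸ k)).elim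
    · rwa [← hk D hD]
  have hs : ∀ D : Finset α, D.card = t + 1 → ∀ φ : ℕ → ℤ, ((((d D).map φ).sum : ℤ) : ℚ) =
      ∑ v ∈ D, (φ (cnt O (D.erase v)) : ℚ) := fun D hD φ => by
    rw [hd, List.map_map, ← List.sum_toFinset _ (l1 D hD), l2 D hD]; simp
  have hne : (L α (t + 1)).Nonempty := ⟨D0, mem_powersetCard_univ.2 hD0⟩
  have hn' : (2 * t + 2 : ℚ) ≤ Fintype.card α := by exact_mod_cast hn
  by_cases e : t = 5 ∧ key (d D0) = 7
  · simp only [if_pos e] at hok
    obtain ⟨rfl, -⟩ := e
    set n : ℚ := (Fintype.card α : ℚ) with hq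
    let g : Finset α → ℚ := fun C => cnt O C - 1
    let w : Finset α → ℚ := fun A => if A ∈ O then 6 - 1 else -1
    have e1 := norm_up 4 g
    have e2 := adj 4 w g
    have e3 := sum_erase_sq 4 w
    have e4 : 0 ≤ ∑ A ∈ L α 4, (8 * dn g A - (n - 4) * w A) ^ 2 := by positivity
    have e5 : ∑ A ∈ L α 4, (8 * dn g A - (n - 4) * w A) ^ 2 = 64 * ∑ A ∈ L α 4, dn g A ^ 2 -
        16 * (n - 4) * ∑ A ∈ L α 4, w A * dn g A + (n - 4) ^ 2 * ∑ A ∈ L α 4, w A ^ 2 := by
      simp only [mul_sum, ← sum_add_distrib, ← sum_sub_distrib]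
      exact sum_congr rfl fun A _ => by ring
    have e6 : ∑ C ∈ L α 5, (rr (cnt O C) : ℚ) = 16 * ∑ C ∈ L α 5, up w C * g C -
        ∑ C ∈ L α 5, ∑ v ∈ C, w (C.erase v) ^ 2 := by
      simp only [mul_sum, ← sum_sub_distrib]
      refine sum_congr rfl fun C hC => ?_
      rw [(up_ind O 6 1 C).1, (up_ind O 6 1 C).2, mem_powersetCard_univ.1 hC, rr]
      push_cast; ring
    have e7 := flag 5 fun C _ => 64 * (n - 10) * g C ^ 2 + (n - 4) * (rr (cnt O C) : ℚ)
    have e8 : ∑ D ∈ L α 6, 64 * (n - 5) * up g D ^ 2 < ∑ D ∈ L α 6, ∑ v ∈ D,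
        (64 * (n - 10) * g (D.erase v) ^ 2 + (n - 4) * (rr (cnt O (D.erase v)) : ℚ)) := by
      refine sum_lt_sum_of_nonempty hne fun D hD => ?_
      rw [mem_powersetCard_univ] at hD
      obtain ⟨k, k'⟩ := hok D hD
      rw [← Int.cast_lt (R := ℚ)] at k
      rw [← Int.cast_le (R := ℚ)] at k'
      push_cast [-Int.cast_list_sum, hs D hD] at k k'
      simp only [sum_add_distrib, ← mul_sum] at k k' ⊢
      have := mul_le_mul_of_nonneg_left k' (show 0 ≤ n - 12 by push_cast at hn'; linarith)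
      rw [up]; linarith
    have e9 : ∀ F : Finset α → ℚ, ∑ C ∈ L α 5, ∑ _x ∈ Cᶜ, F C = (n - 5) * ∑ C ∈ L α 5, F C :=
      fun F => by
        rw [mul_sum]
        refine sum_congr rfl fun C hC => ?_
        rw [sum_const, card_compl, nsmul_eq_mul, mem_powersetCard_univ.1 hC,
          Nat.cast_sub (by omega)]; rfl
    rw [e7, ← mul_sum, e1, e9, sum_add_distrib, ← mul_sum, ← mul_sum, e6, e2, e3, ← hq] at e8
    rw [e5] at e4
    push_cast at *
    nlinarith [mul_nonneg e4 (show 0 ≤ n - 5 by linarith)]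
  · simp only [if_neg e] at hok
    obtain ⟨s, rfl⟩ : ∃ s, t = s + 2 := ⟨t - 2, by omega⟩
    generalize cert (s + 2) (key (d D0)) = c at hok
    let w : Finset α → ℚ := fun A => if A ∈ O then c.1 - c.2 / (s + 2) else -(c.2 / (s + 2))
    have e1 := norm_up_up s w (by omega)
    have e2 := sum_erase_sq (s + 2) (up w)
    have e3 : ∑ D ∈ L α (s + 3), (s + 4) * up (up w) D ^ 2 <
        ∑ D ∈ L α (s + 3), 6 * ∑ v ∈ D, up w (D.erase v) ^ 2 := by
      refine sum_lt_sum_of_nonempty hne fun D hD => ?_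
      rw [mem_powersetCard_univ] at hD
      have k := hok D hD
      have e : ∀ v ∈ D, up w (D.erase v) = c.1 * cnt O (D.erase v) - c.2 := fun v hv => by
        rw [(up_ind O _ _ _).1, card_erase_of_mem hv, hD]; push_cast; field_simp
      rw [ok1, ← Int.cast_lt (R := ℚ)] at k
      push_cast [-Int.cast_list_sum, hs D hD] at k
      rw [up, sum_congr rfl e, sum_congr rfl fun v hv => congrArg (· ^ 2) (e v hv)]
      linarith
    rw [← mul_sum, ← mul_sum, e2] at e3
    have : 0 ≤ ∑ C ∈ L α (s + 2), up w C ^ 2 := by positivity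
    push_cast at *
    nlinarith [mul_le_mul_of_nonneg_left e1 (show (0 : ℚ) ≤ s + 4 by positivity),
      mul_nonneg this (mul_nonneg (show (0 : ℚ) ≤ s + 1 by positivity) (sub_nonneg.2 hn'))]

end Pool.Agent.Lib.MP_078193_al
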