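import Pool.Agent.Lib.MP_078193_al.MBlue
import Pool.Agent.Lib.MP_078193_al.Main

/-! Downward inheritance of homogeneity for small sizes, on a general finite type. -/

open Finset Equiv
open scoped Pointwise

namespace Pool.Agent.H5Hom

open Pool.Agent.Lib.MP_078193_al

theorem small_of : St_small := by
  classical
  intro α _ _ G t h1 h5 hn h A B hA hB
  by_cases e : t = 1
  · exact ⟨1, one_mem _, by simp [card_eq_zero.1 (show A.card = 0 by omega)]⟩
  simp only [HH, smul_eq_image] at h ⊢
  by_contra! k
  let O : Finset (Finset α) := univ.filter fun X => ∃ g ∈ G, A.image g = X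
  have inv : ∀ g ∈ G, ∀ C, cnt O (C.image g) = cnt O C := fun g hg C => by
    rw [cnt, cnt, filter_image, card_image_of_injective _ g.injective]
    congr 1; ext w
    simp only [O, mem_filter, mem_univ, true_and, ← image_erase g.injective]
    refine and_congr_right fun _ => ⟨fun ⟨x, a, b⟩ => ⟨g⁻¹ * x, mul_mem (inv_mem hg) a, ?_⟩,
      fun ⟨x, a, b⟩ => ⟨g * x, mul_mem hg a, ?_⟩⟩
    · rw [Equiv.Perm.coe_mul, ← image_image, b, image_image]; simp
    · rw [Equiv.Perm.coe_mul, ← image_image, b]
  obtain ⟨x, hx⟩ : ∃ x, x ∉ A := by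
    by_contra! k
    have := card_le_card (show univ ⊆ A from fun x _ => k x)
    rw [card_univ] at this; omega
  refine no_family O (t := t) (by omega) (by omega) (by omega) (fun C D hC hD => ?_)
    (show B.card = t by omega)
    (C1 := insert x A) (by rw [card_insert_of_notMem hx]; omega) ?_ ?_
  · obtain ⟨g, a, b⟩ := h C D hC hD
    obtain ⟨v, c, rfl⟩ := exists_eq_insert_iff.2
      ⟨b, by rw [card_image_of_injective _ g.injective, hC, hD]⟩
    exact ⟨v, mem_insert_self _ _, by rw [erase_insert c, inv g a]⟩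
  · rw [cnt, card_eq_zero, filter_eq_empty_iff]
    intro w _ hw
    obtain ⟨g, a, b⟩ := (mem_filter.1 hw).2
    exact k g a (b ▸ erase_subset _ _)
  · exact card_ne_zero.2 ⟨x, mem_filter.2 ⟨mem_insert_self _ _, mem_filter.2
      ⟨mem_univ _, 1, one_mem _, by simp [hx]⟩⟩⟩

end Pool.Agent.H5Hom
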