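import Pool.Agent.Lib.MP_078193_al.NBlue

/-! The order bound when the group is `τ`-transitive but not `(τ+1)`-homogeneous. -/

open Finset Equiv
open scoped Pointwise Nat

set_option linter.unusedSectionVars false

namespace Pool.Agent.H5Hom

namespace B0

variable {α : Type} [Fintype α] [DecidableEq α] {G : Subgroup (Perm α)}

lemma not_mem_of_fix {S : Finset α} {k : Perm α} (hk : ∀ x ∈ S, k x = x) {y : α} (hy : y ∉ S) :
    k y ∉ S := fun h => hy (by rwa [← k.injective (hk _ h)])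

lemma smul_of_fix {S : Finset α} {k : Perm α} (hk : ∀ x ∈ S, k x = x) : k • S = S := by
  rw [smul_eq_image, image_congr (g := id) (fun y hy => hk y hy), image_id]

lemma hom_of_tr {H : Subgroup (Perm α)} {J : Finset α} {τ : ℕ} (hi : Inv H J) (h : Tr H J τ)
    (hJ : J.card ≤ 2 * τ + 1) : Hom H J (τ + 1) := by
  intro A hA B hB hA' hB'
  have hjΩ : τ + 1 ≤ J.card := hA' ▸ card_le_card hA
  obtain ⟨g, hg, hg'⟩ := h.hom (j := J.card - (τ + 1)) (by omega) (J \ A) sdiff_subset
    (J \ B) sdiff_subset (by rw [card_sdiff_of_subset hA, hA'])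
    (by rw [card_sdiff_of_subset hB, hB'])
  refine ⟨g, hg, ?_⟩
  rw [smul_finset_sdiff, hi.smul_eq hg] at hg'
  have := congrArg (J \ ·) hg'
  simpa [Finset.sdiff_sdiff_eq_self, hi.smul_subset hg hA, hB] using this

lemma split {S : Finset α} (hτ : Tr G univ S.card) (hnh : ¬ Hom G univ (S.card + 1)) :
    ∃ Y Y' : Finset α, Y.Nonempty ∧ Y'.Nonempty ∧ Y.card + Y'.card = Fintype.card α - S.card ∧
      Inv (fx G S) Y ∧ Inv (fx G S) Y' ∧ (∀ y ∈ Y, y ∉ S) ∧ (∀ y ∈ Y', y ∉ S) ∧
      ∀ y ∈ Y, ∀ y' ∈ Y', insert y' S ∉ orb G (insert y S) := by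
  classical
  have key : ∀ A : Finset α, A.card = S.card + 1 → ∃ x ∉ S, insert x S ∈ orb G A := by
    intro A hA
    obtain ⟨a, ha⟩ : A.Nonempty := card_pos.1 (by omega)
    obtain ⟨g, hg, hg'⟩ := hτ.hom le_rfl (A.erase a) (subset_univ _) S (subset_univ _)
      (by rw [card_erase_of_mem ha]; omega) rfl
    refine ⟨g a, ?_, mem_orb.2 ⟨g, hg, ?_⟩⟩
    · rw [← hg', apply_mem_smul]
      exact notMem_erase a A
    · rw [← hg', ← smul_insert, insert_erase ha]
  have hex : ∃ A B : Finset α, A.card = S.card + 1 ∧ B.card = S.card + 1 ∧ B ∉ orb G A := by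
    by_contra hc
    push Not at hc
    exact hnh fun A _ B _ hA hB => mem_orb.1 (hc A B hA hB)
  obtain ⟨A, B, hA, hB, hAB⟩ := hex
  obtain ⟨x, hx, hx'⟩ := key A hA
  obtain ⟨z, hz, hz'⟩ := key B hB
  have hsm : ∀ k ∈ fx G S, ∀ y, insert (k y) S ∈ orb G A ↔ insert y S ∈ orb G A := by
    intro k hk y
    rw [← smul_mem_orb (y := insert y S) hk.1, smul_insert, smul_of_fix hk.2]
  refine ⟨(univ \ S).filter (fun y => insert y S ∈ orb G A),
    (univ \ S).filter (fun y => ¬ insert y S ∈ orb G A), ⟨x, by simp [hx, hx']⟩,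
    ⟨z, ?_⟩, ?_, ?_, ?_, ?_, ?_, ?_⟩
  · simp only [mem_filter, mem_sdiff, mem_univ, true_and]
    exact ⟨hz, fun h => hAB (orb_trans h (orb_symm hz'))⟩
  · rw [card_filter_add_card_filter_not, card_sdiff_of_subset (subset_univ _), card_univ]
  · intro k hk y hy
    simp only [mem_filter, mem_sdiff, mem_univ, true_and] at hy ⊢
    exact ⟨not_mem_of_fix hk.2 hy.1, (hsm k hk y).2 hy.2⟩
  · intro k hk y hy
    simp only [mem_filter, mem_sdiff, mem_univ, true_and] at hy ⊢
    exact ⟨not_mem_of_fix hk.2 hy.1, fun h => hy.2 ((hsm k hk y).1 h)⟩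
  · intro y hy
    exact (mem_sdiff.1 (mem_filter.1 hy).1).2
  · intro y hy
    exact (mem_sdiff.1 (mem_filter.1 hy).1).2
  · intro y hy y' hy' h
    exact (mem_filter.1 hy').2 (orb_trans (mem_filter.1 hy).2 h)

end B0

theorem b0_of (hcan : St_can) (hgiant : St_giant) (hstep : St_step) (hsize : St_size) :
    St_b0 := by
  classical
  intro α _ _ G t τ htr hτ hnh hτt hn hle
  obtain ⟨S, -, hS⟩ := exists_subset_card_eq (s := (univ : Finset α)) (n := τ)
    (by rw [card_univ]; omega)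
  subst hS
  obtain ⟨Y, Y', hY, hY', hc, hi, hi', hs, hs', hsep⟩ := B0.split hτ hnh
  set n := Fintype.card α with hn'
  set Bad := (Ico (2 * S.card + 2) t).filter (fun j => ¬ GiP j S.card (S.card + 1) (nr G t))
    with hBad
  have hdvd : Nat.card (fx G S) ∣ (t - S.card - 1)! * Nat.lcmUpto (t - S.card - 1)
      * (Y.card * Y'.card * ∏ j ∈ Bad, (n - j)) := by
    rw [Nat.dvd_iff_prime_pow_dvd_dvd]
    intro p k hp hk
    have h1 : p ^ k ∣ p ^ (Nat.card (fx G S)).factorization p :=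
      pow_dvd_pow p ((hp.pow_dvd_iff_le_factorization Nat.card_pos.ne').1 hk)
    refine h1.trans ?_
    rcases hcan α G S t p hp htr hτ hτt (by omega) with h | ⟨J, h, Q, a1, a2, a3, a4, a5, a6⟩
    · exact h.mul_right _
    refine a4.trans ?_
    rw [mul_assoc]
    refine Nat.mul_dvd_mul_left _ (Dvd.dvd.mul_left ?_ _)
    by_cases hb : J.card ∈ Bad
    · refine Dvd.dvd.mul_left (Dvd.dvd.trans ?_ (dvd_prod_of_mem _ hb)) _
      have := dvd_card_of_orb (K := Q) (Y := univ \ J) (D := h)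
        (fun k hk y hy => mem_sdiff.2 ⟨mem_univ _,
          B0.not_mem_of_fix (a3 hk).2 (mem_sdiff.1 hy).2⟩)
        (fun y hy => a5 y (mem_sdiff.1 hy).2)
      rwa [card_sdiff_of_subset (subset_univ _), card_univ] at this
    have hH : Hom (st G J) J (S.card + 1) := by
      by_cases h2 : J.card ≤ 2 * S.card + 1
      · exact B0.hom_of_tr (inv_st J) ((hstep α G _ hτ).2.1 J a6).1 h2
      · have hg : GiP J.card S.card (S.card + 1) (nr G t) := by
          by_contra h3
          exact hb (mem_filter.2 ⟨mem_Ico.2 ⟨by omega, a2⟩, h3⟩)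
        have h5 := hg.2.1
        exact (hgiant α G J _ _ _ a6 hτ (fun i hi => hτ.hom (by omega))
          (fun i hi => hle i (by omega)) hg).hom (inv_st J) (by omega) _
    have hQ : Q ≤ fx G S := a3.trans (fx_anti a1)
    refine Dvd.dvd.mul_right ?_ _
    by_cases h2 : ∃ y ∈ Y, y ∈ J
    · obtain ⟨y, hy, hyJ⟩ := h2
      refine Dvd.dvd.mul_left (dvd_card_of_orb (hi'.mono hQ) fun z hz => a5 z fun hzJ => ?_) _
      obtain ⟨g, hg, hg'⟩ := hH (insert y S) (insert_subset hyJ a1) (insert z S)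
        (insert_subset hzJ a1) (card_insert_of_notMem (hs y hy))
        (card_insert_of_notMem (hs' z hz))
      exact hsep y hy z hz (mem_orb.2 ⟨g, (mem_st.1 hg).1, hg'⟩)
    · exact Dvd.dvd.mul_right
        (dvd_card_of_orb (hi.mono hQ) fun z hz => a5 z fun hzJ => h2 ⟨z, hz, hzJ⟩) _
  have hBt : ∀ j ∈ Bad, S.card ≤ j ∧ j < t := fun j hj => by
    have := mem_Ico.1 (mem_filter.1 hj).1
    omega
  have hK := Nat.le_of_dvd (Nat.mul_pos (Nat.mul_pos (Nat.factorial_pos _) (Nat.lcmUpto_pos _))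
    (Nat.mul_pos (Nat.mul_pos hY.card_pos hY'.card_pos)
      (prod_pos fun j hj => by have := hBt j hj; omega))) hdvd
  have hP : ∏ j ∈ Bad, (n - j) ≤ (n - S.card) ^ Bad.card :=
    prod_le_pow_card _ _ _ fun j hj => by have := hBt j hj; omega
  have hYY : 4 * (Y.card * Y'.card) ≤ (n - S.card) ^ 2 := by
    rw [← hc]
    nlinarith [sq_nonneg ((Y.card : ℤ) - Y'.card)]
  have h1 := hτ.card_fx inv_univ S (subset_univ _) le_rfl
  rw [card_univ, ← hn'] at h1
  have h2 := (hsize α G t).1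
  rw [← hn'] at h2
  have h3 : (n - S.card).descFactorial (t - S.card) ≤ nr G t * t ! * Nat.card (fx G S) := by
    refine Nat.le_of_mul_le_mul_right (c := n.descFactorial S.card) ?_
      (Nat.descFactorial_pos.2 (by omega))
    rw [Nat.descFactorial_mul_descFactorial (by omega), Nat.descFactorial_eq_factorial_mul_choose]
    calc t ! * n.choose t ≤ t ! * (nr G t * Nat.card G) := Nat.mul_le_mul_left _ h2
      _ = _ := by rw [← h1]; ring
  calc 4 * (n - S.card).descFactorial (t - S.card)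
      ≤ 4 * (nr G t * t ! * ((t - S.card - 1)! * Nat.lcmUpto (t - S.card - 1)
        * (Y.card * Y'.card * ∏ j ∈ Bad, (n - j)))) :=
        Nat.mul_le_mul_left _ (h3.trans (Nat.mul_le_mul_left _ hK))
    _ = nr G t * t ! * (t - S.card - 1)! * Nat.lcmUpto (t - S.card - 1)
        * (4 * (Y.card * Y'.card) * ∏ j ∈ Bad, (n - j)) := by ring
    _ ≤ _ := by
        rw [pow_add]
        exact Nat.mul_le_mul_left _ (Nat.mul_le_mul hYY hP)

end Pool.Agent.H5Hom
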