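import Pool.Agent.Lib.MP_078193_al.NBlue

/-! The canonical set of a Sylow subgroup of a point stabiliser. -/

open Finset Equiv
open scoped Pointwise Nat

set_option linter.unusedSectionVars false

namespace Pool.Agent.H5Hom

namespace CAN

variable {α : Type} [Fintype α] [DecidableEq α] {p : ℕ}

lemma pgrp (hp : p.Prime) {P Q : Subgroup (Perm α)} {a : ℕ} (hP : Nat.card P = p ^ a) (h : Q ≤ P) :
    ∃ b, Nat.card Q = p ^ b := by
  obtain ⟨b, -, hb⟩ := (Nat.dvd_prime_pow hp).1 (hP ▸ Subgroup.card_dvd_of_le h)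
  exact ⟨b, hb⟩

lemma step (hp : p.Prime) {P : Subgroup (Perm α)} {a : ℕ} (hP : Nat.card P = p ^ a) (X : Finset α)
    (hX : X.card < Fintype.card α) : ∃ x ∉ X, ∃ b, (∀ y ∉ X, p ^ b ∣ (orb (fx P X) y).card) ∧
      p ^ b ∣ Fintype.card α - X.card ∧
      Nat.card (fx P X) = p ^ b * Nat.card (fx P (insert x X)) := by
  obtain ⟨c, hc⟩ := pgrp hp hP (fx_le X)
  have pw : ∀ y : α, ∃ b, (orb (fx P X) y).card = p ^ b := fun y => by
    obtain ⟨b, -, hb⟩ := (Nat.dvd_prime_pow hp).1 (hc ▸ Dvd.intro _ (orb_mul_st (fx P X) y))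
    exact ⟨b, hb⟩
  obtain ⟨x, hx, hm⟩ := exists_min_image (univ \ X) (fun y => (orb (fx P X) y).card)
    (card_pos.1 (by rw [card_univ_sdiff]; omega))
  obtain ⟨b, hb⟩ := pw x
  have d : ∀ y ∉ X, p ^ b ∣ (orb (fx P X) y).card := fun y hy => by
    obtain ⟨e, he⟩ := pw y
    have := hm y (by simpa using hy)
    rw [hb, he] at this
    exact he ▸ pow_dvd_pow _ ((Nat.pow_le_pow_iff_right hp.one_lt).1 this)
  refine ⟨x, by simpa using hx, b, d, ?_, by rw [← hb, orb_fx_mul]⟩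
  rw [← card_univ_sdiff]
  refine dvd_card_of_orb (K := fx P X) (fun g hg y hy => ?_) fun y hy => d y (by simpa using hy)
  simp only [mem_sdiff, mem_univ, true_and] at hy ⊢
  exact fun h => hy (g.injective (hg.2 _ h) ▸ h)

lemma chain (hp : p.Prime) {P : Subgroup (Perm α)} {a : ℕ} (hP : Nat.card P = p ^ a) (X : Finset α)
    (k : ℕ) (hk : X.card + k ≤ Fintype.card α) : ∃ Y, X ⊆ Y ∧ Y.card = X.card + k ∧
      Nat.card (fx P X) ∣ Nat.card (fx P Y) *
        ∏ s ∈ Ico X.card (X.card + k), p ^ (Fintype.card α - s).factorization p := by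
  induction k with
  | zero => exact ⟨X, Subset.rfl, rfl, by simp⟩
  | succ k ih =>
    obtain ⟨Y, h1, h2, h3⟩ := ih (by omega)
    obtain ⟨x, hx, b, -, h4, h5⟩ := step hp hP Y (by omega)
    refine ⟨insert x Y, h1.trans (subset_insert _ _), by rw [card_insert_of_notMem hx, h2, add_assoc],
      h3.trans ?_⟩
    rw [← add_assoc, prod_Ico_succ_top (by omega), h5, ← h2, mul_comm (p ^ b), mul_assoc,
      mul_comm (p ^ b)]
    exact mul_dvd_mul_left _ (mul_dvd_mul_left _ (pow_dvd_pow _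
      ((hp.pow_dvd_iff_le_factorization (by omega)).1 h4)))

lemma prod_lo (a k : ℕ) : ∏ s ∈ Ico a (a + k), (a + k - s) = k ! := by
  rw [prod_Ico_eq_prod_range, Nat.add_sub_cancel_left, ← prod_range_add_one_eq_factorial,
    ← prod_range_reflect]
  exact prod_congr rfl fun i hi => by have := mem_range.1 hi; omega

lemma prod_hi (j k : ℕ) : ∏ s ∈ Ico (j + 1) (j + 1 + k), (s - j) = k ! := by
  rw [prod_Ico_eq_prod_range, Nat.add_sub_cancel_left, ← prod_range_add_one_eq_factorial]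
  exact prod_congr rfl fun i _ => by omega

end CAN

open CAN in
theorem can_of (h1 : St_climb) : St_can := by
  intro α _ _ G S t p hp hT hS h2 hn
  obtain ⟨P, hPle, hP⟩ := exists_syl' hp (fx G S)
  obtain ⟨j, hj, hm⟩ := exists_max_image (Ico S.card t)
    (fun s => (Fintype.card α - s).factorization p) ⟨S.card, mem_Ico.2 ⟨le_rfl, by omega⟩⟩
  obtain ⟨hj1, hj2⟩ := mem_Ico.1 hj
  obtain ⟨k, rfl⟩ := Nat.exists_eq_add_of_le hj1
  obtain ⟨l, rfl⟩ := Nat.exists_eq_add_of_lt hj2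
  obtain ⟨J, a1, a2, a3⟩ := chain hp hP S k (by omega)
  obtain ⟨x, hx, b, b1, -, b2⟩ := step hp hP J (by omega)
  have c0 : (insert x J).card = S.card + k + 1 := by rw [card_insert_of_notMem hx, a2]
  obtain ⟨Y, -, c2, c3⟩ := chain hp hP (insert x J) l (by omega)
  have e0 : fx P S = P := le_antisymm (fx_le _) fun g hg => ⟨hg, (hPle hg).2⟩
  have e1 : Nat.card (fx P Y) = 1 := Nat.dvd_one.1 (hT.card (X := Y) (by omega) ▸
    Subgroup.card_dvd_of_le fun g hg => ⟨(hPle hg.1).1, hg.2⟩)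
  have d : ∀ s ∈ Ico S.card (S.card + k + l + 1), p ^ (Fintype.card α - s).factorization p ∣
      Fintype.card α - s ∧ p ^ (Fintype.card α - s).factorization p ∣
      Fintype.card α - (S.card + k) := fun s hs =>
    ⟨Nat.ordProj_dvd _ _, (pow_dvd_pow _ (hm s hs)).trans (Nat.ordProj_dvd _ _)⟩
  have d1 : ∏ s ∈ Ico S.card (S.card + k), p ^ (Fintype.card α - s).factorization p ∣ k ! := by
    rw [← prod_lo S.card k]
    refine prod_dvd_prod_of_dvd _ _ fun s hs => ?_
    have := mem_Ico.1 hs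
    obtain ⟨u, v⟩ := d s (mem_Ico.2 (by omega))
    exact (Nat.dvd_sub u v).trans (dvd_of_eq (by omega))
  have d2 : ∏ s ∈ Ico (S.card + k + 1) (S.card + k + 1 + l),
      p ^ (Fintype.card α - s).factorization p ∣ l ! := by
    rw [← prod_hi (S.card + k) l]
    refine prod_dvd_prod_of_dvd _ _ fun s hs => ?_
    have := mem_Ico.1 hs
    obtain ⟨u, v⟩ := d s (mem_Ico.2 (by omega))
    exact (Nat.dvd_sub v u).trans (dvd_of_eq (by omega))
  rw [e1, one_mul, c0] at c3
  rw [e0, hP, b2] at a3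
  have key : p ^ (Nat.card (fx G S)).factorization p ∣
      (S.card + k + l + 1 - S.card - 1)! * p ^ b := by
    refine a3.trans ?_
    rw [show S.card + k + l + 1 - S.card - 1 = k + l by omega, mul_assoc, mul_comm]
    exact mul_dvd_mul_right ((mul_dvd_mul (c3.trans d2) d1).trans
      (mul_comm (k !) _ ▸ Nat.factorial_mul_factorial_dvd_factorial_add k l)) _
  have hQ : fx P J ≤ fx G J := fun g hg => ⟨(hPle hg.1).1, hg.2⟩
  rcases le_or_gt (p ^ b) (k + l) with h | h
  · exact Or.inl (key.trans (mul_dvd_mul_left _ (Finset.dvd_lcm (f := id)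
      (mem_Icc.2 ⟨Nat.one_le_pow _ _ hp.pos, by omega⟩))))
  · obtain ⟨a, ha⟩ := pgrp hp hP (fx_le J)
    exact Or.inr ⟨J, p ^ b, fx P J, a1, by omega, hQ, key, b1, h1 α G (fx P J) J S.card p a (p ^ b)
      hp hS hQ ha (by omega) (by omega) (by omega) fun y hy =>
        Nat.le_of_dvd (card_pos.2 ⟨y, self_mem_orb y⟩) (b1 y hy)⟩

end Pool.Agent.H5Hom
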