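import Pool.Agent.Lib.MP_078193_al.NBlue

/-! A `p`-subgroup with long orbits outside `J` makes the set `J` canonical. -/

open Finset Equiv
open scoped Pointwise

set_option linter.unusedSectionVars false

namespace Pool.Agent.H5Hom

namespace CLIMB

variable {α : Type} [Fintype α] [DecidableEq α]

lemma card_orb_conj {R R' : Subgroup (Perm α)} {u : Perm α}
    (h : ∀ x, x ∈ R' ↔ u⁻¹ * x * u ∈ R) (y : α) : (orb R' (u y)).card = (orb R y).card := by
  rw [← card_smul u (orb R y)]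
  congr 1
  ext z
  rw [mem_smul, mem_orb, mem_orb]
  constructor
  · rintro ⟨g, hg, rfl⟩
    exact ⟨_, (h g).1 hg, rfl⟩
  · rintro ⟨g, hg, hg'⟩
    refine ⟨u * g * u⁻¹, (h _).2 (by simpa [mul_assoc] using hg), ?_⟩
    rw [Perm.smul_def] at hg' ⊢
    rw [Perm.mul_apply, Perm.mul_apply, inv_ap, hg', ap_inv]

lemma can_of {G Q R : Subgroup (Perm α)} {I J : Finset α} {τ h : ℕ} (hI : I ⊆ J)
    (hτ : τ ≤ I.card) (hJ : J.card < τ + h) (h2 : 2 ≤ h) (hQ : Q ≤ R)
    (hl : ∀ y ∉ J, h ≤ (orb Q y).card) (hR : R ≤ fx G I) (hi : Inv R J) (y : α) :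
    y ∈ J ↔ (orb R y).card < h := by
  constructor
  · intro hy
    by_cases hyI : y ∈ I
    · have : orb R y ⊆ {y} := by
        intro z hz
        obtain ⟨g, hg, rfl⟩ := mem_orb.1 hz
        exact mem_singleton.2 ((hR hg).2 y hyI)
      have := card_le_card this
      rw [card_singleton] at this
      omega
    · have : orb R y ⊆ J \ I := by
        intro z hz
        obtain ⟨g, hg, rfl⟩ := mem_orb.1 hz
        refine mem_sdiff.2 ⟨hi g hg y hy, fun hz' => hyI ?_⟩
        have e : g (g y) = g y := (hR hg).2 _ hz'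
        have e' : g y = y := g.injective e
        have hz'' : g y ∈ I := hz'
        rwa [e'] at hz''
      have h3 := card_le_card this
      rw [card_sdiff_of_subset hI] at h3
      have := card_le_card hI
      omega
  · intro hy
    by_contra hn
    have : orb Q y ⊆ orb R y := by
      intro z hz
      obtain ⟨g, hg, rfl⟩ := mem_orb.1 hz
      exact mem_orb.2 ⟨g, hQ hg, rfl⟩
    have h3 := card_le_card this
    have := hl y hn
    omega

lemma inv_up {G Q R : Subgroup (Perm α)} {I J : Finset α} {τ h p : ℕ} (hp : p.Prime)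
    (hI : I ⊆ J) (hτ : τ ≤ I.card) (hJ : J.card < τ + h) (h2 : 2 ≤ h)
    (hl : ∀ y ∉ J, h ≤ (orb Q y).card) (hR : R ≤ fx G I) (b : ℕ) :
    ∀ (c : ℕ) (P : Subgroup (Perm α)), Q ≤ P → P ≤ R → Nat.card P = p ^ c →
      Nat.card R = p ^ (c + b) → Inv P J → Inv R J := by
  induction b with
  | zero =>
    intro c P _ h4 h5 h6 h7
    have : P = R := Subgroup.eq_of_le_of_card_ge h4 (by rw [h5, h6]; simp)
    exact this ▸ h7
  | succ b ih =>
    intro c P h3 h4 h5 h6 h7
    obtain ⟨P₁, a1, a2, a3, a4⟩ := grow hp h4 h5 (by rw [h6]; exact pow_dvd_pow p (by omega))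
    refine ih (c + 1) P₁ (h3.trans a1) a2 a3 (by rw [h6]; congr 1; omega) ?_
    intro y hy z hz
    have hc := can_of hI hτ hJ h2 h3 hl (h4.trans hR) h7
    have hm : ∀ x, x ∈ P ↔ y⁻¹ * x * y ∈ P := by
      intro x
      constructor
      · intro hx
        simpa using a4 y⁻¹ (P₁.inv_mem hy) x hx
      · intro hx
        simpa [mul_assoc] using a4 y hy _ hx
    rw [hc, card_orb_conj hm]
    exact (hc z).1 hz

lemma can_syl {G Q R : Subgroup (Perm α)} {I J : Finset α} {τ h p a : ℕ} (hp : p.Prime)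
    (hI : I ⊆ J) (hτ : τ ≤ I.card) (hJ : J.card < τ + h) (h2 : 2 ≤ h) (hQ : Q ≤ fx G J)
    (ha : Nat.card Q = p ^ a) (hl : ∀ y ∉ J, h ≤ (orb Q y).card) (hQR : Q ≤ R)
    (hR : Syl p (fx G I) R) (y : α) : y ∈ J ↔ (orb R y).card < h := by
  have h1 := Subgroup.card_dvd_of_le hQR
  rw [ha, hR.2, Nat.pow_dvd_pow_iff_le_right hp.one_lt] at h1
  obtain ⟨b, hb⟩ := Nat.exists_eq_add_of_le h1
  refine can_of hI hτ hJ h2 hQR hl hR.1 ?_ y
  refine inv_up hp hI hτ hJ h2 hl hR.1 b a Q le_rfl hQR ha (by rw [hR.2, hb]) ?_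
  intro g hg x hx
  rw [(hQ hg).2 x hx]
  exact hx

lemma big {G Q : Subgroup (Perm α)} {I J : Finset α} {τ h p a : ℕ} (hp : p.Prime)
    (hI : I ⊆ J) (hτ : τ ≤ I.card) (hJ : J.card < τ + h) (h2 : 2 ≤ h) (hQ : Q ≤ fx G J)
    (ha : Nat.card Q = p ^ a) (hl : ∀ y ∉ J, h ≤ (orb Q y).card) {g : Perm α} (hg : g ∈ G)
    (hgI : ∀ x ∈ I, g x ∈ J) : ∃ u ∈ st G J, ∀ x ∈ I, u x = g x := by
  have hI' : g • I ⊆ J := by
    intro y hy
    have := hgI _ (mem_smul.1 hy)
    rwa [ap_inv] at this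
  obtain ⟨R, r1, r2⟩ := exists_syl hp (hQ.trans (fx_anti hI)) ha
  obtain ⟨R', s1, s2⟩ := exists_syl hp (hQ.trans (fx_anti hI')) ha
  have c1 := can_syl hp hI hτ hJ h2 hQ ha hl r1 r2
  have c2 := can_syl hp hI' (by rwa [card_smul]) hJ h2 hQ ha hl s1 s2
  set R₂ := R.map (MulAut.conj g).toMonoidHom with hR₂
  have hm : ∀ x, x ∈ R₂ ↔ g⁻¹ * x * g ∈ R := by
    intro x
    constructor
    · rintro ⟨y, hy, rfl⟩
      simpa [mul_assoc] using hy
    · intro hx
      exact ⟨_, hx, by simp [mul_assoc]⟩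
  have h1 : Syl p (fx G (g • I)) R₂ := by
    refine ⟨fun x hx => ⟨?_, fun y hy => ?_⟩, ?_⟩
    · have := G.mul_mem (G.mul_mem hg (r2.1 ((hm x).1 hx)).1) (G.inv_mem hg)
      simpa [mul_assoc] using this
    · have := (r2.1 ((hm x).1 hx)).2 _ (mem_smul.1 hy)
      rw [Perm.mul_apply, Perm.mul_apply, ap_inv] at this
      exact g⁻¹.injective this
    · rw [hR₂, Subgroup.card_map_of_injective (MulAut.conj g).injective, r2.2, card_fx_smul hg]
  obtain ⟨k, hk, hk'⟩ := h1.conj hp s2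
  have hu : ∀ x, x ∈ R' ↔ (k * g)⁻¹ * x * (k * g) ∈ R := by
    intro x
    rw [hk', hm]
    simp [mul_assoc]
  refine ⟨k * g, mem_st.2 ⟨G.mul_mem hk.1 hg, ?_⟩, fun x hx => ?_⟩
  · refine eq_of_subset_of_card_le (fun z hz => ?_) (card_smul _ J).ge
    have h3 := mem_smul.1 hz
    rw [← ap_inv (k * g) z, c2, card_orb_conj hu]
    exact (c1 _).1 h3
  · rw [Perm.mul_apply]
    exact hk.2 _ (apply_mem_smul.2 hx)

end CLIMB

theorem climb_of : St_climb := by
  intro α _ _ G Q J τ p a h hp htr hQ ha hτ hJ h2 hl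
  have key : ∀ n : ℕ, ∀ I ⊆ J, I.card + n = τ → ∀ φ : α → α, Set.InjOn φ I → (∀ x ∈ I, φ x ∈ J) →
      ∃ u ∈ st G J, ∀ x ∈ I, u x = φ x := by
    intro n
    induction n with
    | zero =>
      intro I hI hc φ h3 h4
      obtain ⟨g, hg, hg'⟩ := htr I (subset_univ _) (by omega) φ h3 fun x _ => mem_univ _
      obtain ⟨u, hu, hu'⟩ := CLIMB.big hp hI (τ := τ) (by omega) hJ h2 hQ ha hl hg
        fun x hx => by rw [hg' x hx]; exact h4 x hx
      exact ⟨u, hu, fun x hx => by rw [hu' x hx, hg' x hx]⟩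
    | succ n ih =>
      intro I hI hc φ h3 h4
      obtain ⟨x, hx, hx'⟩ := exists_mem_notMem_of_card_lt_card (s := I) (t := J) (by omega)
      obtain ⟨y, hy, hy'⟩ := exists_mem_notMem_of_card_lt_card (s := I.image φ) (t := J)
        (lt_of_le_of_lt card_image_le (by omega))
      obtain ⟨u, hu, hu'⟩ := ih (insert x I) (insert_subset hx hI)
        (by rw [card_insert_of_notMem hx']; omega) (Function.update φ x y)
        (injOn_update h3 hx' fun s hs e => hy' (mem_image.2 ⟨s, hs, e⟩)) (by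
          intro z hz
          by_cases e : z = x
          · rw [e, Function.update_self]; exact hy
          · rw [Function.update_of_ne e]
            exact h4 z ((mem_insert.1 hz).resolve_left e))
      refine ⟨u, hu, fun z hz => ?_⟩
      rw [hu' z (mem_insert_of_mem hz), Function.update_of_ne (ne_of_mem_of_not_mem hz hx')]
  intro I hI g hg hgI
  by_cases hc : τ ≤ I.card
  · exact CLIMB.big hp hI hc hJ h2 hQ ha hl hg hgI
  · exact key (τ - I.card) I hI (by omega) g g.injective.injOn hgI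

end Pool.Agent.H5Hom
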