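import Pool.Agent.Lib.MP_078193_al.NBlue
import Pool.Agent.Lib.MP_078193_al.MLink
import Pool.Agent.Lib.MP_078193_al.MK1

/-! The group induced on a canonical set contains the alternating group. -/

open Finset Equiv
open scoped Pointwise

set_option linter.unusedSectionVars false

namespace Pool.Agent.H5Hom
namespace GIANT

open LINK

variable {α : Type} [Fintype α] [DecidableEq α] {G : Subgroup (Perm α)} {J : Finset α}

lemma liftG {u : Perm J} (hu : u ∈ indG G J) : ∃ g ∈ st G J, ∀ x : J, g x = u x := by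
  obtain ⟨g, hg, hg'⟩ := hu
  refine ⟨g, mem_st.2 ⟨hg, ?_⟩, hg'⟩
  refine eq_of_subset_of_card_le (fun y hy => ?_) (card_smul g J).ge
  obtain ⟨x, hx, rfl⟩ := mem_image.1 hy
  have := hg' ⟨x, hx⟩
  change g x ∈ J
  simp only at this
  rw [this]
  exact Subtype.property _

lemma down {g : Perm α} (hg : g ∈ st G J) : ∃ u ∈ indG G J, ∀ x : J, g x = u x :=
  ⟨g.subtypePerm (mem_iff hg), ⟨g, (mem_st.1 hg).1, fun _ => rfl⟩, fun _ => rfl⟩

lemma map_sub (X : Finset J) : X.map (Function.Embedding.subtype _) ⊆ J := fun y hy => by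
  obtain ⟨x, -, rfl⟩ := mem_map.1 hy
  exact x.2

lemma mem_map_iff (X : Finset J) (x : J) :
    (x : α) ∈ X.map (Function.Embedding.subtype _) ↔ x ∈ X :=
  mem_map' (Function.Embedding.subtype _)

lemma orb_iff (hF : Fus G J) (X Y : Finset J) :
    Y ∈ orb (indG G J) X ↔
      Y.map (Function.Embedding.subtype _) ∈ orb G (X.map (Function.Embedding.subtype _)) := by
  have aux : ∀ (g : Perm α) (u : Perm J), (∀ x ∈ X, g x = u x) →
      (u • X).map (Function.Embedding.subtype _) = g • X.map (Function.Embedding.subtype _) := by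
    intro g u h
    rw [smul_eq_image, smul_eq_image, map_eq_image, map_eq_image, image_image, image_image]
    exact image_congr fun x hx => (h x hx).symm
  rw [mem_orb, mem_orb]
  constructor
  · rintro ⟨u, ⟨g, hg, hg'⟩, rfl⟩
    exact ⟨g, hg, (aux g u fun x _ => hg' x).symm⟩
  · rintro ⟨g, hg, hg'⟩
    obtain ⟨v, hv, hv'⟩ := hF _ (map_sub X) g hg fun x hx =>
      map_sub Y (hg' ▸ apply_mem_smul.2 hx)
    obtain ⟨u, hu, hu'⟩ := down hv
    refine ⟨u, hu, map_injective (Function.Embedding.subtype _) ?_⟩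
    rw [← hg']
    refine aux g u fun x hx => ?_
    rw [← hu' x, hv' x ((mem_map_iff X x).2 hx)]

lemma nr_le' (hF : Fus G J) (i : ℕ) : nr (indG G J) i ≤ nr G i := by
  classical
  refine le_trans (card_le_card ?_) (card_image_le_nr (H := G) (t := i)
    (fun A => univ.filter fun X : Finset J => X.map (Function.Embedding.subtype _) ∈ orb G A)
    fun A B h => by rw [orb_eq h])
  intro O hO
  obtain ⟨X, hX, rfl⟩ := mem_image.1 hO
  refine mem_image.2 ⟨X.map (Function.Embedding.subtype _), ?_, ?_⟩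
  · rw [mem_lev, card_map]
    exact mem_lev.1 hX
  · ext Y
    rw [orb_iff hF, mem_filter]
    simp

lemma nr_le_one {H : Subgroup (Perm α)} {i : ℕ} (h : Hom H univ i) : nr H i ≤ 1 := by
  refine card_le_one.2 fun O hO O' hO' => ?_
  obtain ⟨A, hA, rfl⟩ := mem_image.1 hO
  obtain ⟨B, hB, rfl⟩ := mem_image.1 hO'
  exact orb_eq (mem_orb.2 (h B (subset_univ _) A (subset_univ _) (mem_lev.1 hB) (mem_lev.1 hA)))

lemma one_le_nr {H : Subgroup (Perm α)} {i : ℕ} (h : i ≤ Fintype.card α) : 1 ≤ nr H i := by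
  obtain ⟨A, -, hA⟩ := exists_subset_card_eq (s := (univ : Finset α)) (n := i)
    (by rwa [card_univ])
  exact card_pos.2 ⟨_, mem_image_of_mem _ (mem_lev.2 hA)⟩

lemma hom_ind (hF : Fus G J) {i : ℕ} (h : Hom G univ i) : Hom (indG G J) univ i := by
  intro A _ B _ hA hB
  refine mem_orb.1 ((orb_iff hF A B).2 (mem_orb.2 ?_))
  exact h _ (subset_univ _) _ (subset_univ _) (by rwa [card_map]) (by rwa [card_map])

lemma tr_ind (hF : Fus G J) {τ : ℕ} (h : Tr G univ τ) : Tr (indG G J) univ τ := by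
  intro S _ hS φ hφ _
  let ψ : α → α := fun x => if hx : x ∈ J then φ ⟨x, hx⟩ else x
  have hψ : ∀ x : J, ψ x = φ x := fun x => by simp [ψ]
  obtain ⟨g, hg, hg'⟩ := h (S.map (Function.Embedding.subtype _)) (subset_univ _)
    (by rwa [card_map]) ψ (by
      intro a ha b hb hab
      obtain ⟨x, hx, rfl⟩ := mem_map.1 (mem_coe.1 ha)
      obtain ⟨y, hy, rfl⟩ := mem_map.1 (mem_coe.1 hb)
      have h1 : ψ x = ψ y := hab
      rw [hψ, hψ] at h1
      rw [hφ hx hy (Subtype.ext h1)]) fun _ _ => mem_univ _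
  obtain ⟨v, hv, hv'⟩ := hF _ (map_sub S) g hg fun x hx => by
    obtain ⟨y, hy, rfl⟩ := mem_map.1 hx
    have h1 : g y = ψ y := hg' _ hx
    change g y ∈ J
    rw [h1, hψ]
    exact Subtype.property _
  obtain ⟨u, hu, hu'⟩ := down hv
  refine ⟨u, hu, fun x hx => Subtype.ext ?_⟩
  have h1 := (mem_map_iff S x).2 hx
  rw [← hu' x, hv' x h1, hg' x h1, hψ]

lemma count {H : Subgroup (Perm α)} (P : ℕ → Prop) [DecidablePred P]
    (h : ∀ k, P k → nr H k ≠ nr H (k + 1)) :
    ∀ m, 2 * m ≤ Fintype.card α → 1 + ((range m).filter P).card ≤ nr H m := by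
  intro m
  induction m with
  | zero => intro _; simpa using one_le_nr (H := H) (Nat.zero_le _)
  | succ m ih =>
    intro hm
    have h1 := ih (by omega)
    have h2 : nr H m ≤ nr H (m + 1) := K1.nr_mono (by omega)
    rw [range_add_one, filter_insert]
    split_ifs with hP
    · rw [card_insert_of_notMem (by simp)]
      have := h m hP
      omega
    · omega

end GIANT

open GIANT LINK in
theorem giant_of (hjump : St_jump) (hjalt : St_jalt) : St_giant := by
  intro α _ _ G J τ d r hF hT hH hr ⟨hd, hj, hk⟩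
  classical
  have hc : Fintype.card J = J.card := Fintype.card_coe J
  have hJ : ∀ k, 2 * k + 2 ≤ J.card → (J.card - k).Prime →
      nr (indG G J) k = nr (indG G J) (k + 1) →
      ∃ K : Finset J, K.card = k ∧ J.card - k ∣ Nat.card (fx (indG G J) K) := fun k h1 h2 h3 =>
    hjump J (indG G J) k _ h2 (by omega) (by omega) (by rw [hc]) h3
  obtain ⟨k, K, h3, hkj, hp, hK, hd'⟩ : ∃ (k : ℕ) (K : Finset J), 3 ≤ k ∧ k < J.card ∧
      (J.card - k).Prime ∧ K.card = k ∧ J.card - k ∣ Nat.card (fx (indG G J) K) := by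
    rcases hk with ⟨k, h3, hkj, hp, h | ⟨h, h'⟩⟩ | hk
    · obtain ⟨K, -, hK⟩ := exists_subset_card_eq (s := (univ : Finset J)) (n := k)
        (by rw [card_univ]; omega)
      obtain ⟨x, -, hx⟩ := exists_mem_notMem_of_card_lt_card (s := K) (t := univ)
        (by rw [card_univ]; omega)
      have := (tr_ind hF hT).card_fx_insert inv_univ (subset_univ K) (by omega) (mem_univ x) hx
      refine ⟨k, K, h3, hkj, hp, hK, ?_⟩
      rw [← this, card_univ, hc, hK]
      exact dvd_mul_right _ _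
    · obtain ⟨K, hK, hK'⟩ := hJ k h' hp (by
        have a1 := nr_le_one (hom_ind hF (hH k (by omega)))
        have a2 := nr_le_one (hom_ind hF (hH (k + 1) h))
        have a3 := one_le_nr (H := indG G J) (i := k) (by omega)
        have a4 := one_le_nr (H := indG G J) (i := k + 1) (by omega)
        omega)
      exact ⟨k, K, h3, hkj, hp, hK, hK'⟩
    · by_contra hne
      have h1 := count (H := indG G J) (fun k => 3 ≤ k ∧ 2 * k + 2 ≤ J.card ∧ (J.card - k).Prime)
        (fun k ⟨a1, a2, a3⟩ a4 => by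
          obtain ⟨K, hK, hK'⟩ := hJ k a2 a3 a4
          exact hne ⟨k, K, a1, by omega, a3, hK, hK'⟩) (J.card / 2) (by omega)
      have h2 : (range J.card).filter (fun k => 3 ≤ k ∧ 2 * k + 2 ≤ J.card ∧ (J.card - k).Prime)
          ⊆ (range (J.card / 2)).filter
            (fun k => 3 ≤ k ∧ 2 * k + 2 ≤ J.card ∧ (J.card - k).Prime) := by
        intro k hk
        obtain ⟨-, a⟩ := mem_filter.1 hk
        exact mem_filter.2 ⟨mem_range.2 (by omega), a⟩
      have h3 := card_le_card h2
      have h4 := nr_le' hF (J.card / 2)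
      have h5 := hr (J.card / 2) (by omega)
      omega
  have : Fact (J.card - k).Prime := ⟨hp⟩
  obtain ⟨z, hz⟩ := exists_prime_orderOf_dvd_card' (G := fx (indG G J) K) _ hd'
  have ho : orderOf (z : Perm J) = J.card - k := by rw [Subgroup.orderOf_coe, hz]
  have hs : (supp univ (z : Perm J)).card = J.card - k := by
    refine le_antisymm ?_ ?_
    · have h1 : supp univ (z : Perm J) ⊆ univ \ K := fun x hx =>
        mem_sdiff.2 ⟨mem_univ _, fun h => (mem_supp.1 hx).2 (z.2.2 x h)⟩
      have h2 := card_le_card h1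
      rwa [card_sdiff_of_subset (subset_univ _), card_univ, hc, hK] at h2
    · obtain ⟨n, hn⟩ := Perm.cycleType_prime_order (σ := (z : Perm J)) (ho ▸ hp)
      change _ ≤ (z : Perm J).support.card
      rw [← Perm.sum_cycleType, hn, Multiset.sum_replicate, ho, smul_eq_mul]
      exact Nat.le_mul_of_pos_left _ (by omega)
  have hA := hjalt J (indG G J) _ hp (by omega) (hom_ind hF (hH 2 (by omega))) z z.2.1
    (by rw [← ho]; exact pow_orderOf_eq_one _) hs
  intro u hu v hv w hw huv huw hvw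
  obtain ⟨h, hh, h1, h2⟩ := hA ⟨u, hu⟩ (mem_univ _) ⟨v, hv⟩ (mem_univ _) ⟨w, hw⟩ (mem_univ _)
    (fun e => huv (congrArg Subtype.val e)) (fun e => huw (congrArg Subtype.val e))
    (fun e => hvw (congrArg Subtype.val e))
  obtain ⟨g, hg, hg'⟩ := liftG hh
  refine ⟨g, hg, ?_, fun x hx a1 a2 a3 => ?_⟩
  · have := hg' ⟨u, hu⟩
    rw [h1] at this
    exact this
  · have := hg' ⟨x, hx⟩
    rw [h2 ⟨x, hx⟩ (mem_univ _) (fun e => a1 (congrArg Subtype.val e))
      (fun e => a2 (congrArg Subtype.val e)) (fun e => a3 (congrArg Subtype.val e))] at this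
    exact this

end Pool.Agent.H5Hom
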