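import Pool.Agent.Lib.MP_078193_al.NBlue

/-! Block GOOD: consequences of an element of prime order fixing a set pointwise. -/

open Finset Equiv
open scoped Pointwise Nat

set_option linter.unusedSectionVars false

namespace Pool.Agent.H5Hom

namespace GOOD

variable {α : Type} [Fintype α] [DecidableEq α]

lemma exists_Q {p : ℕ} (hp : p.Prime) {K : Subgroup (Perm α)} (h : p ∣ Nat.card K) :
    ∃ Q : Subgroup (Perm α), Q ≤ K ∧ Nat.card Q = p ^ 1 := by
  have : Fact p.Prime := ⟨hp⟩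
  obtain ⟨Q, hQ⟩ := Sylow.exists_subgroup_card_pow_prime p (G := K) (n := 1) (by simpa using h)
  exact ⟨Q.map K.subtype, Subgroup.map_subtype_le _, by
    rw [Subgroup.card_map_of_injective K.subtype_injective, hQ]⟩

lemma card_fixs_le {G Q : Subgroup (Perm α)} {p ψ : ℕ} (hp : p.Prime) (hQG : Q ≤ G)
    (hQ : Nat.card Q = p ^ 1) (htr : Triv G (ψ + 1)) : (fixs Q).card ≤ ψ := by
  by_contra hc
  have hb : Q = ⊥ := by
    rw [eq_bot_iff]
    intro g hg
    exact Subgroup.mem_bot.2 (htr g (hQG hg) (fixs Q) (by omega)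
      fun x hx => mem_fixs.1 hx g hg)
  rw [hb, Subgroup.card_bot, pow_one] at hQ
  exact hp.one_lt.ne hQ

lemma card_orb {Q : Subgroup (Perm α)} {p : ℕ} (hp : p.Prime) (hQ : Nat.card Q = p ^ 1)
    {y : α} (hy : y ∉ fixs Q) : (orb Q y).card = p := by
  have h1 : (orb Q y).card ∣ p := by
    have := Dvd.intro _ (orb_mul_st Q y)
    rwa [hQ, pow_one] at this
  exact Nat.dvd_antisymm h1 (dvd_card_orb hp hQ hy)

lemma inv_orb (Q : Subgroup (Perm α)) (y : α) : Inv Q (orb Q y) :=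
  fun _ hg _ hx => (smul_mem_orb hg).2 hx

lemma mem_of_orb {Q : Subgroup (Perm α)} {Z : Finset α} (hZ : Inv Q Z) {x y : α}
    (hx : x ∈ orb Q y) (hxZ : x ∈ Z) : y ∈ Z := by
  obtain ⟨g, hg, rfl⟩ := mem_orb.1 (orb_symm hx)
  exact hZ g hg x hxZ

lemma inv_fixs' (Q : Subgroup (Perm α)) {E : Finset α} (hE : E ⊆ fixs Q) : Inv Q E := by
  intro g hg x hx
  rwa [mem_fixs.1 (hE hx) g hg]

lemma unionZ {Q : Subgroup (Perm α)} {p : ℕ} (hp : p.Prime) (hQ : Nat.card Q = p ^ 1) (c : ℕ)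
    (hc : c * p ≤ Fintype.card α - (fixs Q).card) :
    ∃ R Z : Finset α, R.card ≤ c ∧ Z.card = c * p ∧ Inv Q Z ∧ Disjoint Z (fixs Q) ∧ R ⊆ Z ∧
      ∀ z ∈ Z, ∃ r ∈ R, z ∈ orb Q r := by
  induction c with
  | zero => exact ⟨∅, ∅, by simp, by simp, fun _ _ _ h => by simp at h, by simp, by simp, by simp⟩
  | succ c ih =>
    have hp0 := hp.pos
    obtain ⟨R, Z, h1, h2, h3, h4, h5, h6⟩ := ih (by nlinarith)
    obtain ⟨y, hy, hyZ⟩ := exists_mem_notMem_of_card_lt_card (s := Z) (t := univ \ fixs Q) (by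
      rw [card_sdiff_of_subset (subset_univ _), card_univ, h2]; nlinarith)
    have hy' := (mem_sdiff.1 hy).2
    have hd : Disjoint Z (orb Q y) :=
      disjoint_left.2 fun x hx hx' => hyZ (mem_of_orb h3 hx' hx)
    refine ⟨insert y R, Z ∪ orb Q y, (card_insert_le _ _).trans (by omega), ?_, ?_, ?_, ?_, ?_⟩
    · rw [card_union_of_disjoint hd, h2, card_orb hp hQ hy']; ring
    · intro g hg x hx
      rcases mem_union.1 hx with h | h
      · exact mem_union_left _ (h3 g hg x h)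
      · exact mem_union_right _ (inv_orb Q y g hg x h)
    · refine disjoint_union_left.2 ⟨h4, disjoint_left.2 fun x hx hx' => hy' ?_⟩
      exact mem_of_orb (inv_fixs' Q subset_rfl) hx hx'
    · exact insert_subset (mem_union_right _ (self_mem_orb y)) (h5.trans subset_union_left)
    · intro z hz
      rcases mem_union.1 hz with h | h
      · obtain ⟨r, hr, hr'⟩ := h6 z h
        exact ⟨r, mem_insert_of_mem hr, hr'⟩
      · exact ⟨y, mem_insert_self _ _, h⟩

lemma nr_le {G Q : Subgroup (Perm α)} {p t : ℕ} (hp : p.Prime) (hQG : Q ≤ G)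
    (hQ : Nat.card Q = p ^ 1) (hh : HH G t) (hn : t + 1 ≤ Fintype.card α - (fixs Q).card)
    (he : (t + 1) % p ≤ (fixs Q).card) : nr G t ≤ (t + 1) / p + (t + 1) % p := by
  classical
  have hdm := Nat.div_add_mod' (t + 1) p
  obtain ⟨R, Z, h1, h2, h3, h4, h5, h6⟩ := unionZ hp hQ ((t + 1) / p) (by omega)
  obtain ⟨E, hE, hE'⟩ := exists_subset_card_eq he
  have hd : Disjoint Z E := h4.mono_right hE
  have hC : (Z ∪ E).card = t + 1 := by rw [card_union_of_disjoint hd, h2, hE', hdm]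
  have hI : Inv Q (Z ∪ E) := by
    intro g hg x hx
    rcases mem_union.1 hx with h | h
    · exact mem_union_left _ (h3 g hg x h)
    · exact mem_union_right _ (inv_fixs' Q hE g hg x h)
  unfold nr
  rw [← hh.image hC]
  have hs : (Z ∪ E).image (fun x => orb G ((Z ∪ E).erase x))
      ⊆ (R ∪ E).image (fun x => orb G ((Z ∪ E).erase x)) := by
    intro O hO
    obtain ⟨x, hx, rfl⟩ := mem_image.1 hO
    rcases mem_union.1 hx with h | h
    · obtain ⟨r, hr, hr'⟩ := h6 x h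
      obtain ⟨g, hg, rfl⟩ := mem_orb.1 hr'
      refine mem_image.2 ⟨r, mem_union_left _ hr, (orb_eq (mem_orb.2 ⟨g, hQG hg, ?_⟩)).symm⟩
      rw [smul_erase, hI.smul_eq hg]
      rfl
    · exact mem_image.2 ⟨x, mem_union_right _ h, rfl⟩
  refine (card_le_card hs).trans (card_image_le.trans ((card_union_le _ _).trans ?_))
  omega

end GOOD

theorem good_of : St_good := by
  intro α _ _ G t ψ p hh htr hψ hn hp
  refine ⟨fun J hJ => ?_, fun hG => ?_⟩
  · obtain ⟨Q, hQK, hQ⟩ := GOOD.exists_Q hp hJ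
    have hQG : Q ≤ G := hQK.trans (fx_le J)
    have hJQ : J ⊆ fixs Q := fun x hx => mem_fixs.2 fun g hg => (hQK hg).2 x hx
    have h1 := card_le_card hJQ
    have h2 := GOOD.card_fixs_le hp hQG hQ htr
    refine ⟨hJ.trans (Subgroup.card_dvd_of_le (fx_le J)),
      ⟨(fixs Q).card, h1, h2, dvd_sub_fixs hp hQ⟩, fun he => ?_⟩
    exact GOOD.nr_le hp hQG hQ hh (by omega) (by omega)
  · obtain ⟨Q, hQG, hQ⟩ := GOOD.exists_Q hp hG
    have h1 := dvd_sub_fixs hp hQ
    have h2 : (fixs Q).card ≤ Fintype.card α := card_le_univ _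
    have h3 : Fintype.card α % p ≤ (fixs Q).card := by
      have := (Nat.modEq_iff_dvd' h2).2 h1
      rw [← this]
      exact Nat.mod_le _ _
    obtain ⟨J, hJ, hJ'⟩ := exists_subset_card_eq h3
    refine ⟨J, hJ', ?_⟩
    have hle : Q ≤ fx G J := fun g hg => ⟨hQG hg, fun x hx => mem_fixs.1 (hJ hx) g hg⟩
    have := Subgroup.card_dvd_of_le hle
    rwa [hQ, pow_one] at this

end Pool.Agent.H5Hom
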