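import Pool.Agent.Lib.MP_078193_al.NBlue

/-! Incidence data of the orbits on two consecutive levels. -/

open Finset Equiv
open scoped Pointwise Nat

set_option linter.unusedSectionVars false

namespace Pool.Agent.H5Hom

namespace NInc

variable {α : Type} [Fintype α] [DecidableEq α] {G : Subgroup (Perm α)}

lemma mem_iff_of_st {X : Finset α} (g : st G X) (x : α) : (g : Perm α) x ∈ X ↔ x ∈ X := by
  have h := (mem_st.1 g.2).2
  generalize (g : Perm α) = u at h ⊢
  conv_lhs => rw [← h]
  rw [smul_eq_image, mem_image]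
  exact ⟨fun ⟨y, hy, e⟩ => u.injective e ▸ hy, fun hx => ⟨x, hx, rfl⟩⟩

/-- restriction of the set stabiliser to the set -/
def res (G : Subgroup (Perm α)) (X : Finset α) : st G X →* Perm {x // x ∈ X} where
  toFun g := (g : Perm α).subtypePerm (mem_iff_of_st g)
  map_one' := by ext x; simp
  map_mul' a b := by ext x; simp

lemma card_st_dvd (X : Finset α) : Nat.card (st G X) ∣ X.card ! * Nat.card (fx G X) := by
  have hle : fx G X ≤ st G X := by
    intro g hg
    refine mem_st.2 ⟨hg.1, ?_⟩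
    rw [smul_eq_image, image_congr (g := id) (fun y hy => hg.2 y hy), image_id]
  have hk : (res G X).ker = (fx G X).subgroupOf (st G X) := by
    ext g
    rw [MonoidHom.mem_ker, Subgroup.mem_subgroupOf, mem_fx]
    constructor
    · intro h
      refine ⟨(mem_st.1 g.2).1, fun x hx => ?_⟩
      have := congrArg (fun p : Perm {x // x ∈ X} => (p ⟨x, hx⟩ : α)) h
      simpa [res] using this
    · intro h
      ext x
      simpa [res] using h.2 x x.2
  have h1 := (res G X).ker.index_mul_card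
  rw [Subgroup.index_ker, hk, Nat.card_congr (Subgroup.subgroupOfEquivOfLe hle).toEquiv] at h1
  rw [← h1]
  refine mul_dvd_mul_right ?_ _
  have h2 := Subgroup.card_subgroup_dvd_card (res G X).range
  rwa [Nat.card_perm, Nat.card_eq_fintype_card (α := {x // x ∈ X}), Fintype.card_coe] at h2

lemma sum_img {t : ℕ} {A : ℕ → Finset α} (h : Enu G t A) (F : Finset (Finset α) → ℕ) :
    ∑ O ∈ (powersetCard t (univ : Finset α)).image (orb G), F O
      = ∑ j ∈ range (nr G t), F (orb G (A j)) := by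
  have e : (powersetCard t (univ : Finset α)).image (orb G)
      = (range (nr G t)).image (fun j => orb G (A j)) := by
    ext O
    simp only [mem_image, mem_lev, mem_range]
    constructor
    · rintro ⟨B, hB, rfl⟩
      obtain ⟨j, hj, hj'⟩ := h.surj B hB
      exact ⟨j, hj, (orb_eq hj').symm⟩
    · rintro ⟨j, hj, rfl⟩
      exact ⟨_, h.card j hj, rfl⟩
  rw [e, sum_image]
  intro i hi j hj hij
  exact (h.inj j (by simpa using hj) i (by simpa using hi) (orb_eq_iff.1 hij)).symm

lemma cast_sub_ge (a b : ℕ) : (a : ℝ) - b ≤ ((a - b : ℕ) : ℝ) := by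
  rcases le_total a b with h | h
  · have : (a : ℝ) ≤ b := by exact_mod_cast h
    have : (0 : ℝ) ≤ ((a - b : ℕ) : ℝ) := Nat.cast_nonneg _
    linarith
  · rw [Nat.cast_sub h]

lemma two_ineq {t n i a u W : ℕ} (hi : i + 1 ≤ t) (hn : 2 * t + 1 ≤ n) (ha : a + 1 ≤ t)
    (hW : 0 < W) (h1 : u ≤ W) (h2 : W ≤ (t + 1) * u)
    (h : ∀ v : ℝ, v * W = (t + 1) * u → ((t : ℝ) - i) * (n - t - (i + 1)) * v * (t + 1 - v)
      ≤ (t - a - v) * (v - 1) * (n - t) * (t + 1)) :
    (t + 1 - (i + 1)) * (n - t - (i + 1)) * (t + 1) * u * (W - u)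
      ≤ ((t - a) * W - (t + 1) * u) * ((t + 1) * u - W) * (n - t) := by
  have W0 : (0 : ℝ) < W := by exact_mod_cast hW
  obtain ⟨v, hv⟩ : ∃ v : ℝ, v * W = (t + 1) * u := ⟨(t + 1) * u / W, by field_simp⟩
  have k := mul_le_mul_of_nonneg_right (h v hv) (mul_pos W0 W0).le
  have e1 : ((t : ℝ) - i) * (n - t - (i + 1)) * v * (t + 1 - v) * (W * W)
      = (t + 1) * (((t : ℝ) - i) * (n - t - (i + 1)) * (t + 1) * u * (W - u)) := by
    have : ((t : ℝ) - i) * (n - t - (i + 1)) * v * (t + 1 - v) * (W * W)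
      = ((t : ℝ) - i) * (n - t - (i + 1)) * (v * W) * ((t + 1) * W - v * W) := by ring
    rw [this, hv]; ring
  have e2 : ((t : ℝ) - a - v) * (v - 1) * (n - t) * (t + 1) * (W * W)
      = (t + 1) * (((t - a) * W - (t + 1) * u) * (((t + 1) * u - W) * (n - t))) := by
    have : ((t : ℝ) - a - v) * (v - 1) * (n - t) * (t + 1) * (W * W)
      = ((t - a) * W - v * W) * (v * W - W) * (n - t) * (t + 1) := by ring
    rw [this, hv]; ring
  rw [e1, e2] at k
  have k2 := le_of_mul_le_mul_left k (by positivity)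
  have c1 := cast_sub_ge ((t - a) * W) ((t + 1) * u)
  have c2 : (0 : ℝ) ≤ (((t + 1) * u - W : ℕ) : ℝ) * ((n - t : ℕ) : ℝ) := by positivity
  have c3 := mul_le_mul_of_nonneg_right c1 c2
  rw [show t + 1 - (i + 1) = t - i by omega, ← Nat.cast_le (α := ℝ)]
  simp only [Nat.cast_mul] at c3 ⊢
  rw [mul_assoc (((t - a) * W - (t + 1) * u : ℕ) : ℝ)]
  refine le_trans ?_ c3
  rw [Nat.cast_sub (by omega : i ≤ t), Nat.cast_sub (by omega : i + 1 ≤ n - t),
    Nat.cast_sub (by omega : t ≤ n), Nat.cast_sub h1, Nat.cast_sub h2,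
    Nat.cast_sub (by omega : a ≤ t)]
  push_cast
  exact k2

end NInc

open NInc in
theorem inc_of (henu : St_enu) (hvp : St_vp) (hk1 : St_k1) (hr2 : St_r2) : St_inc := by
  intro α _ _ G t i e B₀ A₀ hc hi hi' hit he
  obtain ⟨A, hA⟩ := henu α G t
  obtain ⟨C, hC⟩ := henu α G (t + 1)
  obtain ⟨k1, k2, k3, -⟩ := hk1 α G t
  have hn := hc.hn
  obtain ⟨j₀, hj₀, hj₀'⟩ := hA.surj A₀ hc.hA
  obtain ⟨γ, hγ⟩ : ∃ γ, γ = (range (nr G t)).gcd (fun j => (orb G (A j)).card) := ⟨_, rfl⟩
  have hd : ∀ j < nr G t, γ ∣ (orb G (A j)).card := fun j hj =>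
    hγ ▸ gcd_dvd (mem_range.2 hj)
  have γ0 : 0 < γ := Nat.pos_of_dvd_of_pos (hd j₀ hj₀) (orb_pos _)
  obtain ⟨w, hw⟩ : ∃ w : ℕ → ℕ, w = fun j => (orb G (A j)).card / γ := ⟨_, rfl⟩
  have ho : ∀ j < nr G t, (orb G (A j)).card = γ * w j := fun j hj => by
    rw [hw]; exact (Nat.mul_div_cancel' (hd j hj)).symm
  have tot : (Fintype.card α).choose t = γ * ∑ j ∈ range (nr G t), w j := by
    have := hA.sum ℕ (fun _ => 1) (fun _ _ _ => rfl)
    rw [sum_const, card_powersetCard, card_univ] at this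
    simp only [smul_eq_mul, mul_one] at this
    rw [this, mul_sum]
    exact sum_congr rfl fun j hj => ho j (mem_range.1 hj)
  have wpos : ∀ j < nr G t, 1 ≤ w j := fun j hj => by
    have := orb_pos (H := G) (A j)
    rw [ho j hj] at this
    exact Nat.pos_of_mul_pos_left this
  have apos : ∀ l < nr G (t + 1), ∀ j < nr G t, 1 ≤ dn G (A j) (C l) := fun l hl j hj =>
    hc.hh.dn_pos (hA.card j hj) (hC.card l hl)
  have asum : ∀ l < nr G (t + 1), ∑ j ∈ range (nr G t), dn G (A j) (C l) = t + 1 := by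
    intro l hl
    rw [← k2 _ (hC.card l hl), sum_img hA]
    exact sum_congr rfl fun j _ => by rw [dn, dn, orb_eq (rep_mem _)]
  have bsum : ∀ j < nr G t, ∑ l ∈ range (nr G (t + 1)), up G (A j) (C l)
      = Fintype.card α - t := by
    intro j hj
    rw [← k3 _ (hA.card j hj), sum_img hC]
    exact sum_congr rfl fun l _ => by rw [up, up, orb_eq (rep_mem _)]
  have prop : ∀ l < nr G (t + 1), ∀ i < nr G t, ∀ j < nr G t,
      w i * up G (A i) (C l) * dn G (A j) (C l) = w j * up G (A j) (C l) * dn G (A i) (C l) := by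
    intro l _ i hi j hj
    refine Nat.eq_of_mul_eq_mul_left γ0 ?_
    have a := double_count (H := G) (A i) (C l)
    have b := double_count (H := G) (A j) (C l)
    rw [ho i hi] at a
    rw [ho j hj] at b
    rw [← mul_assoc, ← mul_assoc, a, ← mul_assoc, ← mul_assoc, b]; ring
  have hW : ∀ j < nr G t, ∑ i ∈ range (nr G t), w i ≤ (t + 1) * w j := by
    intro j hj
    refine Nat.le_of_mul_le_mul_right (c := Fintype.card α - t) ?_ (by omega)
    calc _ = ∑ i ∈ range (nr G t), ∑ l ∈ range (nr G (t + 1)), w i * up G (A i) (C l) := by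
          rw [sum_mul]
          exact sum_congr rfl fun i hi => by rw [← mul_sum, bsum i (mem_range.1 hi)]
      _ = ∑ l ∈ range (nr G (t + 1)), ∑ i ∈ range (nr G t), w i * up G (A i) (C l) := sum_comm
      _ ≤ ∑ l ∈ range (nr G (t + 1)), (t + 1) * w j * up G (A j) (C l) := by
          refine sum_le_sum fun l hl => ?_
          have hl' := mem_range.1 hl
          calc _ ≤ ∑ i ∈ range (nr G t), w j * up G (A j) (C l) * dn G (A i) (C l) :=
                sum_le_sum fun i hi => by
                  rw [← prop l hl' i (mem_range.1 hi) j hj]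
                  exact Nat.le_mul_of_pos_right _ (apos l hl' j hj)
            _ = _ := by rw [← mul_sum, asum l hl']; ring
      _ = _ := by rw [← mul_sum, bsum j hj]
  have hG : ∀ j < nr G t, Nat.card G = γ * (w j * Nat.card (st G (A j))) := fun j hj => by
    rw [← mul_assoc, ← ho j hj, orb_mul_st]
  refine ⟨nr G (t + 1), γ, Nat.card G / γ, w, fun l j => dn G (A j) (C l),
    fun l j => up G (A j) (C l), ⟨tot, ?_, ?_, wpos, k1 hn, apos, ?_, asum, bsum, prop, ?_, ?_⟩,
    ?_, ?_, ?_⟩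
  · intro p hp
    by_contra h
    push Not at h
    have : γ * p ∣ γ * 1 := by
      rw [mul_one]
      conv_rhs => rw [hγ]
      exact dvd_gcd fun j hj => by
        rw [ho j (mem_range.1 hj)]; exact mul_dvd_mul_left _ (h j (mem_range.1 hj))
    exact hp.one_lt.ne' (Nat.dvd_one.1 (Nat.dvd_of_mul_dvd_mul_left γ0 this))
  · intro i j hij hj
    rw [hw]
    exact Nat.div_le_div_right (hA.mono i j hij hj)
  · intro l hl j hj
    have a := double_count (H := G) (A j) (C l)
    have b := Nat.mul_pos (orb_pos (H := G) (C l)) (apos l hl j hj)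
    rw [← a] at b
    exact Nat.pos_of_mul_pos_left b
  · obtain ⟨x, x0, x1, x2⟩ := hvp α G t i A hA hc.hh hi hi' hit hn
    have γ' : (0 : ℝ) < γ := by exact_mod_cast γ0
    have s : ∀ f : ℕ → ℝ, ∑ j ∈ range (nr G t), ((orb G (A j)).card : ℝ) * f j
        = γ * ∑ j ∈ range (nr G t), (w j : ℝ) * f j := fun f => by
      rw [mul_sum]
      exact sum_congr rfl fun j hj => by rw [ho j (mem_range.1 hj)]; push_cast; ring
    have s' : ∀ f : ℕ → ℝ, ∑ j ∈ range (nr G t),
        (((t : ℝ) + 1) * (orb G (A j)).card - (Fintype.card α).choose t) * f j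
        = γ * ∑ j ∈ range (nr G t),
          (((t : ℝ) + 1) * w j - ∑ i ∈ range (nr G t), (w i : ℝ)) * f j := fun f => by
      rw [mul_sum]
      exact sum_congr rfl fun j hj => by rw [ho j (mem_range.1 hj), tot]; push_cast; ring
    rw [s] at x1
    rw [s (fun j => x j ^ 2), s'] at x2
    refine ⟨x, x0, (mul_eq_zero.1 x1).resolve_left γ'.ne', le_of_mul_le_mul_left ?_ γ'⟩
    push_cast
    refine le_trans (le_of_eq ?_) (x2.trans (le_of_eq ?_)) <;> ring
  · intro h2
    obtain ⟨-, a, a1, a2, a3, a4⟩ := hr2 α G t i B₀ A₀ hc h2.le hi hi' hit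
    have e0 : (orb G A₀).card = γ * w j₀ := by rw [orb_eq hj₀', ho j₀ hj₀]
    have e1 : ∑ j ∈ range (nr G t), w j = w 0 + w 1 := by rw [h2]; simp [sum_range_succ]
    have e2 : w j₀ = w 0 ∨ w j₀ = w 1 := by
      have : j₀ = 0 ∨ j₀ = 1 := by omega
      rcases this with rfl | rfl <;> simp
    have e3 := hW j₀ hj₀
    have e4 := wpos 0 (by omega)
    rw [e1] at tot e3
    refine ⟨a, w j₀, a1, by omega, e2, ?_, two_ineq hit hn a2 (by omega) (by omega) e3 ?_⟩
    · refine Nat.eq_of_mul_eq_mul_left γ0 ?_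
      rw [show Fintype.card α + 1 - (i + 1) = Fintype.card α - i by omega,
        show Fintype.card α + 1 - t - (i + 1) = Fintype.card α - t - i by omega,
        ← mul_assoc, ← mul_assoc γ, ← e0, ← tot, a3]
    · intro v hv
      refine a4 _ v rfl ?_
      rw [tot, e0]
      push_cast at hv ⊢
      linear_combination (γ : ℝ) * hv
  · rw [hG j₀ hj₀, Nat.mul_div_cancel_left _ γ0]
  · intro j hj
    rw [hG j hj, Nat.mul_div_cancel_left _ γ0]
    exact dvd_mul_right _ _
  · have : Nat.card G ∣ γ * (t ! * e) := by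
      have g := gcd_mul_right (s := range (nr G t)) (f := fun j => (orb G (A j)).card)
        (a := t ! * e)
      rw [normalize_eq, ← hγ] at g
      rw [← g]
      refine dvd_gcd fun j hj => ?_
      have hj' := mem_range.1 hj
      rw [← orb_mul_st G (A j)]
      refine mul_dvd_mul_left _ ((card_st_dvd (A j)).trans ?_)
      rw [hA.card j hj']
      exact mul_dvd_mul_left _ (he _ (hA.card j hj'))
    rw [hG j₀ hj₀] at this ⊢
    rw [Nat.mul_div_cancel_left _ γ0]
    exact Nat.dvd_of_mul_dvd_mul_left γ0 this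

end Pool.Agent.H5Hom
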