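import Pool.Agent.Lib.MP_078193_al.NBlue

/-! Counting the `t`-sets invariant under an involution. -/

open Finset Equiv
open scoped Pointwise Nat

set_option linter.unusedSectionVars false

namespace Pool.Agent.H5Hom

namespace INV

variable {α : Type} [Fintype α] [DecidableEq α]

lemma card_le_desc {H : Subgroup (Perm α)} {Ω : Finset α} (hi : Inv H Ω) (S : Finset α)
    (hS : S ⊆ Ω) : Nat.card H ≤ Ω.card.descFactorial S.card * Nat.card (fx H S) := by
  induction S using Finset.induction_on with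
  | empty => simp [fx_empty]
  | insert x S hxS ih =>
    have hS' : S ⊆ Ω := (subset_insert _ _).trans hS
    have h1 : orb (fx H S) x ⊆ Ω \ S := by
      intro y hy
      obtain ⟨g, hg, rfl⟩ := mem_orb.1 hy
      refine mem_sdiff.2 ⟨hi g hg.1 x (hS (mem_insert_self _ _)), fun h' => hxS ?_⟩
      have := hg.2 _ h'
      simp only [Perm.smul_def, EmbeddingLike.apply_eq_iff_eq] at this h'
      rwa [this] at h'
    have h2 := card_le_card h1
    rw [card_sdiff_of_subset hS'] at h2
    rw [card_insert_of_notMem hxS, Nat.descFactorial_succ]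
    refine (ih hS').trans ?_
    rw [← orb_fx_mul S x]
    calc _ ≤ Ω.card.descFactorial S.card * ((Ω.card - S.card) * Nat.card (fx H (insert x S))) := by
          gcongr
      _ = _ := by ring

open Classical in
lemma fibre_le (G : Subgroup (Perm α)) {z : Perm α} (hz : z ∈ G) (A : Finset α) :
    ((orb G A).filter (fun B => z • B = B)).card
      ≤ Nat.card (G ⊓ Subgroup.centralizer {z} : Subgroup (Perm α)) := by
  set K := univ.filter (fun g : Perm α => g ∈ G ∧ z • g • A = g • A) with hK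
  have h1 : K.card ≤ Nat.card (G ⊓ Subgroup.centralizer {z} : Subgroup (Perm α))
      * (univ.filter (fun g => g ∈ st G A)).card := by
    refine card_le_cent G z (fun k hk k' hk' => ?_) (fun k hk => ?_)
    · exact G.mul_mem (mem_filter.1 hk).2.1 (G.inv_mem (mem_filter.1 hk').2.1)
    · obtain ⟨h1, h2⟩ := (mem_filter.1 hk).2
      refine mem_filter.2 ⟨mem_univ _, mem_st.2 ⟨G.mul_mem (G.mul_mem (G.inv_mem h1) hz) h1, ?_⟩⟩
      rw [mul_smul, mul_smul, h2, inv_smul_smul]
  have h2 : Nat.card (st G A) * ((orb G A).filter (fun B => z • B = B)).card ≤ K.card := by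
    refine mul_card_image_le_card_of_maps_to (f := fun g : Perm α => g • A) (fun g hg => ?_) _
      (fun B hB => ?_)
    · obtain ⟨h1, h2⟩ := (mem_filter.1 hg).2
      exact mem_filter.2 ⟨mem_orb.2 ⟨g, h1, rfl⟩, h2⟩
    · obtain ⟨h1, h2⟩ := mem_filter.1 hB
      obtain ⟨g, hg, rfl⟩ := mem_orb.1 h1
      rw [← card_coset (st G A) g]
      refine card_le_card fun k hk => ?_
      obtain ⟨h3, h4⟩ := mem_st.1 (mem_filter.1 hk).2
      rw [mul_smul, inv_smul_eq_iff] at h4
      refine mem_filter.2 ⟨mem_filter.2 ⟨mem_univ _, by simpa using G.mul_mem hg h3, ?_⟩, h4⟩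
      rw [h4, h2]
  rw [card_mem] at h1
  have h3 : 0 < Nat.card (st G A) := Nat.card_pos
  have h4 := h2.trans h1
  rw [mul_comm] at h4
  exact Nat.le_of_mul_le_mul_right h4 h3

open Classical in
lemma inv_sets_le (G : Subgroup (Perm α)) {z : Perm α} (hz : z ∈ G) (t : ℕ) :
    ((powersetCard t (univ : Finset α)).filter (fun B => z • B = B)).card
      ≤ nr G t * Nat.card (G ⊓ Subgroup.centralizer {z} : Subgroup (Perm α)) := by
  rw [mul_comm]
  refine card_le_mul_card_image_of_maps_to (f := orb G)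
    (t := (powersetCard t (univ : Finset α)).image (orb G))
    (fun B hB => mem_image_of_mem _ (mem_filter.1 hB).1) _ fun O hO => ?_
  obtain ⟨A, -, rfl⟩ := mem_image.1 hO
  refine le_trans (card_le_card fun B hB => ?_) (fibre_le G hz A)
  obtain ⟨h1, h2⟩ := mem_filter.1 hB
  exact mem_filter.2 ⟨orb_eq_iff.1 h2, (mem_filter.1 h1).2⟩

lemma card_union3 {z : Perm α} {Z F U W : Finset α} (hZ : ∀ x ∈ Z, z x ∉ Z)
    (hF : ∀ x ∈ F, z x = x) (hU : U ⊆ Z) (hW : W ⊆ F) :
    (U ∪ z • U ∪ W).card = 2 * U.card + W.card := by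
  rw [card_union_of_disjoint, card_union_of_disjoint, card_smul, two_mul]
  · refine disjoint_left.2 fun x hx hx' => ?_
    have := hZ _ (hU (mem_smul.1 hx'))
    rw [ap_inv] at this
    exact this (hU hx)
  · refine disjoint_left.2 fun x hx hx' => ?_
    have h1 := hF x (hW hx')
    rcases mem_union.1 hx with h | h
    · exact hZ x (hU h) (h1.symm ▸ hU h)
    · have h2 : z⁻¹ x = x := by rw [Perm.inv_eq_iff_eq, h1]
      have h3 := mem_smul.1 h
      rw [h2] at h3
      exact hZ x (hU h3) (h1.symm ▸ hU h3)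

open Classical in
lemma le_inv_sets {z : Perm α} (hz : z * z = 1) {Z F : Finset α} (hZ : ∀ x ∈ Z, z x ∉ Z)
    (hF : ∀ x ∈ F, z x = x) (t : ℕ) :
    Z.card.choose (t / 2) * F.card.choose (t % 2)
      ≤ ((powersetCard t (univ : Finset α)).filter (fun B => z • B = B)).card := by
  rw [← card_powersetCard, ← card_powersetCard, ← card_product]
  have key : ∀ U W : Finset α, U ⊆ Z → W ⊆ F →
      (U ∪ z • U ∪ W) ∩ Z = U ∧ (U ∪ z • U ∪ W) ∩ F = W := by
    intro U W hU hW
    constructor
    · ext x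
      simp only [mem_inter, mem_union]
      refine ⟨?_, fun h => ⟨Or.inl (Or.inl h), hU h⟩⟩
      rintro ⟨(h | h) | h, h'⟩
      · exact h
      · have := hZ _ (hU (mem_smul.1 h))
        rw [ap_inv] at this
        exact absurd h' this
      · exact absurd ((hF x (hW h)).symm ▸ h') (hZ x h')
    · ext x
      simp only [mem_inter, mem_union]
      refine ⟨?_, fun h => ⟨Or.inr h, hW h⟩⟩
      rintro ⟨(h | h) | h, h'⟩
      · exact absurd ((hF x h').symm ▸ hU h) (hZ x (hU h))
      · have h2 : z⁻¹ x = x := by rw [Perm.inv_eq_iff_eq, hF x h']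
        have h3 := mem_smul.1 h
        rw [h2] at h3
        exact absurd ((hF x h').symm ▸ hU h3) (hZ x (hU h3))
      · exact h
  refine card_le_card_of_injOn (fun q => q.1 ∪ z • q.1 ∪ q.2) ?_ ?_
  · rintro ⟨U, W⟩ hq
    obtain ⟨h1, h2⟩ := mem_product.1 (mem_coe.1 hq)
    obtain ⟨h1, h1'⟩ := mem_powersetCard.1 h1
    obtain ⟨h2, h2'⟩ := mem_powersetCard.1 h2
    refine mem_coe.2 (mem_filter.2 ⟨mem_lev.2 ?_, ?_⟩)
    · dsimp only at *
      rw [card_union3 hZ hF h1 h2]
      omega
    · dsimp only at *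
      have h3 : z • W = W := by
        rw [smul_eq_image]
        exact (image_congr (g := id) fun x hx => hF x (h2 hx)).trans image_id
      rw [smul_finset_union, smul_finset_union, ← mul_smul, hz, one_smul, h3, union_comm (z • U)]
  · rintro ⟨U, W⟩ hq ⟨U', W'⟩ hq' h
    obtain ⟨h1, h2⟩ := mem_product.1 (mem_coe.1 hq)
    obtain ⟨h3, h4⟩ := mem_product.1 (mem_coe.1 hq')
    obtain ⟨a1, a2⟩ := key U W (mem_powersetCard.1 h1).1 (mem_powersetCard.1 h2).1
    obtain ⟨a3, a4⟩ := key U' W' (mem_powersetCard.1 h3).1 (mem_powersetCard.1 h4).1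
    dsimp only at h
    rw [h] at a1 a2
    rw [Prod.mk.injEq]
    exact ⟨a1.symm.trans a3, a2.symm.trans a4⟩

lemma exists_invol {G : Subgroup (Perm α)} {τ : ℕ} (ht : Tr G univ τ) (h2 : 2 ≤ τ)
    (hn : τ ≤ Fintype.card α) :
    ∃ z ∈ G, z * z = 1 ∧ z ≠ 1 ∧ τ ≤ (univ \ supp univ z).card + 2 := by
  obtain ⟨S, -, hS⟩ := exists_subset_card_eq (s := (univ : Finset α)) (n := τ)
    (by rwa [card_univ])
  obtain ⟨a, ha, b, hb, hab⟩ := one_lt_card.1 (show 1 < S.card by omega)
  obtain ⟨g, hg, hg'⟩ := ht S (subset_univ _) hS.le (swap a b) (swap a b).injective.injOn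
    (fun _ _ => mem_univ _)
  have e1 : g a = b := by rw [hg' a ha, swap_apply_left]
  have e2 : g b = a := by rw [hg' b hb, swap_apply_right]
  obtain ⟨j, hj, hj'⟩ := exists_inv (u := g) (a := a) (by rw [e1]; exact hab.symm)
    (by rw [e1, e2])
  refine ⟨g ^ j, G.pow_mem hg j, hj, hj', ?_⟩
  have h1 : (S.erase a).erase b ⊆ univ \ supp univ (g ^ j) := by
    intro x hx
    simp only [mem_erase] at hx
    have : g x = x := by rw [hg' x hx.2.2, swap_apply_of_ne_of_ne hx.2.1 hx.1]
    simp [mem_supp, Perm.pow_apply_eq_self_of_apply_eq_self this]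
  have h3 := card_le_card h1
  rw [card_erase_of_mem (mem_erase.2 ⟨hab.symm, hb⟩), card_erase_of_mem ha] at h3
  omega

end INV

open INV in
theorem invN_of : St_invN := by
  classical
  intro α _ _ G t τ htr ht h3 hτ hn
  obtain ⟨z, hzG, hz, hz1, hf⟩ := exists_invol ht (by omega) (by omega)
  set F := univ \ supp univ z with hFdef
  have hF : ∀ x, x ∈ F ↔ z x = x := by simp [hFdef, mem_supp]
  obtain ⟨Z, hZ, hZ'⟩ := exists_reps hz
  have hft : F.card < t := by
    by_contra h
    exact hz1 (htr z hzG F (by omega) fun x hx => (hF x).1 hx)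
  have h1 := card_union3 hZ' (fun x hx => (hF x).1 hx) subset_rfl (subset_refl F)
  have h2 := card_le_univ (Z ∪ z • Z ∪ F)
  have h4 : F.card = Fintype.card α - (supp univ z).card := by
    rw [hFdef, card_sdiff_of_subset (subset_univ _), card_univ]
  have h5 := card_le_univ (supp univ z)
  have hs : (supp univ z).card = 2 * Z.card := by omega
  refine ⟨F.card, Z.card, hf, hft, by omega, ?_⟩
  refine (le_inv_sets hz hZ' (fun x hx => (hF x).1 hx) t).trans
    ((inv_sets_le G hzG t).trans ?_)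
  rw [mul_assoc]
  refine Nat.mul_le_mul_left _ ?_
  set C : Subgroup (Perm α) := G ⊓ Subgroup.centralizer {z} with hC
  have hc : ∀ g ∈ C, ∀ x, z (g x) = g (z x) := fun g hg x => by
    rw [← Perm.mul_apply, ← Perm.mul_apply, Subgroup.mem_centralizer_singleton_iff.1 hg.2]
  have i1 : Inv C F := fun g hg x hx => (hF _).2 (by rw [hc g hg, (hF x).1 hx])
  have i2 : Inv (fx C F) (supp univ z) := fun g hg x hx => mem_supp.2 ⟨mem_univ _, by
    rw [hc g hg.1]
    exact fun h => (mem_supp.1 hx).2 (g.injective h)⟩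
  obtain ⟨S, hS, hS'⟩ := exists_subset_card_eq (s := Z) (n := (t + 1 - F.card) / 2) (by omega)
  have b1 := card_le_desc i1 F subset_rfl
  have b2 := card_le_desc i2 S fun x hx => mem_supp.2 ⟨mem_univ _, fun h =>
    hZ' x (hS hx) (h.symm ▸ hS hx)⟩
  have b3 : Nat.card (fx (fx C F) S) = 1 := by
    rw [Subgroup.card_eq_one, eq_bot_iff]
    intro g hg
    refine Subgroup.mem_bot.2 (htr g hg.1.1.1 (S ∪ z • S ∪ F) ?_ fun x hx => ?_)
    · rw [card_union3 hZ' (fun x hx => (hF x).1 hx) hS (subset_refl F)]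
      omega
    · rcases mem_union.1 hx with h | h
      · rcases mem_union.1 h with h | h
        · exact hg.2 x h
        · have e1 := hg.2 _ (mem_smul.1 h)
          have e2 := hc g hg.1.1 (z⁻¹ x)
          rw [e1, ap_inv] at e2
          exact e2.symm
      · exact hg.1.2 x h
  rw [b3, mul_one, hs, hS'] at b2
  rw [Nat.descFactorial_self] at b1
  exact b1.trans (Nat.mul_le_mul_left _ (b2.trans (Nat.descFactorial_le_pow _ _)))

end Pool.Agent.H5Hom
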