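import Pool.Agent.Lib.MP_078193_al.MAltJ
import Pool.Agent.Lib.MP_078193_al.MCof

/-! The theorem of Jordan on cycles of prime length. -/

open Finset Equiv MulAction
open scoped Pointwise

set_option linter.unusedSectionVars false

namespace Pool.Agent.H5Hom

namespace Jor

variable {α : Type} [Fintype α] [DecidableEq α] {H : Subgroup (Perm α)}

lemma tr_of_mult {j : ℕ} (h : IsMultiplyPretransitive H α j) (hj : j ≤ Fintype.card α) :
    Tr H univ j := by
  intro S _ hS φ hφ _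
  have h' : IsMultiplyPretransitive H α S.card :=
    isMultiplyPretransitive_of_le hS (by rwa [Nat.card_eq_fintype_card])
  obtain ⟨g, hg⟩ := isMultiplyPretransitive_iff.1 h'
    (S.equivFin.symm.toEmbedding.trans (Function.Embedding.subtype _))
    (S.equivFin.symm.toEmbedding.trans
      ⟨fun x => φ x, fun x y hxy => Subtype.ext (hφ x.2 y.2 hxy)⟩)
  refine ⟨g, g.2, fun x hx => ?_⟩
  have := congrArg (fun e : Fin S.card ↪ α => e (S.equivFin ⟨x, hx⟩)) hg
  simp only [Function.Embedding.smul_apply, Function.Embedding.trans_apply,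
    Equiv.symm_apply_apply, Function.Embedding.subtype_apply,
    Function.Embedding.coeFn_mk] at this
  exact this

lemma cyc {z : Perm α} {q : ℕ} (hq : q.Prime) (hzq : z ^ q = 1) (hs : z.support.card = q) :
    orderOf z = q ∧ z.IsCycle := by
  have : Fact q.Prime := ⟨hq⟩
  have hq2 := hq.two_le
  have hz1 : z ≠ 1 := by
    rintro rfl
    rw [Perm.support_one, card_empty] at hs
    omega
  have ho : orderOf z = q := orderOf_eq_prime hzq hz1
  exact ⟨ho, Perm.isCycle_of_prime_order (ho ▸ hq) (by omega)⟩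

/-- a cycle of prime length with `j` fixed points gives `(j+1)`-fold transitivity -/
theorem tr_of_cycle {q j : ℕ} (hq : q.Prime) (hj : 1 ≤ j) (hc : Fintype.card α = q + j)
    (h2 : Hom H univ 2) {z : Perm α} (hz : z ∈ H) (hzq : z ^ q = 1)
    (hs : (supp univ z).card = q) : Tr H univ (j + 1) := by
  classical
  have hq2 := hq.two_le
  have hp := AltJ.prim (by omega) h2
  rw [AltJ.supp_univ] at hs
  have : Fact q.Prime := ⟨hq⟩
  obtain ⟨ho, hcyc⟩ := cyc hq hzq hs
  obtain ⟨n, rfl⟩ : ∃ n, j = n + 1 := ⟨j - 1, by omega⟩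
  have hsc : Set.ncard ((z.support)ᶜ : Set α) = n + 1 := by
    apply Nat.add_left_cancel (n := q)
    rw [← hc, ← hs, ← Set.ncard_coe_finset, Set.ncard_add_ncard_compl, Nat.card_eq_fintype_card]
  refine tr_of_mult ?_ (by omega)
  suffices IsMultiplyPreprimitive H α (n + 2) from IsMultiplyPreprimitive.isMultiplyPretransitive ..
  apply hp.isMultiplyPreprimitive hsc
  · rw [Nat.card_eq_fintype_card]; omega
  have := Perm.isPretransitive_of_isCycle_mem hcyc hz
  apply IsPreprimitive.of_prime_card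
  convert! hq
  rw [Nat.card_eq_fintype_card, Fintype.card_subtype, ← hs]
  apply congr_arg
  ext x
  simp [SubMulAction.mem_ofFixingSubgroup_iff]

lemma syl_of_card {p : ℕ} (hp : p.Prime) {F : Finset α} (hF : Fᶜ.card = p) {Z : Subgroup (Perm α)}
    (h : Z ≤ fx H F) (hZ : Nat.card Z = p) : Syl p (fx H F) Z := by
  obtain ⟨Q, h1, h2⟩ := exists_syl hp h (hZ.trans (pow_one p).symm)
  have hi : Inv Q Fᶜ := fun g hg x hx => mem_compl.2 fun h' => mem_compl.1 hx (by
    rwa [g.injective ((h2.1 hg).2 _ h')] at h')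
  obtain ⟨y, hy⟩ : Fᶜ.Nonempty := card_pos.1 (hF ▸ hp.pos)
  obtain ⟨a, -, ha⟩ := (Nat.dvd_prime_pow hp).1
    (h2.2 ▸ Subgroup.card_dvd_of_le (show st Q y ≤ Q from inf_le_left))
  have h3 : Fᶜ.erase y ⊆ fixs (st Q y) := by
    refine subset_fixs hp ha (fun g hg x hx => ?_) (by rw [card_erase_of_mem hy]; have := hp.pos; omega)
    obtain ⟨g1, g2⟩ := mem_st.1 hg
    obtain ⟨x1, x2⟩ := mem_erase.1 hx
    exact mem_erase.2 ⟨fun e => x1 (g.injective (e.trans g2.symm)), hi g g1 x x2⟩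
  have h4 : st Q y = ⊥ := by
    refine eq_bot_iff.2 fun g hg => Subgroup.mem_bot.2 (Perm.ext fun x => ?_)
    obtain ⟨g1, g2⟩ := mem_st.1 hg
    by_cases hx : x ∈ F
    · exact (h2.1 g1).2 x hx
    by_cases hxy : x = y
    · rw [hxy]; exact g2
    · exact mem_fixs.1 (h3 (mem_erase.2 ⟨hxy, mem_compl.2 hx⟩)) g hg
  have h5 := orb_mul_st Q y
  rw [h4, Subgroup.card_bot, mul_one] at h5
  have h6 : (orb Q y).card ≤ p := by
    rw [← hF]
    refine card_le_card fun x hx => ?_
    obtain ⟨g, hg, rfl⟩ := mem_orb.1 hx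
    exact hi g hg y hy
  have h7 : Z = Q := Subgroup.eq_of_le_of_card_ge h1 (by omega)
  rwa [h7]

lemma exists_norm {p : ℕ} (hp : p.Prime) {F : Finset α} (hF : Fᶜ.card = p) {Z : Subgroup (Perm α)}
    (h : Z ≤ fx H F) (hZ : Nat.card Z = p) {g : Perm α} (hg : g ∈ H) (hgF : ∀ x ∈ F, g x ∈ F) :
    ∃ m ∈ Cof.NN H Z, ∀ x ∈ F, m x = g x := by
  set Q' := Z.map (MulAut.conj g).toMonoidHom with hQ'
  have hm : ∀ x, x ∈ Q' ↔ g⁻¹ * x * g ∈ Z := by
    intro x
    constructor
    · rintro ⟨y, hy, rfl⟩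
      simpa [mul_assoc] using hy
    · intro hx
      exact ⟨_, hx, by simp [mul_assoc]⟩
  have h1 : Q' ≤ fx H F := by
    intro x hx
    obtain ⟨a, b⟩ := h ((hm x).1 hx)
    refine ⟨?_, fun y hy => ?_⟩
    · have := H.mul_mem (H.mul_mem hg a) (H.inv_mem hg)
      simpa [mul_assoc] using this
    · have e := b (g⁻¹ y) ((mem_iff_of_maps hgF _).1 (by rwa [ap_inv]))
      simp only [Perm.mul_apply, ap_inv] at e
      exact g⁻¹.injective e
  have h2 : Nat.card Q' = p := by
    rw [hQ', Subgroup.card_map_of_injective (MulAut.conj g).injective, hZ]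
  obtain ⟨k, hk, hk'⟩ := (syl_of_card hp hF h1 h2).conj hp (syl_of_card hp hF h hZ)
  refine ⟨k * g, ⟨H.mul_mem hk.1 hg, Subgroup.mem_normalizer_iff''.2 fun x => ?_⟩,
    fun x hx => hk.2 _ (hgF x hx)⟩
  rw [hk', hm, mul_inv_rev]
  simp only [mul_assoc]

end Jor

open Jor in
/-- Jordan: a `2`-homogeneous group with a cycle of prime length and three fixed points is
alternating or symmetric -/
theorem jordan_alt {α : Type} [Fintype α] [DecidableEq α] {H : Subgroup (Perm α)} {p : ℕ}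
    (hp : p.Prime) (hn : p + 3 ≤ Fintype.card α) (h2 : Hom H univ 2) {z : Perm α} (hz : z ∈ H)
    (hzp : z ^ p = 1) (hs : (supp univ z).card = p) : Alt3 H univ := by
  obtain ⟨j, hj⟩ : ∃ j, Fintype.card α = p + j := ⟨Fintype.card α - p, by omega⟩
  have ht := tr_of_cycle hp (by omega) hj h2 hz hzp hs
  rw [AltJ.supp_univ] at hs
  obtain ⟨ho, hcyc⟩ := cyc hp hzp hs
  set F := z.supportᶜ with hF
  have hFc : Fᶜ.card = p := by rw [hF, compl_compl, hs]
  have hFj : F.card = j := by rw [hF, card_compl]; omega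
  have hZ : Nat.card (Subgroup.zpowers z) = p := by rw [Nat.card_zpowers, ho]
  have hZF : Subgroup.zpowers z ≤ fx H F := by
    rw [Subgroup.zpowers_le]
    exact ⟨hz, fun x hx => by simpa [hF] using hx⟩
  obtain ⟨a, b, c, ha, hb, hc, hab, hac, hbc⟩ := two_lt_card_iff.1 (show 2 < F.card by omega)
  have key : ∀ u ∈ F, ∀ v ∈ F, ∃ m ∈ Cof.NN H (Subgroup.zpowers z), ∀ x ∈ F, m x = swap u v x := by
    intro u hu v hv
    have hs' : ∀ x ∈ F, swap u v x ∈ F := fun x hx => by
      rw [swap_apply_def]; split_ifs <;> assumption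
    obtain ⟨g, hg, hg'⟩ := ht F (subset_univ _) (by omega) (swap u v)
      (swap u v).injective.injOn (fun _ _ => mem_univ _)
    obtain ⟨m, hm, hm'⟩ := exists_norm hp hFc hZF hZ hg fun x hx => hg' x hx ▸ hs' x hx
    exact ⟨m, hm, fun x hx => (hm' x hx).trans (hg' x hx)⟩
  obtain ⟨m, hm, hm'⟩ := key a ha b hb
  obtain ⟨n, hn', hn''⟩ := key a ha c hc
  obtain ⟨w1, w2⟩ := Cof.mem_CC.1 (Cof.comm_mem hp hZ hn' hm)
  set w := (m * n)⁻¹ * (n * m) with hw
  have hwz : Commute z w := w2 z (Subgroup.mem_zpowers z)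
  obtain ⟨y, hy⟩ : z.support.Nonempty := card_pos.1 (hs ▸ hp.pos)
  have hy' := Perm.mem_support.1 hy
  have hwy : z (w y) ≠ w y := fun e => hy' (w.injective (by
    rw [← Perm.mul_apply, ← hwz.eq, Perm.mul_apply, e]))
  obtain ⟨i, hi⟩ := hcyc.exists_pow_eq hy' hwy
  have hfix : ∀ x ∈ F, (z ^ i)⁻¹ x = x := fun x hx =>
    (hZF ((Subgroup.zpowers z).inv_mem (Subgroup.npow_mem_zpowers z i))).2 x hx
  have hwF : ∀ x ∈ F, ∀ x' ∈ F, m (n x') = n (m x) → ((z ^ i)⁻¹ * w) x = x' := by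
    intro x _ x' hx' e
    have : w x = x' := by
      rw [hw, Perm.mul_apply, Perm.inv_eq_iff_eq, Perm.mul_apply, Perm.mul_apply, e]
    rw [Perm.mul_apply, this, hfix x' hx']
  refine alt3_of_small inv_univ (ht.mono (by omega)) (by rw [card_univ]; omega)
    (h := (z ^ i)⁻¹ * w) (H.mul_mem (H.inv_mem (H.pow_mem hz i)) w1) ⟨a, mem_supp.2 ⟨mem_univ _, ?_⟩⟩
    ((card_le_card (t := {a, b, c}) fun x hx => ?_).trans card_le_three)
  · rw [hwF a ha c hc]
    · exact hac.symm
    · rw [hn'' c hc, swap_apply_right, hm' a ha, swap_apply_left, hn'' b hb,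
        swap_apply_of_ne_of_ne hab.symm hbc]
  · by_contra hx'
    simp only [mem_insert, mem_singleton, not_or] at hx'
    refine (mem_supp.1 hx).2 ?_
    by_cases hxF : x ∈ F
    · refine hwF x hxF x hxF ?_
      have e1 : m x = x := by rw [hm' x hxF, swap_apply_of_ne_of_ne hx'.1 hx'.2.1]
      have e2 : n x = x := by rw [hn'' x hxF, swap_apply_of_ne_of_ne hx'.1 hx'.2.2]
      rw [e1, e2, e1]
    · obtain ⟨l, rfl⟩ := hcyc.exists_pow_eq hy' (show z x ≠ x by simpa [hF] using hxF)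
      rw [Perm.mul_apply, Perm.inv_eq_iff_eq, ← Perm.mul_apply, ← (hwz.pow_left l).eq,
        Perm.mul_apply, ← hi, ← Perm.mul_apply, ← Perm.mul_apply, ← pow_add, ← pow_add, add_comm]

end Pool.Agent.H5Hom
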