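import Pool.Agent.Lib.MP_078193_al.NBlue
import Pool.Agent.Lib.MP_078193_al.NJordan

/-! Block JALT: the theorem of Jordan on cycles of prime length. -/

namespace Pool.Agent.H5Hom

theorem jtr_of : St_jtr := fun _ _ _ _ _ hp hn h2 _ hz hzp hs =>
  Jor.tr_of_cycle hp (by omega) (by omega) h2 hz hzp hs

theorem jalt_of : St_jalt := fun _ _ _ _ _ hp hn h2 _ hz hzp hs =>
  jordan_alt hp hn h2 hz hzp hs

end Pool.Agent.H5Hom
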