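import Mathlib

/-! The arithmetic shadow of a counterexample in which only the identity fixes `t + 1` points. -/

open Finset
open scoped Nat

namespace Pool.Agent.H5Hom

/-- criterion for the group induced on a canonical `j`-set to contain the alternating group -/
def GiP (j τ d r : ℕ) : Prop :=
  3 ≤ d ∧ 5 ≤ j ∧
    ((∃ k, 3 ≤ k ∧ k < j ∧ (j - k).Prime ∧ (k < τ ∨ (k + 1 < d ∧ 2 * k + 2 ≤ j))) ∨
      r ≤ ((range j).filter (fun k => 3 ≤ k ∧ 2 * k + 2 ≤ j ∧ (j - k).Prime)).card)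

/-- some `t`-set may have a nontrivial pointwise stabiliser -/
def ModeB (t n : ℕ) : Prop :=
  ∃ e, 3 ≤ e ∧ e % 2 = 1 ∧ e ∣ n - t ∧ 3 * e + 1 ≤ t ∧ n * e + t ≤ t * t

/-- consequences of an element of order `p` with at least `j` fixed points -/
def Good (t n r ψ g p j : ℕ) : Prop :=
  p ∣ g ∧ (∃ f, j ≤ f ∧ f ≤ ψ ∧ p ∣ n - f) ∧ ((t + 1) % p ≤ j → r ≤ (t + 1) / p + (t + 1) % p)

/-- orbits on `t`-sets have sizes `γ * w j`; `a`, `b` are the incidence numbers with the `m`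
orbits on `(t+1)`-sets -/
structure Inc (t n d r m γ : ℕ) (w : ℕ → ℕ) (a b : ℕ → ℕ → ℕ) : Prop where
  tot : n.choose t = γ * ∑ j ∈ range r, w j
  prim : ∀ p : ℕ, p.Prime → ∃ j < r, ¬ p ∣ w j
  mono : ∀ i j, i ≤ j → j < r → w i ≤ w j
  wpos : ∀ j < r, 1 ≤ w j
  rm : r ≤ m
  apos : ∀ l < m, ∀ j < r, 1 ≤ a l j
  bpos : ∀ l < m, ∀ j < r, 1 ≤ b l j
  asum : ∀ l < m, ∑ j ∈ range r, a l j = t + 1
  bsum : ∀ j < r, ∑ l ∈ range m, b l j = n - t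
  prop : ∀ l < m, ∀ i < r, ∀ j < r, w i * b l i * a l j = w j * b l j * a l i
  vp : ∃ x : ℕ → ℝ, (∃ j < r, x j ≠ 0) ∧ ∑ j ∈ range r, (w j : ℝ) * x j = 0 ∧
    ((t : ℝ) + 1 - r) * ((t + 1 - d) * (n - t - d)) * (t + 1) * ∑ j ∈ range r, (w j : ℝ) * x j ^ 2
      ≤ ((n : ℝ) - t) * ∑ j ∈ range r, (((t : ℝ) + 1) * w j - ∑ i ∈ range r, (w i : ℝ))
        * (∑ i ∈ range r, x i + ((t : ℝ) + 1 - r) * x j) ^ 2
  two : r = 2 → ∃ c u, 1 ≤ c ∧ c < t ∧ (u = w 0 ∨ u = w 1) ∧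
    u * (c * d * (n + 1 - d)) = (w 0 + w 1) * ((t - d) * (n + 1 - t - d) * (t - c)) ∧
    (t + 1 - d) * (n - t - d) * (t + 1) * u * (w 0 + w 1 - u)
      ≤ ((t - c) * (w 0 + w 1) - (t + 1) * u) * ((t + 1) * u - (w 0 + w 1)) * (n - t)

open Classical in
/-- `d` first non-homogeneous level, `τ` degree of transitivity, `r` number of orbits on `t`-sets,
`ψ` bound for the number of fixed points, `g` group order, `ν i` number of orbits on `i`-sets -/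
structure Facts (t n d τ r ψ g : ℕ) (ν : ℕ → ℕ) : Prop where
  ht : 6 ≤ t
  hn : 2 * t + 1 ≤ n
  hτ : τ + 1 ≤ d
  hd : d + 1 ≤ t
  r2 : 2 ≤ r
  rd : r ≤ d
  low : ∀ i < d, ν i = 1
  atd : 2 ≤ ν d
  mono : ∀ i < t, ν i ≤ ν (i + 1)
  top : ν t = r
  hψ : ψ ≤ t
  modeB : ψ = t → ModeB t n
  lw2 : τ + 3 ≤ d → ψ ≤ τ
  var : (n - t) * (r * (t + 1 - r + 2) + 2 * (t + 1 - r)) ≤ d * (n + 1 - d) * (t + 1 - r + 2)
  tr : ∀ p j : ℕ, p.Prime → j < τ → p ∣ n - j → Good t n r ψ g p j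
  jump : ∀ p j : ℕ, p.Prime → j < t → j + 1 < p → p ∣ n - j → ν j = ν (j + 1) →
    Good t n r ψ g p j
  ord : ∀ p : ℕ, p.Prime → p ∣ g → Good t n r ψ g p (n % p)
  s1 : ∀ p j : ℕ, p.Prime → t < p → j < t → p ∣ n - j → p ∣ g →
    ∀ i ≤ j, j.choose i ≤ ν i * (n - j - 1)
  s2 : ∀ p j : ℕ, p.Prime → t < p → j < t → p ∣ n - j → p ∣ g → ¬ p * p ∣ n - j →
    (3 ≤ d → 4 ≤ j → j ∣ n - j) ∧
    ∀ k, k + 2 ≤ j → (k + 1 ≤ τ ∨ (GiP j τ d r ∧ k + 3 ≤ j)) → j.descFactorial k ∣ n - j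
  syl : ∀ p j : ℕ, p.Prime → t < p → j < t → p ∣ n - j → p ∣ g → ¬ p * p ∣ g →
    ∃ k, k ∣ g / p ∧ k ∣ (p - 1) * ((n - j) / p) ∧ (∀ i ≤ j, i < d → j.choose i ∣ k) ∧
      g / p ≡ k [MOD p]
  hom : n.choose (d - 1) ∣ g
  b0 : ψ < t → d = τ + 1 → 4 * (n - τ).descFactorial (t - τ)
    ≤ r * t ! * (t - τ - 1)! * Nat.lcmUpto (t - τ - 1)
      * (n - τ) ^ (2 + ((Ico (2 * τ + 2) t).filter (fun j => ¬ GiP j τ d r)).card)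
  b1 : ψ < t → d = τ + 2 → ∃ a, 2 ≤ a ∧ 2 * (n - τ).descFactorial (t - τ)
    ≤ r * t ! * (t - τ - 1)! * Nat.lcmUpto (t - τ - 1)
      * (n - τ) ^ (1 + ((Ico (τ + 1) t).filter
        (fun j => a ∣ j - τ ∧ (¬ GiP j τ d r ∨ j = τ + 2))).card)
  ordr : τ + 3 ≤ d → n.choose t ≤ r * n.descFactorial (τ + 1)
  inv : ψ < t → 3 ≤ τ → ∃ f M, τ ≤ f + 2 ∧ f < t ∧ f + 2 * M = n ∧
    M.choose (t / 2) * f.choose (t % 2) ≤ r * f ! * (2 * M) ^ ((t + 1 - f) / 2)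
  s13 : t = 6 → n = 13 → 3 ≤ d → ¬ 5 ∣ g ∧ g ≠ 1716
  s15 : t = 7 → n = 15 → r = 2 → d ≠ 5
  inc : ∃ m γ Λ e w a b, Inc t n d r m γ w a b ∧ g = γ * Λ ∧ (∀ j < r, w j ∣ Λ) ∧ Λ ∣ t ! * e ∧
    1 ≤ e ∧ e ≤ t ∧ e ∣ n - t ∧ (ψ < t → e = 1)

/-- the arithmetic theorem -/
def St_arith : Prop := ∀ (t n d τ r ψ g : ℕ) (ν : ℕ → ℕ), Facts t n d τ r ψ g ν → False

end Pool.Agent.H5Hom
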