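import Pool.Agent.Lib.MP_078193_al.MBlue2
import Pool.Agent.Lib.MP_078193_al.NFacts

/-! Statements of the group-theoretic blocks for the case `Triv G (t + 1)`. -/

open Finset Equiv
open scoped Pointwise Nat

set_option linter.unusedSectionVars false

namespace Pool.Agent.H5Hom

/-- the set stabiliser of `J` controls fusion of tuples in `J` -/
def Fus {α : Type} [Fintype α] [DecidableEq α] (G : Subgroup (Perm α)) (J : Finset α) : Prop :=
  ∀ I ⊆ J, ∀ g ∈ G, (∀ x ∈ I, g x ∈ J) → ∃ u ∈ st G J, ∀ x ∈ I, u x = g x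

def St_jump : Prop := ∀ (α : Type) [Fintype α] [DecidableEq α] (H : Subgroup (Perm α)) (i p : ℕ),
  p.Prime → i + 1 < p → 2 * i + 1 ≤ Fintype.card α → p ∣ Fintype.card α - i →
  nr H i = nr H (i + 1) → ∃ J : Finset α, J.card = i ∧ p ∣ Nat.card (fx H J)

def St_jtr : Prop := ∀ (α : Type) [Fintype α] [DecidableEq α] (H : Subgroup (Perm α)) (p : ℕ),
  p.Prime → p + 1 ≤ Fintype.card α → Hom H univ 2 → ∀ z ∈ H, z ^ p = 1 →
  (supp univ z).card = p → Tr H univ (Fintype.card α - p + 1)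

def St_jalt : Prop := ∀ (α : Type) [Fintype α] [DecidableEq α] (H : Subgroup (Perm α)) (p : ℕ),
  p.Prime → p + 3 ≤ Fintype.card α → Hom H univ 2 → ∀ z ∈ H, z ^ p = 1 →
  (supp univ z).card = p → Alt3 H univ

def St_giant : Prop := ∀ (α : Type) [Fintype α] [DecidableEq α] (G : Subgroup (Perm α))
  (J : Finset α) (τ d r : ℕ), Fus G J → Tr G univ τ → (∀ i < d, Hom G univ i) →
  (∀ i ≤ J.card, nr G i ≤ r) → GiP J.card τ d r → Alt3 (st G J) J

def St_step : Prop := ∀ (α : Type) [Fintype α] [DecidableEq α] (G : Subgroup (Perm α)) (τ : ℕ),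
  Tr G univ τ →
  (∀ S : Finset α, S.card = τ → (∀ x ∉ S, ∀ y ∉ S, y ∈ orb (fx G S) x) → Tr G univ (τ + 1)) ∧
  (∀ J : Finset α, Fus G J → Tr (st G J) J τ ∧ ∀ i, Hom G univ i → Hom (st G J) J i) ∧
  (¬ Tr G univ (τ + 1) → Hom G univ (τ + 1) → Hom G univ (τ + 2) → τ + 2 ≤ Fintype.card α →
    Triv G (τ + 1))

def St_good : Prop := ∀ (α : Type) [Fintype α] [DecidableEq α] (G : Subgroup (Perm α))
  (t ψ p : ℕ), HH G t → Triv G (ψ + 1) → ψ ≤ t → 2 * t + 1 ≤ Fintype.card α → p.Prime →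
  (∀ J : Finset α, p ∣ Nat.card (fx G J) →
    Good t (Fintype.card α) (nr G t) ψ (Nat.card G) p J.card) ∧
  (p ∣ Nat.card G → ∃ J : Finset α, J.card = Fintype.card α % p ∧ p ∣ Nat.card (fx G J))

def St_s1N : Prop := ∀ (α : Type) [Fintype α] [DecidableEq α] (G : Subgroup (Perm α))
  (t p j : ℕ), Triv G (t + 1) → p.Prime → t < p → j < t → p ∣ Fintype.card α - j →
  p ∣ Nat.card G → ∀ i ≤ j, j.choose i ≤ nr G i * (Fintype.card α - j - 1)

def St_s2N : Prop := ∀ (α : Type) [Fintype α] [DecidableEq α] (G : Subgroup (Perm α))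
  (t p j τ d r : ℕ), Triv G (t + 1) → p.Prime → t < p → j < t → p ∣ Fintype.card α - j →
  p ∣ Nat.card G → ¬ p * p ∣ Fintype.card α - j → Tr G univ τ → (∀ i < d, Hom G univ i) →
  (∀ i ≤ t, nr G i ≤ r) → (3 ≤ d → 4 ≤ j → j ∣ Fintype.card α - j) ∧
    ∀ k, k + 2 ≤ j → (k + 1 ≤ τ ∨ (GiP j τ d r ∧ k + 3 ≤ j)) →
      j.descFactorial k ∣ Fintype.card α - j

def St_sylN : Prop := ∀ (α : Type) [Fintype α] [DecidableEq α] (G : Subgroup (Perm α))
  (t p j : ℕ), Triv G (t + 1) → p.Prime → t < p → j < t → p ∣ Fintype.card α - j →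
  p ∣ Nat.card G → ¬ p * p ∣ Nat.card G →
  ∃ k, k ∣ Nat.card G / p ∧ k ∣ (p - 1) * ((Fintype.card α - j) / p) ∧
    (∀ i ≤ j, Hom G univ i → j.choose i ∣ k) ∧ Nat.card G / p ≡ k [MOD p]

/-- a `p`-subgroup with long orbits outside `J` makes `J` canonical -/
def St_climb : Prop := ∀ (α : Type) [Fintype α] [DecidableEq α] (G Q : Subgroup (Perm α))
  (J : Finset α) (τ p a h : ℕ), p.Prime → Tr G univ τ → Q ≤ fx G J → Nat.card Q = p ^ a →
  τ ≤ J.card → J.card < τ + h → 2 ≤ h → (∀ y ∉ J, h ≤ (orb Q y).card) → Fus G J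

def St_can : Prop := ∀ (α : Type) [Fintype α] [DecidableEq α] (G : Subgroup (Perm α))
  (S : Finset α) (t p : ℕ), p.Prime → Triv G t → Tr G univ S.card → S.card + 2 ≤ t →
  t ≤ Fintype.card α →
  p ^ (Nat.card (fx G S)).factorization p
      ∣ (t - S.card - 1)! * Nat.lcmUpto (t - S.card - 1) ∨
    ∃ (J : Finset α) (h : ℕ) (Q : Subgroup (Perm α)), S ⊆ J ∧ J.card < t ∧ Q ≤ fx G J ∧
      p ^ (Nat.card (fx G S)).factorization p ∣ (t - S.card - 1)! * h ∧
      (∀ y ∉ J, h ∣ (orb Q y).card) ∧ Fus G J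

open Classical in
def St_b0 : Prop := ∀ (α : Type) [Fintype α] [DecidableEq α] (G : Subgroup (Perm α))
  (t τ : ℕ), Triv G t → Tr G univ τ → ¬ Hom G univ (τ + 1) → τ + 2 ≤ t →
  2 * t + 1 ≤ Fintype.card α → (∀ i ≤ t, nr G i ≤ nr G t) →
  4 * (Fintype.card α - τ).descFactorial (t - τ)
    ≤ nr G t * t ! * (t - τ - 1)! * Nat.lcmUpto (t - τ - 1) * (Fintype.card α - τ)
      ^ (2 + ((Ico (2 * τ + 2) t).filter (fun j => ¬ GiP j τ (τ + 1) (nr G t))).card)

open Classical in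
def St_b1 : Prop := ∀ (α : Type) [Fintype α] [DecidableEq α] (G : Subgroup (Perm α))
  (t τ : ℕ), Triv G t → Tr G univ τ → ¬ Tr G univ (τ + 1) → Hom G univ (τ + 1) → τ + 2 ≤ t →
  2 * t + 1 ≤ Fintype.card α → (∀ i ≤ t, nr G i ≤ nr G t) →
  ∃ a, 2 ≤ a ∧ 2 * (Fintype.card α - τ).descFactorial (t - τ)
    ≤ nr G t * t ! * (t - τ - 1)! * Nat.lcmUpto (t - τ - 1) * (Fintype.card α - τ)
      ^ (1 + ((Ico (τ + 1) t).filter
        (fun j => a ∣ j - τ ∧ (¬ GiP j τ (τ + 2) (nr G t) ∨ j = τ + 2))).card)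

def St_size : Prop := ∀ (α : Type) [Fintype α] [DecidableEq α] (G : Subgroup (Perm α)) (t : ℕ),
  (Fintype.card α).choose t ≤ nr G t * Nat.card G ∧
  (Triv G t → t ≤ Fintype.card α → Nat.card G ≤ (Fintype.card α).descFactorial t) ∧
  (Hom G univ t → t ≤ Fintype.card α → (Fintype.card α).choose t ∣ Nat.card G ∧ nr G t = 1) ∧
  (¬ Hom G univ t → 2 ≤ nr G t) ∧
  (Triv G (t + 1) → ∀ A : Finset α, A.card = t → Nat.card (fx G A) ∣ Fintype.card α - t)

def St_invN : Prop := ∀ (α : Type) [Fintype α] [DecidableEq α] (G : Subgroup (Perm α))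
  (t τ : ℕ), Triv G t → Tr G univ τ → 3 ≤ τ → τ ≤ t → 2 * t + 1 ≤ Fintype.card α →
  ∃ f M, τ ≤ f + 2 ∧ f < t ∧ f + 2 * M = Fintype.card α ∧
    M.choose (t / 2) * f.choose (t % 2) ≤ nr G t * f ! * (2 * M) ^ ((t + 1 - f) / 2)

/-- enumeration of the orbits on `t`-sets by increasing size -/
structure Enu {α : Type} [Fintype α] [DecidableEq α] (G : Subgroup (Perm α)) (t : ℕ)
    (A : ℕ → Finset α) : Prop where
  card : ∀ j < nr G t, (A j).card = t
  inj : ∀ i < nr G t, ∀ j < nr G t, A j ∈ orb G (A i) → i = j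
  surj : ∀ B : Finset α, B.card = t → ∃ j < nr G t, B ∈ orb G (A j)
  mono : ∀ i j, i ≤ j → j < nr G t → (orb G (A i)).card ≤ (orb G (A j)).card
  sum : ∀ (M : Type) [AddCommMonoid M] (F : Finset α → M), (∀ X Y, Y ∈ orb G X → F Y = F X) →
    ∑ B ∈ powersetCard t (univ : Finset α), F B
      = ∑ j ∈ range (nr G t), (orb G (A j)).card • F (A j)

def St_enu : Prop := ∀ (α : Type) [Fintype α] [DecidableEq α] (G : Subgroup (Perm α)) (t : ℕ),
  ∃ A, Enu G t A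

/-- the variance inequality with the orbit sizes kept -/
def St_vp : Prop := ∀ (α : Type) [Fintype α] [DecidableEq α] (G : Subgroup (Perm α))
  (t i : ℕ) (A : ℕ → Finset α), Enu G t A → HH G t → Hom G univ i → ¬ Hom G univ (i + 1) →
  i + 1 ≤ t → 2 * t + 1 ≤ Fintype.card α →
  ∃ x : ℕ → ℝ, (∃ j < nr G t, x j ≠ 0) ∧
    ∑ j ∈ range (nr G t), ((orb G (A j)).card : ℝ) * x j = 0 ∧
    ((t : ℝ) + 1 - nr G t) * ((t - i) * (Fintype.card α - t - (i + 1))) * (t + 1)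
        * ∑ j ∈ range (nr G t), ((orb G (A j)).card : ℝ) * x j ^ 2
      ≤ ((Fintype.card α : ℝ) - t) * ∑ j ∈ range (nr G t),
        (((t : ℝ) + 1) * (orb G (A j)).card - (Fintype.card α).choose t)
          * (∑ i ∈ range (nr G t), x i + ((t : ℝ) + 1 - nr G t) * x j) ^ 2

def St_inc : Prop := ∀ (α : Type) [Fintype α] [DecidableEq α] (G : Subgroup (Perm α))
  (t i e : ℕ) (B₀ A₀ : Finset α), Cex G t B₀ A₀ → Hom G univ i → ¬ Hom G univ (i + 1) →
  i + 1 ≤ t → (∀ A : Finset α, A.card = t → Nat.card (fx G A) ∣ e) →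
  ∃ m γ Λ w a b, Inc t (Fintype.card α) (i + 1) (nr G t) m γ w a b ∧ Nat.card G = γ * Λ ∧
    (∀ j < nr G t, w j ∣ Λ) ∧ Λ ∣ t ! * e

def St_s13 : Prop := ∀ (α : Type) [Fintype α] [DecidableEq α] (G : Subgroup (Perm α)),
  Fintype.card α = 13 → Triv G 6 → Hom G univ 2 → ¬ 5 ∣ Nat.card G ∧ Nat.card G ≠ 1716

def St_s15 : Prop := ∀ (α : Type) [Fintype α] [DecidableEq α] (G : Subgroup (Perm α))
  (B₀ A₀ : Finset α), Cex G 7 B₀ A₀ → Fintype.card α = 15 → nr G 7 ≤ 2 → Hom G univ 4 →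
  Hom G univ 5

def St_facts : Prop := ∀ (α : Type) [Fintype α] [DecidableEq α] (G : Subgroup (Perm α)) (t : ℕ)
  (B₀ A₀ : Finset α), Cex G t B₀ A₀ → Triv G (t + 1) →
  ∃ d τ ψ, Facts t (Fintype.card α) d τ (nr G t) ψ (Nat.card G) (nr G)

theorem facts_of (hjump : St_jump) (hstep : St_step) (hgood : St_good) (hs1 : St_s1N)
    (hs2 : St_s2N) (hsyl : St_sylN) (hb0 : St_b0) (hb1 : St_b1) (hsize : St_size)
    (hinv : St_invN) (hinc : St_inc) (h13 : St_s13) (h15 : St_s15) (hm1 : St_m1) (heb : St_eb)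
    (hvar : St_var) (hk1 : St_k1) : St_facts := by
  classical
  intro α _ _ G t B₀ A₀ hc htr
  have ht := hc.ht
  have hn := hc.hn
  have hex : ∃ i, ¬ Hom G univ (i + 1) := ⟨t - 1, by
    rw [Nat.sub_add_cancel (by omega)]; exact hc.nh⟩
  obtain ⟨i, hi, hH⟩ : ∃ i, ¬ Hom G univ (i + 1) ∧ ∀ j ≤ i, Hom G univ j := by
    refine ⟨Nat.find hex, Nat.find_spec hex, fun j hj => ?_⟩
    rcases j with _ | j
    · exact hom_zero
    · exact not_not.1 (Nat.find_min hex (by omega))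
  have hit : i + 2 ≤ t := by
    by_contra h
    obtain ⟨B, b1, b2⟩ := exists_subset_card_eq (s := A₀) (n := t - 1) (by have := hc.hA; omega)
    obtain ⟨g, hg, hg'⟩ := hH (t - 1) (by omega) B₀ (subset_univ _) B (subset_univ _)
      (by have := hc.hB; omega) b2
    exact hc.pure g hg (hg' ▸ b1)
  have hex' : ∃ s, ¬ Tr G univ (s + 1) := ⟨i, fun h => hi (h.hom le_rfl)⟩
  obtain ⟨τ, hτ1, hτ, hτi⟩ : ∃ τ, ¬ Tr G univ (τ + 1) ∧ Tr G univ τ ∧ τ ≤ i := by
    refine ⟨Nat.find hex', Nat.find_spec hex', ?_, Nat.find_min' hex' fun h => hi (h.hom le_rfl)⟩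
    rcases h : Nat.find hex' with _ | j
    · intro S _ hS f _ _
      exact ⟨1, G.one_mem, by simp [card_eq_zero.1 (Nat.le_zero.1 hS)]⟩
    · exact not_not.1 (Nat.find_min hex' (by omega))
  have hmono : ∀ j ≤ t, nr G j ≤ nr G (j + 1) := fun j hj => (hk1 α G j).1 (by omega)
  have hle : ∀ j ≤ t, nr G j ≤ nr G t := by
    intro j hj
    induction hj using Nat.decreasingInduction with
    | self => exact le_rfl
    | of_succ k hk ih => exact (hmono k hk.le).trans ih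
  have hrd : nr G t ≤ i + 1 := ((hk1 α G t).2.2.2 i hc.hh (hH i le_rfl) hi (by omega) hn).2
  have h2 : 2 ≤ nr G (i + 1) := (hsize α G (i + 1)).2.2.2.1 hi
  have hr2 : 2 ≤ nr G t := h2.trans (hle _ (by omega))
  have hH' : ∀ j < i + 1, Hom G univ j := fun j hj => hH j (by omega)
  obtain ⟨ψ, e, a1, a2, a3, a4, a5, a6, a7, a8, a9⟩ : ∃ ψ e, Triv G (ψ + 1) ∧ ψ ≤ t ∧
      (ψ = t → ModeB t (Fintype.card α)) ∧ (τ + 3 ≤ i + 1 → ψ ≤ τ) ∧ 1 ≤ e ∧ e ≤ t ∧
      e ∣ Fintype.card α - t ∧ (ψ < t → e = 1) ∧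
      ∀ A : Finset α, A.card = t → Nat.card (fx G A) ∣ e := by
    by_cases h3 : τ + 3 ≤ i + 1
    · have := (hstep α G τ hτ).2.2 hτ1 (hH _ (by omega)) (hH _ (by omega)) (by omega)
      exact ⟨τ, 1, this, by omega, by omega, fun _ => le_rfl, le_rfl, by omega, one_dvd _,
        fun _ => rfl, fun A hA => by rw [this.card (by omega)]⟩
    by_cases h4 : ∀ A : Finset α, A.card = t → Nat.card (fx G A) = 1
    · refine ⟨t - 1, 1, fun g hg X hX hX' => ?_, by omega, by omega, by omega, le_rfl, by omega,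
        one_dvd _, fun _ => rfl, fun A hA => by rw [h4 A hA]⟩
      obtain ⟨A, b1, b2⟩ := exists_subset_card_eq (s := X) (n := t) (by omega)
      have := Subgroup.card_eq_one.1 (h4 A b2)
      exact Subgroup.mem_bot.1 (this ▸ (⟨hg, fun x hx => hX' x (b1 hx)⟩ : g ∈ fx G A))
    · push Not at h4
      obtain ⟨A, b1, b2⟩ := h4
      obtain ⟨c1, c2, -⟩ := hm1 α G t B₀ A₀ hc htr
      obtain ⟨c3, c4⟩ := heb α G t B₀ A₀ hc htr A b1 b2
      have c5 := (c2 A b1).1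
      have c6 : 0 < Nat.card (fx G A) := Nat.card_pos
      have c7 := (hsize α G t).2.2.2.2 htr A b1
      refine ⟨t, Nat.card (fx G A), htr, le_rfl, fun _ => ⟨_, by omega, by omega, c7, c3, c4⟩,
        by omega, c6, by omega, c7, by omega, fun A' hA' => ?_⟩
      by_cases h5 : Nat.card (fx G A') = 1
      · rw [h5]; exact one_dvd _
      · rw [card_fx_of_mem_orb (c1 A A' b1 hA' b2 h5)]
  have gd := fun p hp => hgood α G t ψ p hc.hh a1 a2 hn hp
  have trv : ψ < t → Triv G t := fun h => a1.mono (by omega)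
  refine ⟨i + 1, τ, ψ, ht, hn, by omega, by omega, hr2, hrd,
    fun j hj => ((hsize α G j).2.2.1 (hH' j hj) (by omega)).2, h2, fun j hj => hmono j hj.le, rfl,
    a2, a3, a4, ?_, fun p j hp hj hd => ?_, fun p j hp hj hjp hd he => ?_, fun p hp hd => ?_,
    fun p j hp h1 h2 h3 h4 => hs1 α G t p j htr hp h1 h2 h3 h4,
    fun p j hp h1 h2 h3 h4 h5 => hs2 α G t p j τ (i + 1) _ htr hp h1 h2 h3 h4 h5 hτ hH' hle,
    fun p j hp h1 h2 h3 h4 h5 => ?_, ((hsize α G i).2.2.1 (hH i le_rfl) (by omega)).1,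
    fun h1 h2 => ?_, fun h1 h2 => ?_, fun h1 => ?_,
    fun h1 h2 => hinv α G t τ (trv h1) hτ h2 (by omega) hn,
    fun h1 h2 h3 => h13 α G h2 ?_ (hH 2 (by omega)), fun k1 k2 k3 k4 => ?_, ?_⟩
  · obtain ⟨N, hN⟩ : ∃ N, Fintype.card α = t + N := ⟨Fintype.card α - t, by omega⟩
    have := hvar α G t i (t + 1 - nr G t) N hc.hh (hH i le_rfl) hi (by omega) hN (by omega)
      (by omega)
    rwa [hN, Nat.add_sub_cancel_left, show t + N + 1 - (i + 1) = t + N - i by omega]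
  · obtain ⟨S, -, hS⟩ := exists_subset_card_eq (s := (univ : Finset α)) (n := j)
      (by rw [card_univ]; omega)
    obtain ⟨x, -, hx⟩ := exists_mem_notMem_of_card_lt_card (s := S) (t := univ)
      (by rw [card_univ]; omega)
    have := hτ.card_fx_insert inv_univ (subset_univ S) (by omega) (mem_univ x) hx
    rw [← hS]
    refine (gd p hp).1 S ?_
    rw [← this, card_univ, hS]
    exact hd.mul_right _
  · obtain ⟨J, rfl, hJ⟩ := hjump α G j p hp hjp (by omega) hd he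
    exact (gd p hp).1 J hJ
  · obtain ⟨J, h1, h2⟩ := (gd p hp).2 hd
    exact h1 ▸ (gd p hp).1 J h2
  · obtain ⟨k, b1, b2, b3, b4⟩ := hsyl α G t p j htr hp h1 h2 h3 h4 h5
    exact ⟨k, b1, b2, fun l hl hl' => b3 l hl (hH' l hl'), b4⟩
  · obtain rfl : i = τ := by omega
    exact hb0 α G t i (trv h1) hτ hi hit hn hle
  · obtain rfl : i = τ + 1 := by omega
    exact hb1 α G t τ (trv h1) hτ hτ1 (hH _ le_rfl) (by omega) hn hle
  · exact (hsize α G t).1.trans (Nat.mul_le_mul_left _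
      ((hsize α G (τ + 1)).2.1 (a1.mono (by have := a4 h1; omega)) (by omega)))
  · subst h1
    refine trv (lt_of_le_of_ne a2 fun h => ?_)
    obtain ⟨e, b1, -, -, b2, -⟩ := a3 h
    omega
  · subst k1
    obtain rfl : i = 4 := by omega
    exact hi (h15 α G B₀ A₀ hc k2 k3.le (hH 4 le_rfl))
  · obtain ⟨m, γ, Λ, w, a, b, b1, b2, b3, b4⟩ :=
      hinc α G t i e B₀ A₀ hc (hH i le_rfl) hi (by omega) a9
    exact ⟨m, γ, Λ, e, w, a, b, b1, b2, b3, b4, a5, a6, a7, a8⟩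

end Pool.Agent.H5Hom
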