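import Pool.Agent.Lib.MP_078193_al.MAll
import Pool.Agent.Lib.MP_078193_al.NBlue

/-! Equal orbit numbers on consecutive levels force large primes into the group order. -/

open Finset Equiv
open scoped Pointwise

set_option linter.unusedSectionVars false

namespace Pool.Agent.H5Hom

namespace Jump

variable {α : Type} [Fintype α] [DecidableEq α] {H : Subgroup (Perm α)}

lemma up_inj_mod {K : Type} [Field K] (j : ℕ) : ∀ (Ω : Finset α) (f : Finset α → K),
    2 * j + 1 ≤ Ω.card → (∀ k ≤ j, ((k + 1 : ℕ) : K) ≠ 0) →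
    (∀ C ⊆ Ω, C.card = j + 1 → ∑ x ∈ C, f (C.erase x) = 0) →
    ∀ A ⊆ Ω, A.card = j → f A = 0 := by
  induction j with
  | zero =>
    intro Ω f hΩ _ hf A _ hA
    obtain ⟨x, hx⟩ := card_pos.1 (show 0 < Ω.card by omega)
    have := hf {x} (by simpa using hx) (by simp)
    rw [card_eq_zero.1 hA]
    simpa using this
  | succ j ih =>
    intro Ω f hΩ hK hf A hAΩ hA
    have key : ∀ a ∈ Ω, ∀ b ∈ Ω, a ≠ b → ∀ Y ⊆ (Ω.erase a).erase b, Y.card = j →
        f (insert a Y) - f (insert b Y) = 0 := by
      intro a ha b hb hab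
      refine ih ((Ω.erase a).erase b) (fun Y => f (insert a Y) - f (insert b Y)) ?_
        (fun k hk => hK k (by omega)) fun C hC hc => ?_
      · rw [card_erase_of_mem (mem_erase.2 ⟨hab.symm, hb⟩), card_erase_of_mem ha]; omega
      · have hCΩ : C ⊆ Ω := hC.trans ((erase_subset _ _).trans (erase_subset _ _))
        have h1 : ∀ c ∈ Ω, c ∉ C → f C + ∑ x ∈ C, f (insert c (C.erase x)) = 0 := by
          intro c hc1 hc2
          rw [← hf (insert c C) (insert_subset hc1 hCΩ) (by rw [card_insert_of_notMem hc2, hc]),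
            sum_insert hc2, erase_insert hc2]
          congr 1
          refine sum_congr rfl fun x hx => ?_
          rw [erase_insert_of_ne (by rintro rfl; exact hc2 hx)]
        have e1 := h1 a ha fun h => (mem_erase.1 (mem_erase.1 (hC h)).2).1 rfl
        have e2 := h1 b hb fun h => (mem_erase.1 (hC h)).1 rfl
        rw [sum_sub_distrib]
        linear_combination e1 - e2
    obtain ⟨y, hy, hyA⟩ := exists_mem_notMem_of_card_lt_card (s := A) (t := Ω) (by omega)
    have h2 := hf (insert y A) (insert_subset hy hAΩ) (by rw [card_insert_of_notMem hyA, hA])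
    have h3 : ∀ x ∈ insert y A, f ((insert y A).erase x) = f A := by
      intro x hx
      rcases mem_insert.1 hx with rfl | hx
      · rw [erase_insert hyA]
      · have hne : y ≠ x := by rintro rfl; exact hyA hx
        have := key y hy x (hAΩ hx) hne (A.erase x) (fun z hz => mem_erase.2 ⟨(mem_erase.1 hz).1,
          mem_erase.2 ⟨by rintro rfl; exact hyA (mem_erase.1 hz).2, hAΩ (mem_erase.1 hz).2⟩⟩)
          (by rw [card_erase_of_mem hx, hA]; rfl)
        rw [insert_erase hx] at this
        rw [erase_insert_of_ne hne]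
        exact sub_eq_zero.1 this
    rw [sum_congr rfl h3, sum_const, card_insert_of_notMem hyA, hA, nsmul_eq_mul] at h2
    exact (mul_eq_zero.1 h2).resolve_left (hK (j + 1) le_rfl)

open Classical in
/-- extension by zero of a function on the orbits of one level -/
noncomputable def ext {K : Type} [Zero K] (H : Subgroup (Perm α)) (t : ℕ)
    (f : ((powersetCard t (univ : Finset α)).image (orb H)) → K) (A : Finset α) : K :=
  if h : orb H A ∈ (powersetCard t (univ : Finset α)).image (orb H) then f ⟨_, h⟩ else 0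

lemma ext_inv {K : Type} [Zero K] (t : ℕ)
    (f : ((powersetCard t (univ : Finset α)).image (orb H)) → K)
    {g : Perm α} (hg : g ∈ H) (A : Finset α) : ext H t f (g • A) = ext H t f A := by
  have : orb H (g • A) = orb H A := orb_eq (mem_orb.2 ⟨g, hg, rfl⟩)
  unfold ext
  simp only [this]

/-- every orbit length on the upper level is divisible by `p` -/
theorem dvd_orb {i p : ℕ} (h : nr H i = nr H (i + 1)) (hn : 2 * i + 1 ≤ Fintype.card α)
    (hp : p.Prime) (hi : i + 1 < p) (hd : p ∣ Fintype.card α - i) {C₀ : Finset α}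
    (hC₀ : C₀.card = i + 1) : p ∣ (orb H C₀).card := by
  classical
  have : Fact p.Prime := ⟨hp⟩
  let Φ : (((powersetCard i (univ : Finset α)).image (orb H)) → ZMod p) →
      (((powersetCard (i + 1) (univ : Finset α)).image (orb H)) → ZMod p) :=
    fun f O => ∑ x ∈ rep O.1, ext H i f ((rep O.1).erase x)
  have hΦ : ∀ f (C : Finset α) (hC : C.card = i + 1),
      Φ f ⟨orb H C, mem_image_of_mem _ (mem_lev.2 hC)⟩ = ∑ x ∈ C, ext H i f (C.erase x) := by
    intro f C hC
    obtain ⟨g, hg, hg'⟩ := mem_orb.1 (rep_mem (H := H) C)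
    change ∑ x ∈ rep (orb H C), ext H i f ((rep (orb H C)).erase x) = _
    rw [← hg', sum_erase_smul _ (ext_inv i f hg)]
  have inj : Function.Injective Φ := by
    intro f f' e
    have key := up_inj_mod i (univ : Finset α) (fun A => ext H i f A - ext H i f' A)
      (by rwa [card_univ]) (fun k hk h0 => by
        have := Nat.le_of_dvd (by omega) ((ZMod.natCast_eq_zero_iff _ _).1 h0)
        omega) (fun C _ hC => by rw [sum_sub_distrib, ← hΦ f C hC, ← hΦ f' C hC, e, sub_self])
    funext O
    obtain ⟨O, hO⟩ := O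
    obtain ⟨A, hA, rfl⟩ := mem_image.1 hO
    have := key A (subset_univ _) (mem_lev.1 hA)
    unfold ext at this
    rw [dif_pos hO, dif_pos hO] at this
    exact sub_eq_zero.1 this
  have bij : Function.Bijective Φ := (Fintype.bijective_iff_injective_and_card Φ).2 ⟨inj, by
    rw [Fintype.card_fun, Fintype.card_fun, Fintype.card_coe, Fintype.card_coe]
    exact congrArg _ h⟩
  obtain ⟨f, hf⟩ := bij.2 fun O => if O.1 = orb H C₀ then 1 else 0
  have e1 := sum_flag (univ : Finset α) i fun A _ => ext H i f A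
  have e2 : ∑ C ∈ powersetCard (i + 1) (univ : Finset α), ∑ x ∈ C, ext H i f (C.erase x)
      = ((orb H C₀).card : ZMod p) := by
    have e3 : ∀ C ∈ powersetCard (i + 1) (univ : Finset α), ∑ x ∈ C, ext H i f (C.erase x)
        = if orb H C = orb H C₀ then 1 else 0 := fun C hC => by
      rw [← hΦ f C (mem_lev.1 hC), hf]
    rw [sum_congr rfl e3, sum_boole]
    congr 2
    ext C
    simp only [mem_filter, mem_lev, orb_eq_iff]
    exact ⟨fun h => h.2, fun h => ⟨(card_of_mem_orb h).trans hC₀, h⟩⟩
  rw [← ZMod.natCast_eq_zero_iff, ← e2, e1]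
  refine sum_eq_zero fun A hA => ?_
  rw [sum_const, card_sdiff_of_subset (subset_univ _), card_univ, mem_lev.1 hA, nsmul_eq_mul,
    (ZMod.natCast_eq_zero_iff _ _).2 hd, zero_mul]

end Jump

theorem jump (α : Type) [Fintype α] [DecidableEq α] (H : Subgroup (Perm α)) (i p : ℕ)
    (h : nr H i = nr H (i + 1)) (hn : 2 * i + 1 ≤ Fintype.card α) (hp : p.Prime)
    (hi : i + 1 < p) (hd : p ∣ Fintype.card α - i) :
    ∃ J : Finset α, J.card = i ∧ p ∣ Nat.card (fx H J) := by
  obtain ⟨C, -, hC⟩ := exists_subset_card_eq (s := (univ : Finset α)) (n := i + 1)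
    (by rw [card_univ]; omega)
  have h1 : p ∣ Nat.card H :=
    (Jump.dvd_orb h hn hp hi hd hC).trans (Dvd.intro _ (orb_mul_st H C))
  obtain ⟨Q, hQ, hQ'⟩ := exists_syl' hp H
  have h2 := dvd_sub_fixs hp hQ'
  have h3 : (fixs Q).card ≤ Fintype.card α := card_le_univ _
  have h4 : i ≤ (fixs Q).card := by
    by_contra h4
    have := Nat.le_of_dvd (by omega) (Nat.dvd_sub h2 hd)
    omega
  obtain ⟨J, hJ, hJ'⟩ := exists_subset_card_eq h4
  refine ⟨J, hJ', Dvd.dvd.trans ?_ (Subgroup.card_dvd_of_le (H := Q) fun g hg =>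
    ⟨hQ hg, fun x hx => mem_fixs.1 (hJ hx) g hg⟩)⟩
  rw [hQ']
  exact dvd_pow_self p (hp.factorization_pos_of_dvd Nat.card_pos.ne' h1).ne'

theorem jump_of : St_jump := fun α _ _ H i p hp hi hn hd h => jump α H i p h hn hp hi hd

end Pool.Agent.H5Hom
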