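import Pool.Agent.Lib.MP_078193_al.NBlue
import Pool.Agent.Lib.MP_078193_al.MCof

/-! Block S1: orbits of the Sylow normaliser on subsets of the fixed set. -/

open Finset Equiv
open scoped Pointwise

set_option linter.unusedSectionVars false

namespace Pool.Agent.H5Hom

namespace S1

open Cof

variable {α : Type} [Fintype α] [DecidableEq α] {G P : Subgroup (Perm α)} {p t a : ℕ}

/-- an element of a `p`-group moving `x` has an orbit of length at least `p` through `x` -/
lemma le_card_orb (hp : p.Prime) (hP : Nat.card P = p ^ a) {y : Perm α} (hy : y ∈ P) {x : α}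
    (hx : y x ≠ x) : p ≤ (orb (Subgroup.zpowers y) x).card := by
  have h1 : Nat.card (Subgroup.zpowers y) ∣ p ^ a :=
    hP ▸ Subgroup.card_dvd_of_le (Subgroup.zpowers_le.2 hy)
  obtain ⟨b, -, hb⟩ := (Nat.dvd_prime_pow hp).1 h1
  refine Nat.le_of_dvd (card_pos.2 ⟨x, self_mem_orb x⟩) (dvd_card_orb hp hb fun h => hx ?_)
  exact mem_fixs.1 h y (Subgroup.mem_zpowers y)

/-- point stabilisers of the normaliser off the fixed set are small -/
lemma card_st_lt (hp : p.Prime) (hP : Nat.card P = p ^ a) (htr : Triv G (t + 1)) (ht : t < p)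
    {y : Perm α} (hy : y ∈ P) {x : α} (hx : y x ≠ x) :
    Nat.card (st (NN G P) x) + 1 ≤ Nat.card P := by
  classical
  have hy1 : y ≠ 1 := fun h => hx (by rw [h]; rfl)
  have h1 : (univ.filter (fun g => g ∈ st (NN G P) x)).card
      ≤ ((univ.filter (fun g => g ∈ P)).erase 1).card := by
    refine card_le_card_of_injOn (fun u => u * y * u⁻¹) (fun u hu => ?_) fun u hu v hv e => ?_
    · have hu' := (mem_st.1 (mem_filter.1 (mem_coe.1 hu)).2).1
      refine mem_coe.2 (mem_erase.2 ⟨fun h => hy1 ?_, mem_filter.2 ⟨mem_univ _,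
        ((mem_NN.1 hu').2 y).1 hy⟩⟩)
      simpa [mul_inv_eq_iff_eq_mul] using h
    · obtain ⟨u1, u2⟩ := mem_st.1 (mem_filter.1 (mem_coe.1 hu)).2
      obtain ⟨v1, v2⟩ := mem_st.1 (mem_filter.1 (mem_coe.1 hv)).2
      rw [Perm.smul_def] at u2 v2
      have e' : u * y * u⁻¹ = v * y * v⁻¹ := e
      have hc : Commute (v⁻¹ * u) y := by
        change v⁻¹ * u * y = y * (v⁻¹ * u)
        calc v⁻¹ * u * y = v⁻¹ * (u * y * u⁻¹) * u := by group
          _ = y * (v⁻¹ * u) := by rw [e']; group
      have hw : (v⁻¹ * u) x = x := by rw [Perm.mul_apply, Perm.inv_eq_iff_eq, u2, v2]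
      have h2 := le_card_orb hp hP hy hx
      have h3 := htr (v⁻¹ * u) (G.mul_mem (G.inv_mem (mem_NN.1 v1).1) (mem_NN.1 u1).1)
        (orb (Subgroup.zpowers y) x) (by omega) (by
          intro z hz
          obtain ⟨g, ⟨m, rfl⟩, rfl⟩ := mem_orb.1 hz
          have := congrArg (fun f : Perm α => f x) (hc.zpow_right m).eq
          simp only [Perm.mul_apply] at this hw
          simp only [Perm.smul_def, Perm.mul_apply]
          rw [this, hw])
      exact (inv_mul_eq_one.1 h3).symm
  rw [card_mem, card_erase_of_mem (by simp), card_mem] at h1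
  have : 0 < Nat.card P := Nat.card_pos
  omega

end S1

open Cof S1 in
theorem s1N_of : St_s1N := by
  intro α _ _ G t p j htr hp ht hj hn hd i hi
  obtain ⟨P, hS⟩ := exists_syl' hp G
  have hP := hS.2
  have h0 : Nat.card G ≠ 0 := Nat.card_pos.ne'
  have ha : 1 ≤ (Nat.card G).factorization p := (hp.dvd_iff_one_le_factorization h0).1 hd
  obtain ⟨y, hy, hy1⟩ : ∃ y ∈ P, y ≠ 1 := by
    by_contra h
    push Not at h
    have : P = ⊥ := eq_bot_iff.2 fun y hy => Subgroup.mem_bot.2 (h y hy)
    rw [this, Subgroup.card_bot] at hP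
    have := Nat.one_lt_pow (a := p) (n := (Nat.card G).factorization p) (by omega) hp.one_lt
    omega
  obtain ⟨x, hx⟩ : ∃ x, y x ≠ x := by
    by_contra h
    push Not at h
    exact hy1 (Perm.ext h)
  have hpn : p ≤ Fintype.card α := (le_card_orb hp hP hy hx).trans (card_le_univ _)
  have hRt : (fixs P).card ≤ t := by
    by_contra h
    exact hy1 (htr y (hS.1 hy) (fixs P) (by omega) fun z hz => mem_fixs.1 hz y hy)
  have hR : (fixs P).card = j := by
    obtain ⟨m, hm⟩ := dvd_sub_fixs hp hP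
    obtain ⟨q, hq⟩ := hn
    have e : (p * q + j) % p = (p * m + (fixs P).card) % p := by congr 1; omega
    rw [Nat.mul_add_mod, Nat.mul_add_mod, Nat.mod_eq_of_lt (by omega),
      Nat.mod_eq_of_lt (by omega)] at e
    exact e.symm
  have hxo : (orb (NN G P) x).card ≤ Fintype.card α - j := by
    rw [← hR, ← card_univ, ← card_sdiff_of_subset (subset_univ _)]
    refine card_le_card fun z hz => mem_sdiff.2 ⟨mem_univ _, fun h => hx ?_⟩
    obtain ⟨g, hg, rfl⟩ := mem_orb.1 hz
    have := inv_NN g⁻¹ ((NN G P).inv_mem hg) _ h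
    rw [Perm.smul_def, inv_ap] at this
    exact mem_fixs.1 this y hy
  have hst := card_st_lt (G := G) hp hP htr ht hy hx
  have hN : Nat.card (NN G P) < (Fintype.card α - j) * Nat.card P := by
    rw [← orb_mul_st _ x]
    calc _ ≤ (Fintype.card α - j) * Nat.card (st (NN G P) x) := Nat.mul_le_mul_right _ hxo
      _ < _ := Nat.mul_lt_mul_of_pos_left (by omega) (by omega)
  have horb : ∀ I ⊆ fixs P, (orb (NN G P) I).card ≤ Fintype.card α - j - 1 := by
    intro I hI
    have h1 : P ≤ st (NN G P) I := fun g hg => mem_st.2 ⟨⟨hS.1 hg, Subgroup.le_normalizer hg⟩, by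
      rw [smul_eq_image, image_congr (g := id) (fun y hy => mem_fixs.1 (hI hy) g hg), image_id]⟩
    have h2 := Nat.le_of_dvd Nat.card_pos (Subgroup.card_dvd_of_le h1)
    rw [← orb_mul_st _ I] at hN
    have h3 := Nat.lt_of_mul_lt_mul_right ((Nat.mul_le_mul_left _ h2).trans_lt hN)
    omega
  have h1 := card_le_mul_card_image (f := orb G) (powersetCard i (fixs P))
    (Fintype.card α - j - 1) (by
      intro O hO
      obtain ⟨I, hI, rfl⟩ := mem_image.1 hO
      have hI1 := (mem_powersetCard.1 hI).1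
      refine le_trans (card_le_card fun J hJ => ?_) (horb I hI1)
      obtain ⟨j1, j2⟩ := mem_filter.1 hJ
      obtain ⟨g, hg, rfl⟩ := mem_orb.1 (orb_eq_iff.1 j2)
      exact mem_orb.2 (wittN hp hS hg hI1 (mem_powersetCard.1 j1).1))
  rw [card_powersetCard, hR, mul_comm] at h1
  exact h1.trans (Nat.mul_le_mul_right _
    (card_le_card (image_subset_image (powersetCard_mono (subset_univ _)))))

end Pool.Agent.H5Hom
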