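import Pool.Agent.Lib.MP_078193_al.MAll

/-! Two order restrictions in degree thirteen. -/

open Finset Equiv
open scoped Pointwise

set_option linter.unusedSectionVars false

namespace Pool.Agent.H5Hom

namespace S613

variable {α : Type} [Fintype α] [DecidableEq α] {G : Subgroup (Perm α)}

lemma inv_sdiff {U : Subgroup (Perm α)} {X Y : Finset α} (hX : Inv U X) (hY : Inv U Y) :
    Inv U (X \ Y) := fun g hg x hx => mem_sdiff.2 ⟨hX g hg x (mem_sdiff.1 hx).1, fun h =>
  (mem_sdiff.1 hx).2 (by simpa using hY g⁻¹ (U.inv_mem hg) _ h)⟩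

lemma inv_of_fixs {U : Subgroup (Perm α)} {X : Finset α} (h : X ⊆ fixs U) : Inv U X :=
  fun g hg x hx => by rwa [mem_fixs.1 (h hx) g hg]

lemma orb_sub {U Q : Subgroup (Perm α)} (hc : ∀ u ∈ U, ∀ z ∈ Q, z * u = u * z) {w : α}
    (hw : w ∈ fixs U) : orb Q w ⊆ fixs U := by
  intro y hy
  obtain ⟨z, hz, rfl⟩ := mem_orb.1 hy
  refine mem_fixs.2 fun u hu => ?_
  rw [Perm.smul_def, ← Perm.mul_apply, ← hc u hu z hz, Perm.mul_apply, mem_fixs.1 hw u hu]

lemma zp_comm {u : Perm α} {Q : Subgroup (Perm α)} (h : ∀ z ∈ Q, z * u = u * z) :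
    ∀ v ∈ Subgroup.zpowers u, ∀ z ∈ Q, z * v = v * z := by
  rintro v ⟨k, rfl⟩ z hz
  exact (Commute.zpow_right (h z hz) k).eq

lemma inv_fixs' {U Q : Subgroup (Perm α)} (hc : ∀ u ∈ U, ∀ z ∈ Q, z * u = u * z) :
    Inv U (fixs Q) := fun u hu x hx => mem_fixs.2 fun z hz => by
  rw [← Perm.mul_apply, hc u hu z hz, Perm.mul_apply, mem_fixs.1 hx z hz]

lemma card_fixs_le (htr : Triv G 7) {Q : Subgroup (Perm α)} (hQ : Q ≤ G) (h1 : Nat.card Q ≠ 1) :
    (fixs Q).card ≤ 6 := by
  by_contra h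
  refine h1 (Subgroup.card_eq_one.2 (eq_bot_iff.2 fun g hg => Subgroup.mem_bot.2 ?_))
  exact htr g (hQ hg) (fixs Q) (by omega) fun x hx => mem_fixs.1 hx g hg

end S613

open S613 Cof in
theorem s613a (α : Type) [Fintype α] [DecidableEq α] (G : Subgroup (Perm α))
    (hn : Fintype.card α = 13) (h1 : Hom G univ 1) (htr : Triv G 7) : ¬ 5 ∣ Nat.card G := by
  intro hd
  have p5 : Nat.Prime 5 := by norm_num
  obtain ⟨Q, hS⟩ := exists_syl' p5 G
  obtain ⟨hQ, hQ'⟩ := id hS
  have ha := p5.factorization_pos_of_dvd Nat.card_pos.ne' hd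
  have key : ∀ R : Subgroup (Perm α), R ≤ Q → Nat.card R ≠ 1 → (fixs R).card = 3 := by
    intro R hR hR1
    obtain ⟨b, -, hb⟩ := (Nat.dvd_prime_pow p5).1 (hQ' ▸ Subgroup.card_dvd_of_le hR)
    have e1 := dvd_sub_fixs p5 hb
    have e2 := card_fixs_le htr (hR.trans hQ) hR1
    omega
  have hQ1 : Nat.card Q ≠ 1 := by
    rw [hQ']; exact (Nat.one_lt_pow ha.ne' p5.one_lt).ne'
  have hJ := key Q le_rfl hQ1
  have hY : (univ \ fixs Q).card = 10 := by
    rw [card_sdiff_of_subset (subset_univ _), card_univ]; omega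
  have hst : ∀ y ∉ fixs Q, (orb Q y).card = Nat.card Q := by
    intro y hy
    have e := orb_mul_st Q y
    by_cases h : Nat.card (st Q y) = 1
    · rwa [h, mul_one] at e
    · have e1 := key (st Q y) inf_le_left h
      have e2 : insert y (fixs Q) ⊆ fixs (st Q y) := insert_subset
        (mem_fixs.2 fun g hg => (mem_st.1 hg).2)
        fun x hx => mem_fixs.2 fun g hg => mem_fixs.1 hx g (mem_st.1 hg).1
      have e3 := card_le_card e2
      rw [card_insert_of_notMem hy] at e3
      omega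
  have h5 : Nat.card Q = 5 := by
    obtain ⟨y, hy⟩ := card_pos.1 (show 0 < (univ \ fixs Q).card by omega)
    have e1 := hst y (mem_sdiff.1 hy).2
    have e2 := card_le_univ (orb Q y)
    rw [hQ'] at e1 ⊢
    generalize (Nat.card G).factorization 5 = a at *
    obtain ⟨b, rfl⟩ : ∃ b, a = b + 1 := ⟨a - 1, by omega⟩
    rcases b with _ | b
    · rfl
    · have : 0 < 5 ^ b := by positivity
      rw [pow_succ, pow_succ] at e1
      omega
  obtain ⟨x, hx⟩ := card_pos.1 (show 0 < (fixs Q).card by omega)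
  have hO : orb (NN G Q) x = fixs Q := by
    ext y
    refine ⟨fun hy => ?_, fun hy => ?_⟩
    · obtain ⟨g, hg, rfl⟩ := mem_orb.1 hy
      exact inv_NN g hg x hx
    · obtain ⟨g, hg, hg'⟩ := h1 {x} (subset_univ _) {y} (subset_univ _) (card_singleton _)
        (card_singleton _)
      obtain ⟨m, hm, hm'⟩ := wittN p5 hS hg (A := {x}) (by simpa using hx)
        (by rw [hg']; simpa using hy)
      have : m x ∈ m • ({x} : Finset α) := apply_mem_smul.2 (mem_singleton_self x)
      rw [hm', hg'] at this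
      exact mem_orb.2 ⟨m, hm, mem_singleton.1 this⟩
  have h3 : 3 ∣ Nat.card (CC G Q) := by
    have e1 : 3 ∣ Nat.card (NN G Q) := hJ ▸ hO ▸ Dvd.intro _ (orb_mul_st (NN G Q) x)
    exact (Nat.prime_three.dvd_mul.1 (e1.trans (card_NN p5 h5))).resolve_right (by norm_num)
  have : Fact (Nat.Prime 3) := ⟨Nat.prime_three⟩
  obtain ⟨u, hu⟩ := exists_prime_orderOf_dvd_card' 3 h3
  set U := Subgroup.zpowers (u : Perm α)
  have hU : Nat.card U = 3 ^ 1 := by rw [Nat.card_zpowers, Subgroup.orderOf_coe, hu]; rfl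
  have hc := zp_comm (mem_CC.1 u.2).2
  have i1 : Inv U (univ \ fixs Q) := inv_sdiff inv_univ (inv_fixs' hc)
  obtain ⟨w, hw, hw'⟩ := exists_fixs Nat.prime_three hU i1 (by rw [hY]; norm_num)
  have s1 := orb_sub hc hw'
  have c1 := (hst w (mem_sdiff.1 hw).2).trans h5
  have t1 : orb Q w ⊆ univ \ fixs Q := fun y hy => by
    obtain ⟨g, hg, rfl⟩ := mem_orb.1 hy
    exact inv_sdiff inv_univ (inv_of_fixs subset_rfl) g hg w hw
  obtain ⟨v, hv, hv'⟩ := exists_fixs Nat.prime_three hU (inv_sdiff i1 (inv_of_fixs s1))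
    (by rw [card_sdiff_of_subset t1, hY, c1]; norm_num)
  have c2 := (hst v (mem_sdiff.1 (mem_sdiff.1 hv).1).2).trans h5
  have dj : Disjoint (orb Q w) (orb Q v) := disjoint_left.2 fun y a b =>
    (mem_sdiff.1 hv).2 (orb_trans a (orb_symm b))
  have e := card_le_card (union_subset s1 (orb_sub hc hv'))
  rw [card_union_of_disjoint dj, c1, c2] at e
  have := card_fixs_le htr (Q := U) (Subgroup.zpowers_le.2 (mem_CC.1 u.2).1) (by rw [hU]; norm_num)
  exact absurd (e.trans this) (by norm_num)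

open S613 in
theorem s613b (α : Type) [Fintype α] [DecidableEq α] (G : Subgroup (Perm α))
    (hn : Fintype.card α = 13) (h2 : Hom G univ 2) (htr : Triv G 7) : Nat.card G ≠ 1716 := by
  classical
  intro hG
  have p11 : Nat.Prime 11 := by norm_num
  have h1 : Hom G univ 1 := Hom.pred (j := 1) h2 (by rw [card_univ]; omega)
  -- elements of order eleven
  have f11 : ∀ z : Perm α, orderOf z = 11 → (fixs (Subgroup.zpowers z)).card = 2 := by
    intro z hz
    have hZ : Nat.card (Subgroup.zpowers z) = 11 ^ 1 := by rw [Nat.card_zpowers, hz]; rfl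
    have e1 := dvd_sub_fixs p11 hZ
    have e2 : (fixs (Subgroup.zpowers z)).card ≠ 13 := fun h => by
      have : fixs (Subgroup.zpowers z) = univ := eq_univ_of_card _ (by omega)
      have : z = 1 := Perm.ext fun x => mem_fixs.1 (this ▸ mem_univ x) z (Subgroup.mem_zpowers _)
      rw [this, orderOf_one] at hz
      omega
    have e3 := card_le_univ (fixs (Subgroup.zpowers z))
    omega
  have mf : ∀ (z : Perm α) (x : α), x ∈ fixs (Subgroup.zpowers z) ↔ z x = x := fun z x =>
    ⟨fun h => mem_fixs.1 h z (Subgroup.mem_zpowers _), fun h => mem_fixs.2 (by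
      rintro _ ⟨k, rfl⟩
      exact Perm.zpow_apply_eq_self_of_apply_eq_self h k)⟩
  have nc : ∀ q : ℕ, q.Prime → ¬ q ∣ 11 → ∀ a ∈ G, orderOf a = q → ∀ z : Perm α, orderOf z = 11 →
      z * a ≠ a * z := by
    intro q hq hq' a ha hao z hz hc
    have hc' := zp_comm (u := a) (Q := Subgroup.zpowers z) (by
      rintro _ ⟨k, rfl⟩
      exact (Commute.zpow_left hc k).eq)
    have hA : Nat.card (Subgroup.zpowers a) = q ^ 1 := by rw [Nat.card_zpowers, hao, pow_one]
    obtain ⟨w, hw, hw'⟩ := exists_fixs hq hA (inv_sdiff inv_univ (inv_fixs' hc'))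
      (by rwa [card_sdiff_of_subset (subset_univ _), card_univ, f11 z hz, hn])
    have e1 := card_le_card (orb_sub hc' hw')
    have e2 := dvd_card_orb p11 (a := 1) (by rw [Nat.card_zpowers, hz]; rfl) (mem_sdiff.1 hw).2
    have e3 := Nat.le_of_dvd (card_pos.2 ⟨w, self_mem_orb w⟩) e2
    have e4 := card_fixs_le htr (Subgroup.zpowers_le.2 ha) (by rw [hA, pow_one]; exact hq.one_lt.ne')
    omega
  have : Fact (Nat.Prime 11) := ⟨p11⟩
  obtain ⟨z₀, hz₀⟩ := exists_prime_orderOf_dvd_card' (G := G) 11 (by rw [hG]; norm_num)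
  rw [← Subgroup.orderOf_coe] at hz₀
  have pair : ∀ x y : α, x ≠ y → ∃ z ∈ G, orderOf z = 11 ∧ z x = x ∧ z y = y := by
    intro x y hxy
    obtain ⟨g, hg, hg'⟩ := h2 _ (subset_univ _) {x, y} (subset_univ _) (f11 _ hz₀) (card_pair hxy)
    have e : ∀ w ∈ ({x, y} : Finset α), (g * z₀ * g⁻¹) w = w := fun w hw => by
      rw [← hg', mem_smul, mf] at hw
      rw [Perm.mul_apply, Perm.mul_apply, hw, ap_inv]
    refine ⟨g * z₀ * g⁻¹, G.mul_mem (G.mul_mem hg z₀.2) (G.inv_mem hg), ?_, e x (by simp),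
      e y (by simp)⟩
    rw [← hz₀]
    exact (MulAut.conj g).orderOf_eq _
  obtain ⟨x, y₀, hxy⟩ := Fintype.exists_pair_of_one_lt_card (α := α) (by omega)
  have hL : Nat.card (st G x) = 132 := by
    have e := orb_mul_st G x
    have : orb G x = univ := eq_univ_of_forall fun y => by
      obtain ⟨g, hg, hg'⟩ := h1 {x} (subset_univ _) {y} (subset_univ _) (card_singleton _)
        (card_singleton _)
      have : g x ∈ g • ({x} : Finset α) := apply_mem_smul.2 (mem_singleton_self x)
      rw [hg'] at this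
      exact mem_orb.2 ⟨g, hg, mem_singleton.1 this⟩
    rw [this, card_univ, hn, hG] at e
    omega
  set L := st G x
  let E : ℕ → Finset (Perm α) := fun q => univ.filter fun g => g ∈ L ∧ orderOf g = q
  have small : ∀ q : ℕ, q.Prime → ¬ q ∣ 11 → q ∣ 132 → 11 ≤ (E q).card := by
    intro q hq hq' hd
    have : Fact q.Prime := ⟨hq⟩
    obtain ⟨a, ha⟩ := exists_prime_orderOf_dvd_card' (G := L) q (by rwa [hL])
    rw [← Subgroup.orderOf_coe] at ha
    obtain ⟨z, hz, hzo, hzx, -⟩ := pair x y₀ hxy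
    have hzL : z ∈ L := mem_st.2 ⟨hz, hzx⟩
    rw [← card_range 11]
    refine card_le_card_of_injOn (fun k => z ^ k * a * (z ^ k)⁻¹) (fun k _ => ?_) ?_
    · refine mem_coe.2 (mem_filter.2 ⟨mem_univ _, L.mul_mem (L.mul_mem (L.pow_mem hzL k) a.2)
        (L.inv_mem (L.pow_mem hzL k)), ?_⟩)
      rw [← ha]
      exact (MulAut.conj (z ^ k)).orderOf_eq _
    · have aux : ∀ i k : ℕ, 0 < k → k < 11 →
          z ^ i * a * (z ^ i)⁻¹ ≠ z ^ (i + k) * a * (z ^ (i + k))⁻¹ := by
        intro i k h0 hk e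
        refine nc q hq hq' a (mem_st.1 a.2).1 ha (z ^ k) ?_ ?_
        · rw [← hzo]
          exact Nat.Coprime.orderOf_pow (hzo ▸ (Nat.coprime_of_lt_prime h0.ne' hk p11))
        · rw [pow_add, mul_inv_rev, ← mul_assoc, mul_left_inj, mul_assoc, mul_assoc,
            mul_right_inj, ← mul_assoc, eq_mul_inv_iff_mul_eq] at e
          exact e.symm
      intro i hi j hj e
      rw [mem_coe, mem_range] at hi hj
      by_contra hne
      rcases Nat.lt_or_gt_of_ne hne with h | h
      · obtain ⟨k, rfl⟩ : ∃ k, j = i + k := ⟨j - i, by omega⟩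
        exact aux i k (by omega) (by omega) e
      · obtain ⟨k, rfl⟩ : ∃ k, i = j + k := ⟨i - j, by omega⟩
        exact aux j k (by omega) (by omega) e.symm
  have big : 120 ≤ (E 11).card := by
    have e1 : ((univ.erase x).biUnion fun y => (E 11).filter fun g => g y = y) ⊆ E 11 :=
      biUnion_subset.2 fun y _ => filter_subset _ _
    refine le_trans ?_ (card_le_card e1)
    rw [card_biUnion]
    · have := card_nsmul_le_sum (univ.erase x) (fun y => ((E 11).filter fun g => g y = y).card) 10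
        fun y hy => by
          obtain ⟨z, hz, hzo, hzx, hzy⟩ := pair x y (mem_erase.1 hy).1.symm
          rw [show 10 = (Ioo 0 11).card by rfl]
          refine card_le_card_of_injOn (fun k => z ^ k) (fun k hk => ?_) fun i hi j hj e => ?_
          · rw [mem_coe, mem_Ioo] at hk
            refine mem_coe.2 (mem_filter.2 ⟨mem_filter.2 ⟨mem_univ _,
              L.pow_mem (mem_st.2 ⟨hz, hzx⟩) k, ?_⟩, Perm.pow_apply_eq_self_of_apply_eq_self hzy k⟩)
            rw [← hzo]
            exact Nat.Coprime.orderOf_pow (hzo ▸ (Nat.coprime_of_lt_prime hk.1.ne' hk.2 p11))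
          · rw [mem_coe, mem_Ioo] at hi hj
            exact pow_injOn_Iio_orderOf (by rw [hzo]; exact hi.2) (by rw [hzo]; exact hj.2) e
      rw [card_erase_of_mem (mem_univ _), card_univ, hn] at this
      exact this
    · intro y hy y' hy' hne
      refine disjoint_left.2 fun g a b => ?_
      obtain ⟨a1, a2⟩ := mem_filter.1 a
      obtain ⟨-, a3, a4⟩ := mem_filter.1 a1
      have s : ({x, y, y'} : Finset α) ⊆ fixs (Subgroup.zpowers g) := by
        intro w hw
        simp only [mem_insert, mem_singleton] at hw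
        rcases hw with rfl | rfl | rfl
        exacts [(mf _ _).2 (mem_st.1 a3).2, (mf _ _).2 a2, (mf _ _).2 (mem_filter.1 b).2]
      have := card_le_card s
      rw [f11 g a4, card_eq_three.2 ⟨x, y, y', (mem_erase.1 hy).1.symm, (mem_erase.1 hy').1.symm,
        hne, rfl⟩] at this
      omega
  have s2 := small 2 Nat.prime_two (by norm_num) (by norm_num)
  have s3 := small 3 Nat.prime_three (by norm_num) (by norm_num)
  have dj : ∀ q q', q ≠ q' → Disjoint (E q) (E q') := fun q q' h => disjoint_left.2 fun g a b =>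
    h ((mem_filter.1 a).2.2.symm.trans (mem_filter.1 b).2.2)
  have tot : E 11 ∪ E 2 ∪ E 3 ⊆ univ.filter (· ∈ L) := fun g hg => by
    simp only [E, mem_union, mem_filter] at hg ⊢
    tauto
  have := card_le_card tot
  rw [card_mem, hL, card_union_of_disjoint (disjoint_union_left.2 ⟨dj _ _ (by norm_num),
    dj _ _ (by norm_num)⟩), card_union_of_disjoint (dj _ _ (by norm_num))] at this
  omega

end Pool.Agent.H5Hom
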