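import Pool.Agent.Lib.MP_078193_al.NBlue
import Pool.Agent.Lib.MP_078193_al.NS613

/-! The two sporadic exclusions in degree thirteen. -/

open Finset Equiv

namespace Pool.Agent.H5Hom

theorem s13_of : St_s13 := fun α _ _ G hn htr h2 =>
  ⟨s613a α G hn (Hom.pred (j := 1) h2 (by rw [card_univ]; omega)) (htr.mono (by omega)),
    s613b α G hn h2 (htr.mono (by omega))⟩

end Pool.Agent.H5Hom
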