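import Pool.Agent.Lib.MP_078193_al.NBlue
import Pool.Agent.Lib.MP_078193_al.MR2

/-! The case of degree 15 with two orbits on 7-sets. -/

open Finset Equiv
open scoped Pointwise

set_option linter.unusedSectionVars false

namespace Pool.Agent.H5Hom

variable {α : Type} [Fintype α] [DecidableEq α] {H : Subgroup (Perm α)}

lemma Dat.down_two {i l : ℕ} {f : Finset α → ℝ} (hd : Dat H i f) {X Y : Finset α}
    (h : ∀ A : Finset α, A.card = l + 1 → A ∈ orb H X ∨ A ∈ orb H Y) {C : Finset α}
    (hC : C.card = l) : ∃ c : ℕ, ((Fintype.card α : ℝ) - l - (i + 1)) * lift (i + 1) f C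
      = c * lift (i + 1) f X + (Fintype.card α - l - c) * lift (i + 1) f Y := by
  classical
  have h1 := lift_down hd.harm C
  have h2 := card_filter_add_card_filter_not (s := univ \ C) (fun x => insert x C ∈ orb H X)
  rw [← sum_filter_add_sum_filter_not (univ \ C) (fun x => insert x C ∈ orb H X),
    sum_congr rfl (fun x hx => hd.lift_orb (mem_filter.1 hx).2),
    sum_congr rfl (s₁ := (univ \ C).filter _) (fun x hx => hd.lift_orb ((h _ (by
      rw [card_insert_of_notMem (mem_sdiff.1 (mem_filter.1 hx).1).2, hC])).resolve_left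
        (mem_filter.1 hx).2)),
    sum_const, sum_const, hC, nsmul_eq_mul, nsmul_eq_mul] at h1
  refine ⟨((univ \ C).filter (fun x => insert x C ∈ orb H X)).card, ?_⟩
  rw [card_sdiff_of_subset (subset_univ _), card_univ, hC] at h2
  have h3 := congrArg (Nat.cast (R := ℝ)) h2
  rw [Nat.cast_sub (hC ▸ card_le_univ C)] at h3
  push_cast at h1 h3
  linear_combination -h1 + (lift (i + 1) f Y) * h3

lemma no_prod (c c' : ℕ) : ((11 * c - 20 : ℤ)) * (11 * c' - 20) ≠ -150 := by
  intro h
  rcases (by omega : c = 0 ∨ c = 1 ∨ 2 ≤ c) with rfl | rfl | h1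
  · omega
  · omega
  rcases (by omega : c' = 0 ∨ c' = 1 ∨ 2 ≤ c') with rfl | rfl | h2
  · omega
  · omega
  have : (0 : ℤ) ≤ (11 * c - 20) * (11 * c' - 20) := mul_nonneg (by omega) (by omega)
  omega

open R2 in
theorem s15_of : St_s15 := by
  classical
  intro α _ _ G B₀ A₀ hc hn hnr h0
  by_contra h1
  have hB : B₀.card = 6 := by have := hc.hB; omega
  have hA : A₀.card = 7 := hc.hA
  have c7 : (15 : ℕ).choose 7 = 6435 := by decide
  have hN : (orb G A₀).card = 2340 := by
    obtain ⟨-, a, a1, a2, a3, a4⟩ := r2_of α G 7 4 B₀ A₀ hc hnr h0 h1 (by norm_num)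
    rw [hn, c7] at a3 a4
    have a5 := a4 15 (8 * (orb G A₀).card / 6435) (by norm_num) (by push_cast; ring)
    generalize (orb G A₀).card = N at *
    have a6 : a ≤ 6 := by omega
    interval_cases a
    · obtain rfl : N = 5616 := by omega
      norm_num at a5
    · omega
    · obtain rfl : N = 1248 := by omega
      norm_num at a5
    · obtain rfl : N = 702 := by omega
      norm_num at a5
    · omega
    · obtain rfl : N = 156 := by omega
      norm_num at a5
  obtain ⟨f, hd⟩ := exists_dat h0 h1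
  have h7 : Two G (6 + 1) := two_of_nr hnr
  have h6 : Two G (5 + 1) := h7.pred (by omega)
  have h5 : Two G 5 := h6.pred (by omega)
  obtain ⟨T, -, hT⟩ := exists_subset_card_eq (s := B₀) (n := 5) (by omega)
  obtain ⟨A₁, -, -, a3, -, a5⟩ := hd.other h7 (by omega) (by omega) hA
  obtain ⟨B₁, -, -, b3, b4, b5⟩ := hd.other h6 (by omega) (by omega) hB
  obtain ⟨T', t1, -, -, -, t5⟩ := hd.other h5 (by omega) (by omega) hT
  obtain ⟨c, e1⟩ := hd.down_two b3 hT
  obtain ⟨c', e2⟩ := hd.down_two b3 t1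
  have u0 := lift_up (4 + 1) f A₀
  rw [sum_congr rfl (fun z hz => hd.lift_orb ((b3 _ (by
    rw [card_erase_of_mem hz]; omega)).resolve_left fun h => by
      have : z ∈ Sig G B₀ A₀ := mem_Sig.2 ⟨hz, h⟩
      rw [hc.sig_empty] at this
      exact notMem_empty _ this)), sum_const, hA, nsmul_eq_mul] at u0
  have m1 := mean_two (G := G) (F := lift (4 + 1) f) (x := lift (4 + 1) f A₀)
    (y := lift (4 + 1) f A₁) hA (fun A h => hd.lift_orb h)
    (fun A h h' => hd.lift_orb ((a3 A h).resolve_left h'))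
  rw [hd.harm.mean (by omega), hN, hn, c7] at m1
  have v6 := hd.harm.var 6
  have v5 := hd.harm.var 5
  rw [a5, b5] at v6
  rw [b5, t5] at v5
  have w6 := var_rel (by omega) v6
  have w5 := var_rel (by omega) v5
  rw [hn] at w6 w5 e1 e2
  generalize lift (4 + 1) f A₀ = x₀ at *
  generalize lift (4 + 1) f A₁ = x₁ at *
  generalize lift (4 + 1) f B₀ = y₀ at *
  generalize lift (4 + 1) f B₁ = y₁ at *
  generalize lift (4 + 1) f T = z₀ at *
  generalize lift (4 + 1) f T' = z₁ at *
  push_cast at u0 m1 w6 w5 e1 e2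
  have hy : y₁ ≠ 0 := by rintro rfl; simp at b4
  have f0 : x₀ = 7 / 2 * y₁ := by linarith
  have f1 : x₁ = -2 * y₁ := by linarith
  subst f0 f1
  have f2 : y₀ = -9 / 2 * y₁ := mul_right_cancel₀ hy (by linarith)
  subst f2
  have f3 : z₀ = -(11 * c - 20) / 10 * y₁ := by linarith
  have f4 : z₁ = -(11 * c' - 20) / 10 * y₁ := by linarith
  subst f3 f4
  have f5 : ((11 * c - 20 : ℝ)) * (11 * c' - 20) = -150 :=
    mul_right_cancel₀ (pow_ne_zero 2 hy) (by linarith)
  exact no_prod c c' (by exact_mod_cast f5)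

end Pool.Agent.H5Hom
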