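import Pool.Agent.Lib.MP_078193_al.NBlue
import Pool.Agent.Lib.MP_078193_al.MCof

/-! Block S2: the centraliser of a Sylow subgroup of prime order on its fixed set. -/

open Finset Equiv
open scoped Pointwise

set_option linter.unusedSectionVars false

namespace Pool.Agent.H5Hom

namespace S2b

open Cof

variable {α : Type} [Fintype α] [DecidableEq α] {G Z : Subgroup (Perm α)} {p t : ℕ}

lemma wittP (hp : p.Prime) (h : Syl p G Z) {A : Finset α} {g : Perm α} (hg : g ∈ G)
    (hA : A ⊆ fixs Z) (hB : ∀ x ∈ A, g x ∈ fixs Z) : ∃ n ∈ NN G Z, ∀ x ∈ A, n x = g x := by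
  replace hB : g • A ⊆ fixs Z := fun y hy => by
    obtain ⟨x, hx, rfl⟩ := mem_image.1 hy
    exact hB x hx
  set Q' := Z.map (MulAut.conj g).toMonoidHom with hQ'
  have hm : ∀ x, x ∈ Q' ↔ g⁻¹ * x * g ∈ Z := by
    intro x
    constructor
    · rintro ⟨y, hy, rfl⟩
      simpa [mul_assoc] using hy
    · intro hx
      exact ⟨_, hx, by simp [mul_assoc]⟩
  have h1 : Syl p G Q' := by
    refine ⟨fun x hx => ?_, ?_⟩
    · have := G.mul_mem (G.mul_mem hg (h.1 ((hm x).1 hx))) (G.inv_mem hg)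
      simpa [mul_assoc] using this
    · rw [hQ', Subgroup.card_map_of_injective (MulAut.conj g).injective, h.2]
  have h2 : Z ≤ fx G (g • A) := fun x hx => ⟨h.1 hx, fun y hy => mem_fixs.1 (hB hy) x hx⟩
  have h3 : Q' ≤ fx G (g • A) := fun x hx => ⟨h1.1 hx, fun y hy => by
    have : y ∈ fixs Q' := by rw [fixs_conj hm]; exact smul_subset_smul.2 hA hy
    exact mem_fixs.1 this x hx⟩
  obtain ⟨k, hk, hk'⟩ := (h1.of_le hp h3 (fx_le _)).conj hp (h.of_le hp h2 (fx_le _))
  refine ⟨k * g, ⟨G.mul_mem hk.1 hg, Subgroup.mem_normalizer_iff''.2 fun x => ?_⟩, fun x hx => ?_⟩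
  · rw [hk', hm, mul_inv_rev]
    simp only [mul_assoc]
  · exact hk.2 _ (apply_mem_smul.2 hx)

lemma orb_CC (hp : p.Prime) (hZ : Nat.card Z = p) {k : ℕ} (h : Tr (NN G Z) (fixs Z) (k + 1))
    (hk : k + 2 ≤ (fixs Z).card) {S : Finset α} (hS : S ⊆ fixs Z) (hc : S.card < k) {x : α}
    (hx : x ∈ fixs Z) (hxS : x ∉ S) : orb (fx (CC G Z) S) x = fixs Z \ S := by
  ext y
  rw [mem_sdiff]
  refine ⟨fun hy => ?_, fun hy => ?_⟩
  · obtain ⟨g, hg, rfl⟩ := mem_orb.1 hy
    refine ⟨inv_NN g (CC_le hg.1) x hx, fun h' => hxS ?_⟩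
    have := hg.2 _ h'
    simp only [Perm.smul_def, EmbeddingLike.apply_eq_iff_eq] at this h'
    exact this ▸ h'
  by_cases e : x = y
  · exact e ▸ self_mem_orb x
  obtain ⟨w, hw, hw'⟩ := exists_mem_notMem_of_card_lt_card (s := insert x (insert y S))
    (t := fixs Z) (by
      have h1 := card_insert_le x (insert y S)
      have h2 := card_insert_le y S
      omega)
  simp only [mem_insert, not_or] at hw'
  have a1 := h.orb_fx inv_NN (S := insert w S) (insert_subset hw hS)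
    (by have := card_insert_le w S; omega) hx (by simp [hxS, Ne.symm hw'.1])
  have a2 := h.orb_fx inv_NN hS (by omega) hx hxS
  obtain ⟨a, ha, hax⟩ := mem_orb.1 (a1 ▸ mem_sdiff.2 ⟨hy.1, by simp [hy.2, Ne.symm hw'.2.1]⟩ :
    y ∈ orb (fx (NN G Z) (insert w S)) x)
  obtain ⟨c, hc', hcx⟩ := mem_orb.1 (a2 ▸ mem_sdiff.2 ⟨hw, hw'.2.2⟩ :
    w ∈ orb (fx (NN G Z) S) x)
  have b1 : ∀ s ∈ insert w S, a⁻¹ s = s := fun s hs => by
    rw [Perm.inv_eq_iff_eq, ha.2 s hs]
  have b2 := comm_mem hp hZ ((NN G Z).inv_mem ha.1) hc'.1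
  rw [Perm.smul_def] at hax hcx
  refine mem_orb.2 ⟨_, ⟨b2, fun s hs => ?_⟩, ?_⟩
  · rw [Perm.mul_apply, Perm.inv_eq_iff_eq, Perm.mul_apply, Perm.mul_apply, hc'.2 s hs,
      b1 s (mem_insert_of_mem hs), hc'.2 s hs]
  · rw [Perm.smul_def, Perm.mul_apply, Perm.inv_eq_iff_eq, Perm.mul_apply, Perm.mul_apply, hcx,
      b1 w (mem_insert_self _ _), ← hax, inv_ap, hcx]

lemma desc_dvd (hp : p.Prime) (hZ : Nat.card Z = p) {k : ℕ} (h : Tr (NN G Z) (fixs Z) (k + 1))
    (hk : k + 2 ≤ (fixs Z).card) (S : Finset α) (hS : S ⊆ fixs Z) (hc : S.card ≤ k) :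
    (fixs Z).card.descFactorial S.card * Nat.card (fx (CC G Z) S) = Nat.card (CC G Z) := by
  induction S using Finset.induction_on with
  | empty => simp [fx_empty]
  | insert x S hxS ih =>
    rw [card_insert_of_notMem hxS] at hc ⊢
    have hS' : S ⊆ fixs Z := (subset_insert _ _).trans hS
    rw [← ih hS' (by omega), ← orb_fx_mul S x,
      orb_CC hp hZ h hk hS' (by omega) (hS (mem_insert_self _ _)) hxS, card_sdiff_of_subset hS',
      Nat.descFactorial_succ]
    ring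

lemma first (hp : p.Prime) (hZ : Nat.card Z = p) (w1 : Hom (NN G Z) (fixs Z) 1)
    (w2 : Hom (NN G Z) (fixs Z) 2) (h4 : 4 ≤ (fixs Z).card) :
    (fixs Z).card ∣ Nat.card (CC G Z) := by
  have pr : ∀ a ∈ fixs Z, ∀ b ∈ fixs Z, ∀ c ∈ fixs Z, ∀ d ∈ fixs Z, a ≠ b → c ≠ d →
      ∃ n ∈ NN G Z, (n a = c ∧ n b = d) ∨ (n a = d ∧ n b = c) := by
    intro a ha b hb c hc d hd hab hcd
    obtain ⟨n, hn, e⟩ := w2 {a, b} (by simp [insert_subset_iff, ha, hb]) {c, d}
      (by simp [insert_subset_iff, hc, hd]) (card_pair hab) (card_pair hcd)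
    have e1 : n a ∈ ({c, d} : Finset α) := e ▸ apply_mem_smul.2 (by simp)
    have e2 : n b ∈ ({c, d} : Finset α) := e ▸ apply_mem_smul.2 (by simp)
    have e3 := n.injective.ne hab
    simp only [mem_insert, mem_singleton] at e1 e2
    refine ⟨n, hn, ?_⟩
    rcases e1 with e1 | e1 <;> rcases e2 with e2 | e2
    · exact absurd (e1.trans e2.symm) e3
    · exact Or.inl ⟨e1, e2⟩
    · exact Or.inr ⟨e1, e2⟩
    · exact absurd (e1.trans e2.symm) e3
  by_cases hc : ∃ x ∈ fixs Z, ∃ c ∈ CC G Z, c x ≠ x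
  · obtain ⟨x, hx, c, hc, hcx⟩ := hc
    have h3 : orb (CC G Z) x = fixs Z := by
      ext y
      refine ⟨fun hy => ?_, fun hy => ?_⟩
      · obtain ⟨g, hg, rfl⟩ := mem_orb.1 hy
        exact inv_NN g (CC_le hg) x hx
      · by_cases e : x = y
        · exact e ▸ self_mem_orb x
        obtain ⟨n, hn, h⟩ := pr x hx (c x) (inv_NN c (CC_le hc) x hx) x hx y hy hcx.symm e
        have h4 : n (c x) ∈ orb (CC G Z) (n x) :=
          mem_orb.2 ⟨_, conj_CC hn hc, by simp [Perm.smul_def]⟩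
        rcases h with ⟨a, b⟩ | ⟨a, b⟩
        · rwa [a, b] at h4
        · rw [a, b] at h4
          exact orb_symm h4
    rw [← orb_mul_st _ x, h3]
    exact dvd_mul_right _ _
  · exfalso
    have hc' : ∀ x ∈ fixs Z, ∀ c ∈ CC G Z, c x = x := fun x hx c hcc => by
      by_contra h
      exact hc ⟨x, hx, c, hcc, h⟩
    have fixall : ∀ n ∈ NN G Z, ∀ a ∈ fixs Z, ∀ b ∈ fixs Z, n a = a → n b = b := by
      intro n hn a ha b hb e
      obtain ⟨r, hr, e'⟩ := w1 {a} (by simpa using ha) {b} (by simpa using hb) rfl rfl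
      have e1 : r a = b := mem_singleton.1 (e' ▸ apply_mem_smul.2 (mem_singleton_self a))
      have e2 := hc' a ha _ (comm_mem hp hZ hn hr)
      rw [Perm.mul_apply, Perm.inv_eq_iff_eq, Perm.mul_apply, Perm.mul_apply, e, e1] at e2
      exact e2
    obtain ⟨S, hS1, hS2⟩ := exists_subset_card_eq (s := fixs Z) (n := 4) (by omega)
    obtain ⟨a, b, c, d, hab, hac, had, hbc, hbd, hcd, rfl⟩ := card_eq_four.1 hS2
    have ha : a ∈ fixs Z := hS1 (by simp)
    have hb : b ∈ fixs Z := hS1 (by simp)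
    have hc : c ∈ fixs Z := hS1 (by simp)
    have hd : d ∈ fixs Z := hS1 (by simp)
    obtain ⟨n, hn, ⟨n1, n2⟩ | ⟨n1, n2⟩⟩ := pr a ha b hb a ha c hc hab hac
    · exact hbc ((fixall n hn a ha b hb n1).symm.trans n2)
    obtain ⟨m, hm, ⟨m1, m2⟩ | ⟨m1, m2⟩⟩ := pr a ha b hb a ha d hd hab had
    · exact hbd ((fixall m hm a ha b hb m1).symm.trans m2)
    have := fixall _ ((NN G Z).mul_mem ((NN G Z).inv_mem hm) hn) b hb a ha (by
      rw [Perm.mul_apply, Perm.inv_eq_iff_eq, n2, m2])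
    rw [Perm.mul_apply, Perm.inv_eq_iff_eq, n1, m1] at this
    exact hcd this

/-- a nontrivial `p`-subgroup fixes exactly `j` points -/
lemma card_fixs (hp : p.Prime) (htr : Triv G (t + 1)) (ht : t < p) {j a : ℕ} (hj : j < t)
    (hn : p ∣ Fintype.card α - j) (hpn : p ≤ Fintype.card α) (hG : Z ≤ G)
    (hZ : Nat.card Z = p ^ a) (h1 : Z ≠ ⊥) : (fixs Z).card = j := by
  have hRt : (fixs Z).card ≤ t := by
    by_contra h
    exact h1 (eq_bot_iff.2 fun y hy => Subgroup.mem_bot.2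
      (htr y (hG hy) (fixs Z) (by omega) fun z hz => mem_fixs.1 hz y hy))
  obtain ⟨m, hm⟩ := dvd_sub_fixs hp hZ
  obtain ⟨q, hq⟩ := hn
  have e : (p * q + j) % p = (p * m + (fixs Z).card) % p := by congr 1; omega
  rw [Nat.mul_add_mod, Nat.mul_add_mod, Nat.mod_eq_of_lt (by omega),
    Nat.mod_eq_of_lt (by omega)] at e
  exact e.symm

end S2b

open Cof S2b in
theorem s2Nb_of (hgiant : St_giant) : St_s2N := by
  intro α _ _ G t p j τ d r htr hp ht hj hn hd hn2 hτ hH hr
  obtain ⟨P, hS⟩ := exists_syl' hp G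
  have hP := hS.2
  have ha : 1 ≤ (Nat.card G).factorization p :=
    (hp.dvd_iff_one_le_factorization Nat.card_pos.ne').1 hd
  generalize (Nat.card G).factorization p = a at hP ha
  have hP1 : P ≠ ⊥ := by
    rintro rfl
    rw [Subgroup.card_bot] at hP
    have := Nat.one_lt_pow (a := p) (n := a) (by omega) hp.one_lt
    omega
  have hpn : p ≤ Fintype.card α := by
    have h1 : Nat.card G ∣ (Fintype.card α).factorial := by
      rw [← Fintype.card_perm, ← Nat.card_eq_fintype_card]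
      exact Subgroup.card_subgroup_dvd_card G
    exact (hp.dvd_factorial).1 (hd.trans h1)
  have hR := card_fixs hp htr ht hj hn hpn hS.1 hP hP1
  have h1 : Nat.card P ∣ (univ \ fixs P).card := by
    refine dvd_card_of_orb (K := P) (fun g hg x hx => ?_) fun y hy => ?_
    · refine mem_sdiff.2 ⟨mem_univ _, fun h => (mem_sdiff.1 hx).2 ?_⟩
      have := mem_fixs.1 h g hg
      rwa [g.injective this] at h
    · have h1 : st P y = ⊥ := by
        by_contra h
        have hle : st P y ≤ P := fun g hg => (mem_st.1 hg).1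
        obtain ⟨b, -, hb⟩ := (Nat.dvd_prime_pow hp).1 (hP ▸ Subgroup.card_dvd_of_le hle)
        have h2 := card_fixs hp htr ht hj hn hpn (hle.trans hS.1) hb h
        have h3 : insert y (fixs P) ⊆ fixs (st P y) := insert_subset
          (mem_fixs.2 fun g hg => (mem_st.1 hg).2)
          fun x hx => mem_fixs.2 fun g hg => mem_fixs.1 hx g (hle hg)
        have h4 := card_le_card h3
        rw [card_insert_of_notMem (mem_sdiff.1 hy).2] at h4
        omega
      have := orb_mul_st P y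
      rw [h1, Subgroup.card_bot, mul_one] at this
      rw [this]
  rw [card_sdiff_of_subset (subset_univ _), card_univ, hR, hP] at h1
  obtain rfl : a = 1 := by
    by_contra h
    exact hn2 (pow_two p ▸ (pow_dvd_pow p (by omega)).trans h1)
  rw [pow_one] at hP
  have hC : Nat.card (CC G P) ∣ Fintype.card α - j := by
    have := card_CC hp hP htr ht
    rwa [card_sdiff_of_subset (subset_univ _), card_univ, hR] at this
  have hw : ∀ i, Hom G univ i → Hom (NN G P) (fixs P) i := by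
    intro i h A hA B hB hA' hB'
    obtain ⟨g, hg, rfl⟩ := h A (subset_univ _) B (subset_univ _) hA' hB'
    exact wittN hp hS hg hA hB
  refine ⟨fun h3 h4 => ?_, fun k hk hc => ?_⟩
  · exact (hR ▸ first hp hP (hw 1 (hH 1 (by omega))) (hw 2 (hH 2 (by omega)))
      (by omega)).trans hC
  have hT : Tr (NN G P) (fixs P) (k + 1) := by
    intro S hS' hc' φ hφ hφ'
    obtain ⟨g, hg, hg'⟩ : ∃ g ∈ G, ∀ x ∈ S, g x = φ x := by
      rcases hc with h | ⟨h, h'⟩
      · exact hτ S (subset_univ _) (by omega) φ hφ fun _ _ => mem_univ _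
      · have hF : Fus G (fixs P) := fun I hI g hg hg' => by
          obtain ⟨n, hn, hn'⟩ := wittP hp hS hg hI hg'
          exact ⟨n, mem_st.2 ⟨hn.1, inv_NN.smul_eq hn⟩, hn'⟩
        obtain ⟨g, hg, hg'⟩ := (hgiant α G (fixs P) τ d r hF hτ hH
          (fun i hi => hr i (by omega)) (hR ▸ h)).tr (inv_st _) S hS' (by omega) φ hφ hφ'
        exact ⟨g, (mem_st.1 hg).1, hg'⟩
    obtain ⟨n, hn, hn'⟩ := wittP hp hS hg hS' fun x hx => hg' x hx ▸ hφ' x hx
    exact ⟨n, hn, fun x hx => (hn' x hx).trans (hg' x hx)⟩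
  obtain ⟨S, hS1, hS2⟩ := exists_subset_card_eq (s := fixs P) (n := k) (by omega)
  have := desc_dvd hp hP hT (by omega) S hS1 hS2.le
  rw [hR, hS2] at this
  exact (Dvd.intro _ this).trans hC

end Pool.Agent.H5Hom
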