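import Pool.Agent.Lib.MP_078193_al.NBlue

/-! Orbit counting: size bounds and an enumeration of the orbits on `t`-sets. -/

open Finset Equiv
open scoped Pointwise Nat

set_option linter.unusedSectionVars false

namespace Pool.Agent.H5Hom

namespace SIZE

variable {α : Type} [Fintype α] [DecidableEq α] {G : Subgroup (Perm α)}

lemma card_orb_le {X : Type} [Fintype X] [MulAction (Perm α) X] (x : X) :
    (orb G x).card ≤ Nat.card G := by
  have h := orb_mul_st G x
  have h2 : 0 < Nat.card (st G x) := Nat.card_pos
  rw [← h]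
  exact Nat.le_mul_of_pos_right _ h2

lemma fib {t : ℕ} {A : Finset α} (hA : A.card = t) :
    (powersetCard t (univ : Finset α)).filter (fun B => orb G B = orb G A) = orb G A := by
  ext B
  rw [mem_filter, mem_lev, orb_eq_iff]
  exact ⟨fun h => h.2, fun h => ⟨(card_of_mem_orb h).trans hA, h⟩⟩

lemma choose_le (t : ℕ) : (Fintype.card α).choose t ≤ nr G t * Nat.card G := by
  classical
  have h := card_eq_sum_card_image (orb G) (powersetCard t (univ : Finset α))
  rw [card_powersetCard, card_univ] at h
  rw [h, nr, ← smul_eq_mul]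
  refine sum_le_card_nsmul _ _ _ fun O hO => ?_
  obtain ⟨A, hA, rfl⟩ := mem_image.1 hO
  have := fib (G := G) (mem_lev.1 hA)
  have h2 : ((powersetCard t (univ : Finset α)).filter (fun B => orb G B = orb G A)).card
      ≤ Nat.card G := by
    rw [this]; exact card_orb_le A
  convert h2

lemma card_le_desc (S : Finset α) :
    Nat.card G ≤ (Fintype.card α).descFactorial S.card * Nat.card (fx G S) := by
  induction S using Finset.induction_on with
  | empty => simp [fx_empty]
  | insert x S hx ih =>
    rw [card_insert_of_notMem hx, Nat.descFactorial_succ]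
    have h1 := orb_fx_mul (H := G) S x
    have h2 : (orb (fx G S) x).card ≤ Fintype.card α - S.card := by
      rw [← card_univ, ← card_sdiff_of_subset (subset_univ S)]
      refine card_le_card fun y hy => ?_
      obtain ⟨g, hg, rfl⟩ := mem_orb.1 hy
      refine mem_sdiff.2 ⟨mem_univ _, fun h => hx ?_⟩
      have h3 : g (g x) = g x := hg.2 _ h
      have h4 := g.injective h3
      rw [Perm.smul_def, h4] at h
      exact h
    calc Nat.card G ≤ _ := ih
      _ = (Fintype.card α).descFactorial S.card
          * ((orb (fx G S) x).card * Nat.card (fx G (insert x S))) := by rw [h1]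
      _ ≤ (Fintype.card α).descFactorial S.card
          * ((Fintype.card α - S.card) * Nat.card (fx G (insert x S))) := by gcongr
      _ = _ := by ring

lemma orb_hom {t : ℕ} (h : Hom G univ t) {A : Finset α} (hA : A.card = t) :
    orb G A = powersetCard t (univ : Finset α) := by
  ext B
  rw [mem_lev]
  exact ⟨fun hB => (card_of_mem_orb hB).trans hA,
    fun hB => mem_orb.2 (h A (subset_univ _) B (subset_univ _) hA hB)⟩

lemma semi {t : ℕ} (h : Triv G (t + 1)) {A : Finset α} (hA : A.card = t) :
    Nat.card (fx G A) ∣ Fintype.card α - t := by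
  rw [← hA, ← card_univ, ← card_sdiff_of_subset (subset_univ A)]
  refine dvd_card_of_orb (K := fx G A) (fun g hg x hx => ?_) fun y hy => ?_
  · refine mem_sdiff.2 ⟨mem_univ _, fun h => (mem_sdiff.1 hx).2 ?_⟩
    rwa [g.injective (hg.2 _ h)] at h
  · have := orb_fx_mul (H := G) A y
    rw [h.card (by rw [card_insert_of_notMem (mem_sdiff.1 hy).2]; omega), mul_one] at this
    rw [this]

end SIZE

theorem size_of : St_size := by
  classical
  intro α _ _ G t
  refine ⟨SIZE.choose_le t, fun h ht => ?_, fun h ht => ?_, fun h => ?_, fun h A hA => SIZE.semi h hA⟩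
  · obtain ⟨S, -, hS⟩ := exists_subset_card_eq (s := (univ : Finset α)) (n := t)
      (by rwa [card_univ])
    have := SIZE.card_le_desc (G := G) S
    rwa [h.card hS.ge, mul_one, hS] at this
  · obtain ⟨S, -, hS⟩ := exists_subset_card_eq (s := (univ : Finset α)) (n := t)
      (by rwa [card_univ])
    refine ⟨?_, ?_⟩
    · have := orb_mul_st G S
      rw [SIZE.orb_hom h hS, card_powersetCard, card_univ] at this
      exact Dvd.intro _ this
    · rw [nr, card_eq_one]
      refine ⟨powersetCard t univ, ?_⟩
      ext O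
      rw [mem_image, mem_singleton]
      constructor
      · rintro ⟨A, hA, rfl⟩
        exact SIZE.orb_hom h (mem_lev.1 hA)
      · rintro rfl
        exact ⟨S, mem_lev.2 hS, SIZE.orb_hom h hS⟩
  · by_contra hc
    exact h (hom_of_nr (by omega))

theorem enu_of : St_enu := by
  classical
  intro α _ _ G t
  set T := (powersetCard t (univ : Finset α)).image (orb G) with hT
  have hr : nr G t = T.card := rfl
  let e : Fin T.card ≃ T := T.equivFin.symm
  let f : Fin T.card → ℕ := fun i => (e i).1.card
  let σ := Tuple.sort f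
  let O : Fin T.card → Finset (Finset α) := fun i => (e (σ i)).1
  have hO : ∀ i, O i ∈ T := fun i => (e (σ i)).2
  have hOi : Function.Injective O := fun i j h =>
    σ.injective (e.injective (Subtype.ext h))
  have hOs : ∀ X ∈ T, ∃ i, O i = X := fun X hX =>
    ⟨σ.symm (e.symm ⟨X, hX⟩), by simp [O]⟩
  have hrep : ∀ i, orb G (rep (O i)) = O i ∧ (rep (O i)).card = t := by
    intro i
    obtain ⟨A, hA, h⟩ := mem_image.1 (hO i)
    rw [← h]
    exact ⟨orb_eq (rep_mem A), (card_of_mem_orb (rep_mem A)).trans (mem_lev.1 hA)⟩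
  let A : ℕ → Finset α := fun j => if h : j < T.card then rep (O ⟨j, h⟩) else ∅
  have hA : ∀ j (h : j < T.card), A j = rep (O ⟨j, h⟩) := fun j h => dif_pos h
  refine ⟨A, ⟨fun j hj => ?_, fun i hi j hj h => ?_, fun B hB => ?_, fun i j hij hj => ?_,
    fun M _ F hF => ?_⟩⟩
  · rw [hA j hj]; exact (hrep _).2
  · rw [hA i hi, hA j hj, ← orb_eq_iff, (hrep _).1, (hrep _).1] at h
    exact (congrArg Fin.val (hOi h)).symm
  · obtain ⟨i, hi⟩ := hOs (orb G B) (mem_image_of_mem _ (mem_lev.2 hB))
    refine ⟨i, i.2, ?_⟩
    rw [hA i i.2, (hrep _).1, hi]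
    exact self_mem_orb B
  · have hi : i < T.card := lt_of_le_of_lt hij hj
    rw [hA i hi, hA j hj, (hrep _).1, (hrep _).1]
    exact Tuple.monotone_sort f (show (⟨i, hi⟩ : Fin T.card) ≤ ⟨j, hj⟩ from hij)
  · rw [hr, ← Fin.sum_univ_eq_sum_range (fun j => (orb G (A j)).card • F (A j)) T.card,
      ← sum_fiberwise_of_maps_to (s := powersetCard t (univ : Finset α)) (t := T) (g := orb G)
        (fun B hB => mem_image_of_mem _ hB)]
    symm
    refine sum_bij (fun i _ => O i) (fun i _ => hO i) (fun i _ j _ h => hOi h)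
      (fun X hX => ?_) (fun i _ => ?_)
    · obtain ⟨i, hi⟩ := hOs X hX
      exact ⟨i, mem_univ _, hi⟩
    · rw [hA i i.2]
      have h1 := SIZE.fib (G := G) (hrep i).2
      rw [(hrep i).1] at h1
      have h2 : ∑ B ∈ (powersetCard t (univ : Finset α)).filter (fun B => orb G B = O i), F B
          = ∑ _B ∈ O i, F (rep (O i)) := by
        rw [h1]
        refine sum_congr rfl fun B hB => hF _ _ ?_
        rwa [(hrep i).1]
      rw [(hrep _).1, ← sum_const]
      convert h2.symm

end Pool.Agent.H5Hom
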