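import Pool.Agent.Lib.MP_078193_al.NBlue

/-! One step up in transitivity, fusion control, and rigidity above the degree of transitivity. -/

open Finset Equiv
open scoped Pointwise

set_option linter.unusedSectionVars false

namespace Pool.Agent.H5Hom

namespace STEP

variable {α : Type} [Fintype α] [DecidableEq α] {G : Subgroup (Perm α)} {τ : ℕ}

lemma up (h : Tr G univ τ) {S : Finset α} (hS : S.card = τ)
    (ht : ∀ x ∉ S, ∀ y ∉ S, y ∈ orb (fx G S) x) : Tr G univ (τ + 1) := by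
  intro S' _ hc φ hφ _
  by_cases h1 : S'.card ≤ τ
  · exact h S' (subset_univ _) h1 φ hφ fun _ _ => mem_univ _
  obtain ⟨x, hx⟩ : S'.Nonempty := card_pos.1 (by omega)
  have hc0 : (S'.erase x).card = τ := by rw [card_erase_of_mem hx]; omega
  obtain ⟨g, hg, hg'⟩ := h (S'.erase x) (subset_univ _) hc0.le φ
    (hφ.mono (by simp)) fun _ _ => mem_univ _
  obtain ⟨k, hk, hk'⟩ := h.hom le_rfl (g • S'.erase x) (subset_univ _) S (subset_univ _)
    (by rw [card_smul, hc0]) hS
  have hu : k (g x) ∉ S := by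
    rw [← hk', apply_mem_smul, apply_mem_smul]; simp
  have hv : k (φ x) ∉ S := by
    rw [← hk', apply_mem_smul]
    intro hm
    obtain ⟨s, hs, hs'⟩ := mem_image.1 hm
    have e1 : g s = φ x := hs'
    rw [hg' s hs] at e1
    exact (ne_of_mem_erase hs) (hφ (mem_coe.2 (mem_of_mem_erase hs)) (mem_coe.2 hx) e1)
  obtain ⟨w, hw, hw'⟩ := mem_orb.1 (ht _ hu _ hv)
  have hw2 : w (k (g x)) = k (φ x) := hw'
  refine ⟨k⁻¹ * w * k * g, G.mul_mem (G.mul_mem (G.mul_mem (G.inv_mem hk) hw.1) hk) hg,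
    fun s hs => ?_⟩
  simp only [Perm.mul_apply]
  by_cases hsx : s = x
  · rw [hsx, hw2, inv_ap]
  · have hs' : s ∈ S'.erase x := mem_erase.2 ⟨hsx, hs⟩
    have : k (g s) ∈ S := by rw [← hk', apply_mem_smul, apply_mem_smul]; exact hs'
    rw [hw.2 _ this, inv_ap, hg' s hs']

lemma fus_tr (h : Tr G univ τ) {J : Finset α} (hJ : Fus G J) : Tr (st G J) J τ := by
  intro S hS hc φ hφ hφ'
  obtain ⟨g, hg, hg'⟩ := h S (subset_univ _) hc φ hφ fun _ _ => mem_univ _
  obtain ⟨u, hu, hu'⟩ := hJ S hS g hg fun x hx => by rw [hg' x hx]; exact hφ' x hx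
  exact ⟨u, hu, fun x hx => by rw [hu' x hx, hg' x hx]⟩

lemma fus_hom {J : Finset α} (hJ : Fus G J) {i : ℕ} (h : Hom G univ i) : Hom (st G J) J i := by
  intro A hA B hB hA' hB'
  obtain ⟨g, hg, hg'⟩ := h A (subset_univ _) B (subset_univ _) hA' hB'
  obtain ⟨u, hu, hu'⟩ := hJ A hA g hg fun x hx => hB (hg' ▸ apply_mem_smul.2 hx)
  refine ⟨u, hu, ?_⟩
  rw [← hg', smul_eq_image, smul_eq_image]
  exact image_congr fun x hx => hu' x (mem_coe.1 hx)

/-- orbits of a pointwise stabiliser outside the set have equal lengths -/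
lemma len {j : ℕ} (h : Hom G univ (j + 1)) {S : Finset α} (hS : S.card = j) {x y : α}
    (hx : x ∉ S) (hy : y ∉ S) : (orb (fx G S) x).card = (orb (fx G S) y).card := by
  have h1 := orb_fx_mul (H := G) S x
  have h2 := orb_fx_mul (H := G) S y
  have h3 : insert y S ∈ orb G (insert x S) := mem_orb.2 (h _ (subset_univ _) _ (subset_univ _)
    (by rw [card_insert_of_notMem hx, hS]) (by rw [card_insert_of_notMem hy, hS]))
  rw [card_fx_of_mem_orb h3, ← h1] at h2
  exact (Nat.eq_of_mul_eq_mul_right Nat.card_pos h2).symm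

lemma not_mem {S : Finset α} {x y : α} (hx : x ∉ S) (hy : y ∈ orb (fx G S) x) : y ∉ S := by
  obtain ⟨g, hg, rfl⟩ := mem_orb.1 hy
  intro h'
  have := hg.2 _ h'
  simp only [Perm.smul_def, EmbeddingLike.apply_eq_iff_eq] at this h'
  exact hx (this ▸ h')

lemma inv_orb {K K' : Subgroup (Perm α)} (h : K' ≤ K) (x : α) : Inv K' (orb K x) :=
  fun _ hg _ hy => (smul_mem_orb (h hg)).2 hy

lemma triv (h : Tr G univ τ) (h0 : ¬ Tr G univ (τ + 1)) (h1 : Hom G univ (τ + 1))
    (h2 : Hom G univ (τ + 2)) : Triv G (τ + 1) := by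
  intro g hg X hX hgX
  obtain ⟨X', hX1, hX2⟩ := exists_subset_card_eq hX
  obtain ⟨x, hx⟩ : X'.Nonempty := card_pos.1 (by omega)
  have hc0 : (X'.erase x).card = τ := by rw [card_erase_of_mem hx]; omega
  set S := X'.erase x with hSdef
  have hxS : x ∉ S := by simp [hSdef]
  have hins : insert x S = X' := insert_erase hx
  obtain ⟨y, hy, hy'⟩ : ∃ y ∉ S, y ∉ orb (fx G S) x := by
    by_contra hcon
    push Not at hcon
    exact h0 (up h hc0 fun a ha b hb => orb_trans (orb_symm (hcon a ha)) (hcon b hb))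
  have hle : fx G X' ≤ fx G S := fx_anti (erase_subset _ _)
  have hgK : g ∈ fx G X' := ⟨hg, fun z hz => hgX z (hX1 hz)⟩
  ext z
  by_cases hz : z ∈ X'
  · simpa using hgK.2 z hz
  have d1 : (orb (fx G X') z).card ∣ (orb (fx G S) y).card := by
    refine dvd_card_of_orb (inv_orb hle y) fun w hw => ?_
    refine dvd_of_eq (len h2 hX2 hz ?_)
    rw [← hins, mem_insert, not_or]
    exact ⟨fun e => hy' (orb_symm (e ▸ hw)), not_mem hy hw⟩
  have d2 : (orb (fx G X') z).card ∣ ((orb (fx G S) x).erase x).card := by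
    refine dvd_card_of_orb (K := fx G X') (fun k hk w hw => ?_) fun w hw => ?_
    · obtain ⟨w1, w2⟩ := mem_erase.1 hw
      refine mem_erase.2 ⟨fun e => w1 ?_, inv_orb hle x k hk w w2⟩
      exact k.injective (e.trans (hk.2 x hx).symm)
    · obtain ⟨w1, w2⟩ := mem_erase.1 hw
      refine dvd_of_eq (len h2 hX2 hz ?_)
      rw [← hins, mem_insert, not_or]
      exact ⟨w1, not_mem hxS w2⟩
  rw [card_erase_of_mem (self_mem_orb x)] at d2
  rw [← len h1 hc0 hxS hy] at d1
  have hpos : 1 ≤ (orb (fx G S) x).card := card_pos.2 ⟨x, self_mem_orb x⟩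
  have d3 : (orb (fx G X') z).card ∣ 1 := by
    have := Nat.dvd_sub d1 d2
    rwa [Nat.sub_sub_self hpos] at this
  have d4 := card_le_one.1 (Nat.le_of_dvd one_pos d3) (g z) (mem_orb.2 ⟨g, hgK, rfl⟩) z
    (self_mem_orb z)
  simpa using d4

end STEP

theorem step_of : St_step := fun _ _ _ _ _ h =>
  ⟨fun _ hS ht => STEP.up h hS ht, fun _ hJ => ⟨STEP.fus_tr h hJ, fun _ hi => STEP.fus_hom hJ hi⟩,
    fun h0 h1 h2 _ => STEP.triv h h0 h1 h2⟩

end Pool.Agent.H5Hom
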