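import Pool.Agent.Lib.MP_078193_al.NBlue
import Pool.Agent.Lib.MP_078193_al.MCof

/-! Block SYL: a Sylow subgroup of prime order and its normaliser. -/

open Finset Equiv
open scoped Pointwise

set_option linter.unusedSectionVars false

namespace Pool.Agent.H5Hom

namespace SYL

open Cof

variable {α : Type} [Fintype α] [DecidableEq α] {G P : Subgroup (Perm α)} {p : ℕ}

/-- the index of a Sylow normaliser is `1` modulo `p` -/
lemma exists_index (hp : p.Prime) (hS : Syl p G P) :
    ∃ m, Nat.card G = Nat.card (NN G P) * m ∧ m ≡ 1 [MOD p] := by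
  have : Fact p.Prime := ⟨hp⟩
  set Q : Sylow p G := Sylow.ofCard (P.subgroupOf G) ((card_subgroupOf hS.1).trans hS.2) with hQ
  have h1 := card_sylow_modEq_one p G
  rw [Q.card_eq_index_normalizer] at h1
  refine ⟨_, ?_, h1⟩
  have h2 : Subgroup.normalizer (Q : Set G) = (NN G P).subgroupOf G := by
    rw [NN, inf_comm, Subgroup.inf_subgroupOf_right, Subgroup.subgroupOf_normalizer_eq hS.1]
    rfl
  rw [h2, ← card_subgroupOf (Q := NN G P) (K := G) inf_le_left, Subgroup.card_mul_index]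

end SYL

open Cof SYL in
theorem sylN_of : St_sylN := by
  intro α _ _ G t p j htr hp ht hj hn hd hd2
  obtain ⟨P, hS⟩ := exists_syl' hp G
  have h0 : Nat.card G ≠ 0 := Nat.card_pos.ne'
  have ha : (Nat.card G).factorization p = 1 := by
    refine le_antisymm ?_ ((hp.dvd_iff_one_le_factorization h0).1 hd)
    by_contra h
    exact hd2 (pow_two p ▸ (hp.pow_dvd_iff_le_factorization h0).2 (by omega))
  have hP1 : Nat.card P = p ^ 1 := ha ▸ hS.2
  have hP : Nat.card P = p := hP1.trans (pow_one p)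
  obtain ⟨y, hy, hy1⟩ : ∃ y ∈ P, y ≠ 1 := by
    by_contra h
    push Not at h
    have : P = ⊥ := eq_bot_iff.2 fun y hy => Subgroup.mem_bot.2 (h y hy)
    rw [this, Subgroup.card_bot] at hP
    exact hp.one_lt.ne hP
  obtain ⟨x, hx⟩ : ∃ x, y x ≠ x := by
    by_contra h
    push Not at h
    exact hy1 (Perm.ext h)
  have hpn : p ≤ Fintype.card α :=
    (Nat.le_of_dvd (card_pos.2 ⟨x, self_mem_orb x⟩)
      (dvd_card_orb hp hP1 fun h => hx (mem_fixs.1 h y hy))).trans (card_le_univ _)
  have hRt : (fixs P).card ≤ t := by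
    by_contra h
    exact hy1 (htr y (hS.1 hy) (fixs P) (by omega) fun z hz => mem_fixs.1 hz y hy)
  have hR : (fixs P).card = j := by
    obtain ⟨m, hm⟩ := dvd_sub_fixs hp hP1
    obtain ⟨q, hq⟩ := hn
    have e : (p * q + j) % p = (p * m + (fixs P).card) % p := by congr 1; omega
    rw [Nat.mul_add_mod, Nat.mul_add_mod, Nat.mod_eq_of_lt (by omega),
      Nat.mod_eq_of_lt (by omega)] at e
    exact e.symm
  have hC : Nat.card (CC G P) ∣ Fintype.card α - j := by
    have := card_CC hp hP htr ht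
    rwa [card_sdiff_of_subset (subset_univ _), card_univ, hR] at this
  have hN := (card_NN (G := G) hp hP).trans (Nat.mul_dvd_mul_right hC _)
  have hPN : P ≤ NN G P := fun g hg => ⟨hS.1 hg, Subgroup.le_normalizer hg⟩
  obtain ⟨k, hk⟩ := Subgroup.card_dvd_of_le hPN
  rw [hP] at hk
  obtain ⟨m, hm, hm1⟩ := exists_index hp hS
  obtain ⟨q, hq⟩ := hn
  have hG : Nat.card G / p = k * m := by
    rw [hm, hk, mul_assoc, Nat.mul_div_cancel_left _ hp.pos]
  refine ⟨k, hG ▸ dvd_mul_right k m, ?_, fun i hi h => ?_, ?_⟩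
  · rw [hk, hq, mul_assoc, Nat.mul_dvd_mul_iff_left hp.pos] at hN
    rwa [hq, Nat.mul_div_cancel_left _ hp.pos, mul_comm]
  · obtain ⟨I, hI, hI'⟩ := exists_subset_card_eq (s := fixs P) (n := i) (by omega)
    have h1 : orb (NN G P) I = powersetCard i (fixs P) := by
      ext J
      rw [mem_powersetCard]
      refine ⟨fun hJ => ⟨?_, (card_of_mem_orb hJ).trans hI'⟩, fun hJ => ?_⟩
      · obtain ⟨g, hg, rfl⟩ := mem_orb.1 hJ
        exact inv_NN.smul_subset hg hI
      · obtain ⟨g, hg, rfl⟩ := h I (subset_univ _) J (subset_univ _) hI' hJ.2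
        exact mem_orb.2 (wittN hp hS hg hI hJ.1)
    have h2 : P ≤ st (NN G P) I := fun g hg => mem_st.2 ⟨hPN hg, by
      rw [smul_eq_image, image_congr (g := id) (fun y hy => mem_fixs.1 (hI hy) g hg), image_id]⟩
    obtain ⟨s, hs⟩ := Subgroup.card_dvd_of_le h2
    have h3 := orb_mul_st (NN G P) I
    rw [h1, card_powersetCard, hR, hs, hP, hk, mul_left_comm] at h3
    exact ⟨s, (Nat.eq_of_mul_eq_mul_left hp.pos h3).symm⟩
  · rw [hG]
    simpa using hm1.mul_left k

end Pool.Agent.H5Hom
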