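import Pool.Agent.Lib.MP_078193_al.NBlue
import Pool.Agent.Lib.MP_078193_al.MVar

/-! The variance inequality with the orbit sizes kept. -/

open Finset Equiv
open scoped Pointwise

set_option linter.unusedSectionVars false

namespace Pool.Agent.H5Hom

namespace Vp

variable {α : Type} [Fintype α] [DecidableEq α] {G : Subgroup (Perm α)}

lemma sum_img {t : ℕ} {A : ℕ → Finset α} (hA : Enu G t A) (F : Finset α → ℝ)
    (hF : ∀ X Y, Y ∈ orb G X → F Y = F X) :
    ∑ O ∈ (powersetCard t (univ : Finset α)).image (orb G), F (rep O)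
      = ∑ j ∈ range (nr G t), F (A j) := by
  classical
  have e : (powersetCard t (univ : Finset α)).image (orb G)
      = (range (nr G t)).image (fun j => orb G (A j)) := by
    ext O
    simp only [mem_image, mem_lev, mem_range]
    constructor
    · rintro ⟨B, hB, rfl⟩
      obtain ⟨j, hj, hj'⟩ := hA.surj B hB
      exact ⟨j, hj, (orb_eq hj').symm⟩
    · rintro ⟨j, hj, rfl⟩
      exact ⟨A j, hA.card j hj, rfl⟩
  rw [e, sum_image]
  · exact sum_congr rfl fun j _ => hF _ _ (rep_mem _)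
  · intro a ha b hb hab
    exact hA.inj a (mem_range.1 (mem_coe.1 ha)) b (mem_range.1 (mem_coe.1 hb))
      (orb_eq_iff.1 hab.symm)

lemma cs {β : Type} (W : Finset β) (u : β → ℝ) (s : ℝ) :
    (W.card : ℝ) * (s + ∑ y ∈ W, u y) ^ 2 ≤ ∑ y ∈ W, (s + W.card * u y) ^ 2 := by
  rcases Nat.eq_zero_or_pos W.card with h | h
  · rw [h]
    simp only [Nat.cast_zero, zero_mul]
    exact sum_nonneg fun _ _ => sq_nonneg _
  have h' : (0 : ℝ) < W.card := by exact_mod_cast h
  have h1 := sq_sum_le_card_mul_sum_sq (s := W) (f := fun y => s + W.card * u y)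
  rw [sum_add_distrib, sum_const, nsmul_eq_mul, ← mul_sum, ← mul_add] at h1
  refine le_of_mul_le_mul_left ?_ h'
  calc (W.card : ℝ) * (W.card * (s + ∑ y ∈ W, u y) ^ 2)
      = (W.card * (s + ∑ y ∈ W, u y)) ^ 2 := by ring
    _ ≤ _ := h1

end Vp

theorem vp_of : St_vp := by
  intro α _ _ G t i A hA h h0 h1 hit hn
  classical
  obtain ⟨f, hd⟩ := exists_dat h0 h1
  set F := lift (i + 1) f with hF
  have horb : ∀ X Y, Y ∈ orb G X → F Y = F X := fun X Y hY => hd.lift_orb hY
  obtain ⟨C₀, -, hC₀⟩ := exists_subset_card_eq (s := (univ : Finset α)) (n := t + 1)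
    (by rw [card_univ]; omega)
  have hr : nr G t ≤ t + 1 := by
    rw [nr, ← h.image hC₀, ← hC₀]
    exact card_image_le
  obtain ⟨T, hT⟩ : ∃ T, nr G t + T = t + 1 := ⟨t + 1 - nr G t, by omega⟩
  have hT' : (t : ℝ) + 1 - nr G t = T := by
    have : (nr G t : ℝ) + T = t + 1 := by exact_mod_cast hT
    linarith
  refine ⟨fun j => F (A j), ?_, ?_, ?_⟩
  · obtain ⟨A₁, A₂, a1, a2, a3⟩ := hd.nc_level hit (by omega)
    obtain ⟨j₁, b1, b2⟩ := hA.surj A₁ a1
    obtain ⟨j₂, c1, c2⟩ := hA.surj A₂ a2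
    by_contra hc
    push Not at hc
    apply a3
    rw [← hF, horb _ _ b2, horb _ _ c2, hc j₁ b1, hc j₂ c1]
  · have := hA.sum ℝ F horb
    rw [hF, hd.harm.mean (by omega) t] at this
    simpa only [nsmul_eq_mul] using this.symm
  rw [hT']
  set S := ∑ j ∈ range (nr G t), F (A j) with hS
  set Φ : Finset α → ℝ := fun X => (S + T * F X) ^ 2 with hΦ
  have hΦo : ∀ X Y, Y ∈ orb G X → Φ Y = Φ X := fun X Y hY => by
    simp only [hΦ, horb X Y hY]
  set Q := ∑ j ∈ range (nr G t), Φ (A j) with hQ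
  have key : ∀ C ∈ powersetCard (t + 1) (univ : Finset α),
      T * (((t : ℝ) - i) ^ 2 * F C ^ 2) ≤ ∑ x ∈ C, Φ (C.erase x) - Q := by
    intro C hC
    have hC' := mem_lev.1 hC
    obtain ⟨W, -, w2, w3⟩ := Var.split h hT hC'
    have e1 := w3 F horb
    have e2 := w3 Φ hΦo
    rw [Vp.sum_img hA F horb, ← hS, hF, lift_up, ← hF, hC'] at e1
    rw [Vp.sum_img hA Φ hΦo, ← hQ] at e2
    have e3 := Vp.cs W (fun x => F (C.erase x)) S
    rw [w2, ← e1] at e3
    push_cast at e3
    have e4 : ((t : ℝ) + 1 - (i + 1)) = t - i := by ring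
    rw [e4, mul_pow] at e3
    simp only [hΦ] at e2 ⊢
    linarith
  have hvar := hd.harm.var t
  rw [← hF, hA.sum ℝ (fun X => F X ^ 2) (fun X Y hY => by rw [horb X Y hY])] at hvar
  have hflag : ∑ C ∈ powersetCard (t + 1) (univ : Finset α), ∑ x ∈ C, Φ (C.erase x)
      = ((Fintype.card α : ℝ) - t) * ∑ j ∈ range (nr G t), ((orb G (A j)).card : ℝ) * Φ (A j) := by
    rw [sum_flag univ t (fun X _ => Φ X)]
    have := hA.sum ℝ Φ hΦo
    simp only [nsmul_eq_mul] at this
    rw [← this, mul_sum]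
    refine sum_congr rfl fun X hX => ?_
    rw [sum_compl_const, mem_lev.1 hX]
  have s1 := sum_le_sum key
  rw [sum_sub_distrib, hflag, sum_const, card_powersetCard, card_univ, nsmul_eq_mul, ← mul_sum,
    ← mul_sum] at s1
  simp only [nsmul_eq_mul] at hvar
  have hch : (((Fintype.card α).choose (t + 1) : ℕ) : ℝ) * (t + 1)
      = (Fintype.card α).choose t * ((Fintype.card α : ℝ) - t) := by
    have := Nat.choose_succ_right_eq (Fintype.card α) t
    have h2 : ((Fintype.card α - t : ℕ) : ℝ) = (Fintype.card α : ℝ) - t :=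
      Nat.cast_sub (by omega)
    rw [← h2]
    exact_mod_cast this
  have e5 : ∑ j ∈ range (nr G t), (((t : ℝ) + 1) * (orb G (A j)).card
        - (Fintype.card α).choose t) * (S + T * F (A j)) ^ 2
      = (t + 1) * ∑ j ∈ range (nr G t), ((orb G (A j)).card : ℝ) * Φ (A j)
        - (Fintype.card α).choose t * Q := by
    rw [hQ, mul_sum, mul_sum, ← sum_sub_distrib]
    refine sum_congr rfl fun j _ => ?_
    simp only [hΦ]
    ring
  rw [e5]
  set Z := ∑ j ∈ range (nr G t), ((orb G (A j)).card : ℝ) * F (A j) ^ 2 with hZ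
  set Y := ∑ C ∈ powersetCard (t + 1) (univ : Finset α), F C ^ 2 with hY
  set P := ∑ j ∈ range (nr G t), ((orb G (A j)).card : ℝ) * Φ (A j) with hP
  have s2 := mul_le_mul_of_nonneg_right s1 (show (0 : ℝ) ≤ t + 1 by positivity)
  have e6 : (T : ℝ) * (((t : ℝ) - i) * (Fintype.card α - t - (i + 1))) * (t + 1) * Z
      = T * (((t : ℝ) - i) ^ 2 * Y) * (t + 1) := by
    have : ((t : ℝ) - i) ^ 2 * Y = (t - i) * ((t - i) * Y) := by ring
    rw [this, hvar]
    ring
  rw [e6]
  refine s2.trans (le_of_eq ?_)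
  have e7 : (((Fintype.card α : ℝ) - t) * P - (Fintype.card α).choose (t + 1) * Q) * (t + 1)
      = ((Fintype.card α : ℝ) - t) * P * (t + 1)
        - (((Fintype.card α).choose (t + 1) : ℕ) : ℝ) * (t + 1) * Q := by ring
  rw [e7, hch]
  ring

end Pool.Agent.H5Hom
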