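import Pool.Agent.Lib.MP_078193_al.MFin
import Pool.Agent.Lib.MP_078193_al.NJump
import Pool.Agent.Lib.MP_078193_al.NJalt
import Pool.Agent.Lib.MP_078193_al.NGiant
import Pool.Agent.Lib.MP_078193_al.NStep
import Pool.Agent.Lib.MP_078193_al.NGood
import Pool.Agent.Lib.MP_078193_al.NS1
import Pool.Agent.Lib.MP_078193_al.NS2b
import Pool.Agent.Lib.MP_078193_al.NSyl
import Pool.Agent.Lib.MP_078193_al.NClimb
import Pool.Agent.Lib.MP_078193_al.NCan
import Pool.Agent.Lib.MP_078193_al.NB0
import Pool.Agent.Lib.MP_078193_al.NB1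
import Pool.Agent.Lib.MP_078193_al.NSize
import Pool.Agent.Lib.MP_078193_al.NInv
import Pool.Agent.Lib.MP_078193_al.NVp
import Pool.Agent.Lib.MP_078193_al.NInc
import Pool.Agent.Lib.MP_078193_al.NS13
import Pool.Agent.Lib.MP_078193_al.NS15

/-! All group-theoretic blocks together: the last case reduces to the arithmetic theorem. -/

namespace Pool.Agent.H5Hom

theorem giantA : St_giant := giant_of jump_of jalt_of

theorem factsA : St_facts :=
  facts_of jump_of step_of good_of s1N_of (s2Nb_of giantA) sylN_of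
    (b0_of (can_of climb_of) giantA step_of size_of)
    (b1_of (can_of climb_of) giantA step_of size_of) size_of invN_of
    (inc_of enu_of vp_of k1_of r2_of) s13_of s15_of m1A ebA var_of k1_of

theorem one_of (h : St_arith) : St_one := fun α _ _ G t B₀ A₀ hc _ htr => by
  obtain ⟨d, τ, ψ, hF⟩ := factsA α G t B₀ A₀ hc htr
  exact h _ _ _ _ _ _ _ _ hF

end Pool.Agent.H5Hom
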