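import Pool.Agent.Lib.MP_078193_al.NBlue2

/-! Soundness of the first group of arithmetic checkers. -/

open Finset
open scoped Nat

namespace Pool.Agent.H5Hom.Num

namespace Ari1

theorem bern (x k : ℕ) : (x + 1 - k) * (x + 1) ^ k ≤ (x + 1) * x ^ k := by
  induction k with
  | zero => simp
  | succ k ih =>
    have h : (x + 1 - (k + 1)) * (x + 1) ≤ x * (x + 1 - k) := by
      rcases le_or_gt k x with hk | hk
      · obtain ⟨y, rfl⟩ := Nat.exists_eq_add_of_le hk
        rw [show k + y + 1 - (k + 1) = y by omega, show k + y + 1 - k = y + 1 by omega]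
        nlinarith
      · rw [show x + 1 - (k + 1) = 0 by omega]
        simp
    calc (x + 1 - (k + 1)) * (x + 1) ^ (k + 1) = (x + 1 - (k + 1)) * (x + 1) * (x + 1) ^ k := by ring
      _ ≤ x * (x + 1 - k) * (x + 1) ^ k := Nat.mul_le_mul_right _ h
      _ = x * ((x + 1 - k) * (x + 1) ^ k) := by ring
      _ ≤ x * ((x + 1) * x ^ k) := Nat.mul_le_mul_left _ ih
      _ = (x + 1) * x ^ (k + 1) := by ring

theorem jumps {t n d τ r ψ g : ℕ} {ν : ℕ → ℕ} (h : Facts t n d τ r ψ g ν) (S : Finset ℕ)
    (hS : ∀ j ∈ S, j < t ∧ ν j ≠ ν (j + 1)) : S.card + 1 ≤ r := by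
  have key : ∀ i ≤ t, (S.filter (· < i)).card + 1 ≤ ν i := by
    intro i
    induction i with
    | zero =>
      intro _
      have := h.r2
      have := h.rd
      rw [h.low 0 (by omega)]
      simp
    | succ i ih =>
      intro hi
      have e1 := ih (by omega)
      have e2 := h.mono i (by omega)
      by_cases hiS : i ∈ S
      · have e3 := (hS i hiS).2
        have e4 : (S.filter (· < i + 1)).card ≤ (S.filter (· < i)).card + 1 := by
          refine le_trans (card_le_card (t := insert i (S.filter (· < i))) fun j hj => ?_)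
            (card_insert_le _ _)
          simp only [mem_filter, mem_insert] at hj ⊢
          by_cases e : j = i
          · exact .inl e
          · exact .inr ⟨hj.1, by omega⟩
        omega
      · have e4 : (S.filter (· < i + 1)).card ≤ (S.filter (· < i)).card := by
          refine card_le_card fun j hj => ?_
          simp only [mem_filter] at hj ⊢
          have : j ≠ i := fun e => hiS (e ▸ hj.1)
          exact ⟨hj.1, by omega⟩
        omega
  have := key t le_rfl
  rwa [filter_true_of_mem fun j hj => (hS j hj).1, h.top] at this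

end Ari1

theorem t4_of : St_t4 := by
  intro t n d τ r ψ g ν h τ' hτ
  have h1 := h.rd
  have h2 := h.hd
  have h3 := h.hτ
  have h4 := h.hn
  refine foldR_ind (fun _ x => r ≤ x) _ _ _ _ (by omega) fun l x _ _ hx => ?_
  cases hc : (isP l && Nat.ble ((t + 1) % l + l) τ')
  · exact hx
  · simp only [Bool.and_eq_true, Nat.ble_eq] at hc
    have hp := isP_prime hc.1
    have e1 := Nat.mod_lt (n - (t + 1) % l) hp.pos
    have e2 : l ∣ n - ((t + 1) % l + (n - (t + 1) % l) % l) := by
      rw [← Nat.sub_sub]
      exact Nat.dvd_sub_mod _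
    have := (h.tr l _ hp (by omega) e2).2.2 (by omega)
    simp only [cond_true, mn_eq]
    omega

theorem mB_of : St_mB := by
  rintro t n ⟨e, h1, h2, h3, h4, h5⟩
  have : n * 3 ≤ n * e := Nat.mul_le_mul_left _ h1
  simp only [modeB, Bool.and_eq_true, Nat.ble_eq, Nat.beq_eq, anyR_iff, dv_iff]
  exact ⟨by omega, e, h1, by omega, ⟨⟨h3, h2⟩, h4⟩, h5⟩

theorem nu_of : St_nu := by
  intro t n d τ r ψ g ν h i hi
  rw [← h.top]
  induction hi using Nat.decreasingInduction with
  | self => exact le_rfl
  | of_succ k hk ih => exact (h.mono k hk).trans ih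

theorem jc_of : St_jc := by
  intro t n d τ r ψ g ν h S hS
  have h1 := h.rd
  have h2 := h.hd
  have h3 := h.r2
  refine ⟨Ari1.jumps h S hS, fun j hj => ?_, fun hd => ?_⟩
  · by_contra hc
    exact (hS j hj).2 (by rw [h.low j (by omega), h.low (j + 1) (by omega)])
  · have hn : d - 1 ∉ S := fun e => by
      have := hd _ e
      omega
    have := Ari1.jumps h (insert (d - 1) S) fun j hj => by
      rcases mem_insert.1 hj with rfl | hj
      · have := h.atd
        rw [h.low (d - 1) (by omega), show d - 1 + 1 = d by omega]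
        omega
      · exact hS j hj
    rwa [card_insert_of_notMem hn] at this

theorem mono_of : St_mono := by
  intro a k b L X x h hx
  simp only [mono, Bool.and_eq_true, Nat.ble_eq, Nat.blt_eq, df_eq] at h
  obtain ⟨hk, h⟩ := h
  induction hx with
  | refl => exact h
  | @step y _ ih =>
    refine lt_of_mul_lt_mul_left (a := y + 1 - L) ?_ (Nat.zero_le _)
    calc (y + 1 - L) * (a * (y + 1) ^ k) = a * ((y + 1 - L) * (y + 1) ^ k) := by ring
      _ ≤ a * ((y + 1 - k) * (y + 1) ^ k) :=
        Nat.mul_le_mul_left _ (Nat.mul_le_mul_right _ (by omega))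
      _ ≤ a * ((y + 1) * y ^ k) := Nat.mul_le_mul_left _ (Ari1.bern y k)
      _ = (y + 1) * (a * y ^ k) := by ring
      _ < (y + 1) * (b * y.descFactorial L) := Nat.mul_lt_mul_of_pos_left ih (Nat.succ_pos _)
      _ = b * ((y + 1) * y.descFactorial L) := by ring
      _ = (y + 1 - L) * (b * (y + 1).descFactorial L) := by
        rw [← Nat.succ_descFactorial]
        ring

end Pool.Agent.H5Hom.Num
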