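import Pool.Agent.Lib.MP_078193_al.NBlue2

/-! The variance bounds are antitone in the degree; the first non-homogeneous level is at least 3. -/

open Finset

namespace Pool.Agent.H5Hom.Num

namespace Ari2

theorem lin (x z e d A B : ℕ) (h : (x + z) * A ≤ d * (x + z + e) * B) :
    x * A ≤ d * (x + e) * B := by
  rcases Nat.le_total A (d * B) with h1 | h1
  · calc x * A ≤ x * (d * B) := Nat.mul_le_mul_left _ h1
      _ ≤ (x + e) * (d * B) := Nat.mul_le_mul_right _ (Nat.le_add_right _ _)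
      _ = d * (x + e) * B := by ring
  · have h2 : z * (d * B) ≤ z * A := Nat.mul_le_mul_left _ h1
    have h3 : d * (x + z + e) * B = d * (x + e) * B + z * (d * B) := by ring
    have h4 : (x + z) * A = x * A + z * A := by ring
    omega

theorem core (t M D N W p c : ℤ) (hW : 0 < W) (hD : 0 < D) (hc : c < t)
    (hE : c * p * D = (t + 1) * W * N * (t - c))
    (h1 : W < p) (h2 : p < (t - c) * W) (hc0 : 0 ≤ c)
    (hI : ((t + 1) * M - D) * (p * ((t + 1) * W - p))
      ≤ (t + 1) * M * (((t - c) * W - p) * (p - W))) :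
    (t + 1) * M * ((t + 1) * N + D) < t * D ^ 2 := by
  have hp : 0 < p := lt_trans hW h1
  have h3 : (t + 1) * M * (c * p * W + (t - c) * W ^ 2) ≤ D * (p * ((t + 1) * W - p)) := by
    nlinarith [hI]
  have h4 : 0 < (t + 1) * W - p := by nlinarith [mul_nonneg hc0 hW.le]
  have h5 : (t + 1) * W - p < t * W := by nlinarith
  have h6 : p * ((t + 1) * W - p) < ((t - c) * W) * (t * W) :=
    mul_lt_mul'' h2 h5 hp.le h4.le
  have h7 : D * ((t + 1) * M * (c * p * W + (t - c) * W ^ 2))
      = ((t - c) * W ^ 2) * ((t + 1) * M * ((t + 1) * N + D)) := by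
    have : D * ((t + 1) * M * (c * p * W + (t - c) * W ^ 2))
        = (t + 1) * M * W * (c * p * D) + (t + 1) * M * D * ((t - c) * W ^ 2) := by ring
    rw [this, hE]
    ring
  have h8 : D * ((t + 1) * M * (c * p * W + (t - c) * W ^ 2))
      ≤ D * (D * (p * ((t + 1) * W - p))) := mul_le_mul_of_nonneg_left h3 hD.le
  have h9 : D * (D * (p * ((t + 1) * W - p))) < D * (D * (((t - c) * W) * (t * W))) :=
    mul_lt_mul_of_pos_left (mul_lt_mul_of_pos_left h6 hD) hD
  have h10 : ((t - c) * W ^ 2) * ((t + 1) * M * ((t + 1) * N + D))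
      < ((t - c) * W ^ 2) * (t * D ^ 2) := by
    rw [← h7]
    refine lt_of_lt_of_eq (lt_of_le_of_lt h8 h9) ?_
    ring
  exact lt_of_mul_lt_mul_left h10 (mul_nonneg (by linarith) (sq_nonneg W))

theorem two {t n d m γ : ℕ} {w : ℕ → ℕ} {a b : ℕ → ℕ → ℕ} (hI : Inc t n d 2 m γ w a b)
    (hn : 2 * t + 1 ≤ n) (hd : d + 1 ≤ t) (hd0 : 1 ≤ d) :
    (t + 1) * (n - t) * ((t + 1) * (t - d) * (n + 1 - (t + d)) + d * (n + 1 - d))
      < t * d * d * (n + 1 - d) ^ 2 := by
  obtain ⟨c, u, hc1, hct, hu, hE, hle⟩ := hI.two rfl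
  have hw0 := hI.wpos 0 (by omega)
  have hw1 := hI.wpos 1 (by omega)
  generalize hW : w 0 + w 1 = W at hE hle
  have hu0 : 0 < u := by omega
  have huW : u < W := by omega
  have hpos : 0 < (t + 1 - d) * (n - t - d) * (t + 1) * u * (W - u) := by
    have h1 : 0 < t + 1 - d := by omega
    have h2 : 0 < n - t - d := by omega
    have h3 : 0 < W - u := by omega
    positivity
  have hr := lt_of_lt_of_le hpos hle
  have h1 : (t + 1) * u < (t - c) * W := by
    by_contra hc
    rw [Nat.sub_eq_zero_of_le (not_lt.1 hc)] at hr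
    simp at hr
  have h2 : W < (t + 1) * u := by
    by_contra hc
    rw [Nat.sub_eq_zero_of_le (not_lt.1 hc)] at hr
    simp at hr
  obtain ⟨e, rfl⟩ : ∃ e, t = d + e := ⟨t - d, by omega⟩
  obtain ⟨x, rfl⟩ : ∃ x, n = 2 * (d + e) + 1 + x := ⟨n - (2 * (d + e) + 1), by omega⟩
  have e1 : 2 * (d + e) + 1 + x - (d + e) = d + e + 1 + x := by omega
  have e2 : d + e - d = e := by omega
  have e3 : 2 * (d + e) + 1 + x + 1 - (d + e + d) = e + 2 + x := by omega
  have e4 : 2 * (d + e) + 1 + x + 1 - d = d + 2 * e + 2 + x := by omega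
  have e5 : 2 * (d + e) + 1 + x + 1 - (d + e) - d = e + 2 + x := by omega
  have e6 : d + e + 1 - d = e + 1 := by omega
  have e7 : d + e + 1 + x - d = e + 1 + x := by omega
  rw [e1, e2, e3, e4]
  rw [e2, e4, e5] at hE
  rw [e6, e1, e7] at hle
  zify [hct.le, h1.le, h2.le, huW.le] at hE hle h1 h2 ⊢
  have hk := core ((d : ℤ) + e) (d + e + 1 + x) (d * (d + 2 * e + 2 + x)) (e * (e + 2 + x)) W
    ((d + e + 1) * u) c (by exact_mod_cast lt_trans hu0 huW) (by positivity)
    (by exact_mod_cast hct) (by linear_combination ((d : ℤ) + e + 1) * hE) h2 h1 (by positivity)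
    (by
      have h3 : (0 : ℤ) ≤ d + e + 1 := by positivity
      have h4 := mul_le_mul_of_nonneg_left hle h3
      linarith [h4])
  linarith [hk]

theorem anti (T k d s U z α : ℕ) (hU : 0 < U) (h1 : α ≤ U) (h2 : s ≤ U) (R : ℕ)
    (h : T * (U + z - α) * (k * (U + z - s) + d * (U + z)) < R * (U + z) ^ 2) :
    T * (U - α) * (k * (U - s) + d * U) < R * U ^ 2 := by
  have h3 : (U - α) * (U + z) ≤ (U + z - α) * U := by
    obtain ⟨y, rfl⟩ := Nat.exists_eq_add_of_le h1
    have e1 : α + y + z - α = y + z := by omega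
    rw [Nat.add_sub_cancel_left, e1]
    nlinarith [Nat.zero_le (α * z)]
  have h4 : (U - s) * (U + z) ≤ (U + z - s) * U := by
    obtain ⟨y, rfl⟩ := Nat.exists_eq_add_of_le h2
    have e1 : s + y + z - s = y + z := by omega
    rw [Nat.add_sub_cancel_left, e1]
    nlinarith [Nat.zero_le (s * z)]
  have h5 : (k * (U - s) + d * U) * (U + z) ≤ (k * (U + z - s) + d * (U + z)) * U := by
    have := Nat.mul_le_mul_left k h4
    calc (k * (U - s) + d * U) * (U + z) = k * ((U - s) * (U + z)) + d * U * (U + z) := by ring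
      _ ≤ k * ((U + z - s) * U) + d * U * (U + z) := Nat.add_le_add_right this _
      _ = _ := by ring
  have h6 := Nat.mul_le_mul_left T (Nat.mul_le_mul h3 h5)
  have h7 := Nat.mul_lt_mul_of_pos_right h (pow_pos hU 2)
  refine lt_of_mul_lt_mul_right (a := (U + z) ^ 2) ?_ (Nat.zero_le _)
  calc T * (U - α) * (k * (U - s) + d * U) * (U + z) ^ 2
      = T * ((U - α) * (U + z) * ((k * (U - s) + d * U) * (U + z))) := by ring
    _ ≤ _ := h6
    _ = T * (U + z - α) * (k * (U + z - s) + d * (U + z)) * U ^ 2 := by ring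
    _ < _ := h7
    _ = R * U ^ 2 * (U + z) ^ 2 := by ring

end Ari2

theorem vr_of : St_vr := by
  intro t n d τ r ψ g ν hF X h1 h2
  have hd := hF.hd
  have hr2 := hF.r2
  have hrd := hF.rd
  simp only [vr, vok, r2ok, Bool.and_eq_true, Bool.or_eq_true, Bool.not_eq_true', Nat.ble_eq,
    Nat.blt_eq, beq_false]
  obtain ⟨z, rfl⟩ := Nat.exists_eq_add_of_le h2
  constructor
  · have hv := hF.var
    have e1 : X + z - t = X - t + z := by omega
    have e2 : X + z + 1 - d = X - t + z + (t + 1 - d) := by omega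
    have e3 : X + 1 - d = X - t + (t + 1 - d) := by omega
    rw [e1, e2] at hv
    rw [e3]
    exact Ari2.lin _ _ _ _ _ _ hv
  · by_cases hr : r = 2
    · right
      subst hr
      obtain ⟨m, γ, Λ, e, w, a, b, hI, -⟩ := hF.inc
      have h3 := Ari2.two hI hF.hn hd (by omega)
      have e1 : X + z - t = X + 1 - d + z - (t + 1 - d) := by omega
      have e2 : X + z + 1 - (t + d) = X + 1 - d + z - t := by omega
      have e3 : X + z + 1 - d = X + 1 - d + z := by omega
      have e4 : X - t = X + 1 - d - (t + 1 - d) := by omega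
      have e5 : X + 1 - (t + d) = X + 1 - d - t := by omega
      rw [e1, e2, e3] at h3
      rw [e4, e5]
      exact Ari2.anti _ _ _ _ _ _ _ (by omega) (by omega) (by omega) _ h3
    · exact Or.inl hr

theorem d3_of : St_d3 := by
  intro t n d τ r ψ g ν hF
  by_contra hc
  have hr2 := hF.r2
  have hrd := hF.rd
  have ht := hF.ht
  have h := vr_of t n d τ r ψ g ν hF (2 * t + 1) le_rfl hF.hn
  obtain rfl : d = 2 := by omega
  obtain rfl : r = 2 := by omega
  simp only [vr, vok, r2ok, Bool.and_eq_true, Bool.or_eq_true, Bool.not_eq_true', Nat.ble_eq,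
    Nat.blt_eq, beq_false] at h
  rcases h.2 with h1 | h1
  · exact h1 rfl
  · obtain ⟨s, rfl⟩ := Nat.exists_eq_add_of_le ht
    have e1 : 2 * (6 + s) + 1 - (6 + s) = 7 + s := by omega
    have e2 : 6 + s - 2 = 4 + s := by omega
    have e3 : 2 * (6 + s) + 1 + 1 - (6 + s + 2) = 6 + s := by omega
    have e4 : 2 * (6 + s) + 1 + 1 - 2 = 2 * (6 + s) := by omega
    rw [e1, e2, e3, e4] at h1
    have h2 : (6 + s + 1) * (7 + s) * ((6 + s + 1) * (4 + s) * (6 + s) + 2 * (2 * (6 + s)))
        = (6 + s) * 2 * 2 * (2 * (6 + s)) ^ 2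
          + (6 + s) * (992 + 795 * s + 219 * s ^ 2 + 25 * s ^ 3 + s ^ 4) := by ring
    omega

end Pool.Agent.H5Hom.Num
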