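import Pool.Agent.Lib.MP_078193_al.NBlue

/-! The order bound when the group is one step more homogeneous than transitive. -/

open Finset Equiv
open scoped Pointwise Nat

set_option linter.unusedSectionVars false

namespace Pool.Agent.H5Hom

namespace B1

variable {α : Type} [Fintype α] [DecidableEq α]

lemma card_orb_eq {H : Subgroup (Perm α)} {Ω S : Finset α} (h : Hom H Ω (S.card + 1))
    (hS : S ⊆ Ω) {x y : α} (hx : x ∈ Ω) (hx' : x ∉ S) (hy : y ∈ Ω) (hy' : y ∉ S) :
    (orb (fx H S) y).card = (orb (fx H S) x).card := by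
  have h1 : insert y S ∈ orb H (insert x S) :=
    mem_orb.2 (h _ (insert_subset hx hS) _ (insert_subset hy hS) (card_insert_of_notMem hx')
      (card_insert_of_notMem hy'))
  have h2 := orb_fx_mul (H := H) S x
  have h3 := orb_fx_mul (H := H) S y
  rw [card_fx_of_mem_orb h1, ← h2] at h3
  exact Nat.eq_of_mul_eq_mul_right Nat.card_pos h3

lemma card_eq_mul {β : Type} [DecidableEq β] (Y : Finset α) (f : α → β) (l : ℕ)
    (h : ∀ x ∈ Y, (Y.filter (fun y => f y = f x)).card = l) :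
    Y.card = (Y.image f).card * l := by
  rw [card_eq_sum_card_image f Y, ← smul_eq_mul, ← sum_const]
  refine sum_congr rfl fun b hb => ?_
  obtain ⟨x, hx, rfl⟩ := mem_image.1 hb
  exact h x hx

lemma notMem_of_orb {H : Subgroup (Perm α)} {S : Finset α} {x y : α} (hx : x ∉ S)
    (h : y ∈ orb (fx H S) x) : y ∉ S := by
  obtain ⟨g, hg, rfl⟩ := mem_orb.1 h
  intro h'
  have := hg.2 _ h'
  simp only [Perm.smul_def, EmbeddingLike.apply_eq_iff_eq] at this h'
  exact hx (this ▸ h')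

lemma orb_mono {H K : Subgroup (Perm α)} (h : K ≤ H) {x y : α} (hy : y ∈ orb K x) :
    y ∈ orb H x := by
  obtain ⟨g, hg, rfl⟩ := mem_orb.1 hy
  exact mem_orb.2 ⟨g, h hg, rfl⟩

lemma fx_st_le (G : Subgroup (Perm α)) (J S : Finset α) : fx (st G J) S ≤ fx G S :=
  fun _ hg => ⟨(mem_st.1 hg.1).1, hg.2⟩

lemma fiber {G : Subgroup (Perm α)} {J S : Finset α} (hF : Fus G J) (hS : S ⊆ J) {x : α}
    (hx : x ∈ J \ S) :
    (J \ S).filter (fun y => orb (fx G S) y = orb (fx G S) x) = orb (fx (st G J) S) x := by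
  obtain ⟨hxJ, hxS⟩ := mem_sdiff.1 hx
  ext y
  rw [mem_filter, orb_eq_iff, mem_sdiff]
  constructor
  · rintro ⟨⟨h1, -⟩, h3⟩
    obtain ⟨g, hg, rfl⟩ := mem_orb.1 h3
    obtain ⟨u, hu, hu'⟩ := hF (insert x S) (insert_subset hxJ hS) g hg.1 (by
      intro z hz
      rcases mem_insert.1 hz with rfl | hz
      · exact h1
      · rw [hg.2 z hz]; exact hS hz)
    exact mem_orb.2 ⟨u, ⟨hu, fun z hz => by rw [hu' z (mem_insert_of_mem hz), hg.2 z hz]⟩,
      hu' x (mem_insert_self _ _)⟩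
  · intro h
    refine ⟨⟨?_, notMem_of_orb hxS h⟩, orb_mono (fx_st_le G J S) h⟩
    obtain ⟨g, hg, rfl⟩ := mem_orb.1 h
    exact inv_st J g hg.1 x hxJ

lemma inv_off {Q G : Subgroup (Perm α)} {J : Finset α} (h : Q ≤ fx G J) : Inv Q (univ \ J) := by
  intro g hg x hx
  refine mem_sdiff.2 ⟨mem_univ _, fun h' => (mem_sdiff.1 hx).2 ?_⟩
  have := (h hg).2 _ h'
  rw [EmbeddingLike.apply_eq_iff_eq] at this
  exact this ▸ h'

lemma inv_orb {Q K : Subgroup (Perm α)} (h : Q ≤ K) (x : α) : Inv Q (orb K x) :=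
  fun _ hg _ hy => (smul_mem_orb (h hg)).2 hy

end B1

open B1 in
theorem b1_of (hcan : St_can) (hgiant : St_giant) (hstep : St_step) (hsize : St_size) :
    St_b1 := by
  classical
  intro α _ _ G t τ htr hτ hτ1 hH ht hn hr
  obtain ⟨S, -, rfl⟩ := exists_subset_card_eq (s := (univ : Finset α)) (n := τ)
    (by rw [card_univ]; omega)
  obtain ⟨s1, s2, -⟩ := hstep α G S.card hτ
  have hne : ∃ x ∉ S, ∃ y ∉ S, y ∉ orb (fx G S) x := by
    by_contra hc
    push Not at hc
    exact hτ1 (s1 S rfl hc)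
  obtain ⟨x₀, hx₀, y₀, hy₀, hxy⟩ := hne
  set K := fx G S with hK
  set n := Fintype.card α with hn'
  set L := (orb K x₀).card with hL
  have hLall : ∀ y ∉ S, (orb K y).card = L := fun y hy =>
    card_orb_eq hH (subset_univ S) (mem_univ _) hx₀ (mem_univ _) hy
  set a := ((univ \ S).image (orb K)).card with ha
  have ha2 : 2 ≤ a := by
    refine one_lt_card.2 ⟨orb K x₀, mem_image_of_mem _ (mem_sdiff.2 ⟨mem_univ _, hx₀⟩),
      orb K y₀, mem_image_of_mem _ (mem_sdiff.2 ⟨mem_univ _, hy₀⟩), fun h => hxy ?_⟩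
    exact orb_eq_iff.1 h.symm
  have haL : n - S.card = a * L := by
    rw [hn', ← card_univ, ← card_sdiff_of_subset (subset_univ S)]
    refine card_eq_mul _ _ _ fun x hx => ?_
    rw [← hLall x (mem_sdiff.1 hx).2]
    congr 1
    ext y
    rw [mem_filter, orb_eq_iff, mem_sdiff]
    exact ⟨fun h => h.2, fun h => ⟨⟨mem_univ _, notMem_of_orb (mem_sdiff.1 hx).2 h⟩, h⟩⟩
  have hH' : ∀ i < S.card + 2, Hom G univ i := by
    intro i hi
    rcases Nat.lt_or_ge S.card i with h | h
    · obtain rfl : i = S.card + 1 := by omega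
      exact hH
    · exact hτ.hom h
  refine ⟨a, ha2, ?_⟩
  set Bad := (Ico (S.card + 1) t).filter
    (fun j => a ∣ j - S.card ∧ (¬ GiP j S.card (S.card + 2) (nr G t) ∨ j = S.card + 2)) with hBad
  set F := (t - S.card - 1)! with hF
  set M := Nat.lcmUpto (t - S.card - 1) with hM
  set P := ∏ j ∈ Bad, (n - j) with hP
  have hdvd : Nat.card K ∣ F * M * L * P := by
    have hpos : 0 < F * M * L * P := by
      have e1 : 0 < F := Nat.factorial_pos _
      have e2 : 0 < M := Nat.lcmUpto_pos _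
      have e3 : 0 < L := card_pos.2 ⟨x₀, self_mem_orb x₀⟩
      have e4 : 0 < P := prod_pos fun j hj => by
        have := (mem_Ico.1 (mem_filter.1 hj).1).2
        omega
      positivity
    rw [← Nat.factorization_prime_le_iff_dvd Nat.card_pos.ne' hpos.ne']
    intro p hp
    rw [← hp.pow_dvd_iff_le_factorization hpos.ne']
    rcases hcan α G S t p hp htr hτ ht (by omega) with h | ⟨J, h, Q, hSJ, hJ, hQ, hd, hh, hFus⟩
    · exact h.trans ((Dvd.intro _ rfl).mul_right _)
    refine hd.trans ?_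
    have hQK : Q ≤ K := hQ.trans (fx_anti hSJ)
    by_cases hmiss : ∃ x ∉ S, ∀ y ∈ orb K x, y ∉ J
    · obtain ⟨x, hx, hx'⟩ := hmiss
      have h1 : h ∣ L := by
        rw [← hLall x hx]
        exact dvd_card_of_orb (inv_orb hQK x) fun y hy => hh y (hx' y hy)
      calc F * h ∣ F * L := Nat.mul_dvd_mul_left _ h1
        _ ∣ F * M * L * P := ⟨M * P, by ring⟩
    push Not at hmiss
    obtain ⟨x₁, hx₁, hx₁J⟩ := hmiss x₀ hx₀
    obtain ⟨y₁, hy₁, hy₁J⟩ := hmiss y₀ hy₀
    have hx₁S : x₁ ∉ S := notMem_of_orb hx₀ hx₁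
    have hy₁S : y₁ ∉ S := notMem_of_orb hy₀ hy₁
    have hHJ : Hom (st G J) J (S.card + 1) := (s2 J hFus).2 _ hH
    have himg : (J \ S).image (orb K) = (univ \ S).image (orb K) := by
      refine Subset.antisymm (image_subset_image (sdiff_subset_sdiff (subset_univ J) subset_rfl))
        fun O hO => ?_
      obtain ⟨x, hx, rfl⟩ := mem_image.1 hO
      obtain ⟨y, hy, hyJ⟩ := hmiss x (mem_sdiff.1 hx).2
      exact mem_image.2 ⟨y, mem_sdiff.2 ⟨hyJ, notMem_of_orb (mem_sdiff.1 hx).2 hy⟩, orb_eq hy⟩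
    have hj : J.card - S.card = a * (orb (fx (st G J) S) x₁).card := by
      rw [← card_sdiff_of_subset hSJ, ha, ← himg]
      refine card_eq_mul _ _ _ fun x hx => ?_
      rw [hK, fiber hFus hSJ hx]
      exact card_orb_eq hHJ hSJ hx₁J hx₁S (mem_sdiff.1 hx).1 (mem_sdiff.1 hx).2
    have hl : 0 < (orb (fx (st G J) S) x₁).card := card_pos.2 ⟨x₁, self_mem_orb x₁⟩
    have hj2 : S.card + 2 ≤ J.card := by
      have : 2 * 1 ≤ a * (orb (fx (st G J) S) x₁).card := Nat.mul_le_mul ha2 hl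
      omega
    have hmem : J.card ∈ Bad := by
      refine mem_filter.2 ⟨mem_Ico.2 ⟨by omega, hJ⟩, ⟨_, hj⟩, ?_⟩
      by_contra hc
      push Not at hc
      have hA := hgiant α G J S.card (S.card + 2) (nr G t) hFus hτ hH'
        (fun i hi => hr i (by omega)) hc.1
      have hT := (hA.tr (inv_st J)).orb_fx (inv_st J) hSJ (by have := hc.2; omega) hx₁J hx₁S
      have h1 : y₁ ∈ orb K x₁ :=
        orb_mono (fx_st_le G J S) (hT ▸ mem_sdiff.2 ⟨hy₁J, hy₁S⟩)
      exact hxy (orb_trans (orb_trans hx₁ h1) (orb_symm hy₁))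
    have h1 : h ∣ n - J.card := by
      rw [hn', ← card_univ, ← card_sdiff_of_subset (subset_univ J)]
      exact dvd_card_of_orb (inv_off hQ) fun y hy => hh y (mem_sdiff.1 hy).2
    have h2 : n - J.card ∣ P := dvd_prod_of_mem _ hmem
    calc F * h ∣ F * P := Nat.mul_dvd_mul_left _ (h1.trans h2)
      _ ∣ F * M * L * P := ⟨M * L, by ring⟩
  have hpos : 0 < F * M * L * P := by
    have e1 : 0 < F := Nat.factorial_pos _
    have e2 : 0 < M := Nat.lcmUpto_pos _
    have e3 : 0 < L := card_pos.2 ⟨x₀, self_mem_orb x₀⟩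
    have e4 : 0 < P := prod_pos fun j hj => by
      have := (mem_Ico.1 (mem_filter.1 hj).1).2
      omega
    positivity
  have hKle := Nat.le_of_dvd hpos hdvd
  have hPle : P ≤ (n - S.card) ^ Bad.card := prod_le_pow_card _ _ _ fun j hj => by
    have := (mem_Ico.1 (mem_filter.1 hj).1).1
    omega
  have hG := hτ.card_fx inv_univ S (subset_univ S) le_rfl
  rw [card_univ] at hG
  have hC := (hsize α G t).1
  have hD := Nat.descFactorial_mul_descFactorial (n := n) (k := S.card) (m := t) (by omega)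
  have hDpos : 0 < n.descFactorial S.card := Nat.descFactorial_pos.2 (by omega)
  have h1 : (n - S.card).descFactorial (t - S.card) ≤ nr G t * t ! * Nat.card K := by
    refine Nat.le_of_mul_le_mul_right ?_ hDpos
    rw [hD, Nat.descFactorial_eq_factorial_mul_choose]
    calc t ! * n.choose t ≤ t ! * (nr G t * Nat.card G) := Nat.mul_le_mul_left _ hC
      _ = _ := by rw [← hG]; ring
  have h2 : 2 * L ≤ n - S.card := haL ▸ Nat.mul_le_mul_right _ ha2
  calc 2 * (n - S.card).descFactorial (t - S.card)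
      ≤ 2 * (nr G t * t ! * (F * M * L * P)) :=
        Nat.mul_le_mul_left _ (h1.trans (Nat.mul_le_mul_left _ hKle))
    _ = nr G t * t ! * F * M * ((2 * L) * P) := by ring
    _ ≤ nr G t * t ! * F * M * ((n - S.card) * (n - S.card) ^ Bad.card) :=
        Nat.mul_le_mul_left _ (Nat.mul_le_mul h2 hPle)
    _ = _ := by rw [pow_add, pow_one]

end Pool.Agent.H5Hom
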