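import Pool.Agent.Lib.MP_078193_al.NNum

/-! Specifications of the basic combinators of `NNum`. -/

open Finset
open scoped Nat

namespace Pool.Agent.H5Hom.Num

theorem r_add (a b : ℕ) : Nat.add a b = a + b := rfl
theorem r_sub (a b : ℕ) : Nat.sub a b = a - b := rfl
theorem r_mul (a b : ℕ) : Nat.mul a b = a * b := rfl
theorem r_div (a b : ℕ) : Nat.div a b = a / b := rfl
theorem r_mod (a b : ℕ) : Nat.mod a b = a % b := rfl
theorem r_pow (a b : ℕ) : Nat.pow a b = a ^ b := rfl
theorem r_lor (a b : ℕ) : Nat.lor a b = a ||| b := rfl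
theorem r_land (a b : ℕ) : Nat.land a b = a &&& b := rfl
theorem r_xor (a b : ℕ) : Nat.xor a b = a ^^^ b := rfl
theorem r_shl (a b : ℕ) : Nat.shiftLeft a b = a <<< b := rfl
theorem r_shr (a b : ℕ) : Nat.shiftRight a b = a >>> b := rfl

attribute [simp] r_add r_sub r_mul r_div r_mod r_pow r_lor r_land r_xor r_shl r_shr

@[simp] theorem frc_eq {α : Type} (n : ℕ) (k : ℕ → α) : frc n k = k n := by cases n <;> rfl

@[simp] theorem nz_iff (n : ℕ) (k : ℕ → Bool) : nz n k = true ↔ n = 0 ∨ k n = true := by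
  cases n with
  | zero => simp [nz]
  | succ m => simp [nz]

@[simp] theorem frcL_eq (l : List ℕ) (k : List ℕ → Bool) : frcL l k = k l := by
  induction l generalizing k with
  | nil => rfl
  | cons x xs ih =>
    show (frc x fun y => frcL xs fun ys => k (y :: ys)) = _
    rw [frc_eq, ih]

@[simp] theorem frcLL_eq (l : List (List ℕ)) (k : List (List ℕ) → Bool) : frcLL l k = k l := by
  induction l generalizing k with
  | nil => rfl
  | cons x xs ih =>
    show (frcL x fun y => frcLL xs fun ys => k (y :: ys)) = _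
    rw [frcL_eq, ih]

theorem allR_succ (lo k : ℕ) (f : ℕ → Bool) : allR lo (k + 1) f = (f (lo + k) && allR lo k f) := rfl
theorem anyR_succ (lo k : ℕ) (f : ℕ → Bool) : anyR lo (k + 1) f = (f (lo + k) || anyR lo k f) := rfl
@[simp] theorem foldR_zero (lo : ℕ) (f : ℕ → ℕ → ℕ) (a : ℕ) : foldR lo 0 f a = a := rfl
theorem foldR_succ (lo k : ℕ) (f : ℕ → ℕ → ℕ) (a : ℕ) :
    foldR lo (k + 1) f a = f (lo + k) (foldR lo k f a) := rfl
theorem cntR_succ (lo k : ℕ) (f : ℕ → Bool) :
    cntR lo (k + 1) f = cond (f (lo + k)) (cntR lo k f + 1) (cntR lo k f) := rfl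
theorem filt_succ (lo k : ℕ) (f : ℕ → Bool) :
    filt lo (k + 1) f = cond (f (lo + k)) ((lo + k) :: filt lo k f) (filt lo k f) := rfl

@[simp] theorem allR_iff (lo k : ℕ) (f : ℕ → Bool) :
    allR lo k f = true ↔ ∀ i, lo ≤ i → i < lo + k → f i = true := by
  induction k with
  | zero => simp only [allR]; exact ⟨fun _ i h1 h2 => by omega, fun _ => rfl⟩
  | succ k ih =>
    rw [allR_succ, Bool.and_eq_true, ih]
    constructor
    · rintro ⟨h1, h2⟩ i hi hj
      rcases Nat.lt_succ_iff_lt_or_eq.1 (show i < (lo + k).succ from hj) with h | h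
      · exact h2 i hi h
      · exact h ▸ h1
    · exact fun h => ⟨h _ (by omega) (by omega), fun i hi hj => h i hi (by omega)⟩

@[simp] theorem anyR_iff (lo k : ℕ) (f : ℕ → Bool) :
    anyR lo k f = true ↔ ∃ i, lo ≤ i ∧ i < lo + k ∧ f i = true := by
  induction k with
  | zero => simp only [anyR]; exact ⟨fun h => by simp at h, fun ⟨i, h1, h2, _⟩ => by omega⟩
  | succ k ih =>
    rw [anyR_succ, Bool.or_eq_true, ih]
    constructor
    · rintro (h | ⟨i, h1, h2, h3⟩)
      · exact ⟨_, by omega, by omega, h⟩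
      · exact ⟨i, h1, by omega, h3⟩
    · rintro ⟨i, h1, h2, h3⟩
      rcases Nat.lt_succ_iff_lt_or_eq.1 (show i < (lo + k).succ from h2) with h | h
      · exact Or.inr ⟨i, h1, h, h3⟩
      · exact Or.inl (h ▸ h3)

/-- induction principle for `foldR` -/
theorem foldR_ind (P : ℕ → ℕ → Prop) (lo k : ℕ) (f : ℕ → ℕ → ℕ) (a : ℕ) (h0 : P lo a)
    (hs : ∀ i x, lo ≤ i → i < lo + k → P i x → P (i + 1) (f i x)) : P (lo + k) (foldR lo k f a) := by
  induction k with
  | zero => exact h0
  | succ k ih =>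
    rw [foldR_succ]
    exact hs (lo + k) _ (by omega) (by omega) (ih fun i x h1 h2 => hs i x h1 (by omega))

theorem cntR_eq (lo k : ℕ) (f : ℕ → Bool) :
    cntR lo k f = ((Ico lo (lo + k)).filter fun i => f i = true).card := by
  induction k with
  | zero => simp [cntR]
  | succ k ih =>
    rw [cntR_succ, ih, ← Nat.add_assoc, ← Finset.insert_Ico_right_eq_Ico_add_one (by omega), filter_insert]
    cases h : f (lo + k)
    · simp
    · rw [if_pos rfl, card_insert_of_notMem (by simp)]; rfl

@[simp] theorem mem_filt (lo k : ℕ) (f : ℕ → Bool) (x : ℕ) :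
    x ∈ filt lo k f ↔ lo ≤ x ∧ x < lo + k ∧ f x = true := by
  induction k with
  | zero => simp only [filt]; exact ⟨fun h => by simp at h, fun ⟨h1, h2, _⟩ => by omega⟩
  | succ k ih =>
    rw [filt_succ]
    cases h : f (lo + k)
    · rw [cond_false, ih]
      refine ⟨fun ⟨a, b, c⟩ => ⟨a, by omega, c⟩, fun ⟨a, b, c⟩ => ⟨a, ?_, c⟩⟩
      by_contra hx
      rw [show x = lo + k by omega, h] at c
      exact absurd c (by simp)
    · rw [cond_true, List.mem_cons, ih]
      constructor
      · rintro (rfl | ⟨a, b, c⟩)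
        · exact ⟨by omega, by omega, h⟩
        · exact ⟨a, by omega, c⟩
      · rintro ⟨a, b, c⟩
        by_cases hx : x = lo + k
        · exact Or.inl hx
        · exact Or.inr ⟨a, by omega, c⟩

@[simp] theorem allL_iff {α : Type} (l : List α) (f : α → Bool) :
    allL l f = true ↔ ∀ x ∈ l, f x = true := by
  induction l with
  | nil => simp [allL]
  | cons x xs ih =>
    show (f x && allL xs f) = true ↔ _
    rw [Bool.and_eq_true, ih]; simp

@[simp] theorem anyL_iff {α : Type} (l : List α) (f : α → Bool) :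
    anyL l f = true ↔ ∃ x ∈ l, f x = true := by
  induction l with
  | nil => simp [anyL]
  | cons x xs ih =>
    show (f x || anyL xs f) = true ↔ _
    rw [Bool.or_eq_true, ih]; simp

@[simp] theorem dv_iff (a b : ℕ) : dv a b = true ↔ a ∣ b := by
  simp [dv, Nat.dvd_iff_mod_eq_zero]

@[simp] theorem dv_false (a b : ℕ) : dv a b = false ↔ ¬ a ∣ b := by
  rw [← dv_iff, Bool.not_eq_true]

@[simp] theorem fac_eq (k : ℕ) : fac k = k ! := by
  induction k with
  | zero => rfl
  | succ k ih => show (k + 1) * fac k = _; rw [ih, Nat.factorial_succ]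

@[simp] theorem df_eq (x k : ℕ) : df x k = x.descFactorial k := by
  induction k with
  | zero => rfl
  | succ k ih => show (x - k) * df x k = _; rw [ih, Nat.descFactorial_succ]

@[simp] theorem ch_eq (x k : ℕ) : ch x k = x.choose k := by
  show df x k / fac k = _
  rw [df_eq, fac_eq, Nat.choose_eq_descFactorial_div_factorial]

@[simp] theorem lcmU_eq (k : ℕ) : lcmU k = Nat.lcmUpto k := by
  induction k with
  | zero => simp [lcmU, Nat.lcmUpto]
  | succ k ih =>
    show Nat.lcm (k + 1) (lcmU k) = _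
    rw [ih, Nat.lcmUpto, Nat.lcmUpto, ← Finset.insert_Icc_right_eq_Icc_add_one (by omega),
      Finset.lcm_insert]
    rfl

@[simp] theorem mx_eq (a b : ℕ) : mx a b = max a b := by
  unfold mx; cases h : Nat.ble a b
  · have : ¬ a ≤ b := by rw [← Nat.ble_eq, h]; simp
    simp; omega
  · have : a ≤ b := Nat.ble_eq ▸ h
    simp; omega

@[simp] theorem mn_eq (a b : ℕ) : mn a b = min a b := by
  unfold mn; cases h : Nat.ble a b
  · have : ¬ a ≤ b := by rw [← Nat.ble_eq, h]; simp
    simp; omega
  · have : a ≤ b := Nat.ble_eq ▸ h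
    simp; omega

@[simp] theorem ble_false (a b : ℕ) : Nat.ble a b = false ↔ b < a := by
  rw [← Bool.not_eq_true, Nat.ble_eq, not_le]
@[simp] theorem blt_false (a b : ℕ) : Nat.blt a b = false ↔ b ≤ a := by
  rw [← Bool.not_eq_true, Nat.blt_eq, not_lt]
@[simp] theorem beq_false (a b : ℕ) : Nat.beq a b = false ↔ a ≠ b := by
  rw [← Bool.not_eq_true, Nat.beq_eq]

theorem cond_ble {α : Type} (a b : ℕ) (x y : α) :
    cond (Nat.ble a b) x y = if a ≤ b then x else y := by
  cases h : Nat.ble a b
  · rw [if_neg (by simpa using h)]; rfl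
  · rw [if_pos (by simpa using h)]; rfl
theorem cond_blt {α : Type} (a b : ℕ) (x y : α) :
    cond (Nat.blt a b) x y = if a < b then x else y := by
  cases h : Nat.blt a b
  · rw [if_neg (by simpa using h)]; rfl
  · rw [if_pos (by simpa using h)]; rfl
theorem cond_beq {α : Type} (a b : ℕ) (x y : α) :
    cond (Nat.beq a b) x y = if a = b then x else y := by
  cases h : Nat.beq a b
  · rw [if_neg (by simpa using h)]; rfl
  · rw [if_pos (by simpa using h)]; rfl

@[simp] theorem wl_zero (w : ℕ → ℕ) : wl 0 w = [] := rfl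
theorem wl_succ (r : ℕ) (w : ℕ → ℕ) : wl (r + 1) w = w r :: wl r w := rfl
@[simp] theorem mapL_eq (l : List ℕ) (f : ℕ → ℕ) : mapL l f = l.map f := by
  induction l with
  | nil => rfl
  | cons x xs ih => show f x :: mapL xs f = _; rw [ih]; rfl
@[simp] theorem sumL_eq (l : List ℕ) (f : ℕ → ℕ) : sumL l f = (l.map f).sum := by
  induction l with
  | nil => rfl
  | cons x xs ih => show f x + sumL xs f = _; rw [ih]; rfl
@[simp] theorem prodL_eq (l : List ℕ) : prodL l = l.prod := by
  induction l with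
  | nil => rfl
  | cons x xs ih => show x * prodL xs = _; rw [ih]; rfl
@[simp] theorem mem_wl (r : ℕ) (w : ℕ → ℕ) (x : ℕ) : x ∈ wl r w ↔ ∃ j < r, w j = x := by
  induction r with
  | zero => simp
  | succ r ih =>
    rw [wl_succ, List.mem_cons, ih]
    constructor
    · rintro (rfl | ⟨j, h1, h2⟩)
      · exact ⟨r, by omega, rfl⟩
      · exact ⟨j, by omega, h2⟩
    · rintro ⟨j, h1, h2⟩
      by_cases hj : j = r
      · exact Or.inl (hj ▸ h2.symm)
      · exact Or.inr ⟨j, by omega, h2⟩
@[simp] theorem length_wl (r : ℕ) (w : ℕ → ℕ) : (wl r w).length = r := by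
  induction r with
  | zero => rfl
  | succ r ih => rw [wl_succ, List.length_cons, ih]
theorem sum_wl (r : ℕ) (w f : ℕ → ℕ) : ((wl r w).map f).sum = ∑ j ∈ range r, f (w j) := by
  induction r with
  | zero => rfl
  | succ r ih => rw [wl_succ, List.map_cons, List.sum_cons, ih, sum_range_succ, add_comm]
theorem prod_wl (r : ℕ) (w : ℕ → ℕ) : (wl r w).prod = ∏ j ∈ range r, w j := by
  induction r with
  | zero => rfl
  | succ r ih => rw [wl_succ, List.prod_cons, ih, prod_range_succ, mul_comm]

set_option maxRecDepth 100000 in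
theorem isP_tab : ∀ p < 512, (isP p = true ↔ p.Prime) := by
  have : allR 0 512 (fun p => isP p == (Nat.ble 2 p && allR 2 (p - 2) fun m => !(dv m p))) = true := by
    decide +kernel
  intro p hp
  have h := (allR_iff _ _ _).1 this p (by omega) (by omega)
  rw [beq_iff_eq] at h
  rw [h, Nat.prime_def_lt']
  simp only [Bool.and_eq_true, Nat.ble_eq, allR_iff, Bool.not_eq_true', dv_false]
  exact ⟨fun ⟨a, b⟩ => ⟨a, fun m h1 h2 => b m h1 (by omega)⟩,
    fun ⟨a, b⟩ => ⟨a, fun m h1 h2 => b m h1 (by omega)⟩⟩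

set_option exponentiation.threshold 600 in
theorem isP_iff (p : ℕ) : isP p = true ↔ p < 512 ∧ p.Prime := by
  by_cases hp : p < 512
  · rw [isP_tab p hp]; simp [hp]
  · have h1 : PM < 2 ^ 512 := by decide +kernel
    have h2 : PM >>> p = 0 := by
      rw [Nat.shiftRight_eq_div_pow]
      exact Nat.div_eq_of_lt (h1.trans_le (Nat.pow_le_pow_right (by omega) (by omega)))
    simp [isP, h2, hp]

theorem isP_prime {p : ℕ} (h : isP p = true) : p.Prime := ((isP_iff p).1 h).2

set_option maxRecDepth 100000 in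
theorem piS_eq (x : ℕ) (hx : x < 128) : piS x = ((range (x + 1)).filter Nat.Prime).card := by
  have : allR 0 128 (fun x => Nat.beq (piS x) (cntR 0 (x + 1) isP)) = true := by decide +kernel
  have h := (allR_iff _ _ _).1 this x (by omega) (by omega)
  rw [Nat.beq_eq, cntR_eq] at h
  rw [h, Nat.zero_add, ← range_eq_Ico]
  congr 1
  refine filter_congr fun p hp => isP_tab p ?_
  have := mem_range.1 hp
  omega

set_option maxRecDepth 100000 in
theorem Q_eq : Q = ∏ p ∈ (range 512).filter Nat.Prime, p := by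
  have : Nat.beq Q (foldR 0 512 (fun p acc => cond (isP p) (p * acc) acc) 1) = true := by
    decide +kernel
  rw [Nat.beq_eq] at this
  rw [this]
  refine foldR_ind (fun i x => i ≤ 512 → x = ∏ p ∈ (range i).filter Nat.Prime, p) 0 512 _ 1
    (by simp) (fun i x _ hi h _ => ?_) le_rfl
  rw [range_add_one, filter_insert, h (by omega)]
  cases hp : isP i
  · rw [if_neg (by rw [← isP_tab i (by omega), hp]; simp)]; rfl
  · rw [if_pos (isP_prime hp), prod_insert (by simp)]; rfl

theorem dvd_Q {p : ℕ} (hp : p.Prime) : p ∣ Q ↔ p < 512 := by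
  rw [Q_eq, Prime.dvd_finsetProd_iff hp.prime]
  constructor
  · rintro ⟨q, hq, h⟩
    rw [mem_filter, mem_range] at hq
    exact (Nat.prime_dvd_prime_iff_eq hp hq.2).1 h ▸ hq.1
  · exact fun h => ⟨p, by simp [h, hp], dvd_rfl⟩

theorem Q_squarefree : Squarefree Q := by
  rw [Q_eq]
  refine Finset.squarefree_prod_of_pairwise_isCoprime (fun a ha b hb hab => ?_)
    fun p hp => (mem_filter.1 hp).2.squarefree
  simp only [coe_filter, Set.mem_ofPred_eq] at ha hb
  exact Nat.coprime_iff_isRelPrime.1 ((Nat.coprime_primes ha.2 hb.2).2 hab)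

theorem prime_of_gcd_Q {p : ℕ} (h2 : 2 ≤ p) (h : p < 262144) (hg : Nat.gcd p Q = 1) : p.Prime := by
  by_contra hp
  have h1 := Nat.minFac_sq_le_self (by omega) hp
  have h3 := Nat.minFac_prime (show p ≠ 1 by omega)
  have h4 : p.minFac < 512 := by
    by_contra hh
    have : 512 ^ 2 ≤ p.minFac ^ 2 := Nat.pow_le_pow_left (by omega) 2
    omega
  have := Nat.dvd_gcd (Nat.minFac_dvd p) ((dvd_Q h3).2 h4)
  rw [hg] at this
  exact h3.one_lt.ne' (Nat.dvd_one.1 this)

theorem prB_prime {p : ℕ} (h : prB p = true) : p.Prime := by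
  unfold prB at h
  rw [cond_blt] at h
  split_ifs at h with hp
  · exact isP_prime h
  · simp only [Bool.and_eq_true, Nat.blt_eq, Nat.beq_eq] at h
    exact prime_of_gcd_Q (by omega) h.1 h.2

end Pool.Agent.H5Hom.Num
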