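import Pool.Agent.Lib.MP_078193_al.NBlue2

/-! Block BIG: all `n` above the bound. -/

open Finset
open scoped Nat

namespace Pool.Agent.H5Hom.Num

namespace BIG

theorem reach_cons (r X : ℕ) (x : ℕ × ℕ × ℕ × ℕ) (l : List (ℕ × ℕ × ℕ × ℕ)) :
    reach r (x :: l) X = cond (Nat.ble r x.1) (reach r l x.2.1) X := rfl

theorem ladok_cons (t X : ℕ) (x : ℕ × ℕ × ℕ × ℕ) (l : List (ℕ × ℕ × ℕ × ℕ)) :
    ladok t (x :: l) X = (erd t x.1 X x.2.1 x.2.2.1 x.2.2.2 && ladok t l x.2.1) := rfl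

variable {t n d τ r ψ g : ℕ} {ν : ℕ → ℕ}

theorem reach_le (herd : St_erd) (hF : Facts t n d τ r ψ g ν) (ht : t < 128) {ρ : ℕ} (hρ : r ≤ ρ)
    (lad : List (ℕ × ℕ × ℕ × ℕ)) (X : ℕ) (hl : ladok t lad X = true) (hX : X ≤ n) :
    reach ρ lad X ≤ n := by
  induction lad generalizing X with
  | nil => exact hX
  | cons x l ih =>
    rw [ladok_cons, Bool.and_eq_true] at hl
    rw [reach_cons, cond_ble]
    split_ifs with h
    · exact ih _ hl.2 (herd _ _ _ _ _ _ _ _ hF ht _ _ _ _ _ (hρ.trans h) hl.1 hX)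
    · exact hX

theorem le_rmax (ht4 : St_t4) (hvr : St_vr) (hF : Facts t n d τ r ψ g ν) {X0 : ℕ}
    (h1 : 2 * t + 1 ≤ X0) (h2 : X0 ≤ n) : r ≤ rmax t d τ X0 := by
  have h3 := ht4 _ _ _ _ _ _ _ _ hF τ le_rfl
  have h4 := hvr _ _ _ _ _ _ _ _ hF X0 h1 h2
  have h5 := hF.rd
  have h6 := hF.r2
  have h7 : r ≤ mn d (T4 t τ) := by rw [mn_eq]; omega
  refine foldR_ind (fun i x => r < i → r ≤ x) 2 (mn d (T4 t τ) - 1) _ 1 (by omega) ?_ (by omega)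
  intro i x _ _ ih hi
  cases hv : vr t d X0 i
  · have : r ≠ i := by
      rintro rfl
      rw [h4] at hv
      exact Bool.noConfusion hv
    exact ih (by omega)
  · show r ≤ i
    omega

theorem bigA_false (ht4 : St_t4) (hvr : St_vr) (herd : St_erd) (htI : St_tI)
    (hF : Facts t n d τ r ψ g ν) (ht : t < 128) {X0 : ℕ} {lad : List (ℕ × ℕ × ℕ × ℕ)}
    {T : ℕ → ℕ → ℕ → ℕ → Bool} (h1 : 2 * t + 1 ≤ X0) (h2 : X0 ≤ n) (hl : ladok t lad X0 = true)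
    (hT : ψ < t → ∀ ρ X, r ≤ ρ → X ≤ n → T t τ ρ X = true → False)
    (h : bigA t X0 τ d lad T = true) : False := by
  have h3 := le_rmax ht4 hvr hF h1 h2
  have h4 := reach_le herd hF ht h3 lad X0 hl h2
  have h5 := hF.hd
  have h6 := hF.r2
  simp only [bigA, Bool.and_eq_true, Bool.or_eq_true, Nat.blt_eq, frc_eq] at h
  rcases h with h | h | ⟨h, h' | h'⟩
  · omega
  · omega
  · refine hT ?_ _ _ h3 h4 h'
    rcases hF.hψ.lt_or_eq with h7 | h7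
    · exact h7
    · obtain ⟨e, e1, -, -, -, e2⟩ := hF.modeB h7
      have : n * 3 ≤ n * e := Nat.mul_le_mul_left _ e1
      omega
  · exact htI _ _ _ _ _ _ _ _ hF τ _ _ le_rfl h3 h4 h'

end BIG

theorem big_of (ht4 : St_t4) (hvr : St_vr) (herd : St_erd) (hB0 : St_tB0) (hB1 : St_tB1)
    (hO : St_tO) (htI : St_tI) : St_big := by
  intro t n d τ r ψ g ν hF ht X0 τ1 lad h hX
  simp only [big, Bool.and_eq_true, Nat.ble_eq, frc_eq, allR_iff] at h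
  obtain ⟨⟨⟨h1, hl⟩, h2⟩, h3⟩ := h
  rcases Nat.lt_or_ge τ τ1 with hτ | hτ
  · obtain ⟨⟨a1, a2⟩, a3⟩ := h2 τ (Nat.zero_le _) (by omega)
    have b1 := hF.hτ
    have b2 := hF.hd
    rcases (by omega : d = τ + 1 ∨ d = τ + 2 ∨ τ + 3 ≤ d) with hd | hd | hd
    · rw [← hd] at a1
      exact BIG.bigA_false ht4 hvr herd htI hF ht h1 hX hl
        (fun hψ => hB0 _ _ _ _ _ _ _ _ hF ht hψ hd) a1
    · rw [← hd] at a2
      exact BIG.bigA_false ht4 hvr herd htI hF ht h1 hX hl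
        (fun hψ => hB1 _ _ _ _ _ _ _ _ hF ht hψ hd) a2
    · have c1 := ht4 _ _ _ _ _ _ _ _ hF τ le_rfl
      have c2 := BIG.reach_le herd hF ht c1 lad X0 hl hX
      simp only [bigO, Bool.or_eq_true, Nat.blt_eq, frc_eq] at a3
      rcases a3 with a | a | a
      · omega
      · exact hO _ _ _ _ _ _ _ _ hF hd _ _ c1 c2 a
      · exact htI _ _ _ _ _ _ _ _ hF τ _ _ le_rfl c1 c2 a
  · have c1 := ht4 _ _ _ _ _ _ _ _ hF τ1 hτ
    exact htI _ _ _ _ _ _ _ _ hF τ1 _ _ hτ c1 (BIG.reach_le herd hF ht c1 lad X0 hl hX) h3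

end Pool.Agent.H5Hom.Num
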