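import Pool.Agent.Lib.MP_078193_al.NFacts
import Pool.Agent.Lib.MP_078193_al.NBas

/-! Soundness statements for the checkers of `NNum`. -/

open Finset
open scoped Nat

namespace Pool.Agent.H5Hom.Num

def St_t4 : Prop := ∀ (t n d τ r ψ g : ℕ) (ν : ℕ → ℕ), Facts t n d τ r ψ g ν →
  ∀ τ', τ' ≤ τ → r ≤ T4 t τ'

def St_mB : Prop := ∀ t n : ℕ, ModeB t n → modeB t n = true

def St_jc : Prop := ∀ (t n d τ r ψ g : ℕ) (ν : ℕ → ℕ), Facts t n d τ r ψ g ν →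
  ∀ S : Finset ℕ, (∀ j ∈ S, j < t ∧ ν j ≠ ν (j + 1)) →
    S.card + 1 ≤ r ∧ (∀ j ∈ S, d ≤ j + 1) ∧ ((∀ j ∈ S, d ≤ j) → S.card + 2 ≤ r)

def St_nu : Prop := ∀ (t n d τ r ψ g : ℕ) (ν : ℕ → ℕ), Facts t n d τ r ψ g ν → ∀ i ≤ t, ν i ≤ r

def St_mono : Prop := ∀ a k b L X x : ℕ, mono a k b L X = true → X ≤ x →
  a * x ^ k < b * x.descFactorial L

def St_vr : Prop := ∀ (t n d τ r ψ g : ℕ) (ν : ℕ → ℕ), Facts t n d τ r ψ g ν →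
  ∀ X, 2 * t + 1 ≤ X → X ≤ n → vr t d X r = true

def St_d3 : Prop := ∀ (t n d τ r ψ g : ℕ) (ν : ℕ → ℕ), Facts t n d τ r ψ g ν → 3 ≤ d

def St_gi : Prop := ∀ j τ d r τ' d' r' : ℕ, j < 128 → gi j τ' d' r' = true → τ' ≤ τ → d' ≤ d →
  r ≤ r' → GiP j τ d r

def St_dj : Prop := ∀ (t n d τ r ψ g : ℕ) (ν : ℕ → ℕ), Facts t n d τ r ψ g ν → t < 128 →
  ∀ p j τ' d' r' : ℕ, p.Prime → t < p → j < t → p ∣ n - j → p ∣ g → ¬ p * p ∣ n - j →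
    τ' ≤ τ → d' ≤ d → r ≤ r' → Dj j τ' d' r' ∣ n - j

def St_erd : Prop := ∀ (t n d τ r ψ g : ℕ) (ν : ℕ → ℕ), Facts t n d τ r ψ g ν → t < 128 →
  ∀ ρ X1 X2 j0 s, r ≤ ρ → erd t ρ X1 X2 j0 s = true → X1 ≤ n → X2 ≤ n

def St_tB0 : Prop := ∀ (t n d τ r ψ g : ℕ) (ν : ℕ → ℕ), Facts t n d τ r ψ g ν → t < 128 →
  ψ < t → d = τ + 1 → ∀ ρ X, r ≤ ρ → X ≤ n → tB0 t τ ρ X = true → False

def St_tB1 : Prop := ∀ (t n d τ r ψ g : ℕ) (ν : ℕ → ℕ), Facts t n d τ r ψ g ν → t < 128 →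
  ψ < t → d = τ + 2 → ∀ ρ X, r ≤ ρ → X ≤ n → tB1 t τ ρ X = true → False

def St_tO : Prop := ∀ (t n d τ r ψ g : ℕ) (ν : ℕ → ℕ), Facts t n d τ r ψ g ν →
  τ + 3 ≤ d → ∀ ρ X, r ≤ ρ → X ≤ n → tO t τ ρ X = true → False

def St_tI : Prop := ∀ (t n d τ r ψ g : ℕ) (ν : ℕ → ℕ), Facts t n d τ r ψ g ν →
  ∀ τ' ρ X, τ' ≤ τ → r ≤ ρ → X ≤ n → tI t τ' ρ X = true → False

def St_big : Prop := ∀ (t n d τ r ψ g : ℕ) (ν : ℕ → ℕ), Facts t n d τ r ψ g ν → t < 128 →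
  ∀ X0 τ1 lad, big t X0 τ1 lad = true → X0 ≤ n → False

def St_mult : Prop := ∀ N D x : ℕ, 1 ≤ D → x ≤ N → ((mult N D).testBit x = true ↔ D ∣ x)

/-- every bit of the mask has a prime factor above 512 -/
def RBok (RB : ℕ) : Prop :=
  ∀ x ≤ 262144, RB.testBit x = true → ∃ p : ℕ, p.Prime ∧ 512 < p ∧ p ∣ x

def St_bigR : Prop := RBok bigR

def St_R1 : Prop := ∀ RB t N x : ℕ, RBok RB → t < 128 → N ≤ 262144 → 0 < x → x < N →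
  (R1 RB t N).testBit x = true → ∃ p : ℕ, p.Prime ∧ t < p ∧ p ∣ x ∧ ¬ p * p ∣ x

def St_scan : Prop := ∀ (f : ℕ → Bool) (dep off m : ℕ), scan f dep off m = true →
  ∀ i < 2 ^ dep, m.testBit i = true → f (off + i) = true

def St_hiW : Prop := ∀ (f : ℕ → Bool) (X0 X : ℕ), hiW f X0 X = X0 ∨
  (X ≤ hiW f X0 X ∧ hiW f X0 X < X0 ∧ f (hiW f X0 X) = true)

def St_run : Prop := ∀ (L : ℕ → ℕ) (f : ℕ → ℕ → ℕ → Bool) (s c c1 K r0 a0 n : ℕ),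
  run1 L (fun a => run2 L a s (fun A => rd (f a) A r0) c (zeros K)) c1 a0 = true →
  a0.testBit n = true → (∃ j < c1, (L j).testBit n = true) ∨
    ∃ a : ℕ, a.testBit n = true ∧ ∀ i < K, ∃ x : ℕ, f a (r0 + i) x = true ∧ (x.testBit n = true →
      i + 1 ≤ ((Ico s (s + c)).filter fun j => (L j).testBit n = true).card)

def St_stP : Prop := ∀ (t n d τ r ψ g : ℕ) (ν : ℕ → ℕ), Facts t n d τ r ψ g ν → t < 128 →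
  n < 262144 → ∀ τ' φ', τ' ≤ τ → ψ ≤ φ' → stP t n τ' d r φ' = true → False

def St_stM : Prop := ∀ (t n d τ r ψ g : ℕ) (ν : ℕ → ℕ), Facts t n d τ r ψ g ν → t < 128 →
  ∀ RB X0, RBok RB → stM RB t X0 = true → n < X0 → False

/-- `Wf` divides the sum of the reduced orbit sizes -/
def HW (t n g Wf : ℕ) : Prop := ∀ γ W : ℕ, n.choose t = γ * W → γ ∣ g → Wf ∣ W

def St_stF : Prop := ∀ (t n d τ r ψ g : ℕ) (ν : ℕ → ℕ), Facts t n d τ r ψ g ν → t < 128 →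
  n < 262144 → ∀ φ' Wf, ψ ≤ φ' → HW t n g Wf → stF t n d r φ' Wf = true → False

def St_stF2 : Prop := ∀ (t n d τ ψ g : ℕ) (ν : ℕ → ℕ), Facts t n d τ 2 ψ g ν → t < 128 →
  ∀ φ' Wf, ψ ≤ φ' → HW t n g Wf → stF2 t n d φ' Wf = true → False

def St_def : Prop := ∀ (t n d r m γ : ℕ) (w : ℕ → ℕ) (a b : ℕ → ℕ → ℕ), Inc t n d r m γ w a b →
  2 ≤ r → defbad t (n - t) (wl r w) = true → False

def St_vpd : Prop := ∀ (t n d r m γ : ℕ) (w : ℕ → ℕ) (a b : ℕ → ℕ → ℕ), Inc t n d r m γ w a b →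
  vpd t n d (wl r w) = true → False

def St_kbad : Prop := ∀ (t n d r m γ : ℕ) (w : ℕ → ℕ) (a b : ℕ → ℕ → ℕ), Inc t n d r m γ w a b →
  2 ≤ r → kbad t (n - t) (wl r w) = true → False

def St_fin : Prop := ∀ (t n d τ r ψ g : ℕ) (ν : ℕ → ℕ), Facts t n d τ r ψ g ν →
  ∀ (m γ : ℕ) (w : ℕ → ℕ) (a b : ℕ → ℕ → ℕ) (lm : List ℕ), Inc t n d r m γ w a b →
    (∃ L ∈ lm, ∀ j < r, w j ∣ L) → fin t n d lm (wl r w) = true → False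

def St_lam : Prop := ∀ (t n d τ r ψ g : ℕ) (ν : ℕ → ℕ), Facts t n d τ r ψ g ν →
  ∀ γ W Λ e : ℕ, n.choose t = γ * W → g = γ * Λ → Λ ∣ t ! * e → (ψ < t → e = 1) →
    ∃ L ∈ lams t n d W, Λ ∣ L

def St_wb1 : Prop := ∀ (t n d r m γ : ℕ) (w : ℕ → ℕ) (a b : ℕ → ℕ → ℕ), Inc t n d r m γ w a b →
  2 ≤ r → (∑ j ∈ range r, w j) * (r - 1) ^ (r - 1) ≤ (t + 1) * (n - t) ^ (r - 1) ∧
    (∀ j < r, ∑ i ∈ range r, w i ≤ (t + 1) * w j) ∧ ∀ j < r, w j ∣ Nat.lcmUpto t * (n - t)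

def St_wb2 : Prop := ∀ (t n d r m γ e : ℕ) (w : ℕ → ℕ) (a b : ℕ → ℕ → ℕ), Inc t n d r m γ w a b →
  2 ≤ r → t < 128 → n < 262144 → 1 ≤ e → e ≤ t → (∀ j < r, w j ∣ t ! * e) →
    ∏ j ∈ range r, w j ≤ MS t r * Nat.gcd (n - t) ((t + 1)! ^ 18) ^ (r - 1)

def St_enum : Prop := ∀ (D : ℕ) (dl : List ℕ) (f : List ℕ → Bool) (k lo rem : ℕ) (acc : List ℕ),
  enum D dl f k lo rem acc = true → ∀ u : ℕ → ℕ, (∀ i j, i ≤ j → j ≤ k → u i ≤ u j) →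
    (∀ i < k, u i ∈ dl) → u k ∣ D → lo ≤ u 0 → ∑ i ∈ range (k + 1), u i = rem →
      f (wl (k + 1) u ++ acc) = true

theorem fin_of (h1 : St_def) (h2 : St_vpd) (h3 : St_kbad) : St_fin := by
  intro t n d τ r ψ g ν hF m γ w a b lm hI hL h
  simp only [fin, Bool.or_eq_true, Bool.and_eq_true, Bool.not_eq_true', Nat.beq_eq, length_wl] at h
  rcases h with (((h | h) | h) | h) | h
  · exact h1 _ _ _ _ _ _ _ _ _ hI hF.r2 h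
  · obtain ⟨L, hL1, hL2⟩ := hL
    rw [← Bool.not_eq_true, anyL_iff] at h
    refine h ⟨L, hL1, (allL_iff _ _).2 fun x hx => ?_⟩
    obtain ⟨j, hj, rfl⟩ := (mem_wl _ _ _).1 hx
    exact (dv_iff _ _).2 (hL2 j hj)
  · exact h2 _ _ _ _ _ _ _ _ _ hI h
  · exact h3 _ _ _ _ _ _ _ _ _ hI hF.r2 h
  · exact hF.s15 h.1.1.1 h.1.1.2 h.2 h.1.2

theorem small_of (hM : St_stM) (hB : St_big) (RB : ℕ) (hR : RBok RB)
    (h : ∀ t, 6 ≤ t → t < 128 → ∃ X0 τ1 lad, stM RB t X0 = true ∧ big t X0 τ1 lad = true)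
    (t n d τ r ψ g : ℕ) (ν : ℕ → ℕ) (hF : Facts t n d τ r ψ g ν) (ht : t < 128) : False := by
  obtain ⟨X0, τ1, lad, h1, h2⟩ := h t hF.ht ht
  rcases Nat.lt_or_ge n X0 with hn | hn
  · exact hM _ _ _ _ _ _ _ _ hF ht RB X0 hR h1 hn
  · exact hB _ _ _ _ _ _ _ _ hF ht X0 τ1 lad h2 hn

end Pool.Agent.H5Hom.Num
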