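import Pool.Agent.Lib.MP_078193_al.NBlue2

/-! Block DEF: valuations of the orbit weights, the rank three variance test, weight bounds. -/

open Finset
open scoped Nat

namespace Pool.Agent.H5Hom.Num

namespace DEF

variable {t n d r m γ : ℕ} {w : ℕ → ℕ} {a b : ℕ → ℕ → ℕ}

theorem M_pos (h : Inc t n d r m γ w a b) (hr : 2 ≤ r) : 0 < n - t := by
  have := h.rm
  rw [← h.bsum 0 (by omega)]
  exact sum_pos (fun l hl => h.bpos l (mem_range.1 hl) 0 (by omega)) ⟨0, mem_range.2 (by omega)⟩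

theorem val_le (h : Inc t n d r m γ w a b) {p j0 l j : ℕ} (h0 : j0 < r) (hp : ¬ p ∣ w j0)
    (hl : l < m) (hj : j < r) :
    (w j).factorization p ≤ (b l j0).factorization p + (a l j).factorization p := by
  have e := congrArg (fun x => Nat.factorization x p) (h.prop l hl j0 h0 j hj)
  have w0 := (Nat.one_le_iff_ne_zero.1 (h.wpos j0 h0))
  have w1 := (Nat.one_le_iff_ne_zero.1 (h.wpos j hj))
  have b0 := (Nat.one_le_iff_ne_zero.1 (h.bpos l hl j0 h0))
  have b1 := (Nat.one_le_iff_ne_zero.1 (h.bpos l hl j hj))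
  have a0 := (Nat.one_le_iff_ne_zero.1 (h.apos l hl j0 h0))
  have a1 := (Nat.one_le_iff_ne_zero.1 (h.apos l hl j hj))
  simp only [Nat.factorization_mul (mul_ne_zero w0 b0) a1, Nat.factorization_mul w0 b0,
    Nat.factorization_mul (mul_ne_zero w1 b1) a0, Nat.factorization_mul w1 b1, Finsupp.add_apply,
    Nat.factorization_eq_zero_of_not_dvd hp] at e
  omega

theorem key (h : Inc t n d r m γ w a b) (hr : 2 ≤ r) {p : ℕ} (hp : p.Prime) :
    ∃ l < m, ∀ j < r,
      (w j).factorization p ≤ (n - t).factorization p + (a l j).factorization p := by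
  obtain ⟨j0, h0, hn⟩ := h.prim p hp
  have hM := (M_pos h hr).ne'
  have : ∃ l < m, ¬ p ^ ((n - t).factorization p + 1) ∣ b l j0 := by
    by_contra hc
    push Not at hc
    apply Nat.pow_succ_factorization_not_dvd hM hp
    conv_rhs => rw [← h.bsum j0 h0]
    exact dvd_sum fun l hl => hc l (mem_range.1 hl)
  obtain ⟨l, hl, hd⟩ := this
  refine ⟨l, hl, fun j hj => (val_le h h0 hn hl hj).trans ?_⟩
  rw [hp.pow_dvd_iff_le_factorization (Nat.one_le_iff_ne_zero.1 (h.bpos l hl j0 h0))] at hd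
  omega

theorem amgm (s : Finset ℕ) (hs : s.Nonempty) (z : ℕ → ℕ) :
    (∏ i ∈ s, z i) * s.card ^ s.card ≤ (∑ i ∈ s, z i) ^ s.card := by
  have hc : (0 : ℝ) < s.card := by exact_mod_cast hs.card_pos
  have h1 := Real.geom_mean_le_arith_mean_weighted s (fun _ => (s.card : ℝ)⁻¹) (fun i => (z i : ℝ))
    (fun _ _ => by positivity) (by simp [mul_inv_cancel₀ hc.ne']) (fun _ _ => by positivity)
  rw [Real.finsetProd_rpow _ _ (fun _ _ => by positivity), ← mul_sum] at h1
  have h2 := pow_le_pow_left₀ (by positivity) h1 s.card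
  rw [Real.rpow_inv_natCast_pow (by positivity) hs.card_pos.ne', mul_pow, inv_pow,
    ← div_eq_inv_mul, le_div_iff₀ (by positivity)] at h2
  exact_mod_cast h2

/-- the real form of `vform` -/
def rf (t n d w1 w2 w3 x1 x2 x3 y1 y2 y3 : ℝ) : ℝ :=
  (t - 2) * ((t + 1 - d) * (n - t - d)) * (t + 1) * (w1 * x1 * y1 + w2 * x2 * y2 + w3 * x3 * y3)
    - (n - t) * (((t + 1) * w1 - (w1 + w2 + w3)) * (x1 + x2 + x3 + (t - 2) * x1)
          * (y1 + y2 + y3 + (t - 2) * y1)
        + ((t + 1) * w2 - (w1 + w2 + w3)) * (x1 + x2 + x3 + (t - 2) * x2)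
          * (y1 + y2 + y3 + (t - 2) * y2)
        + ((t + 1) * w3 - (w1 + w2 + w3)) * (x1 + x2 + x3 + (t - 2) * x3)
          * (y1 + y2 + y3 + (t - 2) * y3))

theorem rf_cast (t n d w1 w2 w3 x1 x2 x3 y1 y2 y3 : ℤ) :
    ((vform t n d w1 w2 w3 x1 x2 x3 y1 y2 y3 : ℤ) : ℝ) =
      rf t n d w1 w2 w3 x1 x2 x3 y1 y2 y3 := by
  unfold vform rf
  push_cast
  rfl

theorem rf_exp (t n d w1 w2 w3 x1 x2 : ℝ) :
    rf t n d w1 w2 w3 (w3 * x1) (w3 * x2) (-(w1 * x1) - w2 * x2) (w3 * x1) (w3 * x2)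
        (-(w1 * x1) - w2 * x2) =
      x1 ^ 2 * rf t n d w1 w2 w3 w3 0 (-w1) w3 0 (-w1) +
        2 * x1 * x2 * rf t n d w1 w2 w3 w3 0 (-w1) 0 w3 (-w2) +
        x2 ^ 2 * rf t n d w1 w2 w3 0 w3 (-w2) 0 w3 (-w2) := by
  unfold rf
  ring

theorem rf_smul (t n d w1 w2 w3 x1 x2 x3 c : ℝ) :
    rf t n d w1 w2 w3 (c * x1) (c * x2) (c * x3) (c * x1) (c * x2) (c * x3) =
      c ^ 2 * rf t n d w1 w2 w3 x1 x2 x3 x1 x2 x3 := by
  unfold rf
  ring

end DEF

open DEF

theorem def_of : St_def := by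
  intro t n d r m γ w a b h hr hb
  simp only [defbad, anyR_iff, Bool.and_eq_true, Bool.or_eq_true, Nat.blt_eq, frc_eq, sumL_eq,
    allL_iff, dv_iff, sum_wl] at hb
  obtain ⟨p, -, -, hp, hb⟩ := hb
  have hp := isP_prime hp
  rcases hb with hb | hb
  · obtain ⟨l, hl, hk⟩ := key h hr hp
    have hM := (M_pos h hr).ne'
    refine absurd hb (not_lt.2 ?_)
    rw [← h.asum l hl]
    refine sum_le_sum fun j hj => Nat.le_of_dvd (h.apos l hl j (mem_range.1 hj)) ?_
    have hj := mem_range.1 hj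
    have w1 := (Nat.one_le_iff_ne_zero.1 (h.wpos j hj))
    have a1 := (Nat.one_le_iff_ne_zero.1 (h.apos l hl j hj))
    obtain ⟨c, -, hc⟩ := (Nat.dvd_prime_pow hp).1 (Nat.gcd_dvd_right (w j) (p ^ 40))
    have h1 : p ^ c ∣ w j := hc ▸ Nat.gcd_dvd_left _ _
    rw [hp.pow_dvd_iff_le_factorization w1] at h1
    have h2 : p ^ c ∣ (n - t) * a l j := by
      rw [hp.pow_dvd_iff_le_factorization (mul_ne_zero hM a1), Nat.factorization_mul hM a1]
      exact h1.trans (hk j hj)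
    rw [hc, Nat.div_dvd_iff_dvd_mul (Nat.gcd_dvd_left _ _) (Nat.gcd_pos_of_pos_right _ (by omega)),
      ← Nat.gcd_mul_right]
    exact Nat.dvd_gcd (Dvd.intro _ rfl) h2
  · obtain ⟨j, hj, hn⟩ := h.prim p hp
    exact hn (hb _ ((mem_wl _ _ _).2 ⟨j, hj, rfl⟩))

theorem vpd_of : St_vpd := by
  intro t n d r m γ w a b h hb
  have hr : r = 3 := by
    have hl := length_wl r w
    unfold vpd at hb
    split at hb
    · rename_i e
      rw [e] at hl
      exact hl.symm
    · exact absurd hb Bool.false_ne_true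
  subst hr
  change vpd3 t n d (w 2) (w 1) (w 0) = true at hb
  simp only [vpd3, Bool.and_eq_true, decide_eq_true_eq] at hb
  obtain ⟨hA, hB⟩ := hb
  have hA' : ((_ : ℤ) : ℝ) < ((_ : ℤ) : ℝ) := Int.cast_lt.2 hA
  have hB' : ((_ : ℤ) : ℝ) < ((_ : ℤ) : ℝ) := Int.cast_lt.2 hB
  rw [Int.cast_pow, Int.cast_mul] at hB'
  rw [rf_cast] at hA'
  rw [rf_cast, rf_cast, rf_cast] at hB'
  push_cast at hA' hB'
  obtain ⟨x, ⟨j, hj, hx⟩, h1, h2⟩ := h.vp
  simp only [sum_range_succ, sum_range_zero, zero_add] at h1 h2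
  have h3 : rf t n d (w 2) (w 1) (w 0) (x 2) (x 1) (x 0) (x 2) (x 1) (x 0) ≤ 0 := by
    unfold rf
    push_cast at h2
    linarith
  have w0 : (0 : ℝ) < w 0 := by exact_mod_cast h.wpos 0 (by omega)
  have h4 := rf_smul t n d (w 2) (w 1) (w 0) (x 2) (x 1) (x 0) (w 0)
  have e : (w 0 : ℝ) * x 0 = -(w 2 * x 2) - w 1 * x 1 := by linarith
  rw [e, rf_exp] at h4
  generalize rf t n d (w 2) (w 1) (w 0) (w 0) 0 (-(w 2 : ℝ)) (w 0) 0 (-(w 2 : ℝ)) = A at *
  generalize rf t n d (w 2) (w 1) (w 0) (w 0) 0 (-(w 2 : ℝ)) 0 (w 0) (-(w 1 : ℝ)) = B at *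
  generalize rf t n d (w 2) (w 1) (w 0) 0 (w 0) (-(w 1 : ℝ)) 0 (w 0) (-(w 1 : ℝ)) = C at *
  have h5 : x 2 ^ 2 * A + 2 * x 2 * x 1 * B + x 1 ^ 2 * C ≤ 0 :=
    h4 ▸ mul_nonpos_of_nonneg_of_nonpos (sq_nonneg _) h3
  have h6 : (A * x 2 + B * x 1) ^ 2 + (A * C - B ^ 2) * x 1 ^ 2 ≤ 0 := by
    have := mul_nonpos_of_nonneg_of_nonpos hA'.le h5
    linarith
  have h7 : x 1 = 0 := by
    by_contra hc
    have := mul_pos (sub_pos.2 hB') (sq_pos_of_ne_zero hc)
    linarith [sq_nonneg (A * x 2 + B * x 1)]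
  have h8 : x 2 = 0 := by
    by_contra hc
    have := mul_pos (sq_pos_of_ne_zero hc) hA'
    rw [h7] at h5
    linarith
  have h9 : x 0 = 0 := by
    rw [h7, h8] at e
    exact (mul_eq_zero.1 (e.trans (by ring))).resolve_left w0.ne'
  interval_cases j <;> contradiction

theorem wb1_of : St_wb1 := by
  intro t n d r m γ w a b h hr
  have hM := M_pos h hr
  refine ⟨?_, fun j hj => ?_, fun j hj => ?_⟩
  · obtain ⟨l, hl, hb⟩ : ∃ l < m, ∑ i ∈ range r, b l i ≤ n - t := by
      by_contra hc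
      push Not at hc
      have h1 : ∑ l ∈ range m, ∑ i ∈ range r, b l i = r * (n - t) := by
        rw [sum_comm, sum_congr rfl fun i hi => h.bsum i (mem_range.1 hi)]
        simp
      have h2 : ∑ _l ∈ range m, (n - t + 1) ≤ ∑ l ∈ range m, ∑ i ∈ range r, b l i :=
        sum_le_sum fun l hl => hc l (mem_range.1 hl)
      rw [h1, sum_const, card_range, smul_eq_mul] at h2
      have := Nat.mul_le_mul_right (n - t + 1) h.rm
      nlinarith
    rw [← h.asum l hl, sum_mul, sum_mul]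
    refine sum_le_sum fun j hj => ?_
    have hc : ((range r).erase j).card = r - 1 := by rw [card_erase_of_mem hj, card_range]
    have h1 := amgm ((range r).erase j) (card_pos.1 (by omega)) (b l)
    rw [hc] at h1
    have h2 : (∑ i ∈ (range r).erase j, b l i) ^ (r - 1) ≤ (n - t) ^ (r - 1) :=
      Nat.pow_le_pow_left ((sum_le_sum_of_subset (erase_subset _ _)).trans hb) _
    have hj' := mem_range.1 hj
    have a1 := (Nat.one_le_iff_ne_zero.1 (h.apos l hl j hj'))
    have p1 : ∏ i ∈ (range r).erase j, b l i ≠ 0 := prod_ne_zero_iff.2 fun i hi =>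
      (Nat.one_le_iff_ne_zero.1 (h.bpos l hl i (mem_range.1 (mem_of_mem_erase hi))))
    have h3 : w j ∣ a l j * ∏ i ∈ (range r).erase j, b l i := by
      rw [← Nat.factorization_prime_le_iff_dvd (Nat.one_le_iff_ne_zero.1 (h.wpos j hj')) (mul_ne_zero a1 p1)]
      intro p hp
      obtain ⟨j0, h0, hn⟩ := h.prim p hp
      by_cases e : j0 = j
      · rw [Nat.factorization_eq_zero_of_not_dvd (e ▸ hn)]
        exact Nat.zero_le _
      · have h4 := val_le h h0 hn hl hj'
        have h5 := (Nat.factorization_prime_le_iff_dvd (Nat.one_le_iff_ne_zero.1 (h.bpos l hl j0 h0)) p1).2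
          (dvd_prod_of_mem (b l) (mem_erase.2 ⟨e, mem_range.2 h0⟩)) p hp
        rw [Nat.factorization_mul a1 p1, Finsupp.add_apply]
        omega
    calc w j * (r - 1) ^ (r - 1)
        ≤ (a l j * ∏ i ∈ (range r).erase j, b l i) * (r - 1) ^ (r - 1) :=
          Nat.mul_le_mul_right _ (Nat.le_of_dvd (Nat.pos_of_ne_zero (mul_ne_zero a1 p1)) h3)
      _ ≤ _ := by rw [mul_assoc]; exact Nat.mul_le_mul_left _ (h1.trans h2)
  · refine Nat.le_of_mul_le_mul_right ?_ hM
    calc (∑ i ∈ range r, w i) * (n - t) = ∑ l ∈ range m, ∑ i ∈ range r, w i * b l i := by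
          rw [sum_comm, sum_mul]
          exact sum_congr rfl fun i hi => by rw [← mul_sum, h.bsum i (mem_range.1 hi)]
      _ ≤ ∑ l ∈ range m, (t + 1) * w j * b l j := by
          refine sum_le_sum fun l hl => ?_
          have hl := mem_range.1 hl
          rw [← h.asum l hl, mul_assoc, sum_mul]
          refine sum_le_sum fun i hi => ?_
          rw [mul_comm (a l i), ← h.prop l hl i (mem_range.1 hi) j hj]
          exact Nat.le_mul_of_pos_right _ (h.apos l hl j hj)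
      _ = _ := by rw [← mul_sum, h.bsum j hj]
  · have l0 : Nat.lcmUpto t ≠ 0 := Nat.lcmUpto_ne_zero t
    rw [← Nat.factorization_prime_le_iff_dvd (Nat.one_le_iff_ne_zero.1 (h.wpos j hj)) (mul_ne_zero l0 hM.ne')]
    intro p hp
    obtain ⟨l, hl, hk⟩ := key h hr hp
    have a1 := h.apos l hl j hj
    have a2 : a l j ≤ t := by
      have h1 := add_sum_erase (range r) (a l) (mem_range.2 hj)
      have hc : ((range r).erase j).card = r - 1 := by
        rw [card_erase_of_mem (mem_range.2 hj), card_range]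
      have h2 : 0 < ∑ i ∈ (range r).erase j, a l i :=
        sum_pos (fun i hi => h.apos l hl i (mem_range.1 (mem_of_mem_erase hi)))
          (card_pos.1 (by omega))
      rw [h.asum l hl] at h1
      omega
    have h5 := (Nat.factorization_prime_le_iff_dvd (Nat.one_le_iff_ne_zero.1 a1) l0).2
      (Finset.dvd_lcm (f := id) (mem_Icc.2 ⟨a1, a2⟩)) p hp
    have h6 := hk j hj
    rw [Nat.factorization_mul l0 hM.ne', Finsupp.add_apply]
    omega

end Pool.Agent.H5Hom.Num
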