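import Pool.Agent.Lib.MP_078193_al.NBlue2

/-! Soundness of the ladder step. -/

open Finset
open scoped Nat

namespace Pool.Agent.H5Hom.Num

namespace ERD

theorem Pr_eq {s t : ℕ} (hs : s ≤ t) (ht : t < 128) :
    Pr s t = ∏ p ∈ (Ico (s + 1) (t + 1)).filter Nat.Prime, p := by
  have := foldR_ind (fun i x => x = ∏ p ∈ (Ico (s + 1) i).filter Nat.Prime, p) (s + 1) (t - s)
    (fun p acc => cond (isP p) (p * acc) acc) 1 (by simp) fun i x h1 h2 h => by
      rw [← Finset.insert_Ico_right_eq_Ico_add_one h1, filter_insert, h]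
      cases hp : isP i
      · rw [if_neg (by rw [← isP_tab i (by omega), hp]; simp)]; rfl
      · rw [if_pos (isP_prime hp), prod_insert (by simp)]; rfl
  rw [show s + 1 + (t - s) = t + 1 by omega] at this
  exact this

open Classical in
theorem bound {m L s t : ℕ} (hm : 0 < m) (hL : L ≤ m) (hs : t ≤ s ∨ m < (s + 1) ^ 2) :
    m.choose L ≤ (∏ p ∈ (Ico (s + 1) (t + 1)).filter Nat.Prime, p) *
      m ^ (((range L).filter fun i => ∃ p, p.Prime ∧ t < p ∧ p ∣ m - i).card +
        ((range (s + 1)).filter Nat.Prime).card) := by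
  have hC : m.choose L ≠ 0 := (Nat.choose_pos hL).ne'
  obtain ⟨f, hf⟩ : ∃ f : ℕ → ℕ, ∀ p, f p = p ^ (m.choose L).factorization p := ⟨_, fun _ => rfl⟩
  obtain ⟨T, hT⟩ : ∃ T, T = (m.choose L).primeFactors := ⟨_, rfl⟩
  have hp : ∀ p ∈ T, p.Prime := fun p h => Nat.prime_of_mem_primeFactors (hT ▸ h)
  have e0 : ∏ p ∈ T, f p = m.choose L := by
    rw [hT, prod_congr rfl fun p _ => hf p]
    exact Nat.prod_factorization_pow_eq_self hC
  have e1 := prod_filter_mul_prod_filter_not T (fun p => t < p) f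
  have e2 := prod_filter_mul_prod_filter_not (T.filter fun p => ¬ t < p) (fun p => p ≤ s) f
  have hA : ∏ p ∈ (T.filter fun p => ¬ t < p).filter (fun p => p ≤ s), f p ≤
      m ^ ((range (s + 1)).filter Nat.Prime).card := by
    refine (prod_le_pow_card _ _ m fun p _ => hf p ▸ Nat.pow_factorization_choose_le hm).trans
      (Nat.pow_le_pow_right hm (card_le_card fun p h => ?_))
    simp only [mem_filter, mem_range] at h ⊢
    exact ⟨by omega, hp p h.1.1⟩
  have hM : ∏ p ∈ (T.filter fun p => ¬ t < p).filter (fun p => ¬ p ≤ s), f p ≤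
      ∏ p ∈ (Ico (s + 1) (t + 1)).filter Nat.Prime, p := by
    refine (prod_le_prod' (g := fun p => p) fun p h => ?_).trans
      (prod_le_prod_of_subset_of_one_le' (fun p h => ?_) fun p h _ => (mem_filter.1 h).2.one_le)
    · simp only [mem_filter] at h
      have h1 : m < p ^ 2 := by
        have := Nat.pow_le_pow_left (show s + 1 ≤ p by omega) 2
        omega
      rw [hf]
      exact (Nat.pow_le_pow_right (hp p h.1.1).pos (Nat.factorization_choose_le_one h1)).trans_eq
        (pow_one p)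
    · simp only [mem_filter, mem_Ico] at h ⊢
      exact ⟨by omega, hp p h.1.1⟩
  have hB : ∏ p ∈ T.filter (fun p => t < p), f p ≤
      m ^ ((range L).filter fun i => ∃ p, p.Prime ∧ t < p ∧ p ∣ m - i).card := by
    have d1 : ∏ p ∈ T.filter (fun p => t < p), f p ∣ m.descFactorial L := by
      rw [Nat.descFactorial_eq_factorial_mul_choose, ← e0, ← e1]
      exact (dvd_mul_right _ _).mul_left _
    rw [Nat.descFactorial_eq_prod_range, ← prod_filter_mul_prod_filter_not (range L)
      (fun i => ∃ p, p.Prime ∧ t < p ∧ p ∣ m - i)] at d1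
    have d2 := Nat.Coprime.dvd_of_dvd_mul_right (Nat.Coprime.prod_left fun p h =>
      Nat.Coprime.prod_right fun i hi => by
        rw [hf]
        have h1 := mem_filter.1 h
        exact Nat.Coprime.pow_left _ (((hp p h1.1).coprime_iff_not_dvd).2 fun hd =>
          (mem_filter.1 hi).2 ⟨p, hp p h1.1, h1.2, hd⟩)) d1
    refine (Nat.le_of_dvd (prod_pos fun i hi => ?_) d2).trans
      (prod_le_pow_card _ _ m fun i _ => Nat.sub_le _ _)
    have := mem_range.1 (mem_filter.1 hi).1
    omega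
  rw [← e0, ← e1, ← e2, pow_add]
  exact (Nat.mul_le_mul hB (Nat.mul_le_mul hA hM)).trans_eq (by ring)

end ERD

theorem erd_of (hjc : St_jc) (hnu : St_nu) (hmono : St_mono) : St_erd := by
  classical
  intro t n d τ r ψ g ν hF ht ρ X1 X2 j0 s hr h hX
  by_contra hn
  simp only [erd, Bool.and_eq_true, Bool.or_eq_true, Nat.ble_eq, Nat.blt_eq, ch_eq, fac_eq] at h
  obtain ⟨⟨⟨⟨h1, h2⟩, h3⟩, h4⟩, h5⟩ := h
  have n1 := hF.hn
  have r2 := hF.r2
  have k1 := hmono _ _ _ _ _ (n - j0) h5 (by omega)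
  have k2 := ERD.bound (m := n - j0) (L := t - j0) (s := s) (t := t) (by omega) (by omega)
    (h4.imp id fun h => by omega)
  have k3 := (hjc _ _ _ _ _ _ _ _ hF (((range (t - j0)).filter fun i =>
    ∃ p, p.Prime ∧ t < p ∧ p ∣ n - j0 - i).map (addLeftEmbedding j0)) fun j hj => by
      obtain ⟨i, hi, rfl⟩ := mem_map.1 hj
      obtain ⟨hi, p, p1, p2, p3⟩ := mem_filter.1 hi
      rw [mem_range] at hi
      rw [Nat.sub_sub] at p3
      rw [addLeftEmbedding_apply]
      refine ⟨by omega, fun he => ?_⟩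
      have a1 := hF.s1 p (j0 + i) p1 p2 (by omega) p3
        (hF.jump p (j0 + i) p1 (by omega) (by omega) p3 he).1 (j0 / 2) (by omega)
      have a2 := Nat.choose_le_choose (j0 / 2) (show j0 ≤ j0 + i by omega)
      have a3 := Nat.mul_le_mul_right (n - (j0 + i) - 1)
        ((hnu _ _ _ _ _ _ _ _ hF (j0 / 2) (by omega)).trans hr)
      have a4 := Nat.mul_lt_mul_of_pos_left (show n - (j0 + i) - 1 < X2 by omega)
        (show 0 < ρ by omega)
      omega).1
  rw [card_map] at k3
  rw [← ERD.Pr_eq h2 ht, ← piS_eq s (by omega)] at k2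
  rw [one_mul, Nat.descFactorial_eq_factorial_mul_choose] at k1
  have k4 := k2.trans (Nat.mul_le_mul_left _ (Nat.pow_le_pow_right (by omega)
    (Nat.add_le_add_right (show _ ≤ ρ - 1 by omega) _)))
  exact (k1.trans_le (Nat.mul_le_mul_left _ k4)).ne (by ring)

end Pool.Agent.H5Hom.Num
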