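import Pool.Agent.Lib.MP_078193_al.NBlue2

/-! Soundness of the checkers `gi` and `Dj`. -/

open Finset
open scoped Nat

namespace Pool.Agent.H5Hom.Num

namespace Gi

theorem cnt (a b : ℕ) (ha : a < 128) (hb : b < 128) :
    piS b ≤ piS a + ((Ioc a b).filter Nat.Prime).card := by
  rw [piS_eq a ha, piS_eq b hb]
  refine le_trans (card_le_card fun q hq => ?_) (card_union_le _ _)
  simp only [mem_union, mem_filter, mem_range, mem_Ioc] at hq ⊢
  by_cases h : q ≤ a
  · exact .inl ⟨by omega, hq.2⟩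
  · exact .inr ⟨⟨by omega, by omega⟩, hq.2⟩

end Gi

theorem gi_of : St_gi := by
  intro j τ d r τ' d' r' hj h hτ hd hr
  simp only [gi, Bool.and_eq_true, Bool.or_eq_true, Nat.ble_eq, Nat.blt_eq, mx_eq, mn_eq] at h
  obtain ⟨⟨h1, h2⟩, h3⟩ := h
  refine ⟨by omega, h2, h3.imp (fun h => ?_) fun h => ?_⟩
  · have h4 := Gi.cnt (j - max τ' (min (d' - 1) (j / 2))) (j - 3) (by omega) (by omega)
    obtain ⟨q, hq⟩ := card_pos.1 (show 0 < ((Ioc (j - max τ' (min (d' - 1) (j / 2)))
      (j - 3)).filter Nat.Prime).card by omega)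
    simp only [mem_filter, mem_Ioc] at hq
    obtain ⟨⟨q1, q2⟩, q3⟩ := hq
    refine ⟨j - q, by omega, by omega, by rwa [show j - (j - q) = q by omega], by omega⟩
  · have h4 := Gi.cnt (j - j / 2) (j - 3) (by omega) (by omega)
    refine le_trans (show r ≤ ((Ioc (j - j / 2) (j - 3)).filter Nat.Prime).card by omega) ?_
    refine card_le_card_of_injOn (fun q => j - q) (fun q hq => ?_) fun q hq q' hq' e => ?_
    · simp only [coe_filter, mem_Ioc, mem_range, Set.mem_ofPred_eq] at hq ⊢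
      obtain ⟨⟨q1, q2⟩, q3⟩ := hq
      exact ⟨by omega, by omega, by omega, by rwa [show j - (j - q) = q by omega]⟩
    · simp only [coe_filter, mem_Ioc, Set.mem_ofPred_eq] at hq hq' e
      omega

theorem dj_of (hgi : St_gi) (hd3 : St_d3) : St_dj := by
  intro t n d τ r ψ g ν hF ht p j τ' d' r' hp htp hjt h1 h2 h3 hτ hd hr
  obtain ⟨s1, s2⟩ := hF.s2 p j hp htp hjt h1 h2 h3
  have key : ∀ k0, (∀ k, 1 ≤ k → k ≤ k0 → j.descFactorial k ∣ n - j) →
      df j (mn (cond (Nat.ble 4 j) (mx k0 1) k0) 8) ∣ n - j := by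
    intro k0 hk
    rw [df_eq, mn_eq, cond_ble, mx_eq]
    split_ifs with h4
    · rcases Nat.eq_zero_or_pos k0 with rfl | h0
      · simpa using s1 (hd3 _ _ _ _ _ _ _ _ hF) h4
      · exact hk _ (by omega) (by omega)
    · rcases Nat.eq_zero_or_pos k0 with rfl | h0
      · simp
      · exact hk _ (by omega) (by omega)
  rw [Dj, frc_eq]
  refine key _ fun k k1 k2 => ?_
  rw [cond_ble] at k2
  split_ifs at k2 with h4
  · exact s2 k (by omega) (.inl (by omega))
  · cases h5 : gi j τ' d' r'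
    · rw [h5, cond_false] at k2
      exact s2 k (by omega) (.inl (by omega))
    · rw [h5, cond_true] at k2
      exact s2 k (by omega) (.inr ⟨hgi j τ d r τ' d' r' (by omega) h5 hτ hd hr, by omega⟩)

end Pool.Agent.H5Hom.Num
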