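import Pool.Agent.Lib.MP_078193_al.NBlue2

/-! Soundness of the knapsack test `kbad`. -/

open Finset
open scoped Nat

namespace Pool.Agent.H5Hom.Num

namespace Kbad

theorem leL_map (l : List ℕ) (f h : ℕ → ℕ) (hh : ∀ j, f j ≤ h j) :
    leL (l.map f) (l.map h) = true := by
  induction l with
  | nil => rfl
  | cons x xs ih =>
    show (Nat.ble (f x) (h x) && leL (xs.map f) (xs.map h)) = true
    rw [ih, Bool.and_true, Nat.ble_eq]
    exact hh x

theorem subL_map (l : List ℕ) (f h : ℕ → ℕ) :
    subL (l.map h) (l.map f) = l.map fun j => h j - f j := by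
  induction l with
  | nil => rfl
  | cons x xs ih =>
    show (h x - f x) :: subL (xs.map h) (xs.map f) = _
    rw [ih]
    rfl

theorem eqL_eq (v u : List ℕ) (h : eqL v u = true) : v = u := by
  induction v generalizing u with
  | nil =>
    cases u with
    | nil => rfl
    | cons y ys => exact absurd h (by simp [eqL])
  | cons x xs ih =>
    cases u with
    | nil => exact absurd h (by simp [eqL])
    | cons y ys =>
      have h1 : (Nat.beq x y && eqL xs ys) = true := h
      rw [Bool.and_eq_true, Nat.beq_eq] at h1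
      rw [h1.1, ih ys h1.2]

/-- the inner loop of `go` -/
def loop (v : List ℕ) (vs : List (List ℕ)) (k : ℕ) : List ℕ → Bool :=
  Nat.rec (fun _ => true)
    (fun _ rest rem => go vs rem || (leL v rem && frcL (subL rem v) rest)) k

theorem go_cons (v : List ℕ) (vs : List (List ℕ)) : go (v :: vs) = loop v vs 64 := rfl

theorem loop_succ (v : List ℕ) (vs : List (List ℕ)) (k : ℕ) (rem : List ℕ) :
    loop v vs (k + 1) rem = (go vs rem || (leL v rem && frcL (subL rem v) (loop v vs k))) := rfl

theorem go_list (l : List ℕ) (vs : List (List ℕ)) (L : List (ℕ → ℕ))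
    (hL : ∀ f ∈ L, l.map f ∈ vs) : go vs (l.map L.sum) = true := by
  induction vs generalizing L with
  | nil =>
    cases L with
    | nil =>
      show allL _ _ = true
      simp
    | cons f fs => exact absurd (hL f (by simp)) (by simp)
  | cons v vs ih =>
    rw [go_cons]
    generalize 64 = k
    induction k generalizing L with
    | zero => rfl
    | succ k ih2 =>
      rw [loop_succ, Bool.or_eq_true, Bool.and_eq_true, frcL_eq]
      by_cases h : ∀ f ∈ L, l.map f ∈ vs
      · exact Or.inl (ih L h)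
      · right
        push Not at h
        obtain ⟨f, hf, hf2⟩ := h
        have hv : l.map f = v := (List.mem_cons.1 (hL f hf)).resolve_right hf2
        obtain ⟨s, u, rfl⟩ := List.append_of_mem hf
        have e : ∀ j, (s ++ f :: u).sum j = f j + (s ++ u).sum j := fun j => by
          simp only [List.sum_append, List.sum_cons, Pi.add_apply]
          omega
        rw [← hv]
        refine ⟨leL_map _ _ _ fun j => by rw [e]; omega, ?_⟩
        rw [subL_map, show (fun j => (s ++ f :: u).sum j - f j) = (s ++ u).sum from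
          funext fun j => by rw [e]; omega, hv]
        refine ih2 _ fun g hg => hL g ?_
        simp only [List.mem_append, List.mem_cons] at hg ⊢
        tauto

theorem comps_cons (P : ℕ) (f : List ℕ → List (List ℕ) → List (List ℕ)) (x : ℕ) (w : List ℕ)
    (s : ℕ) (z : List ℕ) (out : List (List ℕ)) :
    comps P f (x :: w) s z out = Nat.rec out
      (fun i acc => comps P f w (s - (i + 1)) ((i + 1) * (P / x) :: z) acc) s := rfl

theorem rec_mem {y : List ℕ} (F : ℕ → List (List ℕ) → List (List ℕ))
    (hF : ∀ i acc, y ∈ acc → y ∈ F i acc) (out : List (List ℕ)) (k : ℕ)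
    (h : y ∈ out ∨ ∃ i < k, ∀ acc, y ∈ F i acc) :
    y ∈ (Nat.rec out F k : List (List ℕ)) := by
  induction k with
  | zero =>
    rcases h with h | ⟨i, hi, _⟩
    · exact h
    · omega
  | succ k ih =>
    show y ∈ F k _
    rcases h with h | ⟨i, hi, h⟩
    · exact hF _ _ (ih (Or.inl h))
    · rcases Nat.lt_succ_iff_lt_or_eq.1 hi with h1 | rfl
      · exact hF _ _ (ih (Or.inr ⟨i, h1, h⟩))
      · exact h _

theorem comps_mono {y : List ℕ} (P : ℕ) (f : List ℕ → List (List ℕ) → List (List ℕ))
    (hf : ∀ z out, y ∈ out → y ∈ f z out) (w : List ℕ) (s : ℕ) (z : List ℕ)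
    (out : List (List ℕ)) (h : y ∈ out) : y ∈ comps P f w s z out := by
  induction w generalizing s z out with
  | nil =>
    show y ∈ cond (Nat.beq s 0) (f z out) out
    cases Nat.beq s 0
    · exact h
    · exact hf _ _ h
  | cons x w ih =>
    rw [comps_cons]
    exact rec_mem _ (fun i acc ha => ih _ _ _ ha) _ _ (Or.inl h)

theorem comps_mem {y : List ℕ} (P : ℕ) (f : List ℕ → List (List ℕ) → List (List ℕ))
    (hf : ∀ z out, y ∈ out → y ∈ f z out) (w a : ℕ → ℕ) (r : ℕ) (ha : ∀ j < r, 1 ≤ a j)
    (z : List ℕ)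
    (hy : ∀ out, y ∈ f (((List.range r).map fun j => a j * (P / w j)) ++ z) out)
    (out : List (List ℕ)) : y ∈ comps P f (wl r w) (∑ j ∈ range r, a j) z out := by
  induction r generalizing z out with
  | zero => exact hy out
  | succ r ih =>
    have h1 := ha r (by omega)
    rw [wl_succ, comps_cons, sum_range_succ]
    refine rec_mem _ (fun i acc h => comps_mono P f hf _ _ _ _ h) _ _
      (Or.inr ⟨a r - 1, by omega, fun acc => ?_⟩)
    rw [Nat.sub_add_cancel h1, Nat.add_sub_cancel]
    refine ih (fun j hj => ha j (by omega)) _ (fun o => ?_) acc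
    have := hy o
    rwa [List.range_succ, List.map_append, List.append_assoc] at this

theorem addP_mono (M : ℕ) (y z : List ℕ) (out : List (List ℕ)) (h : y ∈ out) :
    y ∈ addP M z out := by
  unfold addP
  rw [frc_eq]
  cases (allL z (fun x => Nat.ble (x / gcdL z) M) &&
    !(anyL out (eqL (mapL z fun x => x / gcdL z))))
  · exact h
  · exact List.mem_cons_of_mem _ h

theorem addP_mem (M : ℕ) (z : List ℕ) (out : List (List ℕ)) (h : ∀ x ∈ z, x / gcdL z ≤ M) :
    (z.map fun x => x / gcdL z) ∈ addP M z out := by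
  unfold addP
  rw [frc_eq, (allL_iff _ _).2 fun x hx => Nat.ble_eq ▸ h x hx, Bool.true_and, mapL_eq]
  cases h1 : anyL out (eqL (z.map fun x => x / gcdL z))
  · exact List.mem_cons_self
  · obtain ⟨u, hu, hu2⟩ := (anyL_iff _ _).1 h1
    rw [eqL_eq _ _ hu2]
    exact hu

theorem gcdL_dvd (l : List ℕ) (x : ℕ) (h : x ∈ l) : gcdL l ∣ x := by
  induction l with
  | nil => simp at h
  | cons y ys ih =>
    show Nat.gcd y (gcdL ys) ∣ x
    rcases List.mem_cons.1 h with rfl | h
    · exact Nat.gcd_dvd_left _ _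
    · exact (Nat.gcd_dvd_right _ _).trans (ih h)

theorem dvd_mul_gcdL (l : List ℕ) (e k : ℕ) (h : ∀ x ∈ l, e ∣ k * x) : e ∣ k * gcdL l := by
  induction l with
  | nil => exact dvd_zero _
  | cons y ys ih =>
    show e ∣ k * Nat.gcd y (gcdL ys)
    rw [← Nat.gcd_mul_left]
    exact Nat.dvd_gcd (h y (by simp)) (ih fun x hx => h x (List.mem_cons_of_mem _ hx))

/-- a vector proportional to `z` is a multiple of the primitive vector of `z` -/
theorem prop_mul (r : ℕ) (hr : 0 < r) (z b : ℕ → ℕ) (hz : 0 < z 0)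
    (h : ∀ j < r, b 0 * z j = b j * z 0) :
    ∃ c, ∀ j < r, b j = c * (z j / gcdL ((List.range r).map z)) := by
  set G := gcdL ((List.range r).map z) with hG
  have h1 : ∀ j < r, G ∣ z j := fun j hj =>
    gcdL_dvd _ _ (List.mem_map.2 ⟨j, List.mem_range.2 hj, rfl⟩)
  have h2 : z 0 ∣ b 0 * G := dvd_mul_gcdL _ _ _ fun x hx => by
    obtain ⟨j, hj, rfl⟩ := List.mem_map.1 hx
    rw [h j (List.mem_range.1 hj)]
    exact Dvd.intro_left _ rfl
  have h3 : 0 < G := Nat.pos_of_dvd_of_pos (h1 0 hr) hz
  obtain ⟨c, hc⟩ := h2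
  refine ⟨c, fun j hj => ?_⟩
  obtain ⟨q, hq⟩ := h1 j hj
  rw [hq, Nat.mul_div_cancel_left _ h3]
  refine Nat.eq_of_mul_eq_mul_left hz ?_
  have h4 := h j hj
  rw [hq, ← mul_assoc, hc] at h4
  rw [mul_comm (z 0) (b j), ← h4, mul_assoc]

end Kbad

open Kbad in
theorem kbad_of : St_kbad := by
  intro t n d r m γ w a b hI hr h
  simp only [kbad, Bool.and_eq_true, Bool.not_eq_true', frcLL_eq, mapL_eq] at h
  obtain ⟨-, h⟩ := h
  set P := prodL (wl r w) with hP
  have hw : ∀ j < r, w j ∣ P := fun j hj => by
    rw [hP, prodL_eq]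
    exact List.dvd_prod ((mem_wl _ _ _).2 ⟨j, hj, rfl⟩)
  have hP0 : 0 < P := by
    rw [hP, prodL_eq]
    refine List.prod_pos fun x hx => ?_
    obtain ⟨j, hj, rfl⟩ := (mem_wl _ _ _).1 hx
    exact hI.wpos j hj
  set z : ℕ → ℕ → ℕ := fun l j => a l j * (P / w j) with hz
  set p : ℕ → ℕ → ℕ := fun l j => z l j / gcdL ((List.range r).map (z l)) with hp
  have h1 : ∀ l, ∃ c, l < m → ∀ j < r, b l j = c * p l j := fun l => by
    by_cases hl : l < m
    · obtain ⟨c, hc⟩ := prop_mul r (by omega) (z l) (b l) (Nat.mul_pos (hI.apos l hl 0 (by omega))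
        (Nat.div_pos (Nat.le_of_dvd hP0 (hw 0 (by omega))) (hI.wpos 0 (by omega)))) fun j hj => by
          have e := hI.prop l hl 0 (by omega) j hj
          obtain ⟨q0, e0⟩ := hw 0 (by omega)
          obtain ⟨q1, e1⟩ := hw j hj
          have w0 := hI.wpos 0 (by omega)
          have w1 := hI.wpos j hj
          have f0 : P / w 0 = q0 := by rw [e0, Nat.mul_div_cancel_left _ w0]
          have f1 : P / w j = q1 := by rw [e1, Nat.mul_div_cancel_left _ w1]
          simp only [hz, f0, f1]
          refine Nat.eq_of_mul_eq_mul_left (Nat.mul_pos w0 w1) ?_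
          calc w 0 * w j * (b l 0 * (a l j * q1)) = w 0 * b l 0 * a l j * (w j * q1) := by ring
            _ = w j * b l j * a l 0 * (w 0 * q0) := by rw [e, ← e0, ← e1]
            _ = _ := by ring
      exact ⟨c, fun _ => hc⟩
    · exact ⟨0, fun h => absurd h hl⟩
  choose c hc using h1
  have h2 : ∀ l < m, (List.range r).map (p l) ∈ prims t (n - t) (wl r w) := fun l hl => by
    unfold prims
    rw [frc_eq, ← hI.asum l hl]
    refine comps_mem _ _ (fun u out => addP_mono _ _ u out) w (a l) r (hI.apos l hl) []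
      (fun out => ?_) []
    rw [List.append_nil]
    have h3 := addP_mem (n - t) ((List.range r).map (z l)) out fun x hx => by
      obtain ⟨j, hj, rfl⟩ := List.mem_map.1 hx
      have hj' := List.mem_range.1 hj
      have h4 := hc l hl j hj'
      have h5 := hI.bpos l hl j hj'
      have h6 : b l j ≤ n - t := by
        rw [← hI.bsum j hj']
        exact single_le_sum (f := fun l => b l j) (fun _ _ => Nat.zero_le _) (mem_range.2 hl)
      have h7 : c l ≠ 0 := fun h0 => by
        rw [h0, zero_mul] at h4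
        omega
      calc p l j ≤ c l * p l j := Nat.le_mul_of_pos_left _ (Nat.pos_of_ne_zero h7)
        _ ≤ n - t := h4 ▸ h6
    rw [List.map_map] at h3
    exact h3
  have h3 : (∑ l ∈ range m, c l • p l) ∈ AddSubmonoid.closure
      {f : ℕ → ℕ | (List.range r).map f ∈ prims t (n - t) (wl r w)} :=
    sum_mem fun l hl => nsmul_mem (AddSubmonoid.subset_closure
      (show p l ∈ {f : ℕ → ℕ | (List.range r).map f ∈ prims t (n - t) (wl r w)} from
        h2 l (mem_range.1 hl))) _
  obtain ⟨L, hL, hL2⟩ := AddSubmonoid.exists_list_of_mem_closure h3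
  have h4 := go_list (List.range r) _ L hL
  have h5 : (List.range r).map L.sum = (wl r w).map fun _ => n - t := by
    rw [List.map_const', length_wl, hL2]
    refine List.eq_replicate_iff.2 ⟨by simp, fun x hx => ?_⟩
    obtain ⟨j, hj, rfl⟩ := List.mem_map.1 hx
    have hj' := List.mem_range.1 hj
    rw [← hI.bsum j hj', Finset.sum_apply]
    exact sum_congr rfl fun l hl => (hc l (mem_range.1 hl) j hj').symm
  rw [h5, h] at h4
  exact absurd h4 (by decide)

end Pool.Agent.H5Hom.Num
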