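import Pool.Agent.Lib.MP_078193_al.NFacts

/-! The arithmetic theorem for `t ≤ 127` and large degree: checker and soundness. -/

open Finset
open scoped Nat

namespace Pool.Agent.H5Hom.Lad

def isP (p : ℕ) : Bool := Nat.testBit 170152392186162032610075049835446806700 p

def piT (x : ℕ) : ℕ :=
  Nat.mod (Nat.shiftRight (nat_lit 4557841383128624457332053625713484452011979418863188363526250659154187438390046027550771306273409786245109386885562120692748780623364462415499420318765458666178480651384208331957174294131311616) (Nat.mul (nat_lit 5) x)) (nat_lit 32)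

def allB (f : ℕ → Bool) : ℕ → Bool
  | 0 => true
  | k + 1 => f k && allB f k

def frc {α : Type} (x : ℕ) (f : ℕ → α) : α := Nat.rec (f 0) (fun k _ => f (Nat.succ k)) x

lemma frc_eq {α : Type} (x : ℕ) (f : ℕ → α) : frc x f = f x := by cases x <;> rfl

def cnt (f : ℕ → Bool) (k : ℕ) : ℕ :=
  Nat.rec (motive := fun _ => ℕ) 0 (fun k ih => Bool.rec ih (Nat.succ ih) (f k)) k

lemma cnt_succ (f : ℕ → Bool) (k : ℕ) :
    cnt f (k + 1) = bif f k then cnt f k + 1 else cnt f k := by
  show (Bool.rec (cnt f k) (cnt f k + 1) (f k) : ℕ) = _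
  cases f k <;> rfl

def mx (f : ℕ → Bool) : ℕ → ℕ
  | 0 => 0
  | k + 1 => bif f (k + 1) then k + 1 else mx f k

def mn (f : ℕ → ℕ) (b : ℕ) : ℕ → ℕ
  | 0 => b
  | k + 1 => min (f k) (mn f b k)

def sup (f : ℕ → ℕ) : ℕ → ℕ
  | 0 => 0
  | k + 1 => max (f k) (sup f k)

def prd (f : ℕ → ℕ) : ℕ → ℕ
  | 0 => 1
  | k + 1 => f k * prd f k

def lcmU : ℕ → ℕ
  | 0 => 1
  | k + 1 => Nat.lcm (k + 1) (lcmU k)

lemma allB_iff (f : ℕ → Bool) (k : ℕ) : allB f k = true ↔ ∀ i < k, f i = true := by
  induction k with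
  | zero => simp [allB]
  | succ k ih => rw [allB, Bool.and_eq_true, ih, Nat.forall_lt_succ_right, and_comm]

lemma cnt_eq (f : ℕ → Bool) (k : ℕ) : cnt f k = ((range k).filter (fun i => f i = true)).card := by
  induction k with
  | zero => rfl
  | succ k ih =>
    rw [cnt_succ, range_add_one, filter_insert]
    cases h : f k
    · simp [ih]
    · simp [ih]

lemma le_mx {f : ℕ → Bool} {r k : ℕ} (h : f r = true) (hk : r ≤ k) : r ≤ mx f k := by
  induction k with
  | zero => omega
  | succ k ih =>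
    rw [mx]
    cases h' : f (k + 1)
    · refine ih (Nat.le_of_lt_succ (lt_of_le_of_ne hk ?_))
      rintro rfl
      simp [h] at h'
    · exact hk

lemma le_mn {f : ℕ → ℕ} {r b k : ℕ} (hb : r ≤ b) (h : ∀ i < k, r ≤ f i) : r ≤ mn f b k := by
  induction k with
  | zero => exact hb
  | succ k ih => exact le_min (h k (by omega)) (ih fun i hi => h i (by omega))

lemma le_sup' {f : ℕ → ℕ} {i k : ℕ} (h : i < k) : f i ≤ sup f k := by
  induction k with
  | zero => omega
  | succ k ih =>
    rcases Nat.lt_succ_iff_lt_or_eq.1 h with h | rfl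
    · exact (ih h).trans (le_max_right _ _)
    · exact le_max_left _ _

lemma lcm_le (k : ℕ) : Nat.lcmUpto k ≤ lcmU k := by
  have h : ∀ k, 0 < lcmU k ∧ ∀ i, 1 ≤ i → i ≤ k → i ∣ lcmU k := by
    intro k
    induction k with
    | zero => exact ⟨one_pos, fun i _ _ => by omega⟩
    | succ k ih =>
      refine ⟨Nat.lcm_pos (by omega) ih.1, fun i h1 h2 => ?_⟩
      rcases Nat.lt_succ_iff_lt_or_eq.1 (Nat.lt_succ_of_le h2) with h | rfl
      · exact (ih.2 i h1 (by omega)).trans (Nat.dvd_lcm_right _ _)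
      · exact Nat.dvd_lcm_left _ _
  exact Nat.le_of_dvd (h k).1 (Finset.lcm_dvd fun i hi => (h k).2 i (mem_Icc.1 hi).1 (mem_Icc.1 hi).2)

lemma isP_iff : ∀ p < 128, (isP p = true ↔ p.Prime) := by decide +kernel

lemma piT_eq (x : ℕ) (hx : x < 128) : piT x = ((range (x + 1)).filter Nat.Prime).card := by
  have : ∀ x < 128, piT x = cnt isP (x + 1) := by decide +kernel
  rw [this x hx, cnt_eq]
  congr 1
  exact filter_congr fun p hp => isP_iff p (by have := mem_range.1 hp; omega)

def gi (j τ d r : ℕ) : Bool :=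
  Bool.rec false (Bool.rec false (Bool.rec
    (Nat.ble (Nat.succ (piT (Nat.sub j (Nat.add τ (Nat.sub (Nat.sub (Nat.sub d (nat_lit 1))
      (Nat.sub (Nat.sub d (nat_lit 1)) (Nat.div j (nat_lit 2)))) τ)))))
      (piT (Nat.sub j (nat_lit 3)))) true
    (Nat.ble (Nat.add r (piT (Nat.sub j (Nat.div j (nat_lit 2))))) (piT (Nat.sub j (nat_lit 3)))))
    (Nat.ble (nat_lit 5) j)) (Nat.ble (nat_lit 3) d)

lemma rec_and (a b : Bool) : (Bool.rec false b a : Bool) = (a && b) := by cases a <;> rfl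

lemma rec_or (a b : Bool) : (Bool.rec b true a : Bool) = (a || b) := by cases a <;> rfl

lemma rec_not (a b : Bool) : (Bool.rec true b a : Bool) = (!a || b) := by cases a <;> rfl

lemma gi_sound {j τ d r R : ℕ} (hj : j < 128) (hr : r ≤ R) (h : gi j τ d R = true) :
    GiP j τ d r := by
  rw [gi, rec_and, rec_and, rec_or, Bool.or_comm, ← Bool.and_assoc] at h
  replace h : (Nat.ble 3 d && Nat.ble 5 j &&
    (Nat.blt (piT (j - (τ + (d - 1 - (d - 1 - j / 2) - τ)))) (piT (j - 3)) ||
      Nat.ble (R + piT (j - j / 2)) (piT (j - 3)))) = true := h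
  simp only [Bool.and_eq_true, Bool.or_eq_true, Nat.ble_eq, Nat.blt_eq] at h
  obtain ⟨⟨h1, h2⟩, h3⟩ := h
  refine ⟨h1, h2, h3.imp (fun h => ?_) fun h => ?_⟩
  · rw [piT_eq _ (by omega), piT_eq _ (by omega)] at h
    obtain ⟨p, a, b⟩ := exists_mem_notMem_of_card_lt_card h
    simp only [mem_filter, mem_range, not_and] at a b
    have := a.2.two_le
    have c : ¬ p < j - (τ + (d - 1 - (d - 1 - j / 2) - τ)) + 1 := fun c => b c a.2
    refine ⟨j - p, by omega, by omega, by rw [show j - (j - p) = p by omega]; exact a.2, ?_⟩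
    omega
  · rw [piT_eq _ (by omega), piT_eq _ (by omega)] at h
    have : (range (j - 3 + 1)).filter Nat.Prime ⊆ (range (j - j / 2 + 1)).filter Nat.Prime ∪
        ((range j).filter (fun k => 3 ≤ k ∧ 2 * k + 2 ≤ j ∧ (j - k).Prime)).image (j - ·) := by
      intro p hp
      simp only [mem_filter, mem_range, mem_union, mem_image] at hp ⊢
      have := hp.2.two_le
      by_cases c : p < j - j / 2 + 1
      · exact Or.inl ⟨c, hp.2⟩
      · exact Or.inr ⟨j - p, ⟨by omega, by omega, by omega,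
          by rw [show j - (j - p) = p by omega]; exact hp.2⟩, by omega⟩
    have := (card_le_card this).trans ((card_union_le _ _).trans
      (Nat.add_le_add_left card_image_le _))
    omega

lemma fall_le {x y : ℕ} (h : x ≤ y) (c : ℕ) :
    y ^ c * x.descFactorial c ≤ x ^ c * y.descFactorial c := by
  induction c with
  | zero => simp
  | succ c ih =>
    have : y * (x - c) ≤ x * (y - c) := by
      rw [Nat.mul_sub, Nat.mul_sub, mul_comm y x]
      exact Nat.sub_le_sub_left (Nat.mul_le_mul_right _ h) _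
    calc _ = (y ^ c * x.descFactorial c) * (y * (x - c)) := by
          rw [Nat.descFactorial_succ, pow_succ]; ring
      _ ≤ (x ^ c * y.descFactorial c) * (x * (y - c)) := Nat.mul_le_mul ih this
      _ = _ := by rw [Nat.descFactorial_succ, pow_succ]; ring

lemma fail_mono {A B x y b c : ℕ} (hb : b ≤ c) (h : x ≤ y)
    (hf : A * x ^ b < B * x.descFactorial c) : A * y ^ b < B * y.descFactorial c := by
  rcases Nat.eq_zero_or_pos x with rfl | hx
  · rcases c with _ | c
    · obtain rfl : b = 0 := by omega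
      simpa using hf
    · simp at hf
  obtain ⟨e, rfl⟩ := Nat.exists_eq_add_of_le hb
  have h1 := fall_le h (b + e)
  have h2 : y ^ b * x.descFactorial (b + e) ≤ x ^ b * y.descFactorial (b + e) := by
    refine Nat.le_of_mul_le_mul_left ?_ (pow_pos hx e)
    calc _ ≤ y ^ e * (y ^ b * x.descFactorial (b + e)) :=
          Nat.mul_le_mul_right _ (Nat.pow_le_pow_left h e)
      _ = y ^ (b + e) * x.descFactorial (b + e) := by ring
      _ ≤ _ := h1
      _ = _ := by ring
  refine Nat.lt_of_mul_lt_mul_left (a := x ^ b) ?_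
  calc _ = y ^ b * (A * x ^ b) := by ring
    _ < y ^ b * (B * x.descFactorial (b + e)) :=
        Nat.mul_lt_mul_of_pos_left hf (pow_pos (by omega) b)
    _ = B * (y ^ b * x.descFactorial (b + e)) := by ring
    _ ≤ B * (x ^ b * y.descFactorial (b + e)) := Nat.mul_le_mul_left _ h2
    _ = _ := by ring

lemma mono_lin {A B a b e : ℕ} (hab : a ≤ b) (h : (a + e) * A ≤ (b + e) * B) :
    a * A ≤ b * B := by
  by_contra! k
  have h1 : B < A := by
    by_contra! h1
    exact absurd (Nat.mul_le_mul hab h1) (by omega)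
  have := Nat.mul_le_mul_left e h1.le
  rw [add_mul, add_mul] at h
  omega

lemma jumps {ν : ℕ → ℕ} {a t : ℕ} (h : ∀ i < t, ν i ≤ ν (i + 1)) (ha : a ≤ t) :
    ((Ico a t).filter (fun j => ν j ≠ ν (j + 1))).card + ν a ≤ ν t := by
  induction t, ha using Nat.le_induction with
  | base => simp
  | succ t ht ih =>
    have := ih fun i hi => h i (by omega)
    have h1 := h t (by omega)
    rw [Nat.Ico_succ_right_eq_insert_Ico ht, filter_insert]
    split_ifs with c
    · have := card_insert_le t ((Ico a t).filter (fun j => ν j ≠ ν (j + 1)))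
      omega
    · omega

lemma small_le {C m X : ℕ} (h1 : ∀ p, p ^ C.factorization p ≤ m)
    (h2 : ∀ p, X < p * p → C.factorization p ≤ 1) (k : ℕ) (hk : k ≤ 128) :
    ∏ p ∈ range k, p ^ C.factorization p ≤
      prd (fun p => bif isP p && Nat.blt X (p * p) then p else 1) k *
        m ^ cnt (fun p => isP p && Nat.ble (p * p) X) k := by
  induction k with
  | zero => simp [prd, cnt]
  | succ k ih =>
    have := ih (by omega)
    rw [prod_range_succ, prd, cnt_succ]
    by_cases hp : k.Prime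
    · have a := (isP_iff k (by omega)).2 hp
      by_cases c : X < k * k
      · have b : k ^ C.factorization k ≤ k := by
          simpa using Nat.pow_le_pow_right hp.pos (h2 k c)
        have c1 : Nat.blt X (k * k) = true := by simpa using c
        have c2 : Nat.ble (k * k) X = false := by
          rw [← Bool.not_eq_true, Nat.ble_eq]; omega
        simp only [a, c1, c2, Bool.and_true, Bool.and_false, cond_true, cond_false]
        calc _ ≤ _ := Nat.mul_le_mul this b
          _ = _ := by ring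
      · have c1 : Nat.blt X (k * k) = false := by
          rw [← Bool.not_eq_true, Nat.blt_eq]; omega
        have c2 : Nat.ble (k * k) X = true := by rw [Nat.ble_eq]; omega
        simp only [a, c1, c2, Bool.and_true, Bool.and_false, cond_true, cond_false]
        calc _ ≤ _ := Nat.mul_le_mul this (h1 k)
          _ = _ := by ring
    · have a : isP k = false := by
        rw [← Bool.not_eq_true, isP_iff k (by omega)]; exact hp
      simp only [a, Bool.false_and, cond_false, Nat.factorization_eq_zero_of_not_prime _ hp]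
      simpa using this

variable {t n d τ r ψ g : ℕ} {ν : ℕ → ℕ}

lemma nu_le (h : Facts t n d τ r ψ g ν) {i j : ℕ} (hij : i ≤ j) (hj : j ≤ t) : ν i ≤ ν j := by
  have := jumps (a := i) (fun k (hk : k < j) => h.mono k (by omega)) hij
  omega

def erd (t R X Z j : ℕ) : Bool :=
  Nat.blt j t && Nat.ble (R * Z * (j / 2)!) (j.descFactorial (j / 2)) &&
    Nat.ble (R - 1 + cnt (fun p => isP p && Nat.ble (p * p) Z) (t + 1)) (t - j) &&
    Nat.blt (prd (fun p => bif isP p && Nat.blt Z (p * p) then p else 1) (t + 1) * (t - j)! *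
      (X - j) ^ (R - 1 + cnt (fun p => isP p && Nat.ble (p * p) Z) (t + 1)))
      ((X - j).descFactorial (t - j))

lemma erd_sound (h : Facts t n d τ r ψ g ν) (ht : t ≤ 127) {R X Z j : ℕ} (hr : r ≤ R)
    (h1 : X ≤ n) (h2 : n ≤ Z) (hc : erd t R X Z j = true) : False := by
  classical
  simp only [erd, Bool.and_eq_true, Nat.ble_eq, Nat.blt_eq] at hc
  obtain ⟨⟨⟨c1, c2⟩, c3⟩, c4⟩ := hc
  have hn := h.hn
  have r2 := h.r2
  rw [Nat.descFactorial_eq_factorial_mul_choose, mul_comm] at c2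
  replace c2 := Nat.le_of_mul_le_mul_left c2 (Nat.factorial_pos _)
  set Bad := (Ico j t).filter (fun j => ν j ≠ ν (j + 1)) with hB
  have hb : Bad.card ≤ R - 1 := by
    have a := jumps h.mono c1.le
    have b := nu_le h (Nat.zero_le j) c1.le
    rw [h.low 0 (by have := h.hτ; omega)] at b
    rw [← hB, h.top] at a
    omega
  have good : ∀ i, j ≤ i → i < t → ν i = ν (i + 1) → ∀ p : ℕ, p.Prime → t < p → ¬ p ∣ n - i := by
    intro i a b c p hp hp' hd
    have e := h.s1 p i hp hp' b hd (h.jump p i hp b (by omega) hd c).1 (j / 2) (by omega)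
    have e1 : ν (j / 2) ≤ R := (nu_le h (by omega) le_rfl).trans (h.top ▸ hr)
    have e2 := Nat.choose_le_choose (j / 2) a
    have e3 : ν (j / 2) * (n - i - 1) < R * Z :=
      Nat.mul_lt_mul_of_le_of_lt e1 (by omega) (by omega)
    omega
  obtain ⟨m, hm⟩ : ∃ m, m = n - j := ⟨_, rfl⟩
  obtain ⟨L, hL⟩ : ∃ L, L = t - j := ⟨_, rfl⟩
  rw [← hL] at c3 c4
  have f1 := fail_mono (B := 1) (y := m) c3 (show X - j ≤ m by omega) (by simpa using c4)
  have f2 := Nat.prod_pow_factorization_choose m L (by omega)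
  rw [← prod_range_mul_prod_Ico _ (show t + 1 ≤ m + 1 by omega)] at f2
  have f3 := small_le (C := m.choose L) (m := m) (X := Z)
    (fun p => Nat.pow_factorization_choose_le (by omega))
    (fun p hp => Nat.factorization_choose_le_one (by rw [sq]; omega)) (t + 1) (by omega)
  set b := ∏ p ∈ Ico (t + 1) (m + 1), p ^ (m.choose L).factorization p with hb'
  have f4 : m.descFactorial L = ∏ i ∈ Ico j t, (n - i) := by
    rw [Nat.descFactorial_eq_prod_range, prod_Ico_eq_prod_range, ← hL]
    exact prod_congr rfl fun i _ => by omega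
  have f5 : b ∣ ∏ i ∈ Bad, (n - i) := by
    have a : b ∣ ∏ i ∈ Ico j t, (n - i) := by
      rw [← f4, Nat.descFactorial_eq_factorial_mul_choose, ← f2]
      exact (dvd_mul_left _ _).mul_left _
    rw [← prod_filter_mul_prod_filter_not _ (fun j => ν j ≠ ν (j + 1))] at a
    refine Nat.Coprime.dvd_of_dvd_mul_right ?_ a
    refine Nat.Coprime.prod_left fun p hp => Nat.Coprime.prod_right fun i hi => ?_
    by_cases e : p.Prime
    · rw [mem_filter, mem_Ico, not_not] at hi
      exact Nat.Coprime.pow_left _ ((Nat.Prime.coprime_iff_not_dvd e).2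
        (good i hi.1.1 hi.1.2 hi.2 p e (by have := (mem_Ico.1 hp).1; omega)))
    · simp [Nat.factorization_eq_zero_of_not_prime _ e]
  have f6 : b ≤ m ^ (R - 1) := by
    refine (Nat.le_of_dvd (prod_pos fun i hi => ?_) f5).trans
      ((prod_le_pow_card _ _ m fun i hi => ?_).trans (Nat.pow_le_pow_right (by omega) hb))
    all_goals have := mem_Ico.1 (mem_filter.1 hi).1; omega
  have f7 := Nat.mul_le_mul_left L ! (Nat.mul_le_mul f3 f6)
  rw [f2, ← Nat.descFactorial_eq_factorial_mul_choose] at f7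
  rw [one_mul, pow_add] at f1
  refine absurd (f7.trans_lt' f1) (not_lt.2 (le_of_eq ?_))
  ring

def chain (t R : ℕ) : List (ℕ × ℕ) → ℕ → ℕ
  | [], X => X
  | (s, j) :: l, X => bif erd t R X (X * 2 ^ s) j then chain t R l (X * 2 ^ s) else X

lemma chain_sound (h : Facts t n d τ r ψ g ν) (ht : t ≤ 127) {R : ℕ} (hr : r ≤ R)
    (l : List (ℕ × ℕ)) : ∀ X, X ≤ n → chain t R l X ≤ n := by
  induction l with
  | nil => exact fun X hX => hX
  | cons a l ih =>
    intro X hX
    obtain ⟨s, j⟩ := a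
    rw [chain]
    cases c : erd t R X (X * 2 ^ s) j
    · exact hX
    · refine ih _ ?_
      by_contra! k
      exact erd_sound h ht hr hX k.le c

def T4 (t τ : ℕ) : ℕ :=
  mn (fun l => bif isP l && Nat.ble ((t + 1) % l + l) τ then (t + 1) / l + (t + 1) % l else t) t
    (τ + 1)

lemma le_T4 (h : Facts t n d τ r ψ g ν) (ht : t ≤ 127) {σ : ℕ} (hσ : σ ≤ τ) : r ≤ T4 t σ := by
  have a : r ≤ t := by have := h.rd; have := h.hd; omega
  have b : τ < t := by have := h.hτ; have := h.hd; omega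
  have hn := h.hn
  refine le_mn a fun l hl => ?_
  cases c : isP l && Nat.ble ((t + 1) % l + l) σ
  · exact a
  · simp only [Bool.and_eq_true, Nat.ble_eq] at c
    have hp := (isP_iff l (by omega)).1 c.1
    have e := Nat.mod_lt (n - (t + 1) % l) hp.pos
    refine (h.tr l ((t + 1) % l + (n - (t + 1) % l) % l) hp (by omega) ?_).2.2 (by omega)
    rw [← Nat.sub_sub]
    exact Nat.dvd_sub_mod _

def vok (t d X r : ℕ) : Bool :=
  Nat.ble ((X - t) * (r * (t + 1 - r + 2) + 2 * (t + 1 - r))) ((X + 1 - d) * (d * (t + 1 - r + 2))) &&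
    (Nat.blt 2 r || Nat.ble ((X + 1 - t - d) * ((t + 1) * (t - d))) ((X + 1 - d) * ((t - 1) * d)))

lemma vok_of (h : Facts t n d τ r ψ g ν) {X : ℕ} (h1 : 2 * t ≤ X) (h2 : X ≤ n) :
    vok t d X r = true := by
  have hd := h.hd
  obtain ⟨e, rfl⟩ := Nat.exists_eq_add_of_le h2
  simp only [vok, Bool.and_eq_true, Bool.or_eq_true, Nat.ble_eq, Nat.blt_eq]
  constructor
  · refine mono_lin (e := e) (by omega) ?_
    rw [show X - t + e = X + e - t by omega, show X + 1 - d + e = X + e + 1 - d by omega]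
    exact h.var.trans (le_of_eq (by ring))
  · rcases h.r2.lt_or_eq with c | c
    · exact Or.inl c
    refine Or.inr (mono_lin (e := e) (by omega) ?_)
    rw [show X + 1 - t - d + e = X + e + 1 - t - d by omega,
      show X + 1 - d + e = X + e + 1 - d by omega]
    obtain ⟨m, γ, Λ, e', w, a, b, hi, -⟩ := h.inc
    obtain ⟨c, u, c1, c2, c3, c4, c5⟩ := hi.two c.symm
    have w0 := hi.wpos 0 (by omega)
    have w1 := hi.wpos 1 (by omega)
    have hn := h.hn
    have p1 : 0 < (t + 1 - d) * (X + e - t - d) * (t + 1) * u * (w 0 + w 1 - u) := by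
      have : 0 < t + 1 - d := by omega
      have : 0 < X + e - t - d := by omega
      have : 0 < u := by omega
      have : 0 < w 0 + w 1 - u := by omega
      positivity
    have p2 : (t + 1) * u ≤ (t - c) * (w 0 + w 1) := by
      by_contra! k
      rw [Nat.sub_eq_zero_of_le k.le] at c5
      omega
    have p3 : 0 < (w 0 + w 1) * (t - c) := Nat.mul_pos (by omega) (by omega)
    refine Nat.le_of_mul_le_mul_left ?_ p3
    calc _ = (t + 1) * ((w 0 + w 1) * ((t - d) * (X + e + 1 - t - d) * (t - c))) := by ring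
      _ = (t + 1) * u * (c * d * (X + e + 1 - d)) := by rw [← c4]; ring
      _ ≤ (t - c) * (w 0 + w 1) * ((t - 1) * d * (X + e + 1 - d)) :=
          Nat.mul_le_mul p2 (Nat.mul_le_mul_right _ (Nat.mul_le_mul_right _ (by omega)))
      _ = _ := by ring

/-- the common shape of the two order bounds -/
def fB (t τ R Y c b : ℕ) : Bool :=
  Nat.ble (t * t) (3 * Y) && Nat.ble b (t - τ) &&
    Nat.blt (R * t ! * (t - τ - 1)! * lcmU (t - τ - 1) * (Y - τ) ^ b)
      (c * (Y - τ).descFactorial (t - τ))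

lemma psi_lt (h : Facts t n d τ r ψ g ν) {Y : ℕ} (h1 : t * t ≤ 3 * Y) (h2 : Y ≤ n) : ψ < t := by
  refine lt_of_le_of_ne h.hψ fun e => ?_
  obtain ⟨e, a, -, -, -, b⟩ := h.modeB e
  have := Nat.mul_le_mul_left n a
  have := h.ht
  omega

lemma fB_sound (h : Facts t n d τ r ψ g ν) {R Y c b b' : ℕ} (hr : r ≤ R) (hY : Y ≤ n)
    (hb : b' ≤ b) (hc : fB t τ R Y c b = true)
    (hf : c * (n - τ).descFactorial (t - τ) ≤
      r * t ! * (t - τ - 1)! * Nat.lcmUpto (t - τ - 1) * (n - τ) ^ b') : False := by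
  simp only [fB, Bool.and_eq_true, Nat.ble_eq, Nat.blt_eq] at hc
  have := fail_mono hc.1.2 (Nat.sub_le_sub_right hY τ) hc.2
  refine absurd (hf.trans_lt' this) (not_lt.2 ?_)
  have hp : 0 < n - τ := by have := h.hn; have := h.hτ; have := h.hd; omega
  have := lcm_le (t - τ - 1)
  gcongr

def b0 (t τ R : ℕ) : ℕ := frc (2 * τ + 2) fun a => frc (τ + 1) fun d =>
  2 + cnt (fun j => Bool.rec false (Bool.rec true false (gi j τ d R)) (Nat.ble a j)) t

def b1 (t τ R : ℕ) : ℕ := frc (τ + 2) fun d => 1 + sup (fun p => bif isP p then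
  cnt (fun i => frc (Nat.add τ (Nat.mul p (Nat.succ i))) fun j =>
    Bool.rec true (Nat.beq j d) (gi j τ d R))
    ((t - τ - 1) / p) else 0) (t - τ)

lemma b0_sound (h : Facts t n d τ r ψ g ν) (ht : t ≤ 127) (hd : d = τ + 1) {R Y : ℕ}
    (hr : r ≤ R) (hY : Y ≤ n) (hc : fB t τ R Y 4 (b0 t τ R) = true) : False := by
  have a : t * t ≤ 3 * Y := by
    simp only [fB, Bool.and_eq_true, Nat.ble_eq] at hc; exact hc.1.1
  refine fB_sound h hr hY ?_ hc (h.b0 (psi_lt h a hY) hd)
  rw [b0, frc_eq, frc_eq, cnt_eq]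
  refine Nat.add_le_add_left (card_le_card fun j hj => ?_) _
  simp only [mem_filter, mem_Ico, mem_range, rec_and, rec_not, Bool.or_false, Bool.and_eq_true,
    Nat.ble_eq, Bool.not_eq_true',
    ← Bool.not_eq_true] at hj ⊢
  exact ⟨hj.1.2, hj.1.1, fun k => hj.2 (hd ▸ gi_sound (by omega) hr k)⟩

lemma b1_sound (h : Facts t n d τ r ψ g ν) (ht : t ≤ 127) (hd : d = τ + 2) {R Y : ℕ}
    (hr : r ≤ R) (hY : Y ≤ n) (hc : fB t τ R Y 2 (b1 t τ R) = true) : False := by
  classical
  have a : t * t ≤ 3 * Y := by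
    simp only [fB, Bool.and_eq_true, Nat.ble_eq] at hc; exact hc.1.1
  obtain ⟨a, a2, hf⟩ := h.b1 (psi_lt h a hY) hd
  refine fB_sound h hr hY ?_ hc hf
  have hp := Nat.minFac_prime (n := a) (by omega)
  have hq := Nat.minFac_dvd a
  generalize a.minFac = p at hp hq
  rw [b1, frc_eq]
  refine Nat.add_le_add_left ?_ _
  by_cases c : p < t - τ
  · refine le_trans ?_ (le_sup' c)
    simp only [(isP_iff p (by omega)).2 hp, cond_true, cnt_eq, frc_eq, rec_not, Nat.add_eq, Nat.mul_eq,
      Nat.succ_eq_add_one]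
    refine card_le_card_of_surjOn (fun i => τ + p * (i + 1)) fun j hj => ?_
    simp only [coe_filter, mem_Ico, Set.mem_ofPred_eq] at hj
    obtain ⟨k, hk⟩ := hq.trans hj.2.1
    rcases k with _ | k
    · omega
    have e : τ + p * (k + 1) = j := by omega
    refine ⟨k, ?_, e⟩
    simp only [coe_filter, mem_range, Set.mem_ofPred_eq, Bool.or_eq_true, Bool.not_eq_true',
      Nat.beq_eq, e]
    refine ⟨(Nat.le_div_iff_mul_le hp.pos).2 (by rw [mul_comm, Nat.succ_eq_add_one]; omega), hj.2.2.imp (fun k => ?_)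
      fun k => by omega⟩
    rw [← Bool.not_eq_true]
    exact fun k' => k (hd ▸ gi_sound (by omega) hr k')
  · rw [card_eq_zero.2 (filter_eq_empty_iff.2 fun j hj k => ?_)]
    · exact Nat.zero_le _
    have := mem_Ico.1 hj
    have := Nat.le_of_dvd (by omega) (hq.trans k.1)
    omega

def fO (t τ R Y : ℕ) : Bool := Nat.blt (R * t ! * Y ^ (τ + 1)) (Y.descFactorial t)

lemma fO_sound (h : Facts t n d τ r ψ g ν) (hd : τ + 3 ≤ d) {R Y : ℕ}
    (hr : r ≤ R) (hY : Y ≤ n) (hc : fO t τ R Y = true) : False := by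
  rw [fO, Nat.blt_eq] at hc
  have a := fail_mono (B := 1) (show τ + 1 ≤ t by have := h.hd; omega) hY (by simpa using hc)
  have b := (h.ordr hd).trans (Nat.mul_le_mul hr (Nat.descFactorial_le_pow _ _))
  rw [one_mul, Nat.descFactorial_eq_factorial_mul_choose] at a
  refine absurd ((Nat.mul_le_mul_left _ b).trans_lt' a) (not_lt.2 (le_of_eq ?_))
  ring

def fI (t σ R Y : ℕ) : Bool :=
  Nat.ble 3 σ && Nat.ble (t * t) (3 * Y) && allB (fun f => Nat.blt (f + 2) σ ||
    (Nat.ble ((t + 1 - f) / 2) (t / 2) &&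
      Nat.blt (R * f ! * (t / 2)! * 2 ^ ((t + 1 - f) / 2) * ((Y + 1 - t) / 2) ^ ((t + 1 - f) / 2))
        (f.choose (t % 2) * ((Y + 1 - t) / 2).descFactorial (t / 2)))) t

lemma fI_sound (h : Facts t n d τ r ψ g ν) {σ R Y : ℕ} (hσ : σ ≤ τ)
    (hr : r ≤ R) (hY : Y ≤ n) (hc : fI t σ R Y = true) : False := by
  simp only [fI, Bool.and_eq_true, Bool.or_eq_true, Nat.ble_eq, Nat.blt_eq, allB_iff] at hc
  obtain ⟨f, M, a1, a2, a3, a4⟩ := h.inv (psi_lt h hc.1.2 hY) (by omega)
  obtain ⟨b1, b2⟩ := (hc.2 f a2).resolve_left (by omega)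
  have a := fail_mono (y := M) b1 (by omega) b2
  rw [Nat.descFactorial_eq_factorial_mul_choose] at a
  have b := Nat.mul_le_mul_left (t / 2)! (a4.trans (Nat.mul_le_mul_right _
    (Nat.mul_le_mul_right _ hr)))
  rw [mul_pow] at b
  refine absurd (a.trans_le ((le_of_eq (by ring)).trans b)) (not_lt.2 (le_of_eq ?_))
  ring

def sel (R X₀ X r : ℕ) : ℕ := bif Nat.ble r R then X else X₀

def one (t τ R X₀ X T : ℕ) : Bool :=
  (frc (mx (vok t (τ + 1) X₀) (min (τ + 1) T)) fun r =>
      Nat.blt r 2 || frc (b0 t τ r) (fB t τ r (sel R X₀ X r) 4)) &&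
    (Nat.ble t (τ + 2) || frc (mx (vok t (τ + 2) X₀) (min (τ + 2) T)) fun r =>
      Nat.blt r 2 || frc (b1 t τ r) (fB t τ r (sel R X₀ X r) 2)) &&
    (Nat.ble t (τ + 3) || fO t τ T (sel R X₀ X T))

def chk' (t σ R X₀ X : ℕ) : Bool :=
  Nat.ble (2 * t) X₀ && fI t σ (T4 t σ) (sel R X₀ X (T4 t σ)) &&
    allB (fun τ => frc (T4 t τ) (one t τ R X₀ X)) σ

def chk (t e σ R : ℕ) (l : List (ℕ × ℕ)) : Bool := 
  frc (2 ^ e) fun X₀ => frc (chain t R l X₀) (chk' t σ R X₀)

theorem chk_sound (h : Facts t n d τ r ψ g ν) (ht : t ≤ 127) {e σ R : ℕ} {l : List (ℕ × ℕ)}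
    (hn : 2 ^ e ≤ n) (hc : chk t e σ R l = true) : False := by
  have hs : ∀ ρ, r ≤ ρ → sel R (2 ^ e) (chain t R l (2 ^ e)) ρ ≤ n := by
    intro ρ hρ
    rw [sel]
    cases c : Nat.ble ρ R
    · exact hn
    · exact chain_sound h ht (hρ.trans (by simpa using c)) l _ hn
  simp only [chk, chk', frc_eq, Bool.and_eq_true, allB_iff, Nat.ble_eq] at hc
  obtain ⟨⟨c1, c2⟩, c3⟩ := hc
  by_cases c : σ ≤ τ
  · exact fI_sound h c (le_T4 h ht c) (hs _ (le_T4 h ht c)) c2
  have c4 := c3 τ (by omega)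
  simp only [one, frc_eq, Bool.and_eq_true, Bool.or_eq_true, Nat.ble_eq, Nat.blt_eq] at c4
  have hT := le_T4 h ht le_rfl
  have hm := le_mx (vok_of h c1 hn) (le_min h.rd hT)
  have r2 := h.r2
  have hd := h.hd
  obtain e | e | e : d = τ + 1 ∨ d = τ + 2 ∨ τ + 3 ≤ d := by have := h.hτ; omega
  · rw [e] at hm
    exact b0_sound h ht e hm (hs _ hm) (c4.1.1.resolve_left (by omega))
  · rw [e] at hm
    exact b1_sound h ht e hm (hs _ hm) ((c4.1.2.resolve_left (by omega)).resolve_left (by omega))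
  · exact fO_sound h e hT (hs _ hT) (c4.2.resolve_left (by omega))

end Pool.Agent.H5Hom.Lad
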