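import Pool.Agent.Lib.MP_078193_al.NLad

/-! The arithmetic theorem for `t ≤ 127` and large degree: the table. -/

namespace Pool.Agent.H5Hom

namespace Lad

def tab : List (ℕ × ℕ × ℕ × List (ℕ × ℕ)) := [
  (13, 4, 2, []),
  (16, 5, 2, []),
  (13, 4, 2, []),
  (13, 5, 2, []),
  (13, 6, 2, []),
  (12, 7, 2, []),
  (14, 6, 2, []),
  (13, 7, 2, []),
  (15, 6, 2, []),
  (14, 9, 2, []),
  (15, 8, 2, []),
  (15, 9, 2, []),
  (16, 8, 2, []),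
  (16, 9, 2, []),
  (18, 8, 2, []),
  (17, 9, 2, []),
  (18, 8, 2, []),
  (17, 11, 2, []),
  (17, 10, 2, []),
  (16, 11, 2, []),
  (17, 10, 2, []),
  (16, 13, 2, []),
  (16, 12, 2, []),
  (16, 13, 2, []),
  (16, 14, 2, []),
  (16, 15, 2, []),
  (17, 14, 2, []),
  (16, 15, 2, []),
  (16, 16, 2, []),
  (16, 17, 2, []),
  (16, 18, 3, []),
  (16, 19, 3, []),
  (16, 18, 3, []),
  (17, 17, 3, []),
  (17, 18, 4, []),
  (17, 19, 3, []),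
  (15, 24, 4, [(1, 21), (1, 22)]),
  (17, 21, 4, []),
  (12, 22, 5, [(2, 19), (1, 20), (1, 21)]),
  (14, 23, 4, [(4, 23), (1, 24)]),
  (14, 24, 4, [(5, 24), (1, 25)]),
  (15, 25, 4, [(4, 24), (1, 25)]),
  (15, 26, 6, [(1, 22)]),
  (15, 27, 6, [(2, 23), (1, 24)]),
  (13, 18, 5, [(6, 24), (2, 27)]),
  (12, 19, 6, [(4, 22), (3, 25), (1, 26), (1, 27)]),
  (12, 18, 6, [(5, 23), (4, 27), (1, 28)]),
  (12, 19, 6, [(5, 23), (3, 26), (1, 27), (1, 28)]),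
  (12, 18, 6, [(6, 24), (4, 28), (1, 29)]),
  (9, 21, 8, [(1, 16), (1, 17), (2, 19), (3, 22), (3, 25), (1, 26), (1, 27)]),
  (10, 22, 9, [(1, 17), (1, 18), (2, 20), (3, 23), (2, 25), (1, 26)]),
  (12, 19, 8, [(5, 23), (4, 27), (2, 29)]),
  (12, 18, 9, [(4, 22), (4, 26), (2, 28), (1, 29)]),
  (13, 22, 6, [(8, 27), (5, 32), (1, 33)]),
  (13, 28, 11, [(1, 20), (1, 22), (1, 23), (1, 24), (1, 25)]),
  (14, 24, 8, [(6, 26), (4, 30), (1, 31)]),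
  (9, 20, 9, [(1, 16), (1, 17), (3, 20), (6, 26), (4, 30)]),
  (9, 21, 10, [(1, 16), (1, 17), (2, 19), (5, 24), (3, 28), (2, 30)]),
  (10, 22, 11, [(1, 17), (1, 18), (2, 20), (4, 25), (3, 28), (1, 29), (1, 30)]),
  (10, 19, 10, [(2, 18), (6, 24), (5, 30), (2, 32), (1, 33)]),
  (10, 18, 11, [(1, 17), (3, 20), (6, 27), (4, 31), (1, 32), (1, 33)]),
  (12, 17, 8, [(10, 28), (6, 34), (3, 37)]),
  (12, 22, 13, [(1, 20), (2, 22), (3, 25), (3, 28), (1, 29), (1, 30)]),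
  (9, 19, 10, [(2, 17), (6, 23), (8, 32), (4, 36)]),
  (9, 18, 11, [(1, 16), (2, 18), (6, 25), (8, 33), (3, 36)]),
  (10, 21, 12, [(1, 18), (1, 19), (4, 23), (6, 29), (4, 33), (1, 34)]),
  (10, 20, 13, [(1, 18), (1, 19), (3, 22), (5, 27), (5, 32), (2, 34)]),
  (13, 23, 14, [(2, 22), (3, 25), (3, 28), (2, 30), (1, 31), (1, 32)]),
  (13, 24, 15, [(1, 21), (2, 23), (3, 26), (3, 29), (2, 31)]),
  (13, 19, 5, [(20, 39)]),
  (9, 18, 11, [(2, 17), (6, 24), (10, 34), (5, 39)]),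
  (9, 17, 12, [(1, 16), (2, 19), (8, 27), (10, 37), (3, 40)]),
  (10, 18, 13, [(2, 19), (6, 25), (10, 35), (4, 39)]),
  (10, 19, 14, [(1, 18), (1, 19), (4, 23), (8, 31), (5, 36), (2, 38)]),
  (10, 20, 15, [(1, 18), (1, 19), (3, 22), (6, 28), (6, 34), (3, 37), (1, 38)]),
  (11, 19, 15, [(1, 19), (4, 23), (8, 31), (6, 37), (2, 39)]),
  (11, 20, 16, [(1, 19), (3, 22), (6, 28), (6, 34), (4, 38), (1, 39)]),
  (9, 19, 12, [(1, 16), (2, 19), (10, 29), (12, 41)]),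
  (9, 20, 13, [(1, 17), (2, 19), (8, 27), (12, 39)]),
  (10, 21, 14, [(2, 19), (8, 27), (12, 39)]),
  (10, 18, 15, [(2, 19), (6, 25), (12, 37), (6, 43)]),
  (9, 19, 12, [(2, 18), (10, 28), (16, 44)]),
  (9, 16, 13, [(1, 17), (4, 21), (16, 37), (10, 47)]),
  (9, 21, 14, [(1, 17), (2, 19), (10, 29), (12, 41)]),
  (9, 18, 13, [(1, 17), (3, 20), (12, 32), (12, 44)]),
  (9, 19, 14, [(1, 17), (2, 19), (12, 31), (12, 43)]),
  (10, 20, 15, [(2, 19), (10, 29), (12, 41)]),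
  (10, 21, 16, [(2, 19), (10, 29), (12, 42)]),
  (10, 20, 18, [(1, 18), (2, 20), (10, 30), (12, 43)]),
  (10, 19, 19, [(1, 18), (1, 19), (6, 25), (12, 38), (8, 46)]),
  (10, 20, 20, [(1, 18), (1, 19), (5, 24), (12, 37), (8, 45)]),
  (9, 17, 14, [(2, 18), (12, 30), (20, 50)]),
  (9, 16, 13, [(2, 18), (12, 30), (20, 50)]),
  (9, 17, 13, [(2, 18), (16, 34), (20, 54)]),
  (9, 16, 16, [(1, 17), (3, 20), (16, 36), (16, 53)]),
  (9, 17, 15, [(1, 17), (3, 20), (16, 36), (16, 53)]),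
  (9, 16, 16, [(1, 17), (3, 20), (16, 36), (16, 53)]),
  (9, 17, 15, [(1, 17), (3, 20), (16, 36), (16, 53)]),
  (9, 24, 15, [(1, 17), (3, 20), (20, 40)]),
  (9, 19, 16, [(1, 17), (3, 20), (16, 36), (16, 53)]),
  (10, 18, 17, [(3, 20), (16, 37), (16, 53)]),
  (10, 19, 17, [(2, 19), (12, 31), (20, 52)]),
  (10, 18, 18, [(2, 19), (12, 32), (20, 52)]),
  (9, 19, 13, [(2, 18), (16, 34), (20, 54)]),
  (9, 18, 13, [(2, 18), (16, 34), (20, 54)]),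
  (9, 19, 14, [(2, 18), (16, 34), (20, 55)]),
  (9, 24, 15, [(1, 17), (6, 23), (20, 43)]),
  (10, 19, 17, [(3, 20), (16, 37), (20, 57)]),
  (10, 18, 17, [(3, 20), (16, 37), (20, 57)]),
  (10, 21, 18, [(2, 19), (12, 32), (20, 52)]),
  (9, 18, 14, [(2, 18), (16, 34), (20, 55)]),
  (9, 19, 15, [(2, 18), (16, 34), (20, 55)]),
  (9, 26, 16, [(1, 17), (6, 23), (20, 44)]),
  (9, 29, 17, [(1, 17), (3, 20), (20, 41)]),
  (9, 18, 15, [(2, 18), (20, 38), (20, 59)]),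
  (9, 19, 15, [(2, 18), (20, 38), (20, 59)]),
  (9, 18, 15, [(2, 18), (20, 38), (20, 59)]),
  (9, 19, 15, [(2, 18), (20, 38), (20, 59)]),
  (9, 18, 16, [(2, 18), (20, 38), (20, 59)]),
  (9, 27, 17, [(1, 17), (8, 25), (20, 46)]),
  (9, 28, 18, [(1, 17), (6, 23), (20, 44)]),
  (10, 21, 22, [(2, 19), (16, 36), (20, 56)])]

def row (t : ℕ) : ℕ × ℕ × ℕ × List (ℕ × ℕ) := tab.getD (t - 6) (0, 0, 0, [])

lemma all_ok : allB (fun i => chk (i + 6) (row (i + 6)).1 (row (i + 6)).2.1 (row (i + 6)).2.2.1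
    (row (i + 6)).2.2.2) 122 = true := by decide +kernel

end Lad

theorem ladder {t n d τ r ψ g : ℕ} {ν : ℕ → ℕ} (h : Facts t n d τ r ψ g ν) (ht : t ≤ 127)
    (hn : 2 ^ (Lad.row t).1 ≤ n) : False := by
  have h6 := h.ht
  have := (Lad.allB_iff _ _).1 Lad.all_ok (t - 6) (by omega)
  rw [show t - 6 + 6 = t by omega] at this
  exact Lad.chk_sound h ht hn this

end Pool.Agent.H5Hom
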