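import Pool.Agent.Lib.MP_078193_al.NBlue2

/-! Soundness of the list of admissible stabiliser orders. -/

open Finset
open scoped Nat

namespace Pool.Agent.H5Hom.Num

namespace Lam

theorem mem_rec (c : ℕ → Bool) (l : List ℕ) (x : ℕ) (hx : x ∈ l) (hc : c x = true) :
    x ∈ (List.rec [] (fun L _ acc => cond (c L) (L :: acc) acc) l : List ℕ) := by
  induction l with
  | nil => exact absurd hx (by simp)
  | cons y l ih =>
    show x ∈ cond (c y) (y :: _) _
    rcases List.mem_cons.1 hx with rfl | h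
    · rw [hc]
      exact List.mem_cons_self
    · cases c y
      · exact ih h
      · exact List.mem_cons_of_mem _ (ih h)

set_option maxRecDepth 100000 in
theorem mem_D7 (x : ℕ) (h : x ∣ 5040) : x ∈ D7 := by
  have : allR 0 5041 (fun x => !(dv x 5040) || anyL D7 (Nat.beq x)) = true := by decide +kernel
  have h1 := (allR_iff _ _ _).1 this x (by omega) (by have := Nat.le_of_dvd (by omega) h; omega)
  rw [(dv_iff _ _).2 h, Bool.not_true, Bool.false_or, anyL_iff] at h1
  obtain ⟨y, h2, h3⟩ := h1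
  rwa [Nat.beq_eq.mp h3]

theorem syl1_false {t n d τ r ψ g : ℕ} {ν : ℕ → ℕ} (hF : Facts t n d τ r ψ g ν) (h3 : 3 ≤ d)
    {p j : ℕ} (hj : j < t) (hp : p ∣ n - j) : syl1 t n d g p j = false := by
  rw [← Bool.not_eq_true]
  intro h
  simp only [syl1, sylbad, Bool.and_eq_true, Bool.not_eq_true', Nat.blt_eq, frc_eq, dv_iff,
    dv_false, allR_iff, mn_eq, r_add, r_mul] at h
  obtain ⟨⟨h1, h2⟩, ⟨h4, h5⟩, h6⟩ := h
  have hpr := prB_prime h2
  obtain ⟨k, k1, k2, k3, k4⟩ := hF.syl p j hpr h1 hj hp h4 fun h' =>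
    h5 ((Nat.dvd_div_iff_mul_dvd h4).2 h')
  have hn := hF.hn
  have hq : 0 < (n - j) / p := Nat.div_pos (Nat.le_of_dvd (by omega) hp) hpr.pos
  have hk : k ≤ (p - 1) * ((n - j) / p) :=
    Nat.le_of_dvd (Nat.mul_pos (by have := hpr.two_le; omega) hq) k2
  have hk2 : k / p < (n - j) / p := by
    refine Nat.div_lt_of_lt_mul (hk.trans_lt ?_)
    exact Nat.mul_lt_mul_of_pos_right (by have := hpr.pos; omega) hq
  have e := h6 (k / p) (Nat.zero_le _) (by omega)
  rw [show g / p % p + k / p * p = k by rw [k4, Nat.mod_add_div'], ← Bool.not_eq_true] at e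
  refine e ?_
  simp only [Bool.and_eq_true, dv_iff]
  refine ⟨Nat.dvd_gcd k1 k2, ?_⟩
  refine foldR_ind (fun _ x => x ∣ k) 0 _ _ 1 (one_dvd k) fun i x _ hi hx => Nat.lcm_dvd ?_ hx
  rw [ch_eq]
  exact k3 i (by omega) (by omega)

end Lam

theorem lam_of (h1 : St_d3) : St_lam := by
  intro t n d τ r ψ g ν hF γ W Λ e hC hg hΛ he
  have h3 := h1 _ _ _ _ _ _ _ _ hF
  unfold lams
  rw [cond_ble]
  split_ifs with ht
  swap
  · exact ⟨0, by simp, dvd_zero _⟩
  have h6 := hF.ht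
  have hn := hF.hn
  have hψ : ψ < t := lt_of_le_of_ne hF.hψ fun h => by
    obtain ⟨e, a1, -, -, a2, -⟩ := hF.modeB h
    omega
  rw [he hψ, mul_one] at hΛ
  have hW : 0 < W := Nat.pos_of_ne_zero fun h => by
    have := Nat.choose_pos (show t ≤ n by omega)
    rw [hC, h] at this
    simp at this
  refine ⟨Λ, Lam.mem_rec (fun L => dv L (fac t) && frc (ch n t / W * L) fun g =>
      dv (ch n (d - 1)) g && !(sylA t n d g) &&
        !(Nat.beq t 6 && Nat.beq n 13 && (dv 5 g || Nat.beq g 1716))) _ _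
    (Lam.mem_D7 _ (hΛ.trans (Nat.factorial_dvd_factorial ht))) ?_, dvd_rfl⟩
  have hs : sylA t n d g = false := by
    rw [← Bool.not_eq_true]
    intro h
    simp only [sylA, anyR_iff, frc_eq, Bool.or_eq_true] at h
    obtain ⟨j, -, hj, h⟩ := h
    have a1 : rough t (n - j) ∣ n - j := Nat.div_dvd_of_dvd (Nat.gcd_dvd_left _ _)
    have a2 := Nat.gcd_dvd_left (rough t (n - j)) Q
    rw [Lam.syl1_false hF h3 (by omega) a1, Lam.syl1_false hF h3 (by omega) (a2.trans a1),
      Lam.syl1_false hF h3 (by omega) ((Nat.div_dvd_of_dvd a2).trans a1)] at h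
    simp at h
  simp only [frc_eq, ch_eq, fac_eq, hC, Nat.mul_div_cancel _ hW, ← hg, hs, Bool.and_eq_true,
    dv_iff, Bool.not_eq_true', Bool.not_false, and_true]
  refine ⟨hΛ, hF.hom, ?_⟩
  rw [← Bool.not_eq_true]
  simp only [Bool.and_eq_true, Bool.or_eq_true, Nat.beq_eq, dv_iff]
  rintro ⟨⟨a1, a2⟩, a3⟩
  have := hF.s13 a1 a2 h3
  tauto

end Pool.Agent.H5Hom.Num
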