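import Pool.Agent.Lib.MP_078193_al.NBlue2

/-! The bit masks `mult`, `bigR` and `R1`. -/

namespace Pool.Agent.H5Hom.Num

namespace Mask

/-- `1 + 2 ^ D + ... + 2 ^ (D (k - 1))` -/
def geo (D : ℕ) : ℕ → ℕ
  | 0 => 0
  | k + 1 => 2 ^ D * geo D k + 1

theorem geo_mul (D k : ℕ) : (2 ^ D - 1) * geo D k + 1 = 2 ^ (D * k) := by
  induction k with
  | zero => simp [geo]
  | succ k ih =>
    obtain ⟨e, he⟩ : ∃ e, 2 ^ D = e + 1 := ⟨2 ^ D - 1, by have := Nat.one_le_two_pow (n := D); omega⟩
    rw [geo, Nat.mul_succ D k, pow_add, ← ih, he, Nat.add_sub_cancel]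
    ring

theorem geo_eq {D : ℕ} (hD : 1 ≤ D) (k : ℕ) : (2 ^ (D * k) - 1) / (2 ^ D - 1) = geo D k := by
  have h : 1 < 2 ^ D := Nat.one_lt_two_pow (by omega)
  rw [← geo_mul, Nat.add_sub_cancel, Nat.mul_div_cancel_left _ (by omega)]

theorem geo_bit {D : ℕ} (hD : 1 ≤ D) (k x : ℕ) :
    (geo D k).testBit x = true ↔ D ∣ x ∧ x < D * k := by
  induction k generalizing x with
  | zero => simp [geo]
  | succ k ih =>
    have h : 1 < 2 ^ D := Nat.one_lt_two_pow (by omega)
    rw [geo, Nat.testBit_two_pow_mul_add _ h]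
    split_ifs with hx
    · rw [Nat.testBit_one_eq_true_iff_self_eq_zero]
      constructor
      · rintro rfl
        exact ⟨dvd_zero _, Nat.mul_pos (by omega) (by omega)⟩
      · exact fun h => Nat.eq_zero_of_dvd_of_lt h.1 hx
    · rw [ih, Nat.mul_succ]
      obtain ⟨y, rfl⟩ : ∃ y, x = y + D := ⟨x - D, by omega⟩
      rw [Nat.add_sub_cancel, Nat.dvd_add_self_right]
      exact ⟨fun h => ⟨h.1, by omega⟩, fun h => ⟨h.1, by omega⟩⟩

theorem two_folds (P : ℕ → Prop) (a k a' k' : ℕ) (f : ℕ → ℕ → ℕ → ℕ) (h0 : P 0)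
    (hs : ∀ b i acc, a ≤ b → b < a + k → i < a' + k' → P acc → P (f b i acc)) :
    P (foldR a k (fun b acc => foldR a' k' (fun i acc => f b i acc) acc) 0) :=
  foldR_ind (fun _ x => P x) a k _ 0 h0 fun b acc h1 h2 h3 =>
    foldR_ind (fun _ x => P x) a' k' _ acc h3 fun i x _ h5 h6 => hs b i x h1 h2 h5 h6

end Mask

open Mask

theorem mult_of : St_mult := by
  intro N D x hD hx
  unfold mult
  rw [cond_blt]
  split_ifs with h
  · rw [Nat.testBit_one_eq_true_iff_self_eq_zero]
    constructor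
    · rintro rfl
      exact dvd_zero _
    · exact fun h' => Nat.eq_zero_of_dvd_of_lt h' (by omega)
  · rw [geo_eq hD, geo_bit hD]
    refine ⟨fun h => h.1, fun h' => ⟨h', ?_⟩⟩
    have := Nat.lt_mul_div_succ N (show 0 < D by omega)
    omega

theorem bigR_of (h : St_mult) : St_bigR := by
  refine two_folds RBok 1 511 0 256 (fun b i acc => frc (512 * b + 2 * i + 1) fun p =>
    cond (Nat.beq (Nat.gcd p Q) 1) (Nat.lor (mult 262144 p) acc) acc) ?_ ?_
  · intro x _ hx
    simp at hx
  · intro b i acc h1 h2 h3 h4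
    rw [frc_eq, cond_beq]
    split_ifs with hg
    · intro x hx hb
      rw [r_lor, Nat.testBit_or, Bool.or_eq_true] at hb
      rcases hb with hb | hb
      · exact ⟨_, prime_of_gcd_Q (by omega) (by omega) hg, by omega,
          (h _ _ x (by omega) hx).1 hb⟩
      · exact h4 x hx hb
    · exact h4

theorem R1_of (h : St_mult) : St_R1 := by
  intro RB t N x hR ht hN hx0 hx
  refine foldR_ind (fun _ m => m.testBit x = true →
    ∃ p : ℕ, p.Prime ∧ t < p ∧ p ∣ x ∧ ¬ p * p ∣ x) (t + 1) (511 - t) _ _ ?_ ?_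
  · intro hb
    rw [Nat.testBit_mod_two_pow, Bool.and_eq_true] at hb
    obtain ⟨p, hp, h1, h2⟩ := hR x (by omega) hb.2
    refine ⟨p, hp, by omega, h2, fun h3 => ?_⟩
    have h4 := Nat.le_of_dvd hx0 h3
    have h5 : 513 * 513 ≤ p * p := Nat.mul_le_mul h1 h1
    omega
  · intro p m h1 _ ih
    cases hp : isP p
    · exact ih
    · intro hb
      have hpp := isP_prime hp
      rw [cond_true, r_lor, Nat.testBit_or, Bool.or_eq_true, r_xor, Nat.testBit_xor] at hb
      rcases hb with hb | hb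
      · have a1 := h N p x hpp.one_le hx.le
        have a2 := h N (p * p) x (Nat.mul_pos hpp.pos hpp.pos) hx.le
        refine ⟨p, hpp, by omega, ?_, fun h3 => ?_⟩
        · by_contra h3
          have b1 : (mult N p).testBit x = false := by
            rw [← Bool.not_eq_true, a1]; exact h3
          have b2 : (mult N (p * p)).testBit x = false := by
            rw [← Bool.not_eq_true, a2]; exact fun h4 => h3 ((Dvd.intro _ rfl).trans h4)
          rw [b1, b2] at hb
          exact absurd hb (by decide)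
        · rw [a1.2 ((Dvd.intro _ rfl).trans h3), a2.2 h3] at hb
          exact absurd hb (by decide)
      · exact ih hb

end Pool.Agent.H5Hom.Num
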