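import Mathlib

/-! Boolean checkers for the arithmetic theorem in the range `6 ≤ t ≤ 127`. -/

namespace Pool.Agent.H5Hom.Num

/-- all `i` in `[lo, lo + k)` -/
def allR (lo k : ℕ) (f : ℕ → Bool) : Bool := Nat.rec true (fun i acc => f (Nat.add lo i) && acc) k
/-- some `i` in `[lo, lo + k)` -/
def anyR (lo k : ℕ) (f : ℕ → Bool) : Bool := Nat.rec false (fun i acc => f (Nat.add lo i) || acc) k
/-- fold over `[lo, lo + k)` -/
def foldR (lo k : ℕ) (f : ℕ → ℕ → ℕ) (a : ℕ) : ℕ := Nat.rec a (fun i acc => f (Nat.add lo i) acc) k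
/-- number of `i` in `[lo, lo + k)` -/
def cntR (lo k : ℕ) (f : ℕ → Bool) : ℕ :=
  Nat.rec 0 (fun i acc => cond (f (Nat.add lo i)) (Nat.succ acc) acc) k
def allL {α : Type} (l : List α) (f : α → Bool) : Bool := List.rec true (fun x _ acc => f x && acc) l
def anyL {α : Type} (l : List α) (f : α → Bool) : Bool := List.rec false (fun x _ acc => f x || acc) l
/-- the `x` in `[lo, lo + k)` with `f x` -/
def filt (lo k : ℕ) (f : ℕ → Bool) : List ℕ :=
  Nat.rec [] (fun i acc => cond (f (Nat.add lo i)) (Nat.add lo i :: acc) acc) k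
/-- `k n`, evaluating `n` first -/
def frc {α : Type} (n : ℕ) (k : ℕ → α) : α := Nat.rec (k 0) (fun m _ => k (Nat.succ m)) n
/-- `n = 0` or `k n` -/
def nz (n : ℕ) (k : ℕ → Bool) : Bool := Nat.rec true (fun m _ => k (Nat.succ m)) n
/-- `k l`, evaluating `l` first -/
def frcL (l : List ℕ) : (List ℕ → Bool) → Bool :=
  List.rec (fun k => k []) (fun x _ ih k => frc x fun y => ih fun ys => k (y :: ys)) l
/-- `a ∣ b` -/
def dv (a b : ℕ) : Bool := Nat.beq (Nat.mod b a) 0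
def fac (k : ℕ) : ℕ := Nat.rec 1 (fun i acc => Nat.mul (Nat.succ i) acc) k
def df (x k : ℕ) : ℕ := Nat.rec 1 (fun i acc => Nat.mul (Nat.sub x i) acc) k
def ch (x k : ℕ) : ℕ := Nat.div (df x k) (fac k)
def lcmU (k : ℕ) : ℕ := Nat.rec 1 (fun i acc => Nat.lcm (Nat.succ i) acc) k
def mx (a b : ℕ) : ℕ := cond (Nat.ble a b) b a
def mn (a b : ℕ) : ℕ := cond (Nat.ble a b) a b

/-- primes below 512 as a bit mask -/
def PM : ℕ := 0x208808808008a20208828028020220208820808228020800228800200a20a08208028228800800a28028208820a00a08800228a20208828828208a20a08a28ac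
/-- the prime counting function below 128 in base 256 -/
def PT : ℕ := 0x1f1e1e1e1e1e1e1e1e1e1e1e1e1e1e1d1d1d1d1c1c1b1b1b1b1a1a1919191918181818181818181717171717171616161615151515151514141313131312121212121211111010101010100f0f0f0f0f0f0e0e0e0e0d0d0c0c0c0c0b0b0b0b0b0b0a0a0909090909090808080807070606060605050404040403030202010000
/-- the product of the primes below 512 -/
def Q : ℕ := 0x613a0497aa700632594668d2175f6874157ab081f7d649a3e936c6608f20575cb03949974ef1fb62db814d5fdf2c0d0e2d0abb2b26e8cc08403e32336e4bf96f1ffa1b71d1f4c342dc3812e17d7035b9e93905bff2c1a6de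
def isP (p : ℕ) : Bool := Nat.beq (Nat.mod (Nat.shiftRight PM p) 2) 1
def piS (x : ℕ) : ℕ := Nat.mod (Nat.shiftRight PT (Nat.mul 8 x)) 256
def prB (p : ℕ) : Bool :=
  cond (Nat.blt p 512) (isP p) (Nat.blt p 262144 && Nat.beq (Nat.gcd p Q) 1)

def gi (j τ d r : ℕ) : Bool :=
  Nat.ble 3 d && Nat.ble 5 j &&
    (Nat.blt (piS (j - mx τ (mn (d - 1) (j / 2)))) (piS (j - 3)) ||
      Nat.ble (r + piS (j - j / 2)) (piS (j - 3)))
def Dj (j τ d r : ℕ) : ℕ :=
  frc (cond (Nat.ble j τ) (j - 2) (cond (gi j τ d r) (j - 3) (τ - 1))) fun k =>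
    df j (mn (cond (Nat.ble 4 j) (mx k 1) k) 8)
def T4 (t τ : ℕ) : ℕ :=
  foldR 2 (τ - 1) (fun l acc => cond (isP l && Nat.ble ((t + 1) % l + l) τ)
    (mn ((t + 1) / l + (t + 1) % l) acc) acc) t
def vok (t d n r : ℕ) : Bool :=
  Nat.ble ((n - t) * (r * (t + 1 - r + 2) + 2 * (t + 1 - r))) (d * (n + 1 - d) * (t + 1 - r + 2))
def r2ok (t d n : ℕ) : Bool :=
  Nat.blt ((t + 1) * (n - t) * ((t + 1) * (t - d) * (n + 1 - (t + d)) + d * (n + 1 - d)))
    (t * d * d * (n + 1 - d) ^ 2)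
def vr (t d n r : ℕ) : Bool := vok t d n r && (!(Nat.beq r 2) || r2ok t d n)
def modeB (t n : ℕ) : Bool :=
  Nat.ble (n * 3 + t) (t * t) && anyR 3 (t / 3) fun e => dv e (n - t) && Nat.beq (e % 2) 1 &&
    Nat.ble (3 * e + 1) t && Nat.ble (n * e + t) (t * t)
def t4bad (t p j r : ℕ) : Bool :=
  Nat.ble ((t + 1) % p) j && Nat.blt ((t + 1) / p + (t + 1) % p) r

/-! ### the final stage: explicit orbit weights -/

/-- the list `[w (r-1), …, w 0]` -/
def wl (r : ℕ) (w : ℕ → ℕ) : List ℕ := Nat.rec [] (fun i acc => w i :: acc) r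
def sumL (l : List ℕ) (f : ℕ → ℕ) : ℕ := List.rec 0 (fun x _ acc => Nat.add (f x) acc) l
def prodL (l : List ℕ) : ℕ := List.rec 1 (fun x _ acc => Nat.mul x acc) l
def gcdL (l : List ℕ) : ℕ := List.rec 0 (fun x _ acc => Nat.gcd x acc) l
def mapL (l : List ℕ) (f : ℕ → ℕ) : List ℕ := List.rec [] (fun x _ acc => f x :: acc) l
/-- entrywise `≤` -/
def leL (v : List ℕ) : List ℕ → Bool :=
  List.rec (fun _ => true) (fun x _ ih u => List.casesOn u true fun y ys => Nat.ble x y && ih ys) v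
/-- entrywise `u - v` -/
def subL (u : List ℕ) : List ℕ → List ℕ :=
  List.rec (fun _ => []) (fun y _ ih v => List.casesOn v [] fun x xs => Nat.sub y x :: ih xs) u
def eqL (v : List ℕ) : List ℕ → Bool :=
  List.rec (fun u => List.casesOn u true fun _ _ => false)
    (fun x _ ih u => List.casesOn u false fun y ys => Nat.beq x y && ih ys) v
/-- fold over the vectors `(a j * (P / w j))` with `a` positive of sum `s`
(the vector is accumulated in reverse order in `z`) -/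
def comps (P : ℕ) (f : List ℕ → List (List ℕ) → List (List ℕ)) (w : List ℕ) :
    ℕ → List ℕ → List (List ℕ) → List (List ℕ) :=
  List.rec (fun s z out => cond (Nat.beq s 0) (f z out) out)
    (fun x _ ih s z out =>
      Nat.rec out (fun i acc => ih (s - Nat.succ i) (Nat.succ i * (P / x) :: z) acc) s) w
def addP (M : ℕ) (z : List ℕ) (out : List (List ℕ)) : List (List ℕ) :=
  frc (gcdL z) fun G =>
    cond (allL z (fun x => Nat.ble (x / G) M) && !(anyL out (eqL (mapL z fun x => x / G))))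
      (mapL z (fun x => x / G) :: out) out
def prims (t M : ℕ) (w : List ℕ) : List (List ℕ) :=
  frc (prodL w) fun P => comps P (addP M) w (t + 1) [] []
def frcLL (l : List (List ℕ)) : (List (List ℕ) → Bool) → Bool :=
  List.rec (fun k => k []) (fun x _ ih k => frcL x fun y => ih fun ys => k (y :: ys)) l
/-- `rem` is a sum of vectors from `vs` (entries below 64) -/
def go (vs : List (List ℕ)) : List ℕ → Bool :=
  List.rec (fun rem => allL rem fun x => Nat.beq x 0)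
    (fun v _ ih => Nat.rec (fun _ => true)
      (fun _ rest rem => ih rem || (leL v rem && frcL (subL rem v) rest)) 64) vs
def kbad (t M : ℕ) (w : List ℕ) : Bool :=
  Nat.ble M 60 && !(frcLL (prims t M w) fun vs => go vs (mapL w fun _ => M))
def defbad (t M : ℕ) (w : List ℕ) : Bool :=
  anyR 2 (t - 1) fun p => isP p &&
    (Nat.blt (t + 1) (sumL w fun x => frc (Nat.gcd x (p ^ 40)) fun u => u / Nat.gcd u M) ||
      allL w fun x => dv p x)
def vform (t n d w1 w2 w3 x1 x2 x3 y1 y2 y3 : ℤ) : ℤ :=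
  (t - 2) * ((t + 1 - d) * (n - t - d)) * (t + 1) * (w1 * x1 * y1 + w2 * x2 * y2 + w3 * x3 * y3)
    - (n - t) * (((t + 1) * w1 - (w1 + w2 + w3)) * (x1 + x2 + x3 + (t - 2) * x1)
          * (y1 + y2 + y3 + (t - 2) * y1)
        + ((t + 1) * w2 - (w1 + w2 + w3)) * (x1 + x2 + x3 + (t - 2) * x2)
          * (y1 + y2 + y3 + (t - 2) * y2)
        + ((t + 1) * w3 - (w1 + w2 + w3)) * (x1 + x2 + x3 + (t - 2) * x3)
          * (y1 + y2 + y3 + (t - 2) * y3))
def vpd3 (t n d w1 w2 w3 : ℤ) : Bool :=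
  decide (0 < vform t n d w1 w2 w3 w3 0 (-w1) w3 0 (-w1)) &&
    decide (vform t n d w1 w2 w3 w3 0 (-w1) 0 w3 (-w2) ^ 2
      < vform t n d w1 w2 w3 w3 0 (-w1) w3 0 (-w1) * vform t n d w1 w2 w3 0 w3 (-w2) 0 w3 (-w2))
def vpd (t n d : ℕ) : List ℕ → Bool
  | [a, b, c] => vpd3 t n d a b c
  | _ => false
/-- the part of `x` made of primes above `t + 1` (for `x < 2 ^ 18`) -/
def rough (t x : ℕ) : ℕ := x / Nat.gcd x (fac (t + 1) ^ 18)
def sylbad (n d g p j : ℕ) : Bool :=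
  dv p g && !(dv p (g / p)) &&
    frc ((n - j) / p) fun q =>
    frc (foldR 0 (mn j (d - 1) + 1) (fun i acc => Nat.lcm (ch j i) acc) 1) fun nd =>
    frc (Nat.gcd (g / p) ((p - 1) * q)) fun B => frc ((g / p) % p) fun k0 =>
      allR 0 q fun i => frc (Nat.add k0 (Nat.mul i p)) fun k => !(dv k B && dv nd k)
def syl1 (t n d g p j : ℕ) : Bool := Nat.blt t p && prB p && sylbad n d g p j
def sylA (t n d g : ℕ) : Bool :=
  anyR 0 t fun j => frc (rough t (n - j)) fun ro => frc (Nat.gcd ro Q) fun a =>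
    syl1 t n d g ro j || syl1 t n d g a j || syl1 t n d g (ro / a) j
/-- the divisors of `7!` -/
def D7 : List ℕ := [1, 2, 3, 4, 5, 6, 7, 8, 9, 10, 12, 14, 15, 16, 18, 20, 21, 24, 28, 30, 35, 36, 40, 42, 45, 48, 56, 60, 63, 70, 72, 80, 84, 90, 105, 112, 120, 126, 140, 144, 168, 180, 210, 240, 252, 280, 315, 336, 360, 420, 504, 560, 630, 720, 840, 1008, 1260, 1680, 2520, 5040]
def lams (t n d W : ℕ) : List ℕ :=
  cond (Nat.ble t 7)
    (List.rec [] (fun L _ acc => cond (dv L (fac t) && frc (ch n t / W * L) fun g =>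
      dv (ch n (d - 1)) g && !(sylA t n d g) &&
        !(Nat.beq t 6 && Nat.beq n 13 && (dv 5 g || Nat.beq g 1716))) (L :: acc) acc) D7) [0]
def fin (t n d : ℕ) (lm w : List ℕ) : Bool :=
  defbad t (n - t) w || !(anyL lm fun L => allL w fun x => dv x L) || vpd t n d w ||
    kbad t (n - t) w || (Nat.beq t 7 && Nat.beq n 15 && Nat.beq d 5 && Nat.beq w.length 2)
/-- all nondecreasing ways to write `rem` with `k + 1` parts `≥ lo` from `dl` dividing `Dm` -/
def enum (Dm : ℕ) (dl : List ℕ) (f : List ℕ → Bool) (k : ℕ) : ℕ → ℕ → List ℕ → Bool :=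
  Nat.rec (fun _ rem acc => !(dv rem Dm) || f (rem :: acc))
    (fun i rest lo rem acc => allL dl fun x => Nat.blt x lo || Nat.blt rem (Nat.mul x (Nat.add i 2)) ||
      frc (Nat.sub rem x) fun rem' => rest x rem' (x :: acc)) k
def ms2 (p t r : ℕ) : ℕ :=
  foldR 1 t (fun x acc => cond (Nat.ble (x * (p - 1)) (t + 1 - r) &&
    Nat.ble (p ^ x * (r - 1) ^ (r - 1)) (t ^ (r - 1))) x acc) 0
def MS (t r : ℕ) : ℕ := foldR 2 (t - 1) (fun p acc => cond (isP p) (p ^ ms2 p t r * acc) acc) 1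
def Dm (t n φ : ℕ) : ℕ := Nat.gcd (fac t * cond (Nat.ble t φ) (n - t) 1) (lcmU t * (n - t))
def stW (t n d r φ W : ℕ) : Bool :=
  !(dv W (ch n t)) || frcL (lams t n d W) fun lm => lm.isEmpty || frc (Dm t n φ) fun D =>
    frc ((W + t) / (t + 1)) fun lo => frcL (filt lo (W / 2 + 1 - lo) fun x => dv x D) fun dl =>
      enum D dl (fin t n d lm) (r - 1) 0 W []
def stF (t n d r φ Wf : ℕ) : Bool :=
  frc ((t + 1) ^ r * MS t r * Nat.gcd (n - t) (fac (t + 1) ^ 18) ^ (r - 1)) fun b1 =>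
  frc ((t + 1) * (n - t) ^ (r - 1) / (r - 1) ^ (r - 1)) fun b2 =>
    Nat.rec (fun _ => false) (fun _ rest i => Nat.blt b2 (Nat.mul Wf i) ||
      Nat.blt b1 (Nat.mul Wf i ^ r) ||
      ((allR i 32 fun i => frc (Nat.mul Wf i) fun W => Nat.blt b2 W || Nat.blt b1 (W ^ r) ||
        stW t n d r φ W) && frc (Nat.add i 32) rest)) 300 1
def stF2 (t n d φ Wf : ℕ) : Bool :=
  allR 1 (t - 1) fun c =>
    frc ((t - d) * (n + 1 - t - d) * (t - c)) fun num => frc (c * d * (n + 1 - d)) fun den =>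
    frc (num / Nat.gcd num den) fun u => frc (den / Nat.gcd num den) fun W =>
      !(Nat.blt u W && dv Wf W && dv W (ch n t) &&
        Nat.ble ((t + 1 - d) * (n - t - d) * (t + 1) * u * (W - u))
          (((t - c) * W - (t + 1) * u) * ((t + 1) * u - W) * (n - t)) &&
        dv u (Dm t n φ) && dv (W - u) (Dm t n φ)) ||
      frcL (lams t n d W) fun lm => fin t n d lm [mx u (W - u), mn u (W - u)]

/-! ### one value of `n` -/

def badS (t n τ r φ j : ℕ) : Bool :=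
  frc (n - j) fun x => anyR 2 t fun p => dv p x && isP p && (Nat.blt (j + 1) p || Nat.blt j τ) &&
    (Nat.blt φ j || t4bad t p j r)
def badB (t n τ d r φ j : ℕ) : Bool :=
  frc (n - j) fun x => frc (rough t x) fun ro => Nat.blt 1 ro &&
    (Nat.blt φ j || Nat.blt (r * (x - 1)) (ch j (j / 2)) ||
      Nat.blt (x - 1) (ch j (mn (d - 1) (j / 2))) ||
      (!(dv (Dj j τ d r) x) && frc (Nat.gcd ro Q) fun a => Nat.beq (Nat.gcd (x / a) a) 1))
def bad (t n τ d r φ j : ℕ) : Bool := badB t n τ d r φ j || badS t n τ r φ j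
def wf1 (t n τ d r φ : ℕ) : ℕ :=
  foldR (d - 1) (t + 1 - d)
    (fun j acc => cond (badB t n τ d r φ j) (Nat.lcm (rough t (n - j)) acc) acc) 1
def wf2 (t n τ d r φ : ℕ) : ℕ :=
  foldR 2 t (fun p acc => cond (isP p && t4bad t p (n % p) r)
    (Nat.lcm (Nat.gcd (ch n t) (p ^ 18)) acc) acc) (wf1 t n τ d r φ)
def stP (t n τ d r φ : ℕ) : Bool :=
  anyR 0 (d - 1) (bad t n τ d r φ) || Nat.blt r (cntR d (t - d) (bad t n τ d r φ) + 2) ||
    frc (wf2 t n τ d r φ) fun Wf => cond (Nat.beq r 2) (stF2 t n d φ Wf) (stF t n d r φ Wf)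

/-! ### all `n` below a bound, by bit masks -/

/-- the multiples of `D` up to `N` -/
def mult (N D : ℕ) : ℕ :=
  cond (Nat.blt N D) 1 ((2 ^ (D * (N / D + 1)) - 1) / (2 ^ D - 1))
/-- numbers up to `2 ^ 18` with a prime factor above 512 -/
def bigR : ℕ :=
  foldR 1 511 (fun b acc => foldR 0 256 (fun i acc => frc (512 * b + 2 * i + 1) fun p =>
    cond (Nat.beq (Nat.gcd p Q) 1) (Nat.lor (mult 262144 p) acc) acc) acc) 0
def R1 (RB t N : ℕ) : ℕ :=
  foldR (t + 1) (511 - t) (fun p acc => cond (isP p)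
    (Nat.lor (Nat.xor (mult N p) (mult N (p * p))) acc) acc) (RB % 2 ^ N)
/-- `f (off + i)` for all bits `i < 2 ^ dep` of the mask -/
def scan (f : ℕ → Bool) (dep : ℕ) : ℕ → ℕ → Bool :=
  Nat.rec (fun off m => Nat.beq m 0 || f off)
    (fun e rest off m => nz m fun m => frc (Nat.pow 2 e) fun h =>
      rest off (Nat.mod m (Nat.pow 2 h)) && frc (Nat.add off h) fun off' =>
        rest off' (Nat.shiftRight m h)) dep
/-- first term of a geometric sequence from `X` that passes the test, or `X0` -/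
def hiW (f : ℕ → Bool) (X0 : ℕ) : ℕ → ℕ :=
  Nat.rec (fun _ => X0) (fun _ rest X => cond (Nat.ble X0 X) X0 (cond (f X) X
    (frc (X + X / 4) rest))) 64
/-- remove the masks `L j`, `j < c` -/
def run1 (L : ℕ → ℕ) (k : ℕ → Bool) (c : ℕ) : ℕ → Bool :=
  Nat.rec k (fun j rest a => nz (Nat.xor a (Nat.land a (L j))) rest) c
/-- update of the masks of numbers hit at least `1, 2, …` times -/
def upd (l : ℕ) (A : List ℕ) : ℕ → (List ℕ → Bool) → Bool :=
  List.rec (fun _ k => k [])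
    (fun x _ ih prev k => frc (Nat.lor x (Nat.land prev l)) fun y => ih x fun ys => k (y :: ys)) A
def run2 (L : ℕ → ℕ) (a s : ℕ) (k : List ℕ → Bool) (c : ℕ) : List ℕ → Bool :=
  Nat.rec k (fun i rest A => frc (L (Nat.add s i)) fun l => upd l A a rest) c
def rd (f : ℕ → ℕ → Bool) (A : List ℕ) : ℕ → Bool :=
  List.rec (fun _ => true) (fun x _ ih r => f r x && ih (Nat.succ r)) A
def zeros (k : ℕ) : List ℕ := Nat.rec [] (fun _ acc => 0 :: acc) k
def lev (R hi τ d rm j : ℕ) : ℕ :=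
  Nat.shiftLeft (Nat.xor R (Nat.land R (mult hi (Dj j τ d rm)))) j
def tO (t τ r X : ℕ) : Bool := Nat.blt (r * fac t) (df (X - (τ + 1)) (t - (τ + 1)))
def runA (t R X0 d : ℕ) : Bool :=
  frc (mn d (T4 t (d - 2))) fun rm =>
    run1 (lev R X0 (d - 2) d rm) (fun a => run2 (lev R X0 (d - 2) d rm) a d
      (fun A => rd (fun r x => scan (fun n => !(vr t d n r) ||
          stP t n (d - 2) d r (cond (modeB t n) t (t - 1))) 18 0
        (Nat.xor a x % 2 ^ hiW (fun X => !(vr t d X r)) X0 (2 * t + 1))) A 2)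
      (t - d) (zeros (rm - 1))) (d - 1) (2 ^ X0 - 2 ^ (2 * t + 1))
def levB (R hi τ rm j : ℕ) : ℕ :=
  cond (Nat.blt τ j) (Nat.shiftLeft R j) (lev R hi τ (τ + 3) rm j)
def runB (t R0 X0 τ : ℕ) : Bool :=
  frc (T4 t τ) fun rm => frc (hiW (tO t τ rm) X0 (2 * t + 1)) fun hi =>
    Nat.ble hi (2 * t + 1) || frc (R0 % 2 ^ hi) fun R =>
    run1 (levB R hi τ rm) (fun a => run2 (levB R hi τ rm) a (τ + 2)
      (fun A => rd (fun r x => Nat.blt r 2 || scan (fun n => allR (τ + 3) (t - (τ + 3)) fun d =>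
          !(Nat.ble r d && vr t d n r) || stP t n τ d r τ) 18 0 (Nat.xor a x)) A 1)
      (t - (τ + 2)) (zeros rm)) (τ + 2) (2 ^ hi - 2 ^ (2 * t + 1))
def stM (RB t X0 : ℕ) : Bool :=
  Nat.ble X0 262144 && frc (R1 RB t X0) fun R =>
    allR 3 (t - 3) (runA t R X0) && allR 0 (t - 3) (runB t R X0)

/-! ### all `n` above the bound -/

def mono (a k b L X : ℕ) : Bool := Nat.ble k L && Nat.blt (a * X ^ k) (b * df X L)
def Pr (s t : ℕ) : ℕ := foldR (s + 1) (t - s) (fun p acc => cond (isP p) (p * acc) acc) 1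
def erd (t r X1 X2 j0 s : ℕ) : Bool :=
  Nat.blt j0 t && Nat.ble s t && Nat.ble (r * X2) (ch j0 (j0 / 2)) &&
    (Nat.ble t s || Nat.ble X2 ((s + 1) ^ 2)) &&
    mono (Pr s t * fac (t - j0)) (r - 1 + piS s) 1 (t - j0) (X1 - j0)
def cB (t τ r : ℕ) : ℕ := r * fac t * fac (t - τ - 1) * lcmU (t - τ - 1)
def tB0 (t τ r X : ℕ) : Bool :=
  mono (cB t τ r) (2 + cntR (2 * τ + 2) (t - (2 * τ + 2)) fun j => !(gi j τ (τ + 1) r)) 4 (t - τ)
    (X - τ)
def tB1 (t τ r X : ℕ) : Bool :=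
  mono (cB t τ r) (1 + mn ((t - τ - 1) / 2) (cntR (τ + 2) (t - (τ + 2)) fun j =>
    Nat.beq j (τ + 2) || !(gi j τ (τ + 2) r))) 2 (t - τ) (X - τ)
def tI1 (t f r X : ℕ) : Bool :=
  mono (r * fac f * fac (t / 2) * 2 ^ ((t + 1 - f) / 2)) ((t + 1 - f) / 2) (ch f (t % 2)) (t / 2)
    ((X - t) / 2)
def tI (t τ r X : ℕ) : Bool :=
  Nat.ble 3 τ && Nat.ble (t * t + t) X && tI1 t (τ - 2) r X && tI1 t (τ - 1) r X
def rmax (t d τ X0 : ℕ) : ℕ :=
  foldR 2 (mn d (T4 t τ) - 1) (fun r acc => cond (vr t d X0 r) r acc) 1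
/-- a ladder step is `(ρ, X2, j0, s)` -/
def reach (r : ℕ) (lad : List (ℕ × ℕ × ℕ × ℕ)) : ℕ → ℕ :=
  List.rec (fun X => X) (fun x _ ih X => cond (Nat.ble r x.1) (ih x.2.1) X) lad
def ladok (t : ℕ) (lad : List (ℕ × ℕ × ℕ × ℕ)) : ℕ → Bool :=
  List.rec (fun _ => true) (fun x _ ih X => erd t x.1 X x.2.1 x.2.2.1 x.2.2.2 && ih x.2.1) lad
def bigA (t X0 τ d : ℕ) (lad : List (ℕ × ℕ × ℕ × ℕ)) (T : ℕ → ℕ → ℕ → ℕ → Bool) : Bool :=
  Nat.blt t (d + 1) || frc (rmax t d τ X0) fun rm => Nat.blt rm 2 ||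
    frc (reach rm lad X0) fun X => Nat.blt (t * t) (3 * X) && (T t τ rm X || tI t τ rm X)
def bigO (t X0 τ : ℕ) (lad : List (ℕ × ℕ × ℕ × ℕ)) : Bool :=
  Nat.blt t (τ + 4) || frc (T4 t τ) fun rm =>
    frc (reach rm lad X0) fun X => tO t τ rm X || tI t τ rm X
def big (t X0 τ1 : ℕ) (lad : List (ℕ × ℕ × ℕ × ℕ)) : Bool :=
  Nat.ble (2 * t + 1) X0 && ladok t lad X0 &&
    (allR 0 τ1 fun τ => bigA t X0 τ (τ + 1) lad tB0 && bigA t X0 τ (τ + 2) lad tB1 &&
      bigO t X0 τ lad) &&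
    frc (T4 t τ1) fun rm => tI t τ1 rm (reach rm lad X0)

end Pool.Agent.H5Hom.Num
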