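import Pool.Agent.Lib.MP_078193_al.NRB

namespace Pool.Agent.H5Hom.Num

set_option maxRecDepth 100000 in
theorem bigR_eq : Nat.beq bigR RB = true := by decide +kernel

end Pool.Agent.H5Hom.Num
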