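import Pool.Agent.Lib.MP_078193_al.NRB

/-! Kernel runs of the checkers. -/

set_option maxRecDepth 100000
set_option maxHeartbeats 20000000

namespace Pool.Agent.H5Hom.Num

theorem run_1 :
    (stM RB 7 40327 = true ∧ big 7 40327 5 [] = true) ∧
    (stM RB 10 6183 = true ∧ big 10 6183 6 [] = true) ∧
    (stM RB 25 72196 = true ∧ big 25 72196 11 [] = true) ∧
    (stM RB 27 107061 = true ∧ big 27 107061 11 [] = true) ∧
    (stM RB 50 5314 = true ∧ big 50 5314 17 [(5, 16038, 19, 50), (4, 66997, 21, 50), (3, 2999326, 26, 50)] = true) ∧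
    (stM RB 53 5968 = true ∧ big 53 5968 17 [(6, 186883, 23, 53), (6, 1045784, 26, 53), (6, 2473877, 27, 53), (6, 5852135, 28, 53)] = true) ∧
    (stM RB 58 978 = true ∧ big 58 978 18 [(11, 1467, 17, 38), (11, 2200, 17, 46), (11, 2750, 18, 52), (11, 4125, 18, 58), (11, 6870, 19, 58), (9, 40201, 22, 58), (9, 569060, 25, 58), (9, 2141012, 27, 58), (9, 8055277, 29, 58)] = true) ∧
    (stM RB 63 377 = true ∧ big 63 377 19 [(10, 471, 15, 21), (10, 942, 16, 30), (10, 1884, 17, 43), (10, 6104, 19, 63), (10, 47773, 22, 63), (10, 1046018, 27, 63), (10, 4894604, 29, 63), (10, 10587826, 30, 63), (10, 13234782, 30, 63), (10, 22903195, 31, 63)] = true) :=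
  ⟨⟨by decide +kernel, by decide +kernel⟩,
   ⟨by decide +kernel, by decide +kernel⟩,
   ⟨by decide +kernel, by decide +kernel⟩,
   ⟨by decide +kernel, by decide +kernel⟩,
   ⟨by decide +kernel, by decide +kernel⟩,
   ⟨by decide +kernel, by decide +kernel⟩,
   ⟨by decide +kernel, by decide +kernel⟩,
   ⟨by decide +kernel, by decide +kernel⟩⟩

end Pool.Agent.H5Hom.Num
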