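import Pool.Agent.Lib.MP_078193_al.NRB

/-! Kernel runs of the checkers. -/

set_option maxRecDepth 100000
set_option maxHeartbeats 20000000

namespace Pool.Agent.H5Hom.Num

theorem run_2 :
    (stM RB 6 4326 = true ∧ big 6 4326 4 [] = true) ∧
    (stM RB 17 19826 = true ∧ big 17 19826 9 [] = true) ∧
    (stM RB 24 118108 = true ∧ big 24 118108 10 [] = true) ∧
    (stM RB 32 215344 = true ∧ big 32 215344 12 [] = true) ∧
    (stM RB 41 189612 = true ∧ big 41 189612 19 [] = true) ∧
    (stM RB 47 19162 = true ∧ big 47 19162 25 [(4, 88235, 22, 47)] = true) ∧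
    (stM RB 49 26951 = true ∧ big 49 26951 27 [(6, 58779, 21, 49), (4, 76228, 21, 49)] = true) ∧
    (stM RB 57 409 = true ∧ big 57 409 19 [(10, 511, 15, 22), (10, 766, 16, 27), (10, 1149, 16, 33), (10, 1723, 17, 41), (10, 2584, 18, 50), (10, 3876, 18, 57), (10, 6685, 19, 57), (8, 177977, 24, 57), (8, 4738362, 28, 57)] = true) ∧
    (stM RB 61 10361 = true ∧ big 61 10361 24 [(8, 130629, 23, 61), (8, 1646961, 27, 61)] = true) ∧
    (stM RB 78 456 = true ∧ big 78 456 14 [(13, 684, 16, 26), (13, 1415, 17, 37), (13, 4212, 19, 64), (13, 12538, 20, 78), (7, 60172269, 32, 78), (7, 288778276815, 44, 78)] = true) ∧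
    (stM RB 84 461 = true ∧ big 84 461 16 [(13, 691, 16, 26), (13, 2238, 18, 47), (13, 183683, 24, 84), (13, 136579208, 34, 84), (13, 3724280684, 39, 84), (13, 19447837270, 41, 84), (13, 101554744824, 44, 84)] = true) ∧
    (stM RB 91 467 = true ∧ big 91 467 15 [(14, 700, 16, 26), (14, 3470, 18, 58), (14, 17202, 21, 91), (8, 657767490, 36, 91), (8, 25151614422441, 51, 91)] = true) ∧
    (stM RB 98 351 = true ∧ big 98 351 14 [(12, 702, 16, 26), (12, 19725, 21, 98), (9, 3239712710, 38, 98), (9, 532103343388690, 56, 98)] = true) ∧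
    (stM RB 105 480 = true ∧ big 105 480 15 [(16, 720, 16, 26), (16, 1696, 18, 41), (16, 22197, 22, 105), (10, 11031448923, 40, 105), (10, 5482401466233260, 59, 105)] = true) ∧
    (stM RB 111 417 = true ∧ big 111 417 15 [(14, 521, 16, 22), (14, 1371, 17, 37), (14, 25008, 21, 111), (12, 37942606983, 42, 111), (12, 57567235472765300, 63, 111)] = true) :=
  ⟨⟨by decide +kernel, by decide +kernel⟩,
   ⟨by decide +kernel, by decide +kernel⟩,
   ⟨by decide +kernel, by decide +kernel⟩,
   ⟨by decide +kernel, by decide +kernel⟩,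
   ⟨by decide +kernel, by decide +kernel⟩,
   ⟨by decide +kernel, by decide +kernel⟩,
   ⟨by decide +kernel, by decide +kernel⟩,
   ⟨by decide +kernel, by decide +kernel⟩,
   ⟨by decide +kernel, by decide +kernel⟩,
   ⟨by decide +kernel, by decide +kernel⟩,
   ⟨by decide +kernel, by decide +kernel⟩,
   ⟨by decide +kernel, by decide +kernel⟩,
   ⟨by decide +kernel, by decide +kernel⟩,
   ⟨by decide +kernel, by decide +kernel⟩,
   ⟨by decide +kernel, by decide +kernel⟩⟩

end Pool.Agent.H5Hom.Num
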