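import Pool.Agent.Lib.MP_078193_al.NRB

/-! Kernel runs of the checkers. -/

set_option maxRecDepth 100000
set_option maxHeartbeats 20000000

namespace Pool.Agent.H5Hom.Num

theorem run_3 :
    (stM RB 8 6932 = true ∧ big 8 6932 4 [] = true) ∧
    (stM RB 12 12502 = true ∧ big 12 12502 6 [] = true) ∧
    (stM RB 21 70042 = true ∧ big 21 70042 9 [] = true) ∧
    (stM RB 33 149739 = true ∧ big 33 149739 15 [] = true) ∧
    (stM RB 43 7539 = true ∧ big 43 7539 19 [(5, 9423, 18, 43), (5, 14437, 19, 43), (4, 45754, 20, 43), (4, 68631, 21, 43), (4, 85788, 21, 43), (4, 145007, 22, 43)] = true) ∧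
    (stM RB 48 16555 = true ∧ big 48 16555 26 [(7, 22176, 20, 48), (5, 56902, 21, 48), (4, 86810, 21, 48)] = true) ∧
    (stM RB 54 6050 = true ∧ big 54 6050 16 [(5, 245688, 23, 54), (5, 9977308, 29, 54)] = true) ∧
    (stM RB 64 403 = true ∧ big 64 403 14 [(11, 503, 15, 22), (11, 754, 16, 27), (11, 1508, 17, 38), (11, 3531, 18, 59), (11, 8270, 19, 64), (7, 11824, 19, 64), (6, 19250, 20, 64), (5, 5956789, 28, 64), (5, 1843290140, 37, 64)] = true) ∧
    (stM RB 68 1458 = true ∧ big 68 1458 16 [(15, 1542, 17, 39), (13, 2313, 18, 48), (13, 3469, 18, 58), (13, 6938, 19, 68), (13, 9596, 20, 68), (9, 2565611, 28, 68), (9, 41950887, 32, 68), (9, 685948489, 36, 68)] = true) ∧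
    (stM RB 73 660 = true ∧ big 73 660 23 [(14, 825, 16, 28), (14, 1237, 17, 35), (14, 1855, 18, 43), (14, 2782, 18, 52), (14, 4173, 19, 64), (14, 6259, 19, 73), (14, 10790, 20, 73), (10, 479159, 25, 73), (10, 21278372, 31, 73)] = true) ∧
    (stM RB 79 556 = true ∧ big 79 556 15 [(14, 834, 16, 28), (14, 1668, 17, 40), (14, 4580, 19, 67), (14, 12580, 20, 79), (8, 60128637, 32, 79), (8, 287396905706, 45, 79)] = true) ∧
    (stM RB 85 496 = true ∧ big 85 496 17 [(14, 744, 16, 27), (14, 2403, 18, 49), (14, 21665, 21, 85), (14, 47676085, 33, 85), (14, 2236513580, 38, 85), (14, 15318174648, 41, 85), (14, 104916185921, 44, 85)] = true) ∧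
    (stM RB 92 478 = true ∧ big 92 478 15 [(15, 717, 16, 26), (15, 1583, 17, 39), (15, 17043, 21, 92), (9, 966024314, 36, 92), (9, 54755792757717, 52, 92)] = true) ∧
    (stM RB 99 376 = true ∧ big 99 376 15 [(13, 752, 16, 27), (13, 3858, 19, 62), (13, 19800, 21, 99), (10, 3236710841, 38, 99), (10, 529105912691251, 56, 99)] = true) ∧
    (stM RB 106 514 = true ∧ big 106 514 16 [(17, 642, 16, 25), (17, 1570, 18, 39), (17, 23008, 22, 106), (11, 1736910151, 38, 106), (11, 131122082509260, 54, 106)] = true) ∧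
    (stM RB 112 451 = true ∧ big 112 451 14 [(15, 676, 16, 25), (15, 4139, 19, 64), (15, 25345, 22, 112), (13, 57994700148, 43, 112), (13, 132704093324419898, 64, 112)] = true) :=
  ⟨⟨by decide +kernel, by decide +kernel⟩,
   ⟨by decide +kernel, by decide +kernel⟩,
   ⟨by decide +kernel, by decide +kernel⟩,
   ⟨by decide +kernel, by decide +kernel⟩,
   ⟨by decide +kernel, by decide +kernel⟩,
   ⟨by decide +kernel, by decide +kernel⟩,
   ⟨by decide +kernel, by decide +kernel⟩,
   ⟨by decide +kernel, by decide +kernel⟩,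
   ⟨by decide +kernel, by decide +kernel⟩,
   ⟨by decide +kernel, by decide +kernel⟩,
   ⟨by decide +kernel, by decide +kernel⟩,
   ⟨by decide +kernel, by decide +kernel⟩,
   ⟨by decide +kernel, by decide +kernel⟩,
   ⟨by decide +kernel, by decide +kernel⟩,
   ⟨by decide +kernel, by decide +kernel⟩,
   ⟨by decide +kernel, by decide +kernel⟩⟩

end Pool.Agent.H5Hom.Num
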