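import Pool.Agent.Lib.MP_078193_al.NRB

/-! Kernel runs of the checkers. -/

set_option maxRecDepth 100000
set_option maxHeartbeats 20000000

namespace Pool.Agent.H5Hom.Num

theorem run_4 :
    (stM RB 9 14467 = true ∧ big 9 14467 5 [] = true) ∧
    (stM RB 22 209261 = true ∧ big 22 209261 8 [] = true) ∧
    (stM RB 23 104793 = true ∧ big 23 104793 11 [] = true) ∧
    (stM RB 30 227220 = true ∧ big 30 227220 12 [] = true) ∧
    (stM RB 31 164708 = true ∧ big 31 164708 13 [] = true) ∧
    (stM RB 40 244810 = true ∧ big 40 244810 16 [] = true) ∧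
    (stM RB 45 4099 = true ∧ big 45 4099 23 [(6, 6148, 18, 45), (6, 7685, 18, 45), (6, 12778, 19, 45), (5, 17685, 19, 45), (4, 102244, 22, 45)] = true) ∧
    (stM RB 52 5558 = true ∧ big 52 5558 14 [(5, 415073, 24, 52), (5, 3586969, 27, 52), (5, 10544579, 29, 52), (5, 30997801, 30, 52)] = true) ∧
    (stM RB 69 317 = true ∧ big 69 317 17 [(10, 475, 15, 21), (10, 1152, 16, 33), (10, 6072, 19, 69), (10, 111352, 23, 69), (10, 8744781, 30, 69), (10, 77495135, 33, 69), (10, 686752030, 36, 69)] = true) ∧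
    (stM RB 77 377 = true ∧ big 77 377 15 [(12, 471, 15, 21), (12, 1062, 16, 32), (12, 3598, 18, 59), (12, 12194, 20, 77), (6, 40604510, 31, 77), (6, 135207990975, 43, 77)] = true) ∧
    (stM RB 89 489 = true ∧ big 89 489 15 [(14, 733, 16, 27), (14, 3460, 18, 58), (14, 16339, 21, 89), (10, 444183361, 35, 89), (10, 12075332554547, 50, 89)] = true) ∧
    (stM RB 94 583 = true ∧ big 94 583 16 [(17, 728, 16, 26), (17, 1456, 18, 38), (17, 5515, 20, 74), (17, 813804, 27, 94), (17, 1458751465, 38, 94), (17, 61760677003, 43, 94), (17, 401862442328, 46, 94), (17, 2614825976515, 49, 94)] = true) ∧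
    (stM RB 103 412 = true ∧ big 103 412 15 [(14, 515, 16, 22), (14, 1311, 17, 36), (14, 21697, 21, 103), (8, 7182404269, 39, 103), (8, 2377606631542359, 58, 103)] = true) ∧
    (stM RB 114 549 = true ∧ big 114 549 16 [(17, 823, 17, 28), (17, 4645, 19, 68), (17, 26225, 22, 114), (15, 7267556932, 40, 114), (15, 2014008913936170, 59, 114)] = true) ∧
    (stM RB 118 469 = true ∧ big 118 469 15 [(16, 703, 16, 26), (16, 4446, 19, 66), (16, 28127, 22, 118), (11, 193614659939, 45, 118), (11, 1332763413931045960, 68, 118)] = true) ∧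
    (stM RB 127 540 = true ∧ big 127 540 18 [(19, 810, 17, 28), (19, 5121, 20, 71), (19, 32385, 22, 127), (18, 64191581150, 44, 127), (18, 127236655567560693, 65, 127)] = true) :=
  ⟨⟨by decide +kernel, by decide +kernel⟩,
   ⟨by decide +kernel, by decide +kernel⟩,
   ⟨by decide +kernel, by decide +kernel⟩,
   ⟨by decide +kernel, by decide +kernel⟩,
   ⟨by decide +kernel, by decide +kernel⟩,
   ⟨by decide +kernel, by decide +kernel⟩,
   ⟨by decide +kernel, by decide +kernel⟩,
   ⟨by decide +kernel, by decide +kernel⟩,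
   ⟨by decide +kernel, by decide +kernel⟩,
   ⟨by decide +kernel, by decide +kernel⟩,
   ⟨by decide +kernel, by decide +kernel⟩,
   ⟨by decide +kernel, by decide +kernel⟩,
   ⟨by decide +kernel, by decide +kernel⟩,
   ⟨by decide +kernel, by decide +kernel⟩,
   ⟨by decide +kernel, by decide +kernel⟩,
   ⟨by decide +kernel, by decide +kernel⟩⟩

end Pool.Agent.H5Hom.Num
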