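import Pool.Agent.Lib.MP_078193_al.NRB

/-! Kernel runs of the checkers. -/

set_option maxRecDepth 100000
set_option maxHeartbeats 20000000

namespace Pool.Agent.H5Hom.Num

theorem run_5 :
    (stM RB 20 136006 = true ∧ big 20 136006 8 [] = true) ∧
    (stM RB 29 136147 = true ∧ big 29 136147 13 [] = true) ∧
    (stM RB 44 5043 = true ∧ big 44 5043 22 [(5, 18199, 19, 44), (5, 36398, 20, 44), (5, 65680, 21, 44), (4, 121771, 22, 44)] = true) ∧
    (stM RB 56 356 = true ∧ big 56 356 16 [(9, 445, 15, 21), (9, 667, 15, 25), (9, 1334, 16, 36), (9, 2668, 17, 51), (9, 6414, 19, 56), (7, 346192, 24, 56), (7, 2543382, 27, 56), (7, 6893803, 29, 56), (7, 18685563, 30, 56)] = true) ∧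
    (stM RB 62 343 = true ∧ big 62 343 18 [(9, 514, 15, 22), (9, 1028, 16, 32), (9, 3594, 18, 59), (9, 32135, 21, 62), (9, 859171, 26, 62), (9, 4442530, 28, 62), (9, 10101963, 30, 62), (9, 22971068, 31, 62)] = true) ∧
    (stM RB 65 556 = true ∧ big 65 556 15 [(12, 834, 16, 28), (12, 1409, 17, 37), (11, 3464, 18, 58), (11, 8517, 20, 65), (7, 11410, 19, 65), (6, 4653996, 28, 65), (6, 1898306855, 37, 65)] = true) ∧
    (stM RB 71 422 = true ∧ big 71 422 19 [(12, 527, 15, 22), (12, 790, 16, 28), (12, 1714, 17, 41), (12, 3544, 18, 59), (12, 54082, 22, 71), (12, 3223993, 28, 71), (12, 24892290, 31, 71), (12, 192192151, 34, 71)] = true) ∧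
    (stM RB 76 351 = true ∧ big 76 351 14 [(11, 526, 15, 22), (11, 1142, 16, 33), (11, 11728, 20, 76), (8, 17321, 20, 76), (7, 48630531, 32, 76), (7, 136535340791, 43, 76)] = true) ∧
    (stM RB 80 637 = true ∧ big 80 637 16 [(15, 796, 16, 28), (15, 1602, 17, 40), (15, 3204, 18, 56), (15, 13073, 21, 80), (9, 19010234, 31, 80), (9, 27643922951, 41, 80)] = true) ∧
    (stM RB 90 384 = true ∧ big 90 384 14 [(13, 480, 15, 21), (13, 1164, 17, 34), (13, 16640, 21, 90), (8, 18343, 20, 90), (7, 662635265, 36, 90), (7, 23937496352165, 51, 90)] = true) ∧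
    (stM RB 93 513 = true ∧ big 93 513 16 [(16, 769, 16, 27), (16, 1684, 18, 41), (16, 17707, 21, 93), (10, 981267829, 37, 93), (10, 54378864424013, 53, 93)] = true) ∧
    (stM RB 104 472 = true ∧ big 104 472 14 [(15, 708, 16, 26), (15, 3931, 19, 62), (15, 21826, 21, 104), (9, 10798568631, 40, 104), (9, 5342668583070725, 59, 104)] = true) ∧
    (stM RB 110 387 = true ∧ big 110 387 14 [(13, 483, 15, 21), (13, 1292, 17, 35), (13, 24768, 21, 110), (11, 37590459697, 42, 110), (11, 57051140997776310, 63, 110)] = true) ∧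
    (stM RB 113 514 = true ∧ big 113 514 15 [(16, 771, 16, 27), (16, 4494, 19, 67), (16, 26202, 22, 113), (14, 58649149581, 43, 113), (14, 87745601943262, 54, 113), (14, 131277106580243014, 65, 113)] = true) ∧
    (stM RB 119 508 = true ∧ big 119 508 16 [(17, 762, 17, 27), (17, 4664, 19, 68), (17, 28548, 22, 119), (12, 197111280431, 45, 119), (12, 1360965982671903271, 68, 119)] = true) ∧
    (stM RB 126 502 = true ∧ big 126 502 17 [(18, 753, 17, 27), (18, 4918, 19, 70), (18, 32128, 22, 126), (17, 63734694899, 44, 126), (17, 126435238232919328, 65, 126)] = true) :=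
  ⟨⟨by decide +kernel, by decide +kernel⟩,
   ⟨by decide +kernel, by decide +kernel⟩,
   ⟨by decide +kernel, by decide +kernel⟩,
   ⟨by decide +kernel, by decide +kernel⟩,
   ⟨by decide +kernel, by decide +kernel⟩,
   ⟨by decide +kernel, by decide +kernel⟩,
   ⟨by decide +kernel, by decide +kernel⟩,
   ⟨by decide +kernel, by decide +kernel⟩,
   ⟨by decide +kernel, by decide +kernel⟩,
   ⟨by decide +kernel, by decide +kernel⟩,
   ⟨by decide +kernel, by decide +kernel⟩,
   ⟨by decide +kernel, by decide +kernel⟩,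
   ⟨by decide +kernel, by decide +kernel⟩,
   ⟨by decide +kernel, by decide +kernel⟩,
   ⟨by decide +kernel, by decide +kernel⟩,
   ⟨by decide +kernel, by decide +kernel⟩⟩

end Pool.Agent.H5Hom.Num
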