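import Pool.Agent.Lib.MP_078193_al.NRB

/-! Kernel runs of the checkers. -/

set_option maxRecDepth 100000
set_option maxHeartbeats 20000000

namespace Pool.Agent.H5Hom.Num

theorem run_6 :
    (stM RB 14 16441 = true ∧ big 14 16441 6 [] = true) ∧
    (stM RB 19 60222 = true ∧ big 19 60222 9 [] = true) ∧
    (stM RB 26 128567 = true ∧ big 26 128567 10 [] = true) ∧
    (stM RB 34 135024 = true ∧ big 34 135024 14 [] = true) ∧
    (stM RB 35 101479 = true ∧ big 35 101479 17 [] = true) ∧
    (stM RB 39 167213 = true ∧ big 39 167213 17 [] = true) ∧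
    (stM RB 59 7080 = true ∧ big 59 7080 22 [(10, 7804, 19, 59), (6, 2535620, 27, 59)] = true) ∧
    (stM RB 72 547 = true ∧ big 72 547 20 [(13, 820, 16, 28), (13, 1670, 17, 40), (13, 3340, 18, 57), (13, 11635, 20, 72), (13, 103365, 23, 72), (13, 2737077, 28, 72), (13, 14084580, 31, 72), (13, 72477102, 33, 72)] = true) ∧
    (stM RB 74 1091 = true ∧ big 74 1091 24 [(15, 1363, 17, 36), (15, 1703, 18, 41), (15, 2554, 18, 50), (15, 3192, 18, 56), (15, 4788, 19, 69), (15, 5985, 19, 74), (15, 11318, 20, 74), (11, 369119, 25, 74), (11, 12038253, 30, 74)] = true) ∧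
    (stM RB 82 950 = true ∧ big 82 950 17 [(17, 1187, 17, 34), (17, 1780, 18, 42), (17, 3560, 19, 59), (17, 5340, 19, 73), (17, 13638, 21, 82), (13, 27333920, 32, 82), (13, 1223707297, 37, 82), (13, 8187764925, 40, 82), (13, 54783929651, 43, 82)] = true) ∧
    (stM RB 87 353 = true ∧ big 87 353 15 [(12, 529, 15, 22), (12, 1226, 17, 35), (12, 15296, 20, 87), (8, 293240288, 35, 87), (8, 5621722475046, 49, 87)] = true) ∧
    (stM RB 95 625 = true ∧ big 95 625 17 [(18, 781, 17, 27), (18, 1562, 18, 39), (18, 5898, 20, 76), (18, 860301, 27, 95), (18, 1515546460, 38, 95), (18, 63610479321, 44, 95), (18, 412105466056, 46, 95), (18, 2669857497801, 49, 95)] = true) ∧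
    (stM RB 102 490 = true ∧ big 102 490 15 [(16, 735, 16, 27), (16, 1703, 18, 41), (16, 21233, 21, 102), (13, 7469917371, 40, 102), (13, 4430655843214, 49, 102), (13, 2627968988950002, 59, 102)] = true) ∧
    (stM RB 109 384 = true ∧ big 109 384 15 [(12, 768, 16, 27), (12, 24576, 21, 109), (10, 25402795412, 41, 109), (10, 26257406199914482, 62, 109)] = true) ∧
    (stM RB 115 553 = true ∧ big 115 553 17 [(18, 691, 16, 26), (18, 1732, 18, 41), (18, 27290, 22, 115), (16, 7454527889, 40, 115), (16, 2036276513306178, 59, 115)] = true) ∧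
    (stM RB 120 353 = true ∧ big 120 353 14 [(12, 529, 15, 22), (12, 3936, 18, 62), (12, 29297, 21, 120), (11, 301144810666, 45, 120), (11, 3095477249932803988, 69, 120)] = true) ∧
    (stM RB 125 467 = true ∧ big 125 467 16 [(17, 700, 16, 26), (17, 4725, 19, 68), (17, 31894, 22, 125), (16, 723587907303, 47, 125), (16, 16416236897096124897, 72, 125)] = true) :=
  ⟨⟨by decide +kernel, by decide +kernel⟩,
   ⟨by decide +kernel, by decide +kernel⟩,
   ⟨by decide +kernel, by decide +kernel⟩,
   ⟨by decide +kernel, by decide +kernel⟩,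
   ⟨by decide +kernel, by decide +kernel⟩,
   ⟨by decide +kernel, by decide +kernel⟩,
   ⟨by decide +kernel, by decide +kernel⟩,
   ⟨by decide +kernel, by decide +kernel⟩,
   ⟨by decide +kernel, by decide +kernel⟩,
   ⟨by decide +kernel, by decide +kernel⟩,
   ⟨by decide +kernel, by decide +kernel⟩,
   ⟨by decide +kernel, by decide +kernel⟩,
   ⟨by decide +kernel, by decide +kernel⟩,
   ⟨by decide +kernel, by decide +kernel⟩,
   ⟨by decide +kernel, by decide +kernel⟩,
   ⟨by decide +kernel, by decide +kernel⟩,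
   ⟨by decide +kernel, by decide +kernel⟩⟩

end Pool.Agent.H5Hom.Num
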