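import Pool.Agent.Lib.MP_078193_al.NRB

/-! Kernel runs of the checkers. -/

set_option maxRecDepth 100000
set_option maxHeartbeats 20000000

namespace Pool.Agent.H5Hom.Num

theorem run_7 :
    (stM RB 15 29920 = true ∧ big 15 29920 7 [] = true) ∧
    (stM RB 16 27347 = true ∧ big 16 27347 8 [] = true) ∧
    (stM RB 28 184163 = true ∧ big 28 184163 12 [] = true) ∧
    (stM RB 37 78694 = true ∧ big 37 78694 17 [] = true) ∧
    (stM RB 38 114541 = true ∧ big 38 114541 16 [] = true) ∧
    (stM RB 51 5386 = true ∧ big 51 5386 15 [(5, 15233, 19, 51), (4, 484837, 24, 51), (4, 15431483, 29, 51)] = true) ∧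
    (stM RB 67 1073 = true ∧ big 67 1073 17 [(14, 1341, 17, 36), (14, 1497, 17, 38), (12, 2994, 18, 54), (12, 5988, 19, 67), (12, 9159, 20, 67), (5, 13974, 19, 67), (4, 330897546, 34, 67)] = true) ∧
    (stM RB 70 364 = true ∧ big 70 364 18 [(11, 455, 15, 21), (11, 1021, 16, 31), (11, 2178, 17, 46), (11, 37371, 22, 70), (11, 2656141, 28, 70), (11, 188785096, 34, 70)] = true) ∧
    (stM RB 75 7296 = true ∧ big 75 7296 19 [(16, 11497, 20, 75), (5, 13525, 19, 75), (4, 488620788, 34, 75)] = true) ∧
    (stM RB 81 829 = true ∧ big 81 829 17 [(16, 1243, 17, 35), (16, 2486, 18, 49), (16, 4972, 19, 70), (16, 13553, 21, 81), (10, 19548330, 31, 81), (10, 28195767073, 42, 81)] = true) ∧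
    (stM RB 88 378 = true ∧ big 88 378 14 [(13, 472, 15, 21), (13, 1136, 17, 33), (13, 15856, 21, 88), (9, 434563521, 35, 88), (9, 11910031184609, 50, 88)] = true) ∧
    (stM RB 97 413 = true ∧ big 97 413 15 [(14, 516, 16, 22), (14, 1198, 17, 34), (14, 31424, 22, 97), (14, 2904607949, 39, 97), (14, 883081017564, 47, 97), (14, 15397742882417, 51, 97), (14, 268481012678827, 55, 97)] = true) ∧
    (stM RB 100 402 = true ∧ big 100 402 14 [(14, 804, 16, 28), (14, 4059, 19, 63), (14, 20492, 21, 100), (11, 4937045877, 39, 100), (11, 1189460374463256, 57, 100)] = true) ∧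
    (stM RB 108 665 = true ∧ big 108 665 16 [(19, 831, 17, 28), (19, 1904, 18, 43), (19, 9500, 20, 97), (19, 3941144, 29, 108), (19, 33302012095, 43, 108), (19, 3061220124288, 49, 108), (19, 281396470057675, 56, 108)] = true) ∧
    (stM RB 116 409 = true ∧ big 116 409 14 [(14, 511, 16, 22), (14, 1378, 17, 37), (14, 27040, 22, 116), (9, 125702840789, 44, 116), (9, 584364060002403148, 66, 116)] = true) ∧
    (stM RB 121 378 = true ∧ big 121 378 15 [(13, 756, 16, 27), (13, 30368, 22, 121), (12, 307274937971, 45, 121), (12, 3109124325124630210, 69, 121)] = true) ∧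
    (stM RB 124 437 = true ∧ big 124 437 15 [(16, 655, 16, 25), (16, 4567, 19, 67), (16, 31849, 22, 124), (15, 702813058144, 47, 124), (15, 15509001686034137321, 72, 124)] = true) :=
  ⟨⟨by decide +kernel, by decide +kernel⟩,
   ⟨by decide +kernel, by decide +kernel⟩,
   ⟨by decide +kernel, by decide +kernel⟩,
   ⟨by decide +kernel, by decide +kernel⟩,
   ⟨by decide +kernel, by decide +kernel⟩,
   ⟨by decide +kernel, by decide +kernel⟩,
   ⟨by decide +kernel, by decide +kernel⟩,
   ⟨by decide +kernel, by decide +kernel⟩,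
   ⟨by decide +kernel, by decide +kernel⟩,
   ⟨by decide +kernel, by decide +kernel⟩,
   ⟨by decide +kernel, by decide +kernel⟩,
   ⟨by decide +kernel, by decide +kernel⟩,
   ⟨by decide +kernel, by decide +kernel⟩,
   ⟨by decide +kernel, by decide +kernel⟩,
   ⟨by decide +kernel, by decide +kernel⟩,
   ⟨by decide +kernel, by decide +kernel⟩,
   ⟨by decide +kernel, by decide +kernel⟩⟩

end Pool.Agent.H5Hom.Num
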