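import Pool.Agent.Lib.MP_078193_al.NRB

/-! Kernel runs of the checkers. -/

set_option maxRecDepth 100000
set_option maxHeartbeats 20000000

namespace Pool.Agent.H5Hom.Num

theorem run_8 :
    (stM RB 11 15120 = true ∧ big 11 15120 7 [] = true) ∧
    (stM RB 13 25498 = true ∧ big 13 25498 7 [] = true) ∧
    (stM RB 18 43664 = true ∧ big 18 43664 8 [] = true) ∧
    (stM RB 36 95594 = true ∧ big 36 95594 16 [] = true) ∧
    (stM RB 42 179142 = true ∧ big 42 179142 18 [] = true) ∧
    (stM RB 46 15615 = true ∧ big 46 15615 24 [(5, 16130, 19, 46), (4, 99505, 22, 46)] = true) ∧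
    (stM RB 55 276 = true ∧ big 55 276 17 [(8, 345, 14, 18), (8, 711, 15, 26), (8, 1422, 16, 37), (8, 2979, 17, 54), (8, 6245, 19, 55), (7, 6450, 18, 55), (6, 257739, 24, 55), (6, 10299166, 29, 55)] = true) ∧
    (stM RB 60 7539 = true ∧ big 60 7539 23 [(11, 8867, 20, 60), (7, 1605433, 27, 60)] = true) ∧
    (stM RB 66 599 = true ∧ big 66 599 14 [(13, 748, 16, 27), (13, 935, 16, 30), (13, 1453, 17, 38), (12, 2906, 18, 53), (12, 8882, 20, 66), (7, 5898239, 29, 66), (7, 151994620, 33, 66), (7, 3916824095, 38, 66)] = true) ∧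
    (stM RB 83 403 = true ∧ big 83 403 17 [(12, 503, 15, 22), (12, 1598, 17, 39), (12, 13970, 20, 83), (12, 27600663, 32, 83), (12, 1226820627, 37, 83), (12, 54530894822, 43, 83)] = true) ∧
    (stM RB 86 534 = true ∧ big 86 534 18 [(15, 801, 16, 28), (15, 1602, 17, 40), (15, 4376, 19, 66), (15, 189654, 25, 86), (15, 54111474, 33, 86), (15, 15438913551, 41, 86)] = true) ∧
    (stM RB 96 668 = true ∧ big 96 668 18 [(19, 835, 17, 28), (19, 1670, 18, 40), (19, 5442, 20, 73), (19, 456990, 26, 96), (19, 351665528, 36, 96), (19, 270615645175, 46, 96)] = true) ∧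
    (stM RB 101 458 = true ∧ big 101 458 15 [(15, 687, 16, 26), (15, 1618, 17, 40), (15, 21178, 21, 101), (12, 5103136722, 39, 101), (12, 1229672509442023, 57, 101)] = true) ∧
    (stM RB 107 621 = true ∧ big 107 621 17 [(18, 931, 17, 30), (18, 2089, 18, 45), (18, 23631, 22, 107), (12, 1762452700, 38, 107), (12, 131447654423582, 54, 107)] = true) ∧
    (stM RB 117 438 = true ∧ big 117 438 15 [(15, 657, 16, 25), (15, 4291, 19, 65), (15, 28032, 22, 117), (10, 131660022003, 44, 117), (10, 618377618220835290, 66, 117)] = true) ∧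
    (stM RB 122 405 = true ∧ big 122 405 14 [(14, 810, 16, 28), (14, 30490, 22, 122), (13, 464881639674, 46, 122), (13, 7088059655830468621, 70, 122)] = true) ∧
    (stM RB 123 407 = true ∧ big 123 407 15 [(15, 508, 16, 22), (15, 1415, 17, 37), (15, 30641, 22, 123), (14, 467951031133, 46, 123), (14, 7146573791286190527, 70, 123)] = true) :=
  ⟨⟨by decide +kernel, by decide +kernel⟩,
   ⟨by decide +kernel, by decide +kernel⟩,
   ⟨by decide +kernel, by decide +kernel⟩,
   ⟨by decide +kernel, by decide +kernel⟩,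
   ⟨by decide +kernel, by decide +kernel⟩,
   ⟨by decide +kernel, by decide +kernel⟩,
   ⟨by decide +kernel, by decide +kernel⟩,
   ⟨by decide +kernel, by decide +kernel⟩,
   ⟨by decide +kernel, by decide +kernel⟩,
   ⟨by decide +kernel, by decide +kernel⟩,
   ⟨by decide +kernel, by decide +kernel⟩,
   ⟨by decide +kernel, by decide +kernel⟩,
   ⟨by decide +kernel, by decide +kernel⟩,
   ⟨by decide +kernel, by decide +kernel⟩,
   ⟨by decide +kernel, by decide +kernel⟩,
   ⟨by decide +kernel, by decide +kernel⟩,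
   ⟨by decide +kernel, by decide +kernel⟩⟩

end Pool.Agent.H5Hom.Num
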