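import Pool.Agent.Lib.MP_078193_al.NRun1
import Pool.Agent.Lib.MP_078193_al.NRun2
import Pool.Agent.Lib.MP_078193_al.NRun3
import Pool.Agent.Lib.MP_078193_al.NRun4
import Pool.Agent.Lib.MP_078193_al.NRun5
import Pool.Agent.Lib.MP_078193_al.NRun6
import Pool.Agent.Lib.MP_078193_al.NRun7
import Pool.Agent.Lib.MP_078193_al.NRun8

namespace Pool.Agent.H5Hom.Num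

theorem runs (t : ℕ) (h1 : 6 ≤ t) (h2 : t < 128) :
    ∃ X0 τ1 lad, stM RB t X0 = true ∧ big t X0 τ1 lad = true := by
  interval_cases t
  · exact ⟨_, _, _, run_2.1⟩
  · exact ⟨_, _, _, run_1.1⟩
  · exact ⟨_, _, _, run_3.1⟩
  · exact ⟨_, _, _, run_4.1⟩
  · exact ⟨_, _, _, run_1.2.1⟩
  · exact ⟨_, _, _, run_8.1⟩
  · exact ⟨_, _, _, run_3.2.1⟩
  · exact ⟨_, _, _, run_8.2.1⟩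
  · exact ⟨_, _, _, run_6.1⟩
  · exact ⟨_, _, _, run_7.1⟩
  · exact ⟨_, _, _, run_7.2.1⟩
  · exact ⟨_, _, _, run_2.2.1⟩
  · exact ⟨_, _, _, run_8.2.2.1⟩
  · exact ⟨_, _, _, run_6.2.1⟩
  · exact ⟨_, _, _, run_5.1⟩
  · exact ⟨_, _, _, run_3.2.2.1⟩
  · exact ⟨_, _, _, run_4.2.1⟩
  · exact ⟨_, _, _, run_4.2.2.1⟩
  · exact ⟨_, _, _, run_2.2.2.1⟩
  · exact ⟨_, _, _, run_1.2.2.1⟩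
  · exact ⟨_, _, _, run_6.2.2.1⟩
  · exact ⟨_, _, _, run_1.2.2.2.1⟩
  · exact ⟨_, _, _, run_7.2.2.1⟩
  · exact ⟨_, _, _, run_5.2.1⟩
  · exact ⟨_, _, _, run_4.2.2.2.1⟩
  · exact ⟨_, _, _, run_4.2.2.2.2.1⟩
  · exact ⟨_, _, _, run_2.2.2.2.1⟩
  · exact ⟨_, _, _, run_3.2.2.2.1⟩
  · exact ⟨_, _, _, run_6.2.2.2.1⟩
  · exact ⟨_, _, _, run_6.2.2.2.2.1⟩
  · exact ⟨_, _, _, run_8.2.2.2.1⟩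
  · exact ⟨_, _, _, run_7.2.2.2.1⟩
  · exact ⟨_, _, _, run_7.2.2.2.2.1⟩
  · exact ⟨_, _, _, run_6.2.2.2.2.2.1⟩
  · exact ⟨_, _, _, run_4.2.2.2.2.2.1⟩
  · exact ⟨_, _, _, run_2.2.2.2.2.1⟩
  · exact ⟨_, _, _, run_8.2.2.2.2.1⟩
  · exact ⟨_, _, _, run_3.2.2.2.2.1⟩
  · exact ⟨_, _, _, run_5.2.2.1⟩
  · exact ⟨_, _, _, run_4.2.2.2.2.2.2.1⟩
  · exact ⟨_, _, _, run_8.2.2.2.2.2.1⟩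
  · exact ⟨_, _, _, run_2.2.2.2.2.2.1⟩
  · exact ⟨_, _, _, run_3.2.2.2.2.2.1⟩
  · exact ⟨_, _, _, run_2.2.2.2.2.2.2.1⟩
  · exact ⟨_, _, _, run_1.2.2.2.2.1⟩
  · exact ⟨_, _, _, run_7.2.2.2.2.2.1⟩
  · exact ⟨_, _, _, run_4.2.2.2.2.2.2.2.1⟩
  · exact ⟨_, _, _, run_1.2.2.2.2.2.1⟩
  · exact ⟨_, _, _, run_3.2.2.2.2.2.2.1⟩
  · exact ⟨_, _, _, run_8.2.2.2.2.2.2.1⟩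
  · exact ⟨_, _, _, run_5.2.2.2.1⟩
  · exact ⟨_, _, _, run_2.2.2.2.2.2.2.2.1⟩
  · exact ⟨_, _, _, run_1.2.2.2.2.2.2.1⟩
  · exact ⟨_, _, _, run_6.2.2.2.2.2.2.1⟩
  · exact ⟨_, _, _, run_8.2.2.2.2.2.2.2.1⟩
  · exact ⟨_, _, _, run_2.2.2.2.2.2.2.2.2.1⟩
  · exact ⟨_, _, _, run_5.2.2.2.2.1⟩
  · exact ⟨_, _, _, run_1.2.2.2.2.2.2.2⟩
  · exact ⟨_, _, _, run_3.2.2.2.2.2.2.2.1⟩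
  · exact ⟨_, _, _, run_5.2.2.2.2.2.1⟩
  · exact ⟨_, _, _, run_8.2.2.2.2.2.2.2.2.1⟩
  · exact ⟨_, _, _, run_7.2.2.2.2.2.2.1⟩
  · exact ⟨_, _, _, run_3.2.2.2.2.2.2.2.2.1⟩
  · exact ⟨_, _, _, run_4.2.2.2.2.2.2.2.2.1⟩
  · exact ⟨_, _, _, run_7.2.2.2.2.2.2.2.1⟩
  · exact ⟨_, _, _, run_5.2.2.2.2.2.2.1⟩
  · exact ⟨_, _, _, run_6.2.2.2.2.2.2.2.1⟩
  · exact ⟨_, _, _, run_3.2.2.2.2.2.2.2.2.2.1⟩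
  · exact ⟨_, _, _, run_6.2.2.2.2.2.2.2.2.1⟩
  · exact ⟨_, _, _, run_7.2.2.2.2.2.2.2.2.1⟩
  · exact ⟨_, _, _, run_5.2.2.2.2.2.2.2.1⟩
  · exact ⟨_, _, _, run_4.2.2.2.2.2.2.2.2.2.1⟩
  · exact ⟨_, _, _, run_2.2.2.2.2.2.2.2.2.2.1⟩
  · exact ⟨_, _, _, run_3.2.2.2.2.2.2.2.2.2.2.1⟩
  · exact ⟨_, _, _, run_5.2.2.2.2.2.2.2.2.1⟩
  · exact ⟨_, _, _, run_7.2.2.2.2.2.2.2.2.2.1⟩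
  · exact ⟨_, _, _, run_6.2.2.2.2.2.2.2.2.2.1⟩
  · exact ⟨_, _, _, run_8.2.2.2.2.2.2.2.2.2.1⟩
  · exact ⟨_, _, _, run_2.2.2.2.2.2.2.2.2.2.2.1⟩
  · exact ⟨_, _, _, run_3.2.2.2.2.2.2.2.2.2.2.2.1⟩
  · exact ⟨_, _, _, run_8.2.2.2.2.2.2.2.2.2.2.1⟩
  · exact ⟨_, _, _, run_6.2.2.2.2.2.2.2.2.2.2.1⟩
  · exact ⟨_, _, _, run_7.2.2.2.2.2.2.2.2.2.2.1⟩
  · exact ⟨_, _, _, run_4.2.2.2.2.2.2.2.2.2.2.1⟩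
  · exact ⟨_, _, _, run_5.2.2.2.2.2.2.2.2.2.1⟩
  · exact ⟨_, _, _, run_2.2.2.2.2.2.2.2.2.2.2.2.1⟩
  · exact ⟨_, _, _, run_3.2.2.2.2.2.2.2.2.2.2.2.2.1⟩
  · exact ⟨_, _, _, run_5.2.2.2.2.2.2.2.2.2.2.1⟩
  · exact ⟨_, _, _, run_4.2.2.2.2.2.2.2.2.2.2.2.1⟩
  · exact ⟨_, _, _, run_6.2.2.2.2.2.2.2.2.2.2.2.1⟩
  · exact ⟨_, _, _, run_8.2.2.2.2.2.2.2.2.2.2.2.1⟩
  · exact ⟨_, _, _, run_7.2.2.2.2.2.2.2.2.2.2.2.1⟩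
  · exact ⟨_, _, _, run_2.2.2.2.2.2.2.2.2.2.2.2.2.1⟩
  · exact ⟨_, _, _, run_3.2.2.2.2.2.2.2.2.2.2.2.2.2.1⟩
  · exact ⟨_, _, _, run_7.2.2.2.2.2.2.2.2.2.2.2.2.1⟩
  · exact ⟨_, _, _, run_8.2.2.2.2.2.2.2.2.2.2.2.2.1⟩
  · exact ⟨_, _, _, run_6.2.2.2.2.2.2.2.2.2.2.2.2.1⟩
  · exact ⟨_, _, _, run_4.2.2.2.2.2.2.2.2.2.2.2.2.1⟩
  · exact ⟨_, _, _, run_5.2.2.2.2.2.2.2.2.2.2.2.1⟩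
  · exact ⟨_, _, _, run_2.2.2.2.2.2.2.2.2.2.2.2.2.2.1⟩
  · exact ⟨_, _, _, run_3.2.2.2.2.2.2.2.2.2.2.2.2.2.2.1⟩
  · exact ⟨_, _, _, run_8.2.2.2.2.2.2.2.2.2.2.2.2.2.1⟩
  · exact ⟨_, _, _, run_7.2.2.2.2.2.2.2.2.2.2.2.2.2.1⟩
  · exact ⟨_, _, _, run_6.2.2.2.2.2.2.2.2.2.2.2.2.2.1⟩
  · exact ⟨_, _, _, run_5.2.2.2.2.2.2.2.2.2.2.2.2.1⟩
  · exact ⟨_, _, _, run_2.2.2.2.2.2.2.2.2.2.2.2.2.2.2⟩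
  · exact ⟨_, _, _, run_3.2.2.2.2.2.2.2.2.2.2.2.2.2.2.2⟩
  · exact ⟨_, _, _, run_5.2.2.2.2.2.2.2.2.2.2.2.2.2.1⟩
  · exact ⟨_, _, _, run_4.2.2.2.2.2.2.2.2.2.2.2.2.2.1⟩
  · exact ⟨_, _, _, run_6.2.2.2.2.2.2.2.2.2.2.2.2.2.2.1⟩
  · exact ⟨_, _, _, run_7.2.2.2.2.2.2.2.2.2.2.2.2.2.2.1⟩
  · exact ⟨_, _, _, run_8.2.2.2.2.2.2.2.2.2.2.2.2.2.2.1⟩
  · exact ⟨_, _, _, run_4.2.2.2.2.2.2.2.2.2.2.2.2.2.2.1⟩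
  · exact ⟨_, _, _, run_5.2.2.2.2.2.2.2.2.2.2.2.2.2.2.1⟩
  · exact ⟨_, _, _, run_6.2.2.2.2.2.2.2.2.2.2.2.2.2.2.2.1⟩
  · exact ⟨_, _, _, run_7.2.2.2.2.2.2.2.2.2.2.2.2.2.2.2.1⟩
  · exact ⟨_, _, _, run_8.2.2.2.2.2.2.2.2.2.2.2.2.2.2.2.1⟩
  · exact ⟨_, _, _, run_8.2.2.2.2.2.2.2.2.2.2.2.2.2.2.2.2⟩
  · exact ⟨_, _, _, run_7.2.2.2.2.2.2.2.2.2.2.2.2.2.2.2.2⟩
  · exact ⟨_, _, _, run_6.2.2.2.2.2.2.2.2.2.2.2.2.2.2.2.2⟩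
  · exact ⟨_, _, _, run_5.2.2.2.2.2.2.2.2.2.2.2.2.2.2.2⟩
  · exact ⟨_, _, _, run_4.2.2.2.2.2.2.2.2.2.2.2.2.2.2.2⟩

end Pool.Agent.H5Hom.Num
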