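import Pool.Agent.Lib.MP_078193_al.NBlue2

/-! Soundness of the loops `scan`, `hiW`, `run1`, `run2`. -/

namespace Pool.Agent.H5Hom.Num

open Finset

namespace RUN

theorem scan_succ (f : ℕ → Bool) (e off m : ℕ) : scan f (e + 1) off m =
    nz m fun m => frc (2 ^ e) fun h => scan f e off (m % 2 ^ h) &&
      frc (off + h) fun off' => scan f e off' (m >>> h) := rfl

/-- the loop of `hiW` with variable fuel -/
def hi (f : ℕ → Bool) (X0 k : ℕ) : ℕ → ℕ :=
  Nat.rec (fun _ => X0) (fun _ rest X => cond (Nat.ble X0 X) X0 (cond (f X) X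
    (frc (X + X / 4) rest))) k

theorem hi_succ (f : ℕ → Bool) (X0 k X : ℕ) : hi f X0 (k + 1) X =
    cond (Nat.ble X0 X) X0 (cond (f X) X (frc (X + X / 4) (hi f X0 k))) := rfl

theorem hi_spec (f : ℕ → Bool) (X0 k X : ℕ) : hi f X0 k X = X0 ∨
    (X ≤ hi f X0 k X ∧ hi f X0 k X < X0 ∧ f (hi f X0 k X) = true) := by
  induction k generalizing X with
  | zero => exact .inl rfl
  | succ k ih =>
    rw [hi_succ, cond_ble, frc_eq]
    split_ifs with h
    · exact .inl rfl
    cases hf : f X
    · exact (ih (X + X / 4)).imp id fun h => ⟨le_trans (Nat.le_add_right _ _) h.1, h.2⟩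
    · exact .inr ⟨le_rfl, not_le.1 h, hf⟩

/-- the list computed by `upd` -/
def updF (l : ℕ) : List ℕ → ℕ → List ℕ
  | [], _ => []
  | x :: A, prev => (x ||| (prev &&& l)) :: updF l A x

theorem upd_eq (l : ℕ) (A : List ℕ) (prev : ℕ) (k : List ℕ → Bool) :
    upd l A prev k = k (updF l A prev) := by
  induction A generalizing prev k with
  | nil => rfl
  | cons x A ih =>
    change frc (x ||| (prev &&& l)) (fun y => upd l A x fun ys => k (y :: ys)) = _
    rw [frc_eq, ih, updF]

theorem length_updF (l : ℕ) (A : List ℕ) (prev : ℕ) : (updF l A prev).length = A.length := by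
  induction A generalizing prev <;> simp_all [updF]

/-- the invariant of `run2` -/
def Inv (n : ℕ) : List ℕ → ℕ → ℕ → Prop
  | [], _, _ => True
  | x :: A, o, c => (x.testBit n = true → o + 1 ≤ c) ∧ Inv n A (o + 1) c

theorem inv_upd {n l : ℕ} {A : List ℕ} {prev o c : ℕ} (h : Inv n A o c)
    (hp : prev.testBit n = true → o ≤ c) :
    Inv n (updF l A prev) o (c + if l.testBit n = true then 1 else 0) := by
  induction A generalizing prev o with
  | nil => trivial
  | cons x A ih =>
    refine ⟨fun hb => ?_, ih h.2 h.1⟩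
    rw [Nat.testBit_or, Nat.testBit_and, Bool.or_eq_true, Bool.and_eq_true] at hb
    rcases hb with hb | hb
    · have := h.1 hb; omega
    · have := hp hb.1; rw [if_pos hb.2]; omega

theorem zeros_spec (n K o : ℕ) : (zeros K).length = K ∧ Inv n (zeros K) o 0 := by
  induction K generalizing o with
  | zero => exact ⟨rfl, trivial⟩
  | succ K ih => exact ⟨congrArg (· + 1) (ih 0).1, by simp, (ih _).2⟩

theorem run2_spec (L : ℕ → ℕ) (a s n : ℕ) (k : List ℕ → Bool) (c : ℕ) (A : List ℕ) (m : ℕ)
    (h : run2 L a s k c A = true) (hi : Inv n A 0 m) : ∃ A', k A' = true ∧ A'.length = A.length ∧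
      Inv n A' 0 (m + ((Ico s (s + c)).filter fun j => (L j).testBit n = true).card) := by
  induction c generalizing A m with
  | zero => exact ⟨A, h, rfl, by simpa using hi⟩
  | succ c ih =>
    change frc (L (s + c)) (fun l => upd l A a (run2 L a s k c)) = true at h
    rw [frc_eq, upd_eq] at h
    obtain ⟨A', h1, h2, h3⟩ := ih _ _ h (inv_upd hi fun _ => Nat.zero_le _)
    refine ⟨A', h1, h2.trans (length_updF _ _ _), ?_⟩
    rw [← add_assoc, Nat.Ico_succ_right_eq_insert_Ico (Nat.le_add_right _ _), filter_insert]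
    split_ifs at h3 ⊢
    · rw [card_insert_of_notMem (by simp)]; convert h3 using 1; omega
    · exact h3

theorem rd_spec {n : ℕ} {f : ℕ → ℕ → Bool} {A : List ℕ} {r o c : ℕ} (h : rd f A r = true)
    (hi : Inv n A o c) : ∀ i < A.length, ∃ x, f (r + i) x = true ∧
      (x.testBit n = true → o + i + 1 ≤ c) := by
  induction A generalizing r o with
  | nil => simp
  | cons x A ih =>
    change (f r x && rd f A (r + 1)) = true at h
    rw [Bool.and_eq_true] at h
    rintro (_ | i) hi'
    · exact ⟨x, h.1, hi.1⟩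
    · obtain ⟨y, h1, h2⟩ := ih h.2 hi.2 i (by simpa using hi')
      exact ⟨y, by rwa [show r + (i + 1) = r + 1 + i by omega], fun hb => by
        have := h2 hb; omega⟩

theorem run1_spec (L : ℕ → ℕ) (k : ℕ → Bool) (n c a : ℕ) (h : run1 L k c a = true)
    (ha : a.testBit n = true) :
    (∃ j < c, (L j).testBit n = true) ∨ ∃ a : ℕ, a.testBit n = true ∧ k a = true := by
  induction c generalizing a with
  | zero => exact .inr ⟨a, ha, h⟩
  | succ c ih =>
    change nz (a ^^^ (a &&& L c)) (run1 L k c) = true at h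
    by_cases hc : (L c).testBit n = true
    · exact .inl ⟨c, c.lt_succ_self, hc⟩
    have hb : (a ^^^ (a &&& L c)).testBit n = true := by simp [ha, hc]
    rcases (nz_iff _ _).1 h with h | h
    · simp [h] at hb
    · exact (ih _ h hb).imp (fun ⟨j, hj, e⟩ => ⟨j, hj.trans c.lt_succ_self, e⟩) id

end RUN

theorem scan_of : St_scan := by
  intro f dep
  induction dep with
  | zero =>
    intro off m h i hi hb
    obtain rfl : i = 0 := by omega
    change (Nat.beq m 0 || f off) = true at h
    rw [Bool.or_eq_true, Nat.beq_eq] at h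
    rcases h with rfl | h
    · simp at hb
    · exact h
  | succ e ih =>
    intro off m h i hi hb
    simp only [RUN.scan_succ, nz_iff, frc_eq, Bool.and_eq_true] at h
    rcases h with rfl | ⟨h1, h2⟩
    · simp at hb
    rcases lt_or_ge i (2 ^ e) with h | h
    · exact ih _ _ h1 i h (by simp [Nat.testBit_mod_two_pow, h, hb])
    · obtain ⟨j, rfl⟩ := Nat.exists_eq_add_of_le h
      rw [← add_assoc]
      exact ih _ _ h2 j (by omega) (by rwa [Nat.testBit_shiftRight])

theorem hiW_of : St_hiW := fun f X0 X => RUN.hi_spec f X0 64 X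

theorem run_of : St_run := by
  intro L f s c c1 K r0 a0 n h ha
  refine (RUN.run1_spec L _ n c1 a0 h ha).imp id fun ⟨a, h1, h2⟩ => ⟨a, h1, fun i hi => ?_⟩
  obtain ⟨A, h3, h4, h5⟩ := RUN.run2_spec L a s n _ c _ 0 h2 (RUN.zeros_spec n K 0).2
  simpa using RUN.rd_spec h3 h5 i (by rwa [h4, (RUN.zeros_spec n K 0).1])

end Pool.Agent.H5Hom.Num
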