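import Pool.Agent.Lib.MP_078193_al.NBlue2

/-! Soundness of the final stage. -/

open Finset
open scoped Nat

namespace Pool.Agent.H5Hom.Num

namespace STF

theorem wl_shift (k : ℕ) (u : ℕ → ℕ) : wl (k + 1) u = wl k (fun i => u (i + 1)) ++ [u 0] := by
  induction k with
  | zero => rfl
  | succ k ih => rw [wl_succ, ih, wl_succ, List.cons_append]

theorem enum_zero (D : ℕ) (dl : List ℕ) (f : List ℕ → Bool) (lo rem : ℕ) (acc : List ℕ) :
    enum D dl f 0 lo rem acc = (!(dv rem D) || f (rem :: acc)) := rfl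

theorem enum_succ (D : ℕ) (dl : List ℕ) (f : List ℕ → Bool) (k lo rem : ℕ) (acc : List ℕ) :
    enum D dl f (k + 1) lo rem acc = allL dl fun x => Nat.blt x lo || Nat.blt rem (x * (k + 2)) ||
      frc (rem - x) fun rem' => enum D dl f k x rem' (x :: acc) := rfl

theorem dvd_Dm {t n ψ ph e x : ℕ} (hph : ψ ≤ ph) (he : e ∣ n - t) (h1 : ψ < t → e = 1)
    (h2 : x ∣ t ! * e) (h3 : x ∣ Nat.lcmUpto t * (n - t)) : x ∣ Dm t n ph := by
  unfold Dm
  rw [fac_eq, lcmU_eq, cond_ble]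
  refine Nat.dvd_gcd (h2.trans (Nat.mul_dvd_mul_left _ ?_)) h3
  split_ifs with h
  · exact he
  · rw [h1 (by omega)]

/-- the loop of `stF` -/
def loop (b1 b2 r Wf : ℕ) (g : ℕ → Bool) (fuel : ℕ) : ℕ → Bool :=
  Nat.rec (fun _ => false) (fun _ rest i => Nat.blt b2 (Nat.mul Wf i) ||
    Nat.blt b1 (Nat.mul Wf i ^ r) ||
    ((allR i 32 fun i => frc (Nat.mul Wf i) fun W => Nat.blt b2 W || Nat.blt b1 (W ^ r) ||
      g W) && frc (Nat.add i 32) rest)) fuel

theorem loop_succ (b1 b2 r Wf : ℕ) (g : ℕ → Bool) (fuel i : ℕ) :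
    loop b1 b2 r Wf g (fuel + 1) i = (Nat.blt b2 (Wf * i) || Nat.blt b1 ((Wf * i) ^ r) ||
      ((allR i 32 fun i => frc (Wf * i) fun W => Nat.blt b2 W || Nat.blt b1 (W ^ r) || g W) &&
        frc (i + 32) (loop b1 b2 r Wf g fuel))) := rfl

theorem loop_sound (b1 b2 r Wf : ℕ) (g : ℕ → Bool) (i : ℕ) (h2 : Wf * i ≤ b2)
    (h1 : (Wf * i) ^ r ≤ b1) (fuel i0 : ℕ) (hi : i0 ≤ i)
    (h : loop b1 b2 r Wf g fuel i0 = true) : g (Wf * i) = true := by
  induction fuel generalizing i0 with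
  | zero => exact absurd h (by simp [loop])
  | succ fuel ih =>
    rw [loop_succ] at h
    simp only [Bool.or_eq_true, Bool.and_eq_true, Nat.blt_eq, frc_eq, allR_iff] at h
    have a1 : Wf * i0 ≤ Wf * i := Nat.mul_le_mul_left _ hi
    have a2 : (Wf * i0) ^ r ≤ (Wf * i) ^ r := Nat.pow_le_pow_left a1 r
    rcases h with (h | h) | ⟨h, h'⟩
    · omega
    · omega
    · rcases Nat.lt_or_ge i (i0 + 32) with hl | hl
      · rcases h i hi hl with (h | h) | h
        · omega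
        · omega
        · exact h
      · exact ih _ hl h'

theorem stF_eq (t n d r ph Wf : ℕ) : stF t n d r ph Wf =
    frc ((t + 1) ^ r * MS t r * Nat.gcd (n - t) (fac (t + 1) ^ 18) ^ (r - 1)) fun b1 =>
      frc ((t + 1) * (n - t) ^ (r - 1) / (r - 1) ^ (r - 1)) fun b2 =>
        loop b1 b2 r Wf (stW t n d r ph) 300 1 := by
  unfold stF loop
  with_reducible rfl

end STF

open STF

theorem enum_of : St_enum := by
  intro D dl f k
  induction k with
  | zero =>
    intro lo rem acc h u _ _ h3 _ h5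
    rw [sum_range_one] at h5
    rw [enum_zero, Bool.or_eq_true, Bool.not_eq_true', dv_false, ← h5] at h
    exact h.resolve_left (not_not.2 h3)
  | succ k ih =>
    intro lo rem acc h u h1 h2 h3 h4 h5
    rw [enum_succ, allL_iff] at h
    have h6 := h (u 0) (h2 0 (by omega))
    simp only [Bool.or_eq_true, Nat.blt_eq, frc_eq] at h6
    have h7 : u 0 * (k + 2) ≤ rem := by
      have := Finset.card_nsmul_le_sum (range (k + 1 + 1)) u (u 0) fun i hi =>
        h1 0 i (Nat.zero_le _) (by have := mem_range.1 hi; omega)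
      rw [card_range, smul_eq_mul, h5, mul_comm] at this
      exact this
    rcases h6 with (h6 | h6) | h6
    · omega
    · omega
    · rw [wl_shift, List.append_assoc]
      refine ih _ _ _ h6 (fun i => u (i + 1)) (fun i j a b => h1 _ _ (by omega) (by omega))
        (fun i hi => h2 _ (by omega)) h3 (h1 0 _ (by omega) (by omega)) ?_
      rw [sum_range_succ'] at h5
      omega

theorem stF_of (he : St_enum) (hw1 : St_wb1) (hw2 : St_wb2) (hl : St_lam) (hf : St_fin) :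
    St_stF := by
  intro t n d τ r ψ g ν hF ht hn ph Wf hph hW h
  obtain ⟨m, γ, Λ, e, w, a, b, hI, hg, hwΛ, hΛ, e1, e2, e3, e4⟩ := hF.inc
  have r2 := hF.r2
  obtain ⟨w1, w2, w3⟩ := hw1 _ _ _ _ _ _ _ _ _ hI r2
  have w4 := hw2 _ _ _ _ _ _ e _ _ _ hI r2 ht hn e1 e2 fun j hj => (hwΛ j hj).trans hΛ
  obtain ⟨L, hL, hΛL⟩ := hl _ _ _ _ _ _ _ _ hF γ _ Λ e hI.tot hg hΛ e4
  obtain ⟨i, hi⟩ := hW γ _ hI.tot ⟨Λ, hg⟩
  have hpair : ∀ j < r - 1, w j + w (r - 1) ≤ ∑ i ∈ range r, w i := by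
    intro j hj
    rw [← sum_pair (f := w) (show j ≠ r - 1 by omega)]
    refine sum_le_sum_of_subset fun x hx => ?_
    simp only [mem_insert, mem_singleton, mem_range] at hx ⊢
    omega
  have hpos : 0 < ∑ i ∈ range r, w i := by
    have := hpair 0 (by omega)
    have := hI.wpos 0 (by omega)
    omega
  have hD : ∀ j < r, w j ∣ Dm t n ph := fun j hj =>
    dvd_Dm hph e3 e4 ((hwΛ j hj).trans hΛ) (w3 j hj)
  have b2 : ∑ i ∈ range r, w i ≤ (t + 1) * (n - t) ^ (r - 1) / (r - 1) ^ (r - 1) :=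
    (Nat.le_div_iff_mul_le (pow_pos (by omega) _)).2 w1
  have b1 : (∑ i ∈ range r, w i) ^ r ≤
      (t + 1) ^ r * MS t r * Nat.gcd (n - t) (fac (t + 1) ^ 18) ^ (r - 1) := by
    have h1 : ∏ _j ∈ range r, ∑ i ∈ range r, w i ≤ ∏ j ∈ range r, (t + 1) * w j :=
      Finset.prod_le_prod' fun j hj => w2 j (mem_range.1 hj)
    rw [prod_const, card_range, prod_mul_distrib, prod_const, card_range] at h1
    rw [fac_eq, mul_assoc]
    exact h1.trans (Nat.mul_le_mul_left _ w4)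
  have h' : loop ((t + 1) ^ r * MS t r * Nat.gcd (n - t) (fac (t + 1) ^ 18) ^ (r - 1))
      ((t + 1) * (n - t) ^ (r - 1) / (r - 1) ^ (r - 1)) r Wf (stW t n d r ph) 300 1 = true := by
    rw [stF_eq, frc_eq, frc_eq] at h
    exact h
  have hi1 : 1 ≤ i := by
    rcases Nat.eq_zero_or_pos i with h0 | h0
    · rw [h0, mul_zero] at hi
      omega
    · exact h0
  have h3 := loop_sound _ _ r Wf _ i (hi ▸ b2) (hi ▸ b1) 300 1 hi1 h'
  rw [← hi] at h3
  simp only [stW, Bool.or_eq_true, Bool.not_eq_true', dv_false, frcL_eq, frc_eq, ch_eq,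
    List.isEmpty_iff] at h3
  rcases h3 with h3 | h3 | h3
  · exact h3 ⟨γ, by rw [hI.tot, mul_comm]⟩
  · rw [h3] at hL
    exact absurd hL (by simp)
  · have hr : r - 1 + 1 = r := by omega
    have h4 := he _ _ _ _ _ _ _ h3 w (fun i j a b => hI.mono i j a (by omega))
      (fun j hj => by
        have a1 := hpair j hj
        have a2 := hI.mono j (r - 1) (by omega) (by omega)
        have a3 := w2 j (by omega)
        have a4 : (∑ i ∈ range r, w i + t) / (t + 1) ≤ w j := by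
          refine Nat.lt_succ_iff.1 ((Nat.div_lt_iff_lt_mul (by omega)).2 ?_)
          rw [Nat.succ_mul, mul_comm]
          omega
        rw [mem_filt, dv_iff]
        exact ⟨a4, by omega, hD j (by omega)⟩)
      (hD _ (by omega)) (Nat.zero_le _) (by rw [hr])
    rw [hr, List.append_nil] at h4
    exact hf _ _ _ _ _ _ _ _ hF m γ w a b _ hI ⟨L, hL, fun j hj => (hwΛ j hj).trans hΛL⟩ h4

theorem stF2_of (hw1 : St_wb1) (hl : St_lam) (hf : St_fin) : St_stF2 := by
  intro t n d τ ψ g ν hF ht ph Wf hph hW h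
  obtain ⟨m, γ, Λ, e, w, a, b, hI, hg, hwΛ, hΛ, e1, e2, e3, e4⟩ := hF.inc
  obtain ⟨-, -, w3⟩ := hw1 _ _ _ _ _ _ _ _ _ hI le_rfl
  have hs : ∑ j ∈ range 2, w j = w 0 + w 1 := by rw [sum_range_succ, sum_range_one]
  have tot := hI.tot
  rw [hs] at tot
  obtain ⟨L, hL, hΛL⟩ := hl _ _ _ _ _ _ _ _ hF γ _ Λ e tot hg hΛ e4
  have hWf := hW γ _ tot ⟨Λ, hg⟩
  have hD : ∀ j < 2, w j ∣ Dm t n ph := fun j hj =>
    dvd_Dm hph e3 e4 ((hwΛ j hj).trans hΛ) (w3 j hj)
  obtain ⟨c, u, c1, c2, hu, hq, hin⟩ := hI.two rfl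
  have p0 := hI.wpos 0 (by omega)
  have p1 := hI.wpos 1 (by omega)
  have p2 := hI.mono 0 1 (by omega) (by omega)
  have hco : Nat.Coprime u (w 0 + w 1) := by
    refine Nat.coprime_of_dvd fun p hp h1 h2 => ?_
    obtain ⟨j, hj, hn⟩ := hI.prim p hp
    have : p ∣ w 0 ∧ p ∣ w 1 := by
      rcases hu with rfl | rfl
      · exact ⟨h1, (Nat.dvd_add_right h1).1 h2⟩
      · exact ⟨(Nat.dvd_add_left h1).1 h2, h1⟩
    interval_cases j
    · exact hn this.1
    · exact hn this.2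
  have hup : 0 < u := by omega
  have hnum : 0 < (t - d) * (n + 1 - t - d) * (t - c) := by
    have := hF.hd
    have := hF.hn
    exact Nat.mul_pos (Nat.mul_pos (by omega) (by omega)) (by omega)
  obtain ⟨G, hG⟩ : u ∣ (t - d) * (n + 1 - t - d) * (t - c) :=
    hco.dvd_of_dvd_mul_left ⟨_, hq.symm⟩
  have hG0 : 0 < G := by
    rw [hG] at hnum
    exact Nat.pos_of_mul_pos_left hnum
  have hden : c * d * (n + 1 - d) = (w 0 + w 1) * G := by
    refine Nat.eq_of_mul_eq_mul_left hup ?_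
    rw [hq, hG]
    ring
  have hgcd : Nat.gcd (u * G) ((w 0 + w 1) * G) = G := by
    rw [Nat.gcd_mul_right, hco.gcd_eq_one, one_mul]
  unfold stF2 at h
  rw [allR_iff] at h
  have h1 := h c c1 (by omega)
  rw [frc_eq, frc_eq, hG, hden, hgcd, Nat.mul_div_cancel _ hG0, Nat.mul_div_cancel _ hG0, frc_eq,
    frc_eq, frcL_eq, Bool.or_eq_true, Bool.not_eq_true', ← Bool.not_eq_true] at h1
  rcases h1 with h1 | h1
  · refine h1 ?_
    simp only [Bool.and_eq_true, Nat.blt_eq, Nat.ble_eq, dv_iff, ch_eq]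
    refine ⟨⟨⟨⟨⟨by omega, hWf⟩, ⟨γ, by rw [tot, mul_comm]⟩⟩, hin⟩, ?_⟩, ?_⟩
    · rcases hu with rfl | rfl
      · exact hD 0 (by omega)
      · exact hD 1 (by omega)
    · rcases hu with rfl | rfl
      · rw [Nat.add_sub_cancel_left]
        exact hD 1 (by omega)
      · rw [Nat.add_sub_cancel]
        exact hD 0 (by omega)
  · have a1 : mx u (w 0 + w 1 - u) = w 1 := by
      rw [mx_eq]
      omega
    have a2 : mn u (w 0 + w 1 - u) = w 0 := by
      rw [mn_eq]
      omega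
    rw [a1, a2] at h1
    exact hf _ _ _ _ _ _ _ _ hF m γ w a b _ hI ⟨L, hL, fun j hj => (hwΛ j hj).trans hΛL⟩ h1

end Pool.Agent.H5Hom.Num
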