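import Pool.Agent.Lib.MP_078193_al.NBlue2

/-! Soundness of the mask stage. -/

open Finset

namespace Pool.Agent.H5Hom.Num

namespace STM

theorem start_bit {a b n : ℕ} (h1 : b ≤ n) (h2 : n < a) : (2 ^ a - 2 ^ b).testBit n = true := by
  obtain ⟨c, rfl⟩ : ∃ c, a = c + b := ⟨a - b, by omega⟩
  have h : 2 ^ (c + b) - 2 ^ b = (2 ^ c - 1) <<< b := by
    rw [Nat.shiftLeft_eq, Nat.sub_mul, one_mul, pow_add]
  rw [h, Nat.testBit_shiftLeft, Nat.testBit_two_pow_sub_one]
  simp only [Bool.and_eq_true, decide_eq_true_eq]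
  omega

/-- every bit `x ≤ n` of the mask has a prime factor above `t` of exponent one -/
def Pm (R t n : ℕ) : Prop :=
  ∀ x, 0 < x → x ≤ n → R.testBit x = true → ∃ p : ℕ, p.Prime ∧ t < p ∧ p ∣ x ∧ ¬ p * p ∣ x

theorem lev_jump (hdj : St_dj) (hmult : St_mult) {t n d τ r ψ g : ℕ} {ν : ℕ → ℕ}
    (hF : Facts t n d τ r ψ g ν) (ht : t < 128) {R hi τ' d' rm j : ℕ} (hR : Pm R t n)
    (hhi : n ≤ hi) (hj : j < t) (hτ : τ' ≤ τ) (hd : d' ≤ d) (hr : r ≤ rm)
    (h : (lev R hi τ' d' rm j).testBit n = true) : ν j ≠ ν (j + 1) := by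
  intro hν
  have hn := hF.hn
  simp only [lev, r_shl, r_xor, r_land, Nat.testBit_shiftLeft, Nat.testBit_xor, Nat.testBit_and,
    Bool.and_eq_true, decide_eq_true_eq] at h
  obtain ⟨-, h⟩ := h
  have hb : R.testBit (n - j) = true := by
    cases hx : R.testBit (n - j)
    · rw [hx] at h
      simp at h
    · rfl
  obtain ⟨p, hp, htp, hpd, hpp⟩ := hR (n - j) (by omega) (by omega) hb
  have hg := (hF.jump p j hp hj (by omega) hpd hν).1
  have hD := hdj _ _ _ _ _ _ _ _ hF ht p j τ' d' rm hp htp hj hpd hg hpp hτ hd hr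
  have hm := (hmult hi _ (n - j) (Nat.pos_of_dvd_of_pos hD (by omega)) (by omega)).2 hD
  rw [hb, hm] at h
  simp at h

theorem levB_jump (hdj : St_dj) (hmult : St_mult) {t n d τ r ψ g : ℕ} {ν : ℕ → ℕ}
    (hF : Facts t n d τ r ψ g ν) (ht : t < 128) {R hi rm j : ℕ} (hR : Pm R t n)
    (hhi : n ≤ hi) (hj : j < t) (hd : τ + 3 ≤ d) (hr : r ≤ rm)
    (h : (levB R hi τ rm j).testBit n = true) : ν j ≠ ν (j + 1) := by
  unfold levB at h
  rw [cond_blt] at h
  split_ifs at h with hτ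
  · intro hν
    have hn := hF.hn
    simp only [r_shl, Nat.testBit_shiftLeft, Bool.and_eq_true, decide_eq_true_eq] at h
    obtain ⟨p, hp, htp, hpd, -⟩ := hR (n - j) (by omega) (by omega) h.2
    obtain ⟨f, h1, h2, -⟩ := (hF.jump p j hp hj (by omega) hpd hν).2.1
    have := hF.lw2 hd
    omega
  · exact lev_jump hdj hmult hF ht hR hhi hj le_rfl hd hr h

theorem runA_sound (ht4 : St_t4) (hmB : St_mB) (hjc : St_jc) (hvr : St_vr) (hdj : St_dj)
    (hmult : St_mult) (hscan : St_scan) (hhi : St_hiW) (hrun : St_run) (hP : St_stP)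
    {t n d τ r ψ g : ℕ} {ν : ℕ → ℕ} (hF : Facts t n d τ r ψ g ν) (ht : t < 128) {R X0 : ℕ}
    (hR : Pm R t n) (hX : X0 ≤ 262144) (hn : n < X0) (hd : d ≤ τ + 2)
    (h : runA t R X0 d = true) : False := by
  unfold runA at h
  rw [frc_eq, mn_eq] at h
  have hr : r ≤ min d (T4 t (d - 2)) :=
    le_min hF.rd (ht4 _ _ _ _ _ _ _ _ hF (d - 2) (by omega))
  generalize min d (T4 t (d - 2)) = rm at h hr
  have hr2 := hF.r2
  have hdt := hF.hd
  have hJ : ∀ j < t, (lev R X0 (d - 2) d rm j).testBit n = true → ν j ≠ ν (j + 1) :=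
    fun j hj hb => lev_jump hdj hmult hF ht hR hn.le hj (by omega) le_rfl hr hb
  rcases hrun (lev R X0 (d - 2) d rm) (fun a r x => scan (fun n => !(vr t d n r) ||
      stP t n (d - 2) d r (cond (modeB t n) t (t - 1))) 18 0
      (Nat.xor a x % 2 ^ hiW (fun X => !(vr t d X r)) X0 (2 * t + 1))) d (t - d) (d - 1) (rm - 1) 2
      _ n h (start_bit hF.hn hn) with ⟨j, hj, hb⟩ | ⟨a, ha, hx⟩
  · have := (hjc _ _ _ _ _ _ _ _ hF {j} (fun i hi => by
      rw [mem_singleton.1 hi]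
      exact ⟨by omega, hJ j (by omega) hb⟩)).2.1 j (mem_singleton_self j)
    omega
  · obtain ⟨x, hs, hc⟩ := hx (r - 2) (by omega)
    rw [show 2 + (r - 2) = r by omega] at hs
    cases hxn : x.testBit n
    · have hH : n < hiW (fun X => !(vr t d X r)) X0 (2 * t + 1) := by
        rcases hhi (fun X => !(vr t d X r)) X0 (2 * t + 1) with h1 | ⟨h1, -, h3⟩
        · rw [h1]
          exact hn
        · by_contra hc'
          rw [hvr _ _ _ _ _ _ _ _ hF _ h1 (not_lt.1 hc')] at h3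
          simp at h3
      have h1 := hscan _ _ _ _ hs n (by omega) (by
        rw [Nat.testBit_mod_two_pow, r_xor, Nat.testBit_xor, ha, hxn, decide_eq_true hH]
        rfl)
      rw [Nat.zero_add, hvr _ _ _ _ _ _ _ _ hF n hF.hn le_rfl] at h1
      refine hP _ _ _ _ _ _ _ _ hF ht (by omega) (d - 2) (cond (modeB t n) t (t - 1)) (by omega) ?_
        (by simpa using h1)
      have h2 := hF.hψ
      cases hm : modeB t n
      · have h3 : ψ ≠ t := fun h3 => by
          rw [hmB t n (hF.modeB h3)] at hm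
          simp at hm
        change ψ ≤ t - 1
        omega
      · exact h2
    · have h1 := hc hxn
      have h2 := (hjc _ _ _ _ _ _ _ _ hF ((Ico d (d + (t - d))).filter fun j =>
        (lev R X0 (d - 2) d rm j).testBit n = true) (fun j hj => by
          rw [mem_filter, mem_Ico] at hj
          exact ⟨by omega, hJ j (by omega) hj.2⟩)).2.2 (fun j hj => by
          rw [mem_filter, mem_Ico] at hj
          exact hj.1.1)
      omega

theorem runB_sound (ht4 : St_t4) (hjc : St_jc) (hvr : St_vr) (hdj : St_dj) (htO : St_tO)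
    (hmult : St_mult) (hscan : St_scan) (hhi : St_hiW) (hrun : St_run) (hP : St_stP)
    {t n d τ r ψ g : ℕ} {ν : ℕ → ℕ} (hF : Facts t n d τ r ψ g ν) (ht : t < 128) {R X0 : ℕ}
    (hR : Pm R t n) (hX : X0 ≤ 262144) (hn : n < X0) (hd : τ + 3 ≤ d)
    (h : runB t R X0 τ = true) : False := by
  unfold runB at h
  rw [frc_eq, frc_eq, frc_eq] at h
  have hr : r ≤ T4 t τ := ht4 _ _ _ _ _ _ _ _ hF τ le_rfl
  generalize T4 t τ = rm at h hr
  have hH : n < hiW (tO t τ rm) X0 (2 * t + 1) := by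
    rcases hhi (tO t τ rm) X0 (2 * t + 1) with h1 | ⟨-, -, h3⟩
    · rw [h1]
      exact hn
    · by_contra hc'
      exact htO _ _ _ _ _ _ _ _ hF hd rm _ hr (not_lt.1 hc') h3
  generalize hiW (tO t τ rm) X0 (2 * t + 1) = hi at h hH
  have hr2 := hF.r2
  have hdt := hF.hd
  have hnt := hF.hn
  rw [Bool.or_eq_true, Nat.ble_eq] at h
  rcases h with h | h
  · omega
  have hR' : Pm (R % 2 ^ hi) t n := fun x h1 h2 h3 => hR x h1 h2 (by
    rw [Nat.testBit_mod_two_pow, Bool.and_eq_true] at h3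
    exact h3.2)
  have hJ : ∀ j < t, (levB (R % 2 ^ hi) hi τ rm j).testBit n = true → ν j ≠ ν (j + 1) :=
    fun j hj hb => levB_jump hdj hmult hF ht hR' hH.le hj hd hr hb
  rcases hrun (levB (R % 2 ^ hi) hi τ rm) (fun a r x => Nat.blt r 2 ||
      scan (fun n => allR (τ + 3) (t - (τ + 3)) fun d =>
        !(Nat.ble r d && vr t d n r) || stP t n τ d r τ) 18 0 (Nat.xor a x))
      (τ + 2) (t - (τ + 2)) (τ + 2) rm 1 _ n h (start_bit hF.hn hH) with
    ⟨j, hj, hb⟩ | ⟨a, ha, hx⟩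
  · have := (hjc _ _ _ _ _ _ _ _ hF {j} (fun i hi => by
      rw [mem_singleton.1 hi]
      exact ⟨by omega, hJ j (by omega) hb⟩)).2.1 j (mem_singleton_self j)
    omega
  · obtain ⟨x, hs, hc⟩ := hx (r - 1) (by omega)
    rw [show 1 + (r - 1) = r by omega, Bool.or_eq_true, Nat.blt_eq] at hs
    rcases hs with hs | hs
    · omega
    cases hxn : x.testBit n
    · have h1 := hscan _ _ _ _ hs n (by omega) (by
        rw [r_xor, Nat.testBit_xor, ha, hxn]
        rfl)
      have h2 := (allR_iff _ _ _).1 h1 d hd (by omega)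
      rw [Nat.zero_add, hvr _ _ _ _ _ _ _ _ hF n hF.hn le_rfl, Nat.ble_eq.mpr hF.rd] at h2
      exact hP _ _ _ _ _ _ _ _ hF ht (by omega) τ τ le_rfl (hF.lw2 hd) (by simpa using h2)
    · have h1 := hc hxn
      have h2 := (hjc _ _ _ _ _ _ _ _ hF ((Ico (τ + 2) (τ + 2 + (t - (τ + 2)))).filter fun j =>
        (levB (R % 2 ^ hi) hi τ rm j).testBit n = true) (fun j hj => by
          rw [mem_filter, mem_Ico] at hj
          exact ⟨by omega, hJ j (by omega) hj.2⟩)).1
      omega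

end STM

theorem stM_of (ht4 : St_t4) (hmB : St_mB) (hjc : St_jc) (hvr : St_vr) (hd3 : St_d3)
    (hdj : St_dj) (htO : St_tO) (hmult : St_mult) (hR1 : St_R1) (hscan : St_scan) (hhi : St_hiW)
    (hrun : St_run) (hP : St_stP) : St_stM := by
  intro t n d τ r ψ g ν hF ht RB X0 hRB h hn
  unfold stM at h
  rw [frc_eq, Bool.and_eq_true, Bool.and_eq_true, Nat.ble_eq, allR_iff, allR_iff] at h
  obtain ⟨hX, hA, hB⟩ := h
  have hR : STM.Pm (R1 RB t X0) t n := fun x h1 h2 h3 => hR1 RB t X0 x hRB ht hX h1 (by omega) h3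
  have h3 := hd3 _ _ _ _ _ _ _ _ hF
  have hdt := hF.hd
  rcases Nat.lt_or_ge d (τ + 3) with hd | hd
  · exact STM.runA_sound ht4 hmB hjc hvr hdj hmult hscan hhi hrun hP hF ht hR hX hn (by omega)
      (hA d h3 (by omega))
  · exact STM.runB_sound ht4 hjc hvr hdj htO hmult hscan hhi hrun hP hF ht hR hX hn hd
      (hB τ (by omega) (by omega))

end Pool.Agent.H5Hom.Num
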