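import Pool.Agent.Lib.MP_078193_al.NBlue2

/-! Soundness of the test for one value of `n`. -/

open Finset
open scoped Nat

namespace Pool.Agent.H5Hom.Num

namespace STP

theorem rough_dvd (t x : ℕ) : rough t x ∣ x := Nat.div_dvd_of_dvd (Nat.gcd_dvd_left _ _)

theorem rough_prime {t x p : ℕ} (h0 : 0 < x) (h1 : x < 262144) (hp : p.Prime)
    (h : p ∣ rough t x) : t + 1 < p := by
  by_contra hc
  have h2 : p ∣ (t + 1)! := (hp.dvd_factorial).2 (by omega)
  have h3 : p ^ x.factorization p ∣ x := Nat.ordProj_dvd x p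
  have h4 : x.factorization p < 18 := by
    by_contra h5
    have a := Nat.le_of_dvd h0 h3
    have b := Nat.pow_le_pow_right hp.pos (not_lt.1 h5)
    have c := Nat.pow_le_pow_left hp.two_le 18
    omega
  have h5 : p ^ x.factorization p ∣ Nat.gcd x (fac (t + 1) ^ 18) := by
    rw [fac_eq]
    exact Nat.dvd_gcd h3 ((pow_dvd_pow p h4.le).trans (pow_dvd_pow_of_dvd h2 18))
  refine Nat.pow_succ_factorization_not_dvd h0.ne' hp ?_
  rw [pow_succ]
  have := Nat.mul_dvd_mul h5 h
  rwa [rough, Nat.mul_div_cancel' (Nat.gcd_dvd_left _ _)] at this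

theorem mod_eq {n j p : ℕ} (h1 : j ≤ n) (h2 : j < p) (h : p ∣ n - j) : n % p = j := by
  obtain ⟨c, hc⟩ := h
  rw [show n = j + p * c by omega, Nat.add_mul_mod_self_left, Nat.mod_eq_of_lt h2]

theorem good_false {t n r ψ g p j ph : ℕ} (h : Good t n r ψ g p j) (hph : ψ ≤ ph)
    (hb : ph < j ∨ t4bad t p j r = true) : False := by
  obtain ⟨-, ⟨f, h1, h2, -⟩, h3⟩ := h
  rcases hb with hb | hb
  · omega
  · simp only [t4bad, Bool.and_eq_true, Nat.ble_eq, Nat.blt_eq] at hb
    have := h3 hb.1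
    omega

variable {t n d τ r ψ g : ℕ} {ν : ℕ → ℕ}

theorem badB_not (nu : St_nu) (dj : St_dj) (hF : Facts t n d τ r ψ g ν) (ht : t < 128)
    (hn : n < 262144) {τ' ph j : ℕ} (hτ : τ' ≤ τ) (hph : ψ ≤ ph) (hj : j < t)
    (h : badB t n τ' d r ph j = true) :
    1 < rough t (n - j) ∧ ∀ p : ℕ, p.Prime → p ∣ rough t (n - j) → t + 1 < p ∧ ¬ p ∣ g := by
  simp only [badB, frc_eq, Bool.and_eq_true, Bool.or_eq_true, Bool.not_eq_true', Nat.blt_eq,
    Nat.beq_eq, ch_eq, mn_eq, dv_false] at h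
  have h1 := hF.hn
  refine ⟨h.1, fun p hp hd => ?_⟩
  have h2 := rough_prime (by omega) (by omega) hp hd
  have h3 := hd.trans (rough_dvd _ _)
  refine ⟨h2, fun hg => ?_⟩
  have s1 := hF.s1 p j hp (by omega) hj h3 hg
  rcases h.2 with ((h4 | h4) | h4) | h4
  · have := hF.ord p hp hg
    rw [mod_eq (by omega) (by omega) h3] at this
    exact good_false this hph (Or.inl h4)
  · have a := s1 (j / 2) (by omega)
    have b := Nat.mul_le_mul_right (n - j - 1) (nu _ _ _ _ _ _ _ _ hF (j / 2) (by omega))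
    omega
  · have a := s1 (min (d - 1) (j / 2)) (by omega)
    have b := hF.hτ
    rw [hF.low _ (by omega), one_mul] at a
    omega
  · refine h4.1 (dj _ _ _ _ _ _ _ _ hF ht p j τ' d r hp (by omega) hj h3 hg (fun h5 => ?_) hτ
      le_rfl le_rfl)
    rcases Nat.lt_or_ge p 512 with h6 | h6
    · have a : p ∣ Nat.gcd (rough t (n - j)) Q := Nat.dvd_gcd hd ((dvd_Q hp).2 h6)
      have b : Squarefree (Nat.gcd (rough t (n - j)) Q) :=
        Q_squarefree.squarefree_of_dvd (Nat.gcd_dvd_right _ _)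
      have c := Nat.mul_div_cancel' ((Nat.gcd_dvd_left _ Q).trans (rough_dvd t (n - j)))
      have e := h4.2
      generalize Nat.gcd (rough t (n - j)) Q = A at a b c e
      obtain ⟨a', rfl⟩ := a
      rw [← c, mul_assoc] at h5
      rcases (Nat.Prime.dvd_mul hp).1 (Nat.dvd_of_mul_dvd_mul_left hp.pos h5) with f | f
      · exact hp.not_isUnit (b p (Nat.mul_dvd_mul_left p f))
      · have := Nat.dvd_gcd f (Dvd.intro a' rfl)
        rw [e] at this
        exact hp.one_lt.ne' (Nat.dvd_one.1 this)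
    · have a := Nat.le_of_dvd (by omega) h5
      have b := Nat.mul_le_mul h6 h6
      omega

theorem bad_jump (nu : St_nu) (dj : St_dj) (hF : Facts t n d τ r ψ g ν) (ht : t < 128)
    (hn : n < 262144) {τ' ph j : ℕ} (hτ : τ' ≤ τ) (hph : ψ ≤ ph) (hj : j < t)
    (h : bad t n τ' d r ph j = true) : ν j ≠ ν (j + 1) := by
  intro he
  rw [bad, Bool.or_eq_true] at h
  rcases h with h | h
  · obtain ⟨h1, h2⟩ := badB_not nu dj hF ht hn hτ hph hj h
    have hp := Nat.minFac_prime h1.ne'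
    obtain ⟨h3, h4⟩ := h2 _ hp (Nat.minFac_dvd _)
    exact h4 (hF.jump _ j hp hj (by omega) ((Nat.minFac_dvd _).trans (rough_dvd _ _)) he).1
  · simp only [badS, frc_eq, anyR_iff, Bool.and_eq_true, Bool.or_eq_true, Nat.blt_eq, dv_iff] at h
    obtain ⟨p, -, -, ⟨⟨h1, h2⟩, h3⟩, h4⟩ := h
    refine good_false (p := p) (n := n) (g := g) ?_ hph h4
    rcases h3 with h3 | h3
    · exact hF.jump p j (isP_prime h2) hj h3 h1 he
    · exact hF.tr p j (isP_prime h2) (by omega) h1

theorem hw (nu : St_nu) (dj : St_dj) (hF : Facts t n d τ r ψ g ν) (ht : t < 128)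
    (hn : n < 262144) {τ' ph : ℕ} (hτ : τ' ≤ τ) (hph : ψ ≤ ph) : HW t n g (wf2 t n τ' d r ph) := by
  intro γ W h1 h2
  refine foldR_ind (fun _ x => x ∣ W) _ _ _ _ ?_ fun p x _ _ hx => ?_
  · refine foldR_ind (fun _ x => x ∣ W) _ _ _ _ (one_dvd _) fun j x a b hx => ?_
    cases hb : badB t n τ' d r ph j
    · exact hx
    · have c1 := hF.hτ
      have c2 := hF.hd
      have hj : j < t := by omega
      obtain ⟨-, h3⟩ := badB_not nu dj hF ht hn hτ hph hj hb
      refine Nat.lcm_dvd ?_ hx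
      have h4 : rough t (n - j) ∣ t ! * (γ * W) := by
        rw [← h1, ← Nat.descFactorial_eq_factorial_mul_choose, Nat.descFactorial_eq_prod_range]
        exact (rough_dvd _ _).trans (dvd_prod_of_mem _ (mem_range.2 hj))
      refine Nat.Coprime.dvd_of_dvd_mul_left ?_ (Nat.Coprime.dvd_of_dvd_mul_left ?_ h4)
      · exact Nat.coprime_of_dvd fun p hp hd hg => (h3 p hp hd).2 (hg.trans h2)
      · exact Nat.coprime_of_dvd fun p hp hd hg => by
          have := (h3 p hp hd).1
          have := (hp.dvd_factorial).1 hg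
          omega
  · cases hb : (isP p && t4bad t p (n % p) r)
    · exact hx
    · rw [Bool.and_eq_true] at hb
      have hp := isP_prime hb.1
      refine Nat.lcm_dvd (Nat.Coprime.dvd_of_dvd_mul_left (m := γ) ?_ ?_) hx
      · refine Nat.Coprime.of_dvd_left (Nat.gcd_dvd_right _ _) (Nat.Coprime.pow_left 18 ?_)
        exact (hp.coprime_iff_not_dvd).2 fun hg =>
          good_false (hF.ord p hp (hg.trans h2)) le_rfl (Or.inr hb.2)
      · rw [← h1, ch_eq]; exact Nat.gcd_dvd_left _ _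

end STP

theorem stP_of (jc : St_jc) (nu : St_nu) (dj : St_dj) (hstF : St_stF) (hstF2 : St_stF2) :
    St_stP := by
  intro t n d τ r ψ g ν hF ht hn τ' ph hτ hph h
  have c1 := hF.hτ
  have c2 := hF.hd
  simp only [stP, frc_eq, Bool.or_eq_true, anyR_iff, Nat.blt_eq, cntR_eq, cond_beq] at h
  rcases h with (⟨j, -, h1, h2⟩ | h) | h
  · have := (jc _ _ _ _ _ _ _ _ hF {j} fun i hi => by
      rw [mem_singleton.1 hi]
      exact ⟨by omega, STP.bad_jump nu dj hF ht hn hτ hph (by omega) h2⟩).2.1 j (mem_singleton_self j)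
    omega
  · have := (jc _ _ _ _ _ _ _ _ hF ((Ico d (d + (t - d))).filter fun i =>
      bad t n τ' d r ph i = true) fun i hi => by
      rw [mem_filter, mem_Ico] at hi
      exact ⟨by omega, STP.bad_jump nu dj hF ht hn hτ hph (by omega) hi.2⟩).2.2 fun i hi => by
      rw [mem_filter, mem_Ico] at hi
      exact hi.1.1
    omega
  · have hw := STP.hw nu dj hF ht hn hτ hph
    split_ifs at h with h2
    · subst h2
      exact hstF2 _ _ _ _ _ _ _ hF ht ph _ hph hw h
    · exact hstF _ _ _ _ _ _ _ _ hF ht hn ph _ hph hw h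

end Pool.Agent.H5Hom.Num
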