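import Pool.Agent.Lib.MP_078193_al.NBlue2

/-! Soundness of the four final tests. -/

open Finset
open scoped Nat

namespace Pool.Agent.H5Hom.Num

namespace Tst

lemma core {a a' b x e e' D : ℕ} (hx : 1 ≤ x) (ha : a ≤ a') (he : e ≤ e')
    (h1 : b * D ≤ a * x ^ e) (h2 : a' * x ^ e' < b * D) : False := by
  have := Nat.mul_le_mul ha (Nat.pow_le_pow_right hx he)
  omega

lemma step (t r M f : ℕ) (hM : t * t ≤ 2 * M) (hf : f + 2 < t)
    (h : M.choose (t / 2) * (f + 2).choose (t % 2) ≤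
      r * (f + 2)! * (2 * M) ^ ((t + 1 - (f + 2)) / 2)) :
    M.choose (t / 2) * f.choose (t % 2) ≤ r * f ! * (2 * M) ^ ((t + 1 - f) / 2) := by
  have e : (t + 1 - f) / 2 = (t + 1 - (f + 2)) / 2 + 1 := by omega
  have h1 : (f + 2)! ≤ f ! * (2 * M) := by
    rw [Nat.factorial_succ, Nat.factorial_succ, ← mul_assoc, mul_comm]
    exact Nat.mul_le_mul_left _ ((Nat.mul_le_mul (by omega) (by omega)).trans hM)
  calc M.choose (t / 2) * f.choose (t % 2) ≤ M.choose (t / 2) * (f + 2).choose (t % 2) :=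
        Nat.mul_le_mul_left _ (Nat.choose_le_choose _ (by omega))
    _ ≤ r * (f ! * (2 * M)) * (2 * M) ^ ((t + 1 - (f + 2)) / 2) :=
        h.trans (Nat.mul_le_mul_right _ (Nat.mul_le_mul_left _ h1))
    _ = _ := by rw [e, pow_succ]; ring

lemma desc (t r M c : ℕ) (hM : t * t ≤ 2 * M) : ∀ f, c ≤ f → f < t →
    M.choose (t / 2) * f.choose (t % 2) ≤ r * f ! * (2 * M) ^ ((t + 1 - f) / 2) →
    ∃ f', (f' = c ∨ f' = c + 1) ∧
      M.choose (t / 2) * f'.choose (t % 2) ≤ r * f' ! * (2 * M) ^ ((t + 1 - f') / 2) := by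
  intro f
  induction f using Nat.strong_induction_on with
  | _ f ih =>
    intro h1 h2 h3
    by_cases h4 : f ≤ c + 1
    · exact ⟨f, by omega, h3⟩
    · obtain ⟨f0, rfl⟩ : ∃ f0, f = f0 + 2 := ⟨f - 2, by omega⟩
      exact ih f0 (by omega) (by omega) (by omega) (step t r M f0 hM h2 h3)

lemma fin1 (hm : St_mono) {t f r ρ X M : ℕ} (hr : r ≤ ρ) (hX : (X - t) / 2 ≤ M)
    (h : tI1 t f ρ X = true)
    (h3 : M.choose (t / 2) * f.choose (t % 2) ≤ r * f ! * (2 * M) ^ ((t + 1 - f) / 2)) : False := by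
  have h1 := hm _ _ _ _ _ M h hX
  simp only [fac_eq, ch_eq] at h1
  rw [Nat.descFactorial_eq_factorial_mul_choose] at h1
  have h4 := Nat.mul_le_mul_left (t / 2)!
    (h3.trans (Nat.mul_le_mul_right _ (Nat.mul_le_mul_right _ hr)))
  rw [mul_pow] at h4
  have e1 : ρ * f ! * (t / 2)! * 2 ^ ((t + 1 - f) / 2) * M ^ ((t + 1 - f) / 2) =
      (t / 2)! * (ρ * f ! * (2 ^ ((t + 1 - f) / 2) * M ^ ((t + 1 - f) / 2))) := by ring
  have e2 : f.choose (t % 2) * ((t / 2)! * M.choose (t / 2)) =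
      (t / 2)! * (M.choose (t / 2) * f.choose (t % 2)) := by ring
  rw [e1, e2] at h1
  omega

end Tst

theorem tB0_of (hm : St_mono) (hg : St_gi) : St_tB0 := by
  classical
  intro t n d τ r ψ g ν hF ht hψ hd ρ X hr hX h
  have h1 := hm _ _ _ _ _ (n - τ) h (Nat.sub_le_sub_right hX τ)
  have h2 := hF.b0 hψ hd
  have h3 := hF.hd
  have h4 := hF.hn
  refine Tst.core (by omega) ?_ ?_ h2 h1
  · simp only [cB, fac_eq, lcmU_eq]
    gcongr
  · rw [cntR_eq]
    refine Nat.add_le_add_left (card_le_card fun j hj => ?_) 2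
    simp only [mem_filter, mem_Ico] at hj ⊢
    refine ⟨⟨hj.1.1, by omega⟩, ?_⟩
    rw [Bool.not_eq_true', ← Bool.not_eq_true]
    exact fun e => hj.2 (hg j τ d r τ (τ + 1) ρ (by omega) e le_rfl (by omega) hr)

theorem tB1_of (hm : St_mono) (hg : St_gi) : St_tB1 := by
  classical
  intro t n d τ r ψ g ν hF ht hψ hd ρ X hr hX h
  have h1 := hm _ _ _ _ _ (n - τ) h (Nat.sub_le_sub_right hX τ)
  obtain ⟨a, ha, h2⟩ := hF.b1 hψ hd
  have h3 := hF.hd
  have h4 := hF.hn
  refine Tst.core (by omega) ?_ ?_ h2 h1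
  · simp only [cB, fac_eq, lcmU_eq]
    gcongr
  · rw [cntR_eq, mn_eq]
    refine Nat.add_le_add_left (le_min ?_ (card_le_card fun j hj => ?_)) 1
    · have e : (t - τ - 1) / 2 = (Icc 1 ((t - τ - 1) / 2)).card := by simp
      rw [e]
      refine card_le_card_of_injOn (fun j => (j - τ) / a) (fun j hj => ?_) (fun j hj j' hj' e => ?_)
      · simp only [coe_filter, mem_Ico, Set.mem_ofPred_eq] at hj
        simp only [coe_Icc, Set.mem_Icc]
        refine ⟨Nat.div_pos (Nat.le_of_dvd (by omega) hj.2.1) (by omega), ?_⟩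
        exact (Nat.div_le_div_left ha (by omega)).trans (Nat.div_le_div_right (by omega))
      · simp only [coe_filter, mem_Ico, Set.mem_ofPred_eq] at hj hj'
        have a1 := Nat.div_mul_cancel hj.2.1
        have a2 := Nat.div_mul_cancel hj'.2.1
        simp only at e
        rw [e] at a1
        omega
    · simp only [mem_filter, mem_Ico] at hj ⊢
      have a1 := Nat.le_of_dvd (by omega) hj.2.1
      refine ⟨⟨by omega, by omega⟩, ?_⟩
      rw [Bool.or_eq_true, Nat.beq_eq, Bool.not_eq_true', ← Bool.not_eq_true]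
      rcases hj.2.2 with c | c
      · exact Or.inr fun e => c (hg j τ d r τ (τ + 2) ρ (by omega) e le_rfl (by omega) hr)
      · exact Or.inl c

theorem tO_of : St_tO := by
  intro t n d τ r ψ g ν hF hd ρ X hr hX h
  have h1 := hF.ordr hd
  have h3 := hF.hd
  have h4 := hF.hn
  simp only [tO, Nat.blt_eq, fac_eq, df_eq] at h
  have h5 : (n - (τ + 1)).descFactorial (t - (τ + 1)) * n.descFactorial (τ + 1) =
      n.descFactorial t := Nat.descFactorial_mul_descFactorial (by omega)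
  have h6 : 0 < n.descFactorial (τ + 1) := Nat.descFactorial_pos.2 (by omega)
  have h7 := Nat.descFactorial_le (t - (τ + 1)) (Nat.sub_le_sub_right hX (τ + 1))
  rw [Nat.descFactorial_eq_factorial_mul_choose n t] at h5
  have h8 : t ! * n.choose t ≤ (ρ * t !) * n.descFactorial (τ + 1) :=
    calc t ! * n.choose t ≤ t ! * (ρ * n.descFactorial (τ + 1)) :=
          Nat.mul_le_mul_left _ (h1.trans (Nat.mul_le_mul_right _ hr))
      _ = _ := by ring
  rw [← h5] at h8
  have := Nat.le_of_mul_le_mul_right h8 h6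
  omega

theorem tI_of (hm : St_mono) : St_tI := by
  intro t n d τ r ψ g ν hF τ' ρ X hτ hr hX h
  simp only [tI, Bool.and_eq_true, Nat.ble_eq] at h
  obtain ⟨⟨⟨h1, h2⟩, h3⟩, h4⟩ := h
  have h5 := hF.hn
  have hψ : ψ < t := by
    refine lt_of_le_of_ne hF.hψ fun e => ?_
    obtain ⟨e', a1, -, -, -, a2⟩ := hF.modeB e
    have := Nat.mul_le_mul_left n a1
    omega
  obtain ⟨f, M, b1, b2, b3, b4⟩ := hF.inv hψ (by omega)
  obtain ⟨f', c1, c2⟩ := Tst.desc t r M (τ' - 2) (by omega) f (by omega) b2 b4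
  rcases c1 with rfl | rfl
  · exact Tst.fin1 hm hr (by omega) h3 c2
  · rw [show τ' - 2 + 1 = τ' - 1 by omega] at c2
    exact Tst.fin1 hm hr (by omega) h4 c2

end Pool.Agent.H5Hom.Num
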