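import Pool.Agent.Lib.MP_078193_al.NBlue2

/-! The bound on the product of the reduced orbit sizes. -/

open Finset
open scoped Nat

namespace Pool.Agent.H5Hom.Num

namespace Wb2

theorem amgm (S : Finset ℕ) (z : ℕ → ℕ) (hS : 0 < S.card) :
    (∏ j ∈ S, z j) * S.card ^ S.card ≤ (∑ j ∈ S, z j) ^ S.card := by
  set k := S.card with hk
  have hk0 : (0 : ℝ) < k := by exact_mod_cast hS
  have h := Real.geom_mean_le_arith_mean_weighted S (fun _ => (k : ℝ)⁻¹) (fun j => (z j : ℝ))
    (fun _ _ => by positivity) (by rw [sum_const, nsmul_eq_mul, ← hk]; field_simp)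
    (fun _ _ => by positivity)
  have h2 := pow_le_pow_left₀ (prod_nonneg fun j _ => by positivity) h k
  rw [← prod_pow] at h2
  have h3 : ∀ j ∈ S, ((z j : ℝ) ^ (k : ℝ)⁻¹) ^ k = z j := fun j _ =>
    Real.rpow_inv_natCast_pow (by positivity) (by omega)
  rw [prod_congr rfl h3, ← mul_sum, mul_pow, inv_pow] at h2
  have h4 : (∏ j ∈ S, (z j : ℝ)) * (k : ℝ) ^ k ≤ (∑ j ∈ S, (z j : ℝ)) ^ k := by
    have hp : (0 : ℝ) < (k : ℝ) ^ k := by positivity
    calc (∏ j ∈ S, (z j : ℝ)) * (k : ℝ) ^ k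
        ≤ (((k : ℝ) ^ k)⁻¹ * (∑ j ∈ S, (z j : ℝ)) ^ k) * (k : ℝ) ^ k :=
          mul_le_mul_of_nonneg_right h2 hp.le
      _ = _ := by field_simp
  exact_mod_cast h4

theorem bern (p y : ℕ) (hp : 1 ≤ p) : y * (p - 1) + 1 ≤ p ^ y := by
  obtain ⟨q, rfl⟩ : ∃ q, p = q + 1 := ⟨p - 1, by omega⟩
  rw [Nat.add_sub_cancel]
  induction y with
  | zero => simp
  | succ y ih => rw [pow_succ]; nlinarith [Nat.zero_le (y * q * q)]

theorem le_ms2 (p t r Y : ℕ) (hY : Y ≤ t) (h1 : Y * (p - 1) ≤ t + 1 - r)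
    (h2 : p ^ Y * (r - 1) ^ (r - 1) ≤ t ^ (r - 1)) : Y ≤ ms2 p t r := by
  have h := foldR_ind (fun i x => x < i ∧ (Y < i → Y ≤ x)) 1 t
    (fun x acc => cond (Nat.ble (x * (p - 1)) (t + 1 - r) &&
      Nat.ble (p ^ x * (r - 1) ^ (r - 1)) (t ^ (r - 1))) x acc) 0 ⟨by omega, fun h => by omega⟩
    (by
      intro i x _ _ hx
      cases hc : (Nat.ble (i * (p - 1)) (t + 1 - r) &&
        Nat.ble (p ^ i * (r - 1) ^ (r - 1)) (t ^ (r - 1)))
      · refine ⟨by simp only [cond_false]; omega, fun hi => ?_⟩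
        simp only [cond_false]
        by_cases he : Y = i
        · subst he
          have : (Nat.ble (Y * (p - 1)) (t + 1 - r) &&
            Nat.ble (p ^ Y * (r - 1) ^ (r - 1)) (t ^ (r - 1))) = true := by
            rw [Bool.and_eq_true, Nat.ble_eq, Nat.ble_eq]; exact ⟨h1, h2⟩
          rw [this] at hc; exact absurd hc (by simp)
        · exact hx.2 (by omega)
      · exact ⟨by simp only [cond_true]; omega, fun hi => by simp only [cond_true]; omega⟩)
  exact h.2 (by omega)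

theorem MS_spec (t r : ℕ) (ht : 1 ≤ t) (h128 : t < 128) :
    0 < MS t r ∧ ∀ p, p.Prime → p ≤ t → p ^ ms2 p t r ∣ MS t r := by
  have h := foldR_ind (fun i x => 0 < x ∧ ∀ p, p.Prime → p < i → p ^ ms2 p t r ∣ x) 2 (t - 1)
    (fun p acc => cond (isP p) (p ^ ms2 p t r * acc) acc) 1
    ⟨one_pos, fun p hp h => absurd hp.two_le (by omega)⟩
    (by
      intro i x hi1 hi2 hx
      cases hc : isP i
      · simp only [cond_false]
        refine ⟨hx.1, fun p hp hpi => ?_⟩
        by_cases he : p = i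
        · subst he
          have : isP p = true := (isP_iff p).2 ⟨by omega, hp⟩
          rw [this] at hc; exact absurd hc (by simp)
        · exact hx.2 p hp (by omega)
      · simp only [cond_true]
        refine ⟨Nat.mul_pos (Nat.pow_pos (by omega)) hx.1, fun p hp hpi => ?_⟩
        by_cases he : p = i
        · subst he; exact Dvd.intro _ rfl
        · exact Dvd.dvd.mul_left (hx.2 p hp (by omega)) _)
  exact ⟨h.1, fun p hp hpt => h.2 p hp (by omega)⟩

theorem key {t n d r m γ : ℕ} {w : ℕ → ℕ} {a b : ℕ → ℕ → ℕ} (hI : Inc t n d r m γ w a b)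
    (hr : 2 ≤ r) (p : ℕ) (hp : p.Prime) :
    0 < n - t ∧ (∏ j ∈ range r, w j).factorization p
      ≤ ms2 p t r + (r - 1) * (n - t).factorization p := by
  obtain ⟨j0, hj0, hw0⟩ := hI.prim p hp
  have hm := hI.rm
  have hM : 0 < n - t := by
    rw [← hI.bsum j0 hj0]
    exact sum_pos (fun l hl => hI.bpos l (mem_range.1 hl) j0 hj0) ⟨0, mem_range.2 (by omega)⟩
  refine ⟨hM, ?_⟩
  set s := (n - t).factorization p with hs
  obtain ⟨l, hl, hb⟩ : ∃ l < m, ¬ p ^ (s + 1) ∣ b l j0 := by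
    by_contra hc
    push Not at hc
    have : p ^ (s + 1) ∣ n - t := by
      rw [← hI.bsum j0 hj0]
      exact dvd_sum fun l hl => hc l (mem_range.1 hl)
    exact Nat.pow_succ_factorization_not_dvd hM.ne' hp this
  have ha : ∀ j < r, a l j ≠ 0 := fun j hj => by have := hI.apos l hl j hj; omega
  have hb0 : ∀ j < r, b l j ≠ 0 := fun j hj => by have := hI.bpos l hl j hj; omega
  have hw : ∀ j < r, w j ≠ 0 := fun j hj => by have := hI.wpos j hj; omega
  have hbs : (b l j0).factorization p ≤ s := by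
    by_contra hc
    exact hb ((hp.pow_dvd_iff_le_factorization (hb0 j0 hj0)).2 (by omega))
  have hv0 : (w j0).factorization p = 0 := Nat.factorization_eq_zero_of_not_dvd hw0
  have hv : ∀ j < r, (w j).factorization p ≤ s + (a l j).factorization p := by
    intro j hj
    have h := congrArg (fun x => x.factorization p) (hI.prop l hl j0 hj0 j hj)
    simp only [Nat.factorization_mul (mul_ne_zero (hw _ hj0) (hb0 _ hj0)) (ha _ hj),
      Nat.factorization_mul (mul_ne_zero (hw _ hj) (hb0 _ hj)) (ha _ hj0),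
      Nat.factorization_mul (hw _ hj0) (hb0 _ hj0), Nat.factorization_mul (hw _ hj) (hb0 _ hj),
      Finsupp.add_apply] at h
    omega
  set S := (range r).erase j0 with hS
  have hSc : S.card = r - 1 := by rw [hS, card_erase_of_mem (mem_range.2 hj0), card_range]
  have hSr : ∀ j ∈ S, j < r := fun j hj => mem_range.1 (mem_of_mem_erase hj)
  have hsum : ∑ j ∈ S, a l j ≤ t := by
    have h1 := add_sum_erase (range r) (a l) (mem_range.2 hj0)
    have h2 := hI.asum l hl
    have h3 := hI.apos l hl j0 hj0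
    rw [← hS] at h1
    omega
  set Y := ∑ j ∈ S, (a l j).factorization p with hY
  have hpa : ∀ j ∈ S, p ^ (a l j).factorization p ≤ a l j := fun j hj =>
    Nat.le_of_dvd (Nat.pos_of_ne_zero (ha j (hSr j hj))) (Nat.ordProj_dvd _ _)
  have h1 : Y * (p - 1) + (r - 1) ≤ t := by
    calc Y * (p - 1) + (r - 1) = ∑ j ∈ S, ((a l j).factorization p * (p - 1) + 1) := by
          rw [sum_add_distrib, ← sum_mul, sum_const, hSc, smul_eq_mul, mul_one]
      _ ≤ ∑ j ∈ S, a l j := sum_le_sum fun j hj => (bern p _ hp.one_le).trans (hpa j hj)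
      _ ≤ t := hsum
  have h2 : p ^ Y * (r - 1) ^ (r - 1) ≤ t ^ (r - 1) := by
    have h3 := amgm S (a l) (by omega)
    rw [hSc] at h3
    calc p ^ Y * (r - 1) ^ (r - 1) ≤ (∏ j ∈ S, a l j) * (r - 1) ^ (r - 1) := by
          refine Nat.mul_le_mul_right _ ?_
          rw [hY, ← prod_pow_eq_pow_sum]
          exact prod_le_prod' hpa
      _ ≤ (∑ j ∈ S, a l j) ^ (r - 1) := h3
      _ ≤ t ^ (r - 1) := Nat.pow_le_pow_left hsum _
  have hYt : Y ≤ t := by
    have : Y * 1 ≤ Y * (p - 1) := Nat.mul_le_mul_left _ (by have := hp.two_le; omega)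
    omega
  have hYm := le_ms2 p t r Y hYt (by omega) h2
  rw [Nat.factorization_prod fun j hj => hw j (mem_range.1 hj), Finsupp.finsetSum_apply,
    ← add_sum_erase (range r) (fun j => (w j).factorization p) (mem_range.2 hj0), hv0, zero_add,
    ← hS]
  calc ∑ j ∈ S, (w j).factorization p ≤ ∑ j ∈ S, (s + (a l j).factorization p) :=
        sum_le_sum fun j hj => hv j (hSr j hj)
    _ = (r - 1) * s + Y := by rw [sum_add_distrib, sum_const, hSc, smul_eq_mul]
    _ ≤ _ := by omega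

end Wb2

theorem wb2_of : St_wb2 := by
  intro t n d r m γ e w a b hI hr ht hn he1 he2 hw
  have hM := (Wb2.key hI hr 2 Nat.prime_two).1
  obtain ⟨hMS, hMS2⟩ := Wb2.MS_spec t r (by omega) ht
  have hG : 0 < Nat.gcd (n - t) ((t + 1)! ^ 18) := Nat.gcd_pos_of_pos_left _ hM
  refine Nat.le_of_dvd (Nat.mul_pos hMS (Nat.pow_pos hG)) ?_
  refine (Nat.dvd_iff_prime_pow_dvd_dvd _ _).2 fun p k hp hk => ?_
  rcases Nat.eq_zero_or_pos k with rfl | hk0
  · simp
  have hw0 : ∏ j ∈ range r, w j ≠ 0 :=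
    prod_ne_zero_iff.2 fun j hj => by have := hI.wpos j (mem_range.1 hj); omega
  have hpt : p ≤ t := by
    obtain ⟨j, hj, hpj⟩ := (Prime.dvd_finsetProd_iff hp.prime _).1
      ((dvd_pow_self p hk0.ne').trans hk)
    rcases (Nat.Prime.dvd_mul hp).1 (hpj.trans (hw j (mem_range.1 hj))) with h | h
    · exact (hp.dvd_factorial).1 h
    · exact (Nat.le_of_dvd he1 h).trans he2
  have hk2 := ((hp.pow_dvd_iff_le_factorization hw0).1 hk).trans (Wb2.key hI hr p hp).2
  set s := (n - t).factorization p with hs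
  have hs1 : p ^ s ∣ n - t := Nat.ordProj_dvd _ _
  have hs18 : s ≤ 18 := by
    by_contra hc
    have h1 : 2 ^ 18 ≤ p ^ s :=
      (Nat.pow_le_pow_right (by norm_num) (by omega)).trans (Nat.pow_le_pow_left hp.two_le s)
    have h2 := Nat.le_of_dvd hM hs1
    omega
  have hs2 : p ^ s ∣ (t + 1)! ^ 18 :=
    (pow_dvd_pow p hs18).trans (pow_dvd_pow_of_dvd (hp.dvd_factorial.2 (by omega)) 18)
  refine (pow_dvd_pow p hk2).trans ?_
  rw [pow_add, mul_comm (r - 1) s, pow_mul]
  exact mul_dvd_mul (hMS2 p hp hpt) (pow_dvd_pow_of_dvd (Nat.dvd_gcd hs1 hs2) _)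

end Pool.Agent.H5Hom.Num
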