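import Pool.Agent.Lib.MP_078193_al.NAri1
import Pool.Agent.Lib.MP_078193_al.NAri2
import Pool.Agent.Lib.MP_078193_al.NGi
import Pool.Agent.Lib.MP_078193_al.NErd
import Pool.Agent.Lib.MP_078193_al.NTst
import Pool.Agent.Lib.MP_078193_al.NBig
import Pool.Agent.Lib.MP_078193_al.NMask
import Pool.Agent.Lib.MP_078193_al.NRunS
import Pool.Agent.Lib.MP_078193_al.NStM
import Pool.Agent.Lib.MP_078193_al.NStP
import Pool.Agent.Lib.MP_078193_al.NDef
import Pool.Agent.Lib.MP_078193_al.NWb2
import Pool.Agent.Lib.MP_078193_al.NKbad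
import Pool.Agent.Lib.MP_078193_al.NLam
import Pool.Agent.Lib.MP_078193_al.NStF
import Pool.Agent.Lib.MP_078193_al.NRB2
import Pool.Agent.Lib.MP_078193_al.NRunAll

/-! The arithmetic theorem for `t < 128`. -/

namespace Pool.Agent.H5Hom.Num

theorem djA : St_dj := dj_of gi_of d3_of

theorem finA : St_fin := fin_of def_of vpd_of kbad_of

theorem stPA : St_stP :=
  stP_of jc_of nu_of djA (stF_of enum_of wb1_of wb2_of (lam_of d3_of) finA)
    (stF2_of wb1_of (lam_of d3_of) finA)

theorem stMA : St_stM :=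
  stM_of t4_of mB_of jc_of vr_of d3_of djA tO_of mult_of (R1_of mult_of) scan_of hiW_of run_of stPA

theorem bigA' : St_big :=
  big_of t4_of vr_of (erd_of jc_of nu_of mono_of) (tB0_of mono_of gi_of) (tB1_of mono_of gi_of)
    tO_of (tI_of mono_of)

theorem RB_ok : RBok RB := by
  have h : bigR = RB := Nat.eq_of_beq_eq_true bigR_eq
  exact h ▸ bigR_of mult_of

theorem smallA (t n d τ r ψ g : ℕ) (ν : ℕ → ℕ) (hF : Facts t n d τ r ψ g ν) (ht : t < 128) :
    False := small_of stMA bigA' RB RB_ok runs t n d τ r ψ g ν hF ht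

end Pool.Agent.H5Hom.Num
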