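import Pool.Agent.Lib.MP_078193_al.NFacts

/-! Large `t`: bounds for the reduced number of `t`-sets and the product of Erdős. -/

open Finset
open scoped Nat

namespace Pool.Agent.H5Hom

namespace Tail

variable {t n d τ r ψ g m γ : ℕ} {ν w : ℕ → ℕ} {a b : ℕ → ℕ → ℕ}

lemma wb1 (h : Inc t n d r m γ w a b) (hn : t < n) {j : ℕ} (hj : j < r) :
    ∑ i ∈ range r, w i ≤ (t + 1) * w j := by
  have h1 : ∀ l ∈ range m, ∑ i ∈ range r, w i * b l i ≤ (t + 1) * w j * b l j := by
    intro l hl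
    have hl := mem_range.1 hl
    calc ∑ i ∈ range r, w i * b l i ≤ ∑ i ∈ range r, w i * b l i * a l j :=
          sum_le_sum fun i _ => Nat.le_mul_of_pos_right _ (h.apos l hl j hj)
      _ = ∑ i ∈ range r, w j * b l j * a l i :=
          sum_congr rfl fun i hi => h.prop l hl i (mem_range.1 hi) j hj
      _ = _ := by rw [← mul_sum, h.asum l hl]; ring
  have h2 := sum_le_sum h1
  rw [sum_comm, ← mul_sum, h.bsum j hj, sum_congr rfl (g := fun i => w i * (n - t))
    (fun i hi => by rw [← mul_sum, h.bsum i (mem_range.1 hi)]), ← sum_mul] at h2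
  exact Nat.le_of_mul_le_mul_right h2 (by omega)

lemma key (h : Inc t n d r m γ w a b) {l i j p : ℕ} (hl : l < m) (hi : i < r) (hj : j < r)
    (hw : ¬ p ∣ w i) :
    (w j).factorization p ≤ (b l i).factorization p + (a l j).factorization p := by
  have e := congrArg (fun x : ℕ => x.factorization p) (h.prop l hl i hi j hj)
  have a1 := h.wpos i hi
  have a2 := h.wpos j hj
  have a3 := h.apos l hl i hi
  have a4 := h.apos l hl j hj
  have a5 := h.bpos l hl i hi
  have a6 := h.bpos l hl j hj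
  rw [Nat.factorization_mul (by positivity) (by positivity),
    Nat.factorization_mul (by positivity) (by positivity),
    Nat.factorization_mul (by positivity) (by positivity),
    Nat.factorization_mul (by positivity) (by positivity)] at e
  simp only [Finsupp.add_apply, Nat.factorization_eq_zero_of_not_dvd hw] at e
  omega

lemma ble (h : Inc t n d r m γ w a b) {l i : ℕ} (hl : l < m) (hi : i < r) : b l i ≤ n - t :=
  h.bsum i hi ▸ single_le_sum (f := fun l => b l i) (fun _ _ => Nat.zero_le _) (mem_range.2 hl)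

lemma wb2 (h : Inc t n d r m γ w a b) (hr : 2 ≤ r) :
    ∑ i ∈ range r, w i ≤ (t + 1) * (n - t) ^ (r - 1) := by
  have hm : 0 < m := by have := h.rm; omega
  rw [← h.asum 0 hm, sum_mul]
  refine sum_le_sum fun j hj => ?_
  have hj' := mem_range.1 hj
  have a1 := h.wpos j hj'
  have a2 := h.apos 0 hm j hj'
  have a3 : 0 < ∏ i ∈ (range r).erase j, b 0 i :=
    prod_pos fun i hi => h.bpos 0 hm i (mem_range.1 (mem_of_mem_erase hi))
  have h1 : w j ∣ a 0 j * ∏ i ∈ (range r).erase j, b 0 i := by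
    refine (Nat.factorization_prime_le_iff_dvd (by omega) (by positivity)).1 fun p hp => ?_
    obtain ⟨i, hi, hw⟩ := h.prim p hp
    by_cases e : i = j
    · rw [Nat.factorization_eq_zero_of_not_dvd (e ▸ hw)]; exact Nat.zero_le _
    have := (Nat.factorization_le_iff_dvd (by have := h.bpos 0 hm i hi; omega) a3.ne').2
      (dvd_prod_of_mem (b 0) (mem_erase.2 ⟨e, mem_range.2 hi⟩)) p
    have := key h hm hi hj' hw
    rw [Nat.factorization_mul (by omega) a3.ne', Finsupp.add_apply]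
    omega
  refine (Nat.le_of_dvd (by positivity) h1).trans (Nat.mul_le_mul_left _ ?_)
  have := prod_le_pow_card ((range r).erase j) (b 0) (n - t)
    fun i hi => ble h hm (mem_range.1 (mem_of_mem_erase hi))
  rwa [card_erase_of_mem hj, card_range] at this

lemma wb3 (h : Inc t n d r m γ w a b) (hn : t < n) :
    ∏ j ∈ range r, w j ∣ (n - t) ^ r * (t + 1)! := by
  have a0 : ∀ j ∈ range r, w j ≠ 0 := fun j hj => by have := h.wpos j (mem_range.1 hj); omega
  have hN : n - t ≠ 0 := by omega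
  refine (Nat.factorization_prime_le_iff_dvd (prod_ne_zero_iff.2 a0) (by positivity)).1
    fun p hp => ?_
  obtain ⟨i, hi, hw⟩ := h.prim p hp
  obtain ⟨l, hl, hb⟩ : ∃ l < m, (b l i).factorization p ≤ (n - t).factorization p := by
    by_contra! hc
    refine Nat.pow_succ_factorization_not_dvd hN hp ?_
    conv_rhs => rw [← h.bsum i hi]
    refine dvd_sum fun l hl => ?_
    have := h.bpos l (mem_range.1 hl) i hi
    exact (hp.pow_dvd_iff_le_factorization (by omega)).2 (hc l (mem_range.1 hl))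
  have a1 : ∀ j ∈ range r, a l j ≠ 0 := fun j hj => by
    have := h.apos l hl j (mem_range.1 hj); omega
  have h1 : ∏ j ∈ range r, a l j ∣ (t + 1)! := by
    rw [← h.asum l hl]
    exact (prod_dvd_prod_of_dvd _ _ fun j hj =>
      Nat.dvd_factorial (Nat.pos_of_ne_zero (a1 j hj)) le_rfl).trans
      (Nat.prod_factorial_dvd_factorial_sum _ _)
  have h2 := (Nat.factorization_le_iff_dvd (prod_ne_zero_iff.2 a1) (by positivity)).2 h1 p
  rw [Nat.factorization_prod_apply a1] at h2
  rw [Nat.factorization_prod_apply a0, Nat.factorization_mul (by positivity) (by positivity),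
    Nat.factorization_pow, Finsupp.add_apply, Finsupp.smul_apply, smul_eq_mul]
  have h3 : ∑ j ∈ range r, (w j).factorization p
      ≤ ∑ j ∈ range r, ((n - t).factorization p + (a l j).factorization p) :=
    sum_le_sum fun j hj => (key h hl hi (mem_range.1 hj) hw).trans (by omega)
  rw [sum_add_distrib, sum_const, card_range, smul_eq_mul] at h3
  omega

lemma wb (h : Inc t n d r m γ w a b) (hr : 2 ≤ r) (hn : 2 * t + 1 ≤ n) {σ : ℕ}
    (hσ : (t + 1)! ≤ (n - t) ^ (σ * (σ + 3))) : ∑ i ∈ range r, w i ≤ (n - t) ^ (σ + 2) := by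
  have hN : t + 1 ≤ n - t := by omega
  have h0 : 0 < n - t := by omega
  rcases le_or_gt r (σ + 2) with h1 | h1
  · refine (wb2 h hr).trans ?_
    rw [pow_succ']
    exact Nat.mul_le_mul hN (Nat.pow_le_pow_right h0 (by omega))
  · refine (Nat.pow_le_pow_iff_left (n := r) (by omega)).1 ?_
    calc (∑ i ∈ range r, w i) ^ r = ∏ _j ∈ range r, ∑ i ∈ range r, w i := by simp
      _ ≤ ∏ j ∈ range r, (n - t) * w j := prod_le_prod' fun j hj =>
          (wb1 h (by omega) (mem_range.1 hj)).trans (Nat.mul_le_mul_right _ hN)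
      _ = (n - t) ^ r * ∏ j ∈ range r, w j := by rw [prod_mul_distrib]; simp
      _ ≤ (n - t) ^ r * ((n - t) ^ r * (n - t) ^ (σ * r)) := by
          refine Nat.mul_le_mul_left _ ((Nat.le_of_dvd (by positivity) (wb3 h (by omega))).trans
            (Nat.mul_le_mul_left _ (hσ.trans (Nat.pow_le_pow_right h0 ?_))))
          exact Nat.mul_le_mul_left _ h1
      _ = _ := by rw [← pow_mul, ← pow_add, ← pow_add]; congr 1; ring

lemma exW (F : Facts t n d τ r ψ g ν) : ∃ W γ, n.choose t = γ * W ∧ γ ∣ g ∧ 0 < W ∧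
    ∀ σ, (t + 1)! ≤ (n - t) ^ (σ * (σ + 3)) → W ≤ (n - t) ^ (σ + 2) := by
  obtain ⟨m, γ, Λ, e, w, a, b, h, hg, -⟩ := F.inc
  refine ⟨_, γ, h.tot, hg ▸ Dvd.intro _ rfl, ?_, fun σ => wb h F.r2 F.hn⟩
  have := Nat.choose_pos (n := n) (k := t) (by have := F.hn; omega)
  rw [h.tot] at this
  exact Nat.pos_of_mul_pos_left this

lemma nu_le (F : Facts t n d τ r ψ g ν) {i : ℕ} (hi : i ≤ t) : ν i ≤ r := by
  rw [← F.top]
  induction hi using Nat.decreasingInduction with
  | self => exact le_rfl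
  | of_succ k hk ih => exact (F.mono k hk).trans ih

lemma big (F : Facts t n d τ r ψ g ν) {j₀ : ℕ} (hj : t * n ≤ j₀.choose (j₀ / 2)) {p j : ℕ}
    (hp : p.Prime) (htp : t < p) (h1 : j₀ ≤ j) (h2 : j < t) (hd : p ∣ n - j) : ¬ p ∣ g := by
  intro hg
  have a1 := F.s1 p j hp htp h2 hd hg (j₀ / 2) (by omega)
  have a2 := nu_le F (i := j₀ / 2) (by omega)
  have a3 := Nat.choose_le_choose (j₀ / 2) h1
  have a4 : ν (j₀ / 2) * (n - j - 1) ≤ t * (n - 1) :=
    Nat.mul_le_mul (by have := F.rd; have := F.hd; omega) (by omega)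
  have a5 : t * (n - 1) < t * n :=
    Nat.mul_lt_mul_of_pos_left (by have := F.hn; omega) (by omega)
  omega

/-- few primes just below `n` -/
lemma win (F : Facts t n d τ r ψ g ν) {j₀ σ : ℕ} (hj : t * n ≤ j₀.choose (j₀ / 2))
    (hσ : (t + 1)! ≤ (n - t) ^ (σ * (σ + 3))) :
    ((Ioc (n - t) (n - j₀)).filter Nat.Prime).card < σ + 2 := by
  obtain ⟨W, γ, h1, h2, h3, h4⟩ := exW F
  have hn := F.hn
  set P := (Ioc (n - t) (n - j₀)).filter Nat.Prime
  have hP : ∀ q ∈ P, q.Prime ∧ n - t < q ∧ q ≤ n - j₀ := fun q hq => by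
    have := mem_filter.1 hq
    exact ⟨this.2, mem_Ioc.1 this.1⟩
  have h5 : ∏ q ∈ P, q ∣ W := by
    refine Finset.prod_primes_dvd _ (fun q hq => (hP q hq).1.prime) fun q hq => ?_
    obtain ⟨b1, b2, b3⟩ := hP q hq
    have b4 := big F hj b1 (by omega) (j := n - q) (by omega) (by omega)
      (by rw [Nat.sub_sub_self (by omega)])
    have b5 : q ∣ γ * W := h1 ▸ b1.dvd_choose (by omega) b2 (by omega)
    exact ((Nat.Prime.dvd_mul b1).1 b5).resolve_left fun h => b4 (h.trans h2)
  have h6 := pow_card_le_prod P (fun q => q) (n - t + 1) fun q hq => (hP q hq).2.1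
  by_contra! hc
  have h7 := Nat.pow_le_pow_right (show 0 < n - t + 1 by omega) hc
  have h8 := Nat.pow_lt_pow_left (show n - t < n - t + 1 by omega) (show σ + 2 ≠ 0 by omega)
  have := Nat.le_of_dvd h3 h5
  have := h4 σ hσ
  omega

/-- the part of the binomial coefficient made of primes `≤ t` -/
def sm (n t : ℕ) : ℕ := ∏ p ∈ Nat.primesLE t, p ^ (n.choose t).factorization p

lemma erd (F : Facts t n d τ r ψ g ν) {j₀ σ : ℕ} (hj : t * n ≤ j₀.choose (j₀ / 2)) (hjt : j₀ ≤ t)
    (hσ : (t + 1)! ≤ (n - t) ^ (σ * (σ + 3))) : n.choose t ≤ n ^ (σ + 2 + j₀) * sm n t := by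
  obtain ⟨W, γ, h1, h2, h3, h4⟩ := exW F
  have hn := F.hn
  have hC := Nat.choose_pos (n := n) (k := t) (by omega)
  have hs : 0 < sm n t := prod_pos fun p hp => pow_pos (Nat.prime_of_mem_primesLE hp).pos _
  have hD := Nat.descFactorial_pos.2 (show j₀ ≤ n by omega)
  have h5 : n.choose t ∣ W * n.descFactorial j₀ * sm n t := by
    refine (Nat.dvd_iff_prime_pow_dvd_dvd _ _).2 fun p k hp hk => ?_
    rcases le_or_gt p t with h | h
    · exact ((pow_dvd_pow p ((hp.pow_dvd_iff_le_factorization hC.ne').1 hk)).trans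
        (dvd_prod_of_mem (fun p => p ^ (n.choose t).factorization p)
          (Nat.mem_primesLE.2 ⟨h, hp⟩))).mul_left _
    refine Dvd.dvd.mul_right ?_ _
    by_cases hg : p ∣ g
    · refine Dvd.dvd.mul_left ?_ _
      have b1 : p ^ k ∣ (n - j₀).descFactorial (t - j₀) * n.descFactorial j₀ := by
        rw [Nat.descFactorial_mul_descFactorial hjt, Nat.descFactorial_eq_factorial_mul_choose]
        exact hk.mul_left _
      refine (Nat.Coprime.pow_left k (hp.coprime_iff_not_dvd.2 fun hd => ?_)).dvd_of_dvd_mul_left b1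
      rw [Nat.descFactorial_eq_prod_range] at hd
      obtain ⟨i, hi, hi'⟩ := (hp.prime.dvd_finsetProd_iff _).1 hd
      have := mem_range.1 hi
      exact big F hj hp h (j := j₀ + i) (by omega) (by omega) (by rwa [← Nat.sub_sub]) hg
    · refine Dvd.dvd.mul_right ?_ _
      rw [h1] at hk
      exact (Nat.Coprime.pow_left k
        (hp.coprime_iff_not_dvd.2 fun hd => hg (hd.trans h2))).dvd_of_dvd_mul_left hk
  refine (Nat.le_of_dvd (by positivity) h5).trans (Nat.mul_le_mul_right _ ?_)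
  rw [pow_add]
  exact Nat.mul_le_mul ((h4 σ hσ).trans (Nat.pow_le_pow_left (by omega) _))
    (Nat.descFactorial_le_pow _ _)

lemma sm_le1 (hn : 0 < n) : sm n t ≤ n ^ (Nat.primesLE t).card :=
  prod_le_pow_card _ _ _ fun _ _ => Nat.pow_factorization_choose_le hn

lemma sm_le3 (hn : 2 * t + 1 ≤ n) {s x : ℕ} (hs : n < (s + 1) ^ 2) (h2 : 2 ≤ x)
    (hx : t ≤ x ∨ n < 3 * (x + 1)) : sm n t ≤ n ^ (Nat.primesLE s).card
      * ∏ p ∈ (Nat.primesLE x).filter (s < ·), p := by
  have h1 : sm n t ≤ ∏ p ∈ Nat.primesLE t,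
      (if p ≤ s then n else 1) * (if s < p ∧ p ≤ x then p else 1) := by
    refine prod_le_prod' fun p hp => ?_
    obtain ⟨b1, b2⟩ := Nat.mem_primesLE.1 hp
    have b3 := b2.pos
    by_cases c1 : p ≤ s
    · rw [if_pos c1, if_neg (by omega), mul_one]
      exact Nat.pow_factorization_choose_le (by omega)
    rw [if_neg c1, one_mul]
    by_cases c2 : p ≤ x
    · rw [if_pos ⟨by omega, c2⟩]
      exact (Nat.pow_le_pow_right b3 (Nat.factorization_choose_le_one
        (hs.trans_le (Nat.pow_le_pow_left (by omega) _)))).trans (pow_one p).le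
    · rw [Nat.factorization_choose_of_lt_three_mul (by omega) b1 (by omega) (by omega),
        if_neg (by omega), pow_zero]
  refine h1.trans ?_
  rw [prod_mul_distrib, ← prod_filter, ← prod_filter, prod_const]
  refine Nat.mul_le_mul (Nat.pow_le_pow_right (by omega) (card_le_card fun p hp => ?_))
    (prod_le_prod_of_subset_of_one_le' (fun p hp => ?_) fun p hp _ =>
      (Nat.prime_of_mem_primesLE (mem_filter.1 hp).1).pos)
  · obtain ⟨b1, b2⟩ := mem_filter.1 hp
    exact Nat.mem_primesLE.2 ⟨b2, Nat.prime_of_mem_primesLE b1⟩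
  · obtain ⟨b1, b2⟩ := mem_filter.1 hp
    exact mem_filter.2 ⟨Nat.mem_primesLE.2 ⟨b2.2, Nat.prime_of_mem_primesLE b1⟩, b2.1⟩

lemma prim_eq (x : ℕ) : primorial x = ∏ p ∈ Nat.primesLE x, p := rfl

lemma sm_le2 (hn : 2 * t + 1 ≤ n) {s x : ℕ} (hs : n < (s + 1) ^ 2) (h2 : 2 ≤ x)
    (hx : t ≤ x ∨ n < 3 * (x + 1)) : sm n t ≤ n ^ (Nat.primesLE s).card * primorial x :=
  (sm_le3 hn hs h2 hx).trans (Nat.mul_le_mul_left _ (prod_le_prod_of_subset_of_one_le'
    (filter_subset _ _) fun _ hp _ => (Nat.prime_of_mem_primesLE hp).pos))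

lemma sm_le4 (hn : 2 * t + 1 ≤ n) {s x : ℕ} (hs : n < (s + 1) ^ 2) (h2 : 2 ≤ x) (hx : t ≤ x)
    (hsx : s ≤ x) : sm n t * primorial s ≤ n ^ (Nat.primesLE s).card * primorial x := by
  refine (Nat.mul_le_mul_right _ (sm_le3 hn hs h2 (Or.inl hx))).trans (le_of_eq ?_)
  have e : Nat.primesLE s = (Nat.primesLE x).filter (fun p => ¬ s < p) := by
    ext p
    simp only [mem_filter, Nat.mem_primesLE]
    exact ⟨fun h => ⟨⟨by omega, h.2⟩, by omega⟩, fun h => ⟨by omega, h.1.2⟩⟩
  rw [mul_assoc, prim_eq x, ← prod_filter_mul_prod_filter_not x.primesLE (s < ·), prim_eq, ← e]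

end Tail

end Pool.Agent.H5Hom
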