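import Pool.Agent.Lib.MP_078193_al.NTailA

/-! Large `t`: the range `n ≥ t ^ 9`. -/

open Finset
open scoped Nat

namespace Pool.Agent.H5Hom

namespace Tail

variable {t n d τ r ψ g : ℕ} {ν : ℕ → ℕ}

lemma expo {e c k : ℕ} (ht : 2 ≤ t) (hn : t ^ 9 ≤ n) (h : n ^ (k + e) ≤ t ^ c * n ^ k) :
    9 * e ≤ c := by
  have h0 : 0 < n := lt_of_lt_of_le (by positivity) hn
  rw [pow_add, mul_comm] at h
  have h1 := Nat.le_of_mul_le_mul_right h (by positivity)
  refine (Nat.pow_le_pow_iff_right (a := t) (by omega)).1 ?_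
  rw [pow_mul]
  exact (Nat.pow_le_pow_left hn e).trans h1

lemma fac_le {k : ℕ} (h : k ≤ t) : k ! ≤ t ^ k :=
  (Nat.factorial_le_pow k).trans (Nat.pow_le_pow_left h k)

lemma pow_le_desc {x k c : ℕ} (h : n ≤ c * (x + 1 - k)) : n ^ k ≤ c ^ k * x.descFactorial k := by
  refine (Nat.pow_le_pow_left h k).trans ?_
  rw [mul_pow]
  exact Nat.mul_le_mul_left _ (Nat.pow_sub_le_descFactorial x k)

lemma lcm_le (k : ℕ) : Nat.lcmUpto k ≤ k ^ (Nat.primesLE k).card := by
  rw [Nat.lcmUpto_eq_prod_pow_log]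
  refine prod_le_pow_card _ _ _ fun p hp => Nat.pow_log_le_self p ?_
  have := Nat.mem_primesLE.1 hp
  have := this.2.pos
  omega

lemma sq_lt (ht : 128 ≤ t) (hn : t ^ 9 ≤ n) : 8 * (t * t) ≤ n := by
  refine le_trans ?_ ((Nat.pow_le_pow_right (by omega) (show 3 ≤ 9 by omega)).trans hn)
  rw [pow_succ', sq]
  exact Nat.mul_le_mul_right _ (by omega)

lemma psi_lt (F : Facts t n d τ r ψ g ν) (hn : t * t ≤ n) : ψ < t := by
  refine lt_of_le_of_ne F.hψ fun h => ?_
  obtain ⟨e, b1, -, -, -, b2⟩ := F.modeB h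
  have := Nat.mul_le_mul_left n b1
  have := F.ht
  omega

lemma tau_lt (F : Facts t n d τ r ψ g ν) (ht : 128 ≤ t) (hn : t ^ 9 ≤ n) : 2 * τ + 3 ≤ t := by
  by_contra! hc
  have h8 := sq_lt ht hn
  have h9 : 128 * t ≤ t * t := Nat.mul_le_mul_right _ ht
  obtain ⟨f, M, b1, b2, b3, b4⟩ := F.inv (psi_lt F (by omega)) (by omega)
  have c1 : 0 < f.choose (t % 2) := Nat.choose_pos (by omega)
  have c2 : M.choose (t / 2) ≤ t * t ^ f * n ^ ((t + 1 - f) / 2) :=
    (Nat.le_mul_of_pos_right _ c1).trans (b4.trans (Nat.mul_le_mul (Nat.mul_le_mul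
      (by have := F.rd; have := F.hd; omega) (fac_le b2.le)) (Nat.pow_le_pow_left (by omega) _)))
  have c3 := pow_le_desc (n := n) (x := M) (k := t / 2) (c := 4) (by omega)
  rw [Nat.descFactorial_eq_factorial_mul_choose] at c3
  obtain ⟨e, he⟩ : ∃ e, t / 2 = (t + 1 - f) / 2 + e := ⟨t / 2 - (t + 1 - f) / 2, by omega⟩
  have := expo (e := e) (c := t / 2 + t / 2 + (f + 1)) (k := (t + 1 - f) / 2) (by omega) hn (by
    rw [← he]
    refine c3.trans ?_
    calc _ ≤ t ^ (t / 2) * (t ^ (t / 2) * (t * t ^ f * n ^ ((t + 1 - f) / 2))) :=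
          Nat.mul_le_mul (Nat.pow_le_pow_left (by omega) _)
            (Nat.mul_le_mul (fac_le (by omega)) c2)
      _ = _ := by ring)
  omega

lemma not_lw (F : Facts t n d τ r ψ g ν) (ht : 128 ≤ t) (hn : t ^ 9 ≤ n) : d ≤ τ + 2 := by
  by_contra! hc
  have h8 := sq_lt ht hn
  have h9 : 128 * t ≤ t * t := Nat.mul_le_mul_right _ ht
  have h1 := tau_lt F ht hn
  have c2 : n.choose t ≤ t * n ^ (τ + 1) := (F.ordr hc).trans (Nat.mul_le_mul
    (by have := F.rd; have := F.hd; omega) (Nat.descFactorial_le_pow _ _))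
  have c3 := pow_le_desc (n := n) (x := n) (k := t) (c := 2) (by omega)
  rw [Nat.descFactorial_eq_factorial_mul_choose] at c3
  obtain ⟨e, he⟩ : ∃ e, t = τ + 1 + e := ⟨t - (τ + 1), by omega⟩
  have := expo (e := e) (c := t + t + 1) (k := τ + 1) (by omega) hn (by
    rw [← he]
    refine c3.trans ?_
    calc _ ≤ t ^ t * (t ^ t * (t * n ^ (τ + 1))) :=
          Nat.mul_le_mul (Nat.pow_le_pow_left (by omega) _) (Nat.mul_le_mul (fac_le le_rfl) c2)
      _ = _ := by ring)
  omega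

lemma not_b1 (F : Facts t n d τ r ψ g ν) (ht : 128 ≤ t) (hn : t ^ 9 ≤ n) : d = τ + 1 := by
  classical
  have h0 := not_lw F ht hn
  have h0' := F.hτ
  by_contra hc
  have h8 := sq_lt ht hn
  have h9 : 128 * t ≤ t * t := Nat.mul_le_mul_right _ ht
  have h1 := tau_lt F ht hn
  obtain ⟨a, ha, b1⟩ := F.b1 (psi_lt F (by omega)) (by omega)
  generalize hβ : card _ = β at b1
  have c1 : β ≤ (t - τ - 1) / 2 := by
    rw [← hβ, ← Nat.add_sub_cancel (n := (t - τ - 1) / 2) (m := 1), ← Nat.card_Icc]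
    refine card_le_card_of_injOn (fun j => (j - τ) / a) (fun j hj => ?_) fun i hi j hj e => ?_
    · obtain ⟨b2, b3, -⟩ := mem_filter.1 (mem_coe.1 hj)
      have := mem_Ico.1 b2
      exact mem_coe.2 (mem_Icc.2 ⟨Nat.div_pos (Nat.le_of_dvd (by omega) b3) (by omega),
        Nat.div_le_div (by omega) ha (by omega)⟩)
    · obtain ⟨b2, b3, -⟩ := mem_filter.1 (mem_coe.1 hi)
      obtain ⟨b4, b5, -⟩ := mem_filter.1 (mem_coe.1 hj)
      have := mem_Ico.1 b2
      have := mem_Ico.1 b4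
      have := (Nat.div_left_inj b3 b5).1 e
      omega
  have c3 := pow_le_desc (n := n) (x := n - τ) (k := t - τ) (c := 2) (by omega)
  have c4 : 2 ^ (t - τ) ≤ t ^ ((t - τ) / 7 + 1) :=
    (Nat.pow_le_pow_right (by omega) (show t - τ ≤ 7 * ((t - τ) / 7 + 1) by omega)).trans
      (by rw [pow_mul]; exact Nat.pow_le_pow_left ht _)
  have c5 : (n - τ).descFactorial (t - τ)
      ≤ t * t ^ t * t ^ (t - τ - 1) * t ^ (t - τ - 1) * n ^ (1 + β) :=
    (Nat.le_mul_of_pos_left _ two_pos).trans (b1.trans (Nat.mul_le_mul (Nat.mul_le_mul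
      (Nat.mul_le_mul (Nat.mul_le_mul (by have := F.rd; have := F.hd; omega) (fac_le le_rfl))
        (fac_le (by omega)))
      ((Nat.le_of_dvd (Nat.factorial_pos _) (Nat.lcmUpto_dvd_factorial _)).trans
        (fac_le (by omega)))) (Nat.pow_le_pow_left (by omega) _)))
  obtain ⟨e, he⟩ : ∃ e, t - τ = 1 + β + e := ⟨t - τ - (1 + β), by omega⟩
  have := expo (e := e) (c := (t - τ) / 7 + 1 + (1 + t + (t - τ - 1) + (t - τ - 1))) (k := 1 + β)
    (by omega) hn (by
      rw [← he]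
      refine c3.trans ((Nat.mul_le_mul c4 c5).trans (le_of_eq ?_))
      ring)
  omega

lemma four_le (F : Facts t n d τ r ψ g ν) (ht : 128 ≤ t) (hn : 8 * t ≤ n) : 5 ≤ d := by
  by_contra! hc
  have h2 := F.r2
  have h3 := F.rd
  obtain ⟨N, rfl⟩ : ∃ N, n = t + N := ⟨n - t, by omega⟩
  rcases le_or_gt d (r + 1) with h | h
  · have b1 := F.var
    obtain ⟨T, hT⟩ : ∃ T, t + 1 - r = T + 2 := ⟨t + 1 - r - 2, by omega⟩
    rw [hT, Nat.add_sub_cancel_left] at b1
    have b2 : d * (t + N + 1 - d) * (T + 2 + 2) ≤ (r + 1) * (t + N) * (T + 2 + 2) :=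
      Nat.mul_le_mul_right _ (Nat.mul_le_mul h (by omega))
    have b3 : N * T ≤ (r + 1) * (t * (T + 4)) := by nlinarith
    have b4 : (r + 1) * (t * (T + 4)) ≤ 5 * (t * (T + 4)) := Nat.mul_le_mul_right _ (by omega)
    have b5 : 7 * t * T ≤ N * T := Nat.mul_le_mul_right _ (by omega)
    have b6 : t * 100 ≤ t * T := Nat.mul_le_mul_left _ (by omega)
    nlinarith
  · obtain rfl : r = 2 := by omega
    obtain rfl : d = 4 := by omega
    obtain ⟨m, γ, Λ, e, w, a, b, h, -⟩ := F.inc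
    obtain ⟨c, u, b1, b2, b3, b4, b5⟩ := h.two rfl
    have w0 := h.wpos 0 (by omega)
    have w1 := h.wpos 1 (by omega)
    have c1 : 0 < (t + 1 - 4) * (t + N - t - 4) * (t + 1) * u * (w 0 + w 1 - u) :=
      Nat.mul_pos (Nat.mul_pos (Nat.mul_pos (Nat.mul_pos (by omega) (by omega)) (by omega))
        (by omega)) (by omega)
    have c2 := Nat.pos_of_mul_pos_right (Nat.pos_of_mul_pos_right (c1.trans_le b5))
    have c3 : (t + 1) * u ≤ (t - c) * (w 0 + w 1) := by omega
    have c4 : 0 < (t - c) * (w 0 + w 1) := by omega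
    have c5 : (t - c) * (w 0 + w 1) * ((t + 1) * ((t - 4) * (t + N + 1 - t - 4)))
        ≤ (t - c) * (w 0 + w 1) * (c * 4 * (t + N + 1 - 4)) :=
      calc _ = (t + 1) * ((w 0 + w 1) * ((t - 4) * (t + N + 1 - t - 4) * (t - c))) := by ring
        _ = (t + 1) * u * (c * 4 * (t + N + 1 - 4)) := by rw [← b4]; ring
        _ ≤ _ := Nat.mul_le_mul_right _ c3
    have c6 := Nat.le_of_mul_le_mul_left c5 c4
    have c7 : c * 4 * (t + N + 1 - 4) ≤ (t + 1) * (8 * (N - 3)) := by
      rw [mul_assoc]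
      exact Nat.mul_le_mul (by omega) (by omega)
    have c8 : (t + 1) * (9 * (N - 3)) ≤ (t + 1) * ((t - 4) * (t + N + 1 - t - 4)) :=
      Nat.mul_le_mul_left _ (Nat.mul_le_mul (by omega) (by omega))
    have := Nat.le_of_mul_le_mul_left (c8.trans (c6.trans c7)) (by omega)
    omega

lemma huge (F : Facts t n d τ r ψ g ν) (ht : 128 ≤ t) (hn : t ^ 9 ≤ n) :
    n ^ (Nat.primesLE (t - 4)).card
      ≤ 2 ^ t * (t * t ! * t ! * t ^ (Nat.primesLE t).card) := by
  classical
  have h8 := sq_lt ht hn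
  have h9 : 128 * t ≤ t * t := Nat.mul_le_mul_right _ ht
  have h1 := tau_lt F ht hn
  have h2 := not_b1 F ht hn
  have h3 := four_le F ht (by omega)
  have b1 := F.b0 (psi_lt F (by omega)) h2
  have b2 := card_filter_add_card_filter_not (s := Ico (2 * τ + 2) t) (fun j => GiP j τ d r)
  rw [Nat.card_Ico] at b2
  generalize ((Ico (2 * τ + 2) t).filter (fun j => ¬ GiP j τ d r)).card = β at b1 b2
  have c1 : (Nat.primesLE (t - 4)).card
      ≤ τ + ((Ico (2 * τ + 2) t).filter (fun j => GiP j τ d r)).card := by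
    rw [← card_filter_add_card_filter_not (s := Nat.primesLE (t - 4)) (fun p => p + 2 ≤ 2 * τ)]
    refine Nat.add_le_add ?_ ?_
    · conv_rhs => rw [← card_range τ]
      refine card_le_card_of_injOn (fun p => (p + 1) / 2) (fun p hp => ?_) fun p hp q hq e => ?_
      · have := (mem_filter.1 (mem_coe.1 hp)).2
        exact mem_coe.2 (mem_range.2 (show (p + 1) / 2 < τ by omega))
      · have a1 := Nat.prime_of_mem_primesLE (mem_filter.1 (mem_coe.1 hp)).1
        have a2 := Nat.prime_of_mem_primesLE (mem_filter.1 (mem_coe.1 hq)).1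
        have := a1.eq_two_or_odd
        have := a2.eq_two_or_odd
        have := a1.two_le
        have := a2.two_le
        simp only at e
        omega
    · refine card_le_card_of_injOn (fun p => p + 3) (fun p hp => ?_) fun p _ q _ e => by
        simpa using e
      obtain ⟨a1, a2⟩ := mem_filter.1 (mem_coe.1 hp)
      obtain ⟨a3, a4⟩ := Nat.mem_primesLE.1 a1
      beta_reduce
      exact mem_coe.2 (mem_filter.2 ⟨mem_Ico.2 (by constructor <;> omega), by omega, by omega,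
        Or.inl ⟨3, le_rfl, by omega, a4, Or.inl (by omega)⟩⟩)
  have c3 := pow_le_desc (n := n) (x := n - τ) (k := t - τ) (c := 2) (by omega)
  have c5 : (n - τ).descFactorial (t - τ)
      ≤ t * t ! * t ! * t ^ (Nat.primesLE t).card * n ^ (2 + β) :=
    (Nat.le_mul_of_pos_left _ four_pos).trans (b1.trans (Nat.mul_le_mul (Nat.mul_le_mul
      (Nat.mul_le_mul (Nat.mul_le_mul_right _ (by have := F.rd; have := F.hd; omega))
        (Nat.factorial_le (by omega)))
      ((lcm_le _).trans (Nat.pow_le_pow_left (by omega) _ |>.trans (Nat.pow_le_pow_right (by omega)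
        (card_le_card (Nat.primesLE_mono (by omega)))))))
      (Nat.pow_le_pow_left (by omega) _)))
  refine Nat.le_of_mul_le_mul_right ?_ (show 0 < n ^ (2 + β) from pow_pos (by omega) _)
  rw [← pow_add, mul_assoc]
  exact (Nat.pow_le_pow_right (by omega) (by omega)).trans (c3.trans
    (Nat.mul_le_mul (Nat.pow_le_pow_right (by omega) (by omega)) c5))

end Tail

end Pool.Agent.H5Hom
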