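import Pool.Agent.Lib.MP_078193_al.NTailB

/-! Large `t`: the analytic range `t ≥ 2 ^ 14`. -/

open Finset
open scoped Nat

namespace Pool.Agent.H5Hom

namespace Tail

variable {t n d τ r ψ g : ℕ} {ν : ℕ → ℕ}

lemma pi_le (x : ℕ) : 15 * (Nat.primesLE x).card ≤ 270 + 4 * x := by
  have h := Nat.primeCounting_add_le (a := 30) (k := 30) (by omega) le_rfl x
  rw [show Nat.primeCounting 30 = 10 by decide, show Nat.totient 30 = 8 by decide] at h
  have h' := Nat.monotone_primeCounting (show x ≤ 30 + x by omega)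
  rw [Nat.primesLE_card_eq_primeCounting]
  omega

lemma four_pow_le (k : ℕ) : (k + 15) ^ 4 ≤ 2 ^ (k + 16) := by
  induction k with
  | zero => norm_num
  | succ k ih =>
    have : (k + 1 + 15) ^ 4 ≤ 2 * (k + 15) ^ 4 := by
      have : 0 ≤ k ^ 4 + k ^ 3 + k ^ 2 := Nat.zero_le _
      ring_nf
      omega
    rw [show k + 1 + 16 = k + 16 + 1 by ring, pow_succ 2]
    omega

lemma choose_low (ht : 0 < t) (u : ℕ) (hu : u ≤ t) :
    4 ^ t * 3 ^ u ≤ 2 * t * 2 ^ u * (2 * t + u).choose t := by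
  induction u with
  | zero => simpa [Nat.centralBinom] using Nat.four_pow_le_two_mul_self_mul_centralBinom t ht
  | succ u ih =>
    have h1 := Nat.choose_mul_succ_eq (2 * t + u) t
    have h2 : 3 * (2 * t + u).choose t ≤ 2 * (2 * t + u + 1).choose t := by
      refine Nat.le_of_mul_le_mul_right ?_ (show 0 < 2 * t + u + 1 - t by omega)
      rw [mul_assoc 2, ← h1, mul_right_comm, ← mul_assoc, mul_right_comm 2]
      exact Nat.mul_le_mul_right _ (by omega)
    calc 4 ^ t * 3 ^ (u + 1) = 4 ^ t * 3 ^ u * 3 := by ring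
      _ ≤ 2 * t * 2 ^ u * (2 * t + u).choose t * 3 := Nat.mul_le_mul_right _ (ih (by omega))
      _ = 2 * t * 2 ^ u * (3 * (2 * t + u).choose t) := by ring
      _ ≤ 2 * t * 2 ^ u * (2 * (2 * t + u + 1).choose t) := Nat.mul_le_mul_left _ h2
      _ = _ := by rw [← add_assoc]; ring

lemma choose_low' (ht : 0 < t) (hn : 2 * t ≤ n) {x : ℕ} (h1 : x ≤ t) (h2 : 3 * x ≤ n) :
    3 ^ t * 4 ^ x ≤ 2 ^ t * (2 * t) * n.choose t := by
  obtain ⟨u, v, y, h3, h4, h5, h6⟩ : ∃ u v y, t = u + v ∧ 2 * t + u ≤ n ∧ t = x + y ∧ v ≤ 3 * y :=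
    ⟨min t (n - 2 * t), t - min t (n - 2 * t), t - x, by omega, by omega, by omega, by omega⟩
  have a1 : 3 ^ v ≤ 2 ^ v * 4 ^ y := by
    refine (Nat.pow_le_pow_iff_left (n := 3) (by omega)).1 ?_
    calc (3 ^ v) ^ 3 = (3 ^ 3) ^ v := by rw [← pow_mul, mul_comm, pow_mul]
      _ ≤ (8 * 4) ^ v := Nat.pow_le_pow_left (by omega) _
      _ ≤ (2 ^ 3) ^ v * 4 ^ (3 * y) := by
          rw [mul_pow]; exact Nat.mul_le_mul_left _ (Nat.pow_le_pow_right (by omega) h6)
      _ = _ := by rw [mul_pow, ← pow_mul, ← pow_mul, ← pow_mul, mul_comm v, mul_comm y]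
  refine Nat.le_of_mul_le_mul_right ?_ (show 0 < 2 ^ u by positivity)
  calc 3 ^ t * 4 ^ x * 2 ^ u = 3 ^ v * (3 ^ u * 4 ^ x * 2 ^ u) := by
        conv_lhs => rw [h3]
        ring
    _ ≤ 2 ^ v * 4 ^ y * (3 ^ u * 4 ^ x * 2 ^ u) := Nat.mul_le_mul_right _ a1
    _ = 2 ^ (u + v) * (4 ^ (x + y) * 3 ^ u) := by ring
    _ ≤ 2 ^ t * (2 * t * 2 ^ u * n.choose t) := by
        rw [← h3, ← h5]
        exact Nat.mul_le_mul_left _ ((choose_low ht u (by omega)).trans
          (Nat.mul_le_mul_left _ (Nat.choose_le_choose t h4)))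
    _ = _ := by ring

lemma pow_le_choose (hn : 2 * t ≤ n) : n ^ t ≤ (2 * t) ^ t * n.choose t := by
  have c3 := pow_le_desc (n := n) (x := n) (k := t) (c := 2) (by omega)
  rw [Nat.descFactorial_eq_factorial_mul_choose] at c3
  rw [mul_pow, mul_assoc]
  exact c3.trans (Nat.mul_le_mul_left _ (Nat.mul_le_mul_right _ (fac_le le_rfl)))

lemma root {c E : ℕ} (ht : 0 < t) (hn : 2 * t ≤ n) (h : (2 * t) ^ (c + 1) ≤ n ^ c)
    (h' : n.choose t ≤ n ^ E) : t ≤ (c + 1) * E := by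
  refine (Nat.pow_le_pow_iff_right (a := n) (by omega)).1
    (Nat.le_of_mul_le_mul_left ?_ (show 0 < n ^ (c * t) from pow_pos (by omega) _))
  calc n ^ (c * t) * n ^ t = (n ^ t) ^ (c + 1) := by ring
    _ ≤ ((2 * t) ^ t * n ^ E) ^ (c + 1) := Nat.pow_le_pow_left
        ((pow_le_choose hn).trans (Nat.mul_le_mul_left _ h')) _
    _ = ((2 * t) ^ (c + 1)) ^ t * n ^ ((c + 1) * E) := by ring
    _ ≤ _ := Nat.mul_le_mul_right _ (by rw [pow_mul]; exact Nat.pow_le_pow_left h _)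

lemma two_le {a b : ℕ} (h : 2 ^ a ≤ 2 ^ b) : a ≤ b :=
  (Nat.pow_le_pow_iff_right (by omega)).1 h

theorem analytic (F : Facts t n d τ r ψ g ν) (ht : 16384 ≤ t) : False := by
  have hn := F.hn
  obtain ⟨k, k1, k2, k3⟩ : ∃ k, t < 2 ^ k ∧ 15 ≤ k ∧ k ^ 4 ≤ 4 * t := by
    have h1 : 14 ≤ Nat.log 2 t := Nat.le_log_of_pow_le (by omega) ht
    have h2 := Nat.pow_log_le_self 2 (show t ≠ 0 by omega)
    obtain ⟨k, hk⟩ := Nat.exists_eq_add_of_le' h1
    have h3 := four_pow_le k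
    have h4 := Nat.lt_pow_succ_log_self (b := 2) (by omega) t
    rw [hk] at h2 h4
    refine ⟨k + 15, h4, by omega, ?_⟩
    rw [show k + 16 = k + 14 + 2 by ring, pow_add] at h3
    omega
  obtain ⟨a, a1, a2, a3⟩ : ∃ a, a * a ≤ t ∧ t < (a + 1) * (a + 1) ∧ 128 ≤ a :=
    ⟨t.sqrt, Nat.sqrt_le t, Nat.lt_succ_sqrt t, Nat.le_sqrt.2 ht⟩
  have a4 : k * k ≤ 2 * a + 1 := by
    by_contra! h
    have := Nat.mul_le_mul h h
    nlinarith
  have a5 : 8 * k ≤ a := by nlinarith
  have a6 : 128 * a ≤ t := (Nat.mul_le_mul_right _ a3).trans a1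
  have pw : ∀ {x y : ℕ} (e : ℕ), x < 2 ^ y → x ^ e ≤ 2 ^ (y * e) := fun e h => by
    rw [pow_mul]; exact Nat.pow_le_pow_left h.le _
  rcases le_or_gt (2 ^ (t / 8)) n with h | h
  · have b1 := huge F (by omega)
      ((pw 9 k1).trans ((Nat.pow_le_pow_right (by omega) (by omega)).trans h))
    have b2 := Chebyshev.two_pow_le_mul_lcmUpto (t - 4)
    have b3 := pi_le t
    have b4 := lcm_le (t - 4)
    generalize (Nat.primesLE (t - 4)).card = P at b1 b4
    have b5 : t - 4 ≤ k + k * P := two_le (b2.trans (by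
      rw [pow_add]
      exact Nat.mul_le_mul (by omega) (b4.trans (pw P (by omega)))))
    have b6 : t / 8 * P ≤ t + (k + k * t + k * t + k * t) := two_le (by
      rw [pow_mul, pow_add, pow_add, pow_add, pow_add]
      refine (Nat.pow_le_pow_left h P).trans (b1.trans (Nat.mul_le_mul_left _ ?_))
      have := (fac_le le_rfl).trans (pw t k1)
      exact Nat.mul_le_mul (Nat.mul_le_mul (Nat.mul_le_mul k1.le this) this)
        ((Nat.pow_le_pow_right (by omega) (by omega)).trans (pw t k1)))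
    have b7 : P ≤ 25 * k + 8 := by
      by_contra! hc
      have := Nat.mul_le_mul (show t - 7 ≤ 8 * (t / 8) by omega) hc
      obtain ⟨u, rfl⟩ : ∃ u, t = u + 7 := ⟨t - 7, by omega⟩
      rw [Nat.add_sub_cancel] at this
      have := Nat.mul_le_mul_left k (show 200 ≤ u by omega)
      nlinarith
    have := Nat.mul_le_mul_left k b7
    have : k * (25 * k + 8) = 25 * (k * k) + 8 * k := by ring
    omega
  obtain ⟨L, l1, l2, l3⟩ : ∃ L, n < 2 ^ L ∧ (∀ y, n < 2 ^ y → L ≤ y) ∧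
      ∀ y, n ^ 2 < 2 ^ y → 2 * L ≤ y + 1 := by
    have h2 := Nat.pow_log_le_self 2 (show n ≠ 0 by omega)
    refine ⟨Nat.log 2 n + 1, Nat.lt_pow_succ_log_self (by omega) n, fun y hy =>
      (Nat.pow_lt_pow_iff_right (by omega)).1 (h2.trans_lt hy), fun y hy => ?_⟩
    have := (Nat.pow_le_pow_left h2 2).trans_lt hy
    rw [← pow_mul] at this
    have := (Nat.pow_lt_pow_iff_right (by omega)).1 this
    omega
  have l4 := l2 _ h
  obtain ⟨E, e1, e2⟩ : ∃ E, E ≤ a + 2 * k + L + 3 ∧ n.choose t ≤ n ^ E * sm n t := by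
    obtain ⟨i, hi⟩ : ∃ i, i = k + (L + 1) / 2 := ⟨_, rfl⟩
    refine ⟨a + 2 + 2 * i, by omega, erd F ?_ (by omega) ((Nat.factorial_le_pow _).trans
      ((Nat.pow_le_pow_left (by omega) _).trans (Nat.pow_le_pow_right (by omega) (by nlinarith))))⟩
    rw [Nat.mul_div_cancel_left _ two_pos]
    refine Nat.le_of_mul_le_mul_left (le_trans ?_
      (Nat.four_pow_le_two_mul_self_mul_centralBinom i (by omega))) (show 0 < 2 * i by omega)
    calc 2 * i * (t * n) ≤ 2 ^ k * (2 ^ k * 2 ^ L) :=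
          Nat.mul_le_mul (by omega) (Nat.mul_le_mul k1.le l1.le)
      _ ≤ 2 ^ (2 * i) := by
          rw [← pow_add, ← pow_add]; exact Nat.pow_le_pow_right (by omega) (by omega)
      _ = (2 ^ 2) ^ i := by rw [pow_mul]
  have p1 := pi_le t
  have e3 : n.choose t ≤ n ^ (E + (Nat.primesLE t).card) := by
    rw [pow_add]; exact e2.trans (Nat.mul_le_mul_left _ (sm_le1 (by omega)))
  have k4 : 2 * t < 2 ^ (k + 1) := by rw [pow_succ]; omega
  rcases le_or_gt ((2 * t) ^ 2) n with h1 | h1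
  · have := root (c := 1) (by omega) (by omega) (by rwa [pow_one]) e3
    omega
  rcases le_or_gt ((2 * t) ^ 3) (n ^ 2) with h2 | h2
  · have := root (c := 2) (by omega) (by omega) h2 e3
    have := l2 _ (h1.trans_le (pw 2 k4))
    omega
  obtain ⟨s, s1, s2⟩ : ∃ s, s * s ≤ n ∧ n < (s + 1) ^ 2 := ⟨n.sqrt, Nat.sqrt_le n, Nat.lt_succ_sqrt' n⟩
  have p2 := pi_le s
  have e4 : ∀ x, 2 ≤ x → t ≤ x ∨ n < 3 * (x + 1) →
      n.choose t ≤ 2 ^ (L * (E + (Nat.primesLE s).card)) * 4 ^ x := fun x h3 h4 => by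
    refine e2.trans ((Nat.mul_le_mul_left _ (sm_le2 hn s2 h3 h4)).trans ?_)
    rw [← mul_assoc, ← pow_add]
    exact Nat.mul_le_mul (pw _ l1) (primorial_le_four_pow x)
  generalize (Nat.primesLE s).card = P at p2 e4
  rcases le_or_gt (32 * t) n with h3 | h3
  · have b1 := l3 _ (h2.trans_le (pw 3 k4))
    have b2 : 2 * t ≤ L * (E + P) := by
      refine two_le (Nat.le_of_mul_le_mul_right (Nat.le_of_mul_le_mul_left ?_
        (show 0 < (2 * t) ^ t from pow_pos (by omega) _)) (show 0 < 4 ^ t by positivity))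
      refine le_trans ?_ ((pow_le_choose (by omega)).trans
        (Nat.mul_le_mul_left _ (e4 t (by omega) (Or.inl le_rfl))))
      rw [pow_mul, ← mul_pow, ← mul_pow]
      exact Nat.pow_le_pow_left (by omega) _
    have b3 : L * s ≤ 5 * ((a + 1) * (a + 1)) := by
      refine (Nat.pow_le_pow_iff_left (n := 4) (by omega)).1 ?_
      calc (L * s) ^ 4 = (L * L) ^ 2 * (s * s) ^ 2 := by ring
        _ ≤ (8 * (a + 1)) ^ 2 * (2 * ((a + 1) * (a + 1))) ^ 3 := by
            refine Nat.mul_le_mul (Nat.pow_le_pow_left ?_ _) ((Nat.pow_le_pow_left s1 _).trans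
              (h2.le.trans (Nat.pow_le_pow_left (by omega) _)))
            have := Nat.mul_le_mul (show L ≤ 2 * k by omega) (show L ≤ 2 * k by omega)
            nlinarith
        _ = 512 * ((a + 1) * (a + 1)) ^ 4 := by ring
        _ ≤ _ := by rw [mul_pow 5]; exact Nat.mul_le_mul_right _ (by norm_num)
    have b4 := Nat.mul_le_mul_left L p2
    have b5 := Nat.mul_le_mul (show L ≤ 2 * k by omega) (show E ≤ a + 4 * k + 3 by omega)
    have b6 := Nat.mul_le_mul_left a a5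
    have b7 := Nat.mul_le_mul_left a a3
    nlinarith
  · have b1 := l2 (k + 5) (by rw [pow_add]; omega)
    have b2 : 11 * t ≤ (t + (k + 1) + L * (E + P)) * 7 := by
      have c1 := choose_low' (t := t) (n := n) (x := min t (n / 3)) (by omega) (by omega)
        (by omega) (by omega)
      have c2 : 3 ^ t ≤ 2 ^ (t + (k + 1) + L * (E + P)) := by
        refine Nat.le_of_mul_le_mul_right (c1.trans ?_) (show 0 < 4 ^ min t (n / 3) by positivity)
        rw [pow_add, pow_add, mul_assoc _ _ (4 ^ _)]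
        exact Nat.mul_le_mul (Nat.mul_le_mul_left _ k4.le) (e4 _ (by omega) (by omega))
      refine two_le ?_
      rw [pow_mul, pow_mul]
      refine le_trans ?_ (Nat.pow_le_pow_left c2 7)
      rw [← pow_mul 3, mul_comm t, pow_mul 3]
      exact Nat.pow_le_pow_left (by norm_num) _
    have b3 : s ≤ 6 * (a + 1) := by
      by_contra! hc
      have := Nat.mul_le_mul hc.le hc.le
      nlinarith
    have b5 := Nat.mul_le_mul b1 (show 5 * (E + P) ≤ 13 * a + 15 * k + 140 by omega)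
    have b6 := Nat.mul_le_mul_left a a5
    have b7 := Nat.mul_le_mul_left a a3
    nlinarith

end Tail

end Pool.Agent.H5Hom
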