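import Pool.Agent.Lib.MP_078193_al.NTailB

/-! Large `t`: a checker for boxes of values of `t` and `n`. -/

open Finset
open scoped Nat

namespace Pool.Agent.H5Hom

namespace Tail

variable {t n d τ r ψ g : ℕ} {ν : ℕ → ℕ}

/-- `255 !` -/
def bigF : ℕ := 3350850684932979117652665123754814942022584063591740702576779884286208799035732771005626138126763314259280802118502282445926550135522251856727692533193070412811083330325659322041700029792166250734253390513754466045711240338462701034020262992581378423147276636643647155396305352541105541439434840109915068285430675068591638581980604162940383356586739198268782104924614076605793562865241982176207428620969776803149467431386807972438247689158656000000000000000000000000000000000000000000000000000000000000000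

/-- primality test below `65536` -/
def isP (p : ℕ) : Bool :=
  cond (Nat.ble 256 p) (Nat.beq (Nat.gcd p bigF) 1) (cond (Nat.ble 16 p)
    (Nat.beq (Nat.gcd p 1307674368000) 1) (cond (Nat.ble 4 p) (Nat.beq (Nat.gcd p 6) 1)
      (Nat.ble 2 p)))

/-- evaluate `x` before passing it on -/
noncomputable def frc {β : Type} (x : ℕ) (k : ℕ → β) : β := Nat.rec (k 0) (fun m _ => k m.succ) x

/-- `c` times the factorial -/
noncomputable def fac' (l : ℕ) : ℕ → ℕ :=
  Nat.rec (fun c => c) (fun l ih c => frc (c * (l + 1)) ih) l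

/-- factorial -/
noncomputable def fac (l : ℕ) : ℕ := fac' l 1

/-- `c` plus the number of primes in `(a, a + l]` -/
noncomputable def cnt (a l : ℕ) : ℕ → ℕ :=
  Nat.rec (fun c => c) (fun l ih c => cond (isP (a + l + 1)) (frc (c + 1) ih) (ih c)) l

/-- `c` times the primorial -/
noncomputable def prm (l : ℕ) : ℕ → ℕ :=
  Nat.rec (fun c => c) (fun l ih c => cond (isP (l + 1)) (frc (c * (l + 1)) ih) (ih c)) l

/-- bounded conjunction -/
noncomputable def allB (f : ℕ → Bool) (K : ℕ) : Bool := Nat.rec true (fun i ih => f i && ih) K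

/-- one box `ta ≤ t ≤ tb`, `na ≤ n ≤ nb` -/
noncomputable def box (ta tb Fa Fb Pb R na nb j σ h w : ℕ) : Bool :=
  Nat.ble j ta && Nat.ble (tb * nb * fac (j / 2) * fac (j - j / 2)) (fac j) &&
  Nat.ble (Fb * (tb + 1)) (max (na - tb) (ta + 1) ^ (σ * (σ + 3))) &&
  cond (Nat.beq h 0)
    (cond (Nat.beq w 0) (Nat.blt (Fa * nb ^ (σ + 2 + j + Pb)) ((na + 1 - ta) ^ ta))
      (Nat.blt nb ((w + 1) ^ 2) && Nat.ble w tb &&
        Nat.blt (Fa * (nb ^ (σ + 2 + j + cnt 0 w 0) * R)) ((na + 1 - ta) ^ ta * prm w 1)))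
    (Nat.ble (h + w + j) ta && Nat.ble ta na && Nat.blt nb 65536 &&
      allB (fun i => Nat.ble (σ + 2) (cnt (na - ta + (i + 1) * h) w 0)) ((nb - na) / h + 1))

/-- a chain of boxes followed by the range of very large `n` -/
noncomputable def chain (ta tb Fa Fb Pb R : ℕ) (L : List (ℕ × ℕ × ℕ × ℕ × ℕ)) : ℕ → Bool :=
  List.rec (fun na => Nat.ble (tb ^ 9) na &&
      Nat.blt (2 ^ tb * (tb * Fb * Fb * tb ^ Pb)) (na ^ cnt 0 (ta - 4) 0))
    (fun x _ ih na => box ta tb Fa Fb Pb R na x.1 x.2.1 x.2.2.1 x.2.2.2.1 x.2.2.2.2 &&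
      ih (x.1 + 1)) L

/-- all `n` for `ta ≤ t ≤ tb` -/
noncomputable def strip (ta tb : ℕ) (L : List (ℕ × ℕ × ℕ × ℕ × ℕ)) : Bool :=
  Nat.ble 128 ta && Nat.blt tb 65536 &&
  frc (fac ta) fun Fa => frc (fac tb) fun Fb => frc (cnt 0 tb 0) fun Pb => frc (prm tb 1) fun R =>
    chain ta tb Fa Fb Pb R L (2 * ta + 1)

/-- consecutive strips from `ta` up to `T - 1` -/
noncomputable def strips (T : ℕ) (L : List (ℕ × List (ℕ × ℕ × ℕ × ℕ × ℕ))) : ℕ → Bool :=
  List.rec (fun ta => Nat.ble T ta) (fun x _ ih ta => strip ta x.1 x.2 && ih (x.1 + 1)) L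

lemma frc_eq {β : Type} (x : ℕ) (k : ℕ → β) : frc x k = k x := by cases x <;> rfl

lemma fac'_eq (l : ℕ) : ∀ c, fac' l c = c * l ! := by
  induction l with
  | zero => intro c; exact (mul_one c).symm
  | succ l ih =>
    intro c
    rw [Nat.factorial_succ, ← mul_assoc, ← ih]
    exact frc_eq _ _

lemma fac_eq (l : ℕ) : fac l = l ! := by rw [fac, fac'_eq, one_mul]

lemma prime_iff {K p : ℕ} (h0 : 1 ≤ K) (h1 : K < p) (h2 : p < (K + 1) ^ 2) :
    Nat.gcd p K ! = 1 ↔ p.Prime := by
  refine ⟨fun h => ?_, fun h => (h.coprime_iff_not_dvd.2 (by rw [h.dvd_factorial]; omega))⟩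
  by_contra hp
  have h3 := Nat.minFac_sq_le_self (by omega) hp
  have h4 := Nat.minFac_prime (show p ≠ 1 by omega)
  have h5 : p.minFac < K + 1 := lt_of_pow_lt_pow_left₀ 2 (by omega) (h3.trans_lt h2)
  have := Nat.dvd_gcd (Nat.minFac_dvd p) (h4.dvd_factorial.2 (Nat.le_of_lt_succ h5))
  rw [h] at this
  exact h4.not_dvd_one this

lemma bigF_eq : bigF = 255 ! := by
  rw [← fac_eq]
  decide +kernel

lemma isP_iff {p : ℕ} (h : p < 65536) : isP p = true ↔ p.Prime := by
  simp only [isP, Bool.cond_eq_ite, Nat.ble_eq]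
  split_ifs with h1 h2 h3
  · rw [Nat.beq_eq, bigF_eq]; exact prime_iff (by omega) h1 h
  · rw [Nat.beq_eq]; exact prime_iff (K := 15) (by omega) h2 (by omega)
  · rw [Nat.beq_eq]; exact prime_iff (K := 3) (by omega) h3 (by omega)
  · have : p < 4 := by omega
    interval_cases p <;> decide

lemma cnt_eq (a l : ℕ) (h : a + l < 65536) :
    ∀ c, cnt a l c = c + ((Ioc a (a + l)).filter Nat.Prime).card := by
  induction l with
  | zero => intro c; simp [cnt]
  | succ l ih =>
    intro c
    have e : cnt a (l + 1) c = cond (isP (a + l + 1)) (frc (c + 1) (cnt a l)) (cnt a l c) := rfl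
    rw [e, frc_eq, ih (by omega), ih (by omega), ← add_assoc a,
      ← insert_Ioc_right_eq_Ioc_add_one (by omega), filter_insert]
    by_cases hp : (a + l + 1).Prime
    · rw [(isP_iff (by omega)).2 hp, if_pos hp, card_insert_of_notMem (by simp), cond_true]
      omega
    · rw [Bool.eq_false_iff.2 fun h' => hp ((isP_iff (by omega)).1 h'), if_neg hp, cond_false]

lemma cnt_pi {x : ℕ} (h : x < 65536) : cnt 0 x 0 = (Nat.primesLE x).card := by
  rw [cnt_eq 0 x (by omega), zero_add, zero_add]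
  congr 1
  ext p
  rw [mem_filter, mem_Ioc, Nat.mem_primesLE]
  exact ⟨fun h => ⟨h.1.2, h.2⟩, fun h => ⟨⟨h.2.pos, h.1⟩, h.2⟩⟩

lemma prm_eq (l : ℕ) (h : l < 65536) : ∀ c, prm l c = c * primorial l := by
  induction l with
  | zero => intro c; exact (mul_one c).symm
  | succ l ih =>
    intro c
    have e : prm (l + 1) c = cond (isP (l + 1)) (frc (c * (l + 1)) (prm l)) (prm l c) := rfl
    rw [e, frc_eq, ih (by omega), ih (by omega), primorial, primorial, range_add_one (n := l + 1),
      filter_insert]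
    by_cases hp : (l + 1).Prime
    · rw [(isP_iff (by omega)).2 hp, if_pos hp, prod_insert (by simp), cond_true, mul_assoc]
    · rw [Bool.eq_false_iff.2 fun h' => hp ((isP_iff (by omega)).1 h'), if_neg hp, cond_false]

lemma allB_spec {f : ℕ → Bool} {K : ℕ} (h : allB f K = true) : ∀ i < K, f i = true := by
  induction K with
  | zero => intro i hi; omega
  | succ K ih =>
    have e : allB f (K + 1) = (f K && allB f K) := rfl
    rw [e, Bool.and_eq_true] at h
    intro i hi
    rcases Nat.lt_succ_iff_lt_or_eq.1 hi with h' | rfl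
    · exact ih h.2 i h'
    · exact h.1

lemma choose_up {a : ℕ} (h : a ≤ t) (hn : 2 * t ≤ n) : n.choose a ≤ n.choose t := by
  induction h with
  | refl => exact le_rfl
  | step _ ih => exact (ih (by omega)).trans (Nat.choose_le_succ_of_lt_half_left (by omega))

lemma box_ok (F : Facts t n d τ r ψ g ν) {ta tb na nb j σ h w : ℕ} (h1 : ta ≤ t) (h2 : t ≤ tb)
    (h3 : na ≤ n) (h4 : n ≤ nb) (h0 : tb < 65536)
    (hb : box ta tb ta ! tb ! (Nat.primesLE tb).card (primorial tb) na nb j σ h w = true) :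
    False := by
  have hn := F.hn
  have ht := F.ht
  simp only [box, Bool.and_eq_true, Nat.ble_eq, fac_eq, Bool.cond_eq_ite, Nat.beq_eq] at hb
  obtain ⟨⟨⟨b1, b2⟩, b3⟩, b4⟩ := hb
  have c1 : t * n ≤ j.choose (j / 2) := by
    rw [← Nat.choose_mul_factorial_mul_factorial (Nat.div_le_self j 2)] at b2
    exact (Nat.mul_le_mul h2 h4).trans (Nat.le_of_mul_le_mul_right (Nat.le_of_mul_le_mul_right b2
      (Nat.factorial_pos _)) (Nat.factorial_pos _))
  have c2 : (t + 1)! ≤ (n - t) ^ (σ * (σ + 3)) := by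
    rw [mul_comm, ← Nat.factorial_succ] at b3
    exact (Nat.factorial_le (by omega)).trans (b3.trans (Nat.pow_le_pow_left (by omega) _))
  have c3 : (na + 1 - ta) ^ ta ≤ ta ! * (nb ^ (σ + 2 + j) * sm n t) := by
    refine (Nat.pow_le_pow_left (show _ ≤ n + 1 - ta by omega) _).trans
      ((Nat.pow_sub_le_descFactorial n ta).trans ?_)
    rw [Nat.descFactorial_eq_factorial_mul_choose]
    exact Nat.mul_le_mul_left _ ((choose_up h1 (by omega)).trans ((erd F c1 (by omega) c2).trans
      (Nat.mul_le_mul_right _ (Nat.pow_le_pow_left h4 _))))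
  split_ifs at b4 with e1 e2
  · rw [Nat.blt_eq, pow_add] at b4
    exact absurd (c3.trans (Nat.mul_le_mul_left _ (Nat.mul_le_mul_left _ ((sm_le1 (by omega)).trans
      ((Nat.pow_le_pow_left h4 _).trans (Nat.pow_le_pow_right (by omega)
        (card_le_card (Nat.primesLE_mono h2)))))))) (not_le.2 b4)
  · simp only [Bool.and_eq_true, Nat.blt_eq, Nat.ble_eq] at b4
    obtain ⟨⟨b4, b5⟩, b6⟩ := b4
    rw [cnt_pi (by omega), prm_eq _ (by omega), one_mul, pow_add, mul_assoc] at b6
    refine absurd ((Nat.mul_le_mul_right _ c3).trans ?_) (not_le.2 b6)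
    rw [mul_assoc, mul_assoc]
    exact Nat.mul_le_mul_left _ (Nat.mul_le_mul_left _
      ((sm_le4 hn (h4.trans_lt b4) (by omega) h2 b5).trans
        (Nat.mul_le_mul_right _ (Nat.pow_le_pow_left h4 _))))
  · simp only [Bool.and_eq_true, Nat.blt_eq, Nat.ble_eq] at b4
    obtain ⟨⟨⟨b4, h5⟩, b5⟩, b6⟩ := b4
    have c4 := allB_spec b6 ((n - na) / h) (Nat.lt_succ_of_le (Nat.div_le_div_right (by omega)))
    have c5 := Nat.div_add_mod (n - na) h
    have c6 := Nat.mod_lt (n - na) (Nat.pos_of_ne_zero e1)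
    rw [add_mul, one_mul, mul_comm _ h] at c4
    generalize h * ((n - na) / h) = y at c4 c5
    rw [Nat.ble_eq, cnt_eq _ _ (by omega), zero_add] at c4
    exact absurd (c4.trans (card_le_card (filter_subset_filter _
      (Ioc_subset_Ioc (by omega) (by omega))))) (not_le.2 (win F c1 c2))

lemma chain_ok (F : Facts t n d τ r ψ g ν) {ta tb : ℕ} (h0 : 128 ≤ ta) (h1 : ta ≤ t) (h2 : t ≤ tb)
    (h5 : tb < 65536) (L : List (ℕ × ℕ × ℕ × ℕ × ℕ)) : ∀ na ≤ n,
    chain ta tb ta ! tb ! (Nat.primesLE tb).card (primorial tb) L na = true → False := by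
  induction L with
  | nil =>
    intro na h3 hb
    simp only [chain, Bool.and_eq_true, Nat.ble_eq, Nat.blt_eq] at hb
    obtain ⟨b1, b2⟩ := hb
    have c1 := huge F (by omega) ((Nat.pow_le_pow_left h2 9).trans (b1.trans h3))
    rw [cnt_pi (by omega)] at b2
    have c2 := Nat.factorial_le h2
    refine absurd (((Nat.pow_le_pow_left h3 _).trans (Nat.pow_le_pow_right (by have := F.hn; omega)
      (card_le_card (Nat.primesLE_mono (show ta - 4 ≤ t - 4 by omega))))).trans (c1.trans ?_))
      (not_le.2 b2)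
    exact Nat.mul_le_mul (Nat.pow_le_pow_right (by omega) h2) (Nat.mul_le_mul (Nat.mul_le_mul
      (Nat.mul_le_mul h2 c2) c2) ((Nat.pow_le_pow_left h2 _).trans (Nat.pow_le_pow_right (by omega)
        (card_le_card (Nat.primesLE_mono h2)))))
  | cons x L ih =>
    intro na h3 hb
    have hb' := Bool.and_eq_true_iff.1 hb
    rcases le_or_gt n x.1 with h | h
    · exact box_ok F h1 h2 h3 h h5 hb'.1
    · exact ih _ h hb'.2

lemma strips_ok (F : Facts t n d τ r ψ g ν) {T : ℕ} (hT : t < T)
    (L : List (ℕ × List (ℕ × ℕ × ℕ × ℕ × ℕ))) : ∀ ta ≤ t, strips T L ta = true → False := by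
  induction L with
  | nil => intro ta h1 hb; have := Nat.le_of_ble_eq_true hb; omega
  | cons x L ih =>
    intro ta h1 hb
    have hb' := Bool.and_eq_true_iff.1 hb
    rcases le_or_gt t x.1 with h | h
    · have b := hb'.1
      simp only [strip, Bool.and_eq_true, Nat.ble_eq, Nat.blt_eq, frc_eq, fac_eq] at b
      obtain ⟨⟨b1, b2⟩, b3⟩ := b
      rw [cnt_pi b2, prm_eq _ b2, one_mul] at b3
      exact chain_ok F b1 h1 h b2 _ _ (by have := F.hn; omega) b3
    · exact ih _ h hb'.2

end Tail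

end Pool.Agent.H5Hom
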