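import Pool.Agent.Lib.MP_078193_al.NTailD

/-! Large `t`: the checker of `NTailD` with a factorial computed in blocks. -/

open scoped Nat

namespace Pool.Agent.H5Hom

namespace Tail

/-- the product `(a + 1) ⋯ (a + k)` -/
noncomputable def rng (a k : ℕ) : ℕ := Nat.rec 1 (fun i ih => ih * (a + i + 1)) k

/-- `(r + 128 q) !` in blocks of `128` factors -/
noncomputable def blk (r q : ℕ) : ℕ :=
  Nat.rec (rng 0 r) (fun i ih => ih * frc (r + 128 * i) fun a => rng a 128) q

/-- factorial -/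
noncomputable def fac2 (l : ℕ) : ℕ := frc l fun m => frc (m % 128) fun r => blk r (m / 128)

lemma rng_eq (a k : ℕ) : a ! * rng a k = (a + k)! := by
  induction k with
  | zero => exact mul_one _
  | succ k ih =>
    have e : rng a (k + 1) = rng a k * (a + k + 1) := rfl
    rw [e, ← mul_assoc, ih, ← add_assoc, Nat.factorial_succ, mul_comm]

lemma blk_eq (r q : ℕ) : blk r q = (r + 128 * q)! := by
  induction q with
  | zero =>
    have h := rng_eq 0 r
    rw [Nat.factorial_zero, one_mul, zero_add] at h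
    exact h
  | succ q ih =>
    have e : blk r (q + 1) = blk r q * frc (r + 128 * q) fun a => rng a 128 := rfl
    rw [e, frc_eq, ih, rng_eq, mul_add, mul_one, add_assoc]

lemma fac2_eq : fac2 = fac := by
  funext l
  rw [fac2, frc_eq, frc_eq, blk_eq, Nat.mod_add_div, fac_eq]

/-- `box` with the factorial as a parameter -/
noncomputable def boxG (f : ℕ → ℕ) (ta tb Fa Fb Pb R na nb j σ h w : ℕ) : Bool :=
  Nat.ble j ta && Nat.ble (tb * nb * f (j / 2) * f (j - j / 2)) (f j) &&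
  Nat.ble (Fb * (tb + 1)) (max (na - tb) (ta + 1) ^ (σ * (σ + 3))) &&
  cond (Nat.beq h 0)
    (cond (Nat.beq w 0) (Nat.blt (Fa * nb ^ (σ + 2 + j + Pb)) ((na + 1 - ta) ^ ta))
      (Nat.blt nb ((w + 1) ^ 2) && Nat.ble w tb &&
        Nat.blt (Fa * (nb ^ (σ + 2 + j + cnt 0 w 0) * R)) ((na + 1 - ta) ^ ta * prm w 1)))
    (Nat.ble (h + w + j) ta && Nat.ble ta na && Nat.blt nb 65536 &&
      allB (fun i => Nat.ble (σ + 2) (cnt (na - ta + (i + 1) * h) w 0)) ((nb - na) / h + 1))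

/-- `chain` with the factorial as a parameter -/
noncomputable def chainG (f : ℕ → ℕ) (ta tb Fa Fb Pb R : ℕ) (L : List (ℕ × ℕ × ℕ × ℕ × ℕ)) :
    ℕ → Bool :=
  List.rec (fun na => Nat.ble (tb ^ 9) na &&
      Nat.blt (2 ^ tb * (tb * Fb * Fb * tb ^ Pb)) (na ^ cnt 0 (ta - 4) 0))
    (fun x _ ih na => boxG f ta tb Fa Fb Pb R na x.1 x.2.1 x.2.2.1 x.2.2.2.1 x.2.2.2.2 &&
      ih (x.1 + 1)) L

/-- `strip` with the factorial as a parameter -/
noncomputable def stripG (f : ℕ → ℕ) (ta tb : ℕ) (L : List (ℕ × ℕ × ℕ × ℕ × ℕ)) : Bool :=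
  Nat.ble 128 ta && Nat.blt tb 65536 &&
  frc (f ta) fun Fa => frc (f tb) fun Fb => frc (cnt 0 tb 0) fun Pb => frc (prm tb 1) fun R =>
    chainG f ta tb Fa Fb Pb R L (2 * ta + 1)

/-- `strips` with the factorial as a parameter -/
noncomputable def stripsG (f : ℕ → ℕ) (T : ℕ) (L : List (ℕ × List (ℕ × ℕ × ℕ × ℕ × ℕ))) :
    ℕ → Bool :=
  List.rec (fun ta => Nat.ble T ta) (fun x _ ih ta => stripG f ta x.1 x.2 && ih (x.1 + 1)) L

lemma stripsG_eq : stripsG fac2 = strips := by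
  rw [fac2_eq]
  rfl

end Tail

end Pool.Agent.H5Hom
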