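import Mathlib

/-! Up and down operators on subsets of a finite set. -/

namespace Pool.Agent.Lib.MP_078193_al

open Finset

variable {α : Type*} [Fintype α] [DecidableEq α]

/-- the subsets of size `s` -/
abbrev L (α : Type*) [Fintype α] (s : ℕ) : Finset (Finset α) := powersetCard s univ

def up (g : Finset α → ℚ) (D : Finset α) : ℚ := ∑ v ∈ D, g (D.erase v)

def dn (g : Finset α → ℚ) (A : Finset α) : ℚ := ∑ x ∈ Aᶜ, g (insert x A)

theorem flag (s : ℕ) (F : Finset α → Finset α → ℚ) :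
    ∑ D ∈ L α (s + 1), ∑ v ∈ D, F (D.erase v) D = ∑ C ∈ L α s, ∑ x ∈ Cᶜ, F C (insert x C) := by
  rw [sum_sigma', sum_sigma']
  refine sum_bij' (fun p _ => ⟨p.1.erase p.2, p.2⟩) (fun p _ => ⟨insert p.2 p.1, p.2⟩)
    ?_ ?_ ?_ ?_ ?_ <;> rintro ⟨D, v⟩ h <;> simp only [mem_sigma, mem_powersetCard_univ,
      mem_compl] at h ⊢
  · simp [h.1, h.2]
  · simp [h.1, h.2]
  · simp [h.2]
  · simp [h.2]
  · rw [insert_erase h.2]

theorem adj (s : ℕ) (g h : Finset α → ℚ) :
    ∑ D ∈ L α (s + 1), up g D * h D = ∑ C ∈ L α s, g C * dn h C := by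
  simp only [up, dn, sum_mul, mul_sum]
  exact flag s fun C D => g C * h D

theorem comm (g : Finset α → ℚ) (C : Finset α) :
    dn (up g) C = up (dn g) C + (Fintype.card α - 2 * C.card) * g C := by
  have e1 : dn (up g) C = ∑ x ∈ Cᶜ, (g C + ∑ v ∈ C, g (insert x (C.erase v))) :=
    sum_congr rfl fun x hx => by
      rw [mem_compl] at hx
      rw [up, sum_insert hx, erase_insert hx]
      exact congrArg _ (sum_congr rfl fun v hv => by
        rw [erase_insert_of_ne (by rintro rfl; exact hx hv)])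
  have e2 : up (dn g) C = ∑ v ∈ C, (g C + ∑ x ∈ Cᶜ, g (insert x (C.erase v))) :=
    sum_congr rfl fun v hv => by
      rw [dn, compl_erase, sum_insert (by simpa), insert_erase hv]
  rw [e1, e2, sum_add_distrib, sum_add_distrib, sum_comm, sum_const, sum_const, card_compl,
    nsmul_eq_mul, nsmul_eq_mul, Nat.cast_sub (card_le_univ C)]
  ring

theorem norm_up (s : ℕ) (g : Finset α → ℚ) : ∑ D ∈ L α (s + 2), up g D ^ 2 =
    ∑ A ∈ L α s, dn g A ^ 2 + (Fintype.card α - 2 * (s + 1)) * ∑ C ∈ L α (s + 1), g C ^ 2 := by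
  simp only [sq]
  rw [adj (s + 1), ← adj s, mul_sum, ← sum_add_distrib]
  refine sum_congr rfl fun C hC => ?_
  rw [comm, mem_powersetCard_univ.1 hC]; push_cast; ring

theorem norm_up_up (s : ℕ) (h : Finset α → ℚ) (hn : 2 * (s + 1) ≤ Fintype.card α) :
    (2 * Fintype.card α - 4 * s - 6) * ∑ C ∈ L α (s + 2), up h C ^ 2 ≤
      ∑ D ∈ L α (s + 3), up (up h) D ^ 2 := by
  have hc : (0 : ℚ) ≤ Fintype.card α - 2 * (s + 1) := by
    have : ((2 * (s + 1) : ℕ) : ℚ) ≤ Fintype.card α := by exact_mod_cast hn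
    push_cast at this; linarith
  have e : ∑ A ∈ L α (s + 1), dn (up h) A ^ 2 = ∑ A ∈ L α (s + 1), up (dn h) A ^ 2 +
      (Fintype.card α - 2 * (s + 1)) * (∑ A ∈ L α (s + 1), up (dn h) A * h A +
        ∑ A ∈ L α (s + 1), h A * dn (up h) A) := by
    rw [← sum_add_distrib, mul_sum, ← sum_add_distrib]
    refine sum_congr rfl fun C hC => ?_
    rw [comm, mem_powersetCard_univ.1 hC]; push_cast; ring
  have e' := norm_up (s + 1) (up h)
  rw [e, adj s, ← adj (s + 1)] at e'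
  have a1 : 0 ≤ ∑ A ∈ L α (s + 1), up (dn h) A ^ 2 := by positivity
  have a2 := mul_nonneg hc (sum_nonneg (s := L α s) fun A _ => mul_self_nonneg (dn h A))
  simp only [← sq] at *
  push_cast at e'
  rw [e']
  nlinarith

theorem sum_erase_sq (s : ℕ) (g : Finset α → ℚ) : ∑ D ∈ L α (s + 1), ∑ v ∈ D, g (D.erase v) ^ 2 =
    (Fintype.card α - s) * ∑ C ∈ L α s, g C ^ 2 := by
  rw [flag s fun C _ => g C ^ 2, mul_sum]
  refine sum_congr rfl fun C hC => ?_
  rw [sum_const, card_compl, nsmul_eq_mul, Nat.cast_sub (card_le_univ C),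
    mem_powersetCard_univ.1 hC]

end Pool.Agent.Lib.MP_078193_al
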